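import Mathlib

/-! Partitions of a finite family of integers into groups of sum `-1` modulo `b`. -/

set_option autoImplicit false
set_option linter.unusedSectionVars false

namespace Pool.Agent.Lib.MP_e26c3f_al

open Finset

variable {σ : Type*} [DecidableEq σ]

/-- Abstract states: every group has sum `-1` modulo `b`. -/
structure St (b : ℕ) (a : σ → ℕ) (V : Finset σ) (J : Finset ℕ) (f : σ → ℕ) : Prop where
  mem : ∀ v ∈ V, f v ∈ J
  dvd : ∀ j ∈ J, b ∣ (∑ v ∈ V.filter (fun v => f v = j), a v) + 1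

/-- Rearranging two groups. -/
def Mv (b : ℕ) (a : σ → ℕ) (V : Finset σ) (J : Finset ℕ) (f g : σ → ℕ) : Prop :=
  St b a V J f ∧ St b a V J g ∧
    ∃ i j, ∀ v ∈ V, f v = g v ∨ ((f v = i ∨ f v = j) ∧ (g v = i ∨ g v = j))

/-- Connected by rearrangements of two groups. -/
def Lk (b : ℕ) (a : σ → ℕ) (V : Finset σ) (J : Finset ℕ) : (σ → ℕ) → (σ → ℕ) → Prop :=
  Relation.ReflTransGen (Mv b a V J)

/-- All abstract states are connected. -/
def AbsConn (b : ℕ) (a : σ → ℕ) (V : Finset σ) (J : Finset ℕ) : Prop :=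
  ∀ f g, St b a V J f → St b a V J g → Lk b a V J f g

end Pool.Agent.Lib.MP_e26c3f_al
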