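import Mathlib
import Pool.Agent.Lib.MP_e26c3f_al.AbsDefs

/-! Minimal counterexamples to the connectivity of abstract states. -/

set_option autoImplicit false
set_option linter.unusedSectionVars false

namespace Pool.Agent.Lib.MP_e26c3f_al

open Finset

variable {σ : Type*} [DecidableEq σ]
variable {b : ℕ} {a : σ → ℕ} {V : Finset σ} {J : Finset ℕ} {f g h : σ → ℕ}

lemma Mv.symm (h : Mv b a V J f g) : Mv b a V J g f := by
  obtain ⟨h1, h2, i, j, h3⟩ := h
  refine ⟨h2, h1, i, j, fun v hv => ?_⟩
  rcases h3 v hv with h4 | ⟨h4, h5⟩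
  · exact Or.inl h4.symm
  · exact Or.inr ⟨h5, h4⟩

lemma Lk.refl (f : σ → ℕ) : Lk b a V J f f := Relation.ReflTransGen.refl

lemma Lk.trans (h1 : Lk b a V J f g) (h2 : Lk b a V J g h) : Lk b a V J f h :=
  Relation.ReflTransGen.trans h1 h2

lemma Mv.lk (h : Mv b a V J f g) : Lk b a V J f g := Relation.ReflTransGen.single h

lemma Lk.symm (h : Lk b a V J f g) : Lk b a V J g f := by
  induction h with
  | refl => exact Lk.refl _
  | tail _ h ih => exact h.symm.lk.trans ih

lemma Lk.st (h : Lk b a V J f g) (hf : St b a V J f) : St b a V J g := by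
  induction h with
  | refl => exact hf
  | tail _ h _ => exact h.2.1

lemma St.congr (hf : St b a V J f) (h : ∀ v ∈ V, f v = g v) : St b a V J g := by
  refine ⟨fun v hv => (h v hv) ▸ hf.mem v hv, fun j hj => ?_⟩
  have : V.filter (fun v => g v = j) = V.filter (fun v => f v = j) :=
    filter_congr fun v hv => by rw [h v hv]
  rw [this]
  exact hf.dvd j hj

lemma mv_of_agree (hf : St b a V J f) (h : ∀ v ∈ V, f v = g v) : Mv b a V J f g :=
  ⟨hf, hf.congr h, 0, 0, fun v hv => Or.inl (h v hv)⟩

/-- Merging two elements which are together. -/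
lemma lk_merge {x y : σ} (hx : x ∈ V) (hy : y ∈ V) (hxy : x ≠ y) (hf : St b a V J f)
    (hg : St b a V J g) (hfx : f x = f y) (hgx : g x = g y)
    (IH : AbsConn b (Function.update a x (a x + a y)) (V.erase y) J) : Lk b a V J f g := by
  set a' := Function.update a x (a x + a y) with ha'
  have key : ∀ (h : σ → ℕ) (j : ℕ), h x = h y →
      ∑ v ∈ (V.erase y).filter (fun v => h v = j), a' v =
        ∑ v ∈ V.filter (fun v => h v = j), a v := by
    intro h j hh
    by_cases hj : h x = j
    · have hx' : x ∈ (V.filter (fun v => h v = j)).erase y :=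
        mem_erase.2 ⟨hxy, mem_filter.2 ⟨hx, hj⟩⟩
      have hy' : y ∈ V.filter (fun v => h v = j) := mem_filter.2 ⟨hy, hh ▸ hj⟩
      rw [filter_erase, ← sum_erase_add _ _ hx', ← sum_erase_add _ a hy', ← sum_erase_add _ a hx']
      have h1 : a' x = a x + a y := Function.update_self _ _ _
      rw [h1, sum_congr rfl (g := a) fun v hv => Function.update_of_ne (ne_of_mem_erase hv) _ _]
      ring
    · have hy' : y ∉ V.filter (fun v => h v = j) := by
        intro h1
        exact hj (hh.trans (mem_filter.1 h1).2)
      rw [filter_erase, erase_eq_of_notMem hy']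
      apply sum_congr rfl
      intro v hv
      apply Function.update_of_ne
      rintro rfl
      exact hj (mem_filter.1 hv).2
  have toSt : ∀ h : σ → ℕ, St b a V J h → h x = h y → St b a' (V.erase y) J h := by
    intro h hh hxy'
    refine ⟨fun v hv => hh.mem v (mem_of_mem_erase hv), fun j hj => ?_⟩
    rw [key h j hxy']
    exact hh.dvd j hj
  have lift : ∀ h : σ → ℕ, St b a' (V.erase y) J h →
      St b a V J (Function.update h y (h x)) := by
    intro h hh
    have e1 : Function.update h y (h x) x = Function.update h y (h x) y := by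
      rw [Function.update_self, Function.update_of_ne hxy]
    refine ⟨fun v hv => ?_, fun j hj => ?_⟩
    · by_cases hvy : v = y
      · subst hvy
        rw [Function.update_self]
        exact hh.mem x (mem_erase.2 ⟨hxy, hx⟩)
      · rw [Function.update_of_ne hvy]
        exact hh.mem v (mem_erase.2 ⟨hvy, hv⟩)
    · rw [← key _ j e1]
      have : (V.erase y).filter (fun v => Function.update h y (h x) v = j) =
          (V.erase y).filter (fun v => h v = j) := by
        apply filter_congr
        intro v hv
        rw [Function.update_of_ne (ne_of_mem_erase hv)]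
      rw [this]
      exact hh.dvd j hj
  have liftMv : ∀ h1 h2, Mv b a' (V.erase y) J h1 h2 →
      Mv b a V J (Function.update h1 y (h1 x)) (Function.update h2 y (h2 x)) := by
    rintro h1 h2 ⟨s1, s2, i, j, hij⟩
    refine ⟨lift h1 s1, lift h2 s2, i, j, fun v hv => ?_⟩
    by_cases hvy : v = y
    · subst hvy
      rw [Function.update_self, Function.update_self]
      exact hij x (mem_erase.2 ⟨hxy, hx⟩)
    · rw [Function.update_of_ne hvy, Function.update_of_ne hvy]
      exact hij v (mem_erase.2 ⟨hvy, hv⟩)
  have liftLk : ∀ h2, Lk b a' (V.erase y) J f h2 →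
      Lk b a V J (Function.update f y (f x)) (Function.update h2 y (h2 x)) := by
    intro h2 hh
    induction hh with
    | refl => exact Lk.refl _
    | tail _ h3 ih => exact ih.trans (liftMv _ _ h3).lk
  have h1 := liftLk g (IH f g (toSt f hf hfx) (toSt g hg hgx))
  rwa [hfx, Function.update_eq_self, hgx, Function.update_eq_self] at h1

/-- Elements divisible by `b` can be dropped. -/
lemma lk_zero {y : σ} (hy : y ∈ V) (hb : b ∣ a y) (hf : St b a V J f) (hg : St b a V J g)
    (IH : AbsConn b a (V.erase y) J) : Lk b a V J f g := by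
  have key : ∀ (h : σ → ℕ) (j : ℕ),
      (b ∣ ∑ v ∈ (V.erase y).filter (fun v => h v = j), a v + 1) ↔
        (b ∣ ∑ v ∈ V.filter (fun v => h v = j), a v + 1) := by
    intro h j
    rw [filter_erase]
    by_cases hj : y ∈ V.filter (fun v => h v = j)
    · rw [← sum_erase_add _ a hj, add_right_comm]
      exact (Nat.dvd_add_left hb).symm
    · rw [erase_eq_of_notMem hj]
  have toSt : ∀ h : σ → ℕ, St b a V J h → St b a (V.erase y) J h := by
    intro h hh
    exact ⟨fun v hv => hh.mem v (mem_of_mem_erase hv), fun j hj => (key h j).2 (hh.dvd j hj)⟩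
  have lift : ∀ h : σ → ℕ, St b a (V.erase y) J h →
      St b a V J (Function.update h y (f y)) := by
    intro h hh
    refine ⟨fun v hv => ?_, fun j hj => ?_⟩
    · by_cases hvy : v = y
      · subst hvy
        rw [Function.update_self]
        exact hf.mem v hv
      · rw [Function.update_of_ne hvy]
        exact hh.mem v (mem_erase.2 ⟨hvy, hv⟩)
    · rw [← key _ j]
      have : (V.erase y).filter (fun v => Function.update h y (f y) v = j) =
          (V.erase y).filter (fun v => h v = j) := by
        apply filter_congr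
        intro v hv
        rw [Function.update_of_ne (ne_of_mem_erase hv)]
      rw [this]
      exact hh.dvd j hj
  have liftMv : ∀ h1 h2, Mv b a (V.erase y) J h1 h2 →
      Mv b a V J (Function.update h1 y (f y)) (Function.update h2 y (f y)) := by
    rintro h1 h2 ⟨s1, s2, i, j, hij⟩
    refine ⟨lift h1 s1, lift h2 s2, i, j, fun v hv => ?_⟩
    by_cases hvy : v = y
    · subst hvy
      rw [Function.update_self, Function.update_self]
      exact Or.inl rfl
    · rw [Function.update_of_ne hvy, Function.update_of_ne hvy]
      exact hij v (mem_erase.2 ⟨hvy, hv⟩)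
  have liftLk : ∀ h2, Lk b a (V.erase y) J f h2 →
      Lk b a V J (Function.update f y (f y)) (Function.update h2 y (f y)) := by
    intro h2 hh
    induction hh with
    | refl => exact Lk.refl _
    | tail _ h3 ih => exact ih.trans (liftMv _ _ h3).lk
  have h1 := liftLk g (IH f g (toSt f hf) (toSt g hg))
  rw [Function.update_eq_self] at h1
  refine h1.trans (Mv.lk ⟨h1.st hf, hg, f y, g y, fun v hv => ?_⟩)
  by_cases hvy : v = y
  · subst hvy
    rw [Function.update_self]
    exact Or.inr ⟨Or.inl rfl, Or.inr rfl⟩
  · rw [Function.update_of_ne hvy]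
    exact Or.inl rfl

/-- A common group can be removed. -/
lemma lk_common {l : ℕ} (hl : l ∈ J) (hf : St b a V J f) (hg : St b a V J g)
    (hfg : ∀ v ∈ V, f v = l ↔ g v = l)
    (IH : AbsConn b a (V.filter fun v => f v ≠ l) (J.erase l)) : Lk b a V J f g := by
  classical
  set V' := V.filter fun v => f v ≠ l with hV'
  have hmem : ∀ v, v ∈ V' ↔ v ∈ V ∧ f v ≠ l := fun v => by rw [hV', mem_filter]
  have toSt : ∀ h : σ → ℕ, St b a V J h → (∀ v ∈ V, f v = l ↔ h v = l) →
      St b a V' (J.erase l) h := by
    intro h hh hl'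
    refine ⟨fun v hv => ?_, fun j hj => ?_⟩
    · rw [hmem] at hv
      exact mem_erase.2 ⟨fun e => hv.2 ((hl' v hv.1).2 e), hh.mem v hv.1⟩
    · rw [mem_erase] at hj
      have : V'.filter (fun v => h v = j) = V.filter (fun v => h v = j) := by
        ext v
        rw [mem_filter, hmem, mem_filter]
        constructor
        · rintro ⟨⟨h1, -⟩, h2⟩; exact ⟨h1, h2⟩
        · rintro ⟨h1, h2⟩
          exact ⟨⟨h1, fun e => hj.1 (h2.symm.trans ((hl' v h1).1 e))⟩, h2⟩
      rw [this]
      exact hh.dvd j hj.2
  let L : (σ → ℕ) → (σ → ℕ) := fun h v => if v ∈ V' then h v else l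
  have L1 : ∀ h v, v ∈ V' → L h v = h v := fun h v hv => if_pos hv
  have L2 : ∀ h v, v ∉ V' → L h v = l := fun h v hv => if_neg hv
  have lift : ∀ h : σ → ℕ, St b a V' (J.erase l) h → St b a V J (L h) := by
    intro h hh
    refine ⟨fun v hv => ?_, fun j hj => ?_⟩
    · by_cases hv' : v ∈ V'
      · rw [L1 h v hv']; exact mem_of_mem_erase (hh.mem v hv')
      · rw [L2 h v hv']; exact hl
    · by_cases hjl : j = l
      · subst hjl
        have : V.filter (fun v => L h v = j) = V.filter (fun v => f v = j) := by
          apply filter_congr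
          intro v hv
          by_cases hv' : v ∈ V'
          · rw [L1 h v hv']
            constructor
            · intro h1
              exact absurd h1 (ne_of_mem_erase (hh.mem v hv'))
            · intro h1
              exact absurd h1 ((hmem v).1 hv').2
          · rw [L2 h v hv']
            constructor
            · intro _
              by_contra h1
              exact hv' ((hmem v).2 ⟨hv, h1⟩)
            · intro _; rfl
        rw [this]
        exact hf.dvd j hj
      · have : V.filter (fun v => L h v = j) = V'.filter (fun v => h v = j) := by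
          ext v
          rw [mem_filter, mem_filter]
          constructor
          · rintro ⟨h1, h2⟩
            by_cases hv' : v ∈ V'
            · rw [L1 h v hv'] at h2; exact ⟨hv', h2⟩
            · rw [L2 h v hv'] at h2; exact absurd h2.symm hjl
          · rintro ⟨h1, h2⟩
            exact ⟨((hmem v).1 h1).1, by rw [L1 h v h1]; exact h2⟩
        rw [this]
        exact hh.dvd j (mem_erase.2 ⟨hjl, hj⟩)
  have liftMv : ∀ h1 h2, Mv b a V' (J.erase l) h1 h2 → Mv b a V J (L h1) (L h2) := by
    rintro h1 h2 ⟨s1, s2, i, j, hij⟩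
    refine ⟨lift h1 s1, lift h2 s2, i, j, fun v hv => ?_⟩
    by_cases hv' : v ∈ V'
    · rw [L1 _ v hv', L1 _ v hv']; exact hij v hv'
    · rw [L2 _ v hv', L2 _ v hv']; exact Or.inl rfl
  have liftLk : ∀ h2, Lk b a V' (J.erase l) f h2 → Lk b a V J (L f) (L h2) := by
    intro h2 hh
    induction hh with
    | refl => exact Lk.refl _
    | tail _ h3 ih => exact ih.trans (liftMv _ _ h3).lk
  have h1 := liftLk g (IH f g (toSt f hf fun _ _ => Iff.rfl) (toSt g hg hfg))
  have e1 : ∀ v ∈ V, f v = L f v := by
    intro v hv
    by_cases hv' : v ∈ V'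
    · rw [L1 _ v hv']
    · rw [L2 _ v hv']
      by_contra h2
      exact hv' ((hmem v).2 ⟨hv, h2⟩)
  have e2 : ∀ v ∈ V, g v = L g v := by
    intro v hv
    by_cases hv' : v ∈ V'
    · rw [L1 _ v hv']
    · rw [L2 _ v hv', ← hfg v hv]
      by_contra h2
      exact hv' ((hmem v).2 ⟨hv, h2⟩)
  exact (mv_of_agree hf e1).lk.trans (h1.trans (mv_of_agree hg e2).lk.symm)

/-- The situation in a minimal counterexample. -/
structure Cx (b : ℕ) (a : σ → ℕ) (V : Finset σ) (J : Finset ℕ) (f g : σ → ℕ) : Prop where
  b2 : 2 ≤ b
  sf : St b a V J f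
  sg : St b a V J g
  tog : ∀ f' g', Lk b a V J f f' → Lk b a V J g g' → ∀ x ∈ V, ∀ y ∈ V, x ≠ y →
    f' x = f' y → g' x ≠ g' y
  zero : ∀ v ∈ V, ¬ b ∣ a v
  com : ∀ f' g', Lk b a V J f f' → Lk b a V J g g' → ∀ i ∈ J, ∀ j ∈ J,
    ¬ ∀ v ∈ V, f' v = i ↔ g' v = j
  card : 3 ≤ J.card

lemma Cx.symm (h : Cx b a V J f g) : Cx b a V J g f where
  b2 := h.b2
  sf := h.sg
  sg := h.sf
  tog := fun f' g' h1 h2 x hx y hy hxy h3 h4 => h.tog g' f' h2 h1 x hx y hy hxy h4 h3
  zero := h.zero
  com := fun f' g' h1 h2 i hi j hj h3 =>
    h.com g' f' h2 h1 j hj i hi fun v hv => (h3 v hv).symm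
  card := h.card

lemma St.nonempty (hb : 2 ≤ b) (hf : St b a V J f) {j : ℕ} (hj : j ∈ J) :
    ∃ v ∈ V, f v = j := by
  by_contra hcon
  push Not at hcon
  have h1 := hf.dvd j hj
  rw [filter_eq_empty_iff.2 fun v hv => hcon v hv, sum_empty, zero_add] at h1
  have := Nat.le_of_dvd (by omega) h1
  omega

/-- Reduction to minimal counterexamples. -/
theorem absConn_of_no_cx (hb : 2 ≤ b) (M c : ℕ)
    (hno : ∀ (a : σ → ℕ) (V : Finset σ) (J : Finset ℕ) (f g : σ → ℕ),
      ∑ v ∈ V, a v + J.card ≤ M → J.card ≤ c → Cx b a V J f g → False) :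
    ∀ (n : ℕ) (a : σ → ℕ) (V : Finset σ) (J : Finset ℕ), V.card = n →
      ∑ v ∈ V, a v + J.card ≤ M → J.card ≤ c → AbsConn b a V J := by
  intro n
  induction n using Nat.strong_induction_on with
  | _ n ih =>
    intro a V J hV hM hc f g hf hg
    by_contra hcon
    have hsep : ∀ f' g', Lk b a V J f f' → Lk b a V J g g' → ¬ Lk b a V J f' g' :=
      fun f' g' h1 h2 h3 => hcon (h1.trans (h3.trans h2.symm))
    apply hno a V J f g hM hc
    refine ⟨hb, hf, hg, ?_, ?_, ?_, ?_⟩
    · intro f' g' h1 h2 x hx y hy hxy h3 h4
      apply hsep f' g' h1 h2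
      apply lk_merge hx hy hxy (h1.st hf) (h2.st hg) h3 h4
      apply ih (V.erase y).card _ _ _ _ rfl _ hc
      · rw [← hV]; exact card_lt_card (erase_ssubset hy)
      · have hx' : x ∈ V.erase y := mem_erase.2 ⟨hxy, hx⟩
        have e1 : ∑ v ∈ V.erase y, Function.update a x (a x + a y) v = ∑ v ∈ V, a v := by
          rw [← sum_erase_add _ _ hx', ← sum_erase_add _ a hy, ← sum_erase_add _ a hx',
            Function.update_self,
            sum_congr rfl (g := a) fun v hv => Function.update_of_ne (ne_of_mem_erase hv) _ _]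
          ring
        rw [e1]; exact hM
    · intro v hv hbv
      apply hcon
      apply lk_zero hv hbv hf hg
      apply ih (V.erase v).card _ _ _ _ rfl _ hc
      · rw [← hV]; exact card_lt_card (erase_ssubset hv)
      · have : ∑ w ∈ V.erase v, a w ≤ ∑ w ∈ V, a w := sum_le_sum_of_subset (erase_subset _ _)
        omega
    · intro f' g' h1 h2 i hi j hj h3
      have hg'' : Mv b a V J g' (Equiv.swap i j ∘ g') := by
        refine ⟨h2.st hg, ?_, i, j, ?_⟩
        · refine ⟨fun v hv => ?_, fun l hl => ?_⟩
          · have h4 := (h2.st hg).mem v hv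
            rw [Function.comp]
            by_cases h5 : g' v = i
            · rw [h5, Equiv.swap_apply_left]; exact hj
            · by_cases h6 : g' v = j
              · rw [h6, Equiv.swap_apply_right]; exact hi
              · rw [Equiv.swap_apply_of_ne_of_ne h5 h6]; exact h4
          · have hl' : Equiv.swap i j l ∈ J := by
              by_cases h5 : l = i
              · rw [h5, Equiv.swap_apply_left]; exact hj
              · by_cases h6 : l = j
                · rw [h6, Equiv.swap_apply_right]; exact hi
                · rw [Equiv.swap_apply_of_ne_of_ne h5 h6]; exact hl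
            have : V.filter (fun v => (Equiv.swap i j ∘ g') v = l) =
                V.filter (fun v => g' v = Equiv.swap i j l) := by
              apply filter_congr
              intro v _
              rw [Function.comp]
              constructor
              · intro h5; rw [← h5, Equiv.swap_apply_self]
              · intro h5; rw [h5, Equiv.swap_apply_self]
            rw [this]
            exact (h2.st hg).dvd _ hl'
        · intro v _
          rw [Function.comp]
          by_cases h5 : g' v = i
          · rw [h5, Equiv.swap_apply_left]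
            exact Or.inr ⟨Or.inl rfl, Or.inr rfl⟩
          · by_cases h6 : g' v = j
            · rw [h6, Equiv.swap_apply_right]
              exact Or.inr ⟨Or.inr rfl, Or.inl rfl⟩
            · rw [Equiv.swap_apply_of_ne_of_ne h5 h6]
              exact Or.inl rfl
      apply hsep f' _ h1 (h2.trans hg''.lk)
      have h4 : ∀ v ∈ V, f' v = i ↔ (Equiv.swap i j ∘ g') v = i := by
        intro v hv
        rw [h3 v hv, Function.comp]
        constructor
        · intro h5; rw [h5, Equiv.swap_apply_right]
        · intro h5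
          have := congrArg (Equiv.swap i j) h5
          rwa [Equiv.swap_apply_self, Equiv.swap_apply_left] at this
      apply lk_common hi (h1.st hf) hg''.2.1 h4
      obtain ⟨v, hv, hvi⟩ := (h1.st hf).nonempty hb hi
      apply ih (V.filter fun v => f' v ≠ i).card _ _ _ _ rfl
      · have h5 : ∑ w ∈ V.filter (fun v => f' v ≠ i), a w ≤ ∑ w ∈ V, a w :=
          sum_le_sum_of_subset (filter_subset _ _)
        have h6 : (J.erase i).card ≤ J.card := card_le_card (erase_subset _ _)
        omega
      · exact (card_le_card (erase_subset _ _)).trans hc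
      · rw [← hV]
        apply card_lt_card
        refine ⟨filter_subset _ _, fun h5 => ?_⟩
        exact (mem_filter.1 (h5 hv)).2 hvi
    · by_contra hJ
      apply hcon
      have hij : ∃ i j, ∀ l ∈ J, l = i ∨ l = j := by
        rcases Nat.lt_or_ge J.card 2 with h1 | h1
        · rcases Nat.lt_or_ge J.card 1 with h2 | h2
          · have : J = ∅ := card_eq_zero.1 (by omega)
            exact ⟨0, 0, by simp [this]⟩
          · obtain ⟨i, hi⟩ := card_eq_one.1 (show J.card = 1 by omega)
            exact ⟨i, i, by simp [hi]⟩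
        · obtain ⟨i, j, -, hij⟩ := card_eq_two.1 (show J.card = 2 by omega)
          exact ⟨i, j, by simp [hij]⟩
      obtain ⟨i, j, hij⟩ := hij
      exact Mv.lk ⟨hf, hg, i, j, fun v hv => Or.inr ⟨hij _ (hf.mem v hv), hij _ (hg.mem v hv)⟩⟩

end Pool.Agent.Lib.MP_e26c3f_al
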