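import Mathlib
import Pool.Agent.Lib.MP_e26c3f_al.Abs

/-! Properties of minimal counterexamples. -/

set_option autoImplicit false
set_option linter.unusedSectionVars false

namespace Pool.Agent.Lib.MP_e26c3f_al

open Finset

variable {σ : Type*} [DecidableEq σ]
variable {b : ℕ} {a : σ → ℕ} {V : Finset σ} {J : Finset ℕ} {f g h : σ → ℕ}

/-- Splitting the union of two groups. -/
def extract (T : Finset σ) (f : σ → ℕ) (j1 j2 : ℕ) : σ → ℕ :=
  fun v => if v ∈ T then j1 else if f v = j1 then j2 else f v

lemma extract_eq {T : Finset σ} {j1 j2 : ℕ} (h12 : j1 ≠ j2) (v : σ) :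
    extract T f j1 j2 v = j1 ↔ v ∈ T := by
  unfold extract
  split_ifs with h1 h2
  · simp [h1]
  · simp [h1, Ne.symm h12]
  · simp [h1, h2]

lemma mv_extract (hf : St b a V J f) {T : Finset σ} (hT : T ⊆ V) {j1 j2 : ℕ} (h1 : j1 ∈ J)
    (h2 : j2 ∈ J) (h12 : j1 ≠ j2) (hTj : ∀ v ∈ T, f v = j1 ∨ f v = j2)
    (hd : b ∣ ∑ v ∈ T, a v + 1) : Mv b a V J f (extract T f j1 j2) := by
  have e1 : V.filter (fun v => extract T f j1 j2 v = j1) = T := by
    ext v
    rw [mem_filter, extract_eq h12]
    exact ⟨fun h => h.2, fun h => ⟨hT h, h⟩⟩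
  have e2 : V.filter (fun v => extract T f j1 j2 v = j2) =
      (V.filter (fun v => f v = j1) ∪ V.filter (fun v => f v = j2)) \ T := by
    ext v
    rw [mem_filter, mem_sdiff, mem_union, mem_filter, mem_filter]
    unfold extract
    by_cases hv : v ∈ T
    · rw [if_pos hv]
      constructor
      · rintro ⟨-, h3⟩; exact absurd h3 h12
      · rintro ⟨-, h3⟩; exact absurd hv h3
    · rw [if_neg hv]
      split_ifs with h3
      · exact ⟨fun h4 => ⟨Or.inl ⟨h4.1, h3⟩, hv⟩, fun h4 => ⟨h4.1.elim (·.1) (·.1), rfl⟩⟩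
      · exact ⟨fun h4 => ⟨Or.inr h4, hv⟩, fun h4 => h4.1.elim (fun h5 => absurd h5.2 h3) id⟩
  have hsub : T ⊆ V.filter (fun v => f v = j1) ∪ V.filter (fun v => f v = j2) := by
    intro v hv
    rw [mem_union, mem_filter, mem_filter]
    rcases hTj v hv with h3 | h3
    · exact Or.inl ⟨hT hv, h3⟩
    · exact Or.inr ⟨hT hv, h3⟩
  have hdj : Disjoint (V.filter (fun v => f v = j1)) (V.filter (fun v => f v = j2)) := by
    rw [disjoint_left]
    intro v h3 h4
    exact h12 ((mem_filter.1 h3).2.symm.trans (mem_filter.1 h4).2)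
  refine ⟨hf, ⟨fun v hv => ?_, fun j hj => ?_⟩, j1, j2, fun v hv => ?_⟩
  · unfold extract
    split_ifs
    · exact h1
    · exact h2
    · exact hf.mem v hv
  · by_cases hj1 : j = j1
    · subst hj1; rw [e1]; exact hd
    · by_cases hj2 : j = j2
      · subst hj2
        rw [e2]
        have h3 := sum_sdiff (f := a) hsub
        rw [sum_union hdj] at h3
        have h4 := hf.dvd j1 h1
        have h5 := hf.dvd j h2
        have h6 : (∑ v ∈ (V.filter (fun v => f v = j1) ∪ V.filter (fun v => f v = j)) \ T, a v + 1)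
            + (∑ v ∈ T, a v + 1) =
            (∑ v ∈ V.filter (fun v => f v = j1), a v + 1) +
            (∑ v ∈ V.filter (fun v => f v = j), a v + 1) := by omega
        exact (Nat.dvd_add_left hd).1 (h6 ▸ Nat.dvd_add h4 h5)
      · have : V.filter (fun v => extract T f j1 j2 v = j) = V.filter (fun v => f v = j) := by
          apply filter_congr
          intro v hv
          unfold extract
          split_ifs with h3 h4
          · constructor
            · intro h4; exact absurd h4.symm hj1
            · intro h4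
              rcases hTj v h3 with h5 | h5
              · exact absurd (h4.symm.trans h5) hj1
              · exact absurd (h4.symm.trans h5) hj2
          · constructor
            · intro h5; exact absurd h5.symm hj2
            · intro h5; exact absurd (h5.symm.trans h4) hj1
          · rfl
        rw [this]
        exact hf.dvd j hj
  · by_cases hv' : v ∈ T
    · exact Or.inr ⟨hTj v hv', Or.inl ((extract_eq h12 v).2 hv')⟩
    · unfold extract
      rw [if_neg hv']
      split_ifs with h3
      · exact Or.inr ⟨Or.inl h3, Or.inr rfl⟩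
      · exact Or.inl rfl

lemma mv_move (hf : St b a V J f) {Z : Finset σ} (hZ : Z ⊆ V) {i j : ℕ} (hi : i ∈ J)
    (hij : i ≠ j) (hZj : ∀ v ∈ Z, f v = j) (hd : b ∣ ∑ v ∈ Z, a v) :
    Mv b a V J f (fun v => if v ∈ Z then i else f v) := by
  refine ⟨hf, ⟨fun v hv => ?_, fun l hl => ?_⟩, i, j, fun v hv => ?_⟩
  · split_ifs
    · exact hi
    · exact hf.mem v hv
  · by_cases hli : l = i
    · subst hli
      have e1 : V.filter (fun v => (if v ∈ Z then l else f v) = l) =
          V.filter (fun v => f v = l) ∪ Z := by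
        ext v
        rw [mem_filter, mem_union, mem_filter]
        split_ifs with h
        · simp [h, hZ h]
        · simp [h]
      have hdj : Disjoint (V.filter (fun v => f v = l)) Z := by
        rw [disjoint_left]
        intro v h3 h4
        exact hij ((mem_filter.1 h3).2.symm.trans (hZj v h4))
      rw [e1, sum_union hdj, add_right_comm]
      exact Nat.dvd_add (hf.dvd l hl) hd
    · by_cases hlj : l = j
      · subst hlj
        have e1 : V.filter (fun v => (if v ∈ Z then i else f v) = l) =
            V.filter (fun v => f v = l) \ Z := by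
          ext v
          rw [mem_filter, mem_sdiff, mem_filter]
          split_ifs with h
          · simp [h, hij]
          · simp [h]
        have hsub : Z ⊆ V.filter (fun v => f v = l) := fun v hv => mem_filter.2 ⟨hZ hv, hZj v hv⟩
        have h3 := sum_sdiff (f := a) hsub
        rw [e1]
        have h4 := hf.dvd l hl
        rw [← h3, add_right_comm] at h4
        exact (Nat.dvd_add_left hd).1 h4
      · have e1 : V.filter (fun v => (if v ∈ Z then i else f v) = l) =
            V.filter (fun v => f v = l) := by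
          apply filter_congr
          intro v _
          split_ifs with h
          · constructor
            · intro h4; exact absurd h4.symm hli
            · intro h4; exact absurd (h4.symm.trans (hZj v h)) hlj
          · rfl
        rw [e1]
        exact hf.dvd l hl
  · by_cases h : v ∈ Z
    · exact Or.inr ⟨Or.inr (hZj v h), Or.inl (if_pos h)⟩
    · exact Or.inl (if_neg h).symm

lemma mv_swap (hf : St b a V J f) {x y : σ} (hx : x ∈ V) (hy : y ∈ V)
    (hxy : a x % b = a y % b) : Mv b a V J f (f ∘ Equiv.swap x y) := by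
  by_cases hne : f x = f y
  · apply mv_of_agree hf
    intro v _
    by_cases h1 : v = x
    · subst h1; rw [Function.comp, Equiv.swap_apply_left, hne]
    · by_cases h2 : v = y
      · subst h2; rw [Function.comp, Equiv.swap_apply_right, hne]
      · rw [Function.comp, Equiv.swap_apply_of_ne_of_ne h1 h2]
  have hmemV : ∀ v, Equiv.swap x y v ∈ V ↔ v ∈ V := by
    intro v
    by_cases h1 : v = x
    · subst h1; rw [Equiv.swap_apply_left]; exact ⟨fun _ => hx, fun _ => hy⟩
    · by_cases h2 : v = y
      · subst h2; rw [Equiv.swap_apply_right]; exact ⟨fun _ => hy, fun _ => hx⟩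
      · rw [Equiv.swap_apply_of_ne_of_ne h1 h2]
  refine ⟨hf, ⟨fun v hv => hf.mem _ ((hmemV v).2 hv), fun j hj => ?_⟩, f x, f y, fun v hv => ?_⟩
  · have h1 : ∑ v ∈ V.filter (fun v => (f ∘ Equiv.swap x y) v = j), a v =
        ∑ v ∈ V.filter (fun v => f v = j), a (Equiv.swap x y v) := by
      have : V.filter (fun v => (f ∘ Equiv.swap x y) v = j) =
          (V.filter (fun v => f v = j)).map (Equiv.swap x y).toEmbedding := by
        ext v
        rw [mem_filter, mem_map]
        constructor
        · rintro ⟨h1, h2⟩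
          exact ⟨Equiv.swap x y v, mem_filter.2 ⟨(hmemV v).2 h1, h2⟩, by simp⟩
        · rintro ⟨w, hw, rfl⟩
          rw [mem_filter] at hw
          simp only [Equiv.coe_toEmbedding, Function.comp, Equiv.swap_apply_self]
          exact ⟨(hmemV w).2 hw.1, hw.2⟩
      rw [this, sum_map]
      rfl
    have h2 : ∀ S : Finset σ, (∑ v ∈ S, a (Equiv.swap x y v)) % b = (∑ v ∈ S, a v) % b := by
      intro S
      rw [sum_nat_mod, sum_nat_mod (f := a)]
      congr 1
      apply sum_congr rfl
      intro v _
      by_cases h1 : v = x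
      · subst h1; rw [Equiv.swap_apply_left, hxy]
      · by_cases h2 : v = y
        · subst h2; rw [Equiv.swap_apply_right, hxy]
        · rw [Equiv.swap_apply_of_ne_of_ne h1 h2]
    rw [h1]
    have h3 := hf.dvd j hj
    rw [Nat.dvd_iff_mod_eq_zero] at h3 ⊢
    rw [Nat.add_mod, h2, ← Nat.add_mod]
    exact h3
  · rw [Function.comp]
    by_cases h1 : v = x
    · subst h1; rw [Equiv.swap_apply_left]; exact Or.inr ⟨Or.inl rfl, Or.inr rfl⟩
    · by_cases h2 : v = y
      · subst h2; rw [Equiv.swap_apply_right]; exact Or.inr ⟨Or.inr rfl, Or.inl rfl⟩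
      · rw [Equiv.swap_apply_of_ne_of_ne h1 h2]; exact Or.inl rfl

namespace Cx

variable (C : Cx b a V J f g)
include C

lemma exists_ne (i : ℕ) : ∃ j ∈ J, j ≠ i := by
  by_contra hcon
  push Not at hcon
  have h1 : J ⊆ {i} := fun x hx => mem_singleton.2 (hcon x hx)
  have h2 := card_le_card h1
  have h3 := C.card
  rw [card_singleton] at h2
  omega

lemma no_neg : ∀ v ∈ V, ¬ b ∣ a v + 1 := by
  intro v hv hb
  obtain ⟨i, hi, hif⟩ := C.exists_ne (f v)
  obtain ⟨j, hj, hjg⟩ := C.exists_ne (g v)
  have h1 := mv_extract C.sf (T := {v}) (by simpa using hv) (C.sf.mem v hv) hi (Ne.symm hif)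
    (by simp) (by simpa using hb)
  have h2 := mv_extract C.sg (T := {v}) (by simpa using hv) (C.sg.mem v hv) hj (Ne.symm hjg)
    (by simp) (by simpa using hb)
  apply C.com _ _ h1.lk h2.lk (f v) (C.sf.mem v hv) (g v) (C.sg.mem v hv)
  intro w _
  rw [extract_eq (Ne.symm hif), extract_eq (Ne.symm hjg)]

lemma three_le {f' : σ → ℕ} (hf' : Lk b a V J f f') {j : ℕ} (hj : j ∈ J) :
    3 ≤ (V.filter fun v => f' v = j).card := by
  have hst := hf'.st C.sf
  by_contra hcon
  obtain ⟨v, hv, hvj⟩ := hst.nonempty C.b2 hj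
  have hvG : v ∈ V.filter fun v => f' v = j := mem_filter.2 ⟨hv, hvj⟩
  have hdv := hst.dvd j hj
  rcases Nat.lt_or_ge (V.filter fun v => f' v = j).card 2 with h1 | h1
  · have h2 : V.filter (fun v => f' v = j) = {v} := by
      obtain ⟨w, hw⟩ := card_eq_one.1 (show (V.filter fun v => f' v = j).card = 1 by
        have := card_pos.2 ⟨v, hvG⟩; omega)
      rw [hw, mem_singleton] at hvG
      rw [hw, hvG]
    rw [h2, sum_singleton] at hdv
    exact C.no_neg v hv hdv
  · obtain ⟨x, y, hxy, hG⟩ := card_eq_two.1 (show (V.filter fun v => f' v = j).card = 2 by omega)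
    have hx : x ∈ V ∧ f' x = j := by
      have : x ∈ V.filter fun v => f' v = j := by rw [hG]; simp
      exact mem_filter.1 this
    have hy : y ∈ V ∧ f' y = j := by
      have : y ∈ V.filter fun v => f' v = j := by rw [hG]; simp
      exact mem_filter.1 this
    rw [hG] at hdv
    have hg := C.tog f' g hf' (Lk.refl _) x hx.1 y hy.1 hxy (hx.2.trans hy.2.symm)
    have h2 := mv_extract C.sg (T := {x, y}) (by
      intro z hz
      rw [mem_insert, mem_singleton] at hz
      rcases hz with rfl | rfl
      · exact hx.1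
      · exact hy.1) (C.sg.mem x hx.1) (C.sg.mem y hy.1) hg (by
        intro z hz
        rw [mem_insert, mem_singleton] at hz
        rcases hz with rfl | rfl
        · exact Or.inl rfl
        · exact Or.inr rfl) hdv
    apply C.tog f' _ hf' h2.lk x hx.1 y hy.1 hxy (hx.2.trans hy.2.symm)
    rw [(extract_eq hg x).2 (by simp), (extract_eq hg y).2 (by simp)]

lemma zsf {f' : σ → ℕ} (hf' : Lk b a V J f f') {j : ℕ} {Z : Finset σ} (hZ : Z ⊆ V)
    (hZ0 : Z.Nonempty) (hZj : ∀ v ∈ Z, f' v = j) : ¬ b ∣ ∑ v ∈ Z, a v := by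
  intro hb
  obtain ⟨v, hvZ⟩ := hZ0
  have hv := hZ hvZ
  have hst := hf'.st C.sf
  obtain ⟨w, hw, hwv, hgw⟩ : ∃ w ∈ V, w ≠ v ∧ g w = g v := by
    by_contra hcon
    push Not at hcon
    have h1 : V.filter (fun x => g x = g v) = {v} := by
      ext x
      rw [mem_filter, mem_singleton]
      constructor
      · rintro ⟨h1, h2⟩
        by_contra h3
        exact hcon x h1 h3 h2
      · rintro rfl
        exact ⟨hv, rfl⟩
    have h2 := C.sg.dvd (g v) (C.sg.mem v hv)
    rw [h1, sum_singleton] at h2
    exact C.no_neg v hv h2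
  have h1 : f' w ≠ f' v := by
    intro h1
    exact C.tog f' g hf' (Lk.refl _) w hw v hv hwv h1 hgw
  rw [hZj v hvZ] at h1
  have h2 := mv_move hst hZ (hst.mem w hw) h1 hZj hb
  apply C.tog _ g (hf'.trans h2.lk) (Lk.refl _) w hw v hv hwv _ hgw
  rw [if_pos hvZ, if_neg fun h3 => h1 (hZj w h3)]

lemma no_pair {u w : σ} (hu : u ∈ V) (hw : w ∈ V) (huw : u ≠ w) : ¬ b ∣ a u + a w + 1 := by
  intro hb
  have hsum : ∑ v ∈ ({u, w} : Finset σ), a v = a u + a w := sum_pair huw
  by_cases h1 : f u = f w
  · have hsub : ({u, w} : Finset σ) ⊆ V.filter fun v => f v = f u := by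
      intro z hz
      rw [mem_insert, mem_singleton] at hz
      rcases hz with rfl | rfl
      · exact mem_filter.2 ⟨hu, rfl⟩
      · exact mem_filter.2 ⟨hw, h1.symm⟩
    have h3 := C.three_le (Lk.refl _) (C.sf.mem u hu)
    have h4 := card_sdiff_of_subset hsub
    rw [card_pair huw] at h4
    apply C.zsf (Lk.refl _) (j := f u) (Z := V.filter (fun v => f v = f u) \ {u, w})
    · exact sdiff_subset.trans (filter_subset _ _)
    · rw [← card_pos]; omega
    · intro v hv
      exact (mem_filter.1 (mem_sdiff.1 hv).1).2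
    · have h5 := sum_sdiff (f := a) hsub
      have h6 := C.sf.dvd (f u) (C.sf.mem u hu)
      rw [← h5, hsum, add_assoc] at h6
      exact (Nat.dvd_add_left hb).1 h6
  · have h2 := mv_extract C.sf (T := {u, w}) (by
      intro z hz
      rw [mem_insert, mem_singleton] at hz
      rcases hz with rfl | rfl
      · exact hu
      · exact hw) (C.sf.mem u hu) (C.sf.mem w hw) h1 (by
        intro z hz
        rw [mem_insert, mem_singleton] at hz
        rcases hz with rfl | rfl
        · exact Or.inl rfl
        · exact Or.inr rfl) (by rw [hsum]; exact hb)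
    have h3 := C.three_le h2.lk (C.sf.mem u hu)
    have h4 : V.filter (fun v => extract {u, w} f (f u) (f w) v = f u) ⊆ {u, w} := by
      intro v hv
      rw [mem_filter, extract_eq h1] at hv
      exact hv.2
    have h5 := card_le_card h4
    rw [card_pair huw] at h5
    omega

lemma le_card {f' : σ → ℕ} (hf' : Lk b a V J f f') {j : ℕ} (_hj : j ∈ J) :
    (V.filter fun v => f' v = j).card ≤ J.card := by
  apply card_le_card_of_injOn g
  · intro v hv
    exact C.sg.mem v (mem_filter.1 hv).1
  · intro x hx y hy hxy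
    by_contra hne
    have hx' := mem_filter.1 hx
    have hy' := mem_filter.1 hy
    exact C.tog f' g hf' (Lk.refl _) x hx'.1 y hy'.1 hne (hx'.2.trans hy'.2.symm) hxy

/-- Pairs of values. -/
lemma no_common {f' g' : σ → ℕ} (hf' : Lk b a V J f f') (hg' : Lk b a V J g g') {x y z w : σ}
    (hx : x ∈ V) (hy : y ∈ V) (hxy : x ≠ y) (hfxy : f' x = f' y)
    (hz : z ∈ V) (hw : w ∈ V) (hzw : z ≠ w) (hgzw : g' z = g' w)
    (hxz : a x % b = a z % b) (hyw : a y % b = a w % b) : False := by
  have hst := hf'.st C.sf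
  have m1 := mv_swap hst hx hz hxz
  set f1 := f' ∘ Equiv.swap x z with hf1
  set y1 := Equiv.swap x z y with hy1
  have e1 : f1 z = f' x := by rw [hf1, Function.comp, Equiv.swap_apply_right]
  have e2 : f1 y1 = f' y := by rw [hf1, Function.comp, hy1, Equiv.swap_apply_self]
  have hy1V : y1 ∈ V ∧ a y1 % b = a y % b := by
    rw [hy1]
    by_cases h1 : y = z
    · rw [h1, Equiv.swap_apply_right]
      exact ⟨hx, hxz⟩
    · rw [Equiv.swap_apply_of_ne_of_ne (Ne.symm hxy) h1]
      exact ⟨hy, rfl⟩
  have hy1z : z ≠ y1 := by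
    intro h1
    have h2 := congrArg (Equiv.swap x z) h1
    rw [Equiv.swap_apply_right, hy1, Equiv.swap_apply_self] at h2
    exact hxy h2
  have m2 := mv_swap m1.2.1 hy1V.1 hw (hy1V.2.trans hyw)
  apply C.tog _ g' (hf'.trans (m1.lk.trans m2.lk)) hg' z hz w hw hzw _ hgzw
  rw [Function.comp, Function.comp, Equiv.swap_apply_right, Equiv.swap_apply_of_ne_of_ne hy1z hzw,
    e1, e2, hfxy]

end Cx

end Pool.Agent.Lib.MP_e26c3f_al
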