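import Mathlib
import Pool.Agent.Lib.MP_e26c3f_al.AbsFacts

/-! Types of groups. -/

set_option autoImplicit false
set_option linter.unusedSectionVars false

namespace Pool.Agent.Lib.MP_e26c3f_al

open Finset

variable {σ : Type*} [DecidableEq σ]
variable {b : ℕ} {a : σ → ℕ} {V : Finset σ} {J : Finset ℕ} {f g h : σ → ℕ}

/-- The residues in a group form the list `T`. -/
def IsTyp (b : ℕ) (a : σ → ℕ) (V : Finset σ) (f : σ → ℕ) (j : ℕ) (T : List ℕ) : Prop :=
  (V.filter (fun v => f v = j)).val.map (fun v => a v % b) = (T : Multiset ℕ)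

lemma exists_sub_map {U : Multiset σ} {r : σ → ℕ} {T T' : Multiset ℕ}
    (h : U.map r = T + T') : ∃ S ≤ U, S.map r = T := by
  induction T using Multiset.induction generalizing U with
  | empty => exact ⟨0, Multiset.zero_le _, rfl⟩
  | cons x T ih =>
    have hx : x ∈ U.map r := by rw [h]; simp
    obtain ⟨v, hv, hvx⟩ := Multiset.mem_map.1 hx
    obtain ⟨U', rfl⟩ := Multiset.exists_cons_of_mem hv
    rw [Multiset.map_cons, hvx, Multiset.cons_add, Multiset.cons_inj_right] at h
    obtain ⟨S, hS, hST⟩ := ih h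
    exact ⟨v ::ₘ S, Multiset.cons_le_cons v hS, by rw [Multiset.map_cons, hST, hvx]⟩

lemma exists_subset_map {U : Finset σ} {r : σ → ℕ} {T T' : Multiset ℕ}
    (h : U.val.map r = T + T') : ∃ S ⊆ U, S.val.map r = T := by
  obtain ⟨S, hS, hST⟩ := exists_sub_map h
  refine ⟨⟨S, Multiset.nodup_of_le hS U.nodup⟩, ?_, hST⟩
  rw [← Finset.val_le_iff]
  exact hS

lemma dvd_sum_iff {S : Finset σ} {T : List ℕ} (hT : S.val.map (fun v => a v % b) = (T : Multiset ℕ))
    (c : ℕ) : b ∣ ∑ v ∈ S, a v + c ↔ b ∣ T.sum + c := by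
  have h1 : T.sum = ∑ v ∈ S, a v % b := by
    rw [Finset.sum, hT, Multiset.sum_coe]
  rw [h1, Nat.dvd_iff_mod_eq_zero, Nat.dvd_iff_mod_eq_zero, Nat.add_mod, sum_nat_mod,
    ← Nat.add_mod]

lemma card_eq_length {S : Finset σ} {r : σ → ℕ} {T : List ℕ}
    (hT : S.val.map r = (T : Multiset ℕ)) : S.card = T.length := by
  have := congrArg Multiset.card hT
  rwa [Multiset.card_map, Multiset.coe_card] at this

/-- Exchange between two groups. -/
lemma exists_typ (hf : St b a V J f) {i j : ℕ} (hi : i ∈ J) (hj : j ∈ J) {τ1 τ2 T T' : List ℕ}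
    (h1 : IsTyp b a V f i τ1) (h2 : IsTyp b a V f j τ2) (hne : ¬ τ1.Perm τ2)
    (hp : (T ++ T').Perm (τ1 ++ τ2)) (hd : b ∣ T.sum + 1) :
    ∃ f', Lk b a V J f f' ∧ IsTyp b a V f' i T := by
  have hij : i ≠ j := by
    rintro rfl
    exact hne (Multiset.coe_eq_coe.1 (h1.symm.trans h2))
  have hdj : Disjoint (V.filter (fun v => f v = i)) (V.filter (fun v => f v = j)) := by
    rw [disjoint_left]
    intro v h3 h4
    exact hij ((mem_filter.1 h3).2.symm.trans (mem_filter.1 h4).2)
  have h3 : ((V.filter (fun v => f v = i)).disjUnion (V.filter (fun v => f v = j)) hdj).val.map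
      (fun v => a v % b) = (T : Multiset ℕ) + (T' : Multiset ℕ) := by
    rw [disjUnion_val, Multiset.map_add, h1, h2, Multiset.coe_add, Multiset.coe_add]
    exact (Multiset.coe_eq_coe.2 hp).symm
  obtain ⟨S, hS, hST⟩ := exists_subset_map h3
  have hSV : ∀ v ∈ S, v ∈ V ∧ (f v = i ∨ f v = j) := by
    intro v hv
    have := hS hv
    rw [mem_disjUnion, mem_filter, mem_filter] at this
    rcases this with h | h
    · exact ⟨h.1, Or.inl h.2⟩
    · exact ⟨h.1, Or.inr h.2⟩
  have m := mv_extract hf (T := S) (fun v hv => (hSV v hv).1) hi hj hij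
    (fun v hv => (hSV v hv).2) ((dvd_sum_iff hST 1).2 hd)
  refine ⟨_, m.lk, ?_⟩
  unfold IsTyp
  have e1 : V.filter (fun v => extract S f i j v = i) = S := by
    ext v
    rw [mem_filter, extract_eq hij]
    exact ⟨fun h => h.2, fun h => ⟨(hSV v h).1, h⟩⟩
  rw [e1]
  exact hST

/-- A pair of residues occurring in a common group; coded by a number. -/
def PairIn (b : ℕ) (a : σ → ℕ) (V : Finset σ) (J : Finset ℕ) (f : σ → ℕ) (n : ℕ) : Prop :=
  ∃ f', Lk b a V J f f' ∧ ∃ u ∈ V, ∃ w ∈ V, u ≠ w ∧ f' u = f' w ∧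
    16 * (a u % b) + a w % b = n

lemma PairIn.trans {n : ℕ} (h : PairIn b a V J g n) (hf : Lk b a V J f g) :
    PairIn b a V J f n := by
  obtain ⟨f', h1, h2⟩ := h
  exact ⟨f', hf.trans h1, h2⟩

lemma Cx.no_pairIn (C : Cx b a V J f g) (hb : b ≤ 16) {n : ℕ} (h1 : PairIn b a V J f n)
    (h2 : PairIn b a V J g n) : False := by
  obtain ⟨f', hf', u, hu, w, hw, huw, hfu, e1⟩ := h1
  obtain ⟨g', hg', x, hx, y, hy, hxy, hgx, e2⟩ := h2
  have hb0 := C.b2
  have b1 : a w % b < b := Nat.mod_lt _ (by omega)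
  have b2 : a y % b < b := Nat.mod_lt _ (by omega)
  exact C.no_common hf' hg' hu hw huw hfu hx hy hxy hgx (by omega) (by omega)

/-- The mask of pairs `(x, y)`, `y ∈ T`. -/
def pm1 (x : ℕ) (T : List ℕ) : ℕ := T.foldr (fun y m => m ||| (1 <<< (16 * x + y))) 0

/-- The mask of all pairs in a list. -/
def pmask : List ℕ → ℕ
  | [] => 0
  | x :: T => pm1 x T ||| pmask T

lemma testBit_pm1 {x n : ℕ} {T : List ℕ} (h : (pm1 x T).testBit n) :
    ∃ y ∈ T, n = 16 * x + y := by
  induction T with
  | nil => simp [pm1] at h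
  | cons y T ih =>
    unfold pm1 at h ih
    rw [List.foldr_cons, Nat.testBit_or, Bool.or_eq_true] at h
    rcases h with h | h
    · obtain ⟨z, hz, hn⟩ := ih h
      exact ⟨z, List.mem_cons_of_mem _ hz, hn⟩
    · refine ⟨y, List.mem_cons_self, ?_⟩
      rw [Nat.shiftLeft_eq, one_mul, Nat.testBit_two_pow] at h
      exact (of_decide_eq_true h).symm

lemma testBit_pmask {n : ℕ} {T : List ℕ} (h : (pmask T).testBit n) :
    ∃ x y, n = 16 * x + y ∧ ({x, y} : Multiset ℕ) ≤ (T : Multiset ℕ) := by
  induction T with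
  | nil => simp [pmask] at h
  | cons x T ih =>
    rw [pmask, Nat.testBit_or, Bool.or_eq_true] at h
    rcases h with h | h
    · obtain ⟨y, hy, hn⟩ := testBit_pm1 h
      refine ⟨x, y, hn, ?_⟩
      rw [← Multiset.cons_coe]
      exact Multiset.cons_le_cons x (Multiset.singleton_le.2 hy)
    · obtain ⟨z, y, hn, hzy⟩ := ih h
      exact ⟨z, y, hn, hzy.trans (by rw [← Multiset.cons_coe]; exact Multiset.le_cons_self _ _)⟩

lemma pairIn_of_pmask {j n : ℕ} {T : List ℕ} (hT : IsTyp b a V f j T)
    (h : (pmask T).testBit n) : PairIn b a V J f n := by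
  obtain ⟨x, y, hn, hxy⟩ := testBit_pmask h
  obtain ⟨R, hR⟩ := Multiset.le_iff_exists_add.1 hxy
  obtain ⟨S, hS, hSm⟩ := exists_subset_map (hT.trans hR)
  have hcard : S.card = 2 := by
    have := congrArg Multiset.card hSm
    rwa [Multiset.card_map] at this
  have hx : x ∈ S.val.map (fun v => a v % b) := by rw [hSm]; simp
  obtain ⟨u, hu, hux⟩ := Multiset.mem_map.1 hx
  have hu' : u ∈ S := hu
  obtain ⟨S', hS'⟩ := Multiset.exists_cons_of_mem hu
  rw [hS', Multiset.map_cons, hux] at hSm
  have hSm' : S'.map (fun v => a v % b) = {y} := by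
    have : (x ::ₘ S'.map (fun v => a v % b)) = x ::ₘ {y} := hSm
    rwa [Multiset.cons_inj_right] at this
  obtain ⟨w, hw⟩ := Multiset.card_eq_one.1 (show S'.card = 1 by
    have := congrArg Multiset.card hSm'
    rwa [Multiset.card_map, Multiset.card_singleton] at this)
  rw [hw, Multiset.map_singleton, Multiset.singleton_inj] at hSm'
  have hw' : w ∈ S := by
    have : w ∈ S.val := by rw [hS', hw]; simp
    exact this
  have huw : u ≠ w := by
    have := S.nodup
    rw [hS', hw, Multiset.nodup_cons] at this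
    intro e
    exact this.1 (by simp [e])
  have h1 := mem_filter.1 (hS hu')
  have h2 := mem_filter.1 (hS hw')
  exact ⟨f, Lk.refl _, u, h1.1, w, h2.1, huw, h1.2.trans h2.2.symm, by rw [hux, hSm', hn]⟩

/-- Properties of the multiset of residues of a group in a minimal counterexample. -/
structure Good (b : ℕ) (lim : ℕ) (M : Multiset ℕ) : Prop where
  pos : ∀ x ∈ M, 0 < x
  lt : ∀ x ∈ M, x + 1 < b
  zs : ∀ S ≤ M, S ≠ 0 → ¬ b ∣ S.sum
  three : 3 ≤ M.card
  lim : lim ≠ 0 → M.card ≤ lim
  dvd : b ∣ M.sum + 1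
  pair : ∀ x y : ℕ, ({x, y} : Multiset ℕ) ≤ M → ¬ b ∣ x + y + 1

lemma Cx.good (C : Cx b a V J f g) {lim : ℕ} (hlim : lim ≠ 0 → J.card ≤ lim) {f' : σ → ℕ}
    (hf' : Lk b a V J f f') {j : ℕ} (hj : j ∈ J) :
    Good b lim ((V.filter (fun v => f' v = j)).val.map (fun v => a v % b)) := by
  have hb0 := C.b2
  have hst := hf'.st C.sf
  have key : ∀ S ≤ (V.filter (fun v => f' v = j)).val.map (fun v => a v % b),
      ∃ Z ⊆ V.filter (fun v => f' v = j), Z.val.map (fun v => a v % b) = S := by
    intro S hS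
    obtain ⟨R, hR⟩ := Multiset.le_iff_exists_add.1 hS
    exact exists_subset_map hR
  have hsum : ∀ Z : Finset σ, ∀ c, (b ∣ ∑ v ∈ Z, a v + c ↔
      b ∣ (Z.val.map (fun v => a v % b)).sum + c) := by
    intro Z c
    have := dvd_sum_iff (a := a) (b := b) (S := Z) (T := (Z.val.map (fun v => a v % b)).toList)
      (Multiset.coe_toList _).symm c
    rw [this, Multiset.sum_toList]
  refine ⟨fun x hx => ?_, fun x hx => ?_, fun S hS hS0 hb => ?_, ?_, fun h0 => ?_, ?_,
    fun x y hxy hb => ?_⟩
  · obtain ⟨v, hv, rfl⟩ := Multiset.mem_map.1 hx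
    have hv' : v ∈ V.filter (fun v => f' v = j) := hv
    by_contra h0
    exact C.zero v (mem_filter.1 hv').1 (Nat.dvd_of_mod_eq_zero (by omega))
  · obtain ⟨v, hv, rfl⟩ := Multiset.mem_map.1 hx
    have hv' : v ∈ V.filter (fun v => f' v = j) := hv
    have h1 := C.no_neg v (mem_filter.1 hv').1
    have h2 : a v % b < b := Nat.mod_lt _ (by omega)
    by_contra h0
    apply h1
    have h3 := Nat.div_add_mod (a v) b
    refine ⟨a v / b + 1, ?_⟩
    rw [mul_add, mul_one]
    omega
  · obtain ⟨Z, hZ, hZS⟩ := key S hS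
    have hZ0 : Z.Nonempty := by
      rw [nonempty_iff_ne_empty]
      rintro rfl
      exact hS0 (by rw [← hZS]; rfl)
    apply C.zsf hf' (j := j) (hZ.trans (filter_subset _ _)) hZ0
      (fun v hv => (mem_filter.1 (hZ hv)).2)
    have := (hsum Z 0).2 (by rw [hZS]; exact hb)
    exact this
  · rw [Multiset.card_map]
    exact C.three_le hf' hj
  · rw [Multiset.card_map]
    exact (C.le_card hf' hj).trans (hlim h0)
  · rw [← hsum]
    exact hst.dvd j hj
  · obtain ⟨Z, hZ, hZS⟩ := key _ hxy
    have hc : Z.card = 2 := by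
      have := congrArg Multiset.card hZS
      rwa [Multiset.card_map] at this
    obtain ⟨u, w, huw, rfl⟩ := card_eq_two.1 hc
    have hu := (mem_filter.1 (hZ (mem_insert_self u _))).1
    have hw := (mem_filter.1 (hZ (mem_insert_of_mem (mem_singleton_self w)))).1
    apply C.no_pair hu hw huw
    have := (hsum {u, w} 1).2 (by rw [hZS]; simpa using hb)
    rwa [sum_pair huw] at this

/-- Enumeration of good types. -/
def en (b lim : ℕ) (L : List (List ℕ)) : ℕ → ℕ → List ℕ → List ℕ → Bool
  | 0, _, _, _ => false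
  | k + 1, s, cur, sums =>
    (decide (cur.length < 3) || (cur.sum + 1) % b != 0 || L.contains cur) &&
    ((lim != 0 && decide (lim ≤ cur.length)) ||
      (List.range (b - 1)).all fun x => decide (x < s) || x == 0 ||
        sums.any (fun t => (t + x) % b == 0) || cur.any (fun y => (y + x + 1) % b == 0) ||
        en b lim L k x (x :: cur) (sums ∪ sums.map (fun t => (t + x) % b)))

lemma en_sound {b lim : ℕ} (L : List (List ℕ)) (k s : ℕ) (cur sums : List ℕ)
    (h : en b lim L k s cur sums = true)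
    (hs : ∀ t ∈ sums, ∃ S ≤ (cur : Multiset ℕ), S.sum % b = t) (R : List ℕ)
    (hR : R.Pairwise (· ≤ ·)) (hRs : ∀ x ∈ R, s ≤ x)
    (hG : Good b lim ((R : Multiset ℕ) + (cur : Multiset ℕ))) :
    ∃ T ∈ L, (T : Multiset ℕ) = (R : Multiset ℕ) + (cur : Multiset ℕ) := by
  induction k generalizing s cur sums R with
  | zero => simp [en] at h
  | succ k ih =>
    rw [en, Bool.and_eq_true] at h
    obtain ⟨h1, h2⟩ := h
    cases R with
    | nil =>
      rw [Multiset.coe_nil, zero_add] at hG ⊢
      have h3 := hG.three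
      have h4 := hG.dvd
      rw [Multiset.coe_card] at h3
      rw [Multiset.sum_coe] at h4
      simp only [Bool.or_eq_true, decide_eq_true_eq, bne_iff_ne, ne_eq,
        List.contains_iff_mem] at h1
      rcases h1 with (h1 | h1) | h1
      · omega
      · exact absurd (Nat.mod_eq_zero_of_dvd h4) h1
      · exact ⟨cur, h1, rfl⟩
    | cons x R =>
      have hxM : x ∈ ((x :: R : List ℕ) : Multiset ℕ) + (cur : Multiset ℕ) := by simp
      have hx0 := hG.pos x hxM
      have hxb := hG.lt x hxM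
      have hxs := hRs x List.mem_cons_self
      have hlen : ¬ (lim ≠ 0 ∧ lim ≤ cur.length) := by
        rintro ⟨h3, h4⟩
        have := hG.lim h3
        rw [Multiset.card_add, Multiset.coe_card, Multiset.coe_card, List.length_cons] at this
        omega
      simp only [Bool.or_eq_true, Bool.and_eq_true, decide_eq_true_eq, bne_iff_ne,
        List.all_eq_true, List.mem_range, beq_iff_eq, List.any_eq_true] at h2
      rcases h2 with h2 | h2
      · exact absurd h2 hlen
      have h3 := h2 x (by omega)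
      have e1 : ((x :: R : List ℕ) : Multiset ℕ) + (cur : Multiset ℕ) =
          (R : Multiset ℕ) + ((x :: cur : List ℕ) : Multiset ℕ) := by
        rw [← Multiset.cons_coe, ← Multiset.cons_coe, Multiset.cons_add, Multiset.add_cons]
      rcases h3 with (((h3 | h3) | ⟨t, ht, h3⟩) | ⟨y, hy, h3⟩) | h3
      · omega
      · omega
      · exfalso
        obtain ⟨S, hS, hSt⟩ := hs t ht
        apply hG.zs (x ::ₘ S)
        · rw [e1, ← Multiset.cons_coe]
          exact (Multiset.cons_le_cons x hS).trans (Multiset.le_add_left _ _)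
        · exact Multiset.cons_ne_zero
        · rw [Multiset.sum_cons, Nat.dvd_iff_mod_eq_zero, Nat.add_mod, hSt, Nat.add_comm,
            Nat.add_mod_mod]
          exact h3
      · exfalso
        apply hG.pair x y
        · rw [e1, ← Multiset.cons_coe]
          exact (Multiset.cons_le_cons x (Multiset.singleton_le.2 hy)).trans
            (Multiset.le_add_left _ _)
        · rw [Nat.dvd_iff_mod_eq_zero, add_comm x y]
          exact h3
      · obtain ⟨T, hT, hTe⟩ := ih x (x :: cur) _ h3 (by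
            intro t ht
            rw [List.mem_union_iff, List.mem_map] at ht
            rcases ht with ht | ⟨t', ht', rfl⟩
            · obtain ⟨S, hS, hSt⟩ := hs t ht
              exact ⟨S, hS.trans (by rw [← Multiset.cons_coe]; exact Multiset.le_cons_self _ _),
                hSt⟩
            · obtain ⟨S, hS, hSt⟩ := hs t' ht'
              refine ⟨x ::ₘ S, by rw [← Multiset.cons_coe]; exact Multiset.cons_le_cons x hS, ?_⟩
              rw [Multiset.sum_cons, Nat.add_comm, Nat.add_mod, hSt, Nat.add_mod t' x, ]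
              congr 2
              rw [← hSt, Nat.mod_mod]) R (List.Pairwise.of_cons hR)
            (fun y hy => List.rel_of_pairwise_cons hR hy) (by rw [← e1]; exact hG)
        exact ⟨T, hT, hTe.trans e1.symm⟩

/-- Completeness of the enumeration. -/
lemma exists_typ_mem {b lim : ℕ} (L : List (List ℕ)) (k : ℕ)
    (h : en b lim L k 0 [] [0] = true) {M : Multiset ℕ} (hM : Good b lim M) :
    ∃ T ∈ L, M = (T : Multiset ℕ) := by
  obtain ⟨T, hT, hTe⟩ := en_sound L k 0 [] [0] h (by
    intro t ht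
    rw [List.mem_singleton] at ht
    exact ⟨0, Multiset.zero_le _, by rw [ht, Multiset.sum_zero, Nat.zero_mod]⟩)
    (M.sort (· ≤ ·)) (Multiset.pairwise_sort _ _) (fun _ _ => Nat.zero_le _)
    (by rw [Multiset.sort_eq]; simpa using hM)
  refine ⟨T, hT, ?_⟩
  rw [Multiset.sort_eq] at hTe
  simpa using hTe.symm

end Pool.Agent.Lib.MP_e26c3f_al
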