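import Mathlib
import Pool.Agent.Lib.MP_e26c3f_al.AbsTypes

/-! Certificates for the non-existence of minimal counterexamples. -/

set_option autoImplicit false
set_option linter.unusedSectionVars false

namespace Pool.Agent.Lib.MP_e26c3f_al

open Finset

variable {σ : Type*} [DecidableEq σ]
variable {b : ℕ} {a : σ → ℕ} {V : Finset σ} {J : Finset ℕ} {f g h : σ → ℕ}

/-- Digits in base 16. -/
def dec : ℕ → ℕ → List ℕ
  | 0, _ => []
  | k + 1, n => if n = 0 then [] else (n % 16) :: dec k (n / 16)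

/-- A packed weight. -/
def wt (W x : ℕ) : ℕ := (W >>> (16 * x)) % 65536

/-- The weight of a type. -/
def dot (W : ℕ) (T : List ℕ) : ℕ := T.foldr (fun x s => wt W x + s) 0

/-- Code, list, mask. -/
abbrev Ty := ℕ × List ℕ × ℕ

/-- Parameters. -/
structure Env where
  /-- modulus -/
  b : ℕ
  /-- bound for the size of groups, or `0` -/
  lim : ℕ
  /-- numerator of the bound for the average -/
  p : ℕ
  /-- denominator -/
  q : ℕ

/-- What is known about one side. -/
structure SS where
  /-- possible types -/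
  A : List Ty
  /-- types which occur -/
  P : List ℕ
  /-- pairs which occur -/
  M : ℕ

/-- Certificates. -/
inductive Cert
  | far (W lam s1 s2 : ℕ)
  | con
  | bad (side : Bool) (i j T T' m : ℕ)
  | der (side : Bool) (i j T T' : ℕ) (c : Cert)
  | spl (side : Bool) (l : ℕ) (c1 c2 : Cert)
  | val (x : ℕ) (c1 c2 : Cert)

/-- Remove types meeting a mask. -/
def SS.cut (S : SS) (m : ℕ) : SS := ⟨S.A.filter fun t => t.2.2 &&& m == 0, S.P, S.M⟩
/-- Add a mask. -/
def SS.add (S : SS) (m : ℕ) : SS := ⟨S.A, S.P, S.M ||| m⟩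
/-- Remove a type. -/
def SS.del (S : SS) (l : ℕ) : SS := ⟨S.A.filter fun t => t.1 != l, S.P, S.M⟩
/-- Add an occurring type. -/
def SS.ins (S : SS) (l m : ℕ) : SS := ⟨S.A, l :: S.P, S.M ||| m⟩
/-- Remove types using a residue. -/
def SS.nov (S : SS) (x : ℕ) : SS := ⟨S.A.filter fun t => !t.2.1.contains x, S.P, S.M⟩

/-- Check for a pair of occurring types. -/
def chkPair (b : ℕ) (P : List ℕ) (i j : ℕ) (T T' : List ℕ) : Bool :=
  P.contains i && P.contains j && !((dec 20 i).isPerm (dec 20 j)) &&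
    (T ++ T').isPerm (dec 20 i ++ dec 20 j) && (T.sum + 1) % b == 0

/-- Impossible types. -/
def isBad (E : Env) (T : List ℕ) (m : ℕ) : Bool :=
  decide (T.length < 3) || (E.lim != 0 && decide (E.lim < T.length)) ||
    (m != 0 && decide (m ≤ T.length) && (T.take m).sum % E.b == 0)

/-- The checker. -/
def check (E : Env) : Cert → SS → SS → Bool
  | .far W lam s1 s2, S, R =>
    (lam == 0 || E.p != 0) &&
    S.A.all (fun t => Nat.ble (s1 + 32768 * t.2.1.length)
      (s2 + dot W t.2.1 + lam * t.2.1.sum)) &&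
    R.A.all (fun t => Nat.ble (E.q * (dot W t.2.1 + s2) + lam * E.p + 1)
      (E.q * (s1 + 32768 * t.2.1.length)))
  | .con, S, R => S.M &&& R.M != 0
  | .bad side i j T T' m, S, R =>
    (bif side then chkPair E.b S.P i j (dec 20 T) (dec 20 T') else
      chkPair E.b R.P i j (dec 20 T) (dec 20 T')) && isBad E (dec 20 T) m
  | .der side i j T T' c, S, R =>
    bif side then chkPair E.b S.P i j (dec 20 T) (dec 20 T') &&
      check E c (S.add (pmask (dec 20 T))) (R.cut (pmask (dec 20 T)))
    else chkPair E.b R.P i j (dec 20 T) (dec 20 T') &&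
      check E c (S.cut (pmask (dec 20 T))) (R.add (pmask (dec 20 T)))
  | .spl side l c1 c2, S, R =>
    bif side then check E c1 (S.del l) R &&
      check E c2 (S.ins l (pmask (dec 20 l))) (R.cut (pmask (dec 20 l)))
    else check E c1 S (R.del l) &&
      check E c2 (S.cut (pmask (dec 20 l))) (R.ins l (pmask (dec 20 l)))
  | .val x c1 c2, S, R =>
    decide (x < E.b - 1 - x) && check E c1 (S.nov x) (R.nov x) &&
      check E c2 (S.nov (E.b - 1 - x)) (R.nov (E.b - 1 - x))

/-- Meaning of the state. -/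
structure SS.OK (b : ℕ) (a : σ → ℕ) (V : Finset σ) (J : Finset ℕ) (f : σ → ℕ) (S : SS) :
    Prop where
  all : ∀ j ∈ J, ∃ p ∈ S.A, IsTyp b a V f j p.2.1
  pres : ∀ l ∈ S.P, ∃ j ∈ J, IsTyp b a V f j (dec 20 l)
  mask : ∀ n, S.M.testBit n → PairIn b a V J f n
  tab : ∀ p ∈ S.A, p.2.1 = dec 20 p.1 ∧ p.2.2 = pmask (dec 20 p.1)

lemma exists_testBit {m n : ℕ} (h : m &&& n ≠ 0) : ∃ k, m.testBit k ∧ n.testBit k := by
  by_contra hcon
  push Not at hcon
  apply h
  apply Nat.eq_of_testBit_eq
  intro k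
  rw [Nat.testBit_and, Nat.zero_testBit]
  by_cases h1 : m.testBit k
  · rw [h1, Bool.true_and]
    exact Bool.eq_false_iff.2 (hcon k h1)
  · rw [Bool.eq_false_iff.2 h1, Bool.false_and]

lemma SS.OK.cut {S : SS} (hS : S.OK b a V J f) (C : Cx b a V J f g) (hb : b ≤ 16) {m : ℕ}
    (hm : ∀ n, m.testBit n → PairIn b a V J g n) : (S.cut m).OK b a V J f where
  all := by
    intro j hj
    obtain ⟨p, hp, hpj⟩ := hS.all j hj
    refine ⟨p, ?_, hpj⟩
    unfold SS.cut
    rw [List.mem_filter]
    refine ⟨hp, ?_⟩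
    by_contra h0
    obtain ⟨h1, h2⟩ := hS.tab p hp
    have h3 : p.2.2 &&& m ≠ 0 := fun e => h0 (by rw [e]; rfl)
    obtain ⟨k, hk1, hk2⟩ := exists_testBit h3
    rw [h2, ← h1] at hk1
    exact C.no_pairIn hb (pairIn_of_pmask hpj hk1) (hm k hk2)
  pres := hS.pres
  mask := hS.mask
  tab := fun p hp => hS.tab p (List.mem_filter.1 hp).1

lemma SS.OK.add {S : SS} (hS : S.OK b a V J f) {m : ℕ}
    (hm : ∀ n, m.testBit n → PairIn b a V J f n) : (S.add m).OK b a V J f where
  all := hS.all
  pres := hS.pres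
  mask := by
    intro n hn
    unfold SS.add at hn
    rw [Nat.testBit_or, Bool.or_eq_true] at hn
    exact hn.elim (hS.mask n) (hm n)
  tab := hS.tab

lemma SS.OK.ins {S : SS} (hS : S.OK b a V J f) {l j : ℕ} (hj : j ∈ J)
    (hl : IsTyp b a V f j (dec 20 l)) : (S.ins l (pmask (dec 20 l))).OK b a V J f where
  all := hS.all
  pres := by
    intro l' hl'
    rcases List.mem_cons.1 hl' with rfl | hl'
    · exact ⟨j, hj, hl⟩
    · exact hS.pres l' hl'
  mask := by
    intro n hn
    unfold SS.ins at hn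
    rw [Nat.testBit_or, Bool.or_eq_true] at hn
    exact hn.elim (hS.mask n) (pairIn_of_pmask hl)
  tab := hS.tab

lemma SS.OK.del {S : SS} (hS : S.OK b a V J f) {l : ℕ}
    (hl : ¬ ∃ j ∈ J, IsTyp b a V f j (dec 20 l)) : (S.del l).OK b a V J f where
  all := by
    intro j hj
    obtain ⟨p, hp, hpj⟩ := hS.all j hj
    refine ⟨p, ?_, hpj⟩
    unfold SS.del
    rw [List.mem_filter]
    refine ⟨hp, ?_⟩
    rw [bne_iff_ne]
    rintro rfl
    exact hl ⟨j, hj, by rw [← (hS.tab p hp).1]; exact hpj⟩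
  pres := hS.pres
  mask := hS.mask
  tab := fun p hp => hS.tab p (List.mem_filter.1 hp).1

lemma SS.OK.nov {S : SS} (hS : S.OK b a V J f) {x : ℕ}
    (hx : ∀ v ∈ V, a v % b ≠ x) : (S.nov x).OK b a V J f where
  all := by
    intro j hj
    obtain ⟨p, hp, hpj⟩ := hS.all j hj
    refine ⟨p, ?_, hpj⟩
    unfold SS.nov
    rw [List.mem_filter]
    refine ⟨hp, ?_⟩
    rw [Bool.not_eq_true', Bool.eq_false_iff, ne_eq, List.contains_iff_mem]
    intro h0
    have h1 : x ∈ (V.filter (fun v => f v = j)).val.map (fun v => a v % b) := by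
      rw [hpj]; exact h0
    obtain ⟨v, hv, hvx⟩ := Multiset.mem_map.1 h1
    have hv' : v ∈ V.filter (fun v => f v = j) := hv
    exact hx v (mem_filter.1 hv').1 hvx
  pres := hS.pres
  mask := hS.mask
  tab := fun p hp => hS.tab p (List.mem_filter.1 hp).1

lemma chkPair_sound {P : List ℕ} {i j : ℕ} {T T' : List ℕ} (hf : St b a V J f)
    (hP : ∀ l ∈ P, ∃ j ∈ J, IsTyp b a V f j (dec 20 l))
    (h : chkPair b P i j T T' = true) : ∃ f' l, l ∈ J ∧ Lk b a V J f f' ∧ IsTyp b a V f' l T := by
  unfold chkPair at h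
  simp only [Bool.and_eq_true, List.contains_iff_mem, Bool.not_eq_true', beq_iff_eq] at h
  obtain ⟨⟨⟨⟨h1, h2⟩, h3⟩, h4⟩, h5⟩ := h
  obtain ⟨i', hi', hi⟩ := hP i h1
  obtain ⟨j', hj', hj⟩ := hP j h2
  obtain ⟨f', hf', hT⟩ := exists_typ hf hi' hj' hi hj (by
    intro hp
    rw [List.isPerm_iff.2 hp] at h3
    exact absurd h3 (by decide)) (List.isPerm_iff.1 h4) (Nat.dvd_of_mod_eq_zero h5)
  exact ⟨f', i', hi', hf', hT⟩

lemma isBad_sound {E : Env} (hE : E.b = b) (C : Cx b a V J f g)
    (hlim : E.lim ≠ 0 → J.card ≤ E.lim) {f' : σ → ℕ} {l : ℕ} (hl : l ∈ J) (hf' : Lk b a V J f f')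
    {T : List ℕ} {m : ℕ} (hT : IsTyp b a V f' l T) (h : isBad E T m = true) : False := by
  have hG := C.good hlim hf' hl
  rw [show Multiset.map (fun v => a v % b) (V.filter (fun v => f' v = l)).val =
    (T : Multiset ℕ) from hT] at hG
  unfold isBad at h
  simp only [Bool.or_eq_true, Bool.and_eq_true, decide_eq_true_eq, bne_iff_ne, ne_eq,
    beq_iff_eq, hE] at h
  rcases h with (h | ⟨h1, h2⟩) | ⟨⟨h1, h2⟩, h3⟩
  · have := hG.three
    rw [Multiset.coe_card] at this
    omega
  · have := hG.lim h1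
    rw [Multiset.coe_card] at this
    omega
  · apply hG.zs ((T.take m : List ℕ) : Multiset ℕ)
    · exact Multiset.coe_le.2 (List.take_sublist m T).subperm
    · intro e
      rw [Multiset.coe_eq_zero] at e
      have := congrArg List.length e
      rw [List.length_take, List.length_nil] at this
      omega
    · rw [Multiset.sum_coe]
      exact Nat.dvd_of_mod_eq_zero h3

lemma sum_dot {W j : ℕ} {T : List ℕ} (hT : IsTyp b a V f j T) :
    dot W T = ∑ v ∈ V.filter (fun v => f v = j), wt W (a v % b) := by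
  have h1 : dot W T = (T.map (wt W)).sum := by
    unfold dot
    induction T with
    | nil => rfl
    | cons x T ih =>
      have : ∀ T : List ℕ, T.foldr (fun x s => wt W x + s) 0 = (T.map (wt W)).sum := by
        intro T
        induction T with
        | nil => rfl
        | cons x T ih => rw [List.foldr_cons, ih, List.map_cons, List.sum_cons]
      exact this _
  have h2 : ((V.filter (fun v => f v = j)).val.map (fun v => a v % b)).map (wt W) =
      ((T : Multiset ℕ)).map (wt W) := by
    rw [show Multiset.map (fun v => a v % b) (V.filter (fun v => f v = j)).val =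
      (T : Multiset ℕ) from hT]
  rw [Multiset.map_map, Multiset.map_coe] at h2
  have h3 := congrArg Multiset.sum h2
  rw [Multiset.sum_coe] at h3
  rw [h1, ← h3]
  rfl

lemma sum_typ {j : ℕ} {T : List ℕ} (hT : IsTyp b a V f j T) :
    T.sum = ∑ v ∈ V.filter (fun v => f v = j), a v % b := by
  have h3 := congrArg Multiset.sum hT
  rw [Multiset.sum_coe] at h3
  exact h3.symm

lemma sum_all (hf : St b a V J f) (F : σ → ℕ) :
    ∑ j ∈ J, ∑ v ∈ V.filter (fun v => f v = j), F v = ∑ v ∈ V, F v :=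
  sum_fiberwise_of_maps_to (fun v hv => hf.mem v hv) F

theorem check_sound (E : Env) (hE : E.b = b) (hb : b ≤ 16)
    (hlim : E.lim ≠ 0 → J.card ≤ E.lim)
    (hκ : E.p ≠ 0 → E.q * ∑ v ∈ V, a v % b ≤ E.p * J.card) (C : Cx b a V J f g) (c : Cert) :
    ∀ S R : SS, S.OK b a V J f → R.OK b a V J g → check E c S R = true → False := by
  induction c with
  | far W lam s1 s2 =>
    intro S R hS hR h
    rw [check, Bool.and_eq_true, Bool.and_eq_true, Bool.or_eq_true, beq_iff_eq, bne_iff_ne,
      List.all_eq_true, List.all_eq_true] at h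
    obtain ⟨⟨h1, h2⟩, h3⟩ := h
    have A1 : ∀ j ∈ J, s1 + 32768 * (V.filter (fun v => f v = j)).card ≤
        s2 + ∑ v ∈ V.filter (fun v => f v = j), wt W (a v % b) +
          lam * ∑ v ∈ V.filter (fun v => f v = j), a v % b := by
      intro j hj
      obtain ⟨p, hp, hpj⟩ := hS.all j hj
      have := Nat.le_of_ble_eq_true (h2 p hp)
      rwa [sum_dot hpj, sum_typ hpj, ← card_eq_length hpj] at this
    have A2 : ∀ j ∈ J, E.q * (∑ v ∈ V.filter (fun v => g v = j), wt W (a v % b) + s2) +
        lam * E.p + 1 ≤ E.q * (s1 + 32768 * (V.filter (fun v => g v = j)).card) := by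
      intro j hj
      obtain ⟨p, hp, hpj⟩ := hR.all j hj
      have := Nat.le_of_ble_eq_true (h3 p hp)
      rwa [sum_dot hpj, ← card_eq_length hpj] at this
    have B1 := sum_le_sum A1
    have B2 := sum_le_sum A2
    have c1 : ∑ j ∈ J, (V.filter (fun v => f v = j)).card = V.card := by
      have := sum_all C.sf (fun _ => 1)
      simpa using this
    have c2 : ∑ j ∈ J, (V.filter (fun v => g v = j)).card = V.card := by
      have := sum_all C.sg (fun _ => 1)
      simpa using this
    simp only [sum_add_distrib, ← mul_sum, sum_const, smul_eq_mul, mul_one] at B1 B2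
    rw [sum_all C.sf (fun v => wt W (a v % b)), sum_all C.sf (fun v => a v % b), c1] at B1
    rw [sum_all C.sg (fun v => wt W (a v % b)), c2] at B2
    have hJ := C.card
    have hκ' : E.q * (lam * ∑ v ∈ V, a v % b) ≤ lam * (E.p * J.card) := by
      rcases h1 with h1 | h1
      · simp [h1]
      · calc E.q * (lam * ∑ v ∈ V, a v % b) = lam * (E.q * ∑ v ∈ V, a v % b) := by ring
          _ ≤ lam * (E.p * J.card) := Nat.mul_le_mul_left _ (hκ h1)
    have B3 := Nat.mul_le_mul_left E.q B1
    nlinarith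
  | con =>
    intro S R hS hR h
    rw [check, bne_iff_ne] at h
    obtain ⟨k, hk1, hk2⟩ := exists_testBit h
    exact C.no_pairIn hb (hS.mask k hk1) (hR.mask k hk2)
  | bad side i j T T' m =>
    intro S R hS hR h
    rw [check, Bool.and_eq_true, hE] at h
    obtain ⟨h1, h2⟩ := h
    cases side with
    | true =>
      obtain ⟨f', l, hl, hf', hT⟩ := chkPair_sound C.sf hS.pres h1
      exact isBad_sound hE C hlim hl hf' hT h2
    | false =>
      obtain ⟨f', l, hl, hf', hT⟩ := chkPair_sound C.sg hR.pres h1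
      exact isBad_sound hE C.symm hlim hl hf' hT h2
  | der side i j T T' c ih =>
    intro S R hS hR h
    rw [check, hE] at h
    cases side with
    | true =>
      rw [cond_true, Bool.and_eq_true] at h
      obtain ⟨f', l, hl, hf', hT⟩ := chkPair_sound C.sf hS.pres h.1
      have hm : ∀ n, (pmask (dec 20 T)).testBit n → PairIn b a V J f n :=
        fun n hn => (pairIn_of_pmask hT hn).trans hf'
      exact ih _ _ (hS.add hm) (hR.cut C.symm hb hm) h.2
    | false =>
      rw [cond_false, Bool.and_eq_true] at h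
      obtain ⟨f', l, hl, hf', hT⟩ := chkPair_sound C.sg hR.pres h.1
      have hm : ∀ n, (pmask (dec 20 T)).testBit n → PairIn b a V J g n :=
        fun n hn => (pairIn_of_pmask hT hn).trans hf'
      exact ih _ _ (hS.cut C hb hm) (hR.add hm) h.2
  | spl side l c1 c2 ih1 ih2 =>
    intro S R hS hR h
    rw [check] at h
    cases side with
    | true =>
      rw [cond_true, Bool.and_eq_true] at h
      by_cases hl : ∃ j ∈ J, IsTyp b a V f j (dec 20 l)
      · obtain ⟨j, hj, hlj⟩ := hl
        exact ih2 _ _ (hS.ins hj hlj) (hR.cut C.symm hb fun n hn => pairIn_of_pmask hlj hn) h.2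
      · exact ih1 _ _ (hS.del hl) hR h.1
    | false =>
      rw [cond_false, Bool.and_eq_true] at h
      by_cases hl : ∃ j ∈ J, IsTyp b a V g j (dec 20 l)
      · obtain ⟨j, hj, hlj⟩ := hl
        exact ih2 _ _ (hS.cut C hb fun n hn => pairIn_of_pmask hlj hn) (hR.ins hj hlj) h.2
      · exact ih1 _ _ hS (hR.del hl) h.1
  | val x c1 c2 ih1 ih2 =>
    intro S R hS hR h
    rw [check, Bool.and_eq_true, Bool.and_eq_true, decide_eq_true_eq, hE] at h
    obtain ⟨⟨h0, h1⟩, h2⟩ := h
    by_cases hx : ∀ v ∈ V, a v % b ≠ x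
    · exact ih1 _ _ (hS.nov hx) (hR.nov hx) h1
    · by_cases hy : ∀ v ∈ V, a v % b ≠ b - 1 - x
      · exact ih2 _ _ (hS.nov hy) (hR.nov hy) h2
      · push Not at hx hy
        obtain ⟨u, hu, hux⟩ := hx
        obtain ⟨w, hw, hwy⟩ := hy
        have hb0 := C.b2
        have huw : u ≠ w := by
          rintro rfl
          omega
        apply C.no_pair hu hw huw
        have e1 := Nat.div_add_mod (a u) b
        have e2 := Nat.div_add_mod (a w) b
        refine ⟨a u / b + a w / b + 1, ?_⟩
        rw [mul_add, mul_add, mul_one]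
        omega

/-- A complete certificate excludes minimal counterexamples. -/
theorem Cx.false_of_cert (E : Env) (hE : E.b = b) (hb : b ≤ 16)
    (hlim : E.lim ≠ 0 → J.card ≤ E.lim)
    (hκ : E.p ≠ 0 → E.q * ∑ v ∈ V, a v % b ≤ E.p * J.card) (C : Cx b a V J f g)
    (tab : List Ty) (c : Cert)
    (hen : en b E.lim (tab.map fun p => p.2.1) (b + 2) 0 [] [0] = true)
    (htab : (tab.all fun p => p.2.1 == dec 20 p.1 && p.2.2 == pmask (dec 20 p.1)) = true)
    (hc : check E c ⟨tab, [], 0⟩ ⟨tab, [], 0⟩ = true) : False := by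
  have key : ∀ f g : σ → ℕ, Cx b a V J f g → SS.OK b a V J f ⟨tab, [], 0⟩ := by
    intro f g C
    refine ⟨fun j hj => ?_, fun l hl => by simp at hl, fun n hn => by simp at hn, fun p hp => ?_⟩
    · obtain ⟨T, hT, hTe⟩ := exists_typ_mem _ _ hen (C.good hlim (Lk.refl _) hj)
      obtain ⟨p, hp, rfl⟩ := List.mem_map.1 hT
      exact ⟨p, hp, hTe⟩
    · have := List.all_eq_true.1 htab p hp
      rw [Bool.and_eq_true, beq_iff_eq, beq_iff_eq] at this
      exact this
  exact check_sound E hE hb hlim hκ C c _ _ (key f g C) (key g f C.symm) hc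

end Pool.Agent.Lib.MP_e26c3f_al
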