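import Mathlib
import Pool.Agent.Lib.MP_e26c3f_al.AbsCheck

/-! Certificate for `b = 3`. -/

set_option autoImplicit false
set_option maxRecDepth 100000

namespace Pool.Agent.Lib.MP_e26c3f_al

/-- The possible types for `b = 3`. -/
def tab3 : List Ty :=
  []

/-- Part of the certificate. -/
def cert3_0 : Cert :=
  .far 0x7fff0000 0 1 0

/-- The certificate for `b = 3`. -/
def cert3 : Cert :=
  cert3_0

/-- The parameters for `b = 3`. -/
def env3 : Env := ⟨3, 0, 0, 1⟩

lemma en3_ok : en 3 0 (tab3.map fun p => p.2.1) 5 0 [] [0] = true := by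
  decide +kernel

lemma tab3_ok : (tab3.all fun p => p.2.1 == dec 20 p.1 && p.2.2 == pmask (dec 20 p.1)) = true := by
  decide +kernel

lemma check3_ok : check env3 cert3 ⟨tab3, [], 0⟩ ⟨tab3, [], 0⟩ = true := by
  decide +kernel

end Pool.Agent.Lib.MP_e26c3f_al
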