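import Mathlib
import Pool.Agent.Lib.MP_e26c3f_al.AbsCheck

/-! Certificate for `b = 4`. -/

set_option autoImplicit false
set_option maxRecDepth 100000

namespace Pool.Agent.Lib.MP_e26c3f_al

/-- The possible types for `b = 4`. -/
def tab4 : List Ty :=
  [(0x111, [1, 1, 1], 0x20000)]

/-- Part of the certificate. -/
def cert4_0 : Cert :=
  .far 0x7fff7fff0000 0 1 0

/-- Part of the certificate. -/
def cert4_1 : Cert :=
  .spl true 0x111 (.far 0x7fff7fff0000 0 1 0) (.far 0x7ffd80010000 0 3 0)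

/-- The certificate for `b = 4`. -/
def cert4 : Cert :=
  (.val 1 cert4_0 cert4_1)

/-- The parameters for `b = 4`. -/
def env4 : Env := ⟨4, 0, 0, 1⟩

lemma en4_ok : en 4 0 (tab4.map fun p => p.2.1) 6 0 [] [0] = true := by
  decide +kernel

lemma tab4_ok : (tab4.all fun p => p.2.1 == dec 20 p.1 && p.2.2 == pmask (dec 20 p.1)) = true := by
  decide +kernel

lemma check4_ok : check env4 cert4 ⟨tab4, [], 0⟩ ⟨tab4, [], 0⟩ = true := by
  decide +kernel

end Pool.Agent.Lib.MP_e26c3f_al
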