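import Mathlib
import Pool.Agent.Lib.MP_e26c3f_al.AbsCheck

/-! Certificate for `b = 5`. -/

set_option autoImplicit false
set_option maxRecDepth 100000

namespace Pool.Agent.Lib.MP_e26c3f_al

/-- The possible types for `b = 5`. -/
def tab5 : List Ty :=
  [(0x1111, [1, 1, 1, 1], 0x20000),
   (0x112, [2, 1, 1], 0x200020000),
   (0x333, [3, 3, 3], 0x8000000000000)]

/-- Part of the certificate. -/
def cert5_0 : Cert :=
  .spl true 0x333 (.far 0x7fff7fff7fff0000 0 1 0) (.far 0x80017ffd7ffd0000 0 3 0)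

/-- Part of the certificate. -/
def cert5_1 : Cert :=
  .spl true 0x1111 (.spl true 0x112 (.far 0x7fff7fff7fff0000 0 1 0) (.far 0x7fff7fff80010000 0 1
    0)) (.far 0x7fff7fff80010000 0 1 0)

/-- The certificate for `b = 5`. -/
def cert5 : Cert :=
  (.val 1 cert5_0 cert5_1)

/-- The parameters for `b = 5`. -/
def env5 : Env := ⟨5, 0, 0, 1⟩

lemma en5_ok : en 5 0 (tab5.map fun p => p.2.1) 7 0 [] [0] = true := by
  decide +kernel

lemma tab5_ok : (tab5.all fun p => p.2.1 == dec 20 p.1 && p.2.2 == pmask (dec 20 p.1)) = true := by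
  decide +kernel

lemma check5_ok : check env5 cert5 ⟨tab5, [], 0⟩ ⟨tab5, [], 0⟩ = true := by
  decide +kernel

end Pool.Agent.Lib.MP_e26c3f_al
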