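import Mathlib
import Pool.Agent.Lib.MP_e26c3f_al.AbsCheck

/-! Certificate for `b = 6`. -/

set_option autoImplicit false
set_option maxRecDepth 100000

namespace Pool.Agent.Lib.MP_e26c3f_al

/-- The possible types for `b = 6`. -/
def tab6 : List Ty :=
  [(0x11111, [1, 1, 1, 1, 1], 0x20000),
   (0x1112, [2, 1, 1, 1], 0x200020000),
   (0x113, [3, 1, 1], 0x2000000020000),
   (0x122, [2, 2, 1], 0x600000000),
   (0x344, [4, 4, 3], 0x180000000000000000)]

/-- Part of the certificate. -/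
def cert6_0 : Cert :=
  .spl true 0x344 (.far 0x7fff7fff7fff7fff0000 0 1 0) (.far 0x7fff80037fff7fff0000 0 1 0)

/-- Part of the certificate. -/
def cert6_1 : Cert :=
  .far 0x7fff7fff7fff7fff0000 0 1 0

/-- Part of the certificate. -/
def cert6_2 : Cert :=
  .spl true 0x11111 (.spl true 0x113 (.far 0x7fff7fff7fff7fff0000 0 1 0) (.far
    0x7fff7fff7fff80010000 0 1 0)) (.far 0x7fff7fff7fff80010000 0 1 0)

/-- Part of the certificate. -/
def cert6_3 : Cert :=
  .spl true 0x11111 (.spl true 0x1112 (.spl true 0x122 (.far 0x7fff7fff7fff7fff0000 0 1 0) (.far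
    0x7ffb7ffb80037fff0000 0 5 0)) (.far 0x7fff7fff7fff80030000 0 1 0)) (.spl true 0x122 (.far
    0x7ffd7ffd7ffd80020000 0 3 0) (.far 0x7fff7fff7fff80030000 0 1 0))

/-- The certificate for `b = 6`. -/
def cert6 : Cert :=
  (.val 1 (.val 2 cert6_0 cert6_1) (.val 2 cert6_2 cert6_3))

/-- The parameters for `b = 6`. -/
def env6 : Env := ⟨6, 0, 0, 1⟩

lemma en6_ok : en 6 0 (tab6.map fun p => p.2.1) 8 0 [] [0] = true := by
  decide +kernel

lemma tab6_ok : (tab6.all fun p => p.2.1 == dec 20 p.1 && p.2.2 == pmask (dec 20 p.1)) = true := by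
  decide +kernel

lemma check6_ok : check env6 cert6 ⟨tab6, [], 0⟩ ⟨tab6, [], 0⟩ = true := by
  decide +kernel

end Pool.Agent.Lib.MP_e26c3f_al
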