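import Mathlib
import Pool.Agent.Lib.MP_e26c3f_al.AbsCheck

/-! Certificate for `b = 7`. -/

set_option autoImplicit false
set_option maxRecDepth 100000

namespace Pool.Agent.Lib.MP_e26c3f_al

/-- The possible types for `b = 7`. -/
def tab7 : List Ty :=
  [(0x111111, [1, 1, 1, 1, 1, 1], 0x20000),
   (0x11112, [2, 1, 1, 1, 1], 0x200020000),
   (0x1113, [3, 1, 1, 1], 0x2000000020000),
   (0x1122, [2, 2, 1, 1], 0x600020000),
   (0x114, [4, 1, 1], 0x20000000000020000),
   (0x123, [3, 2, 1], 0x6000200000000),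
   (0x1444, [4, 4, 4, 1], 0x120000000000000000),
   (0x222, [2, 2, 2], 0x400000000),
   (0x355, [5, 5, 3], 0x2800000000000000000000),
   (0x44444, [4, 4, 4, 4, 4], 0x100000000000000000),
   (0x445, [5, 4, 4], 0x1000100000000000000000),
   (0x5555, [5, 5, 5, 5], 0x2000000000000000000000)]

/-- Part of the certificate. -/
def cert7_0 : Cert :=
  .spl true 0x44444 (.spl true 0x5555 (.spl true 0x355 (.spl true 0x445 (.far
    0x7fff7fff7fff7fff7fff0000 0 1 0) (.far 0x7fff80017fff7fff7fff0000 0 1 0)) (.spl true 0x445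
    (.far 0x7fff7fff80037fff7fff0000 0 1 0) (.far 0x7fff800180037fff7fff0000 0 1 0))) (.spl true
    0x445 (.far 0x80017fff7fff7fff7fff0000 0 1 0) (.far 0x80037fff7fff7fff7fff0000 0 1 0))) (.spl
    true 0x5555 (.spl true 0x355 (.far 0x7fff80017fff7fff7fff0000 0 1 0) (.bad true 0x44444 0x355
    0x54443 0x445 2)) (.bad true 0x44444 0x5555 0x544554 0x445 3))

/-- Part of the certificate. -/
def cert7_1 : Cert :=
  .spl true 0x222 (.spl true 0x5555 (.spl true 0x355 (.far 0x7fff7fff7fff7fff7fff0000 0 1 0)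
    (.far 0x7fff7fff80037fff7fff0000 0 1 0)) (.far 0x80017fff7fff7fff7fff0000 0 1 0)) (.spl true
    0x5555 (.spl true 0x355 (.far 0x7ffd7ffd7ffd80017ffd0000 0 3 0) (.far
    0x7ffd7ffd800980017ffd0000 0 3 0)) (.far 0x80037ffd7ffd80017ffd0000 0 3 0))

/-- Part of the certificate. -/
def cert7_2 : Cert :=
  .spl true 0x111111 (.spl true 0x1113 (.spl true 0x44444 (.spl true 0x1444 (.spl true 0x114
    (.far 0x7fff7fff7fff7fff7fff0000 0 1 0) (.far 0x7fff7fff7fff7fff80010000 0 1 0)) (.far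
    0x7ffa80087ffa7ffa7fff0000 0 6 0)) (.spl true 0x114 (.far 0x7ffd80027ffd7ffd7ffd0000 0 3 0)
    (.far 0x7fff80037fff7fff7fff0000 0 1 0))) (.spl true 0x44444 (.spl true 0x1444 (.far
    0x7fff7fff7fff7fff80010000 0 1 0) (.bad true 0x1113 0x1444 0x41143 0x114 2)) (.bad true
    0x1113 0x44444 0x41143 0x1444 2))) (.spl true 0x44444 (.spl true 0x1444 (.far
    0x7fff7fff7fff7fff80010000 0 1 0) (.bad true 0x111111 0x1444 0x4114111 0x114 4)) (.bad true
    0x111111 0x44444 0x4114111 0x1444 4))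

/-- Part of the certificate. -/
def cert7_3 : Cert :=
  .spl true 0x111111 (.spl true 0x11112 (.spl true 0x1113 (.spl true 0x1122 (.spl true 0x222
    (.spl true 0x123 (.far 0x7fff7fff7fff7fff7fff0000 0 1 0) (.far 0x7ffa7ffa80097ffe7fff0000 0 6
    0)) (.spl true 0x123 (.far 0x7ffd7ffd7ffd80017ffd0000 0 3 0) (.far 0x7ffa7ffa7ffa800d7fff0000
    0 6 0))) (.far 0x7ffd7ffd7ffd800180050000 0 3 0)) (.spl true 0x222 (.far
    0x7fff7fff7fff7fff80030000 0 1 0) (.far 0x7ffd7ffd7ffd800180050000 0 3 0))) (.spl true 0x222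
    (.far 0x7fff7fff7fff7fff80030000 0 1 0) (.far 0x7ffd7ffd7ffd800180050000 0 3 0))) (.spl true
    0x222 (.spl true 0x123 (.far 0x7ffe7ffe7ffe7ffe80030000 0 2 0) (.far
    0x7fff7fff7fff7fff80030000 0 1 0)) (.der true 0x111111 0x222 0x11112 0x1122 (.far
    0x7ffd7ffd7ffd800180050000 0 3 0)))

/-- The certificate for `b = 7`. -/
def cert7 : Cert :=
  (.val 1 (.val 2 cert7_0 cert7_1) (.val 2 cert7_2 cert7_3))

/-- The parameters for `b = 7`. -/
def env7 : Env := ⟨7, 0, 0, 1⟩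

lemma en7_ok : en 7 0 (tab7.map fun p => p.2.1) 9 0 [] [0] = true := by
  decide +kernel

lemma tab7_ok : (tab7.all fun p => p.2.1 == dec 20 p.1 && p.2.2 == pmask (dec 20 p.1)) = true := by
  decide +kernel

lemma check7_ok : check env7 cert7 ⟨tab7, [], 0⟩ ⟨tab7, [], 0⟩ = true := by
  decide +kernel

end Pool.Agent.Lib.MP_e26c3f_al
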