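import Mathlib
import Pool.Agent.Lib.MP_e26c3f_al.Cert3
import Pool.Agent.Lib.MP_e26c3f_al.Cert4
import Pool.Agent.Lib.MP_e26c3f_al.Cert5
import Pool.Agent.Lib.MP_e26c3f_al.Cert6
import Pool.Agent.Lib.MP_e26c3f_al.Cert7
import Pool.Agent.Lib.MP_e26c3f_al.Cert8
import Pool.Agent.Lib.MP_e26c3f_al.Cert9
import Pool.Agent.Lib.MP_e26c3f_al.Cert10
import Pool.Agent.Lib.MP_e26c3f_al.Cert11
import Pool.Agent.Lib.MP_e26c3f_al.Cert12

/-! Connectivity of the abstract states. -/

set_option autoImplicit false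
set_option linter.unusedSectionVars false

namespace Pool.Agent.Lib.MP_e26c3f_al

open Finset

variable {σ : Type*} [DecidableEq σ]
variable {a : σ → ℕ} {V : Finset σ} {J : Finset ℕ} {f g : σ → ℕ}

lemma absConn_of_no_cx' {b : ℕ} (hb : 2 ≤ b)
    (hno : ∀ (a : σ → ℕ) (V : Finset σ) (J : Finset ℕ) (f g : σ → ℕ), Cx b a V J f g → False)
    (a : σ → ℕ) (V : Finset σ) (J : Finset ℕ) : AbsConn b a V J :=
  absConn_of_no_cx hb (∑ v ∈ V, a v + J.card) J.card
    (fun a V J f g _ _ C => hno a V J f g C) V.card a V J rfl le_rfl le_rfl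

lemma no_cx3 (C : Cx 3 a V J f g) : False :=
  C.false_of_cert env3 rfl (by decide) (fun h => absurd rfl h) (fun h => absurd rfl h) tab3
    cert3 en3_ok tab3_ok check3_ok

lemma no_cx4 (C : Cx 4 a V J f g) : False :=
  C.false_of_cert env4 rfl (by decide) (fun h => absurd rfl h) (fun h => absurd rfl h) tab4
    cert4 en4_ok tab4_ok check4_ok

lemma no_cx5 (C : Cx 5 a V J f g) : False :=
  C.false_of_cert env5 rfl (by decide) (fun h => absurd rfl h) (fun h => absurd rfl h) tab5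
    cert5 en5_ok tab5_ok check5_ok

lemma no_cx6 (C : Cx 6 a V J f g) : False :=
  C.false_of_cert env6 rfl (by decide) (fun h => absurd rfl h) (fun h => absurd rfl h) tab6
    cert6 en6_ok tab6_ok check6_ok

lemma no_cx7 (C : Cx 7 a V J f g) : False :=
  C.false_of_cert env7 rfl (by decide) (fun h => absurd rfl h) (fun h => absurd rfl h) tab7
    cert7 en7_ok tab7_ok check7_ok

lemma no_cx8 (C : Cx 8 a V J f g) : False :=
  C.false_of_cert env8 rfl (by decide) (fun h => absurd rfl h) (fun h => absurd rfl h) tab8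
    cert8 en8_ok tab8_ok check8_ok

lemma no_cx9 (C : Cx 9 a V J f g) : False :=
  C.false_of_cert env9 rfl (by decide) (fun h => absurd rfl h) (fun h => absurd rfl h) tab9
    cert9 en9_ok tab9_ok check9_ok

lemma no_cx10 (C : Cx 10 a V J f g) : False :=
  C.false_of_cert env10 rfl (by decide) (fun h => absurd rfl h) (fun h => absurd rfl h) tab10
    cert10 en10_ok tab10_ok check10_ok

lemma sum_mod_le (b : ℕ) (a : σ → ℕ) (V : Finset σ) : ∑ v ∈ V, a v % b ≤ ∑ v ∈ V, a v :=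
  sum_le_sum fun _ _ => Nat.mod_le _ _

lemma no_cx11 (C : Cx 11 a V J f g) (h1 : ∑ v ∈ V, a v + J.card ≤ 55) (h2 : J.card ≤ 5) :
    False := by
  refine C.false_of_cert env11 rfl (by decide) (fun _ => h2) (fun _ => ?_) tab11 cert11 en11_ok
    tab11_ok check11_ok
  have h3 := sum_mod_le 11 a V
  have h4 := C.card
  show 3 * ∑ v ∈ V, a v % 11 ≤ 52 * J.card
  omega

lemma no_cx12 (C : Cx 12 a V J f g) (h1 : ∑ v ∈ V, a v + J.card ≤ 36) (h2 : J.card ≤ 3) :
    False := by
  refine C.false_of_cert env12 rfl (by decide) (fun _ => h2) (fun _ => ?_) tab12 cert12 en12_ok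
    tab12_ok check12_ok
  have h3 := sum_mod_le 12 a V
  have h4 := C.card
  show 1 * ∑ v ∈ V, a v % 12 ≤ 11 * J.card
  omega

/-- Moduli up to ten. -/
theorem absConn_le_ten {b : ℕ} (h3 : 3 ≤ b) (h10 : b ≤ 10) (a : σ → ℕ) (V : Finset σ)
    (J : Finset ℕ) : AbsConn b a V J := by
  interval_cases b
  · exact absConn_of_no_cx' (by norm_num) (fun _ _ _ _ _ C => no_cx3 C) a V J
  · exact absConn_of_no_cx' (by norm_num) (fun _ _ _ _ _ C => no_cx4 C) a V J
  · exact absConn_of_no_cx' (by norm_num) (fun _ _ _ _ _ C => no_cx5 C) a V J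
  · exact absConn_of_no_cx' (by norm_num) (fun _ _ _ _ _ C => no_cx6 C) a V J
  · exact absConn_of_no_cx' (by norm_num) (fun _ _ _ _ _ C => no_cx7 C) a V J
  · exact absConn_of_no_cx' (by norm_num) (fun _ _ _ _ _ C => no_cx8 C) a V J
  · exact absConn_of_no_cx' (by norm_num) (fun _ _ _ _ _ C => no_cx9 C) a V J
  · exact absConn_of_no_cx' (by norm_num) (fun _ _ _ _ _ C => no_cx10 C) a V J

/-- The modulus eleven. -/
theorem absConn_eleven (a : σ → ℕ) (V : Finset σ) (J : Finset ℕ)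
    (hM : ∑ v ∈ V, a v + J.card ≤ 55) (hJ : J.card ≤ 5) : AbsConn 11 a V J :=
  absConn_of_no_cx (by norm_num) 55 5 (fun _ _ _ _ _ h1 h2 C => no_cx11 C h1 h2) V.card a V J
    rfl hM hJ

/-- The modulus twelve. -/
theorem absConn_twelve (a : σ → ℕ) (V : Finset σ) (J : Finset ℕ)
    (hM : ∑ v ∈ V, a v + J.card ≤ 36) (hJ : J.card ≤ 3) : AbsConn 12 a V J :=
  absConn_of_no_cx (by norm_num) 36 3 (fun _ _ _ _ _ h1 h2 C => no_cx12 C h1 h2) V.card a V J
    rfl hM hJ

end Pool.Agent.Lib.MP_e26c3f_al
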