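import Mathlib

/-! Rows, configurations and two-row moves. -/

set_option autoImplicit false

namespace Pool.Agent.Lib.MP_e26c3f_al

open Relation

variable {σ τ : Type*}

/-- Exponent vectors of degree `d` with at most `s` variables. -/
def IsRow (d s : ℕ) (u : σ →₀ ℕ) : Prop := u.degree = d ∧ u.support.card ≤ s

/-- A two-row move between multisets of rows. -/
def Step (d s : ℕ) (X Y : Multiset (σ →₀ ℕ)) : Prop :=
  ∃ u v u' v' Z, X = u ::ₘ v ::ₘ Z ∧ Y = u' ::ₘ v' ::ₘ Z ∧ u + v = u' + v' ∧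
    IsRow d s u ∧ IsRow d s v ∧ IsRow d s u' ∧ IsRow d s v'

/-- Connected by two-row moves. -/
def Linked (d s : ℕ) : Multiset (σ →₀ ℕ) → Multiset (σ →₀ ℕ) → Prop :=
  ReflTransGen (Step d s)

/-- `X` is a multiset of `k` rows with sum `α`. -/
structure Cfg (d s k : ℕ) (α : σ →₀ ℕ) (X : Multiset (σ →₀ ℕ)) : Prop where
  row : ∀ u ∈ X, IsRow d s u
  card : X.card = k
  sum : X.sum = α

/-- All configurations of `k` rows with sum `α` are connected by two-row moves. -/
def Conn (d s k : ℕ) (α : σ →₀ ℕ) : Prop :=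
  ∀ X Y, Cfg d s k α X → Cfg d s k α Y → Linked d s X Y

variable {d s k : ℕ} {α : σ →₀ ℕ} {X Y Z : Multiset (σ →₀ ℕ)}

lemma Step.symm (h : Step d s X Y) : Step d s Y X := by
  obtain ⟨u, v, u', v', Z, rfl, rfl, h, hu, hv, hu', hv'⟩ := h
  exact ⟨u', v', u, v, Z, rfl, rfl, h.symm, hu', hv', hu, hv⟩

lemma Linked.refl (X : Multiset (σ →₀ ℕ)) : Linked d s X X := ReflTransGen.refl

lemma Linked.trans (h : Linked d s X Y) (h' : Linked d s Y Z) : Linked d s X Z :=
  ReflTransGen.trans h h'

lemma Step.linked (h : Step d s X Y) : Linked d s X Y := ReflTransGen.single h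

lemma Linked.symm (h : Linked d s X Y) : Linked d s Y X := by
  induction h with
  | refl => exact Linked.refl _
  | tail _ h ih => exact h.symm.linked.trans ih

lemma Step.cons (u : σ →₀ ℕ) (h : Step d s X Y) : Step d s (u ::ₘ X) (u ::ₘ Y) := by
  obtain ⟨a, b, a', b', Z, rfl, rfl, h, ha, hb, ha', hb'⟩ := h
  refine ⟨a, b, a', b', u ::ₘ Z, ?_, ?_, h, ha, hb, ha', hb'⟩
  · rw [Multiset.cons_swap u a, Multiset.cons_swap u b]
  · rw [Multiset.cons_swap u a', Multiset.cons_swap u b']

lemma Linked.cons (u : σ →₀ ℕ) (h : Linked d s X Y) : Linked d s (u ::ₘ X) (u ::ₘ Y) := by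
  induction h with
  | refl => exact Linked.refl _
  | tail _ h ih => exact ih.trans (h.cons u).linked

lemma Linked.add_left (Z : Multiset (σ →₀ ℕ)) (h : Linked d s X Y) :
    Linked d s (Z + X) (Z + Y) := by
  induction Z using Multiset.induction_on with
  | empty => simpa using h
  | cons u Z ih => simpa using ih.cons u

lemma Linked.add_right (Z : Multiset (σ →₀ ℕ)) (h : Linked d s X Y) :
    Linked d s (X + Z) (Y + Z) := by
  rw [add_comm X, add_comm Y]; exact h.add_left Z

lemma Step.cfg (h : Step d s X Y) (hX : Cfg d s k α X) : Cfg d s k α Y := by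
  obtain ⟨a, b, a', b', Z, rfl, rfl, h, ha, hb, ha', hb'⟩ := h
  refine ⟨?_, ?_, ?_⟩
  · intro u hu
    rcases Multiset.mem_cons.1 hu with rfl | hu
    · exact ha'
    rcases Multiset.mem_cons.1 hu with rfl | hu
    · exact hb'
    exact hX.row u (by simp [hu])
  · have := hX.card
    simpa using this
  · have := hX.sum
    simp only [Multiset.sum_cons] at this ⊢
    rw [← this, ← add_assoc, ← add_assoc, h]

lemma Linked.cfg (h : Linked d s X Y) (hX : Cfg d s k α X) : Cfg d s k α Y := by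
  induction h with
  | refl => exact hX
  | tail _ h ih => exact h.cfg ih

lemma Cfg.cons {u : σ →₀ ℕ} (hu : IsRow d s u) (h : Cfg d s k α X) :
    Cfg d s (k + 1) (u + α) (u ::ₘ X) := by
  refine ⟨?_, ?_, ?_⟩
  · intro v hv
    rcases Multiset.mem_cons.1 hv with rfl | hv
    · exact hu
    · exact h.row v hv
  · simp [h.card]
  · simp [h.sum]

lemma Cfg.degree (h : Cfg d s k α X) : α.degree = k * d := by
  have h1 : ∀ X : Multiset (σ →₀ ℕ), (∀ u ∈ X, IsRow d s u) →
      X.sum.degree = X.card * d := by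
    intro X
    induction X using Multiset.induction_on with
    | empty => simp
    | cons u X ih =>
      intro hX
      rw [Multiset.sum_cons, map_add, ih (fun v hv => hX v (by simp [hv])),
        (hX u (by simp)).1, Multiset.card_cons]
      ring
  rw [← h.sum, h1 X h.row, h.card]

lemma Cfg.exists_cons {u : σ →₀ ℕ} (h : Cfg d s (k + 1) α X) (hu : u ∈ X) :
    ∃ X' β, X = u ::ₘ X' ∧ α = u + β ∧ Cfg d s k β X' := by
  obtain ⟨X', rfl⟩ := Multiset.exists_cons_of_mem hu
  refine ⟨X', X'.sum, rfl, ?_, ?_, ?_, rfl⟩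
  · rw [← h.sum, Multiset.sum_cons]
  · intro v hv; exact h.row v (by simp [hv])
  · have := h.card
    simpa using this

lemma Cfg.le {u : σ →₀ ℕ} (h : Cfg d s k α X) (hu : u ∈ X) : u ≤ α := by
  rw [← h.sum]; exact Multiset.single_le_sum (fun _ _ => zero_le) _ hu

lemma conn_zero : Conn d s 0 α := by
  intro X Y hX hY
  rw [Multiset.card_eq_zero.1 hX.card, Multiset.card_eq_zero.1 hY.card]
  exact Linked.refl _

lemma conn_one : Conn d s 1 α := by
  intro X Y hX hY
  obtain ⟨u, rfl⟩ := Multiset.card_eq_one.1 hX.card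
  obtain ⟨v, rfl⟩ := Multiset.card_eq_one.1 hY.card
  have h1 := hX.sum
  have h2 := hY.sum
  simp only [Multiset.sum_singleton] at h1 h2
  rw [h1, h2]
  exact Linked.refl _

lemma conn_two : Conn d s 2 α := by
  intro X Y hX hY
  obtain ⟨u, v, rfl⟩ := Multiset.card_eq_two.1 hX.card
  obtain ⟨u', v', rfl⟩ := Multiset.card_eq_two.1 hY.card
  have h1 := hX.sum
  have h2 := hY.sum
  have h3 : ∀ a b : σ →₀ ℕ, ({a, b} : Multiset (σ →₀ ℕ)).sum = a + b := by
    intro a b
    simp
  rw [h3] at h1 h2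
  apply Step.linked
  exact ⟨u, v, u', v', 0, rfl, rfl, h1.trans h2.symm, hX.row u (by simp), hX.row v (by simp),
    hY.row u' (by simp), hY.row v' (by simp)⟩

/-- Two configurations sharing a row whose complement is a connected fibre. -/
lemma linked_of_mem {u : σ →₀ ℕ} {β : σ →₀ ℕ} (hk : Conn d s k β) (hα : α = u + β)
    (hX : Cfg d s (k + 1) α X) (hY : Cfg d s (k + 1) α Y) (huX : u ∈ X) (huY : u ∈ Y) :
    Linked d s X Y := by
  obtain ⟨X', β1, rfl, h1, hX'⟩ := hX.exists_cons huX
  obtain ⟨Y', β2, rfl, h2, hY'⟩ := hY.exists_cons huY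
  have e1 : β1 = β := add_left_cancel (h1.symm.trans hα)
  have e2 : β2 = β := add_left_cancel (h2.symm.trans hα)
  subst e1; subst e2
  exact (hk X' Y' hX' hY').cons u

end Pool.Agent.Lib.MP_e26c3f_al
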