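import Mathlib

/-! Pinched Veronese algebras. -/

set_option autoImplicit false

namespace Pool.Agent.Lib.MP_e26c3f_al

open MvPolynomial

/-- The exponent vectors of the monomials of degree `d` in `n` variables whose support has at
most `s` elements. -/
def gens (n d s : ℕ) : Set (Fin n →₀ ℕ) := {m | m.degree = d ∧ m.support.card ≤ s}

/-- The pinched Veronese algebra `PV(n,d,s)`: the subalgebra of `K[x_1,...,x_n]` generated by all
monomials of degree `d` whose support has at most `s` elements. -/
noncomputable def PV (K : Type*) [Field K] (n d s : ℕ) : Subalgebra K (MvPolynomial (Fin n) K) :=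
  Algebra.adjoin K ((fun m => monomial m (1 : K)) '' gens n d s)

/-- The presentation `K[t_m : m ∈ G] → PV(n,d,s)`, `t_m ↦ m`. -/
noncomputable def presentation (K : Type*) [Field K] (n d s : ℕ) :
    MvPolynomial (gens n d s) K →ₐ[K] PV K n d s :=
  aeval fun m => ⟨monomial m.1 1, Algebra.subset_adjoin ⟨m.1, m.2, rfl⟩⟩

/-- `PV(n,d,s)` is quadratic: the kernel of the presentation is generated by homogeneous
polynomials of degree two. -/
def IsQuadratic (K : Type*) [Field K] (n d s : ℕ) : Prop :=
  ∃ Q : Set (MvPolynomial (gens n d s) K), (∀ q ∈ Q, q.IsHomogeneous 2) ∧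
    RingHom.ker (presentation K n d s) = Ideal.span Q

end Pool.Agent.Lib.MP_e26c3f_al
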