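import Mathlib
import Pool.Agent.Lib.MP_e26c3f_al.Defs
import Pool.Agent.Lib.MP_e26c3f_al.Basic

/-! Quadraticity and connectedness of fibres. -/

set_option autoImplicit false
set_option linter.unusedSectionVars false

namespace Pool.Agent.Lib.MP_e26c3f_al

open MvPolynomial

variable {K : Type*} [Field K] {n d s : ℕ}

lemma mem_gens {m : Fin n →₀ ℕ} : m ∈ gens n d s ↔ IsRow d s m := Iff.rfl

/-- The rows of an exponent vector. -/
noncomputable def rows (e : gens n d s →₀ ℕ) : Multiset (Fin n →₀ ℕ) :=
  (Finsupp.toMultiset e).map Subtype.val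

lemma rows_add (e e' : gens n d s →₀ ℕ) : rows (e + e') = rows e + rows e' := by
  rw [rows, Finsupp.toMultiset_add, Multiset.map_add]; rfl

lemma rows_isRow (e : gens n d s →₀ ℕ) : ∀ u ∈ rows e, IsRow d s u := by
  intro u hu
  obtain ⟨m, -, rfl⟩ := Multiset.mem_map.1 hu
  exact m.2

lemma card_rows (e : gens n d s →₀ ℕ) : (rows e).card = e.degree := by
  rw [rows, Multiset.card_map, Finsupp.card_toMultiset]
  rfl

lemma rows_surj {X : Multiset (Fin n →₀ ℕ)} (hX : ∀ u ∈ X, IsRow d s u) :
    ∃ e : gens n d s →₀ ℕ, rows e = X := by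
  classical
  refine ⟨Multiset.toFinsupp (X.pmap (fun u hu => (⟨u, hu⟩ : gens n d s)) hX), ?_⟩
  rw [rows, Multiset.toFinsupp_toMultiset, Multiset.map_pmap]
  rw [Multiset.pmap_eq_map]
  exact Multiset.map_id' X

lemma rows_injective : Function.Injective (rows : (gens n d s →₀ ℕ) → _) := by
  classical
  intro e e' h
  rw [rows, rows] at h
  have := Multiset.map_injective Subtype.val_injective h
  rw [← Finsupp.toMultiset_toFinsupp e, this, Finsupp.toMultiset_toFinsupp]

/-- The presentation into the polynomial ring. -/
noncomputable def Phi (K : Type*) [Field K] (n d s : ℕ) :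
    MvPolynomial (gens n d s) K →ₐ[K] MvPolynomial (Fin n) K :=
  (PV K n d s).val.comp (presentation K n d s)

lemma mem_ker_iff {f : MvPolynomial (gens n d s) K} :
    f ∈ RingHom.ker (presentation K n d s) ↔ Phi K n d s f = 0 := by
  rw [RingHom.mem_ker, Phi, AlgHom.comp_apply]
  constructor
  · intro h; rw [h]; rfl
  · intro h; exact Subtype.val_injective h

lemma Phi_X (m : gens n d s) : Phi K n d s (X m) = monomial m.1 1 := by
  rw [Phi, AlgHom.comp_apply, presentation, aeval_X]; rfl

lemma Phi_monomial (e : gens n d s →₀ ℕ) (c : K) :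
    Phi K n d s (monomial e c) = monomial (rows e).sum c := by
  induction e using Finsupp.induction_linear generalizing c with
  | zero =>
    have : (monomial (0 : gens n d s →₀ ℕ)) c = C c := rfl
    rw [this, ← MvPolynomial.algebraMap_eq, AlgHom.commutes, MvPolynomial.algebraMap_eq]
    simp [rows]
  | add e e' h1 h2 =>
    rw [rows_add, Multiset.sum_add]
    have e1 : (monomial (e + e') c : MvPolynomial (gens n d s) K) =
        monomial e c * monomial e' 1 := by
      rw [monomial_mul, mul_one]
    rw [e1, map_mul, h1, h2, monomial_mul, mul_one]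
  | single m k =>
    have e1 : (monomial (Finsupp.single m k) c : MvPolynomial (gens n d s) K) =
        C c * X m ^ k := by
      rw [C_mul_X_pow_eq_monomial]
    rw [e1, map_mul, map_pow, Phi_X, ← MvPolynomial.algebraMap_eq, AlgHom.commutes,
      MvPolynomial.algebraMap_eq, monomial_pow, one_pow, C_mul_monomial, mul_one]
    rw [rows, Finsupp.toMultiset_single, Multiset.map_nsmul, Multiset.map_singleton,
      Multiset.sum_nsmul, Multiset.sum_singleton]

/-- The ideal generated by the quadrics in the kernel. -/
noncomputable def quadrics (K : Type*) [Field K] (n d s : ℕ) :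
    Set (MvPolynomial (gens n d s) K) :=
  {q | q.IsHomogeneous 2 ∧ q ∈ RingHom.ker (presentation K n d s)}

lemma step_mem {e e' : gens n d s →₀ ℕ} (h : Step d s (rows e) (rows e')) :
    (monomial e 1 - monomial e' 1 : MvPolynomial (gens n d s) K) ∈
      Ideal.span (quadrics K n d s) := by
  obtain ⟨u, v, u', v', Z, h1, h2, h3, hu, hv, hu', hv'⟩ := h
  have hZ : ∀ w ∈ Z, IsRow d s w := fun w hw => rows_isRow e w (by rw [h1]; simp [hw])
  obtain ⟨N, hN⟩ := rows_surj hZ
  set U : gens n d s := ⟨u, hu⟩
  set V : gens n d s := ⟨v, hv⟩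
  set U' : gens n d s := ⟨u', hu'⟩
  set V' : gens n d s := ⟨v', hv'⟩
  have hrow : ∀ A B : gens n d s, rows (Finsupp.single A 1 + Finsupp.single B 1 + N) =
      A.1 ::ₘ B.1 ::ₘ Z := by
    intro A B
    rw [rows_add, rows_add, hN]
    simp only [rows, Finsupp.toMultiset_single, one_smul, Multiset.map_singleton]
    rw [add_assoc, Multiset.singleton_add, Multiset.singleton_add]
  have he : e = Finsupp.single U 1 + Finsupp.single V 1 + N :=
    rows_injective (by rw [hrow, h1])
  have he' : e' = Finsupp.single U' 1 + Finsupp.single V' 1 + N :=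
    rows_injective (by rw [hrow, h2])
  have hfac : (monomial e 1 - monomial e' 1 : MvPolynomial (gens n d s) K) =
      monomial N 1 * (monomial (Finsupp.single U 1 + Finsupp.single V 1) 1 -
        monomial (Finsupp.single U' 1 + Finsupp.single V' 1) 1) := by
    rw [mul_sub, monomial_mul, monomial_mul, mul_one, he, he', add_comm N, add_comm N]
  rw [hfac]
  apply Ideal.mul_mem_left
  apply Ideal.subset_span
  refine ⟨?_, ?_⟩
  · apply (homogeneousSubmodule (gens n d s) K 2).sub_mem
    · apply isHomogeneous_monomial
      rw [map_add, Finsupp.degree_single, Finsupp.degree_single]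
    · apply isHomogeneous_monomial
      rw [map_add, Finsupp.degree_single, Finsupp.degree_single]
  · have h4 : ∀ A B : gens n d s, (rows (Finsupp.single A 1 + Finsupp.single B 1)).sum =
        A.1 + B.1 := by
      intro A B
      simp only [rows, Finsupp.toMultiset_add, Finsupp.toMultiset_single, one_smul,
        Multiset.map_add, Multiset.map_singleton, Multiset.sum_add, Multiset.sum_singleton]
    rw [mem_ker_iff, map_sub, Phi_monomial, Phi_monomial, sub_eq_zero, h4, h4, h3]

lemma linked_mem {X Y : Multiset (Fin n →₀ ℕ)} (h : Linked d s X Y)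
    (hX : ∀ u ∈ X, IsRow d s u) : ∀ e e' : gens n d s →₀ ℕ, rows e = X → rows e' = Y →
      (monomial e 1 - monomial e' 1 : MvPolynomial (gens n d s) K) ∈
        Ideal.span (quadrics K n d s) := by
  induction h with
  | refl =>
    intro e e' h1 h2
    have : e = e' := rows_injective (h1.trans h2.symm)
    rw [this, sub_self]
    exact Ideal.zero_mem _
  | @tail Y Z hXY hYZ ih =>
    intro e e' h1 h2
    have hc : Cfg d s X.card X.sum Y := Linked.cfg hXY ⟨hX, rfl, rfl⟩
    obtain ⟨f, hf⟩ := rows_surj hc.row
    have h3 := ih e f h1 hf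
    have h4 : (monomial f 1 - monomial e' 1 : MvPolynomial (gens n d s) K) ∈
        Ideal.span (quadrics K n d s) := step_mem (by rw [hf, h2]; exact hYZ)
    have := Ideal.add_mem _ h3 h4
    rwa [sub_add_sub_cancel] at this

/-- If all fibres are connected then the algebra is quadratic. -/
theorem isQuadratic_of_conn (hd : 1 ≤ d)
    (h : ∀ (k : ℕ) (α : Fin n →₀ ℕ), Conn d s k α) : IsQuadratic K n d s := by
  classical
  refine ⟨quadrics K n d s, fun q hq => hq.1, ?_⟩
  apply le_antisymm
  swap
  · rw [Ideal.span_le]
    exact fun q hq => hq.2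
  intro f hf
  rw [mem_ker_iff] at hf
  set I := Ideal.span (quadrics K n d s) with hI
  have hdiff : ∀ e e' : gens n d s →₀ ℕ, (rows e).sum = (rows e').sum →
      (monomial e 1 - monomial e' 1 : MvPolynomial (gens n d s) K) ∈ I := by
    intro e e' hee
    have c1 : Cfg d s (rows e).card (rows e).sum (rows e) := ⟨rows_isRow e, rfl, rfl⟩
    have c2 : Cfg d s (rows e').card (rows e').sum (rows e') := ⟨rows_isRow e', rfl, rfl⟩
    have h1 := c1.degree
    have h2 := c2.degree
    rw [← hee, h1] at h2
    have h3 : (rows e).card = (rows e').card := Nat.eq_of_mul_eq_mul_right hd h2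
    rw [← hee, ← h3] at c2
    exact linked_mem (h _ _ _ _ c1 c2) (rows_isRow e) e e' rfl rfl
  -- representatives
  let rep : (Fin n →₀ ℕ) → MvPolynomial (gens n d s) K ⧸ I := fun β =>
    if hβ : ∃ e : gens n d s →₀ ℕ, (rows e).sum = β then
      Ideal.Quotient.mk I (monomial hβ.choose 1) else 0
  have hrep : ∀ e : gens n d s →₀ ℕ, rep (rows e).sum = Ideal.Quotient.mk I (monomial e 1) := by
    intro e
    have hex : ∃ e' : gens n d s →₀ ℕ, (rows e').sum = (rows e).sum := ⟨e, rfl⟩
    simp only [rep, dif_pos hex]
    rw [Ideal.Quotient.mk_eq_mk_iff_sub_mem]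
    exact hdiff _ _ hex.choose_spec
  let Psi : MvPolynomial (Fin n) K →ₗ[K] MvPolynomial (gens n d s) K ⧸ I :=
    (basisMonomials (Fin n) K).constr K rep
  have hPsi : ∀ β, Psi (monomial β 1) = rep β := by
    intro β
    have := (basisMonomials (Fin n) K).constr_basis K rep β
    rwa [coe_basisMonomials] at this
  have hcomp : Psi ∘ₗ (Phi K n d s).toLinearMap = (Ideal.Quotient.mkₐ K I).toLinearMap := by
    apply (basisMonomials (gens n d s) K).ext
    intro e
    rw [coe_basisMonomials, LinearMap.comp_apply, AlgHom.toLinearMap_apply,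
      AlgHom.toLinearMap_apply, Phi_monomial, hPsi, hrep]
    rfl
  have h1 := LinearMap.congr_fun hcomp f
  rw [LinearMap.comp_apply, AlgHom.toLinearMap_apply, hf, map_zero, AlgHom.toLinearMap_apply] at h1
  exact Ideal.Quotient.eq_zero_iff_mem.1 h1.symm

/-- If some fibre is not connected then the algebra is not quadratic. -/
theorem not_isQuadratic_of_not_linked {X Y : Multiset (Fin n →₀ ℕ)}
    (hX : ∀ u ∈ X, IsRow d s u) (hY : ∀ u ∈ Y, IsRow d s u) (hsum : X.sum = Y.sum)
    (hXY : ¬ Linked d s X Y) : ¬ IsQuadratic K n d s := by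
  classical
  rintro ⟨Q, hQ2, hQ⟩
  obtain ⟨eX, heX⟩ := rows_surj hX
  obtain ⟨eY, heY⟩ := rows_surj hY
  let L : MvPolynomial (gens n d s) K →ₗ[K] K :=
    (basisMonomials (gens n d s) K).constr K fun e => if Linked d s X (rows e) then 1 else 0
  have hL : ∀ e, L (monomial e 1) = if Linked d s X (rows e) then 1 else 0 := by
    intro e
    have := (basisMonomials (gens n d s) K).constr_basis K
      (fun e => if Linked d s X (rows e) then (1 : K) else 0) e
    rwa [coe_basisMonomials] at this
  -- `L` kills multiples of the quadrics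
  have hkill : ∀ q ∈ Q, ∀ N : gens n d s →₀ ℕ, L (monomial N 1 * q) = 0 := by
    intro q hq N
    let Lam : MvPolynomial (Fin n) K →ₗ[K] K :=
      (basisMonomials (Fin n) K).constr K fun β =>
        if ∃ e : gens n d s →₀ ℕ, e.degree = 2 ∧ (rows e).sum = β ∧ Linked d s X (rows (N + e))
          then 1 else 0
    have hLam : ∀ β, Lam (monomial β 1) =
        if ∃ e : gens n d s →₀ ℕ, e.degree = 2 ∧ (rows e).sum = β ∧ Linked d s X (rows (N + e))
          then 1 else 0 := by
      intro β
      have := (basisMonomials (Fin n) K).constr_basis K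
        (fun β => if ∃ e : gens n d s →₀ ℕ, e.degree = 2 ∧ (rows e).sum = β ∧
          Linked d s X (rows (N + e)) then (1 : K) else 0) β
      rwa [coe_basisMonomials] at this
    have hq0 : Phi K n d s q = 0 := by
      rw [← mem_ker_iff, hQ]; exact Ideal.subset_span hq
    have key : L (monomial N 1 * q) = Lam (Phi K n d s q) := by
      conv_lhs => rw [q.as_sum]
      conv_rhs => rw [q.as_sum]
      rw [Finset.mul_sum, map_sum, map_sum, map_sum]
      apply Finset.sum_congr rfl
      intro e he
      have he2 : e.degree = 2 := by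
        have h1 := hQ2 q hq (MvPolynomial.mem_support_iff.1 he)
        rw [Finsupp.degree_eq_weight_one]
        exact h1
      rw [Phi_monomial]
      have e1 : (monomial N 1 * monomial e (coeff e q) : MvPolynomial (gens n d s) K) =
          (coeff e q) • monomial (N + e) 1 := by
        rw [monomial_mul, one_mul, smul_monomial, smul_eq_mul, mul_one]
      have e2 : (monomial (rows e).sum (coeff e q) : MvPolynomial (Fin n) K) =
          (coeff e q) • monomial (rows e).sum 1 := by
        rw [smul_monomial, smul_eq_mul, mul_one]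
      rw [e1, e2, map_smul, map_smul, hL, hLam]
      congr 1
      by_cases h1 : Linked d s X (rows (N + e))
      · rw [if_pos h1, if_pos ⟨e, he2, rfl, h1⟩]
      · rw [if_neg h1, if_neg]
        rintro ⟨e', he'2, hs', hl'⟩
        apply h1
        refine hl'.trans ?_
        rw [rows_add, rows_add]
        apply Linked.add_left
        have c1 : Cfg d s 2 (rows e').sum (rows e') :=
          ⟨rows_isRow e', by rw [card_rows, he'2], rfl⟩
        have c2 : Cfg d s 2 (rows e').sum (rows e) :=
          ⟨rows_isRow e, by rw [card_rows, he2], hs'.symm⟩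
        exact conn_two _ _ c1 c2
    rw [key, hq0, map_zero]
  have hkill2 : ∀ q ∈ Q, ∀ a : MvPolynomial (gens n d s) K, L (a * q) = 0 := by
    intro q hq a
    have h1 : L ∘ₗ LinearMap.mulRight K q = 0 := by
      apply (basisMonomials (gens n d s) K).ext
      intro e
      rw [coe_basisMonomials, LinearMap.comp_apply, LinearMap.mulRight_apply, hkill q hq]
      rfl
    exact LinearMap.congr_fun h1 a
  have hkill3 : ∀ f ∈ Ideal.span Q, ∀ a : MvPolynomial (gens n d s) K, L (a * f) = 0 := by
    intro f hf
    induction hf using Submodule.span_induction with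
    | mem q hq => exact hkill2 q hq
    | zero => intro a; rw [mul_zero, map_zero]
    | add f g _ _ h1 h2 => intro a; rw [mul_add, map_add, h1, h2, add_zero]
    | smul b f _ h1 => intro a; rw [smul_eq_mul, ← mul_assoc]; exact h1 _
  have hf : (monomial eX 1 - monomial eY 1 : MvPolynomial (gens n d s) K) ∈ Ideal.span Q := by
    rw [← hQ, mem_ker_iff, map_sub, Phi_monomial, Phi_monomial, heX, heY, hsum, sub_self]
  have h1 := hkill3 _ hf 1
  rw [one_mul, map_sub, hL, hL, heX, heY, if_pos (Linked.refl X), if_neg hXY, sub_zero] at h1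
  exact one_ne_zero h1

end Pool.Agent.Lib.MP_e26c3f_al
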