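import Mathlib

/-! Subsets of prescribed size and their weights. -/

set_option autoImplicit false
set_option linter.unusedSectionVars false

namespace Pool.Agent.Lib.MP_e26c3f_al

open Finset

variable {σ : Type*} [DecidableEq σ]

lemma sum_le_of_card_le (w : σ → ℕ) {A B : Finset σ} (h : A.card ≤ B.card)
    (hw : ∀ a ∈ A, ∀ b ∈ B, w a ≤ w b) : ∑ i ∈ A, w i ≤ ∑ i ∈ B, w i := by
  rcases B.eq_empty_or_nonempty with rfl | hB
  · have : A = ∅ := by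
      rw [card_empty] at h
      exact card_eq_zero.1 (by omega)
    simp [this]
  · obtain ⟨b, hb, hmin⟩ := exists_min_image B w hB
    calc ∑ i ∈ A, w i ≤ A.card • w b := sum_le_card_nsmul _ _ _ (fun a ha => hw a ha b hb)
      _ ≤ B.card • w b := Nat.mul_le_mul_right _ h
      _ ≤ ∑ i ∈ B, w i := card_nsmul_le_sum _ _ _ hmin

lemma sum_swap (w : σ → ℕ) {Q : Finset σ} {q e : σ} (hq : q ∈ Q) (he : e ∉ Q) :
    ∑ i ∈ insert e (Q.erase q), w i + w q = ∑ i ∈ Q, w i + w e := by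
  rw [sum_insert (by simp [he]), ← sum_erase_add Q w hq]
  ring

lemma card_swap {Q : Finset σ} {q e : σ} (hq : q ∈ Q) (he : e ∉ Q) :
    (insert e (Q.erase q)).card = Q.card := by
  rw [card_insert_of_notMem (by simp [he]), card_erase_of_mem hq]
  have := card_pos.2 ⟨q, hq⟩
  omega

lemma exists_min_sub (w : σ → ℕ) (U : Finset σ) (t : ℕ) (ht : t ≤ U.card) :
    ∃ B ⊆ U, B.card = t ∧ (∀ b ∈ B, ∀ c ∈ U \ B, w b ≤ w c) ∧
      U.card * ∑ i ∈ B, w i ≤ t * ∑ i ∈ U, w i ∧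
      ∀ B' ⊆ U, B'.card = t → ∑ i ∈ B, w i ≤ ∑ i ∈ B', w i := by
  obtain ⟨B, hB, hmin⟩ := exists_min_image (powersetCard t U) (fun B => ∑ i ∈ B, w i)
    (powersetCard_nonempty.2 ht)
  rw [mem_powersetCard] at hB
  have hex : ∀ b ∈ B, ∀ c ∈ U \ B, w b ≤ w c := by
    intro b hb c hc
    rw [mem_sdiff] at hc
    have h1 := hmin (insert c (B.erase b)) (by
      rw [mem_powersetCard]
      refine ⟨?_, by rw [card_swap hb hc.2]; exact hB.2⟩
      intro x hx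
      rcases mem_insert.1 hx with rfl | hx
      · exact hc.1
      · exact hB.1 (mem_of_mem_erase hx))
    have h2 := sum_swap w hb hc.2
    omega
  refine ⟨B, hB.1, hB.2, hex, ?_, ?_⟩
  · have h1 : (U \ B).card = U.card - t := by rw [card_sdiff_of_subset hB.1, hB.2]
    have h2 : ∑ b ∈ B, ∑ c ∈ U \ B, w b ≤ ∑ b ∈ B, ∑ c ∈ U \ B, w c :=
      sum_le_sum fun b hb => sum_le_sum fun c hc => hex b hb c hc
    simp only [sum_const, smul_eq_mul, h1, hB.2, ← mul_sum] at h2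
    have h3 : ∑ i ∈ U, w i = ∑ i ∈ B, w i + ∑ i ∈ U \ B, w i := by
      rw [add_comm, sum_sdiff hB.1]
    rw [h3, mul_add]
    calc U.card * ∑ i ∈ B, w i = t * ∑ i ∈ B, w i + (U.card - t) * ∑ i ∈ B, w i := by
          rw [← add_mul, Nat.add_sub_cancel' ht]
      _ ≤ _ := by omega
  · intro B' hB' hc
    exact hmin B' (mem_powersetCard.2 ⟨hB', hc⟩)

lemma exists_max_sub (w : σ → ℕ) (U : Finset σ) (t : ℕ) (ht : t ≤ U.card) :
    ∃ B ⊆ U, B.card = t ∧ (∀ b ∈ B, ∀ c ∈ U \ B, w c ≤ w b) ∧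
      t * ∑ i ∈ U, w i ≤ U.card * ∑ i ∈ B, w i ∧
      ∀ B' ⊆ U, B'.card = t → ∑ i ∈ B', w i ≤ ∑ i ∈ B, w i := by
  obtain ⟨B, hB, hmax⟩ := exists_max_image (powersetCard t U) (fun B => ∑ i ∈ B, w i)
    (powersetCard_nonempty.2 ht)
  rw [mem_powersetCard] at hB
  have hex : ∀ b ∈ B, ∀ c ∈ U \ B, w c ≤ w b := by
    intro b hb c hc
    rw [mem_sdiff] at hc
    have h1 := hmax (insert c (B.erase b)) (by
      rw [mem_powersetCard]
      refine ⟨?_, by rw [card_swap hb hc.2]; exact hB.2⟩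
      intro x hx
      rcases mem_insert.1 hx with rfl | hx
      · exact hc.1
      · exact hB.1 (mem_of_mem_erase hx))
    have h2 := sum_swap w hb hc.2
    omega
  refine ⟨B, hB.1, hB.2, hex, ?_, ?_⟩
  · have h1 : (U \ B).card = U.card - t := by rw [card_sdiff_of_subset hB.1, hB.2]
    have h2 : ∑ b ∈ B, ∑ c ∈ U \ B, w c ≤ ∑ b ∈ B, ∑ c ∈ U \ B, w b :=
      sum_le_sum fun b hb => sum_le_sum fun c hc => hex b hb c hc
    simp only [sum_const, smul_eq_mul, h1, hB.2, ← mul_sum] at h2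
    have h3 : ∑ i ∈ U, w i = ∑ i ∈ B, w i + ∑ i ∈ U \ B, w i := by
      rw [add_comm, sum_sdiff hB.1]
    rw [h3, mul_add]
    calc t * ∑ i ∈ B, w i + t * ∑ i ∈ U \ B, w i
        ≤ t * ∑ i ∈ B, w i + (U.card - t) * ∑ i ∈ B, w i := by omega
      _ = _ := by rw [← add_mul, Nat.add_sub_cancel' ht]
  · intro B' hB' hc
    exact hmax B' (mem_powersetCard.2 ⟨hB', hc⟩)

/-- Every set of `j * t` elements weighs at most `j` times the heaviest `t`-subset. -/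
lemma sum_le_mul_max (w : σ → ℕ) {U V : Finset σ} {t j : ℕ} (D : ℕ) (ht : 0 < t)
    (hVU : V ⊆ U) (hV : V.card = j * t)
    (hD : ∀ B ⊆ U, B.card = t → ∑ i ∈ B, w i ≤ D) : ∑ i ∈ V, w i ≤ j * D := by
  rcases Nat.eq_zero_or_pos j with rfl | hj
  · simp only [zero_mul, card_eq_zero] at hV
    simp [hV]
  obtain ⟨B, hB, hBc, -, h, -⟩ := exists_max_sub w V t (by
    rw [hV]; exact Nat.le_mul_of_pos_left _ hj)
  have h1 := hD B (hB.trans hVU) hBc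
  rw [hV] at h
  have h2 : t * ∑ i ∈ V, w i ≤ t * (j * D) := by
    calc t * ∑ i ∈ V, w i ≤ j * t * ∑ i ∈ B, w i := h
      _ ≤ j * t * D := Nat.mul_le_mul_left _ h1
      _ = t * (j * D) := by ring
  exact Nat.le_of_mul_le_mul_left h2 ht

/-- Every set of `j * t` elements weighs at least `j` times the lightest `t`-subset. -/
lemma mul_min_le_sum (w : σ → ℕ) {U V : Finset σ} {t j : ℕ} (D : ℕ) (ht : 0 < t)
    (hVU : V ⊆ U) (hV : V.card = j * t)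
    (hD : ∀ B ⊆ U, B.card = t → D ≤ ∑ i ∈ B, w i) : j * D ≤ ∑ i ∈ V, w i := by
  rcases Nat.eq_zero_or_pos j with rfl | hj
  · simp
  obtain ⟨B, hB, hBc, -, h, -⟩ := exists_min_sub w V t (by
    rw [hV]; exact Nat.le_mul_of_pos_left _ hj)
  have h1 := hD B (hB.trans hVU) hBc
  rw [hV] at h
  have h2 : t * (j * D) ≤ t * ∑ i ∈ V, w i := by
    calc t * (j * D) = j * t * D := by ring
      _ ≤ j * t * ∑ i ∈ B, w i := Nat.mul_le_mul_left _ h1
      _ ≤ t * ∑ i ∈ V, w i := h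
  exact Nat.le_of_mul_le_mul_left h2 ht

/-- A heaviest light `t`-subset. -/
lemma exists_max_light (w : σ → ℕ) (U : Finset σ) (t d : ℕ)
    (h : ∃ A ⊆ U, A.card = t ∧ ∑ i ∈ A, w i ≤ d) :
    ∃ Q ⊆ U, Q.card = t ∧ ∑ i ∈ Q, w i ≤ d ∧
      ∀ q ∈ Q, ∀ e ∈ U \ Q, ∑ i ∈ Q, w i + w e ≤ d → w e ≤ w q := by
  obtain ⟨A, hA, hAc, hAd⟩ := h
  obtain ⟨Q, hQ, hmax⟩ := exists_max_image ((powersetCard t U).filter fun B => ∑ i ∈ B, w i ≤ d)
    (fun B => ∑ i ∈ B, w i) ⟨A, by simp [hA, hAc, hAd]⟩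
  simp only [mem_filter, mem_powersetCard] at hQ hmax
  refine ⟨Q, hQ.1.1, hQ.1.2, hQ.2, ?_⟩
  intro q hq e he hle
  rw [mem_sdiff] at he
  have h2 := sum_swap w hq he.2
  have h1 := hmax (insert e (Q.erase q)) ⟨⟨?_, by rw [card_swap hq he.2]; exact hQ.1.2⟩, ?_⟩
  · omega
  · intro x hx
    rcases mem_insert.1 hx with rfl | hx
    · exact he.1
    · exact hQ.1.1 (mem_of_mem_erase hx)
  · omega

/-- Lemma C. -/
lemma lemmaC (w : σ → ℕ) (U : Finset σ) (t d : ℕ)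
    (h1 : ∃ A ⊆ U, A.card = t ∧ ∑ i ∈ A, w i ≤ d)
    (h2 : ∃ A ⊆ U, A.card = t + 1 ∧ d ≤ ∑ i ∈ A, w i) :
    ∃ Q ⊆ U, Q.card = t ∧ ∃ c ∈ U \ Q, ∑ i ∈ Q, w i ≤ d ∧ d ≤ ∑ i ∈ Q, w i + w c := by
  obtain ⟨Q, hQ, hQc, hQd, hex⟩ := exists_max_light w U t d h1
  obtain ⟨A, hA, hAc, hAd⟩ := h2
  have hne : (U \ Q).Nonempty := by
    rw [← card_pos, card_sdiff_of_subset hQ, hQc]
    have := card_le_card hA
    omega
  obtain ⟨c, hc, hcmax⟩ := exists_max_image (U \ Q) w hne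
  refine ⟨Q, hQ, hQc, c, hc, hQd, ?_⟩
  by_contra hlt
  push Not at hlt
  have hex' : ∀ q ∈ Q, ∀ e ∈ U \ Q, w e ≤ w q := by
    intro q hq e he
    apply hex q hq e he
    have := hcmax e he
    omega
  have hAQ : (A \ Q).Nonempty := by
    rw [← card_pos]
    have := le_card_sdiff Q A
    omega
  obtain ⟨a, ha⟩ := hAQ
  have ha' : a ∈ U \ Q := mem_sdiff.2 ⟨hA (mem_sdiff.1 ha).1, (mem_sdiff.1 ha).2⟩
  have h3 : ∑ i ∈ (A \ Q).erase a, w i ≤ ∑ i ∈ Q \ A, w i := by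
    apply sum_le_of_card_le
    · rw [card_erase_of_mem ha]
      have e1 := card_sdiff_add_card_inter A Q
      have e2 := card_sdiff_add_card_inter Q A
      rw [inter_comm] at e2
      omega
    · intro x hx y hy
      rw [mem_erase, mem_sdiff] at hx
      rw [mem_sdiff] at hy
      exact hex' y hy.1 x (mem_sdiff.2 ⟨hA hx.2.1, hx.2.2⟩)
  have h4 : ∑ i ∈ A \ Q, w i = ∑ i ∈ (A \ Q).erase a, w i + w a := (sum_erase_add _ _ ha).symm
  have h5 : ∑ i ∈ A, w i = ∑ i ∈ A ∩ Q, w i + ∑ i ∈ A \ Q, w i := (sum_inter_add_sum_sdiff _ _ _).symm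
  have h6 : ∑ i ∈ Q, w i = ∑ i ∈ Q ∩ A, w i + ∑ i ∈ Q \ A, w i := (sum_inter_add_sum_sdiff _ _ _).symm
  rw [inter_comm] at h6
  have h7 := hcmax a ha'
  omega

/-- Lemma Fit. -/
lemma lemmaFit (w : σ → ℕ) (U : Finset σ) (t d a : ℕ) (ha : ∀ x ∈ U, w x ≤ a)
    (h1 : ∃ A ⊆ U, A.card = t ∧ ∑ i ∈ A, w i ≤ d)
    (h2 : ∃ A ⊆ U, A.card = t ∧ d ≤ ∑ i ∈ A, w i + a) :
    ∃ Q ⊆ U, Q.card = t ∧ ∑ i ∈ Q, w i ≤ d ∧ d ≤ ∑ i ∈ Q, w i + a := by
  obtain ⟨Q, hQ, hQc, hQd, hex⟩ := exists_max_light w U t d h1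
  obtain ⟨A, hA, hAc, hAd⟩ := h2
  refine ⟨Q, hQ, hQc, hQd, ?_⟩
  by_contra hlt
  push Not at hlt
  have hex' : ∀ q ∈ Q, ∀ e ∈ U \ Q, w e ≤ w q := by
    intro q hq e he
    apply hex q hq e he
    have := ha e (mem_sdiff.1 he).1
    omega
  have h3 : ∑ i ∈ A \ Q, w i ≤ ∑ i ∈ Q \ A, w i := by
    apply sum_le_of_card_le
    · have e1 := card_sdiff_add_card_inter A Q
      have e2 := card_sdiff_add_card_inter Q A
      rw [inter_comm] at e2
      omega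
    · intro x hx y hy
      rw [mem_sdiff] at hx hy
      exact hex' y hy.1 x (mem_sdiff.2 ⟨hA hx.1, hx.2⟩)
  have h5 : ∑ i ∈ A, w i = ∑ i ∈ A ∩ Q, w i + ∑ i ∈ A \ Q, w i := (sum_inter_add_sum_sdiff _ _ _).symm
  have h6 : ∑ i ∈ Q, w i = ∑ i ∈ Q ∩ A, w i + ∑ i ∈ Q \ A, w i := (sum_inter_add_sum_sdiff _ _ _).symm
  rw [inter_comm] at h6
  omega

/-- Lemma X: fit sets are connected by exchanges. -/
lemma lemmaX (w : σ → ℕ) (d a : ℕ) (P Q : Finset σ) (hPQ : P ≠ Q) (hc : P.card = Q.card)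
    (haP : ∀ x ∈ P, w x ≤ a) (haQ : ∀ x ∈ Q, w x ≤ a)
    (hP1 : ∑ i ∈ P, w i ≤ d) (hP2 : d ≤ ∑ i ∈ P, w i + a)
    (hQ1 : ∑ i ∈ Q, w i ≤ d) (hQ2 : d ≤ ∑ i ∈ Q, w i + a) :
    ∃ x ∈ P \ Q, ∃ y ∈ Q \ P, ∑ i ∈ P, w i + w y ≤ d + w x ∧ d + w x ≤ ∑ i ∈ P, w i + w y + a := by
  by_contra hcon
  push Not at hcon
  have e1 := card_sdiff_add_card_inter P Q
  have e2 := card_sdiff_add_card_inter Q P
  rw [inter_comm] at e2
  have hne : (P \ Q).Nonempty := by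
    rw [nonempty_iff_ne_empty]
    intro h
    rw [sdiff_eq_empty_iff_subset] at h
    exact hPQ (eq_of_subset_of_card_le h hc.ge)
  have hne' : (Q \ P).Nonempty := by
    rw [← card_pos] at hne ⊢
    omega
  have h5 : ∑ i ∈ P, w i = ∑ i ∈ P ∩ Q, w i + ∑ i ∈ P \ Q, w i :=
    (sum_inter_add_sum_sdiff _ _ _).symm
  have h6 : ∑ i ∈ Q, w i = ∑ i ∈ Q ∩ P, w i + ∑ i ∈ Q \ P, w i :=
    (sum_inter_add_sum_sdiff _ _ _).symm
  rw [inter_comm] at h6
  -- all exchanges too heavy, or all too light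
  by_cases hkind : ∃ x ∈ P \ Q, ∃ y ∈ Q \ P, d + w x < ∑ i ∈ P, w i + w y
  · obtain ⟨x0, hx0, y0, hy0, h0⟩ := hkind
    have hall : ∀ x ∈ P \ Q, ∀ y ∈ Q \ P, d + w x < ∑ i ∈ P, w i + w y := by
      intro x hx y hy
      by_contra hn
      push Not at hn
      have h1 := hcon x hx y hy hn
      -- compare (x0,y) with both
      have hxa := haP x (mem_sdiff.1 hx).1
      have hx0a := haP x0 (mem_sdiff.1 hx0).1
      have hya := haQ y (mem_sdiff.1 hy).1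
      have hy0a := haQ y0 (mem_sdiff.1 hy0).1
      have h2 := hcon x0 hx0 y hy
      by_cases h3 : ∑ i ∈ P, w i + w y ≤ d + w x0
      · have h4 := h2 h3
        omega
      · omega
    obtain ⟨y, hy, hymin⟩ := exists_min_image (Q \ P) w hne'
    obtain ⟨x, hx, hxmax⟩ := exists_max_image (P \ Q) w hne
    have h1 := hall x hx y hy
    have h7 : (Q \ P).card * w y ≤ ∑ i ∈ Q \ P, w i := card_nsmul_le_sum _ _ _ hymin
    have h8 : ∑ i ∈ P \ Q, w i ≤ (P \ Q).card * w x := sum_le_card_nsmul _ _ _ hxmax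
    have h9 : (P \ Q).card = (Q \ P).card := by omega
    rw [h9] at h8
    have h10 : 1 ≤ (Q \ P).card := card_pos.2 hne'
    obtain ⟨m, hm⟩ : ∃ m, w y = w x + m := ⟨w y - w x, by omega⟩
    have h11 : m ≤ (Q \ P).card * m := Nat.le_mul_of_pos_left _ h10
    rw [hm, mul_add] at h7
    omega
  · push Not at hkind
    obtain ⟨x, hx, hxmin⟩ := exists_min_image (P \ Q) w hne
    obtain ⟨y, hy, hymax⟩ := exists_max_image (Q \ P) w hne'
    have h1 := hcon x hx y hy (hkind x hx y hy)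
    have h7 : (P \ Q).card * w x ≤ ∑ i ∈ P \ Q, w i := card_nsmul_le_sum _ _ _ hxmin
    have h8 : ∑ i ∈ Q \ P, w i ≤ (Q \ P).card * w y := sum_le_card_nsmul _ _ _ hymax
    have h9 : (P \ Q).card = (Q \ P).card := by omega
    rw [h9] at h7
    have h10 : 1 ≤ (Q \ P).card := card_pos.2 hne'
    obtain ⟨m, hm⟩ : ∃ m, w x = w y + m := ⟨w x - w y, by omega⟩
    have h11 : m ≤ (Q \ P).card * m := Nat.le_mul_of_pos_left _ h10
    rw [hm, mul_add] at h7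
    omega

end Pool.Agent.Lib.MP_e26c3f_al
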