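import Mathlib
import Pool.Agent.Lib.MP_e26c3f_al.Basic
import Pool.Agent.Lib.MP_e26c3f_al.Weights

/-! Leaf rows: rows made of `t` complete variables and a part of one more variable. -/

set_option autoImplicit false
set_option linter.unusedSectionVars false

namespace Pool.Agent.Lib.MP_e26c3f_al

open Finset

variable {σ : Type*} [DecidableEq σ]

/-- The row with all of `α` on `P`, filled up to degree `d` with the variable `c`. -/
noncomputable def lrow (α : σ →₀ ℕ) (d : ℕ) (P : Finset σ) (c : σ) : σ →₀ ℕ :=
  α.filter (· ∈ P) + Finsupp.single c (d - ∑ i ∈ P, α i)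

/-- `lrow α d P c` is a row using `t` complete variables from `W`. -/
structure Leaf (α : σ →₀ ℕ) (d t : ℕ) (W P : Finset σ) (c : σ) : Prop where
  sub : P ⊆ W
  card : P.card = t
  mem : c ∈ W
  nmem : c ∉ P
  le : ∑ i ∈ P, α i ≤ d
  ge : d ≤ ∑ i ∈ P, α i + α c

variable {α : σ →₀ ℕ} {d t : ℕ} {W P Q : Finset σ} {c e : σ}

lemma lrow_apply (α : σ →₀ ℕ) (d : ℕ) (P : Finset σ) (c x : σ) :
    lrow α d P c x = (if x ∈ P then α x else 0) + (if x = c then d - ∑ i ∈ P, α i else 0) := by
  classical
  rw [lrow, Finsupp.add_apply, Finsupp.filter_apply, Finsupp.single_apply]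
  congr 1
  by_cases h : c = x
  · simp [h]
  · simp [h, Ne.symm h]

lemma degree_filter (α : σ →₀ ℕ) (P : Finset σ) :
    (α.filter (· ∈ P)).degree = ∑ i ∈ P, α i := by
  rw [Finsupp.degree_apply]
  rw [Finsupp.support_filter]
  rw [sum_congr rfl (g := α) (fun x hx => by
    rw [Finsupp.filter_apply, if_pos (mem_filter.1 hx).2])]
  apply sum_subset
  · intro x hx; exact (mem_filter.1 hx).2
  · intro x hx hx'
    simp only [mem_filter, Finsupp.mem_support_iff, not_and_or, not_not] at hx'
    rcases hx' with h | h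
    · exact h
    · exact absurd hx h

lemma degree_lrow (h : ∑ i ∈ P, α i ≤ d) : (lrow α d P c).degree = d := by
  rw [lrow, map_add, degree_filter, Finsupp.degree_single]
  omega

lemma support_lrow : (lrow α d P c).support ⊆ insert c P := by
  intro x hx
  rw [Finsupp.mem_support_iff, lrow_apply] at hx
  by_contra h
  simp only [mem_insert, not_or] at h
  simp [h.1, h.2] at hx

lemma Leaf.isRow (h : Leaf α d t W P c) : IsRow d (t + 1) (lrow α d P c) := by
  refine ⟨degree_lrow h.le, ?_⟩
  refine (card_le_card support_lrow).trans ?_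
  rw [card_insert_of_notMem h.nmem, h.card]

lemma Leaf.lrow_le (h : Leaf α d t W P c) : lrow α d P c ≤ α := by
  intro x
  rw [lrow_apply]
  have h1 := h.ge
  have h2 := h.le
  by_cases hx : x ∈ P
  · have : x ≠ c := fun e => h.nmem (e ▸ hx)
    simp [hx, this]
  · by_cases hxc : x = c
    · subst hxc
      simp only [hx, if_false, if_true, zero_add]
      omega
    · simp [hx, hxc]

lemma Leaf.exists_add (h : Leaf α d t W P c) (hW : α.support ⊆ W) :
    ∃ β, α = lrow α d P c + β ∧ β.support ⊆ W \ P := by
  obtain ⟨β, hβ⟩ := exists_add_of_le h.lrow_le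
  refine ⟨β, hβ, ?_⟩
  intro x hx
  rw [Finsupp.mem_support_iff] at hx
  have h1 : α x = lrow α d P c x + β x := by
    conv_lhs => rw [hβ]
    rfl
  rw [mem_sdiff]
  constructor
  · apply hW
    rw [Finsupp.mem_support_iff]
    omega
  · intro hxP
    rw [lrow_apply, if_pos hxP] at h1
    omega

lemma Leaf.exists_add_add (h : Leaf α d t W P c) (h' : Leaf α d t W Q e) (hW : α.support ⊆ W)
    (hd : Disjoint P Q) (hc : c ∉ Q) (he : e ∉ P)
    (hce : c ≠ e ∨ (d - ∑ i ∈ P, α i) + (d - ∑ i ∈ Q, α i) ≤ α c) :
    ∃ γ, α = lrow α d P c + (lrow α d Q e + γ) ∧ γ.support ⊆ (W \ P) \ Q := by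
  have hle : lrow α d P c + lrow α d Q e ≤ α := by
    intro x
    rw [Finsupp.add_apply, lrow_apply, lrow_apply]
    have h1 := h.ge
    have h2 := h.le
    have h3 := h'.ge
    have h4 := h'.le
    by_cases hxP : x ∈ P
    · have e1 : x ≠ c := fun e => h.nmem (e ▸ hxP)
      have e2 : x ≠ e := fun e => he (e ▸ hxP)
      have e3 : x ∉ Q := disjoint_left.1 hd hxP
      simp [hxP, e1, e2, e3]
    · by_cases hxQ : x ∈ Q
      · have e1 : x ≠ c := fun e => hc (e ▸ hxQ)
        have e2 : x ≠ e := fun e => h'.nmem (e ▸ hxQ)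
        simp [hxP, hxQ, e1, e2]
      · by_cases hxc : x = c
        · subst hxc
          by_cases hxe : x = e
          · subst hxe
            simp only [ne_eq, not_true_eq_false, false_or] at hce
            simp only [hxP, hxQ, if_false, if_true, zero_add]
            exact hce
          · simp only [hxP, hxQ, hxe, if_false, if_true, zero_add, add_zero]
            omega
        · by_cases hxe : x = e
          · subst hxe
            simp only [hxP, hxQ, hxc, if_false, if_true, zero_add]
            omega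
          · simp [hxP, hxQ, hxc, hxe]
  obtain ⟨γ, hγ⟩ := exists_add_of_le hle
  refine ⟨γ, by rw [← add_assoc]; exact hγ, ?_⟩
  intro x hx
  rw [Finsupp.mem_support_iff] at hx
  have h1 : α x = lrow α d P c x + lrow α d Q e x + γ x := by
    conv_lhs => rw [hγ]
    rfl
  rw [mem_sdiff, mem_sdiff]
  refine ⟨⟨?_, ?_⟩, ?_⟩
  · apply hW
    rw [Finsupp.mem_support_iff]
    omega
  · intro hxP
    rw [lrow_apply α d P, if_pos hxP] at h1
    omega
  · intro hxQ
    rw [lrow_apply α d Q, if_pos hxQ] at h1
    omega

/-- Total number of incidences of a configuration. -/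
def inc (X : Multiset (σ →₀ ℕ)) : ℕ := (X.map fun u => u.support.card).sum

lemma sum_of_support_subset (hW : α.support ⊆ W) : ∑ i ∈ W, α i = α.degree := by
  rw [Finsupp.degree_apply]
  symm
  apply sum_subset hW
  intro x _ hx
  simpa using hx

/-- Existence of leaf pairs. -/
lemma exists_leaf {j : ℕ} (hW : α.support ⊆ W) (hWc : W.card = (j + 1) * t + 1)
    (hdeg : α.degree = (j + 1) * d) : ∃ P c, Leaf α d t W P c := by
  have hsum := sum_of_support_subset hW
  rw [hdeg] at hsum
  obtain ⟨A, hA, hAc, -, hA1, -⟩ := exists_min_sub α W t (by rw [hWc]; nlinarith)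
  obtain ⟨B, hB, hBc, -, hB1, -⟩ := exists_max_sub α W (t + 1) (by rw [hWc]; nlinarith)
  rw [hsum, hWc] at hA1 hB1
  have h1 : ∑ i ∈ A, α i ≤ d := by
    by_contra h
    push Not at h
    have : ((j + 1) * t + 1) * (d + 1) ≤ ((j + 1) * t + 1) * ∑ i ∈ A, α i :=
      Nat.mul_le_mul_left _ h
    nlinarith
  have h2 : d ≤ ∑ i ∈ B, α i := by
    by_contra h
    push Not at h
    have h3 : ((j + 1) * t + 1) * (∑ i ∈ B, α i + 1) ≤ ((j + 1) * t + 1) * d :=
      Nat.mul_le_mul_left _ h
    have h4 : ((j + 1) * t + 1) * d ≤ (t + 1) * ((j + 1) * d) := by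
      have : ((j + 1) * t + 1) ≤ (t + 1) * (j + 1) := by nlinarith
      calc ((j + 1) * t + 1) * d ≤ (t + 1) * (j + 1) * d := Nat.mul_le_mul_right _ this
        _ = _ := by ring
    nlinarith
  obtain ⟨Q, hQ, hQc, c, hc, h3, h4⟩ := lemmaC α W t d ⟨A, hA, hAc, h1⟩ ⟨B, hB, hBc, h2⟩
  rw [mem_sdiff] at hc
  exact ⟨Q, c, hQ, hQc, hc.1, hc.2, h3, h4⟩

/-- Feasibility, with few incidences. -/
lemma exists_cfg (t d : ℕ) : ∀ (j : ℕ) (α : σ →₀ ℕ) (W : Finset σ), α.support ⊆ W →
    W.card = j * t + 1 → α.degree = j * d →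
    ∃ X, Cfg d (t + 1) j α X ∧ (0 < j → inc X + 1 ≤ α.support.card + j) := by
  intro j
  induction j with
  | zero =>
    intro α W hW hWc hdeg
    have h0 : α = 0 := by
      rw [zero_mul] at hdeg
      exact (Finsupp.degree_eq_zero_iff α).1 hdeg
    refine ⟨0, ⟨?_, ?_, ?_⟩, ?_⟩
    · intro u hu; simp at hu
    · simp
    · simp [h0]
    · intro h; omega
  | succ j ih =>
    intro α W hW hWc hdeg
    rcases Nat.eq_zero_or_pos j with rfl | hj
    · refine ⟨{α}, ⟨?_, ?_, ?_⟩, ?_⟩
      · intro u hu
        rw [Multiset.mem_singleton] at hu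
        subst hu
        refine ⟨by simpa using hdeg, ?_⟩
        refine (card_le_card hW).trans ?_
        rw [hWc]; omega
      · simp
      · simp
      · intro _
        simp [inc]
    · obtain ⟨P, c, hL⟩ := exists_leaf hW hWc hdeg
      obtain ⟨β, hβ, hβW⟩ := hL.exists_add hW
      have hdegβ : β.degree = j * d := by
        have := congrArg Finsupp.degree hβ
        rw [map_add, degree_lrow hL.le, hdeg] at this
        linarith
      obtain ⟨X, hX, hinc⟩ := ih β (W \ P) hβW (by
        rw [card_sdiff_of_subset hL.sub, hWc, hL.card, add_mul]; omega) hdegβ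
      refine ⟨lrow α d P c ::ₘ X, ?_, ?_⟩
      · have := hX.cons hL.isRow
        rwa [← hβ] at this
      · intro _
        have h1 := hinc hj
        have h2 : inc (lrow α d P c ::ₘ X) = (lrow α d P c).support.card + inc X := by
          simp [inc]
        have h3 : (lrow α d P c).support ∪ β.support = α.support := by
          ext x
          have : α x = lrow α d P c x + β x := by
            conv_lhs => rw [hβ]
            rfl
          simp only [mem_union, Finsupp.mem_support_iff]
          omega
        have h4 : (lrow α d P c).support ∩ β.support ⊆ {c} := by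
          intro x hx
          rw [mem_inter] at hx
          have hx1 := support_lrow hx.1
          have hx2 := (mem_sdiff.1 (hβW hx.2)).2
          rw [mem_insert] at hx1
          rw [mem_singleton]
          tauto
        have h5 := card_le_card h4
        rw [card_singleton] at h5
        have h6 := card_union_add_card_inter (lrow α d P c).support β.support
        rw [h3] at h6
        omega

end Pool.Agent.Lib.MP_e26c3f_al
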