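import Mathlib
import Pool.Agent.Lib.MP_e26c3f_al.Leaf

/-! The graph of leaf rows inside a fibre with at most `k * t + 1` variables. -/

set_option autoImplicit false
set_option linter.unusedSectionVars false

namespace Pool.Agent.Lib.MP_e26c3f_al

open Finset

variable {σ : Type*} [DecidableEq σ]

/-- The inductive situation. -/
structure Ctx (α : σ →₀ ℕ) (d t m : ℕ) (W : Finset σ) : Prop where
  ht : 2 ≤ t
  hW : α.support ⊆ W
  hWc : W.card = (m + 3) * t + 1
  hdeg : α.degree = (m + 3) * d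
  IH : ∀ j < m + 3, ∀ (β : σ →₀ ℕ) (W' : Finset σ), β.support ⊆ W' → W'.card = j * t + 1 →
    Conn d (t + 1) j β

/-- Configurations containing one leaf row are linked to those containing the other. -/
def LL (α : σ →₀ ℕ) (d t m : ℕ) (P : Finset σ) (c : σ) (Q : Finset σ) (e : σ) : Prop :=
  ∀ X Y, Cfg d (t + 1) (m + 3) α X → Cfg d (t + 1) (m + 3) α Y →
    lrow α d P c ∈ X → lrow α d Q e ∈ Y → Linked d (t + 1) X Y

variable {α : σ →₀ ℕ} {d t m : ℕ} {W P Q R : Finset σ} {c e f : σ}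

lemma LL.symm (h : LL α d t m P c Q e) : LL α d t m Q e P c :=
  fun X Y hX hY h1 h2 => (h Y X hY hX h2 h1).symm

namespace Ctx

variable (C : Ctx α d t m W)
include C

lemma exists_cfg_leaf (h : Leaf α d t W P c) :
    ∃ X, Cfg d (t + 1) (m + 3) α X ∧ lrow α d P c ∈ X := by
  obtain ⟨β, hβ, hβW⟩ := h.exists_add C.hW
  obtain ⟨X, hX, -⟩ := exists_cfg t d (m + 2) β (W \ P) hβW (by
    rw [card_sdiff_of_subset h.sub, C.hWc, h.card, show m + 3 = (m + 2) + 1 by ring, add_mul]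
    omega) (by
    have := congrArg Finsupp.degree hβ
    rw [map_add, degree_lrow h.le, C.hdeg] at this
    linarith)
  refine ⟨lrow α d P c ::ₘ X, ?_, by simp⟩
  have := hX.cons h.isRow
  rwa [← hβ] at this

lemma LL_refl (h : Leaf α d t W P c) : LL α d t m P c P c := by
  intro X Y hX hY h1 h2
  obtain ⟨β, hβ, hβW⟩ := h.exists_add C.hW
  refine linked_of_mem (k := m + 2) ?_ hβ hX hY h1 h2
  apply C.IH (m + 2) (by omega) β (W \ P) hβW
  rw [card_sdiff_of_subset h.sub, C.hWc, h.card, show m + 3 = (m + 2) + 1 by ring, add_mul]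
  omega

lemma LL_trans (h : Leaf α d t W Q e) (h1 : LL α d t m P c Q e) (h2 : LL α d t m Q e R f) :
    LL α d t m P c R f := by
  intro X Y hX hY hP hR
  obtain ⟨Z, hZ, hQ⟩ := C.exists_cfg_leaf h
  exact (h1 X Z hX hZ hP hQ).trans (h2 Z Y hZ hY hQ hR)

lemma LL_compat (h : Leaf α d t W P c) (h' : Leaf α d t W Q e)
    (hd : Disjoint P Q) (hc : c ∉ Q) (he : e ∉ P)
    (hce : c ≠ e ∨ (d - ∑ i ∈ P, α i) + (d - ∑ i ∈ Q, α i) ≤ α c) :
    LL α d t m P c Q e := by
  obtain ⟨γ, hγ, hγW⟩ := h.exists_add_add h' C.hW hd hc he hce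
  have hsub : Q ⊆ W \ P := fun x hx =>
    mem_sdiff.2 ⟨h'.sub hx, fun hxP => disjoint_left.1 hd hxP hx⟩
  obtain ⟨Z, hZ, -⟩ := exists_cfg t d (m + 1) γ ((W \ P) \ Q) hγW (by
    rw [card_sdiff_of_subset hsub, card_sdiff_of_subset h.sub, C.hWc, h.card, h'.card,
      show m + 3 = (m + 1) + 1 + 1 by ring, add_mul, add_mul (m + 1)]
    omega) (by
    have := congrArg Finsupp.degree hγ
    rw [map_add, map_add, degree_lrow h.le, degree_lrow h'.le, C.hdeg] at this
    linarith)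
  have hZ2 : Cfg d (t + 1) (m + 3) α (lrow α d P c ::ₘ lrow α d Q e ::ₘ Z) := by
    have := (hZ.cons h'.isRow).cons h.isRow
    rwa [← hγ] at this
  intro X Y hX hY hP hQ
  exact (C.LL_refl h X _ hX hZ2 hP (by simp)).trans (C.LL_refl h' _ Y hZ2 hY (by simp) hQ)

end Ctx

end Pool.Agent.Lib.MP_e26c3f_al
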