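import Mathlib
import Pool.Agent.Lib.MP_e26c3f_al.Graph

/-! One exchange between fit sets (step S2b). -/

set_option autoImplicit false
set_option linter.unusedSectionVars false

namespace Pool.Agent.Lib.MP_e26c3f_al

open Finset

variable {σ : Type*} [DecidableEq σ]

/-- Two fit sets `Ps ∪ {x}`, `Ps ∪ {y}` with respect to a largest variable `m0`. -/
structure Sw (α : σ →₀ ℕ) (d t m : ℕ) (W : Finset σ) (m0 : σ) (Ps : Finset σ) (x y : σ) :
    Prop where
  C : Ctx α d t m W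
  m0W : m0 ∈ W
  hmax : ∀ z ∈ W, α z ≤ α m0
  PsW : Ps ⊆ W
  Psc : Ps.card + 1 = t
  xW : x ∈ W
  yW : y ∈ W
  hxy : x ≠ y
  xPs : x ∉ Ps
  yPs : y ∉ Ps
  mPs : m0 ∉ Ps
  xm : x ≠ m0
  ym : y ≠ m0
  Px : ∑ i ∈ Ps, α i + α x ≤ d
  Px' : d ≤ ∑ i ∈ Ps, α i + α x + α m0
  Py : ∑ i ∈ Ps, α i + α y ≤ d
  Py' : d ≤ ∑ i ∈ Ps, α i + α y + α m0

variable {α : σ →₀ ℕ} {d t m : ℕ} {W Ps : Finset σ} {m0 x y : σ}

/-- The remaining variables. -/
def RR (W : Finset σ) (m0 : σ) (Ps : Finset σ) (x y : σ) : Finset σ :=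
  W \ insert m0 (insert x (insert y Ps))

lemma mem_RR {z : σ} : z ∈ RR W m0 Ps x y ↔ z ∈ W ∧ z ≠ m0 ∧ z ≠ x ∧ z ≠ y ∧ z ∉ Ps := by
  simp [RR, not_or]

namespace Sw

variable (S : Sw α d t m W m0 Ps x y)
include S

lemma leafx : Leaf α d t W (insert x Ps) m0 := by
  refine ⟨insert_subset S.xW S.PsW, ?_, S.m0W, ?_, ?_, ?_⟩
  · rw [card_insert_of_notMem S.xPs, S.Psc]
  · rw [mem_insert, not_or]; exact ⟨S.xm.symm, S.mPs⟩
  · rw [sum_insert S.xPs]; have := S.Px; omega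
  · rw [sum_insert S.xPs]; have := S.Px'; omega

lemma leafy : Leaf α d t W (insert y Ps) m0 := by
  refine ⟨insert_subset S.yW S.PsW, ?_, S.m0W, ?_, ?_, ?_⟩
  · rw [card_insert_of_notMem S.yPs, S.Psc]
  · rw [mem_insert, not_or]; exact ⟨S.ym.symm, S.mPs⟩
  · rw [sum_insert S.yPs]; have := S.Py; omega
  · rw [sum_insert S.yPs]; have := S.Py'; omega

lemma aux_sub : insert m0 (insert x (insert y Ps)) ⊆ W :=
  insert_subset S.m0W (insert_subset S.xW (insert_subset S.yW S.PsW))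

lemma aux_card : (insert m0 (insert x (insert y Ps))).card = t + 2 := by
  have h1 : y ∉ Ps := S.yPs
  have h2 : x ∉ insert y Ps := by
    rw [mem_insert, not_or]; exact ⟨S.hxy, S.xPs⟩
  have h3 : m0 ∉ insert x (insert y Ps) := by
    rw [mem_insert, mem_insert, not_or, not_or]; exact ⟨S.xm.symm, S.ym.symm, S.mPs⟩
  rw [card_insert_of_notMem h3, card_insert_of_notMem h2, card_insert_of_notMem h1, ← S.Psc]

lemma aux_sum : ∑ i ∈ insert m0 (insert x (insert y Ps)), α i =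
    α m0 + α x + α y + ∑ i ∈ Ps, α i := by
  have h1 : y ∉ Ps := S.yPs
  have h2 : x ∉ insert y Ps := by
    rw [mem_insert, not_or]; exact ⟨S.hxy, S.xPs⟩
  have h3 : m0 ∉ insert x (insert y Ps) := by
    rw [mem_insert, mem_insert, not_or, not_or]; exact ⟨S.xm.symm, S.ym.symm, S.mPs⟩
  rw [sum_insert h3, sum_insert h2, sum_insert h1]
  ring

lemma card_RR : (RR W m0 Ps x y).card + 1 = (m + 2) * t := by
  rw [RR, card_sdiff_of_subset S.aux_sub, S.aux_card, S.C.hWc]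
  have := S.C.ht
  have e : (m + 3) * t = (m + 2) * t + t := by ring
  rw [e]
  have : t ≤ (m + 2) * t := Nat.le_mul_of_pos_left _ (by omega)
  omega

lemma sum_RR : ∑ i ∈ RR W m0 Ps x y, α i + (α m0 + α x + α y + ∑ i ∈ Ps, α i) =
    (m + 3) * d := by
  rw [← S.aux_sum, RR, sum_sdiff S.aux_sub, sum_of_support_subset S.C.hW, S.C.hdeg]

lemma RR_sub : RR W m0 Ps x y ⊆ W := sdiff_subset

/-- Case A. -/
lemma caseA {Q : Finset σ} {c : σ} (hQ : Q ⊆ RR W m0 Ps x y) (hQc : Q.card = t)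
    (hc : c ∈ RR W m0 Ps x y) (hcQ : c ∉ Q) (h1 : ∑ i ∈ Q, α i ≤ d)
    (h2 : d ≤ ∑ i ∈ Q, α i + α c) : LL α d t m (insert x Ps) m0 (insert y Ps) m0 := by
  have hL : Leaf α d t W Q c := ⟨hQ.trans S.RR_sub, hQc, S.RR_sub hc, hcQ, h1, h2⟩
  have hc' := mem_RR.1 hc
  have hQ' : ∀ z ∈ Q, z ∈ W ∧ z ≠ m0 ∧ z ≠ x ∧ z ≠ y ∧ z ∉ Ps := fun z hz => mem_RR.1 (hQ hz)
  refine S.C.LL_trans hL (S.C.LL_compat S.leafx hL ?_ ?_ ?_ (Or.inl hc'.2.1.symm))
    (S.C.LL_compat hL S.leafy ?_ ?_ ?_ (Or.inl hc'.2.1))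
  · rw [disjoint_left]; grind
  · grind
  · grind
  · rw [disjoint_left]; grind
  · grind
  · grind

/-- Case B: all `t`-subsets of the rest are heavier than `d`. -/
lemma caseB (hB : ∀ B ⊆ RR W m0 Ps x y, B.card = t → d < ∑ i ∈ B, α i) :
    LL α d t m (insert x Ps) m0 (insert y Ps) m0 := by
  have ht := S.C.ht
  have hPsc := S.Psc
  have hRc := S.card_RR
  have hRs := S.sum_RR
  have e2 : (m + 2) * t = (m + 1) * t + t := by ring
  have e1 : (m + 1) * t = m * t + t := by ring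
  obtain ⟨R1, hR1, hR1c, -, -, -⟩ := exists_min_sub α (RR W m0 Ps x y) (t - 1) (by omega)
  have hRR1 : (RR W m0 Ps x y \ R1).card = (m + 1) * t := by
    rw [card_sdiff_of_subset hR1, hR1c]; omega
  obtain ⟨T2, hT2, hT2c, -, -, -⟩ := exists_min_sub α (RR W m0 Ps x y \ R1) t (by omega)
  have hT2R : T2 ⊆ RR W m0 Ps x y := hT2.trans sdiff_subset
  have hVc : ((RR W m0 Ps x y \ R1) \ T2).card = m * t := by
    rw [card_sdiff_of_subset hT2, hRR1, hT2c]; omega
  have hV := mul_min_le_sum α (U := RR W m0 Ps x y) (V := (RR W m0 Ps x y \ R1) \ T2) d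
    (by omega : 0 < t) (sdiff_subset.trans sdiff_subset) hVc (fun B hB1 hB2 => (hB B hB1 hB2).le)
  have hs1 : ∑ i ∈ RR W m0 Ps x y \ R1, α i + ∑ i ∈ R1, α i = ∑ i ∈ RR W m0 Ps x y, α i :=
    sum_sdiff hR1
  have hs2 : ∑ i ∈ (RR W m0 Ps x y \ R1) \ T2, α i + ∑ i ∈ T2, α i =
      ∑ i ∈ RR W m0 Ps x y \ R1, α i := sum_sdiff hT2
  have hstar : ∑ i ∈ R1, α i + ∑ i ∈ T2, α i + ∑ i ∈ Ps, α i + α x + α y + α m0 ≤ 3 * d := by
    have : (m + 3) * d = m * d + 3 * d := by ring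
    omega
  obtain ⟨r, hr, hrmin⟩ := exists_min_image T2 α (card_pos.1 (by omega))
  have hT2d := hB T2 hT2R hT2c
  have hins : ∀ c ∈ T2, d < ∑ i ∈ R1, α i + α c := by
    intro c hc
    have hcR1 : c ∉ R1 := (mem_sdiff.1 (hT2 hc)).2
    have := hB (insert c R1) (insert_subset (hT2R hc) hR1) (by
      rw [card_insert_of_notMem hcR1, hR1c]; omega)
    rw [sum_insert hcR1] at this
    omega
  have hPx := S.Px
  have hPx' := S.Px'
  have hPy := S.Py
  have hPy' := S.Py'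
  have hyR1 : ∑ i ∈ R1, α i + α y ≤ d := by omega
  have hxR1 : ∑ i ∈ R1, α i + α x ≤ d := by omega
  have hR1' : ∀ z ∈ R1, z ∈ W ∧ z ≠ m0 ∧ z ≠ x ∧ z ≠ y ∧ z ∉ Ps :=
    fun z hz => mem_RR.1 (hR1 hz)
  have hT2' : ∀ z ∈ T2, z ∈ W ∧ z ≠ m0 ∧ z ≠ x ∧ z ≠ y ∧ z ∉ Ps :=
    fun z hz => mem_RR.1 (hT2R hz)
  have hT2R1 : ∀ z ∈ T2, z ∉ R1 := fun z hz => (mem_sdiff.1 (hT2 hz)).2
  have yR1 : y ∉ R1 := fun h => (hR1' y h).2.2.2.1 rfl
  have xR1 : x ∉ R1 := fun h => (hR1' x h).2.2.1 rfl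
  have leafyc : ∀ c ∈ T2, Leaf α d t W (insert y R1) c := by
    intro c hc
    have h1 := hins c hc
    refine ⟨insert_subset S.yW (hR1.trans S.RR_sub), ?_, (hT2' c hc).1, ?_, ?_, ?_⟩
    · rw [card_insert_of_notMem yR1, hR1c]; omega
    · rw [mem_insert, not_or]; exact ⟨(hT2' c hc).2.2.2.1, hT2R1 c hc⟩
    · rw [sum_insert yR1]; omega
    · rw [sum_insert yR1]; omega
  have leafxc : ∀ c ∈ T2, Leaf α d t W (insert x R1) c := by
    intro c hc
    have h1 := hins c hc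
    refine ⟨insert_subset S.xW (hR1.trans S.RR_sub), ?_, (hT2' c hc).1, ?_, ?_, ?_⟩
    · rw [card_insert_of_notMem xR1, hR1c]; omega
    · rw [mem_insert, not_or]; exact ⟨(hT2' c hc).2.2.1, hT2R1 c hc⟩
    · rw [sum_insert xR1]; omega
    · rw [sum_insert xR1]; omega
  have hxy := S.hxy
  have hxPs := S.xPs
  have hyPs := S.yPs
  have hmPs := S.mPs
  have hxm := S.xm
  have hym := S.ym
  have hrr := hins r hr
  have hr' := hT2' r hr
  by_cases hcase : ∑ i ∈ Ps, α i + α r ≤ d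
  · -- B1
    obtain ⟨c, hc⟩ : (T2.erase r).Nonempty := by
      rw [← card_pos, card_erase_of_mem hr]; omega
    rw [mem_erase] at hc
    obtain ⟨hcr, hc⟩ := hc
    have hc' := hT2' c hc
    have hcR1 := hT2R1 c hc
    have hrR1 := hT2R1 r hr
    have leafr : Leaf α d t W (insert r Ps) m0 := by
      refine ⟨insert_subset hr'.1 S.PsW, ?_, S.m0W, ?_, ?_, ?_⟩
      · rw [card_insert_of_notMem hr'.2.2.2.2]; omega
      · rw [mem_insert, not_or]; exact ⟨hr'.2.1.symm, hmPs⟩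
      · rw [sum_insert hr'.2.2.2.2]; omega
      · rw [sum_insert hr'.2.2.2.2]; omega
    refine S.C.LL_trans (leafyc c hc)
      (S.C.LL_compat S.leafx (leafyc c hc) ?_ ?_ ?_ (Or.inl hc'.2.1.symm)) ?_
    · rw [disjoint_left]; grind
    · grind
    · grind
    refine S.C.LL_trans leafr
      (S.C.LL_compat (leafyc c hc) leafr ?_ ?_ ?_ (Or.inl hc'.2.1)) ?_
    · rw [disjoint_left]; grind
    · grind
    · grind
    refine S.C.LL_trans (leafxc c hc)
      (S.C.LL_compat leafr (leafxc c hc) ?_ ?_ ?_ (Or.inl hc'.2.1.symm))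
      (S.C.LL_compat (leafxc c hc) S.leafy ?_ ?_ ?_ (Or.inl hc'.2.1))
    · rw [disjoint_left]; grind
    · grind
    · grind
    · rw [disjoint_left]; grind
    · grind
    · grind
  · -- B2
    push Not at hcase
    obtain ⟨g, hg, hgmax⟩ := exists_max_image Ps α (card_pos.1 (by omega))
    obtain ⟨M, hM, hMmax⟩ := exists_max_image (T2.erase r) α
      (by rw [← card_pos, card_erase_of_mem hr]; omega)
    have hM0 := hM
    rw [mem_erase] at hM0
    obtain ⟨hMr, hMT⟩ := hM0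
    have hM' := hT2' M hMT
    have hrM := hrmin M hMT
    have hMR1 := hT2R1 M hMT
    have hrR1 := hT2R1 r hr
    have hgm := S.hmax g (S.PsW hg)
    have hrm := S.hmax r hr'.1
    set T3 := (T2.erase r).erase M with hT3
    have hT3T : ∀ z ∈ T3, z ∈ T2 ∧ z ≠ r ∧ z ≠ M := by
      intro z hz
      rw [hT3, mem_erase, mem_erase] at hz
      exact ⟨hz.2.2, hz.2.1, hz.1⟩
    have hT3c : T3.card + 2 = t := by
      rw [hT3, card_erase_of_mem hM, card_erase_of_mem hr]; omega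
    have hsT : ∑ i ∈ T2, α i = ∑ i ∈ T3, α i + α M + α r := by
      rw [hT3, sum_erase_add _ _ hM, sum_erase_add _ _ hr]
    have hkey : d ≤ α g + α M + ∑ i ∈ T3, α i := by
      by_cases hgr : α r ≤ α g
      · omega
      · push Not at hgr
        have h1 : ∑ i ∈ Ps.erase g, α i ≤ ∑ i ∈ T3, α i := by
          apply sum_le_of_card_le
          · rw [card_erase_of_mem hg]; omega
          · intro a ha b hb
            have h1 := hgmax a (mem_of_mem_erase ha)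
            have h2 := hrmin b (hT3T b hb).1
            omega
        have h2 : ∑ i ∈ Ps, α i = ∑ i ∈ Ps.erase g, α i + α g := (sum_erase_add _ _ hg).symm
        omega
    have hgT3 : g ∉ T3 := fun h => (hT2' g (hT3T g h).1).2.2.2.2 hg
    have hxg : x ≠ g := fun h => hxPs (h ▸ hg)
    have hxT3 : x ∉ insert g T3 := by
      rw [mem_insert, not_or]
      exact ⟨hxg, fun h => (hT2' x (hT3T x h).1).2.2.1 rfl⟩
    have leaf3 : Leaf α d t W (insert x (insert g T3)) M := by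
      refine ⟨insert_subset S.xW (insert_subset (S.PsW hg)
        (fun z hz => (hT2' z (hT3T z hz).1).1)), ?_, hM'.1, ?_, ?_, ?_⟩
      · rw [card_insert_of_notMem hxT3, card_insert_of_notMem hgT3]; omega
      · grind
      · rw [sum_insert hxT3, sum_insert hgT3]; omega
      · rw [sum_insert hxT3, sum_insert hgT3]; omega
    have leaf4 : Leaf α d t W (insert y R1) m0 := by
      refine ⟨insert_subset S.yW (hR1.trans S.RR_sub), ?_, S.m0W, ?_, ?_, ?_⟩
      · rw [card_insert_of_notMem yR1, hR1c]; omega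
      · grind
      · rw [sum_insert yR1]; omega
      · rw [sum_insert yR1]; omega
    have hxT2 : x ∉ T2.erase M := fun h => (hT2' x (mem_of_mem_erase h)).2.2.1 rfl
    have hsT' : ∑ i ∈ T2.erase M, α i + α M = ∑ i ∈ T2, α i := sum_erase_add _ _ hMT
    have leaf5 : Leaf α d t W (insert x (T2.erase M)) M := by
      refine ⟨insert_subset S.xW (fun z hz => (hT2' z (mem_of_mem_erase hz)).1), ?_,
        hM'.1, ?_, ?_, ?_⟩
      · rw [card_insert_of_notMem hxT2, card_erase_of_mem hMT]; omega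
      · grind
      · rw [sum_insert hxT2]; omega
      · rw [sum_insert hxT2]; omega
    refine S.C.LL_trans (leafyc r hr)
      (S.C.LL_compat S.leafx (leafyc r hr) ?_ ?_ ?_ (Or.inl hr'.2.1.symm)) ?_
    · rw [disjoint_left]; grind
    · grind
    · grind
    refine S.C.LL_trans leaf3
      (S.C.LL_compat (leafyc r hr) leaf3 ?_ ?_ ?_ (Or.inl hMr.symm)) ?_
    · rw [disjoint_left]; grind
    · grind
    · grind
    refine S.C.LL_trans leaf4
      (S.C.LL_compat leaf3 leaf4 ?_ ?_ ?_ (Or.inl hM'.2.1)) ?_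
    · rw [disjoint_left]; grind
    · grind
    · grind
    refine S.C.LL_trans leaf5
      (S.C.LL_compat leaf4 leaf5 ?_ ?_ ?_ (Or.inl hM'.2.1.symm))
      (S.C.LL_compat leaf5 S.leafy ?_ ?_ ?_ (Or.inl hM'.2.1))
    · rw [disjoint_left]; grind
    · grind
    · grind
    · rw [disjoint_left]; grind
    · grind
    · grind

end Sw

end Pool.Agent.Lib.MP_e26c3f_al
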