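import Mathlib
import Pool.Agent.Lib.MP_e26c3f_al.Swap

/-! One exchange between fit sets (step S2b), light case, and the assembly. -/

set_option autoImplicit false
set_option linter.unusedSectionVars false

namespace Pool.Agent.Lib.MP_e26c3f_al

open Finset

variable {σ : Type*} [DecidableEq σ]

variable {α : σ →₀ ℕ} {d t m : ℕ} {W Ps : Finset σ} {m0 x y : σ}

namespace Sw

variable (S : Sw α d t m W m0 Ps x y)
include S

/-- Case C: all `t + 1`-subsets of the rest are lighter than `d`. -/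
lemma caseC (hyx : α y ≤ α x)
    (hC : ∀ B ⊆ RR W m0 Ps x y, B.card = t + 1 → ∑ i ∈ B, α i < d) :
    LL α d t m (insert x Ps) m0 (insert y Ps) m0 := by
  have ht := S.C.ht
  have hPsc := S.Psc
  have hRc := S.card_RR
  have hRs := S.sum_RR
  have e2 : (m + 2) * t = (m + 1) * t + t := by ring
  have e1 : (m + 1) * t = m * t + t := by ring
  have hPx := S.Px
  have hPx' := S.Px'
  have hPy := S.Py
  have hPy' := S.Py'
  have hxy := S.hxy
  have hxPs := S.xPs
  have hyPs := S.yPs
  have hmPs := S.mPs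
  have hxm := S.xm
  have hym := S.ym
  set R := RR W m0 Ps x y with hR
  have hR' : ∀ z ∈ R, z ∈ W ∧ z ≠ m0 ∧ z ≠ x ∧ z ≠ y ∧ z ∉ Ps := fun z hz => mem_RR.1 hz
  have hRW : R ⊆ W := S.RR_sub
  have hlight : ∀ B ⊆ R, B.card = t → ∑ i ∈ B, α i < d := by
    intro B hB hBc
    obtain ⟨z, hz⟩ : (R \ B).Nonempty := by
      rw [← card_pos, card_sdiff_of_subset hB]; omega
    rw [mem_sdiff] at hz
    have := hC (insert z B) (insert_subset hz.1 hB) (by rw [card_insert_of_notMem hz.2, hBc])
    rw [sum_insert hz.2] at this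
    omega
  obtain ⟨T, hT, hTc, -, -, hTmax⟩ := exists_max_sub α R t (by omega)
  have hTd := hlight T hT hTc
  have hxW := S.hmax x S.xW
  by_cases hC0 : 2 * d ≤ ∑ i ∈ T, α i + α m0 + ∑ i ∈ Ps, α i + α y
  · -- C0
    have leafT : Leaf α d t W T m0 := by
      refine ⟨hT.trans hRW, hTc, S.m0W, ?_, hTd.le, ?_⟩
      · intro h; exact (hR' m0 (hT h)).2.1 rfl
      · omega
    have hT' : ∀ z ∈ T, z ∈ W ∧ z ≠ m0 ∧ z ≠ x ∧ z ≠ y ∧ z ∉ Ps := fun z hz => hR' z (hT hz)
    have hsx : ∑ i ∈ insert x Ps, α i = α x + ∑ i ∈ Ps, α i := sum_insert hxPs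
    have hsy : ∑ i ∈ insert y Ps, α i = α y + ∑ i ∈ Ps, α i := sum_insert hyPs
    refine S.C.LL_trans leafT (S.C.LL_compat S.leafx leafT ?_ ?_ ?_ (Or.inr ?_))
      (S.C.LL_compat leafT S.leafy ?_ ?_ ?_ (Or.inr ?_))
    · rw [disjoint_left]; grind
    · grind
    · grind
    · rw [hsx]; omega
    · rw [disjoint_left]; grind
    · grind
    · grind
    · rw [hsy]; omega
  push Not at hC0
  have hxR' : ∀ R' ⊆ R, R'.card + 1 = t → d < α x + ∑ i ∈ R', α i := by
    intro R' hR1 hR2
    have hVc : (R \ R').card = (m + 1) * t := by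
      rw [card_sdiff_of_subset hR1]; omega
    have hV := sum_le_mul_max α (U := R) (V := R \ R') (∑ i ∈ T, α i) (by omega : 0 < t)
      sdiff_subset hVc hTmax
    have hs : ∑ i ∈ R \ R', α i + ∑ i ∈ R', α i = ∑ i ∈ R, α i := sum_sdiff hR1
    have h1 : m * ∑ i ∈ T, α i ≤ m * d := Nat.mul_le_mul_left _ hTd.le
    have h2 : (m + 1) * ∑ i ∈ T, α i = m * ∑ i ∈ T, α i + ∑ i ∈ T, α i := by ring
    have h3 : (m + 3) * d = m * d + 3 * d := by ring
    omega
  by_cases hC1 : ∃ A ⊆ insert y R, A.card = t + 1 ∧ d ≤ ∑ i ∈ A, α i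
  · -- C1
    obtain ⟨Q, hQ, hQc, c, hc, hQ1, hQ2⟩ := lemmaC α (insert y R) t d
      ⟨T, hT.trans (subset_insert _ _), hTc, hTd.le⟩ hC1
    rw [mem_sdiff] at hc
    obtain ⟨hcU, hcQ⟩ := hc
    set N := insert c Q with hN
    have hNU : N ⊆ insert y R := insert_subset hcU hQ
    have hNc : N.card = t + 1 := by rw [hN, card_insert_of_notMem hcQ, hQc]
    have hNs : ∑ i ∈ N, α i = α c + ∑ i ∈ Q, α i := sum_insert hcQ
    have hyN : y ∈ N := by
      by_contra hyN
      have : N ⊆ R := by
        intro z hz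
        rcases mem_insert.1 (hNU hz) with rfl | h
        · exact absurd hz hyN
        · exact h
      have := hC N this hNc
      omega
    set Q' := N.erase y with hQ'
    have hQ'R : Q' ⊆ R := by
      intro z hz
      rw [hQ', mem_erase] at hz
      rcases mem_insert.1 (hNU hz.2) with h | h
      · exact absurd h hz.1
      · exact h
    have hQ'c : Q'.card = t := by
      rw [hQ', card_erase_of_mem hyN, hNc]; omega
    have hyR : y ∉ R := fun h => (hR' y h).2.2.2.1 rfl
    -- the rest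
    set R2 := R \ Q' with hR2
    have hR2c : R2.card + 1 = (m + 1) * t := by
      rw [hR2, card_sdiff_of_subset hQ'R]; omega
    have hR2R : R2 ⊆ R := sdiff_subset
    have hR2N : ∀ z ∈ R2, z ∉ N := by
      intro z hz hzN
      rw [hR2, mem_sdiff, hQ', mem_erase] at hz
      exact hz.2 ⟨fun h => hyR (h ▸ hz.1), hzN⟩
    obtain ⟨g, hg⟩ : Ps.Nonempty := card_pos.1 (by omega)
    obtain ⟨R3, hR3, hR3c⟩ := exists_subset_card_eq (show t - 1 ≤ R2.card by omega)
    obtain ⟨r, hr⟩ : R2.Nonempty := card_pos.1 (by omega)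
    have hr' := hR' r (hR2R hr)
    have hrx : α r ≤ α x := by
      obtain ⟨R4, hR4, hR4c⟩ := exists_subset_card_eq (show t - 1 ≤ (R.erase r).card by
        rw [card_erase_of_mem (hR2R hr)]; omega)
      have hrR4 : r ∉ R4 := fun h => by
        have := hR4 h
        simp at this
      have h1 := hxR' R4 (hR4.trans (erase_subset _ _)) (by omega)
      have h2 := hlight (insert r R4) (insert_subset (hR2R hr) (hR4.trans (erase_subset _ _)))
        (by rw [card_insert_of_notMem hrR4]; omega)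
      rw [sum_insert hrR4] at h2
      omega
    have hgR3 : g ∉ R3 := fun h => (hR' g (hR2R (hR3 h))).2.2.2.2 hg
    obtain ⟨Sf, hSf, hSfc, hSf1, hSf2⟩ := lemmaFit α (Ps ∪ R2) t d (α m0)
      (by
        intro z hz
        rcases mem_union.1 hz with h | h
        · exact S.hmax z (S.PsW h)
        · exact S.hmax z (hRW (hR2R h)))
      ⟨insert r Ps, insert_subset (mem_union_right _ hr) subset_union_left, by
          rw [card_insert_of_notMem hr'.2.2.2.2, hPsc], by
          rw [sum_insert hr'.2.2.2.2]; omega⟩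
      ⟨insert g R3, insert_subset (mem_union_left _ hg) (hR3.trans subset_union_right), by
          rw [card_insert_of_notMem hgR3]; omega, by
          have := hxR' R3 (hR3.trans hR2R) (by omega)
          rw [sum_insert hgR3]
          omega⟩
    have hSf' : ∀ z ∈ Sf, z ∈ Ps ∨ (z ∈ R2 ∧ z ∈ R) := by
      intro z hz
      rcases mem_union.1 (hSf hz) with h | h
      · exact Or.inl h
      · exact Or.inr ⟨h, hR2R h⟩
    have hN' : ∀ z ∈ N, z = y ∨ z ∈ R := fun z hz => mem_insert.1 (hNU hz)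
    have hQN : ∀ z ∈ Q, z ∈ N := fun z hz => mem_insert_of_mem hz
    have hcN : c ∈ N := mem_insert_self _ _
    have hQ'N : ∀ z ∈ Q', z ∈ N ∧ z ∈ R := fun z hz => ⟨mem_of_mem_erase hz, hQ'R hz⟩
    have hyW := S.yW
    have leafQ : Leaf α d t W Q c := by
      refine ⟨?_, hQc, ?_, hcQ, hQ1, hQ2⟩
      · intro z hz
        rcases hN' z (hQN z hz) with h | h
        · rw [h]; exact hyW
        · exact hRW h
      · rcases hN' c hcN with h | h
        · rw [h]; exact hyW
        · exact hRW h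
    have hmR : m0 ∉ R := fun h => (hR' m0 h).2.1 rfl
    have hxR : x ∉ R := fun h => (hR' x h).2.2.1 rfl
    have leafS : Leaf α d t W Sf m0 := by
      refine ⟨?_, hSfc, S.m0W, ?_, hSf1, hSf2⟩
      · intro z hz
        rcases hSf' z hz with h | h
        · exact S.PsW h
        · exact hRW h.2
      · intro h
        rcases hSf' m0 h with h | h
        · exact hmPs h
        · exact hmR h.2
    have hQ'd := hlight Q' hQ'R hQ'c
    have leafQ' : Leaf α d t W Q' x := by
      obtain ⟨R4, hR4, hR4c⟩ := exists_subset_card_eq (show t - 1 ≤ Q'.card by omega)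
      have h1 := hxR' R4 (hR4.trans hQ'R) (by omega)
      have h2 : ∑ i ∈ R4, α i ≤ ∑ i ∈ Q', α i := sum_le_sum_of_subset hR4
      exact ⟨hQ'R.trans hRW, hQ'c, S.xW, fun h => hxR (hQ'R h), hQ'd.le, by omega⟩
    have hcm : c ≠ m0 := by
      rcases hN' c hcN with h | h
      · rw [h]; exact hym
      · exact fun e => hmR (e ▸ h)
    have hcx : c ≠ x := by
      rcases hN' c hcN with h | h
      · rw [h]; exact hxy.symm
      · exact fun e => hxR (e ▸ h)
    refine S.C.LL_trans leafQ (S.C.LL_compat S.leafx leafQ ?_ ?_ ?_ (Or.inl hcm.symm)) ?_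
    · rw [disjoint_left]
      intro z h1 h2
      have h3 := hN' z (hQN z h2)
      rcases mem_insert.1 h1 with rfl | h1
      · rcases h3 with h3 | h3
        · exact hxy h3
        · exact hxR h3
      · rcases h3 with h3 | h3
        · exact hyPs (h3 ▸ h1)
        · exact (hR' z h3).2.2.2.2 h1
    · intro h
      rcases hN' m0 (hQN m0 h) with h | h
      · exact hym h.symm
      · exact hmR h
    · rw [mem_insert, not_or]
      refine ⟨hcx, fun h => ?_⟩
      rcases hN' c hcN with h' | h'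
      · exact hyPs (h' ▸ h)
      · exact (hR' c h').2.2.2.2 h
    refine S.C.LL_trans leafS (S.C.LL_compat leafQ leafS ?_ ?_ ?_ (Or.inl hcm)) ?_
    · rw [disjoint_left]
      intro z h1 h2
      rcases hSf' z h2 with h3 | h3
      · rcases hN' z (hQN z h1) with h | h
        · exact hyPs (h ▸ h3)
        · exact (hR' z h).2.2.2.2 h3
      · exact hR2N z h3.1 (hQN z h1)
    · intro h
      rcases hSf' c h with h3 | h3
      · rcases hN' c hcN with h | h
        · exact hyPs (h ▸ h3)
        · exact (hR' c h).2.2.2.2 h3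
      · exact hR2N c h3.1 hcN
    · intro h
      rcases hN' m0 (hQN m0 h) with h | h
      · exact hym h.symm
      · exact hmR h
    refine S.C.LL_trans leafQ' (S.C.LL_compat leafS leafQ' ?_ ?_ ?_ (Or.inl hxm.symm))
      (S.C.LL_compat leafQ' S.leafy ?_ ?_ ?_ (Or.inl hxm))
    · rw [disjoint_left]
      intro z h1 h2
      rcases hSf' z h1 with h3 | h3
      · exact (hR' z (hQ'R h2)).2.2.2.2 h3
      · exact hR2N z h3.1 (hQ'N z h2).1
    · exact fun h => hmR (hQ'R h)
    · intro h
      rcases hSf' x h with h3 | h3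
      · exact hxPs h3
      · exact hxR h3.2
    · rw [disjoint_left]
      intro z h1 h2
      rcases mem_insert.1 h2 with rfl | h2
      · exact hyR (hQ'R h1)
      · exact (hR' z (hQ'R h1)).2.2.2.2 h2
    · grind
    · exact fun h => hmR (hQ'R h)
  · -- C2
    push Not at hC1
    obtain ⟨R1, hR1, hR1c⟩ := exists_subset_card_eq (show t - 1 ≤ R.card by omega)
    have hVc : (R \ R1).card = (m + 1) * t := by
      rw [card_sdiff_of_subset hR1]; omega
    obtain ⟨Q, hQ, hQc⟩ := exists_subset_card_eq (show t ≤ (R \ R1).card by omega)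
    have hV := sum_le_mul_max α (U := R) (V := R \ R1) d (by omega : 0 < t)
      sdiff_subset hVc (fun B h1 h2 => (hlight B h1 h2).le)
    have hs : ∑ i ∈ R \ R1, α i + ∑ i ∈ R1, α i = ∑ i ∈ R, α i := sum_sdiff hR1
    have hyR : y ∉ R := fun h => (hR' y h).2.2.2.1 rfl
    have hmR : m0 ∉ R := fun h => (hR' m0 h).2.1 rfl
    have hxR : x ∉ R := fun h => (hR' x h).2.2.1 rfl
    have hyR1 : y ∉ R1 := fun h => hyR (hR1 h)
    have hxR1 := hxR' R1 hR1 (by omega)
    have hQR : Q ⊆ R := hQ.trans sdiff_subset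
    have hQR1 : ∀ z ∈ Q, z ∉ R1 := fun z hz => (mem_sdiff.1 (hQ hz)).2
    have hsx : ∑ i ∈ insert x Ps, α i = α x + ∑ i ∈ Ps, α i := sum_insert hxPs
    have leafP : Leaf α d t W (insert y R1) m0 := by
      refine ⟨insert_subset S.yW (hR1.trans hRW), ?_, S.m0W, ?_, ?_, ?_⟩
      · rw [card_insert_of_notMem hyR1]; omega
      · rw [mem_insert, not_or]; exact ⟨hym.symm, fun h => hmR (hR1 h)⟩
      · obtain ⟨z, hz⟩ : (R \ R1).Nonempty := card_pos.1 (by omega)
        rw [mem_sdiff] at hz
        have hzy : z ≠ y := fun e => hyR (e ▸ hz.1)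
        have hz' : z ∉ insert y R1 := by
          rw [mem_insert, not_or]; exact ⟨hzy, hz.2⟩
        have := hC1 (insert z (insert y R1)) (insert_subset (mem_insert_of_mem hz.1)
          (insert_subset_insert _ hR1)) (by
          rw [card_insert_of_notMem hz', card_insert_of_notMem hyR1]; omega)
        rw [sum_insert hz'] at this
        omega
      · rw [sum_insert hyR1]; omega
    have hQd := hlight Q hQR hQc
    have leafQ : Leaf α d t W Q x := by
      obtain ⟨R4, hR4, hR4c⟩ := exists_subset_card_eq (show t - 1 ≤ Q.card by omega)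
      have h1 := hxR' R4 (hR4.trans hQR) (by omega)
      have h2 : ∑ i ∈ R4, α i ≤ ∑ i ∈ Q, α i := sum_le_sum_of_subset hR4
      exact ⟨hQR.trans hRW, hQc, S.xW, fun h => hxR (hQR h), hQd.le, by omega⟩
    refine S.C.LL_trans leafP (S.C.LL_compat S.leafx leafP ?_ ?_ ?_ (Or.inr ?_)) ?_
    · rw [disjoint_left]; grind
    · grind
    · grind
    · rw [hsx, sum_insert hyR1]
      have h3 : (m + 3) * d = (m + 1) * d + 2 * d := by ring
      omega
    refine S.C.LL_trans leafQ (S.C.LL_compat leafP leafQ ?_ ?_ ?_ (Or.inl hxm.symm))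
      (S.C.LL_compat leafQ S.leafy ?_ ?_ ?_ (Or.inl hxm))
    · rw [disjoint_left]; grind
    · grind
    · grind
    · rw [disjoint_left]; grind
    · grind
    · grind

/-- Step S2b. -/
lemma swap_le (hyx : α y ≤ α x) : LL α d t m (insert x Ps) m0 (insert y Ps) m0 := by
  by_cases h1 : ∃ A ⊆ RR W m0 Ps x y, A.card = t ∧ ∑ i ∈ A, α i ≤ d
  · by_cases h2 : ∃ A ⊆ RR W m0 Ps x y, A.card = t + 1 ∧ d ≤ ∑ i ∈ A, α i
    · obtain ⟨Q, hQ, hQc, c, hc, h3, h4⟩ := lemmaC α _ t d h1 h2
      rw [mem_sdiff] at hc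
      exact S.caseA hQ hQc hc.1 hc.2 h3 h4
    · push Not at h2
      exact S.caseC hyx h2
  · push Not at h1
    exact S.caseB h1

omit S in
lemma symm (S : Sw α d t m W m0 Ps x y) : Sw α d t m W m0 Ps y x :=
  ⟨S.C, S.m0W, S.hmax, S.PsW, S.Psc, S.yW, S.xW, S.hxy.symm, S.yPs, S.xPs, S.mPs, S.ym, S.xm,
    S.Py, S.Py', S.Px, S.Px'⟩

lemma swap : LL α d t m (insert x Ps) m0 (insert y Ps) m0 := by
  rcases le_total (α y) (α x) with h | h
  · exact S.swap_le h
  · exact (S.symm.swap_le h).symm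

end Sw

end Pool.Agent.Lib.MP_e26c3f_al
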