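import Mathlib
import Pool.Agent.Lib.MP_e26c3f_al.SwapC

/-! All leaf rows are connected. -/

set_option autoImplicit false
set_option linter.unusedSectionVars false

namespace Pool.Agent.Lib.MP_e26c3f_al

open Finset

variable {σ : Type*} [DecidableEq σ]

variable {α : σ →₀ ℕ} {d t m : ℕ} {W : Finset σ} {m0 : σ}

namespace Ctx

variable (C : Ctx α d t m W)
include C

/-- Step S2c. -/
lemma fit_connected (hm0 : m0 ∈ W) (hmax : ∀ z ∈ W, α z ≤ α m0) :
    ∀ (n : ℕ) (P Q : Finset σ), Leaf α d t W P m0 → Leaf α d t W Q m0 → (Q \ P).card = n →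
      LL α d t m P m0 Q m0 := by
  intro n
  induction n with
  | zero =>
    intro P Q hP hQ h
    rw [card_eq_zero, sdiff_eq_empty_iff_subset] at h
    have : Q = P := eq_of_subset_of_card_le h (by rw [hP.card, hQ.card])
    subst this
    exact C.LL_refl hP
  | succ n ih =>
    intro P Q hP hQ h
    have hPQ : P ≠ Q := by
      rintro rfl
      simp at h
    obtain ⟨x, hx, y, hy, h1, h2⟩ := lemmaX α d (α m0) P Q hPQ (by rw [hP.card, hQ.card])
      (fun x hx => hmax x (hP.sub hx)) (fun x hx => hmax x (hQ.sub hx)) hP.le hP.ge hQ.le hQ.ge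
    rw [mem_sdiff] at hx hy
    have hs : ∑ i ∈ P.erase x, α i + α x = ∑ i ∈ P, α i := sum_erase_add _ _ hx.1
    have hPle := hP.le
    have hPge := hP.ge
    have hQm := hQ.nmem
    have hPm := hP.nmem
    have hxy : x ≠ y := fun e => hx.2 (e ▸ hy.1)
    have S : Sw α d t m W m0 (P.erase x) x y := by
      refine ⟨C, hm0, hmax, (erase_subset _ _).trans hP.sub, ?_, hP.sub hx.1, hQ.sub hy.1, hxy,
        by simp, ?_, ?_, ?_, ?_, by omega, by omega, by omega, by omega⟩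
      · rw [card_erase_of_mem hx.1, hP.card]
        have := C.ht
        omega
      · exact fun h => hy.2 (mem_of_mem_erase h)
      · exact fun h => hPm (mem_of_mem_erase h)
      · exact fun h => hPm (h ▸ hx.1)
      · exact fun h => hQm (h ▸ hy.1)
    have hPe : insert x (P.erase x) = P := insert_erase hx.1
    have h3 := S.swap
    have h4 := S.leafy
    rw [hPe] at h3
    refine C.LL_trans h4 h3 (ih _ _ h4 hQ ?_)
    have h5 : Q \ insert y (P.erase x) = (Q \ P).erase y := by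
      ext z
      simp only [mem_sdiff, mem_insert, mem_erase, not_or, not_and]
      constructor
      · rintro ⟨k1, k2, k3⟩
        exact ⟨k2, k1, k3 fun e => hx.2 (e ▸ k1)⟩
      · rintro ⟨h1, h2, h3⟩
        exact ⟨h2, h1, fun _ => h3⟩
    rw [h5, card_erase_of_mem (mem_sdiff.2 hy), h]
    rfl

/-- Step S2a, when the hub is not a complete variable of the leaf. -/
lemma to_hub_aux (hm0 : m0 ∈ W) (hmax : ∀ z ∈ W, α z ≤ α m0) {P : Finset σ} {c : σ}
    (hP : Leaf α d t W P c) (hmP : m0 ∉ P) :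
    ∃ Q, Leaf α d t W Q m0 ∧ LL α d t m P c Q m0 := by
  by_cases hcm : c = m0
  · subst hcm
    exact ⟨P, hP, C.LL_refl hP⟩
  have ht := C.ht
  have hcP := hP.nmem
  have hsub : insert m0 (insert c P) ⊆ W := insert_subset hm0 (insert_subset hP.mem hP.sub)
  have hm' : m0 ∉ insert c P := by
    rw [mem_insert, not_or]; exact ⟨Ne.symm hcm, hmP⟩
  set U := W \ insert m0 (insert c P) with hU
  have e2 : (m + 3) * t = (m + 2) * t + t := by ring
  have htK : t ≤ (m + 2) * t := Nat.le_mul_of_pos_left _ (by omega)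
  have h2tK : 2 * t ≤ (m + 2) * t := Nat.mul_le_mul_right _ (by omega)
  have hUc : U.card + 1 = (m + 2) * t := by
    rw [hU, card_sdiff_of_subset hsub, card_insert_of_notMem hm', card_insert_of_notMem hcP,
      hP.card, C.hWc]
    omega
  have hUs : ∑ i ∈ U, α i + (α m0 + (α c + ∑ i ∈ P, α i)) = (m + 3) * d := by
    rw [← C.hdeg, ← sum_of_support_subset C.hW, ← sum_sdiff hsub, sum_insert hm', sum_insert hcP]
  have hUW : U ⊆ W := sdiff_subset
  have hU' : ∀ z ∈ U, z ∈ W ∧ z ≠ m0 ∧ z ≠ c ∧ z ∉ P := by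
    intro z hz
    rw [hU, mem_sdiff, mem_insert, mem_insert, not_or, not_or] at hz
    exact hz
  have hPle := hP.le
  have hPge := hP.ge
  have hca := hmax c hP.mem
  obtain ⟨B, hB, hBc, -, hB1, -⟩ := exists_min_sub α U t (by omega)
  obtain ⟨B', hB', hBc', -, hB1', -⟩ := exists_max_sub α U t (by omega)
  have hmul : ∀ z, U.card * z + z = (m + 2) * t * z := by
    intro z
    rw [← hUc]; ring
  have hts : t * ∑ i ∈ U, α i + (t * α m0 + (t * α c + t * ∑ i ∈ P, α i)) =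
      (m + 2) * t * d + t * d := by
    rw [← mul_add, ← mul_add, ← mul_add, hUs]; ring
  obtain ⟨Q, hQ, hQc, hQ1, hQ2⟩ := lemmaFit α U t d (α m0) (fun z hz => hmax z (hUW hz))
    ⟨B, hB, hBc, by
      by_contra hlt
      push Not at hlt
      have h1 : ∑ i ∈ B, α i ≤ t * α m0 := by
        rw [← hBc]
        exact sum_le_card_nsmul _ _ _ (fun z hz => hmax z (hUW (hB hz)))
      have h2 := hmul (∑ i ∈ B, α i)
      have h3 : (m + 2) * t * (d + 1) ≤ (m + 2) * t * ∑ i ∈ B, α i := Nat.mul_le_mul_left _ hlt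
      have h4 : t * d ≤ t * α c + t * ∑ i ∈ P, α i := by
        rw [← mul_add]; exact Nat.mul_le_mul_left _ (by omega)
      have h5 : (m + 2) * t * (d + 1) = (m + 2) * t * d + (m + 2) * t := by ring
      omega⟩
    ⟨B', hB', hBc', by
      by_contra hlt
      push Not at hlt
      have h2 := hmul (∑ i ∈ B', α i + α m0 + 1)
      have h3 : (m + 2) * t * (∑ i ∈ B', α i + α m0 + 1) ≤ (m + 2) * t * d :=
        Nat.mul_le_mul_left _ hlt
      have h4 : t * ∑ i ∈ P, α i ≤ t * d := Nat.mul_le_mul_left _ hPle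
      have h5 : t * α c ≤ t * α m0 := Nat.mul_le_mul_left _ hca
      have h6 : U.card * (∑ i ∈ B', α i + α m0 + 1) =
        U.card * ∑ i ∈ B', α i + U.card * α m0 + U.card := by ring
      have h7 := hmul (α m0)
      have h8 : 2 * t * α m0 ≤ (m + 2) * t * α m0 := Nat.mul_le_mul_right _ h2tK
      have h9 : 2 * t * α m0 = t * α m0 + t * α m0 := by ring
      omega⟩
  have hQ' : ∀ z ∈ Q, z ∈ W ∧ z ≠ m0 ∧ z ≠ c ∧ z ∉ P := fun z hz => hU' z (hQ hz)
  have leafQ : Leaf α d t W Q m0 :=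
    ⟨hQ.trans hUW, hQc, hm0, fun h => (hQ' m0 h).2.1 rfl, hQ1, hQ2⟩
  refine ⟨Q, leafQ, C.LL_compat hP leafQ ?_ ?_ hmP (Or.inl hcm)⟩
  · rw [disjoint_left]
    exact fun z h1 h2 => (hQ' z h2).2.2.2 h1
  · exact fun h => (hQ' c h).2.2.1 rfl

/-- Step S2a. -/
lemma to_hub (hm0 : m0 ∈ W) (hmax : ∀ z ∈ W, α z ≤ α m0) {P : Finset σ} {c : σ}
    (hP : Leaf α d t W P c) :
    ∃ Q, Leaf α d t W Q m0 ∧ LL α d t m P c Q m0 := by
  by_cases hmP : m0 ∈ P
  swap
  · exact C.to_hub_aux hm0 hmax hP hmP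
  have ht := C.ht
  have hcP := hP.nmem
  have hsub : insert c P ⊆ W := insert_subset hP.mem hP.sub
  set U := W \ insert c P with hU
  have e2 : (m + 3) * t = (m + 2) * t + t := by ring
  have h2tK : 2 * t ≤ (m + 2) * t := Nat.mul_le_mul_right _ (by omega)
  have hUc : U.card = (m + 2) * t := by
    rw [hU, card_sdiff_of_subset hsub, card_insert_of_notMem hcP, hP.card, C.hWc]
    omega
  have hUs : ∑ i ∈ U, α i + (α c + ∑ i ∈ P, α i) = (m + 3) * d := by
    rw [← C.hdeg, ← sum_of_support_subset C.hW, ← sum_sdiff hsub, sum_insert hcP]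
  have hUW : U ⊆ W := sdiff_subset
  have hU' : ∀ z ∈ U, z ∈ W ∧ z ≠ c ∧ z ∉ P := by
    intro z hz
    rw [hU, mem_sdiff, mem_insert, not_or] at hz
    exact hz
  have hPle := hP.le
  have hPge := hP.ge
  have h3d : (m + 3) * d = (m + 2) * d + d := by ring
  obtain ⟨B, hB, hBc, -, hB1, -⟩ := exists_min_sub α U t (by omega)
  have hBd : ∑ i ∈ B, α i ≤ d := by
    rw [hUc] at hB1
    have h1 : t * ∑ i ∈ U, α i ≤ t * ((m + 2) * d) := Nat.mul_le_mul_left _ (by omega)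
    have h2 : (m + 2) * t * ∑ i ∈ B, α i ≤ (m + 2) * t * d := by
      calc (m + 2) * t * ∑ i ∈ B, α i ≤ t * ((m + 2) * d) := hB1.trans h1
        _ = (m + 2) * t * d := by ring
    exact Nat.le_of_mul_le_mul_left h2 (by omega)
  by_cases hheavy : ∃ A ⊆ U, A.card = t + 1 ∧ d ≤ ∑ i ∈ A, α i
  · obtain ⟨Q, hQ, hQc, e, he, hQ1, hQ2⟩ := lemmaC α U t d ⟨B, hB, hBc, hBd⟩ hheavy
    rw [mem_sdiff] at he
    have hQ' : ∀ z ∈ Q, z ∈ W ∧ z ≠ c ∧ z ∉ P := fun z hz => hU' z (hQ hz)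
    have he' := hU' e he.1
    have leafQ : Leaf α d t W Q e := ⟨hQ.trans hUW, hQc, he'.1, he.2, hQ1, hQ2⟩
    obtain ⟨Q2, hQ2, hLL⟩ := C.to_hub_aux hm0 hmax leafQ (fun h => (hQ' m0 h).2.2 hmP)
    refine ⟨Q2, hQ2, C.LL_trans leafQ (C.LL_compat hP leafQ ?_ ?_ he'.2.2
      (Or.inl he'.2.1.symm)) hLL⟩
    · rw [disjoint_left]
      exact fun z h1 h2 => (hQ' z h2).2.2 h1
    · exact fun h => (hQ' c h).2.1 rfl
  · push Not at hheavy
    obtain ⟨Q, hQ, hQc, -, hQ1, -⟩ := exists_max_sub α U t (by omega)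
    have hQ' : ∀ z ∈ Q, z ∈ W ∧ z ≠ c ∧ z ∉ P := fun z hz => hU' z (hQ hz)
    have hQd : ∑ i ∈ Q, α i < d := by
      obtain ⟨z, hz⟩ : (U \ Q).Nonempty := by
        rw [← card_pos, card_sdiff_of_subset hQ]; omega
      rw [mem_sdiff] at hz
      have := hheavy (insert z Q) (insert_subset hz.1 hQ) (by
        rw [card_insert_of_notMem hz.2, hQc])
      rw [sum_insert hz.2] at this
      omega
    have h1 : ∑ i ∈ U, α i ≤ (m + 2) * ∑ i ∈ Q, α i := by
      rw [hUc] at hQ1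
      have : t * ∑ i ∈ U, α i ≤ t * ((m + 2) * ∑ i ∈ Q, α i) := by
        calc t * ∑ i ∈ U, α i ≤ (m + 2) * t * ∑ i ∈ Q, α i := hQ1
          _ = _ := by ring
      exact Nat.le_of_mul_le_mul_left this (by omega)
    have h2 : (m + 2) * ∑ i ∈ Q, α i = (m + 1) * ∑ i ∈ Q, α i + ∑ i ∈ Q, α i := by ring
    have h3 : (m + 1) * ∑ i ∈ Q, α i ≤ (m + 1) * d := Nat.mul_le_mul_left _ hQd.le
    have h4 : (m + 3) * d = (m + 1) * d + 2 * d := by ring
    have leafQ : Leaf α d t W Q c :=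
      ⟨hQ.trans hUW, hQc, hP.mem, fun h => (hQ' c h).2.1 rfl, hQd.le, by omega⟩
    obtain ⟨Q2, hQ2, hLL⟩ := C.to_hub_aux hm0 hmax leafQ (fun h => (hQ' m0 h).2.2 hmP)
    refine ⟨Q2, hQ2, C.LL_trans leafQ (C.LL_compat hP leafQ ?_ ?_ hcP
      (Or.inr (by omega))) hLL⟩
    · rw [disjoint_left]
      exact fun z h1 h2 => (hQ' z h2).2.2 h1
    · exact fun h => (hQ' c h).2.1 rfl

/-- Step S2. -/
lemma leaf_connected {P Q : Finset σ} {c e : σ} (hP : Leaf α d t W P c)
    (hQ : Leaf α d t W Q e) : LL α d t m P c Q e := by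
  obtain ⟨m0, hm0, hmax⟩ := exists_max_image W α ⟨c, hP.mem⟩
  obtain ⟨P', hP', h1⟩ := C.to_hub hm0 hmax hP
  obtain ⟨Q', hQ', h2⟩ := C.to_hub hm0 hmax hQ
  exact C.LL_trans hP' h1 (C.LL_trans hQ' (C.fit_connected hm0 hmax _ P' Q' hP' hQ' rfl) h2.symm)

end Ctx

end Pool.Agent.Lib.MP_e26c3f_al
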