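import Mathlib
import Pool.Agent.Lib.MP_e26c3f_al.Hub

/-! Incidence counts of indexed configurations. -/

set_option autoImplicit false
set_option linter.unusedSectionVars false

namespace Pool.Agent.Lib.MP_e26c3f_al

open Finset

variable {σ : Type*} [DecidableEq σ] {k : ℕ}

/-- Number of rows containing `v`. -/
def mu (f : Fin k → (σ →₀ ℕ)) (v : σ) : ℕ := (univ.filter fun i => v ∈ (f i).support).card

/-- Variables only occurring in row `i`. -/
def Un (f : Fin k → (σ →₀ ℕ)) (i : Fin k) : Finset σ := (f i).support.filter fun v => mu f v ≤ 1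

/-- Variables shared by row `i` with other rows. -/
def Sh (f : Fin k → (σ →₀ ℕ)) (i : Fin k) : Finset σ :=
  (f i).support.filter fun v => ¬ mu f v ≤ 1

variable (f : Fin k → (σ →₀ ℕ))

lemma Un_sub (i : Fin k) : Un f i ⊆ (f i).support := filter_subset _ _

lemma Sh_sub (i : Fin k) : Sh f i ⊆ (f i).support := filter_subset _ _

lemma card_Un_add_Sh (i : Fin k) : (Un f i).card + (Sh f i).card = (f i).support.card :=
  card_filter_add_card_filter_not _

lemma supp_sub (i : Fin k) : (f i).support ⊆ (∑ j, f j).support := by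
  intro v hv
  rw [Finsupp.mem_support_iff] at hv ⊢
  rw [Finsupp.finsetSum_apply]
  have : f i v ≤ ∑ j, f j v := single_le_sum (f := fun j => f j v) (fun _ _ => Nat.zero_le _)
    (mem_univ i)
  omega

lemma mem_supp_sum {v : σ} : v ∈ (∑ j, f j).support ↔ ∃ i, v ∈ (f i).support := by
  constructor
  · intro hv
    rw [Finsupp.mem_support_iff, Finsupp.finsetSum_apply] at hv
    by_contra h
    push Not at h
    apply hv
    apply sum_eq_zero
    intro i _
    simpa using h i
  · rintro ⟨i, hi⟩
    exact supp_sub f i hi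

lemma mu_pos {v : σ} (hv : v ∈ (∑ j, f j).support) : 1 ≤ mu f v := by
  obtain ⟨i, hi⟩ := (mem_supp_sum f).1 hv
  exact card_pos.2 ⟨i, by simp only [mem_filter, mem_univ, true_and]; exact hi⟩

lemma dc (g : σ → ℕ) : ∑ i, ∑ v ∈ (f i).support, g v =
    ∑ v ∈ (∑ j, f j).support, mu f v * g v := by
  have h1 : ∀ i, ∑ v ∈ (f i).support, g v =
      ∑ v ∈ (∑ j, f j).support, if v ∈ (f i).support then g v else 0 := by
    intro i
    rw [← sum_filter]
    apply sum_congr _ (fun _ _ => rfl)
    ext v
    simp only [mem_filter]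
    exact ⟨fun h => ⟨supp_sub f i h, h⟩, fun h => h.2⟩
  simp_rw [h1]
  rw [sum_comm]
  apply sum_congr rfl
  intro v _
  rw [← sum_filter, sum_const, smul_eq_mul, mu]

lemma sum_Un (g : σ → ℕ) : ∑ i, ∑ v ∈ Un f i, g v =
    ∑ v ∈ (∑ j, f j).support.filter (fun v => mu f v ≤ 1), g v := by
  have h := dc f (fun v => if mu f v ≤ 1 then g v else 0)
  have h1 : ∀ i, ∑ v ∈ Un f i, g v =
      ∑ v ∈ (f i).support, if mu f v ≤ 1 then g v else 0 := fun i => sum_filter _ _
  simp_rw [h1]
  rw [h, sum_filter]
  apply sum_congr rfl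
  intro v hv
  have := mu_pos f hv
  split_ifs with h2
  · have : mu f v = 1 := by omega
    rw [this, one_mul]
  · simp

lemma sum_Sh (g : σ → ℕ) : ∑ i, ∑ v ∈ Sh f i, g v =
    ∑ v ∈ (∑ j, f j).support.filter (fun v => ¬ mu f v ≤ 1), mu f v * g v := by
  have h := dc f (fun v => if ¬ mu f v ≤ 1 then g v else 0)
  have h1 : ∀ i, ∑ v ∈ Sh f i, g v =
      ∑ v ∈ (f i).support, if ¬ mu f v ≤ 1 then g v else 0 := fun i => sum_filter _ _
  simp_rw [h1]
  rw [h, sum_filter]
  apply sum_congr rfl
  intro v hv
  split_ifs with h2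
  · simp
  · rfl

/-- Number of shared variables. -/
noncomputable def nS : ℕ := ((∑ j, f j).support.filter (fun v => ¬ mu f v ≤ 1)).card

lemma card_supp : ∑ i, (Un f i).card + nS f = (∑ j, f j).support.card := by
  have h := sum_Un f (fun _ => 1)
  simp only [sum_const, smul_eq_mul, mul_one] at h
  rw [h, nS, card_filter_add_card_filter_not]

lemma two_nS_le : 2 * nS f ≤ ∑ i, (Sh f i).card := by
  have h := sum_Sh f (fun _ => 1)
  simp only [sum_const, smul_eq_mul, mul_one] at h
  rw [h, nS, mul_comm, ← smul_eq_mul]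
  apply card_nsmul_le_sum
  intro v hv
  have := (mem_filter.1 hv).2
  omega

lemma eq_of_mem_Un {i : Fin k} {v : σ} (hv : v ∈ Un f i) :
    (∀ j, j ≠ i → f j v = 0) ∧ (∑ j, f j) v = f i v := by
  rw [Un, mem_filter] at hv
  have h1 : ∀ j, j ≠ i → f j v = 0 := by
    intro j hj
    by_contra h
    have h2 : ({i, j} : Finset (Fin k)) ⊆ univ.filter fun i => v ∈ (f i).support := by
      intro l hl
      simp only [mem_insert, mem_singleton] at hl
      simp only [mem_filter, mem_univ, true_and]
      rcases hl with rfl | rfl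
      · exact hv.1
      · rw [Finsupp.mem_support_iff]; exact h
    have h3 := card_le_card h2
    rw [card_pair hj.symm] at h3
    have := hv.2
    rw [mu] at this
    omega
  refine ⟨h1, ?_⟩
  rw [Finsupp.finsetSum_apply, sum_eq_single i]
  · intro j _ hj; exact h1 j hj
  · intro h; exact absurd (mem_univ i) h

/-- A row with at most one shared variable, enough unshared ones and enough spare variables is a
leaf row. -/
lemma leaf_mk {α u : σ →₀ ℕ} {d t : ℕ} {W P : Finset σ} {c : σ} (hP : P ⊆ W) (hPc : P.card = t)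
    (hc : c ∈ W) (hcP : c ∉ P) (h1 : ∀ v ∈ P, u v = α v) (h2 : ∀ v, v ∉ P → v ≠ c → u v = 0)
    (hdeg : u.degree = d) (hle : u ≤ α) : Leaf α d t W P c ∧ lrow α d P c = u := by
  have h3 : ∑ i ∈ P, α i + u c = d := by
    rw [← hdeg]
    have h4 : u.support ⊆ insert c P := by
      intro v hv
      rw [Finsupp.mem_support_iff] at hv
      rw [mem_insert]
      by_contra h
      rw [not_or] at h
      exact hv (h2 v h.2 h.1)
    rw [← sum_of_support_subset h4, sum_insert hcP, sum_congr rfl h1]
    ring
  refine ⟨⟨hP, hPc, hc, hcP, by omega, by have := hle c; omega⟩, ?_⟩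
  ext v
  rw [lrow_apply]
  by_cases hv : v ∈ P
  · have : v ≠ c := fun e => hcP (e ▸ hv)
    simp [hv, this, h1 v hv]
  · by_cases hvc : v = c
    · subst hvc
      simp only [hv, if_false, if_true, zero_add]
      omega
    · simp [hv, hvc, h2 v hv hvc]

/-- Case 1 of step S1. -/
lemma exists_leaf_row {α : σ →₀ ℕ} {d t : ℕ} {W : Finset σ} (hα : ∑ j, f j = α)
    (hrow : ∀ i, IsRow d (t + 1) (f i)) (hW : α.support ⊆ W) (hWc : W.card = k * t + 1)
    (hi : ∃ i, (Sh f i).card ≤ 1) :
    ∃ i P c, Leaf α d t W P c ∧ lrow α d P c = f i := by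
  obtain ⟨i0, hi0⟩ := hi
  have hk : 0 < k := i0.pos
  have hcard := card_supp f
  have hns := two_nS_le f
  rw [hα] at hcard
  obtain ⟨z, hz⟩ : ∃ z, z = (W \ α.support).card := ⟨_, rfl⟩
  have hz' : z + α.support.card = W.card := by
    rw [hz, card_sdiff_add_card_eq_card hW]
  -- find a good row
  obtain ⟨i, hi1, hi2⟩ : ∃ i, (Sh f i).card ≤ 1 ∧ t ≤ (Un f i).card + z := by
    by_contra hcon
    push Not at hcon
    have h1 : ∑ i, (2 * (Un f i).card + (Sh f i).card) ≤
        ∑ i : Fin k, (if i = i0 then 2 * t - 1 - 2 * z else 2 * t) := by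
      apply sum_le_sum
      intro i _
      have h3 := card_Un_add_Sh f i
      have h4 := (hrow i).2
      by_cases h5 : (Sh f i).card ≤ 1
      · have h6 := hcon i h5
        split_ifs
        · omega
        · omega
      · have : i ≠ i0 := fun e => h5 (e ▸ hi0)
        rw [if_neg this]
        omega
    have h7 : ∑ i : Fin k, (if i = i0 then 2 * t - 1 - 2 * z else 2 * t) =
        (2 * t - 1 - 2 * z) + (k - 1) * (2 * t) := by
      rw [← add_sum_erase univ _ (mem_univ i0), if_pos rfl]
      congr 1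
      rw [sum_congr rfl (g := fun _ => 2 * t) (fun i hi => by
        rw [if_neg (ne_of_mem_erase hi)]), sum_const, card_erase_of_mem (mem_univ i0), card_univ,
        Fintype.card_fin, smul_eq_mul]
    rw [h7, sum_add_distrib, ← mul_sum] at h1
    have h8 := hcon i0 hi0
    obtain ⟨k', rfl⟩ : ∃ k', k = k' + 1 := ⟨k - 1, by omega⟩
    have e1 : (k' + 1 - 1) * (2 * t) = 2 * (k' * t) := by
      rw [Nat.add_sub_cancel]; ring
    rw [e1] at h1
    have e2 : (k' + 1) * t = k' * t + t := by ring
    rw [hWc, e2] at hz'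
    omega
  refine ⟨i, ?_⟩
  have hdeg := (hrow i).1
  have hcc := card_Un_add_Sh f i
  have hsc := (hrow i).2
  have hle : f i ≤ α := by
    rw [← hα]
    intro v
    rw [Finsupp.finsetSum_apply]
    exact single_le_sum (f := fun j => f j v) (fun _ _ => Nat.zero_le _) (mem_univ i)
  have hsub : (f i).support ⊆ α.support := by rw [← hα]; exact supp_sub f i
  have hcomp : ∀ v ∈ Un f i, f i v = α v := by
    intro v hv
    rw [← hα, (eq_of_mem_Un f hv).2]
  have hsplit : ∀ v, v ∉ Un f i → v ∉ Sh f i → f i v = 0 := by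
    intro v h1 h2
    by_contra h
    rw [Un, mem_filter, Finsupp.mem_support_iff] at h1
    rw [Sh, mem_filter, Finsupp.mem_support_iff] at h2
    tauto
  have hkt : t < W.card := by
    rw [hWc]
    have : t ≤ k * t := Nat.le_mul_of_pos_left _ hk
    omega
  by_cases hbig : (Un f i).card ≤ t
  · -- pad
    obtain ⟨Z, hZ, hZc⟩ := exists_subset_card_eq (show t - (Un f i).card ≤ (W \ α.support).card
      by omega)
    have hZα : ∀ v ∈ Z, v ∈ W ∧ α v = 0 := by
      intro v hv
      have := mem_sdiff.1 (hZ hv)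
      exact ⟨this.1, by simpa using this.2⟩
    have hdisj : Disjoint (Un f i) Z := by
      rw [disjoint_left]
      intro v h1 h2
      have h3 := (mem_sdiff.1 (hZ h2)).2
      exact h3 (hsub (Un_sub f i h1))
    have hPc : (Un f i ∪ Z).card = t := by
      rw [card_union_of_disjoint hdisj, hZc]; omega
    have hPW : Un f i ∪ Z ⊆ W :=
      union_subset ((Un_sub f i).trans (hsub.trans hW)) (hZ.trans sdiff_subset)
    have hval : ∀ v ∈ Un f i ∪ Z, f i v = α v := by
      intro v hv
      rcases mem_union.1 hv with h | h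
      · exact hcomp v h
      · have h1 := hle v
        have h2 := (hZα v h).2
        omega
    rcases Nat.lt_or_ge 0 (Sh f i).card with hpos | hzero
    · obtain ⟨c, hc⟩ := card_pos.1 hpos
      have hSh : ∀ v ∈ Sh f i, v = c := fun v hv => card_le_one.1 hi1 v hv c hc
      refine ⟨Un f i ∪ Z, c, ?_⟩
      apply leaf_mk hPW hPc (hW (hsub (Sh_sub f i hc))) _ hval _ hdeg hle
      · intro h
        rcases mem_union.1 h with h | h
        · rw [Un, mem_filter] at h
          rw [Sh, mem_filter] at hc
          exact hc.2 h.2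
        · exact (mem_sdiff.1 (hZ h)).2 (hsub (Sh_sub f i hc))
      · intro v h1 h2
        apply hsplit v
        · exact fun h => h1 (mem_union_left _ h)
        · exact fun h => h2 (hSh v h)
    · obtain ⟨c, hc⟩ : (W \ (Un f i ∪ Z)).Nonempty := by
        rw [← card_pos, card_sdiff_of_subset hPW]; omega
      rw [mem_sdiff] at hc
      refine ⟨Un f i ∪ Z, c, ?_⟩
      apply leaf_mk hPW hPc hc.1 hc.2 hval _ hdeg hle
      intro v h1 h2
      apply hsplit v
      · exact fun h => h1 (mem_union_left _ h)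
      · have : Sh f i = ∅ := card_eq_zero.1 (by omega)
        simp [this]
  · push Not at hbig
    obtain ⟨c, hc⟩ := card_pos.1 (show 0 < (Un f i).card by omega)
    refine ⟨(Un f i).erase c, c, ?_⟩
    apply leaf_mk ((erase_subset _ _).trans ((Un_sub f i).trans (hsub.trans hW))) _
      (hW (hsub (Un_sub f i hc))) (by simp) _ _ hdeg hle
    · rw [card_erase_of_mem hc]; omega
    · intro v hv; exact hcomp v (mem_of_mem_erase hv)
    · intro v h1 h2
      apply hsplit v
      · exact fun h => h1 (mem_erase.2 ⟨h2, h⟩)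
      · have : Sh f i = ∅ := card_eq_zero.1 (by omega)
        simp [this]

end Pool.Agent.Lib.MP_e26c3f_al
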