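import Mathlib
import Pool.Agent.Lib.MP_e26c3f_al.Count

/-! Every configuration is linked to one containing a leaf row; theorem T1. -/

set_option autoImplicit false
set_option linter.unusedSectionVars false

namespace Pool.Agent.Lib.MP_e26c3f_al

open Finset

variable {σ : Type*} [DecidableEq σ]

lemma exists_fin_map {β : Type*} (X : Multiset β) :
    ∃ f : Fin X.card → β, X = (univ : Finset (Fin X.card)).val.map f := by
  refine ⟨X.toList.get ∘ Fin.cast (by simp), ?_⟩
  rw [Fin.univ_val_map]
  conv_lhs => rw [← Multiset.coe_toList X]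
  congr 1
  apply List.ext_get
  · simp
  · intro n h1 h2
    simp

variable {α : σ →₀ ℕ} {d t m : ℕ} {W : Finset σ}

namespace Ctx

variable (C : Ctx α d t m W)
include C

/-- Proper parts of an incidence-minimal configuration have few incidences. -/
lemma min_part {X : Multiset (σ →₀ ℕ)} (hX : Cfg d (t + 1) (m + 3) α X)
    (hmin : ∀ Y, Linked d (t + 1) X Y → inc X ≤ inc Y) {A B : Multiset (σ →₀ ℕ)}
    (hAB : X = A + B) (hA : 0 < A.card) (hB : 0 < B.card) :
    inc A + 1 ≤ A.sum.support.card + A.card := by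
  by_contra hlt
  push Not at hlt
  have hcard := hX.card
  rw [hAB, Multiset.card_add] at hcard
  have hArow : ∀ u ∈ A, IsRow d (t + 1) u := fun u hu => hX.row u (by rw [hAB]; simp [hu])
  have hAcfg : Cfg d (t + 1) A.card A.sum A := ⟨hArow, rfl, rfl⟩
  have hinc : inc A ≤ A.card * (t + 1) := by
    rw [inc]
    have : ∀ x ∈ A.map (fun u => u.support.card), x ≤ t + 1 := by
      intro x hx
      obtain ⟨u, hu, rfl⟩ := Multiset.mem_map.1 hx
      exact (hArow u hu).2
    have := Multiset.sum_le_card_nsmul _ _ this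
    simpa using this
  have hsub : A.sum.support ⊆ W := by
    intro v hv
    apply C.hW
    rw [Finsupp.mem_support_iff] at hv ⊢
    rw [← hX.sum, hAB, Multiset.sum_add, Finsupp.add_apply]
    omega
  have e : A.card * (t + 1) = A.card * t + A.card := by ring
  have h1 : A.card * t ≤ (m + 3) * t := Nat.mul_le_mul_right _ (by omega)
  obtain ⟨W', hW1, hW2, hW3⟩ := exists_subsuperset_card_eq hsub
    (show A.sum.support.card ≤ A.card * t + 1 by omega)
    (show A.card * t + 1 ≤ W.card by rw [C.hWc]; omega)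
  obtain ⟨A', hA', hinc'⟩ := exists_cfg t d A.card A.sum W' hW1 hW3 hAcfg.degree
  have h2 := hinc' hA
  have h3 := C.IH A.card (by omega) A.sum W' hW1 hW3 A A' hAcfg hA'
  have h4 := hmin (A' + B) (by rw [hAB]; exact h3.add_right B)
  have h5 : ∀ Z, inc (Z + B) = inc Z + inc B := by
    intro Z
    simp [inc]
  rw [hAB, h5, h5] at h4
  omega

/-- Case 2 of step S1: the exchange in a cyclic configuration. -/
lemma cyc_exchange {u w : σ →₀ ℕ} {v v' v'' : σ} {Ui Uj Zi Zj : Finset σ}
    (hu : IsRow d (t + 1) u) (hw : IsRow d (t + 1) w) (hle : u + w ≤ α)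
    (hUi : Ui ⊆ W) (hUj : Uj ⊆ W) (hZi : Zi ⊆ W) (hZj : Zj ⊆ W) (hv : v ∈ W) (hv' : v' ∈ W)
    (hv'' : v'' ∈ W) (hfull : ∀ x ∈ insert v ((Ui ∪ Zi) ∪ (Uj ∪ Zj)), (u + w) x = α x)
    (hsupp : (u + w).support ⊆ insert v' (insert v'' (insert v ((Ui ∪ Zi) ∪ (Uj ∪ Zj)))))
    (hc1 : (Ui ∪ Zi).card + 1 = t) (hc2 : (Uj ∪ Zj).card + 1 = t)
    (hdj : Disjoint (Ui ∪ Zi) (Uj ∪ Zj)) (hvn : v ∉ (Ui ∪ Zi) ∪ (Uj ∪ Zj))
    (hv'n : v' ∉ insert v ((Ui ∪ Zi) ∪ (Uj ∪ Zj)))
    (hv''n : v'' ∉ insert v ((Ui ∪ Zi) ∪ (Uj ∪ Zj))) (hne : v' ≠ v'')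
    (hlight : ∑ i ∈ Ui ∪ Zi, α i + α v ≤ d) :
    ∃ P c r, Leaf α d t W P c ∧ IsRow d (t + 1) r ∧ u + w = lrow α d P c + r := by
  set M := insert v ((Ui ∪ Zi) ∪ (Uj ∪ Zj)) with hM
  set γ := u + w with hγ
  have hMc : M.card + 1 = 2 * t := by
    rw [hM, card_insert_of_notMem hvn, card_union_of_disjoint hdj]; omega
  have hMW : M ⊆ W := insert_subset hv (union_subset (union_subset hUi hZi)
    (union_subset hUj hZj))
  have hγdeg : γ.degree = 2 * d := by
    rw [hγ, map_add, hu.1, hw.1]; ring
  have hvi : v ∉ Ui ∪ Zi := fun h => hvn (mem_union_left _ h)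
  obtain ⟨Q, hQ, hQc, hQd, hQex⟩ := exists_max_light α M t d
    ⟨insert v (Ui ∪ Zi), insert_subset_insert _ subset_union_left, by
      rw [card_insert_of_notMem hvi, hc1], by rw [sum_insert hvi]; omega⟩
  have ht := C.ht
  set N := insert v' (insert v'' (M \ Q)) with hN
  have hN1 : v'' ∉ M \ Q := fun h => hv''n (sdiff_subset h)
  have hN2 : v' ∉ insert v'' (M \ Q) := by
    rw [mem_insert, not_or]
    exact ⟨hne, fun h => hv'n (sdiff_subset h)⟩
  have hMQ : (M \ Q).card + 1 = t := by
    rw [card_sdiff_of_subset hQ, hQc]; omega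
  have hNc : N.card = t + 1 := by
    rw [hN, card_insert_of_notMem hN2, card_insert_of_notMem hN1]; omega
  obtain ⟨e, he, hemax⟩ := exists_max_image N γ (card_pos.1 (by omega))
  have hsum : ∑ i ∈ M, γ i + γ v'' + γ v' = 2 * d := by
    have hA : v'' ∉ M := hv''n
    have hB : v' ∉ insert v'' M := by
      rw [mem_insert, not_or]; exact ⟨hne, hv'n⟩
    rw [← hγdeg, ← sum_of_support_subset hsupp, sum_insert hB, sum_insert hA]
    ring
  have hsumM : ∑ i ∈ M, γ i = ∑ i ∈ M, α i := sum_congr rfl hfull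
  have hsplit : ∑ i ∈ M \ Q, α i + ∑ i ∈ Q, α i = ∑ i ∈ M, α i := sum_sdiff hQ
  have hge : d ≤ ∑ i ∈ Q, α i + γ e := by
    by_contra hlt
    push Not at hlt
    have h1 : ∑ i ∈ M \ Q, α i ≤ ∑ i ∈ Q, α i := by
      apply sum_le_of_card_le
      · omega
      · intro a ha b hb
        apply hQex b hb a ha
        have h2 := hemax a (mem_insert_of_mem (mem_insert_of_mem ha))
        have h3 := hfull a (sdiff_subset ha)
        rw [h3] at h2
        omega
    have h2 := hemax v' (mem_insert_self _ _)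
    have h3 := hemax v'' (mem_insert_of_mem (mem_insert_self _ _))
    omega
  have heQ : e ∉ Q := by
    intro h
    rcases mem_insert.1 he with rfl | he
    · exact hv'n (hQ h)
    rcases mem_insert.1 he with rfl | he
    · exact hv''n (hQ h)
    exact (mem_sdiff.1 he).2 h
  have heW : e ∈ W := by
    rcases mem_insert.1 he with rfl | he
    · exact hv'
    rcases mem_insert.1 he with rfl | he
    · exact hv''
    exact hMW (sdiff_subset he)
  have hleaf : Leaf α d t W Q e := ⟨hQ.trans hMW, hQc, heW, heQ, hQd, by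
    have := hle e
    omega⟩
  have hrle : lrow α d Q e ≤ γ := by
    intro x
    rw [lrow_apply]
    by_cases hx : x ∈ Q
    · have h1 : x ≠ e := fun h => heQ (h ▸ hx)
      have h2 := hfull x (hQ hx)
      simp [hx, h1, h2]
    · by_cases hxe : x = e
      · subst hxe
        simp only [hx, if_false, if_true, zero_add]
        omega
      · simp [hx, hxe]
  obtain ⟨r, hr⟩ := exists_add_of_le hrle
  refine ⟨Q, e, r, hleaf, ⟨?_, ?_⟩, hr⟩
  · have h9 : γ.degree = (lrow α d Q e).degree + r.degree := by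
      rw [← map_add, ← hr]
    rw [degree_lrow hleaf.le, hγdeg] at h9
    omega
  · rw [← hNc]
    apply card_le_card
    intro x hx
    rw [Finsupp.mem_support_iff] at hx
    have hx' : γ x = lrow α d Q e x + r x := by
      rw [hr]; rfl
    have hxγ : x ∈ γ.support := by
      rw [Finsupp.mem_support_iff]; omega
    rcases mem_insert.1 (hsupp hxγ) with rfl | h
    · exact mem_insert_self _ _
    rcases mem_insert.1 h with rfl | h
    · exact mem_insert_of_mem (mem_insert_self _ _)
    apply mem_insert_of_mem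
    apply mem_insert_of_mem
    rw [mem_sdiff]
    refine ⟨h, fun hxQ => ?_⟩
    have h2 := hfull x h
    rw [lrow_apply, if_pos hxQ] at hx'
    omega

/-- Step S1. -/
lemma exists_leaf_linked {X : Multiset (σ →₀ ℕ)} (hX : Cfg d (t + 1) (m + 3) α X) :
    ∃ Y, Linked d (t + 1) X Y ∧ ∃ P c, Leaf α d t W P c ∧ lrow α d P c ∈ Y := by
  classical
  -- incidence-minimal configuration of the class
  obtain ⟨X', hXX', hmin⟩ : ∃ X', Linked d (t + 1) X X' ∧
      ∀ Y, Linked d (t + 1) X' Y → inc X' ≤ inc Y := by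
    have hex : ∃ n Y, Linked d (t + 1) X Y ∧ inc Y = n := ⟨_, X, Linked.refl _, rfl⟩
    obtain ⟨Y, hY, hYn⟩ := Nat.find_spec hex
    refine ⟨Y, hY, fun Z hZ => ?_⟩
    rw [hYn]
    exact Nat.find_min' hex ⟨Z, hY.trans hZ, rfl⟩
  have hX' := hXX'.cfg hX
  obtain ⟨f, hf⟩ : ∃ f : Fin (m + 3) → (σ →₀ ℕ), X' = (univ : Finset (Fin (m + 3))).val.map f := by
    have := exists_fin_map X'
    rwa [hX'.card] at this
  have hα : ∑ j, f j = α := by
    rw [← hX'.sum, hf]; rfl
  have hrow : ∀ i, IsRow d (t + 1) (f i) := fun i => hX'.row _ (by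
    rw [hf]; exact Multiset.mem_map_of_mem f (mem_univ i))
  by_cases hcase : ∃ i, (Sh f i).card ≤ 1
  · obtain ⟨i, P, c, hL, hP⟩ := exists_leaf_row f hα hrow C.hW C.hWc hcase
    refine ⟨X', hXX', P, c, hL, ?_⟩
    rw [hP, hf]
    exact Multiset.mem_map_of_mem f (mem_univ i)
  push Not at hcase
  have ht := C.ht
  have hcard := card_supp f
  have hns := two_nS_le f
  have hinc : ∀ T : Finset (Fin (m + 3)), inc (T.val.map f) = ∑ i ∈ T, (f i).support.card := by
    intro T
    rw [inc, Multiset.map_map]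
    rfl
  have hsumT : ∀ T : Finset (Fin (m + 3)), (T.val.map f).sum = ∑ i ∈ T, f i := fun T => rfl
  have hcardT : ∀ T : Finset (Fin (m + 3)), (T.val.map f).card = T.card := fun T => by
    rw [Multiset.card_map]; rfl
  have hUS : ∑ i, (f i).support.card = ∑ i, (Un f i).card + ∑ i, (Sh f i).card := by
    rw [← sum_add_distrib]
    exact sum_congr rfl fun i _ => (card_Un_add_Sh f i).symm
  have hineq : ∀ i, ∑ i, (Sh f i).card ≤ nS f + m + 1 + (Sh f i).card := by
    intro i
    have h1 : X' = (univ.erase i).val.map f + {f i} := by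
      rw [hf, erase_val, Multiset.add_comm, Multiset.singleton_add, ← Multiset.map_cons f,
        Multiset.cons_erase (mem_univ i)]
    have hce : (univ.erase i : Finset (Fin (m + 3))).card = m + 2 := by
      rw [card_erase_of_mem (mem_univ i), card_univ, Fintype.card_fin]; omega
    have h2 := C.min_part hX' hmin h1 (by rw [hcardT, hce]; omega) (by simp)
    rw [hcardT, hce, hinc, hsumT] at h2
    have h3 : ∑ j ∈ univ.erase i, (f j).support.card + (f i).support.card =
        ∑ j, (f j).support.card := sum_erase_add _ _ (mem_univ i)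
    have h4 : (∑ j ∈ univ.erase i, f j).support ⊆ (∑ j, f j).support \ Un f i := by
      intro v hv
      rw [Finsupp.mem_support_iff, Finsupp.finsetSum_apply] at hv
      obtain ⟨j, hj, hjv⟩ := exists_ne_zero_of_sum_ne_zero hv
      rw [mem_sdiff]
      refine ⟨supp_sub f j (by rwa [Finsupp.mem_support_iff]), fun h => ?_⟩
      exact hjv ((eq_of_mem_Un f h).1 j (ne_of_mem_erase hj))
    have h5 := card_le_card h4
    rw [card_sdiff_of_subset ((Un_sub f i).trans (supp_sub f i))] at h5
    have h6 := card_Un_add_Sh f i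
    have h7 := card_le_card ((Un_sub f i).trans (supp_sub f i))
    omega
  have h2k : 2 * (m + 3) ≤ ∑ i, (Sh f i).card := by
    have : ∑ _i : Fin (m + 3), 2 ≤ ∑ i, (Sh f i).card := sum_le_sum fun i _ => hcase i
    simpa [mul_comm] using this
  have hsum2 : (m + 3) * ∑ i, (Sh f i).card ≤
      (m + 3) * (nS f + m + 1) + ∑ i, (Sh f i).card := by
    have : ∑ _i : Fin (m + 3), (∑ i, (Sh f i).card) ≤
        ∑ i : Fin (m + 3), (nS f + m + 1 + (Sh f i).card) := sum_le_sum fun i _ => hineq i
    rw [sum_add_distrib] at this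
    simpa [mul_comm] using this
  obtain ⟨s2, hs2⟩ : ∃ s2, s2 = ∑ i, (Sh f i).card := ⟨_, rfl⟩
  rw [← hs2] at hns h2k hsum2 hineq hUS
  obtain ⟨E, hE⟩ : ∃ E, s2 = nS f + E := ⟨s2 - nS f, by omega⟩
  have hEle : E ≤ m + 3 := by
    have h1 : (m + 1) * E ≤ (m + 1) * (m + 3) := by nlinarith
    exact Nat.le_of_mul_le_mul_left h1 (by omega)
  have hs2' : s2 = 2 * (m + 3) := by omega
  have hnS : nS f = m + 3 := by omega
  have hSh2 : ∀ i, (Sh f i).card = 2 := by
    intro i
    by_contra hne
    have h1 : ∑ _i : Fin (m + 3), 2 < ∑ i, (Sh f i).card :=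
      sum_lt_sum (fun i _ => hcase i) ⟨i, mem_univ i, lt_of_le_of_ne (hcase i) (Ne.symm hne)⟩
    simp only [sum_const, card_univ, Fintype.card_fin, smul_eq_mul] at h1
    omega
  have hmu2 : ∀ v ∈ (∑ j, f j).support, ¬ mu f v ≤ 1 → mu f v = 2 := by
    intro v hv hv1
    by_contra hne
    have h1 : ∑ _v ∈ (∑ j, f j).support.filter (fun v => ¬ mu f v ≤ 1), 2 <
        ∑ v ∈ (∑ j, f j).support.filter (fun v => ¬ mu f v ≤ 1), mu f v :=
      sum_lt_sum (fun v hv => by have := (mem_filter.1 hv).2; omega)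
        ⟨v, mem_filter.2 ⟨hv, hv1⟩, by omega⟩
    have h2 := sum_Sh f (fun _ => 1)
    simp only [sum_const, smul_eq_mul, mul_one] at h1 h2
    rw [← h2, ← hs2] at h1
    have : nS f * 2 < s2 := h1
    omega
  -- averaging
  obtain ⟨i, v, hv, hlight⟩ : ∃ i, ∃ v ∈ Sh f i, ∑ x ∈ Un f i, α x + α v ≤ d := by
    by_contra hcon
    push Not at hcon
    have h1 : ∑ i, ∑ v ∈ Sh f i, (d + 1) ≤ ∑ i, ∑ v ∈ Sh f i, (∑ x ∈ Un f i, α x + α v) :=
      sum_le_sum fun i _ => sum_le_sum fun v hv => hcon i v hv
    have h2 : ∑ i, ∑ v ∈ Sh f i, (∑ x ∈ Un f i, α x + α v) =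
        2 * ∑ i, ∑ x ∈ Un f i, α x + ∑ i, ∑ v ∈ Sh f i, α v := by
      simp_rw [sum_add_distrib, sum_const, hSh2, smul_eq_mul, ← mul_sum]
    have h3 : ∑ i, ∑ v ∈ Sh f i, α v =
        2 * ∑ v ∈ (∑ j, f j).support.filter (fun v => ¬ mu f v ≤ 1), α v := by
      rw [sum_Sh f, mul_sum]
      apply sum_congr rfl
      intro v hv
      rw [mem_filter] at hv
      rw [hmu2 v hv.1 hv.2]
    have h4 : ∑ v ∈ (∑ j, f j).support.filter (fun v => mu f v ≤ 1), α v +
        ∑ v ∈ (∑ j, f j).support.filter (fun v => ¬ mu f v ≤ 1), α v =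
        ∑ v ∈ (∑ j, f j).support, α v := sum_filter_add_sum_filter_not _ _ _
    rw [h2, h3, sum_Un f, ← mul_add, h4, hα, sum_of_support_subset subset_rfl, C.hdeg] at h1
    simp only [sum_const, hSh2, card_univ, Fintype.card_fin, smul_eq_mul] at h1
    nlinarith
  -- the partner row
  have hv0 := hv
  rw [Sh, mem_filter] at hv0
  obtain ⟨hvS, hvmu⟩ := hv0
  have hvα : v ∈ (∑ j, f j).support := supp_sub f i hvS
  have hmuv := hmu2 v hvα hvmu
  obtain ⟨j, hj⟩ : ((univ.filter fun l => v ∈ (f l).support).erase i).Nonempty := by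
    rw [← card_pos, card_erase_of_mem (by simp only [mem_filter, mem_univ, true_and]; exact hvS)]
    rw [mu] at hmuv
    omega
  rw [mem_erase, mem_filter] at hj
  obtain ⟨hji, -, hvSj⟩ := hj
  have hother : ∀ l, l ≠ i → l ≠ j → f l v = 0 := by
    intro l hli hlj
    by_contra h
    have h2 : ({i, j, l} : Finset (Fin (m + 3))) ⊆ univ.filter fun i => v ∈ (f i).support := by
      intro a ha
      simp only [mem_insert, mem_singleton] at ha
      simp only [mem_filter, mem_univ, true_and]
      rcases ha with rfl | rfl | rfl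
      · exact hvS
      · exact hvSj
      · rw [Finsupp.mem_support_iff]; exact h
    have h3 := card_le_card h2
    have h4 : ({i, j, l} : Finset (Fin (m + 3))).card = 3 := by
      rw [card_eq_three]
      exact ⟨i, j, l, hji.symm, hli.symm, hlj.symm, rfl⟩
    rw [mu] at hmuv
    omega
  have hvj : v ∈ Sh f j := by
    rw [Sh, mem_filter]; exact ⟨hvSj, hvmu⟩
  obtain ⟨v1, hv1⟩ := card_eq_one.1 (show ((Sh f i).erase v).card = 1 by
    rw [card_erase_of_mem hv, hSh2])
  obtain ⟨v2, hv2⟩ := card_eq_one.1 (show ((Sh f j).erase v).card = 1 by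
    rw [card_erase_of_mem hvj, hSh2])
  have hv1' : v1 ≠ v ∧ v1 ∈ Sh f i := mem_erase.1 (by rw [hv1]; simp)
  have hv2' : v2 ≠ v ∧ v2 ∈ Sh f j := mem_erase.1 (by rw [hv2]; simp)
  have hShi : ∀ x ∈ Sh f i, x = v ∨ x = v1 := by
    intro x hx
    by_cases h : x = v
    · exact Or.inl h
    · right
      have : x ∈ (Sh f i).erase v := mem_erase.2 ⟨h, hx⟩
      rwa [hv1, mem_singleton] at this
  have hShj : ∀ x ∈ Sh f j, x = v ∨ x = v2 := by
    intro x hx
    by_cases h : x = v
    · exact Or.inl h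
    · right
      have : x ∈ (Sh f j).erase v := mem_erase.2 ⟨h, hx⟩
      rwa [hv2, mem_singleton] at this
  -- decomposition of the configuration
  have hdecomp : X' = f i ::ₘ f j ::ₘ (((univ : Finset (Fin (m + 3))).erase i).erase j).val.map f := by
    rw [hf]
    rw [erase_val, erase_val, ← Multiset.map_cons f, ← Multiset.map_cons f,
      Multiset.cons_erase, Multiset.cons_erase (mem_univ i)]
    rw [← erase_val]
    exact mem_erase.2 ⟨hji, mem_univ j⟩
  have hv12 : v1 ≠ v2 := by
    intro h12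
    have h1 : X' = {f i, f j} + (((univ : Finset (Fin (m + 3))).erase i).erase j).val.map f := by
      rw [hdecomp]; rfl
    have hce : (((univ : Finset (Fin (m + 3))).erase i).erase j).card = m + 1 := by
      rw [card_erase_of_mem (mem_erase.2 ⟨hji, mem_univ j⟩), card_erase_of_mem (mem_univ i),
        card_univ, Fintype.card_fin]
      omega
    have h2 := C.min_part hX' hmin h1 (by simp) (by rw [hcardT, hce]; omega)
    have h3 : inc ({f i, f j} : Multiset (σ →₀ ℕ)) = (f i).support.card + (f j).support.card := by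
      simp [inc]
    have h4 : ({f i, f j} : Multiset (σ →₀ ℕ)).sum = f i + f j := by simp
    have h5 : ({f i, f j} : Multiset (σ →₀ ℕ)).card = 2 := by simp
    rw [h3, h4, h5] at h2
    have h6 : (f i + f j).support ⊆ (f i).support ∪ (f j).support := Finsupp.support_add
    have h7 := card_le_card h6
    have h8 := card_union_add_card_inter (f i).support (f j).support
    have h9 : ({v, v1} : Finset σ) ⊆ (f i).support ∩ (f j).support := by
      intro x hx
      simp only [mem_insert, mem_singleton] at hx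
      rw [mem_inter]
      rcases hx with rfl | rfl
      · exact ⟨hvS, hvSj⟩
      · exact ⟨Sh_sub f i hv1'.2, Sh_sub f j (h12 ▸ hv2'.2)⟩
    have h10 := card_le_card h9
    rw [card_pair hv1'.1.symm] at h10
    omega
  -- padding
  have hUnle : ∀ l, (Un f l).card + 1 ≤ t := by
    intro l
    have h1 := card_Un_add_Sh f l
    have h2 := (hrow l).2
    have h3 := hSh2 l
    omega
  have hz : (W \ α.support).card + α.support.card = W.card := card_sdiff_add_card_eq_card C.hW
  have hz2 : 2 * t ≤ (W \ α.support).card + (Un f i).card + (Un f j).card + 1 := by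
    rw [hα, hnS] at hcard
    have h1 : ∑ l, (Un f l).card = (Un f i).card + ((Un f j).card +
        ∑ l ∈ (univ.erase i).erase j, (Un f l).card) := by
      rw [← add_sum_erase univ (fun l => (Un f l).card) (mem_univ i),
        ← add_sum_erase (univ.erase i) (fun l => (Un f l).card)
          (mem_erase.2 ⟨hji, mem_univ j⟩)]
    have h2 : ∑ l ∈ (univ.erase i).erase j, (Un f l).card ≤ (m + 1) * (t - 1) := by
      have h3 : ∀ l ∈ (univ.erase i).erase j, (Un f l).card ≤ t - 1 := fun l _ => by
        have := hUnle l; omega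
      have h4 := sum_le_card_nsmul _ _ _ h3
      rw [card_erase_of_mem (mem_erase.2 ⟨hji, mem_univ j⟩), card_erase_of_mem (mem_univ i),
        card_univ, Fintype.card_fin] at h4
      exact h4
    rw [C.hWc] at hz
    obtain ⟨t', rfl⟩ : ∃ t', t = t' + 1 := ⟨t - 1, by omega⟩
    simp only [Nat.add_sub_cancel] at h2
    have e1 : (m + 3) * (t' + 1) = (m + 1) * t' + 2 * t' + m + 3 := by ring
    omega
  obtain ⟨Zi, hZi, hZic⟩ := exists_subset_card_eq
    (show t - 1 - (Un f i).card ≤ (W \ α.support).card by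
      have := hUnle j; omega)
  obtain ⟨Zj, hZj, hZjc⟩ := exists_subset_card_eq
    (show t - 1 - (Un f j).card ≤ ((W \ α.support) \ Zi).card by
      have := hUnle i
      have := hUnle j
      rw [card_sdiff_of_subset hZi]; omega)
  have hUα : ∀ l, Un f l ⊆ α.support := fun l => by
    have := (Un_sub f l).trans (supp_sub f l)
    rwa [hα] at this
  have hSα : ∀ l, Sh f l ⊆ α.support := fun l => by
    have := (Sh_sub f l).trans (supp_sub f l)
    rwa [hα] at this
  have hZi' : ∀ x ∈ Zi, x ∈ W ∧ x ∉ α.support := fun x hx => mem_sdiff.1 (hZi hx)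
  have hZj' : ∀ x ∈ Zj, x ∈ W ∧ x ∉ α.support ∧ x ∉ Zi := fun x hx => by
    have h1 := mem_sdiff.1 (hZj hx)
    exact ⟨(mem_sdiff.1 h1.1).1, (mem_sdiff.1 h1.1).2, h1.2⟩
  have hUnSh : ∀ l l' x, x ∈ Un f l → x ∈ Sh f l' → False := by
    intro l l' x h1 h2
    rw [Un, mem_filter] at h1
    rw [Sh, mem_filter] at h2
    exact h2.2 h1.2
  have hUU : ∀ x, x ∈ Un f i → x ∈ Un f j → False := by
    intro x h1 h2
    have h3 := (eq_of_mem_Un f h1).1 j hji
    have h4 := Un_sub f j h2
    rw [Finsupp.mem_support_iff] at h4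
    exact h4 h3
  have hle2 : f i + f j ≤ α := by
    rw [← hX'.sum, hdecomp, Multiset.sum_cons, Multiset.sum_cons, ← add_assoc]
    exact le_self_add
  have hdisjZ : ∀ l (Z : Finset σ), (∀ x ∈ Z, x ∉ α.support) → Disjoint (Un f l) Z := by
    intro l Z hZ
    rw [disjoint_left]
    exact fun x h1 h2 => hZ x h2 (hUα l h1)
  have hval : ∀ x, x ∉ α.support → (f i + f j) x = α x := by
    intro x hx
    have h1 := hle2 x
    rw [Finsupp.notMem_support_iff] at hx
    omega
  obtain ⟨P, c, r, hL, hr, hsum⟩ := C.cyc_exchange (hrow i) (hrow j) hle2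
    (v := v) (v' := v1) (v'' := v2) (Ui := Un f i) (Uj := Un f j) (Zi := Zi) (Zj := Zj)
    ((hUα i).trans C.hW) ((hUα j).trans C.hW) (fun x hx => (hZi' x hx).1)
    (fun x hx => (hZj' x hx).1) (C.hW (hSα i hv)) (C.hW (hSα i hv1'.2)) (C.hW (hSα j hv2'.2))
    (by
      intro x hx
      rcases mem_insert.1 hx with rfl | hx
      · rw [← hα, Finsupp.add_apply, Finsupp.finsetSum_apply,
          ← add_sum_erase _ _ (mem_univ i), ← add_sum_erase _ _ (mem_erase.2 ⟨hji, mem_univ j⟩),
          sum_eq_zero (s := (univ.erase i).erase j), add_zero]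
        intro l hl
        rw [mem_erase, mem_erase] at hl
        exact hother l hl.2.1 hl.1
      · rcases mem_union.1 hx with hx | hx
        · rcases mem_union.1 hx with hx | hx
          · have h1 := eq_of_mem_Un f hx
            rw [← hα, h1.2, Finsupp.add_apply, h1.1 j hji, add_zero]
          · exact hval x (hZi' x hx).2
        · rcases mem_union.1 hx with hx | hx
          · have h1 := eq_of_mem_Un f hx
            rw [← hα, h1.2, Finsupp.add_apply, h1.1 i hji.symm, zero_add]
          · exact hval x (hZj' x hx).2.1)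
    (by
      intro x hx
      rcases mem_union.1 (Finsupp.support_add hx) with hx | hx
      · by_cases hx' : mu f x ≤ 1
        · have : x ∈ Un f i := mem_filter.2 ⟨hx, hx'⟩
          simp only [mem_insert, mem_union]
          tauto
        · rcases hShi x (mem_filter.2 ⟨hx, hx'⟩) with rfl | rfl
          · simp
          · simp
      · by_cases hx' : mu f x ≤ 1
        · have : x ∈ Un f j := mem_filter.2 ⟨hx, hx'⟩
          simp only [mem_insert, mem_union]
          tauto
        · rcases hShj x (mem_filter.2 ⟨hx, hx'⟩) with rfl | rfl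
          · simp
          · simp)
    (by
      rw [card_union_of_disjoint (hdisjZ i Zi fun x hx => (hZi' x hx).2), hZic]
      have := hUnle i
      omega)
    (by
      rw [card_union_of_disjoint (hdisjZ j Zj fun x hx => (hZj' x hx).2.1), hZjc]
      have := hUnle j
      omega)
    (by
      rw [disjoint_left]
      intro x h1 h2
      rcases mem_union.1 h1 with h1 | h1
      · rcases mem_union.1 h2 with h2 | h2
        · exact hUU x h1 h2
        · exact (hZj' x h2).2.1 (hUα i h1)
      · rcases mem_union.1 h2 with h2 | h2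
        · exact (hZi' x h1).2 (hUα j h2)
        · exact (hZj' x h2).2.2 h1)
    (by
      intro h
      rcases mem_union.1 h with h | h
      · rcases mem_union.1 h with h | h
        · exact hUnSh i i v h hv
        · exact (hZi' v h).2 (hSα i hv)
      · rcases mem_union.1 h with h | h
        · exact hUnSh j i v h hv
        · exact (hZj' v h).2.1 (hSα i hv))
    (by
      intro h
      rcases mem_insert.1 h with h | h
      · exact hv1'.1 h
      rcases mem_union.1 h with h | h
      · rcases mem_union.1 h with h | h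
        · exact hUnSh i i v1 h hv1'.2
        · exact (hZi' v1 h).2 (hSα i hv1'.2)
      · rcases mem_union.1 h with h | h
        · exact hUnSh j i v1 h hv1'.2
        · exact (hZj' v1 h).2.1 (hSα i hv1'.2))
    (by
      intro h
      rcases mem_insert.1 h with h | h
      · exact hv2'.1 h
      rcases mem_union.1 h with h | h
      · rcases mem_union.1 h with h | h
        · exact hUnSh i j v2 h hv2'.2
        · exact (hZi' v2 h).2 (hSα j hv2'.2)
      · rcases mem_union.1 h with h | h
        · exact hUnSh j j v2 h hv2'.2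
        · exact (hZj' v2 h).2.1 (hSα j hv2'.2))
    hv12
    (by
      rw [sum_union (hdisjZ i Zi fun x hx => (hZi' x hx).2),
        sum_eq_zero (s := Zi) (fun x hx => by simpa using (hZi' x hx).2), add_zero]
      exact hlight)
  refine ⟨lrow α d P c ::ₘ r ::ₘ (((univ : Finset (Fin (m + 3))).erase i).erase j).val.map f,
    hXX'.trans ?_, P, c, hL, by simp⟩
  apply Step.linked
  exact ⟨f i, f j, _, _, _, hdecomp, rfl, hsum, hrow i, hrow j, hL.isRow, hr⟩

end Ctx

/-- Theorem T1. -/
theorem conn_of_card_le {t : ℕ} (ht : 2 ≤ t) (d : ℕ) : ∀ (k : ℕ) (α : σ →₀ ℕ) (W : Finset σ),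
    α.support ⊆ W → W.card = k * t + 1 → Conn d (t + 1) k α := by
  intro k
  induction k using Nat.strong_induction_on with
  | _ k ih =>
    intro α W hW hWc
    rcases Nat.lt_or_ge k 3 with hk | hk
    · interval_cases k
      · exact conn_zero
      · exact conn_one
      · exact conn_two
    · obtain ⟨m, rfl⟩ : ∃ m, k = m + 3 := ⟨k - 3, by omega⟩
      intro X Y hX hY
      have C : Ctx α d t m W := ⟨ht, hW, hWc, hX.degree, ih⟩
      obtain ⟨X', hXX', P, c, hP, hPX⟩ := C.exists_leaf_linked hX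
      obtain ⟨Y', hYY', Q, e, hQ, hQY⟩ := C.exists_leaf_linked hY
      exact hXX'.trans ((C.leaf_connected hP hQ X' Y' (hXX'.cfg hX) (hYY'.cfg hY) hPX hQY).trans
        hYY'.symm)

/-- Theorem T1 over an infinite set of variables. -/
theorem conn_of_card_support_le [Infinite σ] {t : ℕ} (ht : 2 ≤ t) (d k : ℕ) (α : σ →₀ ℕ)
    (h : α.support.card ≤ k * t + 1) : Conn d (t + 1) k α := by
  obtain ⟨W, hW, hWc⟩ := Infinite.exists_superset_card_eq α.support _ h
  exact conn_of_card_le ht d k α W hW hWc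

end Pool.Agent.Lib.MP_e26c3f_al
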