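import Mathlib
import Pool.Agent.Lib.MP_e26c3f_al.Tree

/-! Block decompositions of configurations. -/

set_option autoImplicit false
set_option linter.unusedSectionVars false

namespace Pool.Agent.Lib.MP_e26c3f_al

open Finset

variable {σ : Type*} [DecidableEq σ]
variable {α β : σ →₀ ℕ} {d s t k : ℕ} {J : Finset ℕ} {f g : σ → ℕ}

/-- The variables with label `j`. -/
def blk (α : σ →₀ ℕ) (f : σ → ℕ) (j : ℕ) : Finset σ := α.support.filter fun v => f v = j

lemma mem_blk {j : ℕ} {v : σ} : v ∈ blk α f j ↔ α v ≠ 0 ∧ f v = j := by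
  rw [blk, mem_filter, Finsupp.mem_support_iff]

/-- Every row of `X` uses variables of one label only. -/
def Compat (f : σ → ℕ) (X : Multiset (σ →₀ ℕ)) : Prop :=
  ∀ r ∈ X, ∃ j, ∀ v ∈ r.support, f v = j

/-- Tight states: label `j` has `k t + 1` variables and total degree `k d`. -/
structure TS (d t : ℕ) (α : σ →₀ ℕ) (J : Finset ℕ) (f : σ → ℕ) : Prop where
  mem : ∀ v ∈ α.support, f v ∈ J
  bk : ∀ j ∈ J, ∃ k, 1 ≤ k ∧ (blk α f j).card = k * t + 1 ∧ ∑ v ∈ blk α f j, α v = k * d

/-- Weak states. -/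
structure WS (d t : ℕ) (α : σ →₀ ℕ) (J : Finset ℕ) (f : σ → ℕ) : Prop where
  mem : ∀ v ∈ α.support, f v ∈ J
  bk : ∀ j ∈ J, ∃ k W, blk α f j ⊆ W ∧ W.card = k * t + 1 ∧
    ∑ v ∈ blk α f j, α v = k * d

lemma TS.ws (h : TS d t α J f) : WS d t α J f :=
  ⟨h.mem, fun j hj => by
    obtain ⟨k, _, h2, h3⟩ := h.bk j hj
    exact ⟨k, _, Subset.rfl, h2, h3⟩⟩

lemma support_filter_label (j : ℕ) :
    (α.filter fun v => f v = j).support = blk α f j := by
  rw [Finsupp.support_filter]; rfl

lemma sum_filter_label (j : ℕ) :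
    (α.filter fun v => f v = j).degree = ∑ v ∈ blk α f j, α v := by
  rw [Finsupp.degree_apply, support_filter_label]
  apply sum_congr rfl
  intro v hv
  rw [Finsupp.filter_apply, if_pos (mem_blk.1 hv).2]

/-- Splitting a configuration along a set of variables. -/
lemma split_cfg (p : σ → Prop) [DecidablePred p] : ∀ (X : Multiset (σ →₀ ℕ)) (k : ℕ) (α : σ →₀ ℕ),
    Cfg d s k α X → (∀ r ∈ X, (∀ v ∈ r.support, p v) ∨ (∀ v ∈ r.support, ¬ p v)) →
    ∃ X1 X2 k1 k2, X = X1 + X2 ∧ k = k1 + k2 ∧ Cfg d s k1 (α.filter p) X1 ∧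
      Cfg d s k2 (α.filter fun v => ¬ p v) X2 := by
  intro X
  induction X using Multiset.induction_on with
  | empty =>
    intro k α hX _
    have h1 : α = 0 := by rw [← hX.sum]; simp
    have h2 : k = 0 := by rw [← hX.card]; simp
    subst h1; subst h2
    refine ⟨0, 0, 0, 0, by simp, by simp, ?_, ?_⟩
    · exact ⟨by simp, by simp, by rw [Finsupp.filter_zero]; simp⟩
    · exact ⟨by simp, by simp, by rw [Finsupp.filter_zero]; simp⟩
  | cons r X ih =>
    intro k α hX h
    obtain ⟨k, rfl⟩ : ∃ k', k = k' + 1 := ⟨k - 1, by have := hX.card; simp at this; omega⟩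
    obtain ⟨X', β, hXX, hαβ, hX'⟩ := hX.exists_cons (u := r) (by simp)
    have : X' = X := ((Multiset.cons_inj_right r).1 hXX).symm
    subst this
    obtain ⟨X1, X2, k1, k2, rfl, rfl, h1, h2⟩ := ih k β hX' (fun u hu => h u (by simp [hu]))
    have hr := hX.row r (by simp)
    rcases h r (by simp) with h3 | h3
    · have e1 : r.filter p = r := by
        rw [Finsupp.filter_eq_self_iff]
        intro x hx
        exact h3 x (Finsupp.mem_support_iff.2 hx)
      have e2 : r.filter (fun v => ¬ p v) = 0 := by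
        rw [Finsupp.filter_eq_zero_iff]
        intro x hx
        by_contra hx0
        exact hx (h3 x (Finsupp.mem_support_iff.2 hx0))
      refine ⟨r ::ₘ X1, X2, k1 + 1, k2, by simp, by ring, ?_, ?_⟩
      · rw [hαβ, Finsupp.filter_add, e1]
        exact h1.cons hr
      · rw [hαβ, Finsupp.filter_add, e2, zero_add]
        exact h2
    · have e1 : r.filter p = 0 := by
        rw [Finsupp.filter_eq_zero_iff]
        intro x hx
        by_contra hx0
        exact h3 x (Finsupp.mem_support_iff.2 hx0) hx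
      have e2 : r.filter (fun v => ¬ p v) = r := by
        rw [Finsupp.filter_eq_self_iff]
        intro x hx
        exact h3 x (Finsupp.mem_support_iff.2 hx)
      refine ⟨X1, r ::ₘ X2, k1, k2 + 1, by simp, by ring, ?_, ?_⟩
      · rw [hαβ, Finsupp.filter_add, e1, zero_add]
        exact h1
      · rw [hαβ, Finsupp.filter_add, e2]
        exact h2.cons hr

lemma blk_filter_ne {i j : ℕ} (h : i ≠ j) :
    blk (α.filter fun v => ¬ f v = j) f i = blk α f i := by
  ext v
  rw [mem_blk, mem_blk, Finsupp.filter_apply]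
  constructor
  · rintro ⟨h1, h2⟩
    split_ifs at h1 with h3
    · exact absurd rfl h1
    · exact ⟨h1, h2⟩
  · rintro ⟨h1, h2⟩
    rw [if_pos (by rw [h2]; exact h)]
    exact ⟨h1, h2⟩

lemma WS.tail {j : ℕ} (hj : j ∉ J) (h : WS d t α (insert j J) f) :
    WS d t (α.filter fun v => ¬ f v = j) J f := by
  refine ⟨?_, ?_⟩
  · intro v hv
    rw [Finsupp.support_filter, mem_filter] at hv
    rcases mem_insert.1 (h.mem v hv.1) with h1 | h1
    · exact absurd h1 hv.2
    · exact h1
  · intro i hi
    have hij : i ≠ j := fun e => hj (e ▸ hi)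
    obtain ⟨k, W, h1, h2, h3⟩ := h.bk i (mem_insert_of_mem hi)
    refine ⟨k, W, ?_, h2, ?_⟩
    · rw [blk_filter_ne hij]; exact h1
    · rw [blk_filter_ne hij, ← h3]
      apply sum_congr rfl
      intro v hv
      rw [Finsupp.filter_apply, if_pos]
      rw [(mem_blk.1 hv).2]; exact hij

lemma Compat.split {X : Multiset (σ →₀ ℕ)} (h : Compat f X) (j : ℕ) :
    ∀ r ∈ X, (∀ v ∈ r.support, f v = j) ∨ (∀ v ∈ r.support, ¬ f v = j) := by
  intro r hr
  obtain ⟨i, hi⟩ := h r hr
  by_cases hij : i = j
  · left; intro v hv; rw [hi v hv, hij]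
  · right; intro v hv; rw [hi v hv]; exact hij

lemma Linked.add {X X' Y Y' : Multiset (σ →₀ ℕ)} (h : Linked d s X X') (h' : Linked d s Y Y') :
    Linked d s (X + Y) (X' + Y') :=
  (h.add_right Y).trans (h'.add_left X')

/-- Two configurations compatible with the same weak state are linked. -/
lemma linked_of_compat (ht : 2 ≤ t) (hd : 1 ≤ d) (f : σ → ℕ) : ∀ (J : Finset ℕ) (α : σ →₀ ℕ)
    (k k' : ℕ) (X Y : Multiset (σ →₀ ℕ)), WS d t α J f → Cfg d (t + 1) k α X →
    Cfg d (t + 1) k' α Y → Compat f X → Compat f Y → Linked d (t + 1) X Y := by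
  intro J
  induction J using Finset.induction_on with
  | empty =>
    intro α k k' X Y hf hX hY _ _
    have h0 : α = 0 := by
      rw [← Finsupp.support_eq_empty, eq_empty_iff_forall_notMem]
      intro v hv
      simpa using hf.mem v hv
    have h1 : ∀ (k : ℕ) (X : Multiset (σ →₀ ℕ)), Cfg d (t + 1) k α X → X = 0 := by
      intro k X hX
      have := hX.degree
      rw [h0, map_zero] at this
      rcases Nat.eq_zero_or_pos k with h | h
      · rw [h] at hX
        exact Multiset.card_eq_zero.1 hX.card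
      · have := Nat.mul_pos h hd
        omega
    rw [h1 k X hX, h1 k' Y hY]
    exact Linked.refl _
  | insert j J hj ih =>
    intro α k k' X Y hf hX hY hfX hfY
    obtain ⟨X1, X2, k1, k2, rfl, rfl, hX1, hX2⟩ := split_cfg (fun v => f v = j) X k α hX
      (hfX.split j)
    obtain ⟨Y1, Y2, l1, l2, rfl, rfl, hY1, hY2⟩ := split_cfg (fun v => f v = j) Y k' α hY
      (hfY.split j)
    have e1 : k1 = l1 := by
      have h1 := hX1.degree
      have h2 := hY1.degree
      rw [h1] at h2
      exact Nat.eq_of_mul_eq_mul_right hd h2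
    subst e1
    apply Linked.add
    · obtain ⟨m, W, h1, h2, h3⟩ := hf.bk j (mem_insert_self _ _)
      have e2 : m = k1 := by
        have h4 := hX1.degree
        rw [sum_filter_label, h3] at h4
        exact Nat.eq_of_mul_eq_mul_right hd h4
      subst e2
      exact conn_of_card_le ht d m _ W (by rw [support_filter_label]; exact h1) h2 X1 Y1 hX1 hY1
    · refine ih _ k2 l2 X2 Y2 (hf.tail hj) hX2 hY2 ?_ ?_
      · intro r hr; exact hfX r (by simp [hr])
      · intro r hr; exact hfY r (by simp [hr])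

lemma compat_of_le {X : Multiset (σ →₀ ℕ)} {k j : ℕ}
    (hX : Cfg d s k (α.filter fun v => f v = j) X) : Compat f X := by
  intro r hr
  refine ⟨j, fun v hv => ?_⟩
  have h1 := Finsupp.support_mono (hX.le hr) hv
  rw [support_filter_label] at h1
  exact (mem_blk.1 h1).2

/-- Weak states are realised. -/
lemma exists_compat (f : σ → ℕ) : ∀ (J : Finset ℕ) (α : σ →₀ ℕ),
    WS d t α J f → ∃ k X, Cfg d (t + 1) k α X ∧ Compat f X := by
  intro J
  induction J using Finset.induction_on with
  | empty =>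
    intro α hf
    have h0 : α = 0 := by
      rw [← Finsupp.support_eq_empty, eq_empty_iff_forall_notMem]
      intro v hv
      simpa using hf.mem v hv
    exact ⟨0, 0, ⟨by simp, by simp, by simp [h0]⟩, by intro r hr; simp at hr⟩
  | insert j J hj ih =>
    intro α hf
    obtain ⟨k2, X2, hX2, hc2⟩ := ih _ (hf.tail hj)
    obtain ⟨m, W, h1, h2, h3⟩ := hf.bk j (mem_insert_self _ _)
    obtain ⟨X1, hX1, -⟩ := exists_cfg t d m (α.filter fun v => f v = j) W
      (by rw [support_filter_label]; exact h1) h2 (by rw [sum_filter_label, h3])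
    refine ⟨m + k2, X1 + X2, ⟨?_, ?_, ?_⟩, ?_⟩
    · intro u hu
      rcases Multiset.mem_add.1 hu with hu | hu
      · exact hX1.row u hu
      · exact hX2.row u hu
    · rw [Multiset.card_add, hX1.card, hX2.card]
    · rw [Multiset.sum_add, hX1.sum, hX2.sum]
      exact Finsupp.filter_add_filter_not α _
    · intro u hu
      rcases Multiset.mem_add.1 hu with hu | hu
      · exact compat_of_le hX1 u hu
      · exact hc2 u hu

end Pool.Agent.Lib.MP_e26c3f_al
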