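import Mathlib
import Pool.Agent.Lib.MP_e26c3f_al.Leaf

/-! Fibres with three rows and `3 s - 1` variables (theorem T2). -/

set_option autoImplicit false
set_option linter.unusedSectionVars false

namespace Pool.Agent.Lib.MP_e26c3f_al

open Finset

variable {σ : Type*} [DecidableEq σ]

/-- A row made of complete variables. -/
noncomputable def crow (α : σ →₀ ℕ) (C : Finset σ) : σ →₀ ℕ := α.filter (· ∈ C)

/-- `C` is the support of a full closed row. -/
structure Closed (α : σ →₀ ℕ) (d s : ℕ) (C : Finset σ) : Prop where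
  sub : C ⊆ α.support
  card : C.card = s
  sum : ∑ i ∈ C, α i = d

variable {α : σ →₀ ℕ} {d s : ℕ} {C D : Finset σ}

lemma crow_apply (α : σ →₀ ℕ) (C : Finset σ) (x : σ) :
    crow α C x = if x ∈ C then α x else 0 := by
  rw [crow, Finsupp.filter_apply]

lemma support_crow (α : σ →₀ ℕ) (C : Finset σ) : (crow α C).support ⊆ C := by
  intro x hx
  rw [Finsupp.mem_support_iff, crow_apply] at hx
  by_contra h
  simp [h] at hx

lemma Closed.isRow (h : Closed α d s C) : IsRow d s (crow α C) := by
  refine ⟨?_, ?_⟩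
  · rw [crow, degree_filter, h.sum]
  · exact (card_le_card (support_crow α C)).trans h.card.le

lemma exists_closed {X : Multiset (σ →₀ ℕ)} (hX : Cfg d s 3 α X)
    (hc : α.support.card + 1 = 3 * s) : ∃ C, Closed α d s C ∧ crow α C ∈ X := by
  obtain ⟨u, v, w, rfl⟩ := Multiset.card_eq_three.1 hX.card
  have hsum : u + (v + w) = α := by
    have := hX.sum
    simpa using this
  have hu := hX.row u (by simp)
  have hv := hX.row v (by simp)
  have hw := hX.row w (by simp)
  have key : ∀ a b c : σ →₀ ℕ, a + (b + c) = α → IsRow d s a → IsRow d s b → IsRow d s c →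
      (Closed α d s a.support ∧ crow α a.support = a) ∨
      (b.support.card = s ∧ c.support.card = s ∧ Disjoint b.support c.support) := by
    intro a b c habc ha hb hc'
    have hsupp : α.support = a.support ∪ (b.support ∪ c.support) := by
      ext x
      rw [← habc]
      simp only [Finsupp.mem_support_iff, Finsupp.add_apply, mem_union]
      omega
    have h1 := card_union_add_card_inter a.support (b.support ∪ c.support)
    have h2 := card_union_add_card_inter b.support c.support
    rw [← hsupp] at h1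
    have ha2 := ha.2
    have hb2 := hb.2
    have hc2 := hc'.2
    by_cases hd : a.support.card = s ∧ Disjoint a.support (b.support ∪ c.support)
    · left
      have h3 : ∀ x ∈ a.support, α x = a x := by
        intro x hx
        have h4 := disjoint_left.1 hd.2 hx
        rw [mem_union, not_or, Finsupp.notMem_support_iff, Finsupp.notMem_support_iff] at h4
        rw [← habc, Finsupp.add_apply, Finsupp.add_apply, h4.1, h4.2]
        rfl
      refine ⟨⟨?_, hd.1, ?_⟩, ?_⟩
      · rw [hsupp]; exact subset_union_left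
      · rw [sum_congr rfl h3, sum_of_support_subset subset_rfl]; exact ha.1
      · ext x
        rw [crow_apply]
        split_ifs with hx
        · exact h3 x hx
        · exact (Finsupp.notMem_support_iff.1 hx).symm
    · right
      have h5 : a.support.card < s ∨ 0 < (a.support ∩ (b.support ∪ c.support)).card := by
        by_contra h
        push Not at h
        apply hd
        refine ⟨by omega, ?_⟩
        rw [disjoint_iff_inter_eq_empty, ← card_eq_zero]
        omega
      have h6 : (b.support ∩ c.support).card = 0 := by omega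
      refine ⟨by omega, by omega, ?_⟩
      rw [disjoint_iff_inter_eq_empty, ← card_eq_zero]
      exact h6
  rcases key u v w hsum hu hv hw with h1 | h1
  · exact ⟨_, h1.1, by rw [h1.2]; simp⟩
  rcases key v u w (by rw [← hsum]; abel) hv hu hw with h2 | h2
  · exact ⟨_, h2.1, by rw [h2.2]; simp⟩
  rcases key w u v (by rw [← hsum]; abel) hw hu hv with h3 | h3
  · exact ⟨_, h3.1, by rw [h3.2]; simp⟩
  -- all disjoint
  exfalso
  have hsupp : α.support = u.support ∪ (v.support ∪ w.support) := by
    ext x
    rw [← hsum]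
    simp only [Finsupp.mem_support_iff, Finsupp.add_apply, mem_union]
    omega
  have h4 : Disjoint u.support (v.support ∪ w.support) := by
    rw [disjoint_union_right]
    exact ⟨h3.2.2, h2.2.2⟩
  rw [hsupp, card_union_of_disjoint h4, card_union_of_disjoint h1.2.2] at hc
  omega

lemma Closed.exists_add (h : Closed α d s C) :
    ∃ β, α = crow α C + β ∧ β.support ⊆ α.support \ C := by
  have hle : crow α C ≤ α := by
    intro x
    rw [crow_apply]
    split_ifs <;> simp
  obtain ⟨β, hβ⟩ := exists_add_of_le hle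
  refine ⟨β, hβ, ?_⟩
  intro x hx
  rw [Finsupp.mem_support_iff] at hx
  have h1 : α x = crow α C x + β x := by
    conv_lhs => rw [hβ]
    rfl
  rw [crow_apply] at h1
  rw [mem_sdiff, Finsupp.mem_support_iff]
  constructor
  · omega
  · intro hxC
    rw [if_pos hxC] at h1
    omega

lemma Closed.exists_cfg (h : Closed α d (s + 1) C) (hc : α.support.card + 1 = 3 * (s + 1))
    (hdeg : α.degree = 3 * d) : ∃ X, Cfg d (s + 1) 3 α X ∧ crow α C ∈ X := by
  obtain ⟨β, hβ, hβs⟩ := h.exists_add
  obtain ⟨X, hX, -⟩ := MP_e26c3f_al.exists_cfg s d 2 β (α.support \ C) hβs (by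
    rw [card_sdiff_of_subset h.sub, h.card]; omega) (by
    have h9 : α.degree = (crow α C).degree + β.degree := by
      rw [← map_add, ← hβ]
    rw [h.isRow.1, hdeg] at h9
    omega)
  refine ⟨crow α C ::ₘ X, ?_, by simp⟩
  have := hX.cons h.isRow
  rwa [← hβ] at this

lemma linked_of_closed (h : Closed α d s C) {X Y : Multiset (σ →₀ ℕ)} (hX : Cfg d s 3 α X)
    (hY : Cfg d s 3 α Y) (hCX : crow α C ∈ X) (hCY : crow α C ∈ Y) : Linked d s X Y := by
  obtain ⟨β, hβ, -⟩ := h.exists_add
  exact linked_of_mem (k := 2) conn_two hβ hX hY hCX hCY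

/-- Configurations containing one closed row are linked to those containing the other. -/
def CC (α : σ →₀ ℕ) (d s : ℕ) (C D : Finset σ) : Prop :=
  ∀ X Y, Cfg d s 3 α X → Cfg d s 3 α Y → crow α C ∈ X → crow α D ∈ Y → Linked d s X Y

lemma CC.symm (h : CC α d s C D) : CC α d s D C :=
  fun X Y hX hY h1 h2 => (h Y X hY hX h2 h1).symm

lemma CC.trans {E : Finset σ} (hD : Closed α d (s + 1) D)
    (hc : α.support.card + 1 = 3 * (s + 1)) (hdeg : α.degree = 3 * d)
    (h : CC α d (s + 1) C D) (h' : CC α d (s + 1) D E) : CC α d (s + 1) C E := by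
  intro X Y hX hY h1 h2
  obtain ⟨Z, hZ, hDZ⟩ := hD.exists_cfg hc hdeg
  exact (h X Z hX hZ h1 hDZ).trans (h' Z Y hZ hY hDZ h2)

/-- Exchanging two variables of exponent one. -/
lemma cc_ones (hC : Closed α d s C) {x y : σ} (hx : x ∈ C) (hy : y ∉ C) (hαx : α x = 1)
    (hαy : α y = 1) : Closed α d s (insert y (C.erase x)) ∧
      CC α d s C (insert y (C.erase x)) := by
  have hcl : Closed α d s (insert y (C.erase x)) := by
    refine ⟨?_, ?_, ?_⟩
    · apply insert_subset
      · rw [Finsupp.mem_support_iff]; omega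
      · exact (erase_subset _ _).trans hC.sub
    · rw [card_swap hx hy, hC.card]
    · have := sum_swap α hx hy
      rw [hC.sum] at this
      omega
  refine ⟨hcl, ?_⟩
  intro X Y hX hY h1 h2
  have hxy : x ≠ y := fun e => hy (e ▸ hx)
  obtain ⟨X', β, rfl, hβ, hX'⟩ := hX.exists_cons h1
  obtain ⟨r, hr⟩ : ∃ r ∈ X', r y ≠ 0 := by
    by_contra hcon
    push Not at hcon
    have h3 : ∀ Z : Multiset (σ →₀ ℕ), (∀ r ∈ Z, r y = 0) → Z.sum y = 0 := by
      intro Z
      induction Z using Multiset.induction_on with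
      | empty => intro _; simp
      | cons u Z ih =>
        intro hZ
        rw [Multiset.sum_cons, Finsupp.add_apply, hZ u (by simp), ih (fun r hr => hZ r (by simp [hr]))]
    have h4 := h3 X' hcon
    rw [hX'.sum] at h4
    have h5 : α y = crow α C y + β y := by
      conv_lhs => rw [hβ]
      rfl
    rw [crow_apply, if_neg hy] at h5
    omega
  obtain ⟨hrX, hry⟩ := hr
  have hrle : r ≤ β := hX'.le hrX
  have hβx : β x = 0 := by
    have h5 : α x = crow α C x + β x := by
      conv_lhs => rw [hβ]
      rfl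
    rw [crow_apply, if_pos hx] at h5
    omega
  have hrx : r x = 0 := by
    have := hrle x
    omega
  have hβy : β y ≤ 1 := by
    have h5 : α y = crow α C y + β y := by
      conv_lhs => rw [hβ]
      rfl
    rw [crow_apply, if_neg hy] at h5
    omega
  have hry1 : r y = 1 := by
    have := hrle y
    omega
  obtain ⟨X'', rfl⟩ := Multiset.exists_cons_of_mem hrX
  -- new second row
  obtain ⟨r0, hr0⟩ : ∃ r0, r = Finsupp.single y 1 + r0 := by
    apply exists_add_of_le
    rw [Finsupp.single_le_iff]; omega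
  have hr0y : r0 y = 0 := by
    have : r y = 1 + r0 y := by rw [hr0]; simp
    omega
  have hrrow := hX'.row r (by simp)
  have hr' : IsRow d s (Finsupp.single x 1 + r0) := by
    refine ⟨?_, ?_⟩
    · rw [← hrrow.1, hr0, map_add, map_add, Finsupp.degree_single, Finsupp.degree_single]
    · refine le_trans ?_ hrrow.2
      have h6 : (Finsupp.single x 1 + r0).support ⊆ insert x (r.support.erase y) := by
        intro z hz
        rw [Finsupp.mem_support_iff, Finsupp.add_apply, Finsupp.single_apply] at hz
        rw [mem_insert, mem_erase, Finsupp.mem_support_iff]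
        by_cases hzx : z = x
        · exact Or.inl hzx
        · right
          rw [if_neg (Ne.symm hzx), zero_add] at hz
          refine ⟨?_, ?_⟩
          · rintro rfl; exact hz hr0y
          · rw [hr0, Finsupp.add_apply]; omega
      refine (card_le_card h6).trans ?_
      refine (card_insert_le _ _).trans ?_
      rw [card_erase_of_mem (by rw [Finsupp.mem_support_iff]; exact hry)]
      have : 0 < r.support.card := card_pos.2 ⟨y, by rw [Finsupp.mem_support_iff]; exact hry⟩
      omega
  have hsum : crow α C + r = crow α (insert y (C.erase x)) + (Finsupp.single x 1 + r0) := by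
    rw [hr0]
    ext z
    simp only [Finsupp.add_apply, crow_apply, Finsupp.single_apply, mem_insert, mem_erase]
    by_cases hzx : z = x
    · subst hzx
      simp [hx, hxy, hαx, Ne.symm hxy]
    · by_cases hzy : z = y
      · subst hzy
        simp [hy, hαy, hxy]
      · simp [hzx, hzy, Ne.symm hzx, Ne.symm hzy]
  have hstep : Step d s (crow α C ::ₘ r ::ₘ X'')
      (crow α (insert y (C.erase x)) ::ₘ (Finsupp.single x 1 + r0) ::ₘ X'') :=
    ⟨_, _, _, _, _, rfl, rfl, hsum, hC.isRow, hrrow, hcl.isRow, hr'⟩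
  exact hstep.linked.trans
    (linked_of_closed hcl (hstep.cfg hX) hY (by simp) h2)

/-- Two disjoint closed rows. -/
lemma cc_disjoint (hC : Closed α d (s + 1) C) (hD : Closed α d (s + 1) D)
    (hc : α.support.card + 1 = 3 * (s + 1)) (hdeg : α.degree = 3 * d)
    (hdj : Disjoint C D) : CC α d (s + 1) C D := by
  obtain ⟨β, hβ, hβs⟩ := hC.exists_add
  have hβD : ∀ x ∈ D, β x = α x := by
    intro x hx
    have h5 : α x = crow α C x + β x := by
      conv_lhs => rw [hβ]
      rfl
    rw [crow_apply, if_neg (disjoint_right.1 hdj hx)] at h5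
    omega
  have hle : crow α D ≤ β := by
    intro x
    rw [crow_apply]
    split_ifs with h
    · rw [hβD x h]
    · simp
  obtain ⟨γ, hγ⟩ := exists_add_of_le hle
  have hγs : γ.support ⊆ (α.support \ C) \ D := by
    intro x hx
    rw [Finsupp.mem_support_iff] at hx
    have h5 : β x = crow α D x + γ x := by
      conv_lhs => rw [hγ]
      rfl
    rw [mem_sdiff]
    refine ⟨hβs (by rw [Finsupp.mem_support_iff]; omega), fun h => ?_⟩
    rw [crow_apply, if_pos h, hβD x h] at h5
    omega
  have hγrow : IsRow d (s + 1) γ := by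
    refine ⟨?_, ?_⟩
    · have h9 : α.degree = (crow α C).degree + β.degree := by
        rw [← map_add, ← hβ]
      have h10 : β.degree = (crow α D).degree + γ.degree := by
        rw [← map_add, ← hγ]
      rw [hC.isRow.1, hdeg] at h9
      rw [hD.isRow.1] at h10
      omega
    · refine (card_le_card hγs).trans ?_
      have hDs : D ⊆ α.support \ C := fun x hx =>
        mem_sdiff.2 ⟨hD.sub hx, disjoint_right.1 hdj hx⟩
      rw [card_sdiff_of_subset hDs, card_sdiff_of_subset hC.sub, hC.card, hD.card]
      omega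
  have hZ : Cfg d (s + 1) 3 α {crow α C, crow α D, γ} := by
    refine ⟨?_, by simp, ?_⟩
    · intro u hu
      simp only [Multiset.insert_eq_cons, Multiset.mem_cons, Multiset.mem_singleton] at hu
      rcases hu with rfl | rfl | rfl
      · exact hC.isRow
      · exact hD.isRow
      · exact hγrow
    · simp only [Multiset.insert_eq_cons, Multiset.sum_cons, Multiset.sum_singleton]
      rw [← hγ, ← hβ]
  intro X Y hX hY h1 h2
  exact (linked_of_closed hC hX hZ h1 (by simp)).trans (linked_of_closed hD hZ hY (by simp) h2)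

/-- Exchange of `C \ D` and `D \ C` through a leaf row. -/
lemma cc_exchange (hC : Closed α d (s + 1) C) (hD : Closed α d (s + 1) D)
    (hc : α.support.card + 1 = 3 * (s + 1)) (hdeg : α.degree = 3 * d) {A : Finset σ} {z : σ}
    (hA : A ⊆ α.support \ (C ∪ D)) (hz : z ∈ α.support \ (C ∪ D)) (hzA : z ∉ A)
    (hAc : A.card + (D \ C).card = s) (h1 : ∑ i ∈ D \ C, α i + ∑ i ∈ A, α i ≤ d)
    (h2 : d ≤ ∑ i ∈ D \ C, α i + ∑ i ∈ A, α i + α z) : CC α d (s + 1) C D := by
  have hcard : (C \ D).card = (D \ C).card := by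
    have e1 := card_sdiff_add_card_inter C D
    have e2 := card_sdiff_add_card_inter D C
    rw [inter_comm] at e2
    rw [hC.card] at e1
    rw [hD.card] at e2
    omega
  have hsumeq : ∑ i ∈ C \ D, α i = ∑ i ∈ D \ C, α i := by
    have e1 : ∑ i ∈ C ∩ D, α i + ∑ i ∈ C \ D, α i = ∑ i ∈ C, α i :=
      sum_inter_add_sum_sdiff C D α
    have e2 : ∑ i ∈ D ∩ C, α i + ∑ i ∈ D \ C, α i = ∑ i ∈ D, α i :=
      sum_inter_add_sum_sdiff D C α
    rw [inter_comm] at e2
    rw [hC.sum] at e1
    rw [hD.sum] at e2
    omega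
  have hA' : ∀ x ∈ A, x ∈ α.support ∧ x ∉ C ∧ x ∉ D := by
    intro x hx
    have := mem_sdiff.1 (hA hx)
    rw [mem_union, not_or] at this
    exact this
  have hz' : z ∈ α.support ∧ z ∉ C ∧ z ∉ D := by
    have := mem_sdiff.1 hz
    rw [mem_union, not_or] at this
    exact this
  have hdj1 : Disjoint (D \ C) A := by
    rw [disjoint_left]
    exact fun x h1 h2 => (hA' x h2).2.2 (mem_sdiff.1 h1).1
  have hdj2 : Disjoint (C \ D) A := by
    rw [disjoint_left]
    exact fun x h1 h2 => (hA' x h2).2.1 (mem_sdiff.1 h1).1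
  have hs1 : ∑ i ∈ D \ C ∪ A, α i = ∑ i ∈ D \ C, α i + ∑ i ∈ A, α i := sum_union hdj1
  have hs2 : ∑ i ∈ C \ D ∪ A, α i = ∑ i ∈ C \ D, α i + ∑ i ∈ A, α i := sum_union hdj2
  have L1 : Leaf α d s α.support (D \ C ∪ A) z := by
    refine ⟨?_, ?_, hz'.1, ?_, by omega, by omega⟩
    · apply union_subset (sdiff_subset.trans hD.sub) (hA.trans sdiff_subset)
    · rw [card_union_of_disjoint hdj1]; omega
    · rw [mem_union, mem_sdiff]; tauto
  have L2 : Leaf α d s α.support (C \ D ∪ A) z := by
    refine ⟨?_, ?_, hz'.1, ?_, by omega, by omega⟩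
    · apply union_subset (sdiff_subset.trans hC.sub) (hA.trans sdiff_subset)
    · rw [card_union_of_disjoint hdj2]; omega
    · rw [mem_union, mem_sdiff]; tauto
  have hsum : crow α C + lrow α d (D \ C ∪ A) z = crow α D + lrow α d (C \ D ∪ A) z := by
    ext x
    rw [Finsupp.add_apply, Finsupp.add_apply, crow_apply, crow_apply, lrow_apply, lrow_apply,
      hs1, hs2, hsumeq]
    have hAx := hA' x
    by_cases hxC : x ∈ C
    · have hxA : x ∉ A := fun h => (hAx h).2.1 hxC
      by_cases hxD : x ∈ D
      · simp [hxC, hxD, hxA]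
      · simp [hxC, hxD, hxA]
    · by_cases hxD : x ∈ D
      · have hxA : x ∉ A := fun h => (hAx h).2.2 hxD
        simp [hxC, hxD, hxA]
      · simp [hxC, hxD]
  obtain ⟨β, hβ, hβs⟩ := hC.exists_add
  have hle : lrow α d (D \ C ∪ A) z ≤ β := by
    intro x
    have h5 : α x = crow α C x + β x := by
      conv_lhs => rw [hβ]
      rfl
    rw [crow_apply] at h5
    have h6 := L1.lrow_le x
    by_cases hxC : x ∈ C
    · have hxA : x ∉ A := fun h => (hA' x h).2.1 hxC
      have hxz : x ≠ z := fun e => hz'.2.1 (e ▸ hxC)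
      rw [lrow_apply]
      simp [hxC, hxA, hxz]
    · rw [if_neg hxC] at h5
      omega
  obtain ⟨γ, hγ⟩ := exists_add_of_le hle
  have hγs : γ.support ⊆ (α.support \ C) \ (D \ C ∪ A) := by
    intro x hx
    rw [Finsupp.mem_support_iff] at hx
    have h5 : β x = lrow α d (D \ C ∪ A) z x + γ x := by
      conv_lhs => rw [hγ]
      rfl
    rw [mem_sdiff]
    have h7 : x ∈ β.support := by rw [Finsupp.mem_support_iff]; omega
    refine ⟨hβs h7, fun h => ?_⟩
    rw [lrow_apply, if_pos h] at h5
    have h6 : α x = crow α C x + β x := by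
      conv_lhs => rw [hβ]
      rfl
    have h8 := (mem_sdiff.1 (hβs h7)).2
    rw [crow_apply, if_neg h8] at h6
    omega
  have hγrow : IsRow d (s + 1) γ := by
    refine ⟨?_, ?_⟩
    · have h9 : α.degree = (crow α C).degree + β.degree := by
        rw [← map_add, ← hβ]
      have h10 : β.degree = (lrow α d (D \ C ∪ A) z).degree + γ.degree := by
        rw [← map_add, ← hγ]
      rw [hC.isRow.1, hdeg] at h9
      rw [L1.isRow.1] at h10
      omega
    · refine (card_le_card hγs).trans ?_
      have hDs : D \ C ∪ A ⊆ α.support \ C := by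
        intro x hx
        rcases mem_union.1 hx with h | h
        · exact mem_sdiff.2 ⟨hD.sub (mem_sdiff.1 h).1, (mem_sdiff.1 h).2⟩
        · exact mem_sdiff.2 ⟨(hA' x h).1, (hA' x h).2.1⟩
      rw [card_sdiff_of_subset hDs, card_sdiff_of_subset hC.sub, hC.card, L1.card]
      omega
  have hZ : Cfg d (s + 1) 3 α (crow α C ::ₘ lrow α d (D \ C ∪ A) z ::ₘ {γ}) := by
    refine ⟨?_, by simp, ?_⟩
    · intro u hu
      simp only [Multiset.mem_cons, Multiset.mem_singleton] at hu
      rcases hu with rfl | rfl | rfl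
      · exact hC.isRow
      · exact L1.isRow
      · exact hγrow
    · simp only [Multiset.sum_cons, Multiset.sum_singleton]
      rw [← hγ, ← hβ]
  have hstep : Step d (s + 1) (crow α C ::ₘ lrow α d (D \ C ∪ A) z ::ₘ {γ})
      (crow α D ::ₘ lrow α d (C \ D ∪ A) z ::ₘ {γ}) :=
    ⟨_, _, _, _, _, rfl, rfl, hsum, hC.isRow, L1.isRow, hD.isRow, L2.isRow⟩
  intro X Y hX hY h1 h2
  exact (linked_of_closed hC hX hZ h1 (by simp)).trans (hstep.linked.trans
    (linked_of_closed hD (hstep.cfg hZ) hY (by simp) h2))

/-- The exchange is possible. -/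
def Exch (α : σ →₀ ℕ) (d s : ℕ) (C D : Finset σ) : Prop :=
  ∃ A ⊆ α.support \ (C ∪ D), ∃ z ∈ α.support \ (C ∪ D), z ∉ A ∧ A.card + (D \ C).card = s ∧
    ∑ i ∈ D \ C, α i + ∑ i ∈ A, α i ≤ d ∧ d ≤ ∑ i ∈ D \ C, α i + ∑ i ∈ A, α i + α z

/-- Theorem T2, abstract form. -/
lemma conn_closed (hc : α.support.card + 1 = 3 * (s + 1))
    (H : ∀ C D, Closed α d (s + 1) C → Closed α d (s + 1) D → C ≠ D → ¬ Disjoint C D →
      Exch α d s C D ∨ Exch α d s D C ∨ ((∃ x ∈ C \ D, α x = 1) ∧ ∃ y ∈ D \ C, α y = 1)) :
    Conn d (s + 1) 3 α := by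
  intro X Y hX hY
  have hdeg := hX.degree
  have main : ∀ (n : ℕ) (C D : Finset σ), Closed α d (s + 1) C → Closed α d (s + 1) D →
      (D \ C).card = n → CC α d (s + 1) C D := by
    intro n
    induction n with
    | zero =>
      intro C D hC hD h
      rw [card_eq_zero, sdiff_eq_empty_iff_subset] at h
      have : D = C := eq_of_subset_of_card_le h (by rw [hC.card, hD.card])
      subst this
      intro X Y hX hY h1 h2
      exact linked_of_closed hC hX hY h1 h2
    | succ n ih =>
      intro C D hC hD h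
      have hCD : C ≠ D := by
        rintro rfl
        simp at h
      by_cases hdj : Disjoint C D
      · exact cc_disjoint hC hD hc hdeg hdj
      rcases H C D hC hD hCD hdj with h1 | h1 | ⟨⟨x, hx, hx1⟩, y, hy, hy1⟩
      · obtain ⟨A, hA, z, hz, hzA, h1, h2, h3⟩ := h1
        exact cc_exchange hC hD hc hdeg hA hz hzA h1 h2 h3
      · obtain ⟨A, hA, z, hz, hzA, h1, h2, h3⟩ := h1
        exact (cc_exchange hD hC hc hdeg hA hz hzA h1 h2 h3).symm
      · rw [mem_sdiff] at hx hy
        obtain ⟨h3, h4⟩ := cc_ones hC hx.1 hy.2 hx1 hy1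
        refine CC.trans h3 hc hdeg h4 (ih _ D h3 hD ?_)
        have h5 : D \ insert y (C.erase x) = (D \ C).erase y := by
          ext z
          simp only [mem_sdiff, mem_insert, mem_erase, not_or, not_and]
          constructor
          · rintro ⟨k1, k2, k3⟩
            exact ⟨k2, k1, k3 fun e => hx.2 (e ▸ k1)⟩
          · rintro ⟨k1, k2, k3⟩
            exact ⟨k2, k1, fun _ => k3⟩
        rw [h5, card_erase_of_mem (mem_sdiff.2 hy), h]
        rfl
  obtain ⟨C, hC, hCX⟩ := exists_closed hX hc
  obtain ⟨D, hD, hDY⟩ := exists_closed hY hc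
  exact main _ C D hC hD rfl X Y hX hY hCX hDY

end Pool.Agent.Lib.MP_e26c3f_al
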