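import Mathlib
import Pool.Agent.Lib.MP_e26c3f_al.Closed

/-! Numerical conditions for theorem T2. -/

set_option autoImplicit false
set_option linter.unusedSectionVars false

namespace Pool.Agent.Lib.MP_e26c3f_al

open Finset

variable {σ : Type*} [DecidableEq σ]

variable {α : σ →₀ ℕ} {d s : ℕ} {C D : Finset σ}

lemma exch_of
    (h1 : ∃ A ⊆ α.support \ (C ∪ D), A.card + (D \ C).card = s ∧
      ∑ i ∈ D \ C, α i + ∑ i ∈ A, α i ≤ d)
    (h2 : ∃ A ⊆ α.support \ (C ∪ D), A.card + (D \ C).card = s + 1 ∧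
      d ≤ ∑ i ∈ D \ C, α i + ∑ i ∈ A, α i) : Exch α d s C D := by
  obtain ⟨A, hA, hAc, hAd⟩ := h1
  obtain ⟨B, hB, hBc, hBd⟩ := h2
  obtain ⟨Q, hQ, hQc, z, hz, h3, h4⟩ := lemmaC α (α.support \ (C ∪ D)) (s - (D \ C).card)
    (d - ∑ i ∈ D \ C, α i) ⟨A, hA, by omega, by omega⟩ ⟨B, hB, by omega, by omega⟩
  rw [mem_sdiff] at hz
  exact ⟨Q, hQ, z, hz.1, hz.2, by omega, by omega, by omega⟩

/-- Sizes and weights of the parts. -/
lemma parts (hC : Closed α d (s + 1) C) (hD : Closed α d (s + 1) D)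
    (hc : α.support.card + 1 = 3 * (s + 1)) (hdeg : α.degree = 3 * d) :
    (α.support \ (C ∪ D)).card + (D \ C).card = 2 * s + 1 ∧
    ∑ i ∈ α.support \ (C ∪ D), α i + ∑ i ∈ D \ C, α i = 2 * d ∧
    (D \ C).card + (C ∩ D).card = s + 1 ∧
    ∑ i ∈ D \ C, α i + ∑ i ∈ C ∩ D, α i = d ∧
    (C \ D).card = (D \ C).card ∧ ∑ i ∈ C \ D, α i = ∑ i ∈ D \ C, α i ∧
    (C ∩ D).card ≤ ∑ i ∈ C ∩ D, α i := by
  have e1 := card_sdiff_add_card_inter C D
  have e2 := card_sdiff_add_card_inter D C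
  rw [inter_comm] at e2
  rw [hC.card] at e1
  rw [hD.card] at e2
  have e3 : ∑ i ∈ C ∩ D, α i + ∑ i ∈ C \ D, α i = ∑ i ∈ C, α i :=
    sum_inter_add_sum_sdiff C D α
  have e4 : ∑ i ∈ D ∩ C, α i + ∑ i ∈ D \ C, α i = ∑ i ∈ D, α i :=
    sum_inter_add_sum_sdiff D C α
  rw [inter_comm] at e4
  rw [hC.sum] at e3
  rw [hD.sum] at e4
  have hsub : C ∪ D ⊆ α.support := union_subset hC.sub hD.sub
  have e5 : (C ∪ D).card = C.card + (D \ C).card := by
    rw [← card_union_of_disjoint disjoint_sdiff, union_sdiff_self_eq_union]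
  have e6 : ∑ i ∈ C ∪ D, α i = ∑ i ∈ C, α i + ∑ i ∈ D \ C, α i := by
    rw [← sum_union disjoint_sdiff, union_sdiff_self_eq_union]
  have e7 := card_sdiff_add_card_eq_card hsub
  have e8 : ∑ i ∈ α.support \ (C ∪ D), α i + ∑ i ∈ C ∪ D, α i = ∑ i ∈ α.support, α i :=
    sum_sdiff hsub
  rw [sum_of_support_subset subset_rfl, hdeg, e6, hC.sum] at e8
  rw [e5, hC.card] at e7
  have e9 : (C ∩ D).card ≤ ∑ i ∈ C ∩ D, α i := by
    rw [card_eq_sum_ones]
    apply sum_le_sum
    intro i hi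
    have := hC.sub (mem_inter.1 hi).1
    rw [Finsupp.mem_support_iff] at this
    omega
  refine ⟨by omega, by omega, by omega, by omega, by omega, by omega, e9⟩

lemma pos_of_not_disjoint (hdj : ¬ Disjoint C D) : 0 < (C ∩ D).card := by
  rw [card_pos, nonempty_iff_ne_empty]
  exact fun h => hdj (disjoint_iff_inter_eq_empty.2 h)

lemma exch_small (hC : Closed α d (s + 1) C) (hD : Closed α d (s + 1) D)
    (hc : α.support.card + 1 = 3 * (s + 1)) (hdeg : α.degree = 3 * d) (hd : d ≤ 2 * (s + 1))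
    (hdj : ¬ Disjoint C D) (hno : ∀ y ∈ D \ C, α y ≠ 1) : Exch α d s C D := by
  obtain ⟨p1, p2, p3, p4, p5, p6, p7⟩ := parts hC hD hc hdeg
  have hpos := pos_of_not_disjoint hdj
  have hvals : ∀ x ∈ α.support, 1 ≤ α x := fun x hx => by
    rw [Finsupp.mem_support_iff] at hx; omega
  have hCd : s + 1 ≤ d := by
    rw [← hC.card, ← hC.sum, card_eq_sum_ones]
    exact sum_le_sum fun i hi => hvals i (hC.sub hi)
  obtain ⟨A, hA, hAc, hAex, -, -⟩ := exists_min_sub α (α.support \ (C ∪ D)) (s - (D \ C).card)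
    (by omega)
  obtain ⟨B, hB, hBc, hBex, -, -⟩ := exists_max_sub α (α.support \ (C ∪ D))
    (s + 1 - (D \ C).card) (by omega)
  apply exch_of
  · refine ⟨A, hA, by omega, ?_⟩
    by_contra hlt
    push Not at hlt
    have h1 : ∃ b ∈ A, 2 ≤ α b := by
      by_contra hcon
      push Not at hcon
      have : ∑ i ∈ A, α i ≤ A.card * 1 := sum_le_card_nsmul A α 1 fun i hi => by
        have := hcon i hi; omega
      omega
    obtain ⟨b, hb, hb2⟩ := h1
    have h2 : ((α.support \ (C ∪ D)) \ A).card * 2 ≤ ∑ i ∈ (α.support \ (C ∪ D)) \ A, α i :=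
      card_nsmul_le_sum _ α 2 fun i hi => hb2.trans (hAex b hb i hi)
    have h3 : ∑ i ∈ (α.support \ (C ∪ D)) \ A, α i + ∑ i ∈ A, α i =
      ∑ i ∈ α.support \ (C ∪ D), α i := sum_sdiff hA
    have h4 := card_sdiff_add_card_eq_card hA
    omega
  · refine ⟨B, hB, by omega, ?_⟩
    by_contra hlt
    push Not at hlt
    have h0 : (D \ C).card * 2 ≤ ∑ i ∈ D \ C, α i := card_nsmul_le_sum _ α 2 fun i hi => by
      have h1 := hno i hi
      have h2 := hvals i (hD.sub (mem_sdiff.1 hi).1)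
      omega
    have h1 : ∃ b ∈ B, α b ≤ 1 := by
      by_contra hcon
      push Not at hcon
      have : B.card * 2 ≤ ∑ i ∈ B, α i := card_nsmul_le_sum _ α 2 fun i hi => hcon i hi
      omega
    obtain ⟨b, hb, hb2⟩ := h1
    have h2 : ∑ i ∈ (α.support \ (C ∪ D)) \ B, α i ≤ ((α.support \ (C ∪ D)) \ B).card * 1 :=
      sum_le_card_nsmul _ α 1 fun i hi => (hBex b hb i hi).trans hb2
    have h3 : ∑ i ∈ (α.support \ (C ∪ D)) \ B, α i + ∑ i ∈ B, α i =
      ∑ i ∈ α.support \ (C ∪ D), α i := sum_sdiff hB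
    have h4 := card_sdiff_add_card_eq_card hB
    omega

lemma exists_one_of_sum_le {E : Finset σ} (hE : E ⊆ α.support) (h : ∑ i ∈ E, α i < 2 * E.card) :
    ∃ x ∈ E, α x = 1 := by
  by_contra hcon
  push Not at hcon
  have : E.card * 2 ≤ ∑ i ∈ E, α i := card_nsmul_le_sum _ α 2 fun i hi => by
    have h1 := hcon i hi
    have h2 := hE hi
    rw [Finsupp.mem_support_iff] at h2
    omega
  omega

/-- Theorem T2. -/
theorem conn_three (hc : α.support.card + 1 = 3 * (s + 1))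
    (hd : d ≤ 2 * (s + 1) ∨ (s = 2 ∧ d ≤ 9)) : Conn d (s + 1) 3 α := by
  intro X Y hX hY
  have hdeg := hX.degree
  refine conn_closed hc ?_ X Y hX hY
  intro C D hC hD hCD hdj
  rcases hd with hd | ⟨rfl, hd⟩
  · by_cases h1 : ∀ y ∈ D \ C, α y ≠ 1
    · exact Or.inl (exch_small hC hD hc hdeg hd hdj h1)
    · by_cases h2 : ∀ y ∈ C \ D, α y ≠ 1
      · exact Or.inr (Or.inl (exch_small hD hC hc hdeg hd (fun h => hdj h.symm) h2))
      · push Not at h1 h2
        exact Or.inr (Or.inr ⟨h2, h1⟩)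
  · obtain ⟨p1, p2, p3, p4, p5, p6, p7⟩ := parts hC hD hc hdeg
    have hpos := pos_of_not_disjoint hdj
    have hq : 0 < (D \ C).card := by
      rw [card_pos, nonempty_iff_ne_empty]
      intro h
      rw [sdiff_eq_empty_iff_subset] at h
      exact hCD (eq_of_subset_of_card_le h (by rw [hC.card, hD.card])).symm
    rcases Nat.lt_or_ge (D \ C).card 2 with hq1 | hq2
    · -- q = 1
      left
      obtain ⟨A, hA, hAc, hAex, hA1, -⟩ := exists_min_sub α (α.support \ (C ∪ D)) 1 (by omega)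
      obtain ⟨B, hB, hBc, hBex, hB1, -⟩ := exists_max_sub α (α.support \ (C ∪ D)) 2 (by omega)
      have hR4 : (α.support \ (C ∪ D)).card = 4 := by omega
      rw [hR4] at hA1 hB1
      apply exch_of
      · exact ⟨A, hA, by omega, by omega⟩
      · exact ⟨B, hB, by omega, by omega⟩
    · -- q = 2
      have hR3 : (α.support \ (C ∪ D)).card = 3 := by omega
      by_cases hw : 2 * ∑ i ∈ D \ C, α i ≤ d - 3 ∧ 3 ≤ d
      · right; right
        constructor
        · apply exists_one_of_sum_le (sdiff_subset.trans hC.sub)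
          omega
        · apply exists_one_of_sum_le (sdiff_subset.trans hD.sub)
          omega
      · left
        obtain ⟨B, hB, hBc, hBex, hB1, -⟩ := exists_max_sub α (α.support \ (C ∪ D)) 1 (by omega)
        rw [hR3] at hB1
        apply exch_of
        · exact ⟨∅, by simp, by simp; omega, by simp; omega⟩
        · exact ⟨B, hB, by omega, by omega⟩

end Pool.Agent.Lib.MP_e26c3f_al
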