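import Mathlib
import Pool.Agent.Lib.MP_e26c3f_al.Closed

/-! Fibres with three rows and `3 s` variables. -/

set_option autoImplicit false
set_option linter.unusedSectionVars false

namespace Pool.Agent.Lib.MP_e26c3f_al

open Finset

variable {σ : Type*} [DecidableEq σ] {α : σ →₀ ℕ} {d s : ℕ} {C D : Finset σ}

/-- Every configuration with the closed row `C` is linked to one with the closed row `D`. -/
def Reach (α : σ →₀ ℕ) (d s : ℕ) (C D : Finset σ) : Prop :=
  ∀ X, Cfg d s 3 α X → crow α C ∈ X → ∃ X', Linked d s X X' ∧ crow α D ∈ X'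

lemma Reach.refl (C : Finset σ) : Reach α d s C C := fun X _ h => ⟨X, Linked.refl _, h⟩

lemma Reach.trans {E : Finset σ} (h : Reach α d s C D) (h' : Reach α d s D E) :
    Reach α d s C E := by
  intro X hX hC
  obtain ⟨X', h1, h2⟩ := h X hX hC
  obtain ⟨X'', h3, h4⟩ := h' X' (h1.cfg hX) h2
  exact ⟨X'', h1.trans h3, h4⟩

/-- Exchanging two variables of exponent one. -/
lemma reach_ones (hC : Closed α d s C) {x y : σ} (hx : x ∈ C) (hy : y ∉ C) (hαx : α x = 1)
    (hαy : α y = 1) : Closed α d s (insert y (C.erase x)) ∧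
      Reach α d s C (insert y (C.erase x)) := by
  have hcl : Closed α d s (insert y (C.erase x)) := by
    refine ⟨?_, ?_, ?_⟩
    · apply insert_subset
      · rw [Finsupp.mem_support_iff]; omega
      · exact (erase_subset _ _).trans hC.sub
    · rw [card_swap hx hy, hC.card]
    · have := sum_swap α hx hy
      rw [hC.sum] at this
      omega
  refine ⟨hcl, ?_⟩
  intro X hX h1
  have hxy : x ≠ y := fun e => hy (e ▸ hx)
  obtain ⟨X', β, rfl, hβ, hX'⟩ := hX.exists_cons h1
  obtain ⟨r, hr⟩ : ∃ r ∈ X', r y ≠ 0 := by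
    by_contra hcon
    push Not at hcon
    have h3 : ∀ Z : Multiset (σ →₀ ℕ), (∀ r ∈ Z, r y = 0) → Z.sum y = 0 := by
      intro Z
      induction Z using Multiset.induction_on with
      | empty => intro _; simp
      | cons u Z ih =>
        intro hZ
        rw [Multiset.sum_cons, Finsupp.add_apply, hZ u (by simp), ih (fun r hr => hZ r (by simp [hr]))]
    have h4 := h3 X' hcon
    rw [hX'.sum] at h4
    have h5 : α y = crow α C y + β y := by
      conv_lhs => rw [hβ]
      rfl
    rw [crow_apply, if_neg hy] at h5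
    omega
  obtain ⟨hrX, hry⟩ := hr
  have hrle : r ≤ β := hX'.le hrX
  have hβx : β x = 0 := by
    have h5 : α x = crow α C x + β x := by
      conv_lhs => rw [hβ]
      rfl
    rw [crow_apply, if_pos hx] at h5
    omega
  have hrx : r x = 0 := by
    have := hrle x
    omega
  have hβy : β y ≤ 1 := by
    have h5 : α y = crow α C y + β y := by
      conv_lhs => rw [hβ]
      rfl
    rw [crow_apply, if_neg hy] at h5
    omega
  have hry1 : r y = 1 := by
    have := hrle y
    omega
  obtain ⟨X'', rfl⟩ := Multiset.exists_cons_of_mem hrX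
  -- new second row
  obtain ⟨r0, hr0⟩ : ∃ r0, r = Finsupp.single y 1 + r0 := by
    apply exists_add_of_le
    rw [Finsupp.single_le_iff]; omega
  have hr0y : r0 y = 0 := by
    have : r y = 1 + r0 y := by rw [hr0]; simp
    omega
  have hrrow := hX'.row r (by simp)
  have hr' : IsRow d s (Finsupp.single x 1 + r0) := by
    refine ⟨?_, ?_⟩
    · rw [← hrrow.1, hr0, map_add, map_add, Finsupp.degree_single, Finsupp.degree_single]
    · refine le_trans ?_ hrrow.2
      have h6 : (Finsupp.single x 1 + r0).support ⊆ insert x (r.support.erase y) := by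
        intro z hz
        rw [Finsupp.mem_support_iff, Finsupp.add_apply, Finsupp.single_apply] at hz
        rw [mem_insert, mem_erase, Finsupp.mem_support_iff]
        by_cases hzx : z = x
        · exact Or.inl hzx
        · right
          rw [if_neg (Ne.symm hzx), zero_add] at hz
          refine ⟨?_, ?_⟩
          · rintro rfl; exact hz hr0y
          · rw [hr0, Finsupp.add_apply]; omega
      refine (card_le_card h6).trans ?_
      refine (card_insert_le _ _).trans ?_
      rw [card_erase_of_mem (by rw [Finsupp.mem_support_iff]; exact hry)]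
      have : 0 < r.support.card := card_pos.2 ⟨y, by rw [Finsupp.mem_support_iff]; exact hry⟩
      omega
  have hsum : crow α C + r = crow α (insert y (C.erase x)) + (Finsupp.single x 1 + r0) := by
    rw [hr0]
    ext z
    simp only [Finsupp.add_apply, crow_apply, Finsupp.single_apply, mem_insert, mem_erase]
    by_cases hzx : z = x
    · subst hzx
      simp [hx, hxy, hαx, Ne.symm hxy]
    · by_cases hzy : z = y
      · subst hzy
        simp [hy, hαy, hxy]
      · simp [hzx, hzy, Ne.symm hzx, Ne.symm hzy]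
  have hstep : Step d s (crow α C ::ₘ r ::ₘ X'')
      (crow α (insert y (C.erase x)) ::ₘ (Finsupp.single x 1 + r0) ::ₘ X'') :=
    ⟨_, _, _, _, _, rfl, rfl, hsum, hC.isRow, hrrow, hcl.isRow, hr'⟩
  exact ⟨_, hstep.linked, by simp⟩

/-- Closed rows with the same variables of exponent at least two. -/
lemma reach_same : ∀ (n : ℕ) (C D : Finset σ), Closed α d s C → Closed α d s D →
    (∀ v, α v ≠ 1 → (v ∈ C ↔ v ∈ D)) → (D \ C).card = n → Reach α d s C D := by
  intro n
  induction n with
  | zero =>
    intro C D hC hD _ h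
    rw [card_eq_zero, sdiff_eq_empty_iff_subset] at h
    have : D = C := eq_of_subset_of_card_le h (by rw [hC.card, hD.card])
    subst this
    exact Reach.refl _
  | succ n ih =>
    intro C D hC hD hv h
    have hcard : (C \ D).card = (D \ C).card := by
      have e1 := card_sdiff_add_card_inter C D
      have e2 := card_sdiff_add_card_inter D C
      rw [inter_comm] at e2
      rw [hC.card] at e1
      rw [hD.card] at e2
      omega
    obtain ⟨x, hx⟩ := card_pos.1 (show 0 < (C \ D).card by omega)
    obtain ⟨y, hy⟩ := card_pos.1 (show 0 < (D \ C).card by omega)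
    rw [mem_sdiff] at hx hy
    have hx1 : α x = 1 := by
      by_contra h1
      exact hx.2 ((hv x h1).1 hx.1)
    have hy1 : α y = 1 := by
      by_contra h1
      exact hy.2 ((hv y h1).2 hy.1)
    obtain ⟨h3, h4⟩ := reach_ones hC hx.1 hy.2 hx1 hy1
    refine h4.trans (ih _ D h3 hD ?_ ?_)
    · intro v hv1
      have hvx : v ≠ x := by rintro rfl; exact hv1 hx1
      have hvy : v ≠ y := by rintro rfl; exact hv1 hy1
      rw [mem_insert, mem_erase, ← hv v hv1]
      constructor
      · rintro (h | h)
        · exact absurd h hvy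
        · exact h.2
      · exact fun h => Or.inr ⟨hvx, h⟩
    · have h5 : D \ insert y (C.erase x) = (D \ C).erase y := by
        ext z
        simp only [mem_sdiff, mem_insert, mem_erase, not_or, not_and]
        constructor
        · rintro ⟨k1, k2, k3⟩
          exact ⟨k2, k1, k3 fun e => hx.2 (e ▸ k1)⟩
        · rintro ⟨k1, k2, k3⟩
          exact ⟨k2, k1, fun _ => k3⟩
      rw [h5, card_erase_of_mem (mem_sdiff.2 hy), h]
      rfl

/-- Two disjoint closed rows, `3 s` variables. -/
lemma linked_of_disjoint (hC : Closed α d s C) (hD : Closed α d s D)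
    (hc : α.support.card = 3 * s) (hdj : Disjoint C D) {X Y : Multiset (σ →₀ ℕ)}
    (hX : Cfg d s 3 α X) (hY : Cfg d s 3 α Y) (hCX : crow α C ∈ X) (hDY : crow α D ∈ Y) :
    Linked d s X Y := by
  have hdeg := hX.degree
  set E := (α.support \ C) \ D with hE
  have hDs : D ⊆ α.support \ C := fun x hx =>
    mem_sdiff.2 ⟨hD.sub hx, disjoint_right.1 hdj hx⟩
  have hEcl : Closed α d s E := by
    refine ⟨sdiff_subset.trans sdiff_subset, ?_, ?_⟩
    · rw [hE, card_sdiff_of_subset hDs, card_sdiff_of_subset hC.sub, hC.card, hD.card]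
      omega
    · have h1 : ∑ i ∈ α.support \ C, α i + ∑ i ∈ C, α i = ∑ i ∈ α.support, α i :=
        sum_sdiff hC.sub
      have h2 : ∑ i ∈ E, α i + ∑ i ∈ D, α i = ∑ i ∈ α.support \ C, α i := sum_sdiff hDs
      rw [sum_of_support_subset subset_rfl, hdeg, hC.sum] at h1
      rw [hD.sum] at h2
      omega
  have hZ : Cfg d s 3 α {crow α C, crow α D, crow α E} := by
    refine ⟨?_, by simp, ?_⟩
    · intro u hu
      simp only [Multiset.insert_eq_cons, Multiset.mem_cons, Multiset.mem_singleton] at hu
      rcases hu with rfl | rfl | rfl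
      · exact hC.isRow
      · exact hD.isRow
      · exact hEcl.isRow
    · simp only [Multiset.insert_eq_cons, Multiset.sum_cons, Multiset.sum_singleton]
      ext x
      simp only [Finsupp.add_apply, crow_apply, hE, mem_sdiff, Finsupp.mem_support_iff]
      by_cases h0 : α x = 0
      · simp [h0]
      · by_cases h1 : x ∈ C
        · have h2 : x ∉ D := disjoint_left.1 hdj h1
          simp [h1, h2]
        · by_cases h2 : x ∈ D
          · simp [h1, h2]
          · simp [h0, h1, h2]
  exact (linked_of_closed hC hX hZ hCX (by simp)).trans (linked_of_closed hD hZ hY (by simp) hDY)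

/-- Replacing two closed rows by two others with the same union. -/
lemma exists_of_subset {G H E : Finset σ} (hG : Closed α d s G) (hH : Closed α d s H)
    (hdj : Disjoint G H) (hE : Closed α d s E) (hsub : E ⊆ G ∪ H) {Z : Multiset (σ →₀ ℕ)} :
    ∃ F, Step d s (crow α G ::ₘ crow α H ::ₘ Z) (crow α E ::ₘ crow α F ::ₘ Z) := by
  refine ⟨(G ∪ H) \ E, ?_⟩
  have hF : Closed α d s ((G ∪ H) \ E) := by
    refine ⟨sdiff_subset.trans (union_subset hG.sub hH.sub), ?_, ?_⟩
    · rw [card_sdiff_of_subset hsub, card_union_of_disjoint hdj, hG.card, hH.card, hE.card]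
      omega
    · have h1 : ∑ i ∈ (G ∪ H) \ E, α i + ∑ i ∈ E, α i = ∑ i ∈ G ∪ H, α i := sum_sdiff hsub
      rw [sum_union hdj, hG.sum, hH.sum, hE.sum] at h1
      omega
  refine ⟨_, _, _, _, Z, rfl, rfl, ?_, hG.isRow, hH.isRow, hE.isRow, hF.isRow⟩
  ext x
  simp only [Finsupp.add_apply, crow_apply, mem_sdiff, mem_union]
  by_cases h1 : x ∈ G
  · have h2 : x ∉ H := disjoint_left.1 hdj h1
    by_cases h3 : x ∈ E <;> simp [h1, h2, h3]
  · by_cases h2 : x ∈ H
    · by_cases h3 : x ∈ E <;> simp [h1, h2, h3]
    · have h3 : x ∉ E := fun h => by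
        rcases mem_union.1 (hsub h) with h | h
        · exact h1 h
        · exact h2 h
      simp [h1, h2, h3]

/-- Fibres with `3 s` variables: all rows are closed. -/
lemma closed3 (hc : α.support.card = 3 * s)
    {a b c : σ →₀ ℕ} (hZ : Cfg d s 3 α (a ::ₘ b ::ₘ {c})) :
    (∀ x ∈ (a ::ₘ b ::ₘ ({c} : Multiset (σ →₀ ℕ))), x.support.card = s ∧
      (∀ v ∈ x.support, x v = α v)) ∧ Disjoint a.support b.support ∧
      Disjoint a.support c.support ∧ Disjoint b.support c.support := by
  have hsum := hZ.sum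
  simp only [Multiset.sum_cons, Multiset.sum_singleton] at hsum
  have val : ∀ x, α x = a x + (b x + c x) := fun x => by rw [← hsum]; rfl
  have hsupp : α.support = a.support ∪ (b.support ∪ c.support) := by
    ext x
    simp only [Finsupp.mem_support_iff, mem_union, val]
    omega
  have h1 := card_union_add_card_inter a.support (b.support ∪ c.support)
  have h2 := card_union_add_card_inter b.support c.support
  rw [← hsupp] at h1
  have ha := (hZ.row a (by simp)).2
  have hb := (hZ.row b (by simp)).2
  have hc' := (hZ.row c (by simp)).2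
  have d1 : Disjoint a.support (b.support ∪ c.support) := by
    rw [disjoint_iff_inter_eq_empty, ← card_eq_zero]; omega
  have d2 : Disjoint b.support c.support := by
    rw [disjoint_iff_inter_eq_empty, ← card_eq_zero]; omega
  rw [disjoint_union_right] at d1
  refine ⟨?_, d1.1, d1.2, d2⟩
  have z : ∀ {p q : σ →₀ ℕ} {v : σ}, Disjoint p.support q.support → v ∈ p.support → q v = 0 := by
    intro p q v hd hv
    exact Finsupp.notMem_support_iff.1 (disjoint_left.1 hd hv)
  intro x hx
  simp only [Multiset.mem_cons, Multiset.mem_singleton] at hx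
  rcases hx with rfl | rfl | rfl
  · refine ⟨by omega, fun v hv => ?_⟩
    rw [val, z d1.1 hv, z d1.2 hv]; rfl
  · refine ⟨by omega, fun v hv => ?_⟩
    rw [val, z d1.1.symm hv, z d2 hv]; omega
  · refine ⟨by omega, fun v hv => ?_⟩
    rw [val, z d1.2.symm hv, z d2.symm hv]; omega

/-- Indexed form: three disjoint closed rows covering the support. -/
structure Tri (α : σ →₀ ℕ) (d s : ℕ) (g : Fin 3 → Finset σ) (X : Multiset (σ →₀ ℕ)) : Prop where
  cl : ∀ i, Closed α d s (g i)
  dj : ∀ i j, i ≠ j → Disjoint (g i) (g j)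
  eq : X = crow α (g 0) ::ₘ crow α (g 1) ::ₘ {crow α (g 2)}
  cov : ∀ v ∈ α.support, ∃ i, v ∈ g i

lemma exists_tri (hc : α.support.card = 3 * s) {X : Multiset (σ →₀ ℕ)} (hX : Cfg d s 3 α X) :
    ∃ g, Tri α d s g X := by
  obtain ⟨a, b, c, rfl⟩ := Multiset.card_eq_three.1 hX.card
  obtain ⟨h1, h2, h3, h4⟩ := closed3 (a := a) (b := b) (c := c) hc hX
  have hcrow : ∀ x ∈ (a ::ₘ b ::ₘ ({c} : Multiset (σ →₀ ℕ))), crow α x.support = x := by
    intro x hx
    ext v
    rw [crow_apply]
    split_ifs with hv
    · exact ((h1 x hx).2 v hv).symm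
    · exact (Finsupp.notMem_support_iff.1 hv).symm
  have hcl : ∀ x ∈ (a ::ₘ b ::ₘ ({c} : Multiset (σ →₀ ℕ))), Closed α d s x.support := by
    intro x hx
    refine ⟨Finsupp.support_mono (hX.le hx), (h1 x hx).1, ?_⟩
    rw [← (hX.row x hx).1, Finsupp.degree_apply]
    exact sum_congr rfl fun v hv => ((h1 x hx).2 v hv).symm
  refine ⟨![a.support, b.support, c.support], ?_, ?_, ?_, ?_⟩
  · intro i
    fin_cases i
    · exact hcl a (by simp)
    · exact hcl b (by simp)
    · exact hcl c (by simp)
  · intro i j hij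
    fin_cases i <;> fin_cases j <;> first | exact absurd rfl hij | skip
    · exact h2
    · exact h3
    · exact h2.symm
    · exact h4
    · exact h3.symm
    · exact h4.symm
  · simp only [Matrix.cons_val_zero, Matrix.cons_val_one, Matrix.cons_val]
    rw [hcrow a (by simp), hcrow b (by simp), hcrow c (by simp)]
    rfl
  · intro v hv
    have hsum := hX.sum
    have hs : a + (b + c) = α := by
      simpa using hsum
    rw [Finsupp.mem_support_iff, ← hs, Finsupp.add_apply, Finsupp.add_apply] at hv
    by_cases ha : a v = 0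
    · by_cases hb : b v = 0
      · exact ⟨2, by simp; omega⟩
      · exact ⟨1, by simpa using hb⟩
    · exact ⟨0, by simpa using ha⟩

lemma Tri.mem {g : Fin 3 → Finset σ} {X : Multiset (σ →₀ ℕ)} (h : Tri α d s g X) (i : Fin 3) :
    crow α (g i) ∈ X := by
  rw [h.eq]
  fin_cases i <;> simp

/-- Two closed rows of a configuration can be exchanged. -/
lemma Tri.exchange {g : Fin 3 → Finset σ} {X : Multiset (σ →₀ ℕ)} (h : Tri α d s g X)
    {i j : Fin 3} (hij : i ≠ j) {E : Finset σ} (hE : Closed α d s E) (hsub : E ⊆ g i ∪ g j) :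
    ∃ X', Linked d s X X' ∧ crow α E ∈ X' := by
  obtain ⟨l, hl⟩ : ∃ l, X = crow α (g i) ::ₘ crow α (g j) ::ₘ {crow α (g l)} := by
    have key : ∀ a b c : σ →₀ ℕ, (a ::ₘ b ::ₘ {c} : Multiset (σ →₀ ℕ)) = b ::ₘ a ::ₘ {c} ∧
        (a ::ₘ b ::ₘ {c} : Multiset (σ →₀ ℕ)) = a ::ₘ c ::ₘ {b} := by
      intro a b c
      refine ⟨Multiset.cons_swap _ _ _, ?_⟩
      rw [← Multiset.cons_zero c, Multiset.cons_swap b c, Multiset.cons_zero]
    rw [h.eq]
    fin_cases i <;> fin_cases j <;> first | exact absurd rfl hij | skip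
    · exact ⟨2, rfl⟩
    · exact ⟨1, (key _ _ _).2⟩
    · exact ⟨2, (key _ _ _).1⟩
    · exact ⟨0, by
        show crow α (g 0) ::ₘ crow α (g 1) ::ₘ {crow α (g 2)} = _
        rw [(key _ _ _).1, (key _ _ _).2]; rfl⟩
    · exact ⟨1, by
        show crow α (g 0) ::ₘ crow α (g 1) ::ₘ {crow α (g 2)} = _
        rw [(key _ _ _).2, (key _ _ _).1]; rfl⟩
    · exact ⟨0, by
        show crow α (g 0) ::ₘ crow α (g 1) ::ₘ {crow α (g 2)} = _
        rw [(key _ _ _).1, (key _ _ _).2, (key _ _ _).1]; rfl⟩
  obtain ⟨F, hF⟩ := exists_of_subset (h.cl i) (h.cl j) (h.dj i j hij) hE hsub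
    (Z := {crow α (g l)})
  exact ⟨_, by rw [hl]; exact hF.linked, by simp⟩

end Pool.Agent.Lib.MP_e26c3f_al
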