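import Mathlib
import Pool.Agent.Lib.MP_e26c3f_al.Blocks

/-! Every configuration decomposes into tight blocks. -/

set_option autoImplicit false
set_option linter.unusedSectionVars false

namespace Pool.Agent.Lib.MP_e26c3f_al

open Finset

variable {σ : Type*} [DecidableEq σ]
variable {α β : σ →₀ ℕ} {d s t k : ℕ} {J : Finset ℕ} {f g : σ → ℕ}

/-- Decomposition states. -/
structure DS (d t : ℕ) (α : σ →₀ ℕ) (J : Finset ℕ) (f : σ → ℕ) : Prop where
  mem : ∀ v ∈ α.support, f v ∈ J
  bk : ∀ j ∈ J, ∃ k, 1 ≤ k ∧ (blk α f j).card ≤ k * t + 1 ∧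
    ∑ v ∈ blk α f j, α v = k * d

lemma exists_ds (hd : 1 ≤ d) : ∀ (X : Multiset (σ →₀ ℕ)) (k : ℕ) (α : σ →₀ ℕ),
    Cfg d (t + 1) k α X → ∃ J f, DS d t α J f ∧ Compat f X := by
  intro X
  induction X using Multiset.induction_on with
  | empty =>
    intro k α hX
    have h1 : α = 0 := by rw [← hX.sum]; simp
    subst h1
    exact ⟨∅, fun _ => 0, ⟨by simp, by simp⟩, by intro r hr; simp at hr⟩
  | cons r X ih =>
    intro k α hX
    obtain ⟨k, rfl⟩ : ∃ k', k = k' + 1 := ⟨k - 1, by have := hX.card; simp at this; omega⟩
    obtain ⟨X', β, hXX, hαβ, hX'⟩ := hX.exists_cons (u := r) (by simp)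
    have : X' = X := ((Multiset.cons_inj_right r).1 hXX).symm
    subst this
    obtain ⟨J', f', hf', hc'⟩ := ih k β hX'
    have hr := hX.row r (by simp)
    obtain ⟨j0, hj0⟩ := Infinite.exists_notMem_finset J'
    set I : Finset ℕ := (r.support ∩ β.support).image f' with hI
    have hIJ : I ⊆ J' := by
      intro j hj
      obtain ⟨v, hv, rfl⟩ := mem_image.1 hj
      exact hf'.mem v (mem_inter.1 hv).2
    have hval : ∀ v, α v = r v + β v := fun v => by rw [hαβ]; rfl
    classical
    let f : σ → ℕ := fun v => if v ∈ r.support ∨ (v ∈ β.support ∧ f' v ∈ I) then j0 else f' v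
    have hfpos : ∀ v, (v ∈ r.support ∨ (v ∈ β.support ∧ f' v ∈ I)) → f v = j0 := fun v h => if_pos h
    have hfneg : ∀ v, ¬ (v ∈ r.support ∨ (v ∈ β.support ∧ f' v ∈ I)) → f v = f' v :=
      fun v h => if_neg h
    set κ : ℕ → ℕ := fun j => (∑ v ∈ blk β f' j, β v) / d with hκ
    have hκ1 : ∀ j ∈ J', 1 ≤ κ j ∧ (blk β f' j).card ≤ κ j * t + 1 ∧
        ∑ v ∈ blk β f' j, β v = κ j * d := by
      intro j hj
      obtain ⟨m, h1, h2, h3⟩ := hf'.bk j hj
      have : κ j = m := by
        rw [hκ]
        simp only [h3]
        exact Nat.mul_div_cancel _ hd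
      rw [this]
      exact ⟨h1, h2, h3⟩
    -- the union of the old blocks that are hit
    set U : Finset σ := I.biUnion (blk β f') with hU
    have hUmem : ∀ v, v ∈ U ↔ v ∈ β.support ∧ f' v ∈ I := by
      intro v
      rw [hU, mem_biUnion]
      constructor
      · rintro ⟨j, hj, hv⟩
        rw [mem_blk] at hv
        refine ⟨Finsupp.mem_support_iff.2 hv.1, ?_⟩
        rw [hv.2]; exact hj
      · rintro ⟨h1, h2⟩
        exact ⟨f' v, h2, mem_blk.2 ⟨Finsupp.mem_support_iff.1 h1, rfl⟩⟩
    have hdisj : Set.PairwiseDisjoint (I : Set ℕ) (blk β f') := by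
      intro i _ j _ hij
      rw [Function.onFun, disjoint_left]
      intro v h1 h2
      exact hij ((mem_blk.1 h1).2.symm.trans (mem_blk.1 h2).2)
    have hUcard : U.card = ∑ j ∈ I, (blk β f' j).card := card_biUnion hdisj
    have hUsum : ∑ v ∈ U, β v = ∑ j ∈ I, ∑ v ∈ blk β f' j, β v := sum_biUnion hdisj
    have hUcard' : U.card ≤ (∑ j ∈ I, κ j) * t + I.card := by
      rw [hUcard, sum_mul, card_eq_sum_ones, ← sum_add_distrib]
      exact sum_le_sum fun j hj => (hκ1 j (hIJ hj)).2.1
    have hUsum' : ∑ v ∈ U, β v = (∑ j ∈ I, κ j) * d := by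
      rw [hUsum, sum_mul]
      exact sum_congr rfl fun j hj => (hκ1 j (hIJ hj)).2.2
    have hrU : r.support ∩ β.support ⊆ r.support ∩ U := by
      intro v hv
      rw [mem_inter] at hv ⊢
      exact ⟨hv.1, (hUmem v).2 ⟨hv.2, mem_image_of_mem _ (mem_inter.2 hv)⟩⟩
    have hIcard : I.card ≤ (r.support ∩ U).card := card_image_le.trans (card_le_card hrU)
    have hB0 : blk α f j0 = r.support ∪ U := by
      ext v
      rw [mem_blk, mem_union, hUmem]
      constructor
      · rintro ⟨h1, h2⟩
        by_contra hcon
        rw [hfneg v hcon] at h2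
        push Not at hcon
        rw [hval] at h1
        have h3 : r v = 0 := Finsupp.notMem_support_iff.1 hcon.1
        have h4 : v ∈ β.support := by rw [Finsupp.mem_support_iff]; omega
        exact hj0 (h2 ▸ hf'.mem v h4)
      · intro h
        refine ⟨?_, hfpos v h⟩
        rw [hval]
        rcases h with h | h
        · rw [Finsupp.mem_support_iff] at h; omega
        · have := Finsupp.mem_support_iff.1 h.1; omega
    refine ⟨insert j0 (J' \ I), f, ⟨?_, ?_⟩, ?_⟩
    · intro v hv
      by_cases hc : v ∈ r.support ∨ (v ∈ β.support ∧ f' v ∈ I)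
      · rw [hfpos v hc]; exact mem_insert_self _ _
      · rw [hfneg v hc]
        push Not at hc
        rw [Finsupp.mem_support_iff, hval] at hv
        have h3 : r v = 0 := Finsupp.notMem_support_iff.1 hc.1
        have h4 : v ∈ β.support := by rw [Finsupp.mem_support_iff]; omega
        exact mem_insert_of_mem (mem_sdiff.2 ⟨hf'.mem v h4, hc.2 h4⟩)
    · intro j hj
      rcases mem_insert.1 hj with rfl | hj
      · refine ⟨∑ j ∈ I, κ j + 1, by omega, ?_, ?_⟩
        · rw [hB0]
          have h1 := card_union_add_card_inter r.support U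
          have h2 := hr.2
          nlinarith
        · rw [hB0]
          have h1 : ∑ v ∈ r.support ∪ U, α v =
              ∑ v ∈ r.support ∪ U, r v + ∑ v ∈ r.support ∪ U, β v := by
            rw [← sum_add_distrib]
            exact sum_congr rfl fun v _ => hval v
          have h2 : ∑ v ∈ r.support ∪ U, r v = d := by
            rw [← hr.1, Finsupp.degree_apply]
            symm
            apply sum_subset subset_union_left
            intro v _ hv
            exact Finsupp.notMem_support_iff.1 hv
          have h3 : ∑ v ∈ r.support ∪ U, β v = ∑ v ∈ U, β v := by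
            symm
            apply sum_subset subset_union_right
            intro v hv hvU
            by_contra h0
            apply hvU
            have h4 : v ∈ β.support := Finsupp.mem_support_iff.2 h0
            have h5 : v ∈ r.support := by
              rcases mem_union.1 hv with h | h
              · exact h
              · exact absurd h hvU
            exact (hUmem v).2 ⟨h4, mem_image_of_mem _ (mem_inter.2 ⟨h5, h4⟩)⟩
          rw [h1, h2, h3, hUsum']
          ring
      · rw [mem_sdiff] at hj
        have hjj : j ≠ j0 := fun e => hj0 (e ▸ hj.1)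
        have hblk : blk α f j = blk β f' j := by
          ext v
          rw [mem_blk, mem_blk]
          constructor
          · rintro ⟨h1, h2⟩
            by_cases hc : v ∈ r.support ∨ (v ∈ β.support ∧ f' v ∈ I)
            · rw [hfpos v hc] at h2; exact absurd h2.symm hjj
            · rw [hfneg v hc] at h2
              push Not at hc
              rw [hval] at h1
              have h3 : r v = 0 := Finsupp.notMem_support_iff.1 hc.1
              exact ⟨by omega, h2⟩
          · rintro ⟨h1, h2⟩
            have h3 : ¬ (v ∈ r.support ∨ (v ∈ β.support ∧ f' v ∈ I)) := by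
              rintro (h | h)
              · apply hj.2
                rw [← h2]
                exact mem_image_of_mem _ (mem_inter.2 ⟨h, Finsupp.mem_support_iff.2 h1⟩)
              · exact hj.2 (h2 ▸ h.2)
            refine ⟨?_, by rw [hfneg v h3, h2]⟩
            rw [hval]; omega
        refine ⟨κ j, (hκ1 j hj.1).1, by rw [hblk]; exact (hκ1 j hj.1).2.1, ?_⟩
        rw [hblk, ← (hκ1 j hj.1).2.2]
        apply sum_congr rfl
        intro v hv
        have h3 : v ∉ r.support := by
          intro h
          apply hj.2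
          rw [mem_blk] at hv
          rw [← hv.2]
          exact mem_image_of_mem _ (mem_inter.2 ⟨h, Finsupp.mem_support_iff.2 hv.1⟩)
        rw [hval, Finsupp.notMem_support_iff.1 h3, zero_add]
    · intro u hu
      rcases Multiset.mem_cons.1 hu with rfl | hu
      · exact ⟨j0, fun v hv => hfpos v (Or.inl hv)⟩
      · obtain ⟨j, hj⟩ := hc' u hu
        have huβ : ∀ v ∈ u.support, v ∈ β.support := fun v hv =>
          Finsupp.support_mono (hX'.le hu) hv
        by_cases hjI : j ∈ I
        · refine ⟨j0, fun v hv => hfpos v (Or.inr ⟨huβ v hv, ?_⟩)⟩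
          rw [hj v hv]; exact hjI
        · refine ⟨j, fun v hv => ?_⟩
          rw [hfneg v, hj v hv]
          rintro (h | h)
          · apply hjI
            rw [← hj v hv]
            exact mem_image_of_mem _ (mem_inter.2 ⟨h, huβ v hv⟩)
          · exact hjI (by rw [← hj v hv]; exact h.2)

lemma sum_blk {M : Type*} [AddCommMonoid M] (hf : ∀ v ∈ α.support, f v ∈ J) (w : σ → M) :
    ∑ v ∈ α.support, w v = ∑ j ∈ J, ∑ v ∈ blk α f j, w v := by
  have h : α.support = J.biUnion (blk α f) := by
    ext v
    rw [mem_biUnion]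
    constructor
    · intro hv
      exact ⟨f v, hf v hv, mem_blk.2 ⟨Finsupp.mem_support_iff.1 hv, rfl⟩⟩
    · rintro ⟨j, _, hv⟩
      exact Finsupp.mem_support_iff.2 (mem_blk.1 hv).1
  rw [h]
  apply sum_biUnion
  intro i _ j _ hij
  rw [Function.onFun, disjoint_left]
  intro v h1 h2
  exact hij ((mem_blk.1 h1).2.symm.trans (mem_blk.1 h2).2)

lemma card_blk (hf : ∀ v ∈ α.support, f v ∈ J) :
    α.support.card = ∑ j ∈ J, (blk α f j).card := by
  rw [card_eq_sum_ones, sum_blk hf]
  simp

/-- Merging blocks until all blocks are tight. -/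
lemma exists_ts_aux (hd : 1 ≤ d) {X : Multiset (σ →₀ ℕ)} {c : ℕ} (hc : 1 ≤ c)
    (hdeg : α.degree = k * d) (hcard : α.support.card = k * t + c) : ∀ (n : ℕ) (J : Finset ℕ)
    (f : σ → ℕ), J.card = n → DS d t α J f → Compat f X →
    ∃ J f, J.card = c ∧ TS d t α J f ∧ Compat f X := by
  intro n
  induction n with
  | zero =>
    intro J f hJ hf _
    exfalso
    have hJ0 : J = ∅ := card_eq_zero.1 hJ
    have h1 := card_blk hf.mem
    rw [hJ0, sum_empty] at h1
    omega
  | succ n ih =>
    intro J f hJ hf hX
    set κ : ℕ → ℕ := fun j => (∑ v ∈ blk α f j, α v) / d with hκ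
    have hκ1 : ∀ j ∈ J, 1 ≤ κ j ∧ (blk α f j).card ≤ κ j * t + 1 ∧
        ∑ v ∈ blk α f j, α v = κ j * d := by
      intro j hj
      obtain ⟨m, h1, h2, h3⟩ := hf.bk j hj
      have : κ j = m := by
        rw [hκ]
        simp only [h3]
        exact Nat.mul_div_cancel _ hd
      rw [this]
      exact ⟨h1, h2, h3⟩
    have hk : ∑ j ∈ J, κ j = k := by
      have h1 := sum_blk hf.mem (fun v => α v)
      rw [← Finsupp.degree_apply, hdeg] at h1
      rw [sum_congr rfl fun j hj => (hκ1 j hj).2.2, ← sum_mul] at h1
      exact (Nat.eq_of_mul_eq_mul_right hd h1).symm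
    have h2 := card_blk hf.mem
    by_cases hall : ∀ j ∈ J, (blk α f j).card = κ j * t + 1
    · refine ⟨J, f, ?_, ⟨hf.mem, ?_⟩, hX⟩
      · rw [sum_congr rfl hall, sum_add_distrib, ← sum_mul, hk, ← card_eq_sum_ones, hcard] at h2
        omega
      · intro j hj
        exact ⟨κ j, (hκ1 j hj).1, hall j hj, (hκ1 j hj).2.2⟩
    · push Not at hall
      obtain ⟨j, hj, hne⟩ := hall
      have hlt : (blk α f j).card ≤ κ j * t := by have := (hκ1 j hj).2.1; omega
      have hJ2 : 2 ≤ J.card := by
        by_contra hcon
        have h3 : J = {j} := by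
          apply (eq_of_subset_of_card_le (singleton_subset_iff.2 hj) ?_).symm
          rw [card_singleton]; omega
        rw [h3, sum_singleton] at h2 hk
        rw [hk] at hlt
        omega
      obtain ⟨i, hi, hij⟩ : ∃ i ∈ J, i ≠ j := by
        by_contra hcon
        push Not at hcon
        have : J ⊆ {j} := fun x hx => mem_singleton.2 (hcon x hx)
        have := card_le_card this
        rw [card_singleton] at this
        omega
      let f' : σ → ℕ := fun v => if f v = i then j else f v
      have hbj : blk α f' j = blk α f j ∪ blk α f i := by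
        ext v
        rw [mem_union, mem_blk, mem_blk, mem_blk]
        by_cases h : f v = i
        · have : f' v = j := if_pos h
          simp [this, h, hij]
        · have : f' v = f v := if_neg h
          simp [this, h]
      have hdj : Disjoint (blk α f j) (blk α f i) := by
        rw [disjoint_left]
        intro v h1 h2
        exact hij ((mem_blk.1 h2).2.symm.trans (mem_blk.1 h1).2)
      apply ih (J.erase i) f' (by rw [card_erase_of_mem hi]; omega)
      · refine ⟨?_, ?_⟩
        · intro v hv
          by_cases h : f v = i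
          · have : f' v = j := if_pos h
            rw [this]; exact mem_erase.2 ⟨Ne.symm hij, hj⟩
          · have : f' v = f v := if_neg h
            rw [this]; exact mem_erase.2 ⟨h, hf.mem v hv⟩
        · intro l hl
          rw [mem_erase] at hl
          by_cases hlj : l = j
          · subst hlj
            refine ⟨κ l + κ i, by have := (hκ1 l hj).1; omega, ?_, ?_⟩
            · rw [hbj, card_union_of_disjoint hdj, add_mul]
              have := (hκ1 i hi).2.1
              omega
            · rw [hbj, sum_union hdj, (hκ1 l hj).2.2, (hκ1 i hi).2.2, add_mul]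
          · have hbl : blk α f' l = blk α f l := by
              ext v
              rw [mem_blk, mem_blk]
              by_cases h : f v = i
              · have h1 : f' v = j := if_pos h
                rw [h1, h]
                constructor
                · rintro ⟨_, h2⟩; exact absurd h2.symm hlj
                · rintro ⟨_, h2⟩; exact absurd h2.symm hl.1
              · have h1 : f' v = f v := if_neg h
                rw [h1]
            rw [hbl]
            exact hf.bk l hl.2
      · intro r hr
        obtain ⟨l, hl⟩ := hX r hr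
        by_cases h : l = i
        · exact ⟨j, fun v hv => if_pos (by rw [hl v hv, h])⟩
        · refine ⟨l, fun v hv => ?_⟩
          have : f' v = f v := if_neg (by rw [hl v hv]; exact h)
          rw [this, hl v hv]

/-- Relabelling. -/
lemma relabel {J J' : Finset ℕ} (hJ : J.card = J'.card) {X : Multiset (σ →₀ ℕ)}
    (hf : TS d t α J f) (hX : Compat f X) : ∃ f', TS d t α J' f' ∧ Compat f' X := by
  obtain ⟨e⟩ := Fintype.card_eq.1 (show Fintype.card J = Fintype.card J' by simpa using hJ)
  let π : ℕ → ℕ := fun j => if h : j ∈ J then (e ⟨j, h⟩ : ℕ) else 0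
  have hπ : ∀ j (h : j ∈ J), π j = e ⟨j, h⟩ := fun j h => dif_pos h
  have hblk : ∀ j (h : j ∈ J), blk α (π ∘ f) (e ⟨j, h⟩) = blk α f j := by
    intro j h
    ext v
    rw [mem_blk, mem_blk, Function.comp]
    constructor
    · rintro ⟨h1, h2⟩
      refine ⟨h1, ?_⟩
      have h3 := hf.mem v (Finsupp.mem_support_iff.2 h1)
      rw [hπ _ h3] at h2
      have h4 := e.injective (Subtype.ext h2)
      exact congrArg Subtype.val h4
    · rintro ⟨h1, h2⟩
      refine ⟨h1, ?_⟩
      rw [h2, hπ j h]
  refine ⟨π ∘ f, ⟨?_, ?_⟩, ?_⟩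
  · intro v hv
    rw [Function.comp, hπ _ (hf.mem v hv)]
    exact (e _).2
  · intro j' hj'
    obtain ⟨⟨j, hj⟩, hjj⟩ := e.surjective ⟨j', hj'⟩
    have : j' = e ⟨j, hj⟩ := by rw [hjj]
    rw [this, hblk j hj]
    exact hf.bk j hj
  · intro r hr
    obtain ⟨l, hl⟩ := hX r hr
    exact ⟨π l, fun v hv => by rw [Function.comp, hl v hv]⟩

/-- Every configuration is compatible with a tight state. -/
theorem exists_ts (hd : 1 ≤ d) {X : Multiset (σ →₀ ℕ)} (hX : Cfg d (t + 1) k α X)
    (J : Finset ℕ) (hJ : 1 ≤ J.card) (hcard : α.support.card = k * t + J.card) :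
    ∃ f, TS d t α J f ∧ Compat f X := by
  obtain ⟨J1, f1, h1, h2⟩ := exists_ds hd X k α hX
  obtain ⟨J2, f2, h3, h4, h5⟩ := exists_ts_aux hd hJ hX.degree hcard _ J1 f1 rfl h1 h2
  exact relabel h3 h4 h5

end Pool.Agent.Lib.MP_e26c3f_al
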