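import Mathlib
import Pool.Agent.Lib.MP_e26c3f_al.Decomp

/-! Moves between tight states. -/

set_option autoImplicit false
set_option linter.unusedSectionVars false

namespace Pool.Agent.Lib.MP_e26c3f_al

open Finset

variable {σ : Type*} [DecidableEq σ]
variable {α β : σ →₀ ℕ} {d s t k : ℕ} {J : Finset ℕ} {f g h : σ → ℕ}

/-- All realisations of `f` are linked to all realisations of `g`. -/
def Eqv (d t k : ℕ) (α : σ →₀ ℕ) (f g : σ → ℕ) : Prop :=
  ∀ X Y, Cfg d (t + 1) k α X → Cfg d (t + 1) k α Y → Compat f X → Compat g Y →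
    Linked d (t + 1) X Y

lemma Eqv.symm (h : Eqv d t k α f g) : Eqv d t k α g f :=
  fun X Y hX hY hgX hfY => (h Y X hY hX hfY hgX).symm

lemma eqv_refl (ht : 2 ≤ t) (hd : 1 ≤ d) (hf : WS d t α J f) : Eqv d t k α f f :=
  fun X Y hX hY hfX hfY => linked_of_compat ht hd f J α k k X Y hf hX hY hfX hfY

lemma exists_real (hd : 1 ≤ d) (hdeg : α.degree = k * d) (hf : WS d t α J f) :
    ∃ X, Cfg d (t + 1) k α X ∧ Compat f X := by
  obtain ⟨k', X, hX, hc⟩ := exists_compat f J α hf
  have h1 := hX.degree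
  rw [hdeg] at h1
  have : k = k' := Nat.eq_of_mul_eq_mul_right hd h1
  subst this
  exact ⟨X, hX, hc⟩

lemma Eqv.trans (hd : 1 ≤ d) (hdeg : α.degree = k * d) (hg : WS d t α J g)
    (h1 : Eqv d t k α f g) (h2 : Eqv d t k α g h) : Eqv d t k α f h := by
  intro X Y hX hY hfX hhY
  obtain ⟨Z, hZ, hgZ⟩ := exists_real hd hdeg hg
  exact (h1 X Z hX hZ hfX hgZ).trans (h2 Z Y hZ hY hgZ hhY)

/-- Restricting a weak state to some of its labels. -/
lemma WS.restrict {J' : Finset ℕ} (hf : WS d t α J f) (hJ : J' ⊆ J) :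
    WS d t (α.filter fun v => f v ∈ J') J' f := by
  have hb : ∀ j ∈ J', blk (α.filter fun v => f v ∈ J') f j = blk α f j := by
    intro j hj
    ext v
    rw [mem_blk, mem_blk, Finsupp.filter_apply]
    constructor
    · rintro ⟨h1, h2⟩
      rw [if_pos (by rw [h2]; exact hj)] at h1
      exact ⟨h1, h2⟩
    · rintro ⟨h1, h2⟩
      rw [if_pos (by rw [h2]; exact hj)]
      exact ⟨h1, h2⟩
  refine ⟨?_, ?_⟩
  · intro v hv
    rw [Finsupp.support_filter, mem_filter] at hv
    exact hv.2
  · intro j hj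
    obtain ⟨k, W, h1, h2, h3⟩ := hf.bk j (hJ hj)
    refine ⟨k, W, by rw [hb j hj]; exact h1, h2, ?_⟩
    rw [hb j hj, ← h3]
    apply sum_congr rfl
    intro v hv
    rw [Finsupp.filter_apply, if_pos]
    rw [(mem_blk.1 hv).2]; exact hj

lemma compat_row_sub {X : Multiset (σ →₀ ℕ)} (hX : Cfg d s k α X) {r : σ →₀ ℕ} (hr : r ∈ X)
    {v : σ} (hv : v ∈ r.support) : v ∈ α.support := Finsupp.support_mono (hX.le hr) hv

/-- Two blocks are rearranged. -/
lemma eqv_two (ht : 2 ≤ t) (hd : 1 ≤ d) (hf : TS d t α J f) {i j : ℕ}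
    (hfg : ∀ v ∈ α.support, f v = g v ∨ ((f v = i ∨ f v = j) ∧ (g v = i ∨ g v = j)))
    (hJ : 3 ≤ J.card)
    (H : ∀ k' < k, ∀ β : σ →₀ ℕ, β.support.card ≤ α.support.card → Conn d (t + 1) k' β) :
    Eqv d t k α f g := by
  intro X Y hX hY hfX hgY
  set J' : Finset ℕ := (J.erase i).erase j with hJ'
  have hJ'J : J' ⊆ J := (erase_subset _ _).trans (erase_subset _ _)
  have hmemJ' : ∀ l, l ∈ J' ↔ l ≠ j ∧ l ≠ i ∧ l ∈ J := by
    intro l; rw [hJ', mem_erase, mem_erase]
  have hXs : ∀ r ∈ X, (∀ v ∈ r.support, f v ∈ J') ∨ (∀ v ∈ r.support, ¬ f v ∈ J') := by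
    intro r hr
    obtain ⟨l, hl⟩ := hfX r hr
    by_cases h : l ∈ J'
    · left; intro v hv; rw [hl v hv]; exact h
    · right; intro v hv; rw [hl v hv]; exact h
  have hYs : ∀ r ∈ Y, (∀ v ∈ r.support, f v ∈ J' ∧ f v = g v) ∨
      (∀ v ∈ r.support, ¬ f v ∈ J') := by
    intro r hr
    obtain ⟨l, hl⟩ := hgY r hr
    by_cases h : l ∈ J'
    · left; intro v hv
      have h1 := (hmemJ' l).1 h
      rcases hfg v (compat_row_sub hY hr hv) with h2 | ⟨_, h2 | h2⟩
      · exact ⟨by rw [h2, hl v hv]; exact h, h2⟩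
      · rw [hl v hv] at h2; exact absurd h2 h1.2.1
      · rw [hl v hv] at h2; exact absurd h2 h1.1
    · right; intro v hv hcon
      have h1 := (hmemJ' _).1 hcon
      rcases hfg v (compat_row_sub hY hr hv) with h2 | ⟨h2 | h2, _⟩
      · rw [h2, hl v hv] at hcon; exact h hcon
      · exact h1.2.1 h2
      · exact h1.1 h2
  obtain ⟨X1, X2, k1, k2, rfl, rfl, hX1, hX2⟩ := split_cfg (fun v => f v ∈ J') X k α hX hXs
  obtain ⟨Y1, Y2, l1, l2, rfl, hl, hY1, hY2⟩ := split_cfg (fun v => f v ∈ J') Y _ α hY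
    (fun r hr => (hYs r hr).imp (fun h v hv => (h v hv).1) id)
  have e1 : k1 = l1 := by
    have h1 := hX1.degree
    have h2 := hY1.degree
    rw [h1] at h2
    exact Nat.eq_of_mul_eq_mul_right hd h2
  subst e1
  have e2 : k2 = l2 := by omega
  subst e2
  -- there is a third block
  have hk1 : 1 ≤ k1 := by
    obtain ⟨l, hl⟩ : ∃ l, l ∈ J' := by
      have h1 : J.card ≤ J'.card + 2 := by
        have h1 : J.card - 1 ≤ (J.erase i).card := pred_card_le_card_erase
        have h2 : (J.erase i).card - 1 ≤ J'.card := pred_card_le_card_erase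
        omega
      exact card_pos.1 (by omega)
    obtain ⟨m, hm, -, hs⟩ := hf.bk l (hJ'J hl)
    by_contra hcon
    have h0 : k1 = 0 := by omega
    have h1 := hX1.degree
    rw [h0, zero_mul, Finsupp.degree_eq_zero_iff] at h1
    have h2 : ∑ v ∈ blk α f l, α v = 0 := by
      apply sum_eq_zero
      intro v hv
      have h3 := DFunLike.congr_fun h1 v
      rw [Finsupp.filter_apply, if_pos (by rw [(mem_blk.1 hv).2]; exact hl)] at h3
      exact h3
    rw [hs] at h2
    have := Nat.mul_pos hm hd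
    omega
  apply Linked.add
  · apply linked_of_compat ht hd f J' _ k1 k1 X1 Y1 (hf.ws.restrict hJ'J) hX1 hY1
    · intro r hr; exact hfX r (by simp [hr])
    · intro r hr
      obtain ⟨l, hl⟩ := hgY r (by simp [hr])
      refine ⟨l, fun v hv => ?_⟩
      have h1 : v ∈ (α.filter fun v => f v ∈ J').support := compat_row_sub hY1 hr hv
      rw [Finsupp.support_filter, mem_filter] at h1
      rcases hYs r (by simp [hr]) with h2 | h2
      · rw [(h2 v hv).2, hl v hv]
      · exact absurd h1.2 (h2 v hv)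
  · exact H k2 (by omega) _ (by
      rw [Finsupp.support_filter]; exact card_le_card (filter_subset _ _)) X2 Y2 hX2 hY2

/-- A common row. -/
lemma eqv_of_row (ht : 2 ≤ t) (hd : 1 ≤ d) (hf : WS d t α J f) (hg : WS d t α J g)
    {r : σ →₀ ℕ} (hr : IsRow d (t + 1) r) (hα : α = r + β)
    (hfr : ∃ j, ∀ v ∈ r.support, f v = j) (hgr : ∃ j, ∀ v ∈ r.support, g v = j)
    (hf' : WS d t β J f) (hg' : WS d t β J g) (hk : 1 ≤ k) (hdeg : α.degree = k * d)
    (H : Conn d (t + 1) (k - 1) β) : Eqv d t k α f g := by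
  obtain ⟨k, rfl⟩ : ∃ k', k = k' + 1 := ⟨k - 1, by omega⟩
  rw [Nat.add_sub_cancel] at H
  have hdegβ : β.degree = k * d := by
    have h1 := congrArg Finsupp.degree hα
    rw [map_add, hdeg, hr.1, add_mul] at h1
    omega
  intro X Y hX hY hfX hgY
  obtain ⟨X0, hX0, hfX0⟩ := exists_real hd hdegβ hf'
  obtain ⟨Y0, hY0, hgY0⟩ := exists_real hd hdegβ hg'
  have hX1 : Cfg d (t + 1) (k + 1) α (r ::ₘ X0) := by rw [hα]; exact hX0.cons hr
  have hY1 : Cfg d (t + 1) (k + 1) α (r ::ₘ Y0) := by rw [hα]; exact hY0.cons hr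
  have hc : ∀ (f : σ → ℕ) (X : Multiset (σ →₀ ℕ)), (∃ j, ∀ v ∈ r.support, f v = j) →
      Compat f X → Compat f (r ::ₘ X) := by
    intro f X h1 h2 u hu
    rcases Multiset.mem_cons.1 hu with rfl | hu
    · exact h1
    · exact h2 u hu
  have h1 := linked_of_compat ht hd f J α _ _ X (r ::ₘ X0) hf hX hX1 hfX (hc f X0 hfr hfX0)
  have h2 := linked_of_compat ht hd g J α _ _ (r ::ₘ Y0) Y hg hY1 hY (hc g Y0 hgr hgY0) hgY
  exact h1.trans ((linked_of_mem H hα hX1 hY1 (by simp) (by simp)).trans h2)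

/-- Removing a row from a block of a tight state. -/
lemma TS.remove (hf : TS d t α J f) {r : σ →₀ ℕ} {P : Finset σ} {i : ℕ}
    (hr : r.degree = d) (hα : α = r + β) (hri : r.support ⊆ blk α f i) (hP : P ⊆ blk α f i)
    (hPc : P.card = t) (hPβ : ∀ v ∈ P, β v = 0) : WS d t β J f := by
  have hval : ∀ v, α v = r v + β v := fun v => by rw [hα]; rfl
  refine ⟨?_, ?_⟩
  · intro v hv
    apply hf.mem
    rw [Finsupp.mem_support_iff] at hv ⊢
    rw [hval]; omega
  · intro j hj
    obtain ⟨k, hk, h1, h2⟩ := hf.bk j hj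
    by_cases hji : j = i
    · subst hji
      refine ⟨k - 1, blk α f j \ P, ?_, ?_, ?_⟩
      · intro v hv
        rw [mem_blk] at hv
        rw [mem_sdiff, mem_blk]
        refine ⟨⟨by rw [hval]; omega, hv.2⟩, fun h => hv.1 (hPβ v h)⟩
      · rw [card_sdiff_of_subset hP, h1, hPc, Nat.sub_mul]
        have : t ≤ k * t := Nat.le_mul_of_pos_left _ hk
        omega
      · have e1 : ∑ v ∈ blk α f j, α v = ∑ v ∈ blk α f j, r v + ∑ v ∈ blk α f j, β v := by
          rw [← sum_add_distrib]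
          exact sum_congr rfl fun v _ => hval v
        have e2 : ∑ v ∈ blk α f j, r v = d := by
          rw [← hr, Finsupp.degree_apply]
          symm
          apply sum_subset hri
          intro v _ hv
          exact Finsupp.notMem_support_iff.1 hv
        have e3 : ∑ v ∈ blk α f j, β v = ∑ v ∈ blk β f j, β v := by
          symm
          apply sum_subset
          · intro v hv
            rw [mem_blk] at hv ⊢
            exact ⟨by rw [hval]; omega, hv.2⟩
          · intro v hv hv'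
            rw [mem_blk] at hv hv'
            by_contra h0
            exact hv' ⟨h0, hv.2⟩
        rw [h2, e2, e3] at e1
        rw [Nat.sub_mul]
        omega
    · have hr0 : ∀ v, f v = j → r v = 0 := by
        intro v hv
        by_contra h0
        have := hri (Finsupp.mem_support_iff.2 h0)
        rw [mem_blk] at this
        exact hji (hv.symm.trans this.2)
      have hb : blk β f j = blk α f j := by
        ext v
        rw [mem_blk, mem_blk]
        constructor
        · rintro ⟨h3, h4⟩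
          exact ⟨by rw [hval]; omega, h4⟩
        · rintro ⟨h3, h4⟩
          rw [hval, hr0 v h4] at h3
          exact ⟨by omega, h4⟩
      refine ⟨k, blk α f j, by rw [hb], h1, ?_⟩
      rw [hb, ← h2]
      apply sum_congr rfl
      intro v hv
      rw [hval, hr0 v (mem_blk.1 hv).2, zero_add]

/-- A common leaf row (or closed row). -/
lemma eqv_of_leaf (ht : 2 ≤ t) (hd : 1 ≤ d) (hf : TS d t α J f) (hg : TS d t α J g) {i j : ℕ}
    {P : Finset σ} {c : σ} (hL : Leaf α d t (blk α f i ∩ blk α g j) P c)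
    (hk : 1 ≤ k) (hdeg : α.degree = k * d)
    (H : ∀ k' < k, ∀ β : σ →₀ ℕ, β.support.card ≤ α.support.card → Conn d (t + 1) k' β) :
    Eqv d t k α f g := by
  obtain ⟨β, hβ⟩ := exists_add_of_le hL.lrow_le
  have hsup : (lrow α d P c).support ⊆ blk α f i ∩ blk α g j := by
    intro v hv
    rcases mem_insert.1 (support_lrow hv) with rfl | h
    · exact hL.mem
    · exact hL.sub h
  have hPβ : ∀ v ∈ P, β v = 0 := by
    intro v hv
    have h1 : α v = lrow α d P c v + β v := by
      conv_lhs => rw [hβ]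
      rfl
    rw [lrow_apply, if_pos hv] at h1
    omega
  have hr := hL.isRow
  apply eqv_of_row ht hd hf.ws hg.ws hr hβ
  · exact ⟨i, fun v hv => (mem_blk.1 (mem_inter.1 (hsup hv)).1).2⟩
  · exact ⟨j, fun v hv => (mem_blk.1 (mem_inter.1 (hsup hv)).2).2⟩
  · exact hf.remove hr.1 hβ (hsup.trans inter_subset_left) (hL.sub.trans inter_subset_left)
      hL.card hPβ
  · exact hg.remove hr.1 hβ (hsup.trans inter_subset_right) (hL.sub.trans inter_subset_right)
      hL.card hPβ
  · exact hk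
  · exact hdeg
  · apply H _ (by omega)
    apply card_le_card
    intro v hv
    rw [Finsupp.mem_support_iff] at hv ⊢
    have h1 : α v = lrow α d P c v + β v := by
      conv_lhs => rw [hβ]
      rfl
    omega

lemma blk_swap {v w : σ} (hvw : α v = α w) (j : ℕ) :
    blk α (f ∘ Equiv.swap v w) j = (blk α f j).map (Equiv.swap v w).toEmbedding := by
  have hα : ∀ x, α (Equiv.swap v w x) = α x := by
    intro x
    by_cases h1 : x = v
    · subst h1; rw [Equiv.swap_apply_left, hvw]
    · by_cases h2 : x = w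
      · subst h2; rw [Equiv.swap_apply_right, hvw]
      · rw [Equiv.swap_apply_of_ne_of_ne h1 h2]
  ext x
  rw [mem_blk, mem_map]
  constructor
  · rintro ⟨h1, h2⟩
    refine ⟨Equiv.swap v w x, mem_blk.2 ⟨by rw [hα]; exact h1, h2⟩, by simp⟩
  · rintro ⟨y, hy, rfl⟩
    rw [mem_blk] at hy
    refine ⟨?_, ?_⟩
    · simp only [Equiv.coe_toEmbedding]; rw [hα]; exact hy.1
    · simpa using hy.2

lemma TS.swap (hf : TS d t α J f) {v w : σ} (hvw : α v = α w) :
    TS d t α J (f ∘ Equiv.swap v w) := by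
  have hα : ∀ x, α (Equiv.swap v w x) = α x := by
    intro x
    by_cases h1 : x = v
    · subst h1; rw [Equiv.swap_apply_left, hvw]
    · by_cases h2 : x = w
      · subst h2; rw [Equiv.swap_apply_right, hvw]
      · rw [Equiv.swap_apply_of_ne_of_ne h1 h2]
  refine ⟨?_, ?_⟩
  · intro x hx
    apply hf.mem
    rw [Finsupp.mem_support_iff] at hx ⊢
    rw [hα]; exact hx
  · intro j hj
    obtain ⟨k, h1, h2, h3⟩ := hf.bk j hj
    refine ⟨k, h1, ?_, ?_⟩
    · rw [blk_swap hvw, card_map, h2]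
    · rw [blk_swap hvw, sum_map, ← h3]
      exact sum_congr rfl fun x _ => hα x

end Pool.Agent.Lib.MP_e26c3f_al
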