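import Mathlib
import Pool.Agent.Lib.MP_e26c3f_al.Moves

/-! Exchanging two variables of exponent one. -/

set_option autoImplicit false
set_option linter.unusedSectionVars false

namespace Pool.Agent.Lib.MP_e26c3f_al

open Finset

variable {σ : Type*} [DecidableEq σ]
variable {α β : σ →₀ ℕ} {d s t k : ℕ} {J : Finset ℕ} {f g h : σ → ℕ}

lemma exists_mem_of_sum_ne {X : Multiset (σ →₀ ℕ)} {y : σ} (h : X.sum y ≠ 0) :
    ∃ u ∈ X, u y ≠ 0 := by
  by_contra hcon
  push Not at hcon
  apply h
  clear h
  induction X using Multiset.induction_on with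
  | empty => simp
  | cons u X ih =>
    rw [Multiset.sum_cons, Finsupp.add_apply, hcon u (by simp), ih fun r hr => hcon r (by simp [hr])]

lemma isRow_exchange {x y : σ} {r0 : σ →₀ ℕ} (hy : r0 y = 0)
    (h : IsRow d s (Finsupp.single y 1 + r0)) : IsRow d s (Finsupp.single x 1 + r0) := by
  refine ⟨?_, ?_⟩
  · rw [← h.1, map_add, map_add, Finsupp.degree_single, Finsupp.degree_single]
  · refine le_trans ?_ h.2
    have h6 : (Finsupp.single x 1 + r0).support ⊆
        insert x ((Finsupp.single y 1 + r0).support.erase y) := by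
      intro z hz
      rw [Finsupp.mem_support_iff, Finsupp.add_apply, Finsupp.single_apply] at hz
      rw [mem_insert, mem_erase, Finsupp.mem_support_iff, Finsupp.add_apply]
      by_cases hzx : z = x
      · exact Or.inl hzx
      · right
        rw [if_neg (Ne.symm hzx), zero_add] at hz
        refine ⟨?_, by omega⟩
        rintro rfl; exact hz hy
    refine (card_le_card h6).trans ?_
    refine (card_insert_le _ _).trans ?_
    have hmem : y ∈ (Finsupp.single y 1 + r0).support := by
      rw [Finsupp.mem_support_iff, Finsupp.add_apply, Finsupp.single_eq_same]; omega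
    rw [card_erase_of_mem hmem]
    have := card_pos.2 ⟨y, hmem⟩
    omega

lemma eqv_swap_one (ht : 2 ≤ t) (hd : 1 ≤ d) (hf : TS d t α J f) {v w : σ} (hv : α v = 1)
    (hw : α w = 1) : Eqv d t k α f (f ∘ Equiv.swap v w) := by
  by_cases hfvw : f v = f w
  · have : f ∘ Equiv.swap v w = f := by
      funext x
      by_cases h1 : x = v
      · subst h1; rw [Function.comp, Equiv.swap_apply_left, hfvw]
      · by_cases h2 : x = w
        · subst h2; rw [Function.comp, Equiv.swap_apply_right, hfvw]
        · rw [Function.comp, Equiv.swap_apply_of_ne_of_ne h1 h2]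
    rw [this]
    exact eqv_refl ht hd hf.ws
  intro X Y hX hY hfX hgY
  have hvw : v ≠ w := fun e => hfvw (by rw [e])
  obtain ⟨r1, hr1, hr1v⟩ := exists_mem_of_sum_ne (X := X) (y := v) (by rw [hX.sum, hv]; omega)
  obtain ⟨X', rfl⟩ := Multiset.exists_cons_of_mem hr1
  have hs1 : ∀ x, α x = r1 x + X'.sum x := by
    intro x
    rw [← hX.sum, Multiset.sum_cons]; rfl
  obtain ⟨l1, hl1⟩ := hfX r1 hr1
  have hl1v : f v = l1 := hl1 v (Finsupp.mem_support_iff.2 hr1v)
  have hr1w : r1 w = 0 := by
    by_contra h0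
    exact hfvw (by rw [hl1v, hl1 w (Finsupp.mem_support_iff.2 h0)])
  obtain ⟨r2, hr2, hr2w⟩ := exists_mem_of_sum_ne (X := X') (y := w) (by
    have := hs1 w; omega)
  obtain ⟨Z, rfl⟩ := Multiset.exists_cons_of_mem hr2
  have hs2 : ∀ x, α x = r1 x + (r2 x + Z.sum x) := by
    intro x
    rw [hs1 x, Multiset.sum_cons]; rfl
  obtain ⟨l2, hl2⟩ := hfX r2 (by simp)
  have hl2w : f w = l2 := hl2 w (Finsupp.mem_support_iff.2 hr2w)
  have e1 := hs2 v
  have e2 := hs2 w
  obtain ⟨a, ha⟩ : ∃ a, r1 = Finsupp.single v 1 + a := by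
    apply exists_add_of_le
    rw [Finsupp.single_le_iff]; omega
  obtain ⟨b, hb⟩ : ∃ b, r2 = Finsupp.single w 1 + b := by
    apply exists_add_of_le
    rw [Finsupp.single_le_iff]; omega
  have hav : a v = 0 := by
    have : r1 v = 1 + a v := by rw [ha]; simp
    omega
  have haw : a w = 0 := by
    have : r1 w = a w := by rw [ha]; simp [hvw]
    omega
  have hbw : b w = 0 := by
    have : r2 w = 1 + b w := by rw [hb]; simp
    omega
  have hbv : b v = 0 := by
    have : r2 v = b v := by rw [hb]; simp [Ne.symm hvw]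
    omega
  have hrow1 := hX.row r1 (by simp)
  have hrow2 := hX.row r2 (by simp)
  have hstep : Step d (t + 1) (r1 ::ₘ r2 ::ₘ Z)
      ((Finsupp.single w 1 + a) ::ₘ (Finsupp.single v 1 + b) ::ₘ Z) := by
    refine ⟨r1, r2, _, _, Z, rfl, rfl, ?_, hrow1, hrow2, ?_, ?_⟩
    · rw [ha, hb]; abel
    · rw [ha] at hrow1
      exact isRow_exchange hav hrow1
    · rw [hb] at hrow2
      exact isRow_exchange hbw hrow2
  refine hstep.linked.trans ?_
  have hX2 := hstep.cfg hX
  refine linked_of_compat ht hd _ J α _ _ _ Y (hf.swap (hv.trans hw.symm)).ws hX2 hY ?_ hgY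
  intro u hu
  rcases Multiset.mem_cons.1 hu with rfl | hu
  · refine ⟨l1, fun x hx => ?_⟩
    rw [Finsupp.mem_support_iff, Finsupp.add_apply, Finsupp.single_apply] at hx
    by_cases hxw : x = w
    · subst hxw
      rw [Function.comp, Equiv.swap_apply_right, hl1v]
    · rw [if_neg (Ne.symm hxw), zero_add] at hx
      have hxv : x ≠ v := by rintro rfl; exact hx hav
      rw [Function.comp, Equiv.swap_apply_of_ne_of_ne hxv hxw]
      apply hl1
      rw [Finsupp.mem_support_iff, ha, Finsupp.add_apply]; omega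
  rcases Multiset.mem_cons.1 hu with rfl | hu
  · refine ⟨l2, fun x hx => ?_⟩
    rw [Finsupp.mem_support_iff, Finsupp.add_apply, Finsupp.single_apply] at hx
    by_cases hxv : x = v
    · subst hxv
      rw [Function.comp, Equiv.swap_apply_left, hl2w]
    · rw [if_neg (Ne.symm hxv), zero_add] at hx
      have hxw : x ≠ w := by rintro rfl; exact hx hbw
      rw [Function.comp, Equiv.swap_apply_of_ne_of_ne hxv hxw]
      apply hl2
      rw [Finsupp.mem_support_iff, hb, Finsupp.add_apply]; omega
  · obtain ⟨l, hl⟩ := hfX u (by simp [hu])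
    refine ⟨l, fun x hx => ?_⟩
    have hle : u x ≤ Z.sum x := Multiset.single_le_sum (fun _ _ => zero_le) _ hu x
    rw [Finsupp.mem_support_iff] at hx
    have hxv : x ≠ v := by rintro rfl; omega
    have hxw : x ≠ w := by rintro rfl; omega
    rw [Function.comp, Equiv.swap_apply_of_ne_of_ne hxv hxw]
    exact hl x (Finsupp.mem_support_iff.2 hx)

end Pool.Agent.Lib.MP_e26c3f_al
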