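import Mathlib
import Pool.Agent.Lib.MP_e26c3f_al.SwapOne
import Pool.Agent.Lib.MP_e26c3f_al.AbsDefs

/-! Fibres with at least three tight blocks: reduction to abstract states. -/

set_option autoImplicit false
set_option linter.unusedSectionVars false

namespace Pool.Agent.Lib.MP_e26c3f_al

open Finset

variable {σ : Type*} [DecidableEq σ]
variable {α β : σ →₀ ℕ} {d s t k : ℕ} {J : Finset ℕ} {f g h : σ → ℕ}

/-- The variables of exponent at least two. -/
def NF (α : σ →₀ ℕ) : Finset σ := α.support.filter fun v => 2 ≤ α v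

/-- Excess. -/
def exc (α : σ →₀ ℕ) (v : σ) : ℕ := α v - 1

/-- The variables of exponent two. -/
def twos (α : σ →₀ ℕ) (S : Finset σ) : Finset σ := S.filter fun v => α v = 2

lemma mem_NF {v : σ} : v ∈ NF α ↔ 2 ≤ α v := by
  rw [NF, mem_filter, Finsupp.mem_support_iff]
  constructor
  · exact fun h => h.2
  · exact fun h => ⟨by omega, h⟩

lemma sum_NF_blk (j : ℕ) :
    ∑ v ∈ (NF α).filter (fun v => f v = j), exc α v + (blk α f j).card =
      ∑ v ∈ blk α f j, α v := by
  have h1 : ∑ v ∈ (NF α).filter (fun v => f v = j), exc α v = ∑ v ∈ blk α f j, exc α v := by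
    apply sum_subset
    · intro v hv
      rw [mem_filter, mem_NF] at hv
      exact mem_blk.2 ⟨by omega, hv.2⟩
    · intro v hv hv'
      rw [mem_blk] at hv
      rw [mem_filter, mem_NF, not_and] at hv'
      unfold exc
      have : ¬ 2 ≤ α v := fun h => hv' h hv.2
      omega
  rw [h1, card_eq_sum_ones, ← sum_add_distrib]
  apply sum_congr rfl
  intro v hv
  rw [mem_blk] at hv
  unfold exc
  omega

lemma TS.sum_exc (hdt : t ≤ d) (hf : TS d t α J f) {j : ℕ} (hj : j ∈ J) :
    ∃ k, 1 ≤ k ∧ (blk α f j).card = k * t + 1 ∧ ∑ v ∈ blk α f j, α v = k * d ∧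
      ∑ v ∈ (NF α).filter (fun v => f v = j), exc α v + 1 = k * (d - t) := by
  obtain ⟨k, h1, h2, h3⟩ := hf.bk j hj
  refine ⟨k, h1, h2, h3, ?_⟩
  have h4 := sum_NF_blk (α := α) (f := f) j
  rw [h2, h3] at h4
  have h5 : k * (d - t) + k * t = k * d := by rw [← mul_add, Nat.sub_add_cancel hdt]
  omega

lemma TS.st (hdt : t ≤ d) (hf : TS d t α J f) : St (d - t) (exc α) (NF α) J f := by
  refine ⟨?_, ?_⟩
  · intro v hv
    rw [mem_NF] at hv
    exact hf.mem v (Finsupp.mem_support_iff.2 (by omega))
  · intro j hj
    obtain ⟨k, -, -, -, h⟩ := hf.sum_exc hdt hj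
    rw [h]
    exact Dvd.intro_left k rfl

/-- Tight states which agree on the variables of exponent at least two. -/
lemma eqv_of_agree (ht : 2 ≤ t) (hdt : t + 1 ≤ d) (hdeg : α.degree = k * d)
    (hg : TS d t α J g) : ∀ (n : ℕ) (f : σ → ℕ), TS d t α J f → (∀ v ∈ NF α, f v = g v) →
    (α.support.filter fun v => f v ≠ g v).card = n → Eqv d t k α f g := by
  have hd : 1 ≤ d := by omega
  intro n
  induction n using Nat.strong_induction_on with
  | _ n ih =>
    intro f hf hfg hn
    by_cases hex : ∃ v ∈ α.support, f v ≠ g v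
    · obtain ⟨v, hv, hvne⟩ := hex
      have hv1 : α v = 1 := by
        rw [Finsupp.mem_support_iff] at hv
        by_contra h1
        exact hvne (hfg v (mem_NF.2 (by omega)))
      have hj := hg.mem v hv
      obtain ⟨k1, -, h1, -, h2⟩ := hf.sum_exc (by omega) hj
      obtain ⟨k2, -, h3, -, h4⟩ := hg.sum_exc (by omega) hj
      have e1 : (NF α).filter (fun x => f x = g v) = (NF α).filter (fun x => g x = g v) := by
        apply filter_congr
        intro x hx
        rw [hfg x hx]
      rw [e1, h4] at h2
      have e2 : k2 = k1 := Nat.eq_of_mul_eq_mul_right (by omega : 0 < d - t) h2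
      subst e2
      obtain ⟨w, hw, hw'⟩ : ∃ w ∈ blk α f (g v), w ∉ blk α g (g v) := by
        by_contra hcon
        push Not at hcon
        have hsub : blk α f (g v) ⊆ blk α g (g v) := hcon
        have h5 := eq_of_subset_of_card_le hsub (by rw [h1, h3])
        have h6 : v ∈ blk α g (g v) := mem_blk.2 ⟨by omega, rfl⟩
        rw [← h5] at h6
        exact hvne (mem_blk.1 h6).2
      rw [mem_blk] at hw hw'
      have hgw : g w ≠ g v := fun h => hw' ⟨hw.1, h⟩
      have hfw : f w ≠ g w := by rw [hw.2]; exact Ne.symm hgw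
      have hw1 : α w = 1 := by
        by_contra h1
        exact hfw (hfg w (mem_NF.2 (by omega)))
      have hvw : v ≠ w := by rintro rfl; exact hgw rfl
      have hf' := hf.swap (hv1.trans hw1.symm)
      refine (eqv_swap_one ht hd hf hv1 hw1).trans hd hdeg hf'.ws (ih _ ?_ _ hf' ?_ rfl)
      · rw [← hn]
        apply card_lt_card
        refine ⟨?_, ?_⟩
        · intro x hx
          rw [mem_filter, Function.comp] at hx
          rw [mem_filter]
          refine ⟨hx.1, ?_⟩
          by_cases h1 : x = v
          · rw [h1]; exact hvne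
          · by_cases h2 : x = w
            · rw [h2]; exact hfw
            · rw [Equiv.swap_apply_of_ne_of_ne h1 h2] at hx
              exact hx.2
        · intro hcon
          have h1 := hcon (mem_filter.2 ⟨hv, hvne⟩)
          rw [mem_filter, Function.comp, Equiv.swap_apply_left] at h1
          exact h1.2 hw.2
      · intro x hx
        rw [mem_NF] at hx
        have h1 : x ≠ v := by rintro rfl; omega
        have h2 : x ≠ w := by rintro rfl; omega
        rw [Function.comp, Equiv.swap_apply_of_ne_of_ne h1 h2]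
        exact hfg x (mem_NF.2 hx)
    · push Not at hex
      intro X Y hX hY hfX hgY
      apply linked_of_compat ht hd g J α k k X Y hg.ws hX hY ?_ hgY
      intro r hr
      obtain ⟨l, hl⟩ := hfX r hr
      refine ⟨l, fun v hv => ?_⟩
      rw [← hex v (compat_row_sub hX hr hv)]
      exact hl v hv

lemma twos_swap {v w : σ} (hvw : α v = α w) (j : ℕ) :
    (twos α (blk α (f ∘ Equiv.swap v w) j)).card = (twos α (blk α f j)).card := by
  have hα : ∀ x, α (Equiv.swap v w x) = α x := by
    intro x
    by_cases h1 : x = v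
    · subst h1; rw [Equiv.swap_apply_left, hvw]
    · by_cases h2 : x = w
      · subst h2; rw [Equiv.swap_apply_right, hvw]
      · rw [Equiv.swap_apply_of_ne_of_ne h1 h2]
  have : twos α (blk α (f ∘ Equiv.swap v w) j) =
      (twos α (blk α f j)).map (Equiv.swap v w).toEmbedding := by
    rw [blk_swap hvw]
    ext x
    rw [twos, mem_filter, mem_map, mem_map]
    constructor
    · rintro ⟨⟨y, hy, rfl⟩, h2⟩
      refine ⟨y, mem_filter.2 ⟨hy, ?_⟩, rfl⟩
      rw [← hα y]; exact h2
    · rintro ⟨y, hy, rfl⟩
      rw [twos, mem_filter] at hy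
      exact ⟨⟨y, hy.1, rfl⟩, (hα y).trans hy.2⟩
  rw [this, card_map]

/-- Two states with blocks containing many variables of exponent two. -/
lemma eqv_rich (ht : 2 ≤ t) (hd1 : 2 * t + 1 ≤ d) (hd2 : d ≤ 2 * t + 2) (hJ : 3 ≤ J.card)
    (hk : 1 ≤ k) (hdeg : α.degree = k * d)
    (H : ∀ k' < k, ∀ β : σ →₀ ℕ, β.support.card ≤ α.support.card → Conn d (t + 1) k' β)
    (hf : TS d t α J f) {i j : ℕ} (hi : t + 1 ≤ (twos α (blk α f i)).card)
    (hg : TS d t α J g) (hj : t + 1 ≤ (twos α (blk α g j)).card) : Eqv d t k α f g := by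
  have hd : 1 ≤ d := by omega
  obtain ⟨Z, hZ, hZc⟩ := exists_subset_card_eq hi
  have hZ2 : ∀ z ∈ Z, α z = 2 ∧ z ∈ blk α f i := fun z hz =>
    ⟨(mem_filter.1 (hZ hz)).2, (mem_filter.1 (hZ hz)).1⟩
  have claim : ∀ (n : ℕ) (g : σ → ℕ), TS d t α J g → t + 1 ≤ (twos α (blk α g j)).card →
      (Z \ blk α g j).card = n → Eqv d t k α f g := by
    intro n
    induction n with
    | zero =>
      intro g hg _ hn
      rw [card_eq_zero, sdiff_eq_empty_iff_subset] at hn
      obtain ⟨c, hc⟩ := card_pos.1 (show 0 < Z.card by omega)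
      have hsum : ∑ v ∈ Z.erase c, α v = 2 * t := by
        rw [sum_congr rfl fun v hv => (hZ2 v (mem_of_mem_erase hv)).1, sum_const,
          card_erase_of_mem hc, hZc, smul_eq_mul]
        simp
        ring
      apply eqv_of_leaf (i := i) (j := j) (P := Z.erase c) (c := c) ht hd hf hg ?_ hk hdeg H
      refine ⟨?_, ?_, ?_, ?_, ?_, ?_⟩
      · intro v hv
        have := mem_of_mem_erase hv
        exact mem_inter.2 ⟨(hZ2 v this).2, hn this⟩
      · rw [card_erase_of_mem hc, hZc]; rfl
      · exact mem_inter.2 ⟨(hZ2 c hc).2, hn hc⟩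
      · exact notMem_erase c Z
      · rw [hsum]; omega
      · rw [hsum, (hZ2 c hc).1]; exact hd2
    | succ n ih =>
      intro g hg hj hn
      obtain ⟨z, hz⟩ := card_pos.1 (show 0 < (Z \ blk α g j).card by omega)
      rw [mem_sdiff] at hz
      obtain ⟨y, hy, hyZ⟩ : ∃ y ∈ twos α (blk α g j), y ∉ Z := by
        by_contra hcon
        push Not at hcon
        have h1 : twos α (blk α g j) ⊆ Z := hcon
        have h2 := eq_of_subset_of_card_le h1 (by omega)
        rw [← h2] at hz
        exact hz.2 (mem_filter.1 hz.1).1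
      rw [twos, mem_filter, mem_blk] at hy
      have hz2 := (hZ2 z hz.1).1
      have hzy : α z = α y := by rw [hz2, hy.2]
      have hgz : g z ≠ j := fun h => hz.2 (mem_blk.2 ⟨by omega, h⟩)
      have hg' := hg.swap hzy
      have hne : z ≠ y := by rintro rfl; exact hyZ hz.1
      have h3 : Eqv d t k α f (g ∘ Equiv.swap z y) := by
        apply ih _ hg'
        · rw [twos_swap hzy]; exact hj
        · have : Z \ blk α (g ∘ Equiv.swap z y) j = (Z \ blk α g j).erase z := by
            ext x
            rw [mem_erase, mem_sdiff, mem_sdiff, mem_blk, mem_blk, Function.comp]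
            by_cases h1 : x = z
            · subst h1
              rw [Equiv.swap_apply_left]
              constructor
              · rintro ⟨_, h2⟩; exact absurd ⟨by omega, hy.1.2⟩ h2
              · rintro ⟨h2, _⟩; exact absurd rfl h2
            · by_cases h2 : x = y
              · subst h2
                constructor
                · rintro ⟨h3, _⟩; exact absurd h3 hyZ
                · rintro ⟨_, h3, _⟩; exact absurd h3 hyZ
              · rw [Equiv.swap_apply_of_ne_of_ne h1 h2]
                tauto
          rw [this, card_erase_of_mem (mem_sdiff.2 hz), hn]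
          rfl
      have h4 : Eqv d t k α g (g ∘ Equiv.swap z y) := by
        apply eqv_two ht hd hg (i := g z) (j := j) ?_ hJ H
        intro x _
        by_cases h1 : x = z
        · subst h1
          right
          rw [Function.comp, Equiv.swap_apply_left, hy.1.2]
          exact ⟨Or.inl rfl, Or.inr rfl⟩
        · by_cases h2 : x = y
          · subst h2
            right
            rw [Function.comp, Equiv.swap_apply_right, hy.1.2]
            exact ⟨Or.inr rfl, Or.inl rfl⟩
          · left
            rw [Function.comp, Equiv.swap_apply_of_ne_of_ne h1 h2]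
      exact h3.trans hd hdeg hg'.ws h4.symm
  exact claim _ g hg hj rfl

end Pool.Agent.Lib.MP_e26c3f_al
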