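import Mathlib
import Pool.Agent.Lib.MP_e26c3f_al.Many

/-! Lifting abstract moves. -/

set_option autoImplicit false
set_option linter.unusedSectionVars false

namespace Pool.Agent.Lib.MP_e26c3f_al

open Finset

variable {σ : Type*} [DecidableEq σ]
variable {α β : σ →₀ ℕ} {d s t k : ℕ} {J : Finset ℕ} {f g h : σ → ℕ}

/-- A set of variables of exponent at least two is not too large. -/
lemma card_le_of_sum {T : Finset σ} {m b : ℕ} (ht : 2 ≤ t) (hb : b ≤ t + 2)
    (hT : ∀ v ∈ T, 2 ≤ α v) (hs : ∑ v ∈ T, exc α v + 1 = m * b)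
    (ho : t + 1 ≤ b → (twos α T).card ≤ 2 * t) : T.card ≤ m * t + 1 := by
  by_contra hcon
  push Not at hcon
  have h1 : T.card ≤ ∑ v ∈ T, exc α v := by
    rw [card_eq_sum_ones]
    apply sum_le_sum
    intro v hv
    have := hT v hv
    unfold exc
    omega
  have h2 : 2 * T.card ≤ ∑ v ∈ T, exc α v + (twos α T).card := by
    rw [twos, card_filter, ← sum_add_distrib, mul_comm, ← smul_eq_mul, ← sum_const]
    apply sum_le_sum
    intro v hv
    have := hT v hv
    unfold exc
    split_ifs with h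
    · omega
    · omega
  rcases Nat.lt_or_ge b (t + 1) with h3 | h3
  · have : m * b ≤ m * t := Nat.mul_le_mul_left _ (by omega)
    omega
  · have h4 := ho h3
    rcases Nat.lt_or_ge b (t + 2) with h5 | h5
    · have hb1 : b = t + 1 := by omega
      subst hb1
      rw [mul_add, mul_one] at hs
      have hm : 3 ≤ m := by omega
      have h6 : 3 * t ≤ m * t := Nat.mul_le_mul_right _ hm
      have h7 : m * 2 ≤ m * t := Nat.mul_le_mul_left _ ht
      nlinarith
    · have hb1 : b = t + 2 := by omega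
      subst hb1
      rw [mul_add] at hs
      have hm : 2 ≤ m := by omega
      obtain ⟨m', rfl⟩ : ∃ m', m = m' + 2 := ⟨m - 2, by omega⟩
      have h7 : m' * 2 ≤ m' * t := Nat.mul_le_mul_left _ ht
      have h8 : (m' + 2) * t = m' * t + 2 * t := by ring
      omega

/-- Lifting a rearrangement of two groups. -/
lemma exists_lift (ht : 2 ≤ t) (hd2 : d ≤ 2 * t + 2) (hdt : t + 1 ≤ d) (hJ : 3 ≤ J.card)
    (H : ∀ k' < k, ∀ β : σ →₀ ℕ, β.support.card ≤ α.support.card → Conn d (t + 1) k' β)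
    (hf : TS d t α J f)
    (hrich : 2 * t + 1 ≤ d → ∀ j ∈ J, (twos α (blk α f j)).card ≤ t)
    (hM : Mv (d - t) (exc α) (NF α) J f h) :
    ∃ f', TS d t α J f' ∧ (∀ v ∈ NF α, f' v = h v) ∧ Eqv d t k α f f' := by
  have hd : 1 ≤ d := by omega
  have hb0 : 0 < d - t := by omega
  obtain ⟨-, hh, i, j, hij⟩ := hM
  by_cases hall : ∀ v ∈ NF α, f v = h v
  · exact ⟨f, hf, hall, eqv_refl ht hd hf.ws⟩
  push Not at hall
  obtain ⟨v0, hv0, hne⟩ := hall
  have hiJ : i ∈ J ∧ j ∈ J ∧ i ≠ j := by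
    have h1 := hf.mem v0 (Finsupp.mem_support_iff.2 (by rw [mem_NF] at hv0; omega))
    have h2 := hh.mem v0 hv0
    rcases hij v0 hv0 with h3 | ⟨h3 | h3, h4 | h4⟩
    · exact absurd h3 hne
    · exact absurd (h3.trans h4.symm) hne
    · exact ⟨h3 ▸ h1, h4 ▸ h2, fun e => hne (by rw [h3, h4, e])⟩
    · exact ⟨h4 ▸ h2, h3 ▸ h1, fun e => hne (by rw [h3, h4, e])⟩
    · exact absurd (h3.trans h4.symm) hne
  obtain ⟨hi, hj, hne_ij⟩ := hiJ
  clear hne hv0 v0
  obtain ⟨ki, hki, ci, -, si⟩ := hf.sum_exc (by omega) hi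
  obtain ⟨kj, hkj, cj, -, sj⟩ := hf.sum_exc (by omega) hj
  obtain ⟨ki', si'⟩ := hh.dvd i hi
  obtain ⟨kj', sj'⟩ := hh.dvd j hj
  rw [mul_comm] at si' sj'
  set b := d - t with hb
  set Ti := (NF α).filter (fun v => h v = i) with hTi
  set Tj := (NF α).filter (fun v => h v = j) with hTj
  set Ui := (NF α).filter (fun v => f v = i) with hUi
  set Uj := (NF α).filter (fun v => f v = j) with hUj
  have hTdisj : Disjoint Ti Tj := by
    rw [disjoint_left]
    intro v h1 h2
    rw [hTi, mem_filter] at h1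
    rw [hTj, mem_filter] at h2
    exact hne_ij (h1.2.symm.trans h2.2)
  have hUdisj : Disjoint Ui Uj := by
    rw [disjoint_left]
    intro v h1 h2
    rw [hUi, mem_filter] at h1
    rw [hUj, mem_filter] at h2
    exact hne_ij (h1.2.symm.trans h2.2)
  have hTU : Ti ∪ Tj = Ui ∪ Uj := by
    ext v
    simp only [hTi, hTj, hUi, hUj, mem_union, mem_filter]
    constructor
    · rintro (⟨h1, h2⟩ | ⟨h1, h2⟩)
      · rcases hij v h1 with h3 | ⟨h3 | h3, -⟩
        · exact Or.inl ⟨h1, h3.trans h2⟩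
        · exact Or.inl ⟨h1, h3⟩
        · exact Or.inr ⟨h1, h3⟩
      · rcases hij v h1 with h3 | ⟨h3 | h3, -⟩
        · exact Or.inr ⟨h1, h3.trans h2⟩
        · exact Or.inl ⟨h1, h3⟩
        · exact Or.inr ⟨h1, h3⟩
    · rintro (⟨h1, h2⟩ | ⟨h1, h2⟩)
      · rcases hij v h1 with h3 | ⟨-, h3 | h3⟩
        · exact Or.inl ⟨h1, h3.symm.trans h2⟩
        · exact Or.inl ⟨h1, h3⟩
        · exact Or.inr ⟨h1, h3⟩
      · rcases hij v h1 with h3 | ⟨-, h3 | h3⟩
        · exact Or.inr ⟨h1, h3.symm.trans h2⟩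
        · exact Or.inl ⟨h1, h3⟩
        · exact Or.inr ⟨h1, h3⟩
  have hsumTU : ∑ v ∈ Ti, exc α v + ∑ v ∈ Tj, exc α v =
      ∑ v ∈ Ui, exc α v + ∑ v ∈ Uj, exc α v := by
    rw [← sum_union hTdisj, ← sum_union hUdisj, hTU]
  have hcardTU : Ti.card + Tj.card = Ui.card + Uj.card := by
    rw [← card_union_of_disjoint hTdisj, ← card_union_of_disjoint hUdisj, hTU]
  have hk' : ki' + kj' = ki + kj := by
    have : (ki' + kj') * b = (ki + kj) * b := by
      rw [add_mul, add_mul]; omega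
    exact Nat.eq_of_mul_eq_mul_right hb0 this
  have hki' : 1 ≤ ki' := by
    by_contra h0
    have : ki' = 0 := by omega
    rw [this, zero_mul] at si'
    omega
  have hkj' : 1 ≤ kj' := by
    by_contra h0
    have : kj' = 0 := by omega
    rw [this, zero_mul] at sj'
    omega
  -- the fillers
  set FU := (blk α f i ∪ blk α f j).filter (fun v => α v = 1) with hFU
  have hblkdisj : Disjoint (blk α f i) (blk α f j) := by
    rw [disjoint_left]
    intro v h1 h2
    exact hne_ij ((mem_blk.1 h1).2.symm.trans (mem_blk.1 h2).2)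
  have hFUcard : FU.card + (Ui.card + Uj.card) = ki * t + 1 + (kj * t + 1) := by
    have h1 : (blk α f i ∪ blk α f j).filter (fun v => ¬ α v = 1) = Ui ∪ Uj := by
      ext v
      simp only [mem_filter, mem_union, mem_blk, hUi, hUj, mem_NF]
      constructor
      · rintro ⟨⟨h1, h2⟩ | ⟨h1, h2⟩, h3⟩
        · exact Or.inl ⟨by omega, h2⟩
        · exact Or.inr ⟨by omega, h2⟩
      · rintro (⟨h1, h2⟩ | ⟨h1, h2⟩)
        · exact ⟨Or.inl ⟨by omega, h2⟩, by omega⟩
        · exact ⟨Or.inr ⟨by omega, h2⟩, by omega⟩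
    have h2 := card_filter_add_card_filter_not (s := blk α f i ∪ blk α f j) (fun v => α v = 1)
    rw [h1, card_union_of_disjoint hUdisj, card_union_of_disjoint hblkdisj, ci, cj] at h2
    exact h2
  have htwos : 2 * t + 1 ≤ d → ∀ T ⊆ Ti ∪ Tj, (twos α T).card ≤ 2 * t := by
    intro h1 T hT
    have h2 : twos α T ⊆ twos α (blk α f i) ∪ twos α (blk α f j) := by
      intro v hv
      rw [twos, mem_filter] at hv
      have h3 := hT hv.1
      rw [hTU, mem_union, hUi, hUj, mem_filter, mem_filter, mem_NF] at h3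
      rw [mem_union, twos, twos, mem_filter, mem_filter, mem_blk, mem_blk]
      rcases h3 with h3 | h3
      · exact Or.inl ⟨⟨by omega, h3.2⟩, hv.2⟩
      · exact Or.inr ⟨⟨by omega, h3.2⟩, hv.2⟩
    have h3 := (card_le_card h2).trans (card_union_le _ _)
    have h4 := hrich h1 i hi
    have h5 := hrich h1 j hj
    omega
  have hTi_le : Ti.card ≤ ki' * t + 1 := by
    apply card_le_of_sum (α := α) ht (by omega) ?_ si'
    · intro h1
      exact htwos (by omega) Ti subset_union_left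
    · intro v hv
      rw [hTi, mem_filter, mem_NF] at hv
      exact hv.1
  have hTj_le : Tj.card ≤ kj' * t + 1 := by
    apply card_le_of_sum (α := α) ht (by omega) ?_ sj'
    · intro h1
      exact htwos (by omega) Tj subset_union_right
    · intro v hv
      rw [hTj, mem_filter, mem_NF] at hv
      exact hv.1
  have hkt : ki' * t + kj' * t = ki * t + kj * t := by rw [← add_mul, ← add_mul, hk']
  obtain ⟨FI, hFI, hFIc⟩ := exists_subset_card_eq (s := FU) (n := ki' * t + 1 - Ti.card)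
    (by omega)
  have hFU1 : ∀ v ∈ FU, α v = 1 := fun v hv => (mem_filter.1 hv).2
  let f' : σ → ℕ := fun v => if v ∈ NF α then h v else if v ∈ FI then i else
    if v ∈ FU then j else f v
  have f'1 : ∀ v ∈ NF α, f' v = h v := fun v hv => if_pos hv
  have hFUNF : ∀ v ∈ FU, v ∉ NF α := by
    intro v hv h1
    rw [mem_NF] at h1
    have := hFU1 v hv
    omega
  have f'2 : ∀ v ∈ FI, f' v = i := by
    intro v hv
    have h1 := hFUNF v (hFI hv)
    simp only [f', if_neg h1, if_pos hv]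
  have f'3 : ∀ v ∈ FU \ FI, f' v = j := by
    intro v hv
    rw [mem_sdiff] at hv
    have h1 := hFUNF v hv.1
    simp only [f', if_neg h1, if_neg hv.2, if_pos hv.1]
  have f'4 : ∀ v, v ∉ NF α → v ∉ FU → f' v = f v := by
    intro v h1 h2
    have h3 : v ∉ FI := fun h => h2 (hFI h)
    simp only [f', if_neg h1, if_neg h2, if_neg h3]
  -- membership of fillers
  have hfill : ∀ v, α v ≠ 0 → v ∉ NF α → (v ∈ FU ↔ (f v = i ∨ f v = j)) := by
    intro v h1 h2
    rw [mem_NF] at h2
    rw [hFU, mem_filter, mem_union, mem_blk, mem_blk]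
    constructor
    · rintro ⟨h3 | h3, -⟩
      · exact Or.inl h3.2
      · exact Or.inr h3.2
    · rintro (h3 | h3)
      · exact ⟨Or.inl ⟨h1, h3⟩, by omega⟩
      · exact ⟨Or.inr ⟨h1, h3⟩, by omega⟩
  have hbi : blk α f' i = Ti ∪ FI := by
    ext v
    rw [mem_blk, mem_union, hTi, mem_filter]
    constructor
    · rintro ⟨h1, h2⟩
      by_cases hv : v ∈ NF α
      · rw [f'1 v hv] at h2; exact Or.inl ⟨hv, h2⟩
      · right
        by_contra h3
        by_cases h4 : v ∈ FU
        · rw [f'3 v (mem_sdiff.2 ⟨h4, h3⟩)] at h2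
          exact hne_ij h2.symm
        · rw [f'4 v hv h4] at h2
          exact h4 ((hfill v h1 hv).2 (Or.inl h2))
    · rintro (⟨h1, h2⟩ | h1)
      · rw [f'1 v h1]
        rw [mem_NF] at h1
        exact ⟨by omega, h2⟩
      · have := hFU1 v (hFI h1)
        exact ⟨by omega, f'2 v h1⟩
  have hbj : blk α f' j = Tj ∪ (FU \ FI) := by
    ext v
    rw [mem_blk, mem_union, hTj, mem_filter]
    constructor
    · rintro ⟨h1, h2⟩
      by_cases hv : v ∈ NF α
      · rw [f'1 v hv] at h2; exact Or.inl ⟨hv, h2⟩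
      · right
        rw [mem_sdiff]
        by_cases h3 : v ∈ FI
        · rw [f'2 v h3] at h2
          exact absurd h2 hne_ij
        · refine ⟨?_, h3⟩
          by_contra h4
          rw [f'4 v hv h4] at h2
          exact h4 ((hfill v h1 hv).2 (Or.inr h2))
    · rintro (⟨h1, h2⟩ | h1)
      · rw [f'1 v h1]
        rw [mem_NF] at h1
        exact ⟨by omega, h2⟩
      · have := hFU1 v (mem_sdiff.1 h1).1
        exact ⟨by omega, f'3 v h1⟩
  have hbl : ∀ l, l ≠ i → l ≠ j → blk α f' l = blk α f l := by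
    intro l hli hlj
    ext v
    rw [mem_blk, mem_blk]
    by_cases hv : v ∈ NF α
    · rw [f'1 v hv]
      rcases hij v hv with h1 | ⟨h1, h2⟩
      · rw [h1]
      · constructor
        · rintro ⟨-, h3⟩
          rcases h2 with h2 | h2
          · exact absurd (h3.symm.trans h2) hli
          · exact absurd (h3.symm.trans h2) hlj
        · rintro ⟨-, h3⟩
          rcases h1 with h1 | h1
          · exact absurd (h3.symm.trans h1) hli
          · exact absurd (h3.symm.trans h1) hlj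
    · constructor
      · rintro ⟨h1, h2⟩
        refine ⟨h1, ?_⟩
        by_cases h3 : v ∈ FU
        · by_cases h4 : v ∈ FI
          · rw [f'2 v h4] at h2; exact absurd h2.symm hli
          · rw [f'3 v (mem_sdiff.2 ⟨h3, h4⟩)] at h2; exact absurd h2.symm hlj
        · rwa [f'4 v hv h3] at h2
      · rintro ⟨h1, h2⟩
        refine ⟨h1, ?_⟩
        have h3 : v ∉ FU := by
          intro h3
          rcases (hfill v h1 hv).1 h3 with h4 | h4
          · exact hli (h2.symm.trans h4)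
          · exact hlj (h2.symm.trans h4)
        rw [f'4 v hv h3, h2]
  have hsumT : ∀ T ⊆ NF α, ∑ v ∈ T, α v = ∑ v ∈ T, exc α v + T.card := by
    intro T hT
    rw [card_eq_sum_ones, ← sum_add_distrib]
    apply sum_congr rfl
    intro v hv
    have := mem_NF.1 (hT hv)
    unfold exc
    omega
  have hsumF : ∀ T ⊆ FU, ∑ v ∈ T, α v = T.card := by
    intro T hT
    rw [card_eq_sum_ones]
    exact sum_congr rfl fun v hv => hFU1 v (hT hv)
  have hdisj1 : ∀ T ⊆ NF α, ∀ F ⊆ FU, Disjoint T F := by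
    intro T hT F hF
    rw [disjoint_left]
    intro v h1 h2
    exact hFUNF v (hF h2) (hT h1)
  have hTiNF : Ti ⊆ NF α := filter_subset _ _
  have hTjNF : Tj ⊆ NF α := filter_subset _ _
  have hbt : b + t = d := by omega
  have hFJc : (FU \ FI).card = kj' * t + 1 - Tj.card := by
    rw [card_sdiff_of_subset hFI, hFIc]; omega
  have hTS : TS d t α J f' := by
    refine ⟨?_, ?_⟩
    · intro v hv
      by_cases h1 : v ∈ NF α
      · rw [f'1 v h1]; exact hh.mem v h1
      · by_cases h2 : v ∈ FI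
        · rw [f'2 v h2]; exact hi
        · by_cases h3 : v ∈ FU
          · rw [f'3 v (mem_sdiff.2 ⟨h3, h2⟩)]; exact hj
          · rw [f'4 v h1 h3]; exact hf.mem v hv
    · intro l hl
      by_cases hli : l = i
      · subst hli
        refine ⟨ki', hki', ?_, ?_⟩
        · rw [hbi, card_union_of_disjoint (hdisj1 Ti hTiNF FI hFI), hFIc]
          omega
        · rw [hbi, sum_union (hdisj1 Ti hTiNF FI hFI), hsumT Ti hTiNF, hsumF FI hFI, hFIc,
            ← hbt, mul_add]
          omega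
      · by_cases hlj : l = j
        · subst hlj
          refine ⟨kj', hkj', ?_, ?_⟩
          · rw [hbj, card_union_of_disjoint (hdisj1 Tj hTjNF _ sdiff_subset), hFJc]
            omega
          · rw [hbj, sum_union (hdisj1 Tj hTjNF _ sdiff_subset), hsumT Tj hTjNF,
              hsumF _ sdiff_subset, hFJc, ← hbt, mul_add]
            omega
        · rw [hbl l hli hlj]
          exact hf.bk l hl
  refine ⟨f', hTS, f'1, ?_⟩
  apply eqv_two ht hd hf (i := i) (j := j) ?_ hJ H
  intro v hv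
  rw [Finsupp.mem_support_iff] at hv
  by_cases h1 : v ∈ NF α
  · rw [f'1 v h1]; exact hij v h1
  · by_cases h2 : v ∈ FU
    · right
      refine ⟨(hfill v hv h1).1 h2, ?_⟩
      by_cases h3 : v ∈ FI
      · exact Or.inl (f'2 v h3)
      · exact Or.inr (f'3 v (mem_sdiff.2 ⟨h2, h3⟩))
    · left; rw [f'4 v h1 h2]

/-- Walking along abstract states. -/
lemma exists_lift_path (ht : 2 ≤ t) (hd2 : d ≤ 2 * t + 2) (hdt : t + 1 ≤ d) (hJ : 3 ≤ J.card)
    (hdeg : α.degree = k * d)
    (H : ∀ k' < k, ∀ β : σ →₀ ℕ, β.support.card ≤ α.support.card → Conn d (t + 1) k' β)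
    (hf : TS d t α J f)
    (hrich : 2 * t + 1 ≤ d → ∀ f', TS d t α J f' → Eqv d t k α f f' →
      ∀ j ∈ J, (twos α (blk α f' j)).card ≤ t)
    (hL : Lk (d - t) (exc α) (NF α) J f h) :
    ∃ f', TS d t α J f' ∧ (∀ v ∈ NF α, f' v = h v) ∧ Eqv d t k α f f' := by
  have hd : 1 ≤ d := by omega
  induction hL with
  | refl => exact ⟨f, hf, fun _ _ => rfl, eqv_refl ht hd hf.ws⟩
  | tail _ hM ih =>
    obtain ⟨f1, h1, h2, h3⟩ := ih
    obtain ⟨f2, h4, h5, h6⟩ := exists_lift ht hd2 hdt hJ H h1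
      (fun hh j hj => hrich hh f1 h1 h3 j hj) (by
        obtain ⟨-, hSt, i, j, hij⟩ := hM
        refine ⟨h1.st (by omega), hSt, i, j, ?_⟩
        intro v hv
        rw [h2 v hv]
        exact hij v hv)
    exact ⟨f2, h4, h5, h3.trans hd hdeg h1.ws h6⟩

/-- At least three tight blocks. -/
theorem eqv_many (ht : 2 ≤ t) (hd2 : d ≤ 2 * t + 2) (hdt : t + 1 ≤ d) (hJ : 3 ≤ J.card)
    (hk : 1 ≤ k) (hdeg : α.degree = k * d)
    (H : ∀ k' < k, ∀ β : σ →₀ ℕ, β.support.card ≤ α.support.card → Conn d (t + 1) k' β)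
    (hA : AbsConn (d - t) (exc α) (NF α) J) (hf : TS d t α J f) (hg : TS d t α J g) :
    Eqv d t k α f g := by
  have hd : 1 ≤ d := by omega
  have key : ∀ f g, TS d t α J f → TS d t α J g →
      (2 * t + 1 ≤ d → ∀ f', TS d t α J f' → Eqv d t k α f f' →
        ∀ j ∈ J, (twos α (blk α f' j)).card ≤ t) → Eqv d t k α f g := by
    intro f g hf hg hr
    obtain ⟨f', h1, h2, h3⟩ := exists_lift_path ht hd2 hdt hJ hdeg H hf hr
      (hA f g (hf.st (by omega)) (hg.st (by omega)))
    exact h3.trans hd hdeg h1.ws (eqv_of_agree ht hdt hdeg hg _ f' h1 h2 rfl)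
  by_cases h1 : 2 * t + 1 ≤ d → ∀ f', TS d t α J f' → Eqv d t k α f f' →
        ∀ j ∈ J, (twos α (blk α f' j)).card ≤ t
  · exact key f g hf hg h1
  by_cases h2 : 2 * t + 1 ≤ d → ∀ f', TS d t α J f' → Eqv d t k α g f' →
        ∀ j ∈ J, (twos α (blk α f' j)).card ≤ t
  · exact (key g f hg hf h2).symm
  push Not at h1 h2
  obtain ⟨hd1, f', hf', hff', i, hi, hi2⟩ := h1
  obtain ⟨-, g', hg', hgg', j, hj, hj2⟩ := h2
  have h3 := eqv_rich ht hd1 hd2 hJ hk hdeg H hf' (i := i) (by omega) hg' (j := j) (by omega)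
  exact hff'.trans hd hdeg hf'.ws (h3.trans hd hdeg hg'.ws hgg'.symm)

end Pool.Agent.Lib.MP_e26c3f_al
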