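import Mathlib
import Pool.Agent.Lib.MP_e26c3f_al.Tree

/-! Changing the set of variables. -/

set_option autoImplicit false
set_option linter.unusedSectionVars false

namespace Pool.Agent.Lib.MP_e26c3f_al

variable {σ τ : Type*} {d s k : ℕ}

lemma isRow_mapDomain {f : σ → τ} (hf : Function.Injective f) {u : σ →₀ ℕ} :
    IsRow d s (u.mapDomain f) ↔ IsRow d s u := by
  classical
  rw [IsRow, IsRow, Finsupp.degree_mapDomain, Finsupp.mapDomain_support_of_injective hf,
    Finset.card_image_of_injective _ hf]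

lemma exists_mapDomain {f : σ → τ} (hf : Function.Injective f) {a : σ →₀ ℕ} {u : τ →₀ ℕ}
    (h : u ≤ a.mapDomain f) : ∃ b : σ →₀ ℕ, b.mapDomain f = u := by
  classical
  refine ⟨u.comapDomain f hf.injOn, ?_⟩
  apply Finsupp.mapDomain_comapDomain f hf
  intro x hx
  have h1 : x ∈ (a.mapDomain f).support := Finsupp.support_mono h hx
  have h2 := Finsupp.mapDomain_support h1
  obtain ⟨y, -, rfl⟩ := Finset.mem_image.1 h2
  exact ⟨y, rfl⟩

lemma step_lift {f : σ → τ} (hf : Function.Injective f) {X : Multiset (σ →₀ ℕ)}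
    {Z : Multiset (τ →₀ ℕ)} (h : Step d s (X.map (Finsupp.mapDomain f)) Z) :
    ∃ Y, Z = Multiset.map (Finsupp.mapDomain f) Y ∧ Step d s X Y := by
  classical
  obtain ⟨u, v, u', v', W, h1, rfl, h3, hu, hv, hu', hv'⟩ := h
  obtain ⟨a, X1, rfl, rfl, hX1⟩ : ∃ a X1, X = a ::ₘ X1 ∧ Finsupp.mapDomain f a = u ∧
      X1.map (Finsupp.mapDomain f) = v ::ₘ W := by
    have : u ∈ X.map (Finsupp.mapDomain f) := by rw [h1]; simp
    obtain ⟨a, ha, hau⟩ := Multiset.mem_map.1 this
    obtain ⟨X1, rfl⟩ := Multiset.exists_cons_of_mem ha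
    refine ⟨a, X1, rfl, hau, ?_⟩
    rw [Multiset.map_cons, hau] at h1
    exact (Multiset.cons_inj_right u).1 h1
  obtain ⟨b, X2, rfl, rfl, hX2⟩ : ∃ b X2, X1 = b ::ₘ X2 ∧ Finsupp.mapDomain f b = v ∧
      X2.map (Finsupp.mapDomain f) = W := by
    have : v ∈ X1.map (Finsupp.mapDomain f) := by rw [hX1]; simp
    obtain ⟨a, ha, hau⟩ := Multiset.mem_map.1 this
    obtain ⟨X2, rfl⟩ := Multiset.exists_cons_of_mem ha
    refine ⟨a, X2, rfl, hau, ?_⟩
    rw [Multiset.map_cons, hau] at hX1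
    exact (Multiset.cons_inj_right v).1 hX1
  have hsum : Finsupp.mapDomain f (a + b) = u' + v' := by
    rw [Finsupp.mapDomain_add, h3]
  obtain ⟨a', rfl⟩ := exists_mapDomain hf (a := a + b) (u := u') (by
    rw [hsum]; exact le_self_add)
  obtain ⟨b', rfl⟩ := exists_mapDomain hf (a := a + b) (u := v') (by
    rw [hsum]; exact le_add_self)
  refine ⟨a' ::ₘ b' ::ₘ X2, ?_, a, b, a', b', X2, rfl, rfl, ?_, ?_, ?_, ?_, ?_⟩
  · rw [Multiset.map_cons, Multiset.map_cons, hX2]
  · apply Finsupp.mapDomain_injective hf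
    rw [hsum, Finsupp.mapDomain_add]
  · exact (isRow_mapDomain hf).1 hu
  · exact (isRow_mapDomain hf).1 hv
  · exact (isRow_mapDomain hf).1 hu'
  · exact (isRow_mapDomain hf).1 hv'

lemma linked_lift {f : σ → τ} (hf : Function.Injective f) {X : Multiset (σ →₀ ℕ)}
    {Z : Multiset (τ →₀ ℕ)} (h : Linked d s (X.map (Finsupp.mapDomain f)) Z) :
    ∃ Y, Z = Multiset.map (Finsupp.mapDomain f) Y ∧ Linked d s X Y := by
  induction h with
  | refl => exact ⟨X, rfl, Linked.refl _⟩
  | tail _ hstep ih =>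
    obtain ⟨Y, rfl, hY⟩ := ih
    obtain ⟨Y', rfl, hY'⟩ := step_lift hf hstep
    exact ⟨Y', rfl, hY.trans hY'.linked⟩

lemma conn_of_mapDomain {f : σ → τ} (hf : Function.Injective f) {α : σ →₀ ℕ}
    (h : Conn d s k (α.mapDomain f)) : Conn d s k α := by
  intro X Y hX hY
  have key : ∀ Z, Cfg d s k α Z → Cfg d s k (α.mapDomain f) (Z.map (Finsupp.mapDomain f)) := by
    intro Z hZ
    refine ⟨?_, ?_, ?_⟩
    · intro u hu
      obtain ⟨v, hv, rfl⟩ := Multiset.mem_map.1 hu
      exact (isRow_mapDomain hf).2 (hZ.row v hv)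
    · rw [Multiset.card_map, hZ.card]
    · rw [← hZ.sum]
      have := (Finsupp.mapDomain.addMonoidHom f : (σ →₀ ℕ) →+ (τ →₀ ℕ)).map_multiset_sum Z
      exact this.symm
  obtain ⟨Y', hY', hXY⟩ := linked_lift hf (h _ _ (key X hX) (key Y hY))
  have := Multiset.map_injective (Finsupp.mapDomain_injective hf) hY'
  rwa [this]

/-- Theorem T1 for finitely many variables. -/
theorem conn_T1 {n t : ℕ} (ht : 2 ≤ t) (d k : ℕ) (α : Fin n →₀ ℕ)
    (h : α.support.card ≤ k * t + 1) : Conn d (t + 1) k α := by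
  classical
  apply conn_of_mapDomain (f := Fin.val) Fin.val_injective
  apply conn_of_card_support_le ht
  rw [Finsupp.mapDomain_support_of_injective Fin.val_injective,
    Finset.card_image_of_injective _ Fin.val_injective]
  exact h

end Pool.Agent.Lib.MP_e26c3f_al
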