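import Mathlib
import Pool.Agent.Lib.MP_e26c3f_al.SwapOne

/-! Fibres with two tight blocks and at least four rows. -/

set_option autoImplicit false
set_option linter.unusedSectionVars false

namespace Pool.Agent.Lib.MP_e26c3f_al

open Finset

variable {σ : Type*} [DecidableEq σ]
variable {α β : σ →₀ ℕ} {d s t k : ℕ} {J : Finset ℕ} {f g h : σ → ℕ}

lemma cell_dichotomy {S : Finset σ} (hS : ¬ ∃ P c, Leaf α d t S P c) :
    (∀ B ⊆ S, B.card = t → d < ∑ v ∈ B, α v) ∨ (∀ B ⊆ S, B.card = t + 1 → ∑ v ∈ B, α v < d) := by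
  by_contra hcon
  push Not at hcon
  obtain ⟨⟨A, hA, hAc, hAd⟩, ⟨B, hB, hBc, hBd⟩⟩ := hcon
  obtain ⟨Q, hQ, hQc, c, hc, h1, h2⟩ := lemmaC α S t d ⟨A, hA, hAc, hAd⟩ ⟨B, hB, hBc, hBd⟩
  rw [mem_sdiff] at hc
  exact hS ⟨Q, c, hQ, hQc, hc.1, hc.2, h1, h2⟩

lemma heavy_le {S : Finset σ} (h : ∀ B ⊆ S, B.card = t → d < ∑ v ∈ B, α v) (hc : t ≤ S.card) :
    d * S.card ≤ t * ∑ v ∈ S, α v := by
  obtain ⟨B, hB, hBc, -, h1, -⟩ := exists_min_sub α S t hc
  have h2 := h B hB hBc
  calc d * S.card = S.card * d := mul_comm _ _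
    _ ≤ S.card * ∑ v ∈ B, α v := Nat.mul_le_mul_left _ h2.le
    _ ≤ _ := h1

lemma light_le {S : Finset σ} (hd : d ≤ 2 * t + 2)
    (h : ∀ B ⊆ S, B.card = t + 1 → ∑ v ∈ B, α v < d) (hc : t + 1 ≤ S.card) :
    (∑ v ∈ S, α v) + t + 2 ≤ S.card + d ∧ ∃ v ∈ S, α v ≤ 1 := by
  obtain ⟨B, hB, hBc, hex, -, -⟩ := exists_max_sub α S (t + 1) hc
  have h2 := h B hB hBc
  obtain ⟨v, hv, hv1⟩ : ∃ v ∈ B, α v ≤ 1 := by
    by_contra hcon
    push Not at hcon
    have : B.card • 2 ≤ ∑ v ∈ B, α v := card_nsmul_le_sum _ _ _ fun v hv => hcon v hv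
    rw [hBc, smul_eq_mul] at this
    omega
  refine ⟨?_, v, hB hv, hv1⟩
  have h3 : ∑ x ∈ S \ B, α x ≤ (S \ B).card • 1 :=
    sum_le_card_nsmul _ _ _ fun x hx => (hex v hv x hx).trans hv1
  have h4 : ∑ x ∈ S \ B, α x + ∑ x ∈ B, α x = ∑ x ∈ S, α x := sum_sdiff hB
  rw [card_sdiff_of_subset hB, hBc, smul_eq_mul, mul_one] at h3
  omega

/-- The weight function of the two block argument. -/
def DD (α : σ →₀ ℕ) (d t : ℕ) (S : Finset σ) : ℤ := d * S.card - t * (∑ v ∈ S, α v : ℕ)

lemma cell_small {S : Finset σ} (ht : 2 ≤ t) (hd : d ≤ 2 * t + 2) (hdt : t + 1 ≤ d)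
    (hS : ¬ ∃ P c, Leaf α d t S P c) (h0 : 0 < DD α d t S) (h1 : DD α d t S < d) :
    S.card ≤ t := by
  by_contra hcon
  push Not at hcon
  rcases cell_dichotomy hS with h | h
  · have h2 := heavy_le h (by omega)
    unfold DD at h0
    have h3 : ((d * S.card : ℕ) : ℤ) ≤ ((t * ∑ v ∈ S, α v : ℕ) : ℤ) := by exact_mod_cast h2
    push_cast at h3
    push_cast at h0
    omega
  · obtain ⟨h2, -⟩ := light_le hd h hcon
    unfold DD at h1
    obtain ⟨e, rfl⟩ : ∃ e, d = t + e := ⟨d - t, by omega⟩
    obtain ⟨m, hm⟩ : ∃ m, S.card = t + 1 + m := ⟨S.card - t - 1, by omega⟩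
    rw [hm] at h1 h2
    have h3 : ((t * (∑ v ∈ S, α v) : ℕ) : ℤ) ≤ ((t * (m + t + e - 1) : ℕ) : ℤ) := by
      exact_mod_cast Nat.mul_le_mul_left t (by omega)
    have h4 : ((m + t + e - 1 : ℕ) : ℤ) = m + t + e - 1 := by omega
    push_cast at h1 h3
    rw [h4] at h3
    nlinarith

lemma cell_no_one {S : Finset σ} (ht : 2 ≤ t) (hd : d ≤ 2 * t + 2)
    (hS : ¬ ∃ P c, Leaf α d t S P c) (h0 : (d : ℤ) ≤ DD α d t S) (hdt : t + 1 ≤ d)
    (h1 : ∀ v ∈ S, 2 ≤ α v) : False := by
  have h2 : S.card • 2 ≤ ∑ v ∈ S, α v := card_nsmul_le_sum _ _ _ h1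
  rw [smul_eq_mul] at h2
  rcases Nat.lt_or_ge S.card (t + 1) with hc | hc
  · unfold DD at h0
    have h3 : ((t * (S.card * 2) : ℕ) : ℤ) ≤ ((t * ∑ v ∈ S, α v : ℕ) : ℤ) := by
      exact_mod_cast Nat.mul_le_mul_left t h2
    push_cast at h0 h3
    have hc' : (S.card : ℤ) ≤ t := by omega
    have hd' : (d : ℤ) ≤ 2 * t + 2 := by omega
    have h5 : (0 : ℤ) ≤ S.card := by positivity
    have ht' : (2 : ℤ) ≤ t := by omega
    have h6 : (d : ℤ) ≤ (d - 2 * t) * S.card := by nlinarith
    rcases lt_or_ge (d : ℤ) (2 * t + 1) with h7 | h7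
    · have : (d - 2 * t : ℤ) * S.card ≤ 0 := mul_nonpos_of_nonpos_of_nonneg (by omega) h5
      omega
    · have h8 : (d - 2 * t : ℤ) * S.card ≤ (d - 2 * t) * t :=
        mul_le_mul_of_nonneg_left hc' (by omega)
      have h9 : (d - 2 * t : ℤ) * t ≤ 2 * t := mul_le_mul_of_nonneg_right (by omega) (by omega)
      rcases eq_or_lt_of_le h7 with h10 | h10
      · have : (d : ℤ) - 2 * t = 1 := by omega
        rw [this, one_mul] at h8
        rw [this, one_mul] at h6
        omega
      · linarith
  · rcases cell_dichotomy hS with h | h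
    · have h3 := heavy_le h (by omega)
      unfold DD at h0
      have h4 : ((d * S.card : ℕ) : ℤ) ≤ ((t * ∑ v ∈ S, α v : ℕ) : ℤ) := by exact_mod_cast h3
      push_cast at h4 h0
      omega
    · obtain ⟨-, v, hv, hv1⟩ := light_le hd h hc
      have := h1 v hv
      omega

lemma Compat.comp {X : Multiset (σ →₀ ℕ)} (h : Compat f X) (π : ℕ → ℕ) : Compat (π ∘ f) X := by
  intro r hr
  obtain ⟨j, hj⟩ := h r hr
  exact ⟨π j, fun v hv => by rw [Function.comp, hj v hv]⟩

/-- Two tight blocks, at least four rows. -/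
theorem eqv_two_blocks (ht : 2 ≤ t) (hd : d ≤ 2 * t + 2) (hdt : t + 1 ≤ d) (hk : 4 ≤ k)
    (hdeg : α.degree = k * d) {i j : ℕ} (hij : i ≠ j) (hf : TS d t α {i, j} f)
    (H : ∀ k' < k, ∀ β : σ →₀ ℕ, β.support.card ≤ α.support.card → Conn d (t + 1) k' β) :
    ∀ g, TS d t α {i, j} g → Eqv d t k α f g := by
  have hd1 : 1 ≤ d := by omega
  -- splitting of blocks
  have hsplit : ∀ (g : σ → ℕ), TS d t α {i, j} g → ∀ S ⊆ α.support,
      (S ∩ blk α g i).card + (S ∩ blk α g j).card = S.card ∧
      ∑ v ∈ S ∩ blk α g i, α v + ∑ v ∈ S ∩ blk α g j, α v = ∑ v ∈ S, α v := by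
    intro g hg S hS
    have h1 : S ∩ blk α g i ∪ S ∩ blk α g j = S := by
      rw [← inter_union_distrib_left]
      apply inter_eq_left.2
      intro v hv
      have h2 := hg.mem v (hS hv)
      rw [mem_insert, mem_singleton] at h2
      rw [mem_union, mem_blk, mem_blk]
      have h3 := Finsupp.mem_support_iff.1 (hS hv)
      tauto
    have h2 : Disjoint (S ∩ blk α g i) (S ∩ blk α g j) := by
      rw [disjoint_left]
      intro v h3 h4
      rw [mem_inter, mem_blk] at h3 h4
      exact hij (h3.2.2.symm.trans h4.2.2)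
    constructor
    · rw [← card_union_of_disjoint h2, h1]
    · rw [← sum_union h2, h1]
  have hsub : ∀ (g : σ → ℕ) (l : ℕ), blk α g l ⊆ α.support := fun g l => filter_subset _ _
  have hDadd : ∀ (g : σ → ℕ), TS d t α {i, j} g → ∀ S ⊆ α.support,
      DD α d t (S ∩ blk α g i) + DD α d t (S ∩ blk α g j) = DD α d t S := by
    intro g hg S hS
    obtain ⟨h1, h2⟩ := hsplit g hg S hS
    unfold DD
    have h1' : ((S ∩ blk α g i).card : ℤ) + (S ∩ blk α g j).card = S.card := by exact_mod_cast h1
    have h2' : ((∑ v ∈ S ∩ blk α g i, α v : ℕ) : ℤ) + (∑ v ∈ S ∩ blk α g j, α v : ℕ) =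
      (∑ v ∈ S, α v : ℕ) := by exact_mod_cast h2
    linear_combination (d : ℤ) * h1' - (t : ℤ) * h2'
  have hDblk : ∀ (g : σ → ℕ), TS d t α {i, j} g → ∀ l ∈ ({i, j} : Finset ℕ),
      DD α d t (blk α g l) = d := by
    intro g hg l hl
    obtain ⟨m, -, h1, h2⟩ := hg.bk l hl
    unfold DD
    rw [h1, h2]
    push_cast
    ring
  have hN : α.support.card = k * t + 2 := by
    have h1 := card_blk hf.mem
    have h2 := sum_blk hf.mem (fun v => α v)
    rw [← Finsupp.degree_apply, hdeg] at h2
    rw [sum_pair hij] at h1 h2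
    obtain ⟨m1, -, h3, h4⟩ := hf.bk i (by simp)
    obtain ⟨m2, -, h5, h6⟩ := hf.bk j (by simp)
    rw [h4, h6, ← add_mul] at h2
    have h7 : k = m1 + m2 := Nat.eq_of_mul_eq_mul_right hd1 h2
    rw [h1, h3, h5, h7]
    ring
  have hNs : ∀ (g : σ → ℕ), TS d t α {i, j} g →
      (blk α f i ∩ blk α g i).card + (blk α f i ∩ blk α g j).card +
      ((blk α f j ∩ blk α g i).card + (blk α f j ∩ blk α g j).card) = k * t + 2 := by
    intro g hg
    rw [(hsplit g hg _ (hsub f i)).1, (hsplit g hg _ (hsub f j)).1, ← hN, card_blk hf.mem,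
      sum_pair hij]
  have claim : ∀ (m : ℕ) (g : σ → ℕ), TS d t α {i, j} g →
      0 < DD α d t (blk α f i ∩ blk α g i) →
      ((blk α f i ∩ blk α g i).filter fun v => α v = 1).card = m → Eqv d t k α f g := by
    intro m
    induction m using Nat.strong_induction_on with
    | _ m ih =>
      intro g hg hx hm
      by_cases hL11 : ∃ P c, Leaf α d t (blk α f i ∩ blk α g i) P c
      · obtain ⟨P, c, hL⟩ := hL11
        exact eqv_of_leaf ht hd1 hf hg hL (by omega) hdeg H
      by_cases hL12 : ∃ P c, Leaf α d t (blk α f i ∩ blk α g j) P c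
      · obtain ⟨P, c, hL⟩ := hL12
        exact eqv_of_leaf ht hd1 hf hg hL (by omega) hdeg H
      by_cases hL21 : ∃ P c, Leaf α d t (blk α f j ∩ blk α g i) P c
      · obtain ⟨P, c, hL⟩ := hL21
        exact eqv_of_leaf ht hd1 hf hg hL (by omega) hdeg H
      by_cases hL22 : ∃ P c, Leaf α d t (blk α f j ∩ blk α g j) P c
      · obtain ⟨P, c, hL⟩ := hL22
        exact eqv_of_leaf ht hd1 hf hg hL (by omega) hdeg H
      have e1 := hDadd g hg _ (hsub f i)
      have e2 := hDadd g hg _ (hsub f j)
      rw [hDblk f hf i (by simp)] at e1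
      rw [hDblk f hf j (by simp)] at e2
      have e3 := hDadd f hf _ (hsub g i)
      rw [hDblk g hg i (by simp), inter_comm, inter_comm (blk α g i)] at e3
      rcases lt_or_ge (DD α d t (blk α f i ∩ blk α g i)) d with hlt | hge
      · exfalso
        have h1 := cell_small ht hd hdt hL11 hx hlt
        have h2 := cell_small ht hd hdt hL12 (by omega) (by omega)
        have h3 := cell_small ht hd hdt hL21 (by omega) (by omega)
        have h4 := cell_small ht hd hdt hL22 (by omega) (by omega)
        have h5 := hNs g hg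
        have h6 : 4 * t ≤ k * t := Nat.mul_le_mul_right _ hk
        omega
      · by_cases h11 : ∃ v ∈ blk α f i ∩ blk α g i, α v = 1
        · by_cases h22 : ∃ w ∈ blk α f j ∩ blk α g j, α w = 1
          · obtain ⟨v, hv, hv1⟩ := h11
            obtain ⟨w, hw, hw1⟩ := h22
            have hvw : α v = α w := hv1.trans hw1.symm
            have hg' := hg.swap hvw
            have hv' := mem_inter.1 hv
            have hw' := mem_inter.1 hw
            rw [mem_blk, mem_blk] at hv' hw'
            have hne : v ≠ w := by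
              rintro rfl
              exact hij (hv'.1.2.symm.trans hw'.1.2)
            have hcell : blk α f i ∩ blk α (g ∘ Equiv.swap v w) i =
                (blk α f i ∩ blk α g i).erase v := by
              ext x
              rw [mem_erase, mem_inter, mem_inter, mem_blk, mem_blk, mem_blk, Function.comp]
              by_cases h1 : x = v
              · subst h1
                rw [Equiv.swap_apply_left, hw'.2.2]
                constructor
                · rintro ⟨-, -, h2⟩; exact absurd h2.symm hij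
                · rintro ⟨h2, -⟩; exact absurd rfl h2
              · by_cases h2 : x = w
                · subst h2
                  constructor
                  · rintro ⟨⟨-, h3⟩, -⟩; exact absurd (h3.symm.trans hw'.1.2) hij
                  · rintro ⟨-, ⟨-, h3⟩, -⟩; exact absurd (h3.symm.trans hw'.1.2) hij
                · rw [Equiv.swap_apply_of_ne_of_ne h1 h2]
                  tauto
            have h3 : Eqv d t k α f (g ∘ Equiv.swap v w) := by
              apply ih (((blk α f i ∩ blk α g i).erase v).filter fun v => α v = 1).card ?_ _ hg'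
              · rw [hcell]
                unfold DD at hge ⊢
                have h4 : ∑ x ∈ (blk α f i ∩ blk α g i).erase v, α x + α v =
                    ∑ x ∈ blk α f i ∩ blk α g i, α x := sum_erase_add _ _ hv
                have h5 : ((blk α f i ∩ blk α g i).erase v).card + 1 =
                    (blk α f i ∩ blk α g i).card := card_erase_add_one hv
                rw [← h4, ← h5, hv1] at hge
                push_cast at hge ⊢
                have ht' : (2 : ℤ) ≤ t := by omega
                linarith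
              · rw [hcell]
              · rw [← hm]
                apply card_lt_card
                rw [filter_erase]
                apply erase_ssubset
                exact mem_filter.2 ⟨hv, hv1⟩
            exact h3.trans hd1 hdeg hg'.ws (eqv_swap_one ht hd1 hg hv1 hw1).symm
          · exfalso
            push Not at h22
            apply cell_no_one ht hd hL22 (by omega) hdt
            intro v hv
            have h1 := h22 v hv
            have h2 := (mem_blk.1 (mem_inter.1 hv).1).1
            omega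
        · exfalso
          push Not at h11
          apply cell_no_one ht hd hL11 hge hdt
          intro v hv
          have h1 := h11 v hv
          have h2 := (mem_blk.1 (mem_inter.1 hv).1).1
          omega
  intro g hg
  by_cases hx : 0 < DD α d t (blk α f i ∩ blk α g i)
  · exact claim _ g hg hx rfl
  · have e1 := hDadd g hg _ (hsub f i)
    rw [hDblk f hf i (by simp)] at e1
    have hb1 : blk α (Equiv.swap i j ∘ g) i = blk α g j := by
      ext v
      rw [mem_blk, mem_blk, Function.comp]
      constructor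
      · rintro ⟨h1, h2⟩
        refine ⟨h1, ?_⟩
        have := congrArg (Equiv.swap i j) h2
        rwa [Equiv.swap_apply_self, Equiv.swap_apply_left] at this
      · rintro ⟨h1, h2⟩
        exact ⟨h1, by rw [h2, Equiv.swap_apply_right]⟩
    have hb2 : blk α (Equiv.swap i j ∘ g) j = blk α g i := by
      ext v
      rw [mem_blk, mem_blk, Function.comp]
      constructor
      · rintro ⟨h1, h2⟩
        refine ⟨h1, ?_⟩
        have := congrArg (Equiv.swap i j) h2
        rwa [Equiv.swap_apply_self, Equiv.swap_apply_right] at this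
      · rintro ⟨h1, h2⟩
        exact ⟨h1, by rw [h2, Equiv.swap_apply_left]⟩
    have hg' : TS d t α {i, j} (Equiv.swap i j ∘ g) := by
      refine ⟨?_, ?_⟩
      · intro v hv
        have h1 := hg.mem v hv
        rw [mem_insert, mem_singleton] at h1 ⊢
        rw [Function.comp]
        rcases h1 with h1 | h1
        · right; rw [h1, Equiv.swap_apply_left]
        · left; rw [h1, Equiv.swap_apply_right]
      · intro l hl
        rw [mem_insert, mem_singleton] at hl
        rcases hl with rfl | rfl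
        · rw [hb1]; exact hg.bk j (by simp)
        · rw [hb2]; exact hg.bk i (by simp)
    have h1 := claim _ _ hg' (by rw [hb1]; omega) rfl
    intro X Y hX hY hfX hgY
    exact h1 X Y hX hY hfX (hgY.comp _)

end Pool.Agent.Lib.MP_e26c3f_al
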