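import Mathlib
import Pool.Agent.Lib.MP_e26c3f_al.AbsFinal
import Pool.Agent.Lib.MP_e26c3f_al.ManyB
import Pool.Agent.Lib.MP_e26c3f_al.TwoBlocks
import Pool.Agent.Lib.MP_e26c3f_al.ClosedNum
import Pool.Agent.Lib.MP_e26c3f_al.Transfer

/-! The positive results for `d ≤ 2s`. -/

set_option autoImplicit false
set_option linter.unusedSectionVars false

namespace Pool.Agent.Lib.MP_e26c3f_al

open Finset

variable {σ : Type*} [DecidableEq σ]
variable {α : σ →₀ ℕ} {d t k : ℕ}

lemma card_support_le_degree (r : σ →₀ ℕ) : r.support.card ≤ r.degree := by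
  rw [Finsupp.degree_apply, Finset.card_eq_sum_ones]
  apply Finset.sum_le_sum
  intro i hi
  rw [Finsupp.mem_support_iff] at hi
  omega

lemma Cfg.card_support_le {s : ℕ} {X : Multiset (σ →₀ ℕ)} (hX : Cfg d s k α X) :
    α.support.card ≤ k * s := by
  have : ∀ X : Multiset (σ →₀ ℕ), (∀ u ∈ X, u.support.card ≤ s) →
      X.sum.support.card ≤ X.card * s := by
    intro X
    induction X using Multiset.induction_on with
    | empty => simp
    | cons u X ih =>
      intro h
      rw [Multiset.sum_cons, Multiset.card_cons]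
      have h1 := ih fun v hv => h v (by simp [hv])
      have h2 := h u (by simp)
      have h3 : (u + X.sum).support.card ≤ (u.support ∪ X.sum.support).card :=
        card_le_card Finsupp.support_add
      have h4 := card_union_le u.support X.sum.support
      rw [add_mul, one_mul]
      omega
  rw [← hX.sum, ← hX.card]
  exact this X fun u hu => (hX.row u hu).2

/-- Excesses of the variables of exponent at least two. -/
lemma sum_exc_NF (α : σ →₀ ℕ) : ∑ v ∈ NF α, exc α v + α.support.card = α.degree := by
  have h1 : ∑ v ∈ NF α, exc α v = ∑ v ∈ α.support, exc α v := by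
    apply sum_subset (filter_subset _ _)
    intro v _ hv
    have hv' : ¬ 2 ≤ α v := fun h => hv (mem_NF.2 h)
    unfold exc
    omega
  rw [h1, card_eq_sum_ones, ← sum_add_distrib, Finsupp.degree_apply]
  apply sum_congr rfl
  intro v hv
  rw [Finsupp.mem_support_iff] at hv
  unfold exc
  omega

/-- The general positive theorem. -/
theorem conn_gen [Infinite σ] {N : ℕ} (ht : 2 ≤ t) (hd1 : t + 1 ≤ d) (hd2 : d ≤ 2 * t + 2)
    (habs : ∀ (k c : ℕ), 3 ≤ c → c ≤ k → k * t + c ≤ N → ∀ (a : σ → ℕ) (V : Finset σ)
      (J : Finset ℕ), J.card = c → ∑ v ∈ V, a v + J.card ≤ k * (d - t) → AbsConn (d - t) a V J) :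
    ∀ (k : ℕ) (α : σ →₀ ℕ), α.support.card ≤ N → Conn d (t + 1) k α := by
  intro k
  induction k using Nat.strong_induction_on with
  | _ k ih =>
    intro α hN X Y hX hY
    have hdeg := hX.degree
    have hle := hX.card_support_le
    have H : ∀ k' < k, ∀ β : σ →₀ ℕ, β.support.card ≤ α.support.card → Conn d (t + 1) k' β :=
      fun k' hk' β hβ => ih k' hk' β (hβ.trans hN)
    rcases Nat.lt_or_ge k 3 with hk | hk
    · interval_cases k
      · exact conn_zero X Y hX hY
      · exact conn_one X Y hX hY
      · exact conn_two X Y hX hY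
    rcases Nat.lt_or_ge α.support.card (k * t + 2) with hc | hc
    · exact conn_of_card_support_le ht d k α (by omega) X Y hX hY
    obtain ⟨c, hc'⟩ : ∃ c, α.support.card = k * t + c := ⟨α.support.card - k * t, by omega⟩
    have hck : c ≤ k := by
      rw [mul_add, mul_one] at hle
      omega
    have hts : ∀ X, Cfg d (t + 1) k α X → ∃ f, TS d t α (range c) f ∧ Compat f X := by
      intro X hX
      exact exists_ts (by omega) hX (range c) (by rw [card_range]; omega)
        (by rw [card_range]; exact hc')
    obtain ⟨f, hf, hfX⟩ := hts X hX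
    obtain ⟨g, hg, hgY⟩ := hts Y hY
    rcases Nat.lt_or_ge c 3 with hc3 | hc3
    · have hc2 : c = 2 := by omega
      subst hc2
      rcases Nat.lt_or_ge k 4 with hk4 | hk4
      · have hk3 : k = 3 := by omega
        subst hk3
        exact conn_three (s := t) (by omega) (by omega) X Y hX hY
      · have hr : range 2 = {0, 1} := rfl
        rw [hr] at hf hg
        exact eqv_two_blocks ht hd2 hd1 hk4 hdeg (by norm_num) hf H g hg X Y hX hY hfX hgY
    · refine eqv_many ht hd2 hd1 (J := range c) (by rw [card_range]; exact hc3) (by omega) hdeg H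
        (habs k c hc3 hck (by omega) _ _ _ (card_range c) ?_) hf hg X Y hX hY hfX hgY
      have h1 := sum_exc_NF α
      rw [hdeg, hc'] at h1
      rw [card_range]
      have h2 : k * (d - t) = k * d - k * t := Nat.mul_sub k d t
      omega

/-- `d - s ≤ 9`: all numbers of variables. -/
theorem conn_le_nine {n : ℕ} (ht : 2 ≤ t) (hd1 : t + 3 ≤ d) (hd2 : d ≤ 2 * t + 2)
    (hd : d ≤ t + 10) (k : ℕ) (α : Fin n →₀ ℕ) : Conn d (t + 1) k α := by
  classical
  apply conn_of_mapDomain (f := Fin.val) Fin.val_injective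
  exact conn_gen ht (by omega) hd2 (fun k c _ _ _ a V J _ _ =>
    absConn_le_ten (by omega) (by omega) a V J) k _ le_rfl

lemma card_support_mapDomain_le {n : ℕ} (α : Fin n →₀ ℕ) :
    (α.mapDomain Fin.val).support.card ≤ n := by
  classical
  rw [Finsupp.mapDomain_support_of_injective Fin.val_injective,
    Finset.card_image_of_injective _ Fin.val_injective]
  have := Finset.card_le_univ α.support
  rwa [Fintype.card_fin] at this

/-- `d - s = 10`: at most `6 s - 4` variables. -/
theorem conn_eq_ten {n : ℕ} (ht : 9 ≤ t) (hn : n ≤ 6 * t + 2) (k : ℕ) (α : Fin n →₀ ℕ) :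
    Conn (t + 11) (t + 1) k α := by
  classical
  apply conn_of_mapDomain (f := Fin.val) Fin.val_injective
  refine conn_gen (N := 6 * t + 2) (by omega) (by omega) (by omega)
    (fun k c hc hck hN a V J hJ hs => ?_) k _ ((card_support_mapDomain_le α).trans hn)
  have hk : k ≤ 5 := by
    by_contra hk
    have : 6 * t ≤ k * t := Nat.mul_le_mul_right _ (by omega)
    omega
  have e : t + 11 - t = 11 := by omega
  rw [e] at hs ⊢
  exact absConn_eleven a V J (by omega) (by omega)

/-- `d - s = 11`: at most `4 s - 2` variables. -/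
theorem conn_eq_eleven {n : ℕ} (ht : 10 ≤ t) (hn : n ≤ 4 * t + 2) (k : ℕ) (α : Fin n →₀ ℕ) :
    Conn (t + 12) (t + 1) k α := by
  classical
  apply conn_of_mapDomain (f := Fin.val) Fin.val_injective
  refine conn_gen (N := 4 * t + 2) (by omega) (by omega) (by omega)
    (fun k c hc hck hN a V J hJ hs => ?_) k _ ((card_support_mapDomain_le α).trans hn)
  have hk : k ≤ 3 := by
    by_contra hk
    have : 4 * t ≤ k * t := Nat.mul_le_mul_right _ (by omega)
    omega
  have e : t + 12 - t = 12 := by omega
  rw [e] at hs ⊢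
  exact absConn_twelve a V J (by omega) (by omega)

/-- `d ≤ 2 s`: at most `3 s - 1` variables. -/
theorem conn_le_two_s {n : ℕ} (ht : 2 ≤ t) (hd1 : t + 1 ≤ d) (hd2 : d ≤ 2 * t + 2)
    (hn : n ≤ 3 * t + 2) (k : ℕ) (α : Fin n →₀ ℕ) : Conn d (t + 1) k α := by
  classical
  apply conn_of_mapDomain (f := Fin.val) Fin.val_injective
  refine conn_gen (N := 3 * t + 2) ht hd1 hd2 (fun k c hc hck hN a V J hJ hs => ?_) k _
    ((card_support_mapDomain_le α).trans hn)
  exfalso
  have : 3 * t ≤ k * t := Nat.mul_le_mul_right _ (by omega)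
  omega

end Pool.Agent.Lib.MP_e26c3f_al
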