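import Mathlib
import Pool.Agent.Lib.MP_e26c3f_al.Full
import Pool.Agent.Lib.MP_e26c3f_al.ClosedNum
import Pool.Agent.Lib.MP_e26c3f_al.Positive

/-! Fibres with three rows and nine variables for `s = 3`, `d ≤ 8`. -/

set_option autoImplicit false
set_option linter.unusedSectionVars false

namespace Pool.Agent.Lib.MP_e26c3f_al

open Finset

/-- Two entries in different rows and columns coincide. -/
def Nine (d a b c e : ℕ) : Prop :=
  a = e ∨ a = d - c - e ∨ a = d - b - e ∨ a = a + b + c + e - d ∨
    b = c ∨ b = d - c - e ∨ b = d - a - c ∨ b = a + b + c + e - d ∨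
    d - a - b = c ∨ d - a - b = e ∨ d - a - b = d - a - c ∨ d - a - b = d - b - e ∨
    c = d - b - e ∨ c = a + b + c + e - d ∨ e = d - a - c ∨ e = a + b + c + e - d ∨
    d - c - e = d - a - c ∨ d - c - e = d - b - e

instance (d a b c e : ℕ) : Decidable (Nine d a b c e) := by
  unfold Nine
  infer_instance

set_option synthInstance.maxSize 4000 in
/-- Three by three matrices with small line sums have equal entries in different rows and
columns. -/
lemma nine_num : ∀ d < 9, ∀ a < d, ∀ b < d, ∀ c < d, ∀ e < d,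
    (0 < a ∧ 0 < b ∧ 0 < c ∧ 0 < e ∧ a + b < d ∧ a + c < d ∧ c + e < d ∧ b + e < d ∧
      d < a + b + c + e) → Nine d a b c e := by
  decide +kernel

variable {σ : Type*} [DecidableEq σ] {d s k : ℕ} {α : σ →₀ ℕ}

lemma nine_entries {d : ℕ} (hd : d ≤ 8) (m : Fin 3 → Fin 3 → ℕ) (hpos : ∀ i j, 0 < m i j)
    (hr : ∀ i, m i 0 + m i 1 + m i 2 = d) (hc : ∀ j, m 0 j + m 1 j + m 2 j = d) :
    ∃ i j i' j', i ≠ i' ∧ j ≠ j' ∧ m i j = m i' j' := by
  have r0 := hr 0
  have r1 := hr 1
  have r2 := hr 2
  have c0 := hc 0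
  have c1 := hc 1
  have c2 := hc 2
  have p00 := hpos 0 0
  have p01 := hpos 0 1
  have p02 := hpos 0 2
  have p10 := hpos 1 0
  have p11 := hpos 1 1
  have p12 := hpos 1 2
  have p20 := hpos 2 0
  have p21 := hpos 2 1
  have p22 := hpos 2 2
  have h := nine_num d (by omega) (m 0 0) (by omega) (m 0 1) (by omega)
    (m 1 0) (by omega) (m 1 1) (by omega) (by omega)
  unfold Nine at h
  rcases h with h | h | h | h | h | h | h | h | h | h | h | h | h | h | h | h | h | h
  · exact ⟨0, 0, 1, 1, by decide, by decide, by omega⟩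
  · exact ⟨0, 0, 1, 2, by decide, by decide, by omega⟩
  · exact ⟨0, 0, 2, 1, by decide, by decide, by omega⟩
  · exact ⟨0, 0, 2, 2, by decide, by decide, by omega⟩
  · exact ⟨0, 1, 1, 0, by decide, by decide, by omega⟩
  · exact ⟨0, 1, 1, 2, by decide, by decide, by omega⟩
  · exact ⟨0, 1, 2, 0, by decide, by decide, by omega⟩
  · exact ⟨0, 1, 2, 2, by decide, by decide, by omega⟩
  · exact ⟨0, 2, 1, 0, by decide, by decide, by omega⟩
  · exact ⟨0, 2, 1, 1, by decide, by decide, by omega⟩
  · exact ⟨0, 2, 2, 0, by decide, by decide, by omega⟩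
  · exact ⟨0, 2, 2, 1, by decide, by decide, by omega⟩
  · exact ⟨1, 0, 2, 1, by decide, by decide, by omega⟩
  · exact ⟨1, 0, 2, 2, by decide, by decide, by omega⟩
  · exact ⟨1, 1, 2, 0, by decide, by decide, by omega⟩
  · exact ⟨1, 1, 2, 2, by decide, by decide, by omega⟩
  · exact ⟨1, 2, 2, 0, by decide, by decide, by omega⟩
  · exact ⟨1, 2, 2, 1, by decide, by decide, by omega⟩

lemma Tri.partition {g : Fin 3 → Finset σ} {X : Multiset (σ →₀ ℕ)} (h : Tri α d s g X)
    {C : Finset σ} (hC : C ⊆ α.support) (w : σ → ℕ) :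
    ∑ x ∈ C, w x = ∑ x ∈ C ∩ g 0, w x + ∑ x ∈ C ∩ g 1, w x + ∑ x ∈ C ∩ g 2, w x := by
  have d01 := h.dj 0 1 (by decide)
  have d02 := h.dj 0 2 (by decide)
  have d12 := h.dj 1 2 (by decide)
  have e : C = (C ∩ g 0 ∪ C ∩ g 1) ∪ C ∩ g 2 := by
    ext x
    rw [mem_union, mem_union, mem_inter, mem_inter, mem_inter]
    constructor
    · intro hx
      obtain ⟨i, hi⟩ := h.cov x (hC hx)
      fin_cases i
      · exact Or.inl (Or.inl ⟨hx, hi⟩)
      · exact Or.inl (Or.inr ⟨hx, hi⟩)
      · exact Or.inr ⟨hx, hi⟩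
    · rintro ((h | h) | h) <;> exact h.1
  conv_lhs => rw [e]
  rw [sum_union, sum_union]
  · exact (d01.mono inter_subset_right inter_subset_right)
  · rw [disjoint_union_left]
    exact ⟨d02.mono inter_subset_right inter_subset_right,
      d12.mono inter_subset_right inter_subset_right⟩

/-- Nine variables, three rows. -/
theorem conn_nine (hd : d ≤ 8) (hc : α.support.card = 9) : Conn d 3 3 α := by
  intro X Y hX hY
  have hc' : α.support.card = 3 * 3 := hc
  obtain ⟨g, hg⟩ := exists_tri hc' hX
  obtain ⟨h, hh⟩ := exists_tri hc' hY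
  by_cases hdj : ∃ i j, Disjoint (g i) (h j)
  · obtain ⟨i, j, hij⟩ := hdj
    exact linked_of_disjoint (hg.cl i) (hh.cl j) hc' hij hX hY (hg.mem i) (hh.mem j)
  push Not at hdj
  have hpos : ∀ i j, 1 ≤ (g i ∩ h j).card := by
    intro i j
    have := hdj i j
    rw [disjoint_iff_inter_eq_empty] at this
    exact card_pos.2 (nonempty_iff_ne_empty.2 this)
  have hone : ∀ i j, (g i ∩ h j).card = 1 := by
    intro i j
    have h1 := hh.partition (hg.cl i).sub (fun _ => 1)
    rw [← card_eq_sum_ones, ← card_eq_sum_ones, ← card_eq_sum_ones, ← card_eq_sum_ones,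
      (hg.cl i).card] at h1
    have h2 := hpos i 0
    have h3 := hpos i 1
    have h4 := hpos i 2
    fin_cases j
    · show (g i ∩ h 0).card = 1
      omega
    · show (g i ∩ h 1).card = 1
      omega
    · show (g i ∩ h 2).card = 1
      omega
  have hv : ∀ i j, ∃ v, g i ∩ h j = {v} := fun i j => card_eq_one.1 (hone i j)
  choose v hv using hv
  have hmem : ∀ i j, v i j ∈ g i ∧ v i j ∈ h j := by
    intro i j
    have : v i j ∈ g i ∩ h j := by rw [hv]; simp
    exact mem_inter.1 this
  obtain ⟨i, j, i', j', hi, hj, he⟩ := nine_entries hd (fun i j => α (v i j))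
    (fun i j => by
      have := (hg.cl i).sub (hmem i j).1
      rw [Finsupp.mem_support_iff] at this
      show 0 < α (v i j)
      omega)
    (fun i => by
      have h1 := hh.partition (hg.cl i).sub α
      rw [(hg.cl i).sum, hv, hv, hv, sum_singleton, sum_singleton, sum_singleton] at h1
      exact h1.symm)
    (fun j => by
      have h1 := hg.partition (hh.cl j).sub α
      rw [(hh.cl j).sum, inter_comm, hv, inter_comm, hv, inter_comm, hv, sum_singleton,
        sum_singleton, sum_singleton] at h1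
      exact h1.symm)
  have hne : v i' j' ∉ g i := fun h => disjoint_left.1 (hg.dj i i' hi) h (hmem i' j').1
  set E := insert (v i' j') ((g i).erase (v i j)) with hE
  have hEcl : Closed α d 3 E := by
    refine ⟨?_, ?_, ?_⟩
    · apply insert_subset
      · exact (hg.cl i').sub (hmem i' j').1
      · exact (erase_subset _ _).trans (hg.cl i).sub
    · rw [hE, card_swap (hmem i j).1 hne, (hg.cl i).card]
    · have := sum_swap α (hmem i j).1 hne
      rw [(hg.cl i).sum] at this
      have he' : α (v i j) = α (v i' j') := he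
      rw [he'] at this
      exact Nat.add_right_cancel this
  have hEsub : E ⊆ g i ∪ g i' := by
    apply insert_subset
    · exact mem_union_right _ (hmem i' j').1
    · exact (erase_subset _ _).trans subset_union_left
  obtain ⟨X', hXX', hEX'⟩ := hg.exchange hi hEcl hEsub
  refine hXX'.trans (linked_of_disjoint hEcl (hh.cl j) hc' ?_ (hXX'.cfg hX) hY hEX' (hh.mem j))
  rw [disjoint_left]
  intro x hx hxj
  rw [hE, mem_insert, mem_erase] at hx
  rcases hx with rfl | ⟨h1, h2⟩
  · exact disjoint_left.1 (hh.dj j j' hj) hxj (hmem i' j').2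
  · have : x ∈ g i ∩ h j := mem_inter.2 ⟨h2, hxj⟩
    rw [hv, mem_singleton] at this
    exact h1 this

/-- At most three rows. -/
theorem conn_le_three [Infinite σ] (hd : d ≤ 8) (hk : k ≤ 3) (α : σ →₀ ℕ) : Conn d 3 k α := by
  rcases Nat.lt_or_ge k 3 with hk3 | hk3
  · interval_cases k
    · exact conn_zero
    · exact conn_one
    · exact conn_two
  have : k = 3 := by omega
  subst this
  intro X Y hX hY
  have hle := hX.card_support_le
  rcases Nat.lt_or_ge α.support.card 8 with h | h
  · exact conn_of_card_support_le (t := 2) le_rfl d 3 α (by omega) X Y hX hY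
  rcases Nat.lt_or_ge α.support.card 9 with h9 | h9
  · exact conn_three (s := 2) (by omega) (by omega) X Y hX hY
  · exact conn_nine hd (by omega) X Y hX hY

end Pool.Agent.Lib.MP_e26c3f_al
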