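import Mathlib
import Pool.Agent.Lib.MP_e26c3f_al.CornerNine
import Pool.Agent.Lib.MP_e26c3f_al.Decomp

/-! Fibres with four rows and eleven variables for `s = 3`, `d = 7, 8`. -/

set_option autoImplicit false
set_option linter.unusedSectionVars false

namespace Pool.Agent.Lib.MP_e26c3f_al

open Finset

/-- Two of the numbers have sum `n`. -/
def T2 (n : ℕ) : List ℕ → Bool
  | [] => false
  | b :: l => l.any (fun c => b + c == n) || T2 n l

/-- Three of the numbers have sum `n`. -/
def T3 (n : ℕ) : List ℕ → Bool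
  | [] => false
  | a :: l => (Nat.ble a n && T2 (n - a) l) || T3 n l

lemma T2_sound {n : ℕ} {l : List ℕ} (h : T2 n l = true) :
    ∃ l', List.Sublist l' l ∧ l'.length = 2 ∧ l'.sum = n := by
  induction l with
  | nil => simp [T2] at h
  | cons b l ih =>
    rw [T2, Bool.or_eq_true, List.any_eq_true] at h
    rcases h with ⟨c, hc, h⟩ | h
    · rw [beq_iff_eq] at h
      exact ⟨[b, c], List.Sublist.cons_cons b (List.singleton_sublist.2 hc), rfl, by simpa using h⟩
    · obtain ⟨l', h1, h2⟩ := ih h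
      exact ⟨l', h1.trans (List.sublist_cons_self _ _), h2⟩

lemma T3_sound {n : ℕ} {l : List ℕ} (h : T3 n l = true) :
    ∃ l', List.Sublist l' l ∧ l'.length = 3 ∧ l'.sum = n := by
  induction l with
  | nil => simp [T3] at h
  | cons a l ih =>
    rw [T3, Bool.or_eq_true, Bool.and_eq_true, Nat.ble_eq] at h
    rcases h with ⟨h1, h⟩ | h
    · obtain ⟨l', h2, h3, h4⟩ := T2_sound h
      exact ⟨a :: l', List.Sublist.cons_cons a h2, by simp [h3], by rw [List.sum_cons, h4]; omega⟩
    · obtain ⟨l', h1, h2⟩ := ih h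
      exact ⟨l', h1.trans (List.sublist_cons_self _ _), h2⟩

/-- Innermost check. -/
def el4 (d a b a' b' : ℕ) : Bool :=
  (List.range (2 * d)).all fun x => x == 0 || (List.range (2 * d)).all fun y =>
    y == 0 || Nat.ble (2 * d) (x + y + (d - a - a') + (d - b - b')) ||
    T3 d [b, d - a - b, d - b - b', x, y, 2 * d - x - y - (d - a - a') - (d - b - b')] ||
    T3 d [a, d - a - b, d - a - a', x, y, 2 * d - x - y - (d - a - a') - (d - b - b')] ||
    T3 d [b', d - a' - b', d - b - b', x, y, 2 * d - x - y - (d - a - a') - (d - b - b')] ||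
    T3 d [a', d - a' - b', d - a - a', x, y, 2 * d - x - y - (d - a - a') - (d - b - b')]

/-- The two values of the second row. -/
def el2 (d a b : ℕ) : Bool :=
  (List.range d).all fun a' => (List.range d).all fun b' =>
    a' == 0 || b' == 0 || Nat.ble d (a + a') || Nat.ble d (b + b') || Nat.ble d (a' + b') ||
    a == b' || b == a' || el4 d a b a' b'

/-- The two values of the first row. -/
def el (d : ℕ) : Bool :=
  (List.range d).all fun a => (List.range d).all fun b =>
    a == 0 || b == 0 || Nat.ble d (a + b) || el2 d a b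

lemma el7 : el 7 = true := by decide +kernel

lemma el8 : el 8 = true := by decide +kernel

lemma eleven_num {d a b c a' b' c' e e' x y z : ℕ} (hd : d = 7 ∨ d = 8) (pa : 0 < a) (pb : 0 < b)
    (pc : 0 < c) (pa' : 0 < a') (pb' : 0 < b') (pc' : 0 < c') (pe : 0 < e) (pe' : 0 < e')
    (px : 0 < x) (py : 0 < y) (pz : 0 < z) (h1 : a + b + c = d) (h2 : a' + b' + c' = d)
    (h3 : a + a' + e = d) (h4 : b + b' + e' = d) (h5 : x + y + z + e + e' = 2 * d) :
    a = b' ∨ b = a' ∨ T3 d [b, c, e', x, y, z] = true ∨ T3 d [a, c, e, x, y, z] = true ∨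
      T3 d [b', c', e', x, y, z] = true ∨ T3 d [a', c', e, x, y, z] = true := by
  by_cases k1 : a = b'
  · exact Or.inl k1
  by_cases k2 : b = a'
  · exact Or.inr (Or.inl k2)
  right; right
  have h : el d = true := by
    rcases hd with rfl | rfl
    · exact el7
    · exact el8
  unfold el at h
  rw [List.all_eq_true] at h
  have h6 := h a (List.mem_range.2 (by omega))
  rw [List.all_eq_true] at h6
  have h7 := h6 b (List.mem_range.2 (by omega))
  simp only [Bool.or_eq_true, beq_iff_eq, Nat.ble_eq] at h7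
  have h8 := h7.resolve_left (by omega)
  unfold el2 at h8
  rw [List.all_eq_true] at h8
  have h9 := h8 a' (List.mem_range.2 (by omega))
  rw [List.all_eq_true] at h9
  have h10 := h9 b' (List.mem_range.2 (by omega))
  simp only [Bool.or_eq_true, beq_iff_eq, Nat.ble_eq] at h10
  have h11 := h10.resolve_left (by omega)
  unfold el4 at h11
  rw [List.all_eq_true] at h11
  have h12 := h11 x (List.mem_range.2 (by omega))
  rw [Bool.or_eq_true, beq_iff_eq, List.all_eq_true] at h12
  have h13 := h12.resolve_left (by omega) y (List.mem_range.2 (by omega))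
  have e1 : d - a - b = c := by omega
  have e2 : d - a' - b' = c' := by omega
  have e3 : d - a - a' = e := by omega
  have e4 : d - b - b' = e' := by omega
  rw [e1, e2, e3, e4] at h13
  have e5 : 2 * d - x - y - e - e' = z := by omega
  rw [e5] at h13
  simp only [Bool.or_eq_true, beq_iff_eq, Nat.ble_eq] at h13
  rcases h13 with ((((h14 | h14) | h14) | h14) | h14) | h14
  · omega
  · omega
  · exact Or.inl h14
  · exact Or.inr (Or.inl h14)
  · exact Or.inr (Or.inr (Or.inl h14))
  · exact Or.inr (Or.inr (Or.inr h14))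

variable {σ : Type*} [DecidableEq σ] {d s k : ℕ} {α : σ →₀ ℕ} {C D E : Finset σ}

/-- All configurations containing the first row are linked to those containing the second. -/
def Rel (α : σ →₀ ℕ) (d s k : ℕ) (C D : Finset σ) : Prop :=
  ∀ X Y, Cfg d s k α X → Cfg d s k α Y → crow α C ∈ X → crow α D ∈ Y → Linked d s X Y

lemma Rel.symm (h : Rel α d s k C D) : Rel α d s k D C :=
  fun X Y hX hY h1 h2 => (h Y X hY hX h2 h1).symm

lemma Rel.trans {Z : Multiset (σ →₀ ℕ)} (hZ : Cfg d s k α Z) (hD : crow α D ∈ Z)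
    (h : Rel α d s k C D) (h' : Rel α d s k D E) : Rel α d s k C E :=
  fun X Y hX hY h1 h2 => (h X Z hX hZ h1 hD).trans (h' Z Y hZ hY hD h2)

lemma rel_refl (H : ∀ β : σ →₀ ℕ, Conn d s k β) (hC : Closed α d s C) :
    Rel α d s (k + 1) C C := by
  intro X Y hX hY h1 h2
  obtain ⟨β, hβ, -⟩ := hC.exists_add
  exact linked_of_mem (H β) hβ hX hY h1 h2

/-- Two disjoint closed rows occur together. -/
lemma exists_pair [Infinite σ] (hN : α.support.card ≤ 11) (hdeg : α.degree = 4 * d)
    (hC : Closed α d 3 C) (hD : Closed α d 3 D) (hdj : Disjoint C D) :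
    ∃ Z, Cfg d 3 4 α (crow α C ::ₘ crow α D ::ₘ Z) := by
  obtain ⟨β, hβ, hβs⟩ := hC.exists_add
  have hval : ∀ x, α x = crow α C x + β x := fun x => by
    conv_lhs => rw [hβ]
    rfl
  have hβD : ∀ x ∈ D, β x = α x := by
    intro x hx
    have h1 := hval x
    rw [crow_apply, if_neg (disjoint_right.1 hdj hx), zero_add] at h1
    exact h1.symm
  have hle : crow α D ≤ β := by
    intro x
    rw [crow_apply]
    split_ifs with h
    · rw [hβD x h]
    · exact Nat.zero_le _
  obtain ⟨γ, hγ⟩ := exists_add_of_le hle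
  have hval2 : ∀ x, β x = crow α D x + γ x := fun x => by
    conv_lhs => rw [hγ]
    rfl
  have hγs : γ.support ⊆ (α.support \ C) \ D := by
    intro x hx
    rw [Finsupp.mem_support_iff] at hx
    have h1 := hval2 x
    rw [mem_sdiff]
    refine ⟨hβs (Finsupp.mem_support_iff.2 (by omega)), fun h2 => ?_⟩
    rw [crow_apply, if_pos h2, hβD x h2] at h1
    omega
  have hDs : D ⊆ α.support \ C := fun x hx =>
    mem_sdiff.2 ⟨hD.sub hx, disjoint_right.1 hdj hx⟩
  have hcard : ((α.support \ C) \ D).card ≤ 5 := by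
    rw [card_sdiff_of_subset hDs, card_sdiff_of_subset hC.sub, hC.card, hD.card]
    omega
  obtain ⟨W, hW, hWc⟩ := Infinite.exists_superset_card_eq _ _ hcard
  have hdγ : γ.degree = 2 * d := by
    have h1 := congrArg Finsupp.degree hβ
    have h2 := congrArg Finsupp.degree hγ
    rw [map_add, hC.isRow.1, hdeg] at h1
    rw [map_add, hD.isRow.1] at h2
    omega
  obtain ⟨Z, hZ, -⟩ := exists_cfg 2 d 2 γ W (hγs.trans hW) hWc hdγ
  refine ⟨Z, ?_⟩
  have h3 := hZ.cons hD.isRow
  rw [← hγ] at h3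
  have h4 := h3.cons hC.isRow
  rwa [← hβ] at h4

lemma rel_disj [Infinite σ] (H : ∀ β : σ →₀ ℕ, Conn d 3 3 β) (hN : α.support.card ≤ 11)
    (hdeg : α.degree = 4 * d) (hC : Closed α d 3 C) (hD : Closed α d 3 D)
    (hdj : Disjoint C D) : Rel α d 3 4 C D := by
  obtain ⟨Z, hZ⟩ := exists_pair hN hdeg hC hD hdj
  intro X Y hX hY h1 h2
  exact (rel_refl H hC X _ hX hZ h1 (by simp)).trans (rel_refl H hD _ Y hZ hY (by simp) h2)

lemma rel_union [Infinite σ] (H : ∀ β : σ →₀ ℕ, Conn d 3 3 β) (hN : α.support.card ≤ 11)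
    (hdeg : α.degree = 4 * d) (hC : Closed α d 3 C) (hD : Closed α d 3 D)
    (hdj : Disjoint C D) (hE : Closed α d 3 E) (hsub : E ⊆ C ∪ D) : Rel α d 3 4 C E := by
  obtain ⟨Z, hZ⟩ := exists_pair hN hdeg hC hD hdj
  obtain ⟨F, hF⟩ := exists_of_subset hC hD hdj hE hsub (Z := Z)
  intro X Y hX hY h1 h2
  exact (rel_refl H hC X _ hX hZ h1 (by simp)).trans (hF.linked.trans
    (rel_refl H hE _ Y (hF.cfg hZ) hY (by simp) h2))

/-- The row of a block of degree `d`. -/
lemma crow_mem_of_one {X : Multiset (σ →₀ ℕ)} (hd : 1 ≤ d) (hX : Cfg d s k α X) {f : σ → ℕ}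
    (hf : Compat f X) {j : ℕ} (hsum : ∑ v ∈ blk α f j, α v = d) : crow α (blk α f j) ∈ X := by
  obtain ⟨X1, X2, k1, k2, rfl, rfl, h1, h2⟩ := split_cfg (fun v => f v = j) X k α hX (hf.split j)
  have h3 := h1.degree
  rw [sum_filter_label, hsum] at h3
  have h4 : k1 = 1 := by
    have : k1 * d = 1 * d := by rw [one_mul]; exact h3.symm
    exact Nat.eq_of_mul_eq_mul_right (by omega) this
  subst h4
  obtain ⟨r, rfl⟩ := Multiset.card_eq_one.1 h1.card
  have h5 := h1.sum
  rw [Multiset.sum_singleton] at h5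
  have h6 : crow α (blk α f j) = r := by
    rw [h5]
    ext x
    rw [crow_apply, Finsupp.filter_apply]
    by_cases h0 : α x = 0
    · simp [h0]
    · by_cases hj : f x = j
      · rw [if_pos (mem_blk.2 ⟨h0, hj⟩), if_pos hj]
      · rw [if_neg (fun h => hj (mem_blk.1 h).2), if_neg hj]
  rw [h6]
  simp

/-- Eleven variables, four rows: two closed rows. -/
lemma exists_two_closed (hd : 1 ≤ d) (hc : α.support.card = 11) {X : Multiset (σ →₀ ℕ)}
    (hX : Cfg d 3 4 α X) : ∃ C D, Closed α d 3 C ∧ Closed α d 3 D ∧ Disjoint C D ∧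
      crow α C ∈ X ∧ crow α D ∈ X := by
  obtain ⟨f, hf, hfX⟩ := exists_ts (t := 2) hd hX (range 3) (by rw [card_range]; norm_num)
    (by rw [card_range, hc])
  obtain ⟨k0, p0, c0, s0⟩ := hf.bk 0 (by simp)
  obtain ⟨k1, p1, c1, s1⟩ := hf.bk 1 (by simp)
  obtain ⟨k2, p2, c2, s2⟩ := hf.bk 2 (by simp)
  have h1 := card_blk hf.mem
  rw [hc, sum_range_succ, sum_range_succ, sum_range_one, c0, c1, c2] at h1
  have hcl : ∀ j, (blk α f j).card = 3 → ∑ v ∈ blk α f j, α v = d → Closed α d 3 (blk α f j) :=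
    fun j h2 h3 => ⟨filter_subset _ _, h2, h3⟩
  have hdj : ∀ i j, i ≠ j → Disjoint (blk α f i) (blk α f j) := by
    intro i j hij
    rw [disjoint_left]
    intro v h2 h3
    exact hij ((mem_blk.1 h2).2.symm.trans (mem_blk.1 h3).2)
  have key : ∀ i j, i ≠ j → (blk α f i).card = 1 * 2 + 1 → ∑ v ∈ blk α f i, α v = 1 * d →
      (blk α f j).card = 1 * 2 + 1 → ∑ v ∈ blk α f j, α v = 1 * d →
      ∃ C D, Closed α d 3 C ∧ Closed α d 3 D ∧ Disjoint C D ∧ crow α C ∈ X ∧ crow α D ∈ X := by
    intro i j hij h2 h3 h4 h5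
    rw [one_mul] at h3 h5
    exact ⟨_, _, hcl i h2 h3, hcl j h4 h5, hdj i j hij, crow_mem_of_one hd hX hfX h3,
      crow_mem_of_one hd hX hfX h5⟩
  rcases Nat.lt_or_ge k0 2 with h | h
  · have e0 : k0 = 1 := by omega
    subst e0
    rcases Nat.lt_or_ge k1 2 with h' | h'
    · have e1 : k1 = 1 := by omega
      subst e1
      exact key 0 1 (by norm_num) c0 s0 c1 s1
    · have e2 : k2 = 1 := by omega
      subst e2
      exact key 0 2 (by norm_num) c0 s0 c2 s2
  · have e1 : k1 = 1 := by omega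
    have e2 : k2 = 1 := by omega
    subst e1; subst e2
    exact key 1 2 (by norm_num) c1 s1 c2 s2

/-- Finding a closed row in a set of six elements. -/
lemma exists_closed_of_T3 {F : Finset σ} {L : List σ} (hF : F.card = 6) (hL : L.length = 6)
    (hsub : ∀ v ∈ F, v ∈ L) (hFs : F ⊆ α.support) (hT : T3 d (L.map α) = true) :
    ∃ E ⊆ F, Closed α d 3 E := by
  have h1 : F ⊆ L.toFinset := fun v hv => List.mem_toFinset.2 (hsub v hv)
  have h2 := card_le_card h1
  have h3 := List.toFinset_card_le L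
  have h4 : F = L.toFinset := eq_of_subset_of_card_le h1 (by omega)
  have hnd : L.Nodup := by
    rw [← Multiset.coe_nodup, ← Multiset.toFinset_card_eq_card_iff_nodup]
    have : (L : Multiset σ).toFinset.card = 6 := by
      rw [← hF, h4]; rfl
    rw [this, Multiset.coe_card, hL]
  obtain ⟨l', h5, h6, h7⟩ := T3_sound hT
  obtain ⟨l, h8, rfl⟩ := List.sublist_map_iff.1 h5
  have hnl : l.Nodup := h8.nodup hnd
  refine ⟨l.toFinset, ?_, ?_, ?_, ?_⟩
  · rw [h4]
    intro v hv
    rw [List.mem_toFinset] at hv ⊢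
    exact h8.subset hv
  · intro v hv
    rw [List.mem_toFinset] at hv
    exact hFs (by rw [h4, List.mem_toFinset]; exact h8.subset hv)
  · rw [List.toFinset_card_of_nodup hnl]
    rwa [List.length_map] at h6
  · rw [List.sum_toFinset _ hnl]
    exact h7

end Pool.Agent.Lib.MP_e26c3f_al
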