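import Mathlib
import Pool.Agent.Lib.MP_e26c3f_al.CornerEleven

/-! Fibres with four rows and eleven variables for `s = 3`, `d = 7, 8`: conclusion. -/

set_option autoImplicit false
set_option linter.unusedSectionVars false

namespace Pool.Agent.Lib.MP_e26c3f_al

open Finset

variable {σ : Type*} [DecidableEq σ] {d s k : ℕ} {α : σ →₀ ℕ} {C D E : Finset σ}

lemma triple_split {D1 D2 : Finset σ} (hC : Closed α d 3 C) (hdj : Disjoint D1 D2)
    (h1 : ¬ Disjoint C D1) (h2 : ¬ Disjoint C D2) (h3 : ¬ C ⊆ D1 ∪ D2) :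
    ∃ a b c, C ∩ D1 = {a} ∧ C ∩ D2 = {b} ∧ C \ (D1 ∪ D2) = {c} ∧ α a + α b + α c = d := by
  have e : C = (C ∩ D1 ∪ C ∩ D2) ∪ C \ (D1 ∪ D2) := by
    ext x
    simp only [mem_union, mem_inter, mem_sdiff]
    tauto
  have dj1 : Disjoint (C ∩ D1) (C ∩ D2) := hdj.mono inter_subset_right inter_subset_right
  have dj2 : Disjoint (C ∩ D1 ∪ C ∩ D2) (C \ (D1 ∪ D2)) := by
    rw [disjoint_left]
    intro x hx hx'
    simp only [mem_union, mem_inter, mem_sdiff] at hx hx'
    tauto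
  have k1 : 1 ≤ (C ∩ D1).card := by
    rw [disjoint_iff_inter_eq_empty] at h1
    exact card_pos.2 (nonempty_iff_ne_empty.2 h1)
  have k2 : 1 ≤ (C ∩ D2).card := by
    rw [disjoint_iff_inter_eq_empty] at h2
    exact card_pos.2 (nonempty_iff_ne_empty.2 h2)
  have k3 : 1 ≤ (C \ (D1 ∪ D2)).card := by
    rw [← sdiff_eq_empty_iff_subset] at h3
    exact card_pos.2 (nonempty_iff_ne_empty.2 h3)
  have hcard := hC.card
  rw [e, card_union_of_disjoint dj2, card_union_of_disjoint dj1] at hcard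
  obtain ⟨a, ha⟩ := card_eq_one.1 (show (C ∩ D1).card = 1 by omega)
  obtain ⟨b, hb⟩ := card_eq_one.1 (show (C ∩ D2).card = 1 by omega)
  obtain ⟨c, hc⟩ := card_eq_one.1 (show (C \ (D1 ∪ D2)).card = 1 by omega)
  refine ⟨a, b, c, ha, hb, hc, ?_⟩
  have hsum := hC.sum
  rw [e, sum_union dj2, sum_union dj1, ha, hb, hc, sum_singleton, sum_singleton,
    sum_singleton] at hsum
  exact hsum

/-- Exchanging an element of `C1` with an element of `C2`. -/
lemma exchange_closed {C1 C2 : Finset σ} (h1 : Closed α d 3 C1) (h2 : Closed α d 3 C2)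
    (hdj : Disjoint C1 C2) {v w : σ} (hv : v ∈ C1) (hw : w ∈ C2) (hvw : α v = α w) :
    Closed α d 3 (insert w (C1.erase v)) ∧ insert w (C1.erase v) ⊆ C1 ∪ C2 := by
  have hw1 : w ∉ C1 := disjoint_right.1 hdj hw
  refine ⟨⟨?_, ?_, ?_⟩, ?_⟩
  · apply insert_subset
    · exact h2.sub hw
    · exact (erase_subset _ _).trans h1.sub
  · rw [card_swap hv hw1, h1.card]
  · have := sum_swap α hv hw1
    rw [h1.sum, hvw] at this
    exact Nat.add_right_cancel this
  · apply insert_subset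
    · exact mem_union_right _ hw
    · exact (erase_subset _ _).trans subset_union_left

/-- Eleven variables, four rows. -/
theorem conn_eleven [Infinite σ] (hd : d = 7 ∨ d = 8) (H : ∀ β : σ →₀ ℕ, Conn d 3 3 β)
    (hc : α.support.card = 11) : Conn d 3 4 α := by
  intro X Y hX hY
  have hdeg := hX.degree
  have hd1 : 1 ≤ d := by omega
  have hN : α.support.card ≤ 11 := hc.le
  obtain ⟨C1, C2, hC1, hC2, hC12, hXC1, hXC2⟩ := exists_two_closed hd1 hc hX
  obtain ⟨D1, D2, hD1, hD2, hD12, hYD1, hYD2⟩ := exists_two_closed hd1 hc hY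
  by_cases j11 : Disjoint C1 D1
  · exact rel_disj H hN hdeg hC1 hD1 j11 X Y hX hY hXC1 hYD1
  by_cases j12 : Disjoint C1 D2
  · exact rel_disj H hN hdeg hC1 hD2 j12 X Y hX hY hXC1 hYD2
  by_cases j21 : Disjoint C2 D1
  · exact rel_disj H hN hdeg hC2 hD1 j21 X Y hX hY hXC2 hYD1
  by_cases j22 : Disjoint C2 D2
  · exact rel_disj H hN hdeg hC2 hD2 j22 X Y hX hY hXC2 hYD2
  by_cases s1 : D1 ⊆ C1 ∪ C2
  · exact rel_union H hN hdeg hC1 hC2 hC12 hD1 s1 X Y hX hY hXC1 hYD1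
  by_cases s2 : D2 ⊆ C1 ∪ C2
  · exact rel_union H hN hdeg hC1 hC2 hC12 hD2 s2 X Y hX hY hXC1 hYD2
  by_cases t1 : C1 ⊆ D1 ∪ D2
  · exact (rel_union H hN hdeg hD1 hD2 hD12 hC1 t1).symm X Y hX hY hXC1 hYD1
  by_cases t2 : C2 ⊆ D1 ∪ D2
  · exact (rel_union H hN hdeg hD1 hD2 hD12 hC2 t2).symm X Y hX hY hXC2 hYD1
  obtain ⟨a, b, c, ha, hb, hcc, sC1⟩ := triple_split hC1 hD12 j11 j12 t1
  obtain ⟨a', b', c', ha', hb', hcc', sC2⟩ := triple_split hC2 hD12 j21 j22 t2
  obtain ⟨a1, a1', e, k1, k2, he, sD1⟩ := triple_split hD1 hC12 (fun h => j11 h.symm)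
    (fun h => j21 h.symm) s1
  obtain ⟨b1, b1', e', k3, k4, he', sD2⟩ := triple_split hD2 hC12 (fun h => j12 h.symm)
    (fun h => j22 h.symm) s2
  rw [inter_comm, ha, singleton_inj] at k1
  rw [inter_comm, ha', singleton_inj] at k2
  rw [inter_comm, hb, singleton_inj] at k3
  rw [inter_comm, hb', singleton_inj] at k4
  subst k1; subst k2; subst k3; subst k4
  have ma : ∀ v, v ∈ C1 → v ∈ D1 → v = a := fun v h1 h2 => by
    have : v ∈ C1 ∩ D1 := mem_inter.2 ⟨h1, h2⟩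
    rwa [ha, mem_singleton] at this
  have mb : ∀ v, v ∈ C1 → v ∈ D2 → v = b := fun v h1 h2 => by
    have : v ∈ C1 ∩ D2 := mem_inter.2 ⟨h1, h2⟩
    rwa [hb, mem_singleton] at this
  have mc : ∀ v, v ∈ C1 → v ∉ D1 → v ∉ D2 → v = c := fun v h1 h2 h3 => by
    have : v ∈ C1 \ (D1 ∪ D2) := by simp [h1, h2, h3]
    rwa [hcc, mem_singleton] at this
  have ma' : ∀ v, v ∈ C2 → v ∈ D1 → v = a' := fun v h1 h2 => by
    have : v ∈ C2 ∩ D1 := mem_inter.2 ⟨h1, h2⟩
    rwa [ha', mem_singleton] at this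
  have mb' : ∀ v, v ∈ C2 → v ∈ D2 → v = b' := fun v h1 h2 => by
    have : v ∈ C2 ∩ D2 := mem_inter.2 ⟨h1, h2⟩
    rwa [hb', mem_singleton] at this
  have mc' : ∀ v, v ∈ C2 → v ∉ D1 → v ∉ D2 → v = c' := fun v h1 h2 h3 => by
    have : v ∈ C2 \ (D1 ∪ D2) := by simp [h1, h2, h3]
    rwa [hcc', mem_singleton] at this
  have me : ∀ v, v ∈ D1 → v ∉ C1 → v ∉ C2 → v = e := fun v h1 h2 h3 => by
    have : v ∈ D1 \ (C1 ∪ C2) := by simp [h1, h2, h3]
    rwa [he, mem_singleton] at this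
  have me' : ∀ v, v ∈ D2 → v ∉ C1 → v ∉ C2 → v = e' := fun v h1 h2 h3 => by
    have : v ∈ D2 \ (C1 ∪ C2) := by simp [h1, h2, h3]
    rwa [he', mem_singleton] at this
  have qa : a ∈ C1 ∧ a ∈ D1 := mem_inter.1 (by rw [ha]; simp)
  have qb : b ∈ C1 ∧ b ∈ D2 := mem_inter.1 (by rw [hb]; simp)
  have qc : c ∈ C1 ∧ c ∉ D1 ∪ D2 := mem_sdiff.1 (by rw [hcc]; simp)
  have qa' : a' ∈ C2 ∧ a' ∈ D1 := mem_inter.1 (by rw [ha']; simp)
  have qb' : b' ∈ C2 ∧ b' ∈ D2 := mem_inter.1 (by rw [hb']; simp)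
  have qc' : c' ∈ C2 ∧ c' ∉ D1 ∪ D2 := mem_sdiff.1 (by rw [hcc']; simp)
  have qe : e ∈ D1 ∧ e ∉ C1 ∪ C2 := mem_sdiff.1 (by rw [he]; simp)
  have qe' : e' ∈ D2 ∧ e' ∉ C1 ∪ C2 := mem_sdiff.1 (by rw [he']; simp)
  have hpos : ∀ v ∈ α.support, 0 < α v := fun v hv => by
    rw [Finsupp.mem_support_iff] at hv; omega
  have hee' : e ≠ e' := fun h => disjoint_left.1 hD12 qe.1 (h ▸ qe'.1)
  -- the remaining three variables
  set R := α.support \ (C1 ∪ C2) with hR
  have hRc : R.card = 5 := by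
    rw [hR, card_sdiff_of_subset (union_subset hC1.sub hC2.sub), card_union_of_disjoint hC12,
      hC1.card, hC2.card, hc]
  have hRs : ∑ v ∈ R, α v = 2 * d := by
    have h1 := sum_sdiff (f := α) (union_subset hC1.sub hC2.sub)
    rw [sum_union hC12, hC1.sum, hC2.sum, sum_of_support_subset subset_rfl, hdeg] at h1
    rw [← hR] at h1
    omega
  have heR : e ∈ R := mem_sdiff.2 ⟨hD1.sub qe.1, qe.2⟩
  have heR' : e' ∈ R.erase e := mem_erase.2 ⟨hee'.symm, mem_sdiff.2 ⟨hD2.sub qe'.1, qe'.2⟩⟩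
  obtain ⟨x, y, z, hxy, hxz, hyz, hU⟩ := card_eq_three.1
    (show ((R.erase e).erase e').card = 3 by
      rw [card_erase_of_mem heR', card_erase_of_mem heR, hRc])
  have hUs : α x + α y + α z + α e + α e' = 2 * d := by
    have h1 := sum_erase_add R (fun v => α v) heR
    have h2 := sum_erase_add (R.erase e) (fun v => α v) heR'
    have h3 : ∑ v ∈ (R.erase e).erase e', α v = α x + (α y + α z) := by
      rw [hU, sum_insert (by simp [hxy, hxz]), sum_insert (by simp [hyz]), sum_singleton]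
    omega
  have mU : ∀ v ∈ α.support, v ∉ C1 → v ∉ C2 → v ∉ D1 → v ∉ D2 → v = x ∨ v = y ∨ v = z := by
    intro v h1 h2 h3 h4 h5
    have h6 : v ∈ (R.erase e).erase e' := by
      rw [mem_erase, mem_erase]
      refine ⟨fun h => h5 (h ▸ qe'.1), fun h => h4 (h ▸ qe.1), mem_sdiff.2 ⟨h1, ?_⟩⟩
      simp [h2, h3]
    rw [hU] at h6
    simpa using h6
  have hxs : ∀ v, v = x ∨ v = y ∨ v = z → v ∈ α.support := by
    intro v hv
    have h6 : v ∈ (R.erase e).erase e' := by rw [hU]; simpa using hv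
    exact (mem_sdiff.1 (mem_of_mem_erase (mem_of_mem_erase h6))).1
  have cardF : ∀ C D : Finset σ, Closed α d 3 C → Closed α d 3 D → (C ∩ D).card = 1 →
      (α.support \ (C ∪ D)).card = 6 := by
    intro C D h1 h2 h3
    have h4 := card_union_add_card_inter C D
    rw [h1.card, h2.card, h3] at h4
    rw [card_sdiff_of_subset (union_subset h1.sub h2.sub), hc]
    omega
  -- a closed row away from `C` and `D`
  have away : ∀ C D E : Finset σ, Closed α d 3 C → Closed α d 3 D → crow α C ∈ X →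
      crow α D ∈ Y → E ⊆ α.support \ (C ∪ D) → Closed α d 3 E → Linked d 3 X Y := by
    intro C D E h1 h2 h3 h4 h5 h6
    have dC : Disjoint C E := by
      rw [disjoint_left]
      intro v hv hv'
      exact (mem_sdiff.1 (h5 hv')).2 (mem_union_left _ hv)
    have dD : Disjoint E D := by
      rw [disjoint_left]
      intro v hv hv'
      exact (mem_sdiff.1 (h5 hv)).2 (mem_union_right _ hv')
    obtain ⟨Z, hZ⟩ := exists_pair hN hdeg h1 h6 dC
    exact (rel_disj H hN hdeg h1 h6 dC).trans hZ (by simp) (rel_disj H hN hdeg h6 h2 dD)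
      X Y hX hY h3 h4
  have swp : ∀ (v w : σ) (D : Finset σ), v ∈ C1 → w ∈ C2 → α v = α w → Closed α d 3 D →
      crow α D ∈ Y → w ∉ D → (∀ u ∈ C1, u ∈ D → u = v) → Linked d 3 X Y := by
    intro v w D hv hw hvw hD hDY hwD huD
    obtain ⟨h1, h2⟩ := exchange_closed hC1 hC2 hC12 hv hw hvw
    have dj : Disjoint (insert w (C1.erase v)) D := by
      rw [disjoint_left]
      intro u hu huD'
      rcases mem_insert.1 hu with rfl | hu
      · exact hwD huD'
      · exact (mem_erase.1 hu).1 (huD u (mem_erase.1 hu).2 huD')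
    obtain ⟨Z, hZ⟩ := exists_pair hN hdeg h1 hD dj
    exact (rel_union H hN hdeg hC1 hC2 hC12 h1 h2).trans hZ (by simp)
      (rel_disj H hN hdeg h1 hD dj) X Y hX hY hXC1 hDY
  rcases eleven_num hd (hpos a (hC1.sub qa.1)) (hpos b (hC1.sub qb.1)) (hpos c (hC1.sub qc.1))
    (hpos a' (hC2.sub qa'.1)) (hpos b' (hC2.sub qb'.1)) (hpos c' (hC2.sub qc'.1))
    (hpos e (hD1.sub qe.1)) (hpos e' (hD2.sub qe'.1)) (hpos x (hxs x (by simp)))
    (hpos y (hxs y (by simp))) (hpos z (hxs z (by simp))) sC1 sC2 sD1 sD2 hUs with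
    h | h | h | h | h | h
  · exact swp a b' D1 qa.1 qb'.1 h hD1 hYD1 (disjoint_right.1 hD12 qb'.2) ma
  · exact swp b a' D2 qb.1 qa'.1 h hD2 hYD2 (disjoint_left.1 hD12 qa'.2) mb
  · obtain ⟨E, hE, hEc⟩ := exists_closed_of_T3 (F := α.support \ (C2 ∪ D1))
      (L := [b, c, e', x, y, z]) (cardF C2 D1 hC2 hD1 (by rw [ha']; rfl)) rfl (by
        intro v hv
        rw [mem_sdiff, mem_union, not_or] at hv
        by_cases h1 : v ∈ C1
        · by_cases h2 : v ∈ D2
          · simp [mb v h1 h2]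
          · simp [mc v h1 hv.2.2 h2]
        · by_cases h2 : v ∈ D2
          · simp [me' v h2 h1 hv.2.1]
          · rcases mU v hv.1 h1 hv.2.1 hv.2.2 h2 with rfl | rfl | rfl <;> simp)
      sdiff_subset h
    exact away C2 D1 E hC2 hD1 hXC2 hYD1 hE hEc
  · obtain ⟨E, hE, hEc⟩ := exists_closed_of_T3 (F := α.support \ (C2 ∪ D2))
      (L := [a, c, e, x, y, z]) (cardF C2 D2 hC2 hD2 (by rw [hb']; rfl)) rfl (by
        intro v hv
        rw [mem_sdiff, mem_union, not_or] at hv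
        by_cases h1 : v ∈ C1
        · by_cases h2 : v ∈ D1
          · simp [ma v h1 h2]
          · simp [mc v h1 h2 hv.2.2]
        · by_cases h2 : v ∈ D1
          · simp [me v h2 h1 hv.2.1]
          · rcases mU v hv.1 h1 hv.2.1 h2 hv.2.2 with rfl | rfl | rfl <;> simp)
      sdiff_subset h
    exact away C2 D2 E hC2 hD2 hXC2 hYD2 hE hEc
  · obtain ⟨E, hE, hEc⟩ := exists_closed_of_T3 (F := α.support \ (C1 ∪ D1))
      (L := [b', c', e', x, y, z]) (cardF C1 D1 hC1 hD1 (by rw [ha]; rfl)) rfl (by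
        intro v hv
        rw [mem_sdiff, mem_union, not_or] at hv
        by_cases h1 : v ∈ C2
        · by_cases h2 : v ∈ D2
          · simp [mb' v h1 h2]
          · simp [mc' v h1 hv.2.2 h2]
        · by_cases h2 : v ∈ D2
          · simp [me' v h2 hv.2.1 h1]
          · rcases mU v hv.1 hv.2.1 h1 hv.2.2 h2 with rfl | rfl | rfl <;> simp)
      sdiff_subset h
    exact away C1 D1 E hC1 hD1 hXC1 hYD1 hE hEc
  · obtain ⟨E, hE, hEc⟩ := exists_closed_of_T3 (F := α.support \ (C1 ∪ D2))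
      (L := [a', c', e, x, y, z]) (cardF C1 D2 hC1 hD2 (by rw [hb]; rfl)) rfl (by
        intro v hv
        rw [mem_sdiff, mem_union, not_or] at hv
        by_cases h1 : v ∈ C2
        · by_cases h2 : v ∈ D1
          · simp [ma' v h1 h2]
          · simp [mc' v h1 h2 hv.2.2]
        · by_cases h2 : v ∈ D1
          · simp [me v h2 hv.2.1 h1]
          · rcases mU v hv.1 hv.2.1 h1 h2 hv.2.2 with rfl | rfl | rfl <;> simp)
      sdiff_subset h
    exact away C1 D2 E hC1 hD2 hXC1 hYD2 hE hEc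

end Pool.Agent.Lib.MP_e26c3f_al
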