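import Mathlib
import Pool.Agent.Lib.MP_e26c3f_al.CornerEleven
import Pool.Agent.Lib.MP_e26c3f_al.TwoBlocks

/-! Fibres with four rows and ten variables for `s = 3`, `d = 7, 8`: closed rows. -/

set_option autoImplicit false
set_option linter.unusedSectionVars false

namespace Pool.Agent.Lib.MP_e26c3f_al

open Finset

variable {σ : Type*} [DecidableEq σ] {d s k : ℕ} {α : σ →₀ ℕ} {C D E : Finset σ} {f g : σ → ℕ}

/-- Averaging gives leaf rows. -/
lemma exists_leaf_of {S : Finset σ} (hc : 3 ≤ S.card)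
    (h1 : S.card * d < 3 * ∑ v ∈ S, α v + S.card)
    (h2 : 2 * ∑ v ∈ S, α v < S.card * (d + 1)) : ∃ P c, Leaf α d 2 S P c := by
  by_contra hcon
  rcases cell_dichotomy hcon with h | h
  · obtain ⟨B, hB, hBc, -, h3, -⟩ := exists_min_sub α S 2 (by omega)
    have h4 := h B hB hBc
    have h5 : S.card * (d + 1) ≤ S.card * ∑ i ∈ B, α i := Nat.mul_le_mul_left _ h4
    omega
  · obtain ⟨B, hB, hBc, -, h3, -⟩ := exists_max_sub α S 3 hc
    have h4 := h B hB hBc
    have h5 : S.card * (∑ i ∈ B, α i + 1) ≤ S.card * d := Nat.mul_le_mul_left _ h4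
    rw [mul_add, mul_one] at h5
    omega

/-- The two labels cover everything. -/
lemma cell_split (hf : TS d 2 α {0, 1} f) {S : Finset σ} (hS : S ⊆ α.support) (w : σ → ℕ) :
    ∑ v ∈ S, w v = ∑ v ∈ S ∩ blk α f 0, w v + ∑ v ∈ S ∩ blk α f 1, w v := by
  have h1 : S ∩ blk α f 0 ∪ S ∩ blk α f 1 = S := by
    rw [← inter_union_distrib_left]
    apply inter_eq_left.2
    intro v hv
    have h2 := hf.mem v (hS hv)
    rw [mem_insert, mem_singleton] at h2
    rw [mem_union, mem_blk, mem_blk]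
    have h3 := Finsupp.mem_support_iff.1 (hS hv)
    tauto
  have h2 : Disjoint (S ∩ blk α f 0) (S ∩ blk α f 1) := by
    rw [disjoint_left]
    intro v h3 h4
    rw [mem_inter, mem_blk] at h3 h4
    have := h3.2.2.symm.trans h4.2.2
    omega
  conv_lhs => rw [← h1]
  exact sum_union h2

lemma cell_card (hf : TS d 2 α {0, 1} f) {S : Finset σ} (hS : S ⊆ α.support) :
    S.card = (S ∩ blk α f 0).card + (S ∩ blk α f 1).card := by
  have := cell_split hf hS (fun _ => 1)
  simpa using this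

/-- The state of a closed row. -/
def fcl (C : Finset σ) (v : σ) : ℕ := if v ∈ C then 0 else 1

lemma blk_fcl_zero (hC : C ⊆ α.support) : blk α (fcl C) 0 = C := by
  ext v
  rw [mem_blk]
  unfold fcl
  constructor
  · rintro ⟨-, h⟩
    by_contra h1
    rw [if_neg h1] at h
    omega
  · intro h
    exact ⟨Finsupp.mem_support_iff.1 (hC h), if_pos h⟩

lemma blk_fcl_one : blk α (fcl C) 1 = α.support \ C := by
  ext v
  rw [mem_blk, mem_sdiff, Finsupp.mem_support_iff]
  unfold fcl
  constructor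
  · rintro ⟨h0, h⟩
    refine ⟨h0, fun h1 => ?_⟩
    rw [if_pos h1] at h
    omega
  · rintro ⟨h0, h⟩
    exact ⟨h0, if_neg h⟩

lemma ts_fcl (hC : Closed α d 3 C) (hc : α.support.card = 10) (hdeg : α.degree = 4 * d) :
    TS d 2 α {0, 1} (fcl C) := by
  refine ⟨fun v _ => ?_, fun j hj => ?_⟩
  · unfold fcl
    split_ifs <;> simp
  · rw [mem_insert, mem_singleton] at hj
    rcases hj with rfl | rfl
    · rw [blk_fcl_zero hC.sub]
      exact ⟨1, le_rfl, hC.card, by rw [hC.sum, one_mul]⟩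
    · rw [blk_fcl_one]
      refine ⟨3, by norm_num, ?_, ?_⟩
      · rw [card_sdiff_of_subset hC.sub, hC.card, hc]
      · have h1 := sum_sdiff (f := α) hC.sub
        rw [hC.sum, sum_of_support_subset subset_rfl, hdeg] at h1
        omega

/-- If there is a closed row, all states are linked to it. -/
lemma eqv_fcl (hd5 : 5 ≤ d) (hd8 : d ≤ 8) (hC : Closed α d 3 C) (hc : α.support.card = 10)
    (hdeg : α.degree = 4 * d) (hf : TS d 2 α {0, 1} f)
    (H : ∀ k' < 4, ∀ β : σ →₀ ℕ, β.support.card ≤ α.support.card → Conn d 3 k' β) :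
    Eqv d 2 4 α f (fcl C) := by
  have hg := ts_fcl hC hc hdeg
  suffices h : ∃ i j P c, Leaf α d 2 (blk α f i ∩ blk α (fcl C) j) P c by
    obtain ⟨i, j, P, c, hL⟩ := h
    exact eqv_of_leaf le_rfl (by omega) hf hg hL (by norm_num) hdeg H
  have hsub : ∀ i, blk α f i ⊆ α.support := fun i => filter_subset _ _
  have hpos : ∀ S ⊆ α.support, S.card ≤ ∑ v ∈ S, α v := by
    intro S hS
    rw [card_eq_sum_ones]
    apply sum_le_sum
    intro v hv
    have := Finsupp.mem_support_iff.1 (hS hv)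
    omega
  obtain ⟨k0, p0, c0, s0⟩ := hf.bk 0 (by simp)
  obtain ⟨k1, p1, c1, s1⟩ := hf.bk 1 (by simp)
  have hck := cell_card hf (Subset.refl α.support)
  rw [inter_eq_right.2 (hsub 0), inter_eq_right.2 (hsub 1), c0, c1, hc] at hck
  have n3 := cell_card hf hC.sub
  rw [hC.card] at n3
  have w3 := cell_split hf hC.sub α
  rw [hC.sum] at w3
  have hC0 : ∀ i, ((blk α f i) ∩ blk α (fcl C) 0) = C ∩ blk α f i := by
    intro i; rw [blk_fcl_zero hC.sub, inter_comm]
  have hC1 : ∀ i, ((blk α f i) ∩ blk α (fcl C) 1) = blk α f i \ C := by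
    intro i
    rw [blk_fcl_one]
    ext v
    simp only [mem_inter, mem_sdiff]
    have h9 : v ∈ blk α f i → v ∈ α.support := fun h => hsub i h
    tauto
  have hcardd : ∀ i, (blk α f i \ C).card + (C ∩ blk α f i).card = (blk α f i).card := by
    intro i
    rw [inter_comm]
    exact card_sdiff_add_card_inter _ _
  have hsumd : ∀ i, ∑ v ∈ blk α f i \ C, α v + ∑ v ∈ C ∩ blk α f i, α v =
      ∑ v ∈ blk α f i, α v := by
    intro i
    rw [← sum_inter_add_sum_sdiff (blk α f i) C α, inter_comm, add_comm]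
  -- `i` has one element of `C`, `i'` two
  have key : ∀ i i' ki ki', 1 ≤ ki → 1 ≤ ki' → (blk α f i).card = ki * 2 + 1 →
      ∑ v ∈ blk α f i, α v = ki * d → (blk α f i').card = ki' * 2 + 1 →
      ∑ v ∈ blk α f i', α v = ki' * d → ki + ki' = 4 → (C ∩ blk α f i).card = 1 →
      (C ∩ blk α f i').card = 2 →
      ∑ v ∈ C ∩ blk α f i, α v + ∑ v ∈ C ∩ blk α f i', α v = d →
      ∃ i j P c, Leaf α d 2 (blk α f i ∩ blk α (fcl C) j) P c := by
    intro i i' ki ki' q1 q2 q3 q4 q5 q6 q7 q8 q9 q10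
    have r1 := hpos _ (inter_subset_left.trans hC.sub : C ∩ blk α f i ⊆ α.support)
    have r2 := hpos _ (inter_subset_left.trans hC.sub : C ∩ blk α f i' ⊆ α.support)
    have u1 := hcardd i
    have u2 := hcardd i'
    have u3 := hsumd i
    have u4 := hsumd i'
    have hki : ki = 1 ∨ ki = 2 ∨ ki = 3 := by omega
    rcases hki with rfl | rfl | rfl
    · have : ki' = 3 := by omega
      subst this
      have v1 : (blk α f i' \ C).card = 5 := by omega
      obtain ⟨P, c, hL⟩ := exists_leaf_of (α := α) (d := d) (S := blk α f i' \ C) (by omega)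
        (by rw [v1]; omega) (by rw [v1]; omega)
      exact ⟨i', 1, P, c, by rw [hC1]; exact hL⟩
    · have v1 : (blk α f i \ C).card = 4 := by omega
      obtain ⟨P, c, hL⟩ := exists_leaf_of (α := α) (d := d) (S := blk α f i \ C) (by omega)
        (by rw [v1]; omega) (by rw [v1]; omega)
      exact ⟨i, 1, P, c, by rw [hC1]; exact hL⟩
    · have v1 : (blk α f i \ C).card = 6 := by omega
      obtain ⟨P, c, hL⟩ := exists_leaf_of (α := α) (d := d) (S := blk α f i \ C) (by omega)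
        (by rw [v1]; omega) (by rw [v1]; omega)
      exact ⟨i, 1, P, c, by rw [hC1]; exact hL⟩
  have full : ∀ i, (C ∩ blk α f i).card = 3 → ∑ v ∈ C ∩ blk α f i, α v = d →
      ∃ i j P c, Leaf α d 2 (blk α f i ∩ blk α (fcl C) j) P c := by
    intro i q1 q2
    obtain ⟨P, c, hL⟩ := exists_leaf_of (α := α) (d := d) (S := C ∩ blk α f i) (by omega)
      (by rw [q1, q2]; omega) (by rw [q1, q2]; omega)
    exact ⟨i, 0, P, c, by rw [hC0]; exact hL⟩
  have hcase : (C ∩ blk α f 0).card = 0 ∨ (C ∩ blk α f 0).card = 1 ∨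
      (C ∩ blk α f 0).card = 2 ∨ (C ∩ blk α f 0).card = 3 := by omega
  rcases hcase with h | h | h | h
  · apply full 1 (by omega)
    rw [card_eq_zero.1 h, sum_empty, zero_add] at w3
    exact w3.symm
  · exact key 0 1 k0 k1 p0 p1 c0 s0 c1 s1 (by omega) h (by omega) w3.symm
  · exact key 1 0 k1 k0 p1 p0 c1 s1 c0 s0 (by omega) (by omega) h (by omega)
  · have h' : (C ∩ blk α f 1).card = 0 := by omega
    apply full 0 h
    rw [card_eq_zero.1 h', sum_empty, add_zero] at w3
    exact w3.symm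

/-- A linked pair of configurations compatible with two states. -/
lemma eqv_of_linked (hd : 1 ≤ d) {J : Finset ℕ} {t : ℕ} (ht : 2 ≤ t) (hf : WS d t α J f)
    (hg : WS d t α J g) {X Y : Multiset (σ →₀ ℕ)} (hX : Cfg d (t + 1) k α X)
    (hY : Cfg d (t + 1) k α Y) (hfX : Compat f X) (hgY : Compat g Y)
    (h : Linked d (t + 1) X Y) : Eqv d t k α f g := by
  intro X' Y' hX' hY' hfX' hgY'
  exact (linked_of_compat ht hd f J α k k X' X hf hX' hX hfX' hfX).trans
    (h.trans (linked_of_compat ht hd g J α k k Y Y' hg hY hY' hgY hgY'))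

lemma isRow_lrow {P : Finset σ} {c : σ} (hP : P.card = 2) (hs : ∑ i ∈ P, α i ≤ d) :
    IsRow d 3 (lrow α d P c) := by
  refine ⟨degree_lrow hs, ?_⟩
  refine (card_le_card support_lrow).trans ((card_insert_le _ _).trans ?_)
  omega

/-- Exchanging the last variables of two rows. -/
lemma step_exchange {P Q : Finset σ} {p q : σ} (hP : P.card = 2) (hQ : Q.card = 2)
    (hs : ∑ i ∈ P, α i ≤ d) (hPQ : ∑ i ∈ P, α i = ∑ i ∈ Q, α i) (Z : Multiset (σ →₀ ℕ)) :
    Step d 3 (lrow α d P p ::ₘ lrow α d Q q ::ₘ Z) (lrow α d P q ::ₘ lrow α d Q p ::ₘ Z) := by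
  refine ⟨_, _, _, _, Z, rfl, rfl, ?_, isRow_lrow hP hs, isRow_lrow hQ (hPQ ▸ hs),
    isRow_lrow hP hs, isRow_lrow hQ (hPQ ▸ hs)⟩
  unfold lrow
  rw [hPQ]
  abel

end Pool.Agent.Lib.MP_e26c3f_al
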