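import Mathlib
import Pool.Agent.Lib.MP_e26c3f_al.CornerEleven

/-! Numerical lemmas for fibres with four rows and ten variables. -/

set_option autoImplicit false
set_option linter.unusedSectionVars false

namespace Pool.Agent.Lib.MP_e26c3f_al

open Finset

/-- A pair in `l` and a pair in `l'` with the same sum. -/
def TTwo (l' : List ℕ) : List ℕ → Bool
  | [] => false
  | b :: l => l.any (fun c => T2 (b + c) l') || TTwo l' l

lemma TTwo_sound {l' l : List ℕ} (h : TTwo l' l = true) :
    ∃ p q, List.Sublist p l ∧ p.length = 2 ∧ List.Sublist q l' ∧ q.length = 2 ∧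
      p.sum = q.sum := by
  induction l with
  | nil => simp [TTwo] at h
  | cons b l ih =>
    rw [TTwo, Bool.or_eq_true, List.any_eq_true] at h
    rcases h with ⟨c, hc, h⟩ | h
    · obtain ⟨q, h1, h2, h3⟩ := T2_sound h
      exact ⟨[b, c], q, List.Sublist.cons_cons b (List.singleton_sublist.2 hc), rfl, h1, h2,
        by rw [h3]; simp⟩
    · obtain ⟨p, q, h1, h2⟩ := ih h
      exact ⟨p, q, h1.trans (List.sublist_cons_self _ _), h2⟩

/-- Check for the second quadruple. -/
def tfR (d a b c e : ℕ) : Bool :=
  (List.range d).all fun x => x == 0 || (List.range d).all fun y => y == 0 ||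
    (List.range d).all fun z => z == 0 ||
      Nat.ble (a + b + c + e) (x + y + z) || Nat.ble d (x + y + z) ||
      T3 d [a, b, c, e, x, y, z, a + b + c + e - x - y - z] ||
      TTwo [x, y, z, a + b + c + e - x - y - z] [a, b, c, e]

/-- Check for two quadruples. -/
def tf (d : ℕ) : Bool :=
  (List.range d).all fun a => a == 0 || (List.range d).all fun b => b == 0 ||
    (List.range d).all fun c => c == 0 || Nat.ble d (a + b + c) || (List.range d).all fun e =>
      e == 0 || Nat.ble d (a + b + e) || Nat.ble d (a + c + e) || Nat.ble d (b + c + e) ||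
      tfR d a b c e

lemma tf7 : tf 7 = true := by decide +kernel

lemma tf8 : tf 8 = true := by decide +kernel

lemma ten_four {d a b c e x y z w : ℕ} (hd : d = 7 ∨ d = 8) (pa : 0 < a) (pb : 0 < b)
    (pc : 0 < c) (pe : 0 < e) (px : 0 < x) (py : 0 < y) (pz : 0 < z) (pw : 0 < w)
    (h1 : a + b + c < d) (h2 : a + b + e < d) (h3 : a + c + e < d) (h4 : b + c + e < d)
    (h5 : x + y + z < d) (hs : a + b + c + e = x + y + z + w)
    (hT : ¬ T3 d [a, b, c, e, x, y, z, w] = true) : TTwo [x, y, z, w] [a, b, c, e] = true := by
  have h : tf d = true := by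
    rcases hd with rfl | rfl
    · exact tf7
    · exact tf8
  unfold tf at h
  simp only [List.all_eq_true, List.mem_range, Bool.or_eq_true, beq_iff_eq, Nat.ble_eq] at h
  have k1 := (h a (by omega)).resolve_left (by omega)
  have k2 := (k1 b (by omega)).resolve_left (by omega)
  have k3 := (k2 c (by omega)).resolve_left (by omega)
  have k4 := (k3 e (by omega)).resolve_left (by omega)
  unfold tfR at k4
  simp only [List.all_eq_true, List.mem_range, Bool.or_eq_true, beq_iff_eq, Nat.ble_eq] at k4
  have k5 := (k4 x (by omega)).resolve_left (by omega)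
  have k6 := (k5 y (by omega)).resolve_left (by omega)
  have k7 := k6 z (by omega)
  have e1 : a + b + c + e - x - y - z = w := by omega
  rw [e1] at k7
  rcases k7 with (((k7 | k7) | k7) | k7) | k7
  · omega
  · omega
  · omega
  · exact absurd k7 hT
  · exact k7

/-- Check for two triples. -/
def tt (d : ℕ) : Bool :=
  (List.range d).all fun a => a == 0 || (List.range d).all fun b => b == 0 ||
    (List.range d).all fun c => c == 0 || Nat.ble d (a + b + c) || (List.range d).all fun x =>
      x == 0 || (List.range d).all fun y => y == 0 || Nat.ble (a + b + c) (x + y) ||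
      T3 d [a, b, c, x, y, a + b + c - x - y] ||
      [a, b, c].any fun s => Nat.ble (2 * s) (a + b + c) && [x, y, a + b + c - x - y].contains s

lemma tt7 : tt 7 = true := by decide +kernel

lemma tt8 : tt 8 = true := by decide +kernel

lemma ten_three {d a b c x y z : ℕ} (hd : d = 7 ∨ d = 8) (pa : 0 < a) (pb : 0 < b)
    (pc : 0 < c) (px : 0 < x) (py : 0 < y) (pz : 0 < z) (h1 : a + b + c < d)
    (hs : a + b + c = x + y + z) (hT : ¬ T3 d [a, b, c, x, y, z] = true) :
    ∃ s ∈ [a, b, c], 2 * s ≤ a + b + c ∧ s ∈ [x, y, z] := by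
  have h : tt d = true := by
    rcases hd with rfl | rfl
    · exact tt7
    · exact tt8
  unfold tt at h
  simp only [List.all_eq_true, List.mem_range, Bool.or_eq_true, beq_iff_eq, Nat.ble_eq] at h
  have k1 := (h a (by omega)).resolve_left (by omega)
  have k2 := (k1 b (by omega)).resolve_left (by omega)
  have k3 := (k2 c (by omega)).resolve_left (by omega)
  have k4 := (k3 x (by omega)).resolve_left (by omega)
  have k5 := k4 y (by omega)
  have e1 : a + b + c - x - y = z := by omega
  rw [e1, List.any_eq_true] at k5
  rcases k5 with ((k5 | k5) | k5) | ⟨s, k5, k6⟩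
  · omega
  · omega
  · exact absurd k5 hT
  · rw [Bool.and_eq_true, Nat.ble_eq, List.contains_iff_mem] at k6
    exact ⟨s, k5, k6⟩

end Pool.Agent.Lib.MP_e26c3f_al
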