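import Mathlib
import Pool.Agent.Lib.MP_e26c3f_al.CornerTen
import Pool.Agent.Lib.MP_e26c3f_al.CornerTenNum

/-! Fibres with four rows and ten variables for `s = 3`, `d = 7, 8`: conclusion. -/

set_option autoImplicit false
set_option linter.unusedSectionVars false

namespace Pool.Agent.Lib.MP_e26c3f_al

open Finset

variable {σ : Type*} [DecidableEq σ] {d s k : ℕ} {α : σ →₀ ℕ} {C D E : Finset σ} {f g : σ → ℕ}

lemma closed_of_T3 {L : List σ} (hnd : L.Nodup) (hLs : ∀ v ∈ L, v ∈ α.support)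
    (hT : T3 d (L.map α) = true) : ∃ E, Closed α d 3 E := by
  obtain ⟨l', h5, h6, h7⟩ := T3_sound hT
  obtain ⟨l, h8, rfl⟩ := List.sublist_map_iff.1 h5
  have hnl : l.Nodup := h8.nodup hnd
  refine ⟨l.toFinset, ?_, ?_, ?_⟩
  · intro v hv
    rw [List.mem_toFinset] at hv
    exact hLs v (h8.subset hv)
  · rw [List.toFinset_card_of_nodup hnl]
    rwa [List.length_map] at h6
  · rw [List.sum_toFinset _ hnl]
    exact h7

lemma two_rows {T A B : Finset σ} {p : σ} (hAB : Disjoint A B) (hpA : p ∉ A) (hpB : p ∉ B)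
    (hT : T = insert p (A ∪ B)) (hs : ∑ i ∈ T, α i = 2 * d) (hA : ∑ i ∈ A, α i ≤ d)
    (hB : ∑ i ∈ B, α i ≤ d) : lrow α d A p + lrow α d B p = crow α T := by
  have h1 : α p + (∑ i ∈ A, α i + ∑ i ∈ B, α i) = 2 * d := by
    rw [← hs, hT, sum_insert (by simp [hpA, hpB]), sum_union hAB]
  ext x
  rw [Finsupp.add_apply, lrow_apply, lrow_apply, crow_apply, hT]
  by_cases hx : x = p
  · subst hx
    simp only [hpA, hpB, if_false, if_true, mem_insert, true_or, zero_add]
    omega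
  · by_cases hxA : x ∈ A
    · have hxB : x ∉ B := disjoint_left.1 hAB hxA
      simp [hx, hxA, hxB]
    · simp [hx, hxA]

lemma two_blocks_sum (hf : TS d 2 α {0, 1} f) :
    crow α (blk α f 0) + crow α (blk α f 1) = α := by
  ext x
  rw [Finsupp.add_apply, crow_apply, crow_apply]
  by_cases h0 : α x = 0
  · simp [h0]
  · have h1 := hf.mem x (Finsupp.mem_support_iff.2 h0)
    rw [mem_insert, mem_singleton] at h1
    rcases h1 with h1 | h1 <;> simp [mem_blk, h0, h1]

lemma cfg_four {A B A' B' : Finset σ} {p q : σ} (hf : TS d 2 α {0, 1} f)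
    (hA : A.card = 2) (hB : B.card = 2) (hA' : A'.card = 2) (hB' : B'.card = 2)
    (sA : ∑ i ∈ A, α i ≤ d) (sB : ∑ i ∈ B, α i ≤ d) (sA' : ∑ i ∈ A', α i ≤ d)
    (sB' : ∑ i ∈ B', α i ≤ d)
    (h0 : lrow α d A p + lrow α d B p = crow α (blk α f 0))
    (h1 : lrow α d A' q + lrow α d B' q = crow α (blk α f 1)) :
    Cfg d 3 4 α (lrow α d A p ::ₘ lrow α d A' q ::ₘ lrow α d B p ::ₘ lrow α d B' q ::ₘ 0) := by
  refine ⟨?_, by simp, ?_⟩
  · intro u hu
    simp only [Multiset.mem_cons, Multiset.notMem_zero, or_false] at hu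
    rcases hu with rfl | rfl | rfl | rfl
    · exact isRow_lrow hA sA
    · exact isRow_lrow hA' sA'
    · exact isRow_lrow hB sB
    · exact isRow_lrow hB' sB'
  · simp only [Multiset.sum_cons, Multiset.sum_zero, add_zero]
    conv_rhs => rw [← two_blocks_sum hf, ← h0, ← h1]
    abel

lemma compat_lrow {P : Finset σ} {c : σ} {j : ℕ} (hP : ∀ x ∈ P, f x = j) (hc : f c = j) :
    ∃ j, ∀ v ∈ (lrow α d P c).support, f v = j := by
  refine ⟨j, fun v hv => ?_⟩
  rcases mem_insert.1 (support_lrow hv) with rfl | h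
  · exact hc
  · exact hP v h

/-- Four common elements. -/
lemma eqv_case_four (hd : d = 7 ∨ d = 8) (hf : TS d 2 α {0, 1} f) (hg : TS d 2 α {0, 1} g)
    (hdeg : α.degree = 4 * d) (hno : ¬ ∃ C, Closed α d 3 C)
    (H : ∀ k' < 4, ∀ β : σ →₀ ℕ, β.support.card ≤ α.support.card → Conn d 3 k' β)
    (c00 : (blk α f 0 ∩ blk α g 0).card = 4) (c01 : (blk α f 0 ∩ blk α g 1).card = 1)
    (c10 : (blk α f 1 ∩ blk α g 0).card = 1) (c11 : (blk α f 1 ∩ blk α g 1).card = 4)
    (sf0 : ∑ v ∈ blk α f 0, α v = 2 * d) (sf1 : ∑ v ∈ blk α f 1, α v = 2 * d)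
    (sg0 : ∑ v ∈ blk α g 0, α v = 2 * d) : Eqv d 2 4 α f g := by
  have hd1 : 1 ≤ d := by omega
  by_cases hL0 : ∃ P c, Leaf α d 2 (blk α f 0 ∩ blk α g 0) P c
  · obtain ⟨P, c, hL⟩ := hL0
    exact eqv_of_leaf le_rfl hd1 hf hg hL (by norm_num) hdeg H
  by_cases hL1 : ∃ P c, Leaf α d 2 (blk α f 1 ∩ blk α g 1) P c
  · obtain ⟨P, c, hL⟩ := hL1
    exact eqv_of_leaf le_rfl hd1 hf hg hL (by norm_num) hdeg H
  have hsub : ∀ (f : σ → ℕ) i, blk α f i ⊆ α.support := fun f i => filter_subset _ _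
  set S := blk α f 0 ∩ blk α g 0 with hS
  set R := blk α f 1 ∩ blk α g 1 with hR
  obtain ⟨p, hp⟩ := card_eq_one.1 c01
  obtain ⟨q, hq⟩ := card_eq_one.1 c10
  have e1 := cell_split hg (hsub f 0) α
  have e2 := cell_split hg (hsub f 1) α
  have e3 := cell_split hf (hsub g 0) α
  rw [sf0, hp, sum_singleton, ← hS] at e1
  rw [sf1, hq, sum_singleton, ← hR] at e2
  rw [sg0, inter_comm, ← hS, inter_comm, hq, sum_singleton] at e3
  have hpm : (α p ≠ 0 ∧ f p = 0) ∧ (α p ≠ 0 ∧ g p = 1) := by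
    rw [← mem_blk, ← mem_blk, ← mem_inter, hp]; simp
  have hqm : (α q ≠ 0 ∧ f q = 1) ∧ (α q ≠ 0 ∧ g q = 0) := by
    rw [← mem_blk, ← mem_blk, ← mem_inter, hq]; simp
  have hSm : ∀ x, x ∈ S ↔ (α x ≠ 0 ∧ f x = 0) ∧ (α x ≠ 0 ∧ g x = 0) := by
    intro x; rw [hS, mem_inter, mem_blk, mem_blk]
  have hRm : ∀ x, x ∈ R ↔ (α x ≠ 0 ∧ f x = 1) ∧ (α x ≠ 0 ∧ g x = 1) := by
    intro x; rw [hR, mem_inter, mem_blk, mem_blk]
  have light : ∀ U : Finset σ, (¬ ∃ P c, Leaf α d 2 U P c) → U.card = 4 →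
      ∑ v ∈ U, α v < 2 * d → ∀ B ⊆ U, B.card = 3 → ∑ v ∈ B, α v < d := by
    intro U hU hUc hUs
    rcases cell_dichotomy hU with h | h
    · exfalso
      obtain ⟨B, hB, hBc, -, h3, -⟩ := exists_min_sub α U 2 (by omega)
      have h4 := h B hB hBc
      rw [hUc] at h3
      omega
    · exact h
  have lS := light S hL0 c00 (by omega)
  have lR := light R hL1 c11 (by omega)
  -- lists
  have four : ∀ U : Finset σ, U.card = 4 → ∃ a b c e, [a, b, c, e].Nodup ∧
      [a, b, c, e].toFinset = U := by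
    intro U hU
    have h1 : U.toList.length = 4 := by rw [length_toList, hU]
    obtain ⟨a, l, hl⟩ := List.exists_cons_of_length_eq_add_one h1
    rw [hl] at h1
    obtain ⟨b, l, rfl⟩ := List.exists_cons_of_length_eq_add_one
      (show l.length = 2 + 1 by simpa using h1)
    obtain ⟨c, l, rfl⟩ := List.exists_cons_of_length_eq_add_one
      (show l.length = 1 + 1 by simpa using h1)
    obtain ⟨e, l, rfl⟩ := List.exists_cons_of_length_eq_add_one
      (show l.length = 0 + 1 by simpa using h1)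
    have h2 : l = [] := List.length_eq_zero_iff.1 (by simpa using h1)
    subst h2
    refine ⟨a, b, c, e, ?_, ?_⟩
    · rw [← hl]; exact U.nodup_toList
    · rw [← hl]; exact U.toList_toFinset
  obtain ⟨a, b, c, e, hn1, hl1⟩ := four S c00
  obtain ⟨x, y, z, w, hn2, hl2⟩ := four R c11
  have ms : ∀ v, v ∈ [a, b, c, e] ↔ v ∈ S := fun v => by rw [← List.mem_toFinset, hl1]
  have mr : ∀ v, v ∈ [x, y, z, w] ↔ v ∈ R := fun v => by rw [← List.mem_toFinset, hl2]
  have hpS : ∀ v ∈ S, 0 < α v := fun v hv => by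
    have := ((hSm v).1 hv).1.1; omega
  have hpR : ∀ v ∈ R, 0 < α v := fun v hv => by
    have := ((hRm v).1 hv).1.1; omega
  have tri : ∀ (U : Finset σ) (u1 u2 u3 : σ), (∀ B ⊆ U, B.card = 3 → ∑ v ∈ B, α v < d) →
      u1 ∈ U → u2 ∈ U → u3 ∈ U → u1 ≠ u2 → u1 ≠ u3 → u2 ≠ u3 → α u1 + α u2 + α u3 < d := by
    intro U u1 u2 u3 hU h1 h2 h3 h12 h13 h23
    have h4 := hU {u1, u2, u3} (by
      intro v hv
      simp only [mem_insert, mem_singleton] at hv
      rcases hv with rfl | rfl | rfl <;> assumption) (card_eq_three.2 ⟨u1, u2, u3, h12, h13, h23, rfl⟩)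
    rw [sum_insert (by simp [h12, h13]), sum_insert (by simp [h23]), sum_singleton] at h4
    omega
  have ne1 := hn1
  have ne2 := hn2
  simp only [List.nodup_cons, List.mem_cons, List.not_mem_nil, not_or, or_false, not_false_eq_true,
    List.nodup_nil, and_true] at ne1 ne2
  have mS : a ∈ S ∧ b ∈ S ∧ c ∈ S ∧ e ∈ S := by
    refine ⟨(ms a).1 (by simp), (ms b).1 (by simp), (ms c).1 (by simp), (ms e).1 (by simp)⟩
  have mR : x ∈ R ∧ y ∈ R ∧ z ∈ R ∧ w ∈ R := by
    refine ⟨(mr x).1 (by simp), (mr y).1 (by simp), (mr z).1 (by simp), (mr w).1 (by simp)⟩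
  have sS : ∑ v ∈ S, α v = α a + α b + α c + α e := by
    rw [← hl1, List.sum_toFinset _ hn1]
    simp only [List.map_cons, List.map_nil, List.sum_cons, List.sum_nil]
    omega
  have sR : ∑ v ∈ R, α v = α x + α y + α z + α w := by
    rw [← hl2, List.sum_toFinset _ hn2]
    simp only [List.map_cons, List.map_nil, List.sum_cons, List.sum_nil]
    omega
  have hT22 := ten_four (d := d) hd (hpS a mS.1) (hpS b mS.2.1) (hpS c mS.2.2.1)
    (hpS e mS.2.2.2) (hpR x mR.1) (hpR y mR.2.1) (hpR z mR.2.2.1) (hpR w mR.2.2.2)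
    (tri S a b c lS mS.1 mS.2.1 mS.2.2.1 ne1.1.1 ne1.1.2.1 ne1.2.1.1)
    (tri S a b e lS mS.1 mS.2.1 mS.2.2.2 ne1.1.1 ne1.1.2.2 ne1.2.1.2)
    (tri S a c e lS mS.1 mS.2.2.1 mS.2.2.2 ne1.1.2.1 ne1.1.2.2 ne1.2.2)
    (tri S b c e lS mS.2.1 mS.2.2.1 mS.2.2.2 ne1.2.1.1 ne1.2.1.2 ne1.2.2)
    (tri R x y z lR mR.1 mR.2.1 mR.2.2.1 ne2.1.1 ne2.1.2.1 ne2.2.1.1) (by omega)
    (by
      intro hT
      apply hno
      apply closed_of_T3 (L := [a, b, c, e] ++ [x, y, z, w]) _ _ hT
      · rw [List.nodup_append]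
        refine ⟨hn1, hn2, fun u hu v hv huv => ?_⟩
        subst huv
        have h1 := ((hSm u).1 ((ms u).1 hu)).1.2
        have h2 := ((hRm u).1 ((mr u).1 hv)).1.2
        omega
      · intro v hv
        rw [List.mem_append] at hv
        rw [Finsupp.mem_support_iff]
        rcases hv with hv | hv
        · exact ((hSm v).1 ((ms v).1 hv)).1.1
        · exact ((hRm v).1 ((mr v).1 hv)).1.1)
  obtain ⟨l1, l2, k1, k2, k3, k4, k5⟩ := TTwo_sound hT22
  have e5 : [α a, α b, α c, α e] = [a, b, c, e].map α := rfl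
  have e6 : [α x, α y, α z, α w] = [x, y, z, w].map α := rfl
  rw [e5] at k1
  rw [e6] at k3
  obtain ⟨m1, k6, rfl⟩ := List.sublist_map_iff.1 k1
  obtain ⟨m2, k7, rfl⟩ := List.sublist_map_iff.1 k3
  have nm1 := k6.nodup hn1
  have nm2 := k7.nodup hn2
  rw [List.length_map] at k2 k4
  set A := m1.toFinset with hA
  set A' := m2.toFinset with hA'
  have hAS : A ⊆ S := fun v hv => (ms v).1 (k6.subset (List.mem_toFinset.1 hv))
  have hAR : A' ⊆ R := fun v hv => (mr v).1 (k7.subset (List.mem_toFinset.1 hv))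
  have cA : A.card = 2 := by rw [hA, List.toFinset_card_of_nodup nm1, k2]
  have cA' : A'.card = 2 := by rw [hA', List.toFinset_card_of_nodup nm2, k4]
  have sAA' : ∑ v ∈ A, α v = ∑ v ∈ A', α v := by
    rw [hA, hA', List.sum_toFinset _ nm1, List.sum_toFinset _ nm2, k5]
  have cB : (S \ A).card = 2 := by rw [card_sdiff_of_subset hAS, c00, cA]
  have cB' : (R \ A').card = 2 := by rw [card_sdiff_of_subset hAR, c11, cA']
  have sB := sum_sdiff (f := fun v => α v) hAS
  have sB' := sum_sdiff (f := fun v => α v) hAR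
  have sBB' : ∑ v ∈ S \ A, α v = ∑ v ∈ R \ A', α v := by omega
  have small : ∀ (U : Finset σ), (∀ B ⊆ U, B.card = 3 → ∑ v ∈ B, α v < d) → U.card = 4 →
      ∀ B ⊆ U, B.card = 2 → ∑ v ∈ B, α v ≤ d := by
    intro U hU hUc B hB hBc
    obtain ⟨v, hv⟩ : ∃ v, v ∈ U \ B := by
      apply card_pos.1
      rw [card_sdiff_of_subset hB, hUc, hBc]
      norm_num
    rw [mem_sdiff] at hv
    have h1 := hU (insert v B) (insert_subset hv.1 hB) (by
      rw [card_insert_of_notMem hv.2, hBc])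
    rw [sum_insert hv.2] at h1
    omega
  have tA := small S lS c00 A hAS cA
  have tB := small S lS c00 (S \ A) sdiff_subset cB
  have tA' := small R lR c11 A' hAR cA'
  have tB' := small R lR c11 (R \ A') sdiff_subset cB'
  have hpS' : p ∉ S := fun h => by
    have := ((hSm p).1 h).2.2
    omega
  have hqR' : q ∉ R := fun h => by
    have := ((hRm q).1 h).2.2
    omega
  have hblk0 : blk α f 0 = insert p (A ∪ S \ A) := by
    rw [union_sdiff_of_subset hAS]
    ext v
    rw [mem_insert, hSm, mem_blk]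
    constructor
    · intro h
      have h1 := hg.mem v (Finsupp.mem_support_iff.2 h.1)
      rw [mem_insert, mem_singleton] at h1
      rcases h1 with h1 | h1
      · exact Or.inr ⟨h, h.1, h1⟩
      · left
        have : v ∈ blk α f 0 ∩ blk α g 1 := by
          rw [mem_inter, mem_blk, mem_blk]; exact ⟨h, h.1, h1⟩
        rwa [hp, mem_singleton] at this
    · rintro (rfl | h)
      · exact hpm.1
      · exact h.1
  have hblk1 : blk α f 1 = insert q (A' ∪ R \ A') := by
    rw [union_sdiff_of_subset hAR]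
    ext v
    rw [mem_insert, hRm, mem_blk]
    constructor
    · intro h
      have h1 := hg.mem v (Finsupp.mem_support_iff.2 h.1)
      rw [mem_insert, mem_singleton] at h1
      rcases h1 with h1 | h1
      · left
        have : v ∈ blk α f 1 ∩ blk α g 0 := by
          rw [mem_inter, mem_blk, mem_blk]; exact ⟨h, h.1, h1⟩
        rwa [hq, mem_singleton] at this
      · exact Or.inr ⟨h, h.1, h1⟩
    · rintro (rfl | h)
      · exact hqm.1
      · exact h.1
  have r0 := two_rows (T := blk α f 0) (p := p) (disjoint_sdiff (s := A) (t := S))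
    (fun h => hpS' (hAS h)) (fun h => hpS' (sdiff_subset h)) hblk0 sf0 tA tB
  have r1 := two_rows (T := blk α f 1) (p := q) (disjoint_sdiff (s := A') (t := R))
    (fun h => hqR' (hAR h)) (fun h => hqR' (sdiff_subset h)) hblk1 sf1 tA' tB'
  have hX0 := cfg_four hf cA cB cA' cB' tA tB tA' tB' r0 r1
  have st1 := step_exchange (p := p) (q := q) cA cA' tA sAA'
    (lrow α d (S \ A) p ::ₘ lrow α d (R \ A') q ::ₘ 0)
  have st2 := step_exchange (p := p) (q := q) cB cB' tB sBB' 0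
  have hlink := st1.linked.trans ((st2.linked.cons (lrow α d A' p)).cons (lrow α d A q))
  have fS : ∀ v ∈ S, f v = 0 ∧ g v = 0 := fun v hv =>
    ⟨((hSm v).1 hv).1.2, ((hSm v).1 hv).2.2⟩
  have fR : ∀ v ∈ R, f v = 1 ∧ g v = 1 := fun v hv =>
    ⟨((hRm v).1 hv).1.2, ((hRm v).1 hv).2.2⟩
  refine eqv_of_linked hd1 le_rfl hf.ws hg.ws hX0 (hlink.cfg hX0) ?_ ?_ hlink
  · intro r hr
    simp only [Multiset.mem_cons, Multiset.notMem_zero, or_false] at hr
    rcases hr with rfl | rfl | rfl | rfl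
    · exact compat_lrow (fun v hv => (fS v (hAS hv)).1) hpm.1.2
    · exact compat_lrow (fun v hv => (fR v (hAR hv)).1) hqm.1.2
    · exact compat_lrow (fun v hv => (fS v (sdiff_subset hv)).1) hpm.1.2
    · exact compat_lrow (fun v hv => (fR v (sdiff_subset hv)).1) hqm.1.2
  · intro r hr
    simp only [Multiset.mem_cons, Multiset.notMem_zero, or_false] at hr
    rcases hr with rfl | rfl | rfl | rfl
    · exact compat_lrow (fun v hv => (fS v (hAS hv)).2) hqm.2.2
    · exact compat_lrow (fun v hv => (fR v (hAR hv)).2) hpm.2.2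
    · exact compat_lrow (fun v hv => (fS v (sdiff_subset hv)).2) hqm.2.2
    · exact compat_lrow (fun v hv => (fR v (sdiff_subset hv)).2) hpm.2.2

end Pool.Agent.Lib.MP_e26c3f_al
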