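import Mathlib
import Pool.Agent.Lib.MP_e26c3f_al.CornerTenB

/-! Fibres with four rows and ten variables for `s = 3`, `d = 7, 8`: three common elements. -/

set_option autoImplicit false
set_option linter.unusedSectionVars false

namespace Pool.Agent.Lib.MP_e26c3f_al

open Finset

variable {σ : Type*} [DecidableEq σ] {d s k : ℕ} {α : σ →₀ ℕ} {C D E : Finset σ} {f g : σ → ℕ}

/-- States which agree on the support. -/
lemma eqv_of_agree_support {f2 : σ → ℕ}
    (h : Eqv d 2 4 α f f2) (hag : ∀ v, α v ≠ 0 → f2 v = g v) : Eqv d 2 4 α f g := by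
  intro X Y hX hY hfX hgY
  apply h X Y hX hY hfX
  intro r hr
  obtain ⟨j, hj⟩ := hgY r hr
  refine ⟨j, fun v hv => ?_⟩
  rw [hag v (Finsupp.mem_support_iff.1 (Finsupp.support_mono (hY.le hr) hv)), hj v hv]

/-- Exchanging the first variables of two rows. -/
lemma step_exchange' {u v p2 q2 p1 q1 : σ} (huv : α u = α v) (hup : u ≠ p2) (hvp : v ≠ p2)
    (huq : u ≠ q2) (hvq : v ≠ q2) (hs : α u + α p2 ≤ d) (hs' : α v + α q2 ≤ d)
    (Z : Multiset (σ →₀ ℕ)) :
    Step d 3 (lrow α d {u, p2} p1 ::ₘ lrow α d {v, q2} q1 ::ₘ Z)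
      (lrow α d {v, p2} p1 ::ₘ lrow α d {u, q2} q1 ::ₘ Z) := by
  have e : ∀ a b : σ, a ≠ b → ∑ i ∈ ({a, b} : Finset σ), α i = α a + α b :=
    fun a b hab => sum_pair hab
  have ef : ∀ a b : σ, a ≠ b → α.filter (· ∈ ({a, b} : Finset σ)) =
      Finsupp.single a (α a) + Finsupp.single b (α b) := by
    intro a b hab
    ext x
    rw [Finsupp.filter_apply, Finsupp.add_apply, Finsupp.single_apply, Finsupp.single_apply]
    by_cases h1 : x = a
    · subst h1
      simp [hab.symm]
    · by_cases h2 : x = b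
      · subst h2
        simp [hab]
      · simp [h1, h2, Ne.symm h1, Ne.symm h2]
  refine ⟨_, _, _, _, Z, rfl, rfl, ?_, isRow_lrow (card_pair hup) ?_,
    isRow_lrow (card_pair hvq) ?_, isRow_lrow (card_pair hvp) ?_,
    isRow_lrow (card_pair huq) ?_⟩
  · unfold lrow
    rw [ef u p2 hup, ef v q2 hvq, ef v p2 hvp, ef u q2 huq, e u p2 hup, e v q2 hvq, e v p2 hvp,
      e u q2 huq, huv]
    abel
  · rw [e u p2 hup]; exact hs
  · rw [e v q2 hvq]; exact hs'
  · rw [e v p2 hvp, ← huv]; exact hs
  · rw [e u q2 huq, huv]; exact hs'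

/-- Three common elements. -/
lemma eqv_case_three (hd : d = 7 ∨ d = 8) (hf : TS d 2 α {0, 1} f) (hg : TS d 2 α {0, 1} g)
    (hdeg : α.degree = 4 * d) (hno : ¬ ∃ C, Closed α d 3 C)
    (H : ∀ k' < 4, ∀ β : σ →₀ ℕ, β.support.card ≤ α.support.card → Conn d 3 k' β)
    (c00 : (blk α f 0 ∩ blk α g 0).card = 3) (c01 : (blk α f 0 ∩ blk α g 1).card = 2)
    (c10 : (blk α f 1 ∩ blk α g 0).card = 2) (c11 : (blk α f 1 ∩ blk α g 1).card = 3)
    (sf0 : ∑ v ∈ blk α f 0, α v = 2 * d) (sf1 : ∑ v ∈ blk α f 1, α v = 2 * d)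
    (sg0 : ∑ v ∈ blk α g 0, α v = 2 * d) : Eqv d 2 4 α f g := by
  have hd1 : 1 ≤ d := by omega
  by_cases hL0 : ∃ P c, Leaf α d 2 (blk α f 0 ∩ blk α g 0) P c
  · obtain ⟨P, c, hL⟩ := hL0
    exact eqv_of_leaf le_rfl hd1 hf hg hL (by norm_num) hdeg H
  have hsub : ∀ (f : σ → ℕ) i, blk α f i ⊆ α.support := fun f i => filter_subset _ _
  set S := blk α f 0 ∩ blk α g 0 with hS
  set R := blk α f 1 ∩ blk α g 1 with hR
  set P := blk α f 0 ∩ blk α g 1 with hP
  set Q := blk α f 1 ∩ blk α g 0 with hQ
  have e1 := cell_split hg (hsub f 0) α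
  have e2 := cell_split hg (hsub f 1) α
  have e3 := cell_split hf (hsub g 0) α
  rw [sf0, ← hP, ← hS] at e1
  rw [sf1, ← hQ, ← hR] at e2
  rw [sg0, inter_comm, ← hS, inter_comm, ← hQ] at e3
  have hSm : ∀ x, x ∈ S ↔ (α x ≠ 0 ∧ f x = 0) ∧ (α x ≠ 0 ∧ g x = 0) := by
    intro x; rw [hS, mem_inter, mem_blk, mem_blk]
  have hRm : ∀ x, x ∈ R ↔ (α x ≠ 0 ∧ f x = 1) ∧ (α x ≠ 0 ∧ g x = 1) := by
    intro x; rw [hR, mem_inter, mem_blk, mem_blk]
  have hPm : ∀ x, x ∈ P ↔ (α x ≠ 0 ∧ f x = 0) ∧ (α x ≠ 0 ∧ g x = 1) := by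
    intro x; rw [hP, mem_inter, mem_blk, mem_blk]
  have hQm : ∀ x, x ∈ Q ↔ (α x ≠ 0 ∧ f x = 1) ∧ (α x ≠ 0 ∧ g x = 0) := by
    intro x; rw [hQ, mem_inter, mem_blk, mem_blk]
  have hcover : ∀ x, α x ≠ 0 → x ∈ S ∨ x ∈ P ∨ x ∈ Q ∨ x ∈ R := by
    intro x hx
    have h1 := hf.mem x (Finsupp.mem_support_iff.2 hx)
    have h2 := hg.mem x (Finsupp.mem_support_iff.2 hx)
    rw [mem_insert, mem_singleton] at h1 h2
    rw [hSm, hPm, hQm, hRm]
    tauto
  obtain ⟨p1, p2, hp12, hPe⟩ := card_eq_two.1 c01
  obtain ⟨q1, q2, hq12, hQe⟩ := card_eq_two.1 c10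
  have hPs : ∑ v ∈ P, α v = α p1 + α p2 := by rw [hPe]; exact sum_pair hp12
  have hQs : ∑ v ∈ Q, α v = α q1 + α q2 := by rw [hQe]; exact sum_pair hq12
  -- order
  wlog hp : α p2 ≤ α p1 generalizing p1 p2
  · exact this p2 p1 hp12.symm (by rw [hPe, pair_comm]) (by omega) (by omega)
  wlog hq : α q2 ≤ α q1 generalizing q1 q2
  · exact this q2 q1 hq12.symm (by rw [hQe, pair_comm]) (by omega) (by omega)
  have mp1 : p1 ∈ P := by rw [hPe]; simp
  have mp2 : p2 ∈ P := by rw [hPe]; simp
  have mq1 : q1 ∈ Q := by rw [hQe]; simp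
  have mq2 : q2 ∈ Q := by rw [hQe]; simp
  have lp1 := (hPm p1).1 mp1
  have lp2 := (hPm p2).1 mp2
  have lq1 := (hQm q1).1 mq1
  have lq2 := (hQm q2).1 mq2
  obtain ⟨a, b, c, hab, hac, hbc, hSe⟩ := card_eq_three.1 c00
  obtain ⟨x, y, z, hxy, hxz, hyz, hRe⟩ := card_eq_three.1 c11
  have sS : ∑ v ∈ S, α v = α a + α b + α c := by
    rw [hSe, sum_insert (by simp [hab, hac]), sum_insert (by simp [hbc]), sum_singleton]
    omega
  have sR : ∑ v ∈ R, α v = α x + α y + α z := by
    rw [hRe, sum_insert (by simp [hxy, hxz]), sum_insert (by simp [hyz]), sum_singleton]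
    omega
  have ms : ∀ v, v ∈ [a, b, c] ↔ v ∈ S := fun v => by rw [hSe]; simp
  have mr : ∀ v, v ∈ [x, y, z] ↔ v ∈ R := fun v => by rw [hRe]; simp
  have hpS : ∀ v ∈ S, 0 < α v := fun v hv => by
    have := ((hSm v).1 hv).1.1; omega
  have hpR : ∀ v ∈ R, 0 < α v := fun v hv => by
    have := ((hRm v).1 hv).1.1; omega
  rcases lt_trichotomy (∑ v ∈ S, α v) d with hw | hw | hw
  · -- the light case
    obtain ⟨w, hw1, hw2, hw3⟩ := ten_three (d := d) hd (hpS a ((ms a).1 (by simp)))
      (hpS b ((ms b).1 (by simp))) (hpS c ((ms c).1 (by simp))) (hpR x ((mr x).1 (by simp)))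
      (hpR y ((mr y).1 (by simp))) (hpR z ((mr z).1 (by simp))) (by omega) (by omega) (by
        intro hT
        apply hno
        apply closed_of_T3 (L := [a, b, c] ++ [x, y, z]) _ _ hT
        · rw [List.nodup_append]
          refine ⟨by simp [hab, hac, hbc], by simp [hxy, hxz, hyz], fun u hu v hv huv => ?_⟩
          subst huv
          have h1 := ((hSm u).1 ((ms u).1 hu)).1.2
          have h2 := ((hRm u).1 ((mr u).1 hv)).1.2
          omega
        · intro v hv
          rw [List.mem_append] at hv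
          rw [Finsupp.mem_support_iff]
          rcases hv with hv | hv
          · exact ((hSm v).1 ((ms v).1 hv)).1.1
          · exact ((hRm v).1 ((mr v).1 hv)).1.1)
    obtain ⟨u, hu, huw⟩ : ∃ u ∈ S, α u = w := by
      have : w ∈ [a, b, c].map α := hw1
      obtain ⟨u, hu, huw⟩ := List.mem_map.1 this
      exact ⟨u, (ms u).1 hu, huw⟩
    obtain ⟨v, hv, hvw⟩ : ∃ v ∈ R, α v = w := by
      have : w ∈ [x, y, z].map α := hw3
      obtain ⟨v, hv, hvw⟩ := List.mem_map.1 this
      exact ⟨v, (mr v).1 hv, hvw⟩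
    have huv : α u = α v := huw.trans hvw.symm
    have lu := (hSm u).1 hu
    have lv := (hRm v).1 hv
    have hA := sum_erase_add S (fun i => α i) hu
    have hA' := sum_erase_add R (fun i => α i) hv
    have cA : (S.erase u).card = 2 := by rw [card_erase_of_mem hu, c00]
    have cA' : (R.erase v).card = 2 := by rw [card_erase_of_mem hv, c11]
    have nup1 : u ≠ p1 := by rintro rfl; omega
    have nup2 : u ≠ p2 := by rintro rfl; omega
    have nvp2 : v ≠ p2 := by rintro rfl; omega
    have nuq2 : u ≠ q2 := by rintro rfl; omega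
    have nvq1 : v ≠ q1 := by rintro rfl; omega
    have nvq2 : v ≠ q2 := by rintro rfl; omega
    have np1S : p1 ∉ S := fun h => by
      have := ((hSm p1).1 h).2.2
      omega
    have np2S : p2 ∉ S := fun h => by
      have := ((hSm p2).1 h).2.2
      omega
    have nq1R : q1 ∉ R := fun h => by
      have := ((hRm q1).1 h).2.2
      omega
    have nq2R : q2 ∉ R := fun h => by
      have := ((hRm q2).1 h).2.2
      omega
    have sB : ∑ i ∈ ({u, p2} : Finset σ), α i = α u + α p2 := sum_pair nup2
    have sB' : ∑ i ∈ ({v, q2} : Finset σ), α i = α v + α q2 := sum_pair nvq2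
    have r0 := two_rows (T := blk α f 0) (A := S.erase u) (B := {u, p2}) (p := p1) (d := d)
      (by
        rw [disjoint_left]
        intro i hi hi'
        rw [mem_erase] at hi
        rw [mem_insert, mem_singleton] at hi'
        rcases hi' with rfl | rfl
        · exact hi.1 rfl
        · exact np2S hi.2)
      (fun h => np1S (mem_of_mem_erase h))
      (by
        rw [mem_insert, mem_singleton, not_or]
        exact ⟨nup1.symm, hp12⟩)
      (by
        ext i
        rw [mem_insert, mem_union, mem_erase, mem_insert, mem_singleton, mem_blk]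
        constructor
        · intro h
          rcases hcover i h.1 with h1 | h1 | h1 | h1
          · by_cases hiu : i = u
            · exact Or.inr (Or.inr (Or.inl hiu))
            · exact Or.inr (Or.inl ⟨hiu, h1⟩)
          · rw [hPe, mem_insert, mem_singleton] at h1
            rcases h1 with rfl | rfl
            · exact Or.inl rfl
            · exact Or.inr (Or.inr (Or.inr rfl))
          · have := ((hQm i).1 h1).1.2
            omega
          · have := ((hRm i).1 h1).1.2
            omega
        · rintro (rfl | h | rfl | rfl)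
          · exact lp1.1
          · exact ((hSm i).1 h.2).1
          · exact lu.1
          · exact lp2.1)
      sf0 (by omega) (by omega)
    have r1 := two_rows (T := blk α f 1) (A := R.erase v) (B := {v, q2}) (p := q1) (d := d)
      (by
        rw [disjoint_left]
        intro i hi hi'
        rw [mem_erase] at hi
        rw [mem_insert, mem_singleton] at hi'
        rcases hi' with rfl | rfl
        · exact hi.1 rfl
        · exact nq2R hi.2)
      (fun h => nq1R (mem_of_mem_erase h))
      (by
        rw [mem_insert, mem_singleton, not_or]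
        exact ⟨nvq1.symm, hq12⟩)
      (by
        ext i
        rw [mem_insert, mem_union, mem_erase, mem_insert, mem_singleton, mem_blk]
        constructor
        · intro h
          rcases hcover i h.1 with h1 | h1 | h1 | h1
          · have := ((hSm i).1 h1).1.2
            omega
          · have := ((hPm i).1 h1).1.2
            omega
          · rw [hQe, mem_insert, mem_singleton] at h1
            rcases h1 with rfl | rfl
            · exact Or.inl rfl
            · exact Or.inr (Or.inr (Or.inr rfl))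
          · by_cases hiu : i = v
            · exact Or.inr (Or.inr (Or.inl hiu))
            · exact Or.inr (Or.inl ⟨hiu, h1⟩)
        · rintro (rfl | h | rfl | rfl)
          · exact lq1.1
          · exact ((hRm i).1 h.2).1
          · exact lv.1
          · exact lq2.1)
      sf1 (by omega) (by omega)
    have hX0 := cfg_four hf cA (card_pair nup2) cA' (card_pair nvq2) (by omega) (by omega)
      (by omega) (by omega) r0 r1
    have st1 := step_exchange (α := α) (d := d) (p := p1) (q := q1) cA cA' (by omega) (by omega)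
      (lrow α d {u, p2} p1 ::ₘ lrow α d {v, q2} q1 ::ₘ 0)
    have st2 := step_exchange' (α := α) (d := d) (p1 := p1) (q1 := q1) huv nup2 nvp2 nuq2 nvq2
      (by omega) (by omega) 0
    have hlink := st1.linked.trans
      ((st2.linked.cons (lrow α d (R.erase v) p1)).cons (lrow α d (S.erase u) q1))
    refine eqv_of_linked hd1 le_rfl hf.ws hg.ws hX0 (hlink.cfg hX0) ?_ ?_ hlink
    · intro r hr
      simp only [Multiset.mem_cons, Multiset.notMem_zero, or_false] at hr
      rcases hr with rfl | rfl | rfl | rfl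
      · exact compat_lrow (fun i hi => ((hSm i).1 (mem_of_mem_erase hi)).1.2) lp1.1.2
      · exact compat_lrow (fun i hi => ((hRm i).1 (mem_of_mem_erase hi)).1.2) lq1.1.2
      · refine compat_lrow (fun i hi => ?_) lp1.1.2
        rw [mem_insert, mem_singleton] at hi
        rcases hi with rfl | rfl
        · exact lu.1.2
        · exact lp2.1.2
      · refine compat_lrow (fun i hi => ?_) lq1.1.2
        rw [mem_insert, mem_singleton] at hi
        rcases hi with rfl | rfl
        · exact lv.1.2
        · exact lq2.1.2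
    · intro r hr
      simp only [Multiset.mem_cons, Multiset.notMem_zero, or_false] at hr
      rcases hr with rfl | rfl | rfl | rfl
      · exact compat_lrow (fun i hi => ((hSm i).1 (mem_of_mem_erase hi)).2.2) lq1.2.2
      · exact compat_lrow (fun i hi => ((hRm i).1 (mem_of_mem_erase hi)).2.2) lp1.2.2
      · refine compat_lrow (fun i hi => ?_) lp1.2.2
        rw [mem_insert, mem_singleton] at hi
        rcases hi with rfl | rfl
        · exact lv.2.2
        · exact lp2.2.2
      · refine compat_lrow (fun i hi => ?_) lq1.2.2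
        rw [mem_insert, mem_singleton] at hi
        rcases hi with rfl | rfl
        · exact lu.2.2
        · exact lq2.2.2
  · -- a closed row
    exact absurd ⟨S, inter_subset_left.trans (hsub f 0), c00, hw⟩ hno
  · -- the heavy case
    have heavy : 3 * (d + 1) ≤ 2 * ∑ v ∈ S, α v := by
      rcases cell_dichotomy hL0 with h | h
      · obtain ⟨B, hB, hBc, -, h3, -⟩ := exists_min_sub α S 2 (by omega)
        have h4 := h B hB hBc
        rw [c00] at h3
        omega
      · have := h S subset_rfl c00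
        omega
    have hp1 : α p1 = 1 := by omega
    have hp2 : α p2 = 1 := by omega
    have hq1 : α q1 = 1 := by omega
    have hq2 : α q2 = 1 := by omega
    have m1 := eqv_swap_one (k := 4) le_rfl hd1 hf hp1 hq1
    have t1 := hf.swap (hp1.trans hq1.symm)
    have m2 := eqv_swap_one (k := 4) le_rfl hd1 t1 hp2 hq2
    have m3 := m1.trans hd1 hdeg t1.ws m2
    apply eqv_of_agree_support m3
    have npq : ∀ i j, i ∈ P → j ∈ Q → i ≠ j := by
      rintro i j hi hj rfl
      have h1 := ((hPm i).1 hi).1.2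
      have h2 := ((hQm i).1 hj).1.2
      omega
    intro i hi
    show f (Equiv.swap p1 q1 (Equiv.swap p2 q2 i)) = g i
    rcases hcover i hi with h1 | h1 | h1 | h1
    · have h2 := (hSm i).1 h1
      have k1 : i ≠ p1 := by rintro rfl; omega
      have k2 : i ≠ p2 := by rintro rfl; omega
      have k3 : i ≠ q1 := by rintro rfl; omega
      have k4 : i ≠ q2 := by rintro rfl; omega
      rw [Equiv.swap_apply_of_ne_of_ne k2 k4, Equiv.swap_apply_of_ne_of_ne k1 k3]
      omega
    · rw [hPe, mem_insert, mem_singleton] at h1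
      rcases h1 with rfl | rfl
      · rw [Equiv.swap_apply_of_ne_of_ne hp12 (npq i q2 mp1 mq2), Equiv.swap_apply_left]
        omega
      · rw [Equiv.swap_apply_left, Equiv.swap_apply_of_ne_of_ne (npq p1 q2 mp1 mq2).symm
          hq12.symm]
        omega
    · rw [hQe, mem_insert, mem_singleton] at h1
      rcases h1 with rfl | rfl
      · rw [Equiv.swap_apply_of_ne_of_ne (npq p2 i mp2 mq1).symm hq12, Equiv.swap_apply_right]
        omega
      · rw [Equiv.swap_apply_right, Equiv.swap_apply_of_ne_of_ne hp12.symm (npq p2 q1 mp2 mq1)]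
        omega
    · have h2 := (hRm i).1 h1
      have k1 : i ≠ p1 := by rintro rfl; omega
      have k2 : i ≠ p2 := by rintro rfl; omega
      have k3 : i ≠ q1 := by rintro rfl; omega
      have k4 : i ≠ q2 := by rintro rfl; omega
      rw [Equiv.swap_apply_of_ne_of_ne k2 k4, Equiv.swap_apply_of_ne_of_ne k1 k3]
      omega

end Pool.Agent.Lib.MP_e26c3f_al
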