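import Mathlib
import Pool.Agent.Lib.MP_e26c3f_al.CornerTenC
import Pool.Agent.Lib.MP_e26c3f_al.CornerElevenB

/-! The case `s = 3`, `d = 7, 8`, at most eleven variables. -/

set_option autoImplicit false
set_option linter.unusedSectionVars false

namespace Pool.Agent.Lib.MP_e26c3f_al

open Finset

variable {σ : Type*} [DecidableEq σ] {d s k : ℕ} {α : σ →₀ ℕ} {C D E : Finset σ} {f g : σ → ℕ}

/-- Ten variables, four rows, no closed row. -/
lemma eqv_no_closed (hd : d = 7 ∨ d = 8) (hc : α.support.card = 10) (hf : TS d 2 α {0, 1} f)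
    (hg : TS d 2 α {0, 1} g) (hdeg : α.degree = 4 * d) (hno : ¬ ∃ C, Closed α d 3 C)
    (H : ∀ k' < 4, ∀ β : σ →₀ ℕ, β.support.card ≤ α.support.card → Conn d 3 k' β) :
    Eqv d 2 4 α f g := by
  have hd1 : 1 ≤ d := by omega
  have hsub : ∀ (f : σ → ℕ) i, blk α f i ⊆ α.support := fun f i => filter_subset _ _
  have five : ∀ f : σ → ℕ, TS d 2 α {0, 1} f → ((blk α f 0).card = 5 ∧
      ∑ v ∈ blk α f 0, α v = 2 * d) ∧ ((blk α f 1).card = 5 ∧ ∑ v ∈ blk α f 1, α v = 2 * d) := by
    intro f hf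
    obtain ⟨k0, p0, c0, s0⟩ := hf.bk 0 (by simp)
    obtain ⟨k1, p1, c1, s1⟩ := hf.bk 1 (by simp)
    have hck := cell_card hf (Subset.refl α.support)
    rw [inter_eq_right.2 (hsub f 0), inter_eq_right.2 (hsub f 1), c0, c1, hc] at hck
    have n0 : k0 ≠ 1 := by
      rintro rfl
      exact hno ⟨_, hsub f 0, c0, by rw [s0, one_mul]⟩
    have n1 : k1 ≠ 1 := by
      rintro rfl
      exact hno ⟨_, hsub f 1, c1, by rw [s1, one_mul]⟩
    have e0 : k0 = 2 := by omega
    have e1 : k1 = 2 := by omega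
    subst e0; subst e1
    exact ⟨⟨c0, s0⟩, ⟨c1, s1⟩⟩
  have claim : ∀ g : σ → ℕ, TS d 2 α {0, 1} g → 3 ≤ (blk α f 0 ∩ blk α g 0).card →
      Eqv d 2 4 α f g := by
    intro g hg h3
    obtain ⟨⟨f1, f2⟩, f3, f4⟩ := five f hf
    obtain ⟨⟨g1, g2⟩, g3, g4⟩ := five g hg
    have a1 := cell_card hg (hsub f 0)
    have a2 := cell_card hg (hsub f 1)
    have a3 := cell_card hf (hsub g 0)
    rw [f1] at a1
    rw [f3] at a2
    rw [g1, inter_comm, inter_comm (blk α g 0)] at a3
    have hcase : (blk α f 0 ∩ blk α g 0).card = 3 ∨ (blk α f 0 ∩ blk α g 0).card = 4 ∨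
        (blk α f 0 ∩ blk α g 0).card = 5 := by omega
    rcases hcase with h | h | h
    · exact eqv_case_three hd hf hg hdeg hno H h (by omega) (by omega) (by omega) f2 f4 g2
    · exact eqv_case_four hd hf hg hdeg hno H h (by omega) (by omega) (by omega) f2 f4 g2
    · have e1 : blk α f 0 ∩ blk α g 0 = blk α f 0 :=
        eq_of_subset_of_card_le inter_subset_left (by omega)
      have e2 : blk α f 0 ∩ blk α g 0 = blk α g 0 :=
        eq_of_subset_of_card_le inter_subset_right (by omega)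
      have e3 : blk α f 0 = blk α g 0 := e1.symm.trans e2
      apply eqv_of_agree_support (eqv_refl le_rfl hd1 hf.ws)
      intro v hv
      have h1 := hf.mem v (Finsupp.mem_support_iff.2 hv)
      have h2 := hg.mem v (Finsupp.mem_support_iff.2 hv)
      rw [mem_insert, mem_singleton] at h1 h2
      have h4 : v ∈ blk α f 0 ↔ v ∈ blk α g 0 := by rw [e3]
      rw [mem_blk, mem_blk] at h4
      rcases h1 with h1 | h1
      · rw [h1]; exact (h4.1 ⟨hv, h1⟩).2.symm
      · rcases h2 with h2 | h2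
        · have := (h4.2 ⟨hv, h2⟩).2
          omega
        · omega
  by_cases h3 : 3 ≤ (blk α f 0 ∩ blk α g 0).card
  · exact claim g hg h3
  · have hb1 : blk α (Equiv.swap 0 1 ∘ g) 0 = blk α g 1 := by
      ext v
      rw [mem_blk, mem_blk, Function.comp]
      constructor
      · rintro ⟨h1, h2⟩
        refine ⟨h1, ?_⟩
        have := congrArg (Equiv.swap 0 1) h2
        rwa [Equiv.swap_apply_self, Equiv.swap_apply_left] at this
      · rintro ⟨h1, h2⟩
        exact ⟨h1, by rw [h2, Equiv.swap_apply_right]⟩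
    have hb2 : blk α (Equiv.swap 0 1 ∘ g) 1 = blk α g 0 := by
      ext v
      rw [mem_blk, mem_blk, Function.comp]
      constructor
      · rintro ⟨h1, h2⟩
        refine ⟨h1, ?_⟩
        have := congrArg (Equiv.swap 0 1) h2
        rwa [Equiv.swap_apply_self, Equiv.swap_apply_right] at this
      · rintro ⟨h1, h2⟩
        exact ⟨h1, by rw [h2, Equiv.swap_apply_left]⟩
    have hg' : TS d 2 α {0, 1} (Equiv.swap 0 1 ∘ g) := by
      refine ⟨?_, ?_⟩
      · intro v hv
        have h1 := hg.mem v hv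
        rw [mem_insert, mem_singleton] at h1 ⊢
        rw [Function.comp]
        rcases h1 with h1 | h1
        · right; rw [h1, Equiv.swap_apply_left]
        · left; rw [h1, Equiv.swap_apply_right]
      · intro l hl
        rw [mem_insert, mem_singleton] at hl
        rcases hl with rfl | rfl
        · rw [hb1]; exact hg.bk 1 (by simp)
        · rw [hb2]; exact hg.bk 0 (by simp)
    have a1 := cell_card hg (hsub f 0)
    rw [(five f hf).1.1] at a1
    have h1 := claim _ hg' (by rw [hb1]; omega)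
    intro X Y hX hY hfX hgY
    exact h1 X Y hX hY hfX (hgY.comp _)

/-- Ten variables, four rows. -/
theorem conn_ten (hd : d = 7 ∨ d = 8) (hc : α.support.card = 10)
    (H : ∀ k' < 4, ∀ β : σ →₀ ℕ, β.support.card ≤ α.support.card → Conn d 3 k' β) :
    Conn d 3 4 α := by
  intro X Y hX hY
  have hd1 : 1 ≤ d := by omega
  have hdeg := hX.degree
  have hts : ∀ X, Cfg d 3 4 α X → ∃ f, TS d 2 α {0, 1} f ∧ Compat f X := by
    intro X hX
    exact exists_ts (t := 2) hd1 hX {0, 1} (by simp) (by rw [hc]; rfl)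
  obtain ⟨f, hf, hfX⟩ := hts X hX
  obtain ⟨g, hg, hgY⟩ := hts Y hY
  by_cases hcl : ∃ C, Closed α d 3 C
  · obtain ⟨C, hC⟩ := hcl
    have h1 := eqv_fcl (by omega) (by omega) hC hc hdeg hf H
    have h2 := eqv_fcl (by omega) (by omega) hC hc hdeg hg H
    exact (h1.trans hd1 hdeg (ts_fcl hC hc hdeg).ws h2.symm) X Y hX hY hfX hgY
  · exact eqv_no_closed hd hc hf hg hdeg hcl H X Y hX hY hfX hgY

/-- `s = 3`, `d = 7, 8`, at most eleven variables. -/
theorem conn_corner {n : ℕ} (hd : d = 7 ∨ d = 8) (hn : n ≤ 11) (k : ℕ) (α : Fin n →₀ ℕ) :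
    Conn d 3 k α := by
  classical
  apply conn_of_mapDomain (f := Fin.val) Fin.val_injective
  have h1 := (card_support_mapDomain_le α).trans hn
  set β := α.mapDomain Fin.val
  intro X Y hX hY
  have hle := hX.card_support_le
  rcases Nat.lt_or_ge k 4 with hk | hk
  · exact conn_le_three (by omega) (by omega) β X Y hX hY
  rcases Nat.lt_or_ge β.support.card (k * 2 + 2) with h2 | h2
  · exact conn_of_card_support_le (t := 2) le_rfl d k β (by omega) X Y hX hY
  have hk4 : k = 4 := by omega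
  subst hk4
  have H : ∀ β : ℕ →₀ ℕ, Conn d 3 3 β := fun β => conn_le_three (by omega) le_rfl β
  rcases Nat.lt_or_ge β.support.card 11 with h3 | h3
  · exact conn_ten hd (by omega) (fun k' hk' β _ => conn_le_three (by omega) (by omega) β)
      X Y hX hY
  · exact conn_eleven hd H (by omega) X Y hX hY

end Pool.Agent.Lib.MP_e26c3f_al
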