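import Mathlib
import Pool.Agent.Lib.MP_e26c3f_al.Basic

/-! Unit exchanges: the Veronese case and the case `d = s + 1`. -/

set_option autoImplicit false
set_option linter.unusedSectionVars false

namespace Pool.Agent.Lib.MP_e26c3f_al

variable {σ : Type*} [DecidableEq σ] {d s : ℕ}

/-- The row attached to a base and a rest. -/
noncomputable def br (p : (σ →₀ ℕ) × (σ →₀ ℕ)) : σ →₀ ℕ := p.1 + p.2

lemma exists_lt_of_degree_eq {r r' : σ →₀ ℕ} (h : r.degree = r'.degree) (hne : r ≠ r') :
    (∃ i, r' i < r i) ∧ ∃ l, r l < r' l := by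
  have key : ∀ a b : σ →₀ ℕ, a.degree = b.degree → a ≠ b → ∃ i, b i < a i := by
    intro a b hab hne
    by_contra hcon
    push Not at hcon
    obtain ⟨c, hc⟩ := exists_add_of_le (show a ≤ b from hcon)
    have h1 : b.degree = a.degree + c.degree := by rw [← map_add, ← hc]
    have h2 : c.degree = 0 := by omega
    rw [Finsupp.degree_eq_zero_iff] at h2
    rw [h2, add_zero] at hc
    exact hne hc.symm
  exact ⟨key r r' h hne, key r' r h.symm hne.symm⟩

lemma exists_mem_sum_ne_zero {L : Multiset ((σ →₀ ℕ) × (σ →₀ ℕ))} {l : σ}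
    (h : (L.map Prod.snd).sum l ≠ 0) : ∃ p ∈ L, p.2 l ≠ 0 := by
  induction L using Multiset.induction_on with
  | empty => simp at h
  | cons p L ih =>
    rw [Multiset.map_cons, Multiset.sum_cons, Finsupp.add_apply] at h
    by_cases hp : p.2 l = 0
    · obtain ⟨q, hq, hq'⟩ := ih (by omega)
      exact ⟨q, Multiset.mem_cons_of_mem hq, hq'⟩
    · exact ⟨p, Multiset.mem_cons_self _ _, hp⟩

/-- Moving the first rest to a prescribed one. -/
lemma vero_first (m : ℕ) (b r' : σ →₀ ℕ) (hr' : r'.degree = m)
    (hb : ∀ r : σ →₀ ℕ, r.degree = m → IsRow d s (b + r)) :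
    ∀ (n : ℕ) (r : σ →₀ ℕ) (N : Multiset ((σ →₀ ℕ) × (σ →₀ ℕ))), (r - r').degree = n →
      r.degree = m → (∀ p ∈ N, p.2.degree = m) →
      (∀ p ∈ N, ∀ r : σ →₀ ℕ, r.degree = m → IsRow d s (p.1 + r)) →
      r' ≤ r + (N.map Prod.snd).sum →
      ∃ N'' : Multiset ((σ →₀ ℕ) × (σ →₀ ℕ)), N''.map Prod.fst = N.map Prod.fst ∧
        (∀ p ∈ N'', p.2.degree = m) ∧
        r' + (N''.map Prod.snd).sum = r + (N.map Prod.snd).sum ∧
        Linked d s ((b + r) ::ₘ N.map br) ((b + r') ::ₘ N''.map br) := by
  intro n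
  induction n with
  | zero =>
    intro r N hn hr hN hN2 hle
    have : r = r' := by
      by_contra hne
      obtain ⟨⟨i, hi⟩, -⟩ := exists_lt_of_degree_eq (hr.trans hr'.symm) hne
      rw [Finsupp.degree_eq_zero_iff] at hn
      have := DFunLike.congr_fun hn i
      rw [Finsupp.tsub_apply, Finsupp.coe_zero, Pi.zero_apply] at this
      omega
    subst this
    exact ⟨N, rfl, hN, rfl, Linked.refl _⟩
  | succ n ih =>
    intro r N hn hr hN hN2 hle
    have hne : r ≠ r' := by
      rintro rfl
      simp at hn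
    obtain ⟨⟨i, hi⟩, l, hl⟩ := exists_lt_of_degree_eq (hr.trans hr'.symm) hne
    have hil : i ≠ l := by rintro rfl; omega
    have h1 : (N.map Prod.snd).sum l ≠ 0 := by
      have := hle l
      rw [Finsupp.add_apply] at this
      omega
    obtain ⟨p, hp, hpl⟩ := exists_mem_sum_ne_zero h1
    obtain ⟨N0, rfl⟩ := Multiset.exists_cons_of_mem hp
    obtain ⟨a, ha⟩ : ∃ a, r = Finsupp.single i 1 + a := by
      apply exists_add_of_le
      rw [Finsupp.single_le_iff]; omega
    obtain ⟨c, hc⟩ : ∃ c, p.2 = Finsupp.single l 1 + c := by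
      apply exists_add_of_le
      rw [Finsupp.single_le_iff]; omega
    have hp2 := hN p hp
    have hdr : (Finsupp.single l 1 + a).degree = m := by
      rw [← hr, ha, map_add, map_add, Finsupp.degree_single, Finsupp.degree_single]
    have hdp : (Finsupp.single i 1 + c).degree = m := by
      rw [← hp2, hc, map_add, map_add, Finsupp.degree_single, Finsupp.degree_single]
    have hsumeq : (Finsupp.single l 1 + a) +
        (((p.1, Finsupp.single i 1 + c) ::ₘ N0).map Prod.snd).sum =
        r + ((p ::ₘ N0).map Prod.snd).sum := by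
      rw [Multiset.map_cons, Multiset.map_cons, Multiset.sum_cons, Multiset.sum_cons, ha, hc]
      dsimp only
      abel
    have hdeg : (Finsupp.single l 1 + a - r').degree = n := by
      have h2 : r - r' = Finsupp.single i 1 + (Finsupp.single l 1 + a - r') := by
        ext x
        rw [ha]
        simp only [Finsupp.tsub_apply, Finsupp.add_apply, Finsupp.single_apply]
        rw [ha] at hi hl
        simp only [Finsupp.add_apply, Finsupp.single_apply] at hi hl
        by_cases hxi : i = x
        · subst hxi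
          simp only [if_true, hil.symm, if_false] at hi ⊢
          omega
        · by_cases hxl : l = x
          · subst hxl
            simp only [if_true, hil, if_false] at hl ⊢
            omega
          · simp [hxi, hxl]
      rw [h2, map_add, Finsupp.degree_single] at hn
      omega
    obtain ⟨N'', hN''1, hN''2, hN''3, hN''4⟩ := ih (Finsupp.single l 1 + a)
      ((p.1, Finsupp.single i 1 + c) ::ₘ N0) hdeg hdr
      (by
        intro q hq
        rcases Multiset.mem_cons.1 hq with rfl | hq
        · exact hdp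
        · exact hN q (Multiset.mem_cons_of_mem hq))
      (by
        intro q hq
        rcases Multiset.mem_cons.1 hq with rfl | hq
        · exact hN2 p hp
        · exact hN2 q (Multiset.mem_cons_of_mem hq))
      (by rw [hsumeq]; exact hle)
    refine ⟨N'', ?_, hN''2, by rw [hN''3, hsumeq], ?_⟩
    · rw [hN''1, Multiset.map_cons, Multiset.map_cons]
    · refine (Step.linked ?_).trans hN''4
      rw [Multiset.map_cons, Multiset.map_cons]
      refine ⟨_, _, _, _, _, rfl, rfl, ?_, hb _ hr, hN2 p hp _ hp2, hb _ hdr, hN2 p hp _ hdp⟩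
      rw [br, br, ha, hc]
      simp only
      abel

/-- Lemma V: unit exchanges connect all configurations with the same bases. -/
lemma vero (m : ℕ) : ∀ (n : ℕ) (L L' : Multiset ((σ →₀ ℕ) × (σ →₀ ℕ))), L.card = n →
    L.map Prod.fst = L'.map Prod.fst → (∀ p ∈ L, p.2.degree = m) → (∀ p ∈ L', p.2.degree = m) →
    (∀ p ∈ L, ∀ r : σ →₀ ℕ, r.degree = m → IsRow d s (p.1 + r)) →
    (L.map Prod.snd).sum = (L'.map Prod.snd).sum → Linked d s (L.map br) (L'.map br) := by
  intro n
  induction n with
  | zero =>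
    intro L L' hn h _ _ _ _
    rw [Multiset.card_eq_zero] at hn
    subst hn
    have : L' = 0 := by
      rw [Multiset.map_zero] at h
      exact Multiset.map_eq_zero.1 h.symm
    rw [this]
    exact Linked.refl _
  | succ n ih =>
    intro L L' hn h1 h2 h3 h4 h5
    obtain ⟨p, hpL⟩ := Multiset.card_pos_iff_exists_mem.1 (by omega : 0 < L.card)
    obtain ⟨L, rfl⟩ := Multiset.exists_cons_of_mem hpL
    have hp : p.1 ∈ L'.map Prod.fst := by rw [← h1]; simp
    obtain ⟨q, hq, hqp⟩ := Multiset.mem_map.1 hp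
    obtain ⟨L0, rfl⟩ := Multiset.exists_cons_of_mem hq
    obtain ⟨N'', hN1, hN2, hN3, hN4⟩ := vero_first (d := d) (s := s) m p.1 q.2
      (h3 q (by simp)) (h4 p (by simp)) _ p.2 L rfl (h2 p (by simp))
      (fun x hx => h2 x (by simp [hx])) (fun x hx => h4 x (by simp [hx]))
      (by
        rw [Multiset.map_cons, Multiset.map_cons, Multiset.sum_cons, Multiset.sum_cons] at h5
        rw [h5]
        exact le_self_add)
    rw [Multiset.map_cons, Multiset.map_cons]
    refine Linked.trans (Y := (p.1 + q.2) ::ₘ N''.map br) hN4 ?_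
    have hbr : br q = p.1 + q.2 := by rw [br, hqp]
    rw [hbr]
    have hfst : L.map Prod.fst = L0.map Prod.fst := by
      rw [Multiset.map_cons, Multiset.map_cons, hqp] at h1
      exact (Multiset.cons_inj_right _).1 h1
    apply Linked.cons
    rw [Multiset.card_cons] at hn
    apply ih N'' L0
    · have := congrArg Multiset.card hN1
      rw [Multiset.card_map, Multiset.card_map] at this
      omega
    · rw [hN1, hfst]
    · exact hN2
    · exact fun x hx => h3 x (by simp [hx])
    · intro x hx r hr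
      have : x.1 ∈ L.map Prod.fst := by
        rw [← hN1]; exact Multiset.mem_map_of_mem _ hx
      obtain ⟨y, hy, hyx⟩ := Multiset.mem_map.1 this
      rw [← hyx]
      exact h4 y (by simp [hy]) r hr
    · rw [Multiset.map_cons, Multiset.map_cons, Multiset.sum_cons, Multiset.sum_cons, ← hN3] at h5
      exact add_left_cancel h5

/-- Theorem T0: the Veronese case. -/
theorem conn_vero {k : ℕ} {α : σ →₀ ℕ}
    (h : ∀ r : σ →₀ ℕ, r.degree = d → r.support.card ≤ s) : Conn d s k α := by
  intro X Y hX hY
  have h1 : ∀ Z : Multiset (σ →₀ ℕ), (Z.map fun u => ((0 : σ →₀ ℕ), u)).map br = Z := by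
    intro Z
    rw [Multiset.map_map]
    conv_rhs => rw [← Multiset.map_id Z]
    apply Multiset.map_congr rfl
    intro u _
    simp [br]
  have h2 : ∀ Z : Multiset (σ →₀ ℕ), ((Z.map fun u => ((0 : σ →₀ ℕ), u)).map Prod.snd) = Z := by
    intro Z
    rw [Multiset.map_map]
    conv_rhs => rw [← Multiset.map_id Z]
    apply Multiset.map_congr rfl
    intro u _
    rfl
  have h3 : ∀ Z : Multiset (σ →₀ ℕ), ((Z.map fun u => ((0 : σ →₀ ℕ), u)).map Prod.fst) =
      Multiset.replicate Z.card 0 := by
    intro Z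
    rw [Multiset.map_map]
    rw [← Multiset.map_const' Z (0 : σ →₀ ℕ)]
    rfl
  have := vero (d := d) (s := s) d _ (X.map fun u => ((0 : σ →₀ ℕ), u))
    (Y.map fun u => ((0 : σ →₀ ℕ), u)) rfl (by rw [h3, h3, hX.card, hY.card])
    (by
      intro p hp
      obtain ⟨u, hu, rfl⟩ := Multiset.mem_map.1 hp
      exact (hX.row u hu).1)
    (by
      intro p hp
      obtain ⟨u, hu, rfl⟩ := Multiset.mem_map.1 hp
      exact (hY.row u hu).1)
    (by
      intro p hp r hr
      obtain ⟨u, hu, rfl⟩ := Multiset.mem_map.1 hp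
      dsimp only
      rw [zero_add]
      exact ⟨hr, h r hr⟩)
    (by rw [h2, h2, hX.sum, hY.sum])
  rwa [h1, h1] at this

/-- Distributing rests. -/
lemma distribute (m : ℕ) : ∀ (B : Multiset (σ →₀ ℕ)) (β : σ →₀ ℕ), β.degree = B.card * m →
    ∃ L : Multiset ((σ →₀ ℕ) × (σ →₀ ℕ)), L.map Prod.fst = B ∧ (∀ p ∈ L, p.2.degree = m) ∧
      (L.map Prod.snd).sum = β := by
  intro B
  induction B using Multiset.induction_on with
  | empty =>
    intro β h
    rw [Multiset.card_zero, zero_mul, Finsupp.degree_eq_zero_iff] at h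
    exact ⟨0, rfl, by simp, by simp [h]⟩
  | cons b B ih =>
    intro β h
    obtain ⟨g, hg, hgd⟩ := Finsupp.exists_le_degree_eq β m (by
      rw [h, Multiset.card_cons]; nlinarith)
    obtain ⟨γ, hγ⟩ := exists_add_of_le hg
    obtain ⟨L, hL1, hL2, hL3⟩ := ih γ (by
      have h9 : β.degree = g.degree + γ.degree := by rw [← map_add, ← hγ]
      rw [h, hgd, Multiset.card_cons] at h9
      linarith)
    refine ⟨(b, g) ::ₘ L, by simp [hL1], ?_, by simp [hL3, hγ]⟩
    intro p hp
    rcases Multiset.mem_cons.1 hp with rfl | hp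
    · exact hgd
    · exact hL2 p hp

end Pool.Agent.Lib.MP_e26c3f_al
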