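import Mathlib
import Pool.Agent.Lib.MP_e26c3f_al.Vero

/-! The case `d = s + 1` (theorem T4). -/

set_option autoImplicit false
set_option linter.unusedSectionVars false

namespace Pool.Agent.Lib.MP_e26c3f_al

variable {σ : Type*} [DecidableEq σ]

/-- A square. -/
noncomputable def dbl (x : σ) : σ →₀ ℕ := Finsupp.single x 2

lemma isRow_dbl {e : ℕ} (x : σ) (r : σ →₀ ℕ) (hr : r.degree = e) :
    IsRow (e + 2) (e + 1) (dbl x + r) := by
  refine ⟨?_, ?_⟩
  · rw [map_add, hr, dbl, Finsupp.degree_single]; ring
  · have h1 : (dbl x + r).support ⊆ insert x r.support := by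
      intro y hy
      rw [Finsupp.mem_support_iff, Finsupp.add_apply, dbl, Finsupp.single_apply] at hy
      rw [Finset.mem_insert, Finsupp.mem_support_iff]
      by_cases hxy : x = y
      · exact Or.inl hxy.symm
      · rw [if_neg hxy, zero_add] at hy
        exact Or.inr hy
    refine (Finset.card_le_card h1).trans ((Finset.card_insert_le _ _).trans ?_)
    have h2 : r.support.card ≤ r.degree := by
      rw [Finsupp.degree_apply, Finset.card_eq_sum_ones]
      apply Finset.sum_le_sum
      intro i hi
      rw [Finsupp.mem_support_iff] at hi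
      omega
    omega

lemma exists_dbl {e : ℕ} {u : σ →₀ ℕ} (hu : IsRow (e + 2) (e + 1) u) :
    ∃ x r, u = dbl x + r ∧ r.degree = e := by
  obtain ⟨x, hx⟩ : ∃ x, 2 ≤ u x := by
    by_contra hcon
    push Not at hcon
    have h1 : u.degree ≤ u.support.card * 1 := by
      rw [Finsupp.degree_apply]
      exact Finset.sum_le_card_nsmul _ _ _ fun i _ => by have := hcon i; omega
    have h2 := hu.1
    have h3 := hu.2
    omega
  obtain ⟨r, hr⟩ : ∃ r, u = dbl x + r := by
    apply exists_add_of_le
    rw [dbl, Finsupp.single_le_iff]; exact hx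
  refine ⟨x, r, hr, ?_⟩
  have h9 : u.degree = (dbl x).degree + r.degree := by rw [← map_add, ← hr]
  rw [hu.1, dbl, Finsupp.degree_single] at h9
  omega

lemma exists_doubles {e : ℕ} (X : Multiset (σ →₀ ℕ)) :
    (∀ u ∈ X, IsRow (e + 2) (e + 1) u) →
    ∃ (D : Multiset σ) (L : Multiset ((σ →₀ ℕ) × (σ →₀ ℕ))), L.map Prod.fst = D.map dbl ∧
      (∀ p ∈ L, p.2.degree = e) ∧ L.map br = X := by
  induction X using Multiset.induction_on with
  | empty => intro _; exact ⟨0, 0, rfl, by simp, rfl⟩
  | cons u X ih =>
    intro hX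
    obtain ⟨D, L, h1, h2, h3⟩ := ih fun v hv => hX v (by simp [hv])
    obtain ⟨x, r, hr, hrd⟩ := exists_dbl (hX u (by simp))
    refine ⟨x ::ₘ D, (dbl x, r) ::ₘ L, by simp [h1], ?_, by rw [Multiset.map_cons, h3, br, hr]⟩
    intro p hp
    rcases Multiset.mem_cons.1 hp with rfl | hp
    · exact hrd
    · exact h2 p hp

lemma sum_map_br (L : Multiset ((σ →₀ ℕ) × (σ →₀ ℕ))) :
    (L.map br).sum = (L.map Prod.fst).sum + (L.map Prod.snd).sum := by
  rw [← Multiset.sum_map_add]
  rfl

lemma sum_map_dbl (D : Multiset σ) (x : σ) : (D.map dbl).sum x = 2 * D.count x := by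
  induction D using Multiset.induction_on with
  | empty => simp
  | cons y D ih =>
    rw [Multiset.map_cons, Multiset.sum_cons, Finsupp.add_apply, ih, dbl, Finsupp.single_apply,
      Multiset.count_cons]
    by_cases h : y = x
    · simp [h]; ring
    · simp [h, Ne.symm h]

lemma isRow_of_mem_fst {e : ℕ} {D : Multiset σ} {L : Multiset ((σ →₀ ℕ) × (σ →₀ ℕ))}
    (h : L.map Prod.fst = D.map dbl) : ∀ p ∈ L, ∀ r : σ →₀ ℕ, r.degree = e →
      IsRow (e + 2) (e + 1) (p.1 + r) := by
  intro p hp r hr
  have : p.1 ∈ D.map dbl := by rw [← h]; exact Multiset.mem_map_of_mem _ hp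
  obtain ⟨x, -, hx⟩ := Multiset.mem_map.1 this
  rw [← hx]
  exact isRow_dbl x r hr

lemma cfg_map_br {e : ℕ} {D : Multiset σ} {L : Multiset ((σ →₀ ℕ) × (σ →₀ ℕ))}
    (h : L.map Prod.fst = D.map dbl) (h' : ∀ p ∈ L, p.2.degree = e) :
    Cfg (e + 2) (e + 1) D.card (L.map br).sum (L.map br) := by
  refine ⟨?_, ?_, rfl⟩
  · intro u hu
    obtain ⟨p, hp, rfl⟩ := Multiset.mem_map.1 hu
    exact isRow_of_mem_fst h p hp _ (h' p hp)
  · have := congrArg Multiset.card h
    rw [Multiset.card_map, Multiset.card_map] at this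
    rw [Multiset.card_map, this]

lemma double_conn {e : ℕ} (he : 1 ≤ e) : ∀ (n : ℕ) (D D' : Multiset σ)
    (L L' : Multiset ((σ →₀ ℕ) × (σ →₀ ℕ))), (D - D').card = n → D.card = D'.card →
    L.map Prod.fst = D.map dbl → L'.map Prod.fst = D'.map dbl →
    (∀ p ∈ L, p.2.degree = e) → (∀ p ∈ L', p.2.degree = e) →
    (L.map br).sum = (L'.map br).sum → Linked (e + 2) (e + 1) (L.map br) (L'.map br) := by
  intro n
  induction n with
  | zero =>
    intro D D' L L' hn hc h1 h2 h3 h4 h5
    have hle : D ≤ D' := by
      rw [Multiset.card_eq_zero] at hn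
      exact tsub_eq_zero_iff_le.1 hn
    have hDD : D = D' := Multiset.eq_of_le_of_card_le hle hc.ge
    subst hDD
    apply vero (d := e + 2) (s := e + 1) e _ L L' rfl (h1.trans h2.symm) h3 h4
      (isRow_of_mem_fst h1)
    rw [sum_map_br, sum_map_br, h1, h2] at h5
    exact add_left_cancel h5
  | succ n ih =>
    intro D D' L L' hn hc h1 h2 h3 h4 h5
    have hcfg := cfg_map_br h1 h3
    have hcfg' := cfg_map_br h2 h4
    rw [← hc, ← h5] at hcfg'
    obtain ⟨i, hi⟩ : ∃ i, i ∈ D - D' := Multiset.card_pos_iff_exists_mem.1 (by omega)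
    have hD'D : D' - D ≠ 0 := by
      intro h
      have hle : D' ≤ D := tsub_eq_zero_iff_le.1 h
      have := Multiset.eq_of_le_of_card_le hle hc.le
      subst this
      simp at hn
    obtain ⟨j, hj⟩ := Multiset.exists_mem_of_ne_zero hD'D
    rw [← Multiset.count_pos, Multiset.count_sub] at hi hj
    have hij : i ≠ j := by rintro rfl; omega
    have hiD : i ∈ D := by rw [← Multiset.count_pos]; omega
    obtain ⟨D1, rfl⟩ := Multiset.exists_cons_of_mem hiD
    rcases Multiset.empty_or_exists_mem D1 with rfl | ⟨l, hl⟩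
    · exact conn_one _ _ hcfg hcfg'
    obtain ⟨D2, rfl⟩ := Multiset.exists_cons_of_mem hl
    -- leftover units
    have hleft : (L.map Prod.fst).sum + (L.map Prod.snd).sum =
        (L'.map Prod.fst).sum + (L'.map Prod.snd).sum := by
      rw [← sum_map_br, ← sum_map_br, h5]
    have hj2 : 2 ≤ (L.map Prod.snd).sum j := by
      have h6 := DFunLike.congr_fun hleft j
      rw [Finsupp.add_apply, Finsupp.add_apply, h1, h2, sum_map_dbl, sum_map_dbl] at h6
      omega
    have hβdeg : (L.map Prod.snd).sum.degree = (D2.card + 2) * e := by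
      have h6 := hcfg.degree
      have h7 : (((i ::ₘ l ::ₘ D2).map dbl).sum).degree = (D2.card + 2) * 2 := by
        have h8 : ∀ E : Multiset σ, ((E.map dbl).sum).degree = E.card * 2 := by
          intro E
          induction E using Multiset.induction_on with
          | empty => simp
          | cons y E ih =>
            rw [Multiset.map_cons, Multiset.sum_cons, map_add, ih, dbl, Finsupp.degree_single,
              Multiset.card_cons]
            ring
        rw [h8]; simp
      rw [sum_map_br, map_add, h1, h7] at h6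
      simp only [Multiset.card_cons] at h6
      nlinarith
    obtain ⟨β1, hβ1⟩ : ∃ β1, (L.map Prod.snd).sum = Finsupp.single j 2 + β1 := by
      apply exists_add_of_le
      rw [Finsupp.single_le_iff]; exact hj2
    have hβ1deg : β1.degree + 2 = (D2.card + 2) * e := by
      rw [← hβdeg, hβ1, map_add, Finsupp.degree_single]; ring
    have hexp : (D2.card + 2) * e = D2.card * e + 2 * e := by ring
    obtain ⟨a, ha, had⟩ := Finsupp.exists_le_degree_eq β1 (e - 1) (by omega)
    obtain ⟨β2, hβ2⟩ := exists_add_of_le ha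
    have hβ2deg : β2.degree + (e - 1) = β1.degree := by
      rw [← had, add_comm, ← map_add, ← hβ2]
    obtain ⟨c, hc', hcd⟩ := Finsupp.exists_le_degree_eq β2 (e - 1) (by omega)
    obtain ⟨β3, hβ3⟩ := exists_add_of_le hc'
    have hβ3deg : β3.degree + (e - 1) = β2.degree := by
      rw [← hcd, add_comm, ← map_add, ← hβ3]
    obtain ⟨L3, hL31, hL32, hL33⟩ := distribute e (D2.map dbl) β3 (by
      rw [Multiset.card_map]; omega)
    have hsplit : (L.map Prod.snd).sum = (Finsupp.single j 1 + a) +
        ((Finsupp.single j 1 + c) + β3) := by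
      have : (Finsupp.single j 2 : σ →₀ ℕ) = Finsupp.single j 1 + Finsupp.single j 1 := by
        rw [← Finsupp.single_add]
      rw [hβ1, hβ2, hβ3, this]
      abel
    have dA : ∀ x : σ, (Finsupp.single x 1 + a).degree = e := fun x => by
      rw [map_add, Finsupp.degree_single, had]; omega
    have dC : ∀ x : σ, (Finsupp.single x 1 + c).degree = e := fun x => by
      rw [map_add, Finsupp.degree_single, hcd]; omega
    -- first rearrangement
    have hlink1 : Linked (e + 2) (e + 1) (L.map br)
        (((dbl i, Finsupp.single j 1 + a) ::ₘ (dbl l, Finsupp.single j 1 + c) ::ₘ L3).map br) := by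
      apply vero (d := e + 2) (s := e + 1) e _ L _ rfl _ h3 _ (isRow_of_mem_fst h1)
      · simp only [Multiset.map_cons, Multiset.sum_cons]
        rw [hsplit, hL33]
      · rw [h1]
        simp only [Multiset.map_cons]
        rw [hL31]
      · intro p hp
        rcases Multiset.mem_cons.1 hp with rfl | hp
        · exact dA j
        rcases Multiset.mem_cons.1 hp with rfl | hp
        · exact dC j
        exact hL32 p hp
    have hstep : Step (e + 2) (e + 1)
        (((dbl i, Finsupp.single j 1 + a) ::ₘ (dbl l, Finsupp.single j 1 + c) ::ₘ L3).map br)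
        (((dbl j, Finsupp.single i 1 + a) ::ₘ (dbl l, Finsupp.single i 1 + c) ::ₘ L3).map br) := by
      simp only [Multiset.map_cons]
      refine ⟨_, _, _, _, _, rfl, rfl, ?_, isRow_dbl i _ (dA j), isRow_dbl l _ (dC j),
        isRow_dbl j _ (dA i), isRow_dbl l _ (dC i)⟩
      simp only [br, dbl]
      have e1 : (Finsupp.single j 2 : σ →₀ ℕ) = Finsupp.single j 1 + Finsupp.single j 1 := by
        rw [← Finsupp.single_add]
      have e2 : (Finsupp.single i 2 : σ →₀ ℕ) = Finsupp.single i 1 + Finsupp.single i 1 := by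
        rw [← Finsupp.single_add]
      rw [e1, e2]
      abel
    refine hlink1.trans (hstep.linked.trans ?_)
    apply ih (j ::ₘ l ::ₘ D2) D'
    · have h6 : (i ::ₘ l ::ₘ D2) - D' = i ::ₘ ((j ::ₘ l ::ₘ D2) - D') := by
        ext x
        rw [Multiset.count_sub, Multiset.count_cons x i (l ::ₘ D2), Multiset.count_cons x i (_ - _),
          Multiset.count_sub, Multiset.count_cons x j (l ::ₘ D2)]
        rw [Multiset.count_cons i i] at hi
        rw [Multiset.count_cons j i] at hj
        by_cases hxi : x = i
        · subst hxi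
          rw [if_pos rfl, if_neg hij]
          rw [if_pos rfl] at hi
          omega
        · by_cases hxj : x = j
          · subst hxj
            rw [if_neg hxi, if_pos rfl]
            rw [if_neg hxi] at hj
            omega
          · rw [if_neg hxi, if_neg hxj]
            omega
      rw [h6, Multiset.card_cons] at hn
      omega
    · rw [← hc]; simp
    · simp [hL31]
    · exact h2
    · intro p hp
      rcases Multiset.mem_cons.1 hp with rfl | hp
      · exact dA i
      rcases Multiset.mem_cons.1 hp with rfl | hp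
      · exact dC i
      exact hL32 p hp
    · exact h4
    · rw [← h5]
      exact ((hlink1.trans hstep.linked).cfg hcfg).sum

/-- Theorem T4: the case `d = s + 1`. -/
theorem conn_succ {e k : ℕ} (he : 1 ≤ e) (α : σ →₀ ℕ) : Conn (e + 2) (e + 1) k α := by
  intro X Y hX hY
  obtain ⟨D, L, h1, h2, rfl⟩ := exists_doubles X hX.row
  obtain ⟨D', L', h3, h4, rfl⟩ := exists_doubles Y hY.row
  apply double_conn he _ D D' L L' rfl _ h1 h3 h2 h4 (hX.sum.trans hY.sum.symm)
  have e1 := (cfg_map_br h1 h2).card
  have e2 := (cfg_map_br h3 h4).card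
  rw [← e1, ← e2, hX.card, hY.card]

end Pool.Agent.Lib.MP_e26c3f_al
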