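import Mathlib
import Pool.Agent.Lib.MP_e26c3f_al.Basic

/-! Degree four and supports of size two (theorem T5). -/

set_option autoImplicit false
set_option linter.unusedSectionVars false

namespace Pool.Agent.Lib.MP_e26c3f_al

variable {σ : Type*} [DecidableEq σ] {x y z : σ}

noncomputable def g1 (x : σ) : σ →₀ ℕ := Finsupp.single x 1

/-- `x ^ 3 y`. -/
noncomputable def T31 (x y : σ) : σ →₀ ℕ := 3 • g1 x + g1 y

/-- `x ^ 2 y ^ 2`. -/
noncomputable def T22 (x y : σ) : σ →₀ ℕ := 2 • g1 x + 2 • g1 y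

lemma g1_apply (x w : σ) : g1 x w = if x = w then 1 else 0 := by
  rw [g1, Finsupp.single_apply]

lemma T31_apply (x y w : σ) : T31 x y w = 3 * (if x = w then 1 else 0) + (if y = w then 1 else 0) := by
  rw [T31, Finsupp.add_apply, Finsupp.smul_apply, g1_apply, g1_apply, smul_eq_mul]

lemma T22_apply (x y w : σ) :
    T22 x y w = 2 * (if x = w then 1 else 0) + 2 * (if y = w then 1 else 0) := by
  rw [T22, Finsupp.add_apply, Finsupp.smul_apply, Finsupp.smul_apply, g1_apply, g1_apply,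
    smul_eq_mul, smul_eq_mul]

lemma deg_g1 (x : σ) : (g1 x).degree = 1 := Finsupp.degree_single _ _

lemma supp_pair {a b : ℕ} (x y : σ) : (a • g1 x + b • g1 y).support.card ≤ 2 := by
  have h1 : (a • g1 x + b • g1 y).support ⊆ {x, y} := by
    intro w hw
    rw [Finsupp.mem_support_iff, Finsupp.add_apply, Finsupp.smul_apply, Finsupp.smul_apply,
      g1_apply, g1_apply] at hw
    by_contra h
    simp only [Finset.mem_insert, Finset.mem_singleton, not_or] at h
    simp [Ne.symm h.1, Ne.symm h.2] at hw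
  exact (Finset.card_le_card h1).trans Finset.card_le_two

lemma row31 (x y : σ) : IsRow 4 2 (T31 x y) := by
  refine ⟨?_, ?_⟩
  · rw [T31, map_add, map_nsmul, deg_g1, deg_g1]; rfl
  · have := supp_pair (a := 3) (b := 1) x y
    rwa [one_smul] at this

lemma row22 (x y : σ) : IsRow 4 2 (T22 x y) := by
  refine ⟨?_, supp_pair x y⟩
  rw [T22, map_add, map_nsmul, map_nsmul, deg_g1, deg_g1]; rfl

lemma exists_g1 {u : σ →₀ ℕ} {n : ℕ} (hu : u.degree = n + 1) :
    ∃ x r, u = g1 x + r ∧ r.degree = n := by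
  obtain ⟨x, hx⟩ : ∃ x, u x ≠ 0 := by
    by_contra h
    push Not at h
    have : u = 0 := Finsupp.ext h
    rw [this] at hu
    simp at hu
  obtain ⟨r, hr⟩ : ∃ r, u = g1 x + r := by
    apply exists_add_of_le
    rw [g1, Finsupp.single_le_iff]; omega
  refine ⟨x, r, hr, ?_⟩
  have h9 : u.degree = (g1 x).degree + r.degree := by rw [← map_add, ← hr]
  rw [hu, deg_g1] at h9
  omega

/-- Classification of rows containing `y`. -/
lemma cls {u : σ →₀ ℕ} (hu : IsRow 4 2 u) (hy : u y ≠ 0) :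
    u = T31 y y ∨ (∃ v, v ≠ y ∧ u = T31 y v) ∨ (∃ v, v ≠ y ∧ u = T22 y v) ∨
      (∃ v, v ≠ y ∧ u = T31 v y) := by
  obtain ⟨r, hr⟩ : ∃ r, u = g1 y + r := by
    apply exists_add_of_le
    rw [g1, Finsupp.single_le_iff]; omega
  have hrd : r.degree = 2 + 1 := by
    have h9 : u.degree = (g1 y).degree + r.degree := by rw [← map_add, ← hr]
    rw [hu.1, deg_g1] at h9
    omega
  obtain ⟨a, r1, h1, hd1⟩ := exists_g1 hrd
  obtain ⟨b, r2, h2, hd2⟩ := exists_g1 hd1
  obtain ⟨c, r3, h3, hd3⟩ := exists_g1 (n := 0) hd2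
  rw [Finsupp.degree_eq_zero_iff] at hd3
  rw [hd3, add_zero] at h3
  rw [h3] at h2
  rw [h2] at h1
  rw [h1] at hr
  -- at most two distinct variables
  have key : ∀ p q : σ, p ≠ q → p ≠ y → q ≠ y → u p ≠ 0 → u q ≠ 0 → False := by
    intro p q hpq hpy hqy hp hq
    have h4 : ({y, p, q} : Finset σ) ⊆ u.support := by
      intro w hw
      simp only [Finset.mem_insert, Finset.mem_singleton] at hw
      rw [Finsupp.mem_support_iff]
      rcases hw with rfl | rfl | rfl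
      · exact hy
      · exact hp
      · exact hq
    have h5 := Finset.card_le_card h4
    rw [Finset.card_eq_three.2 ⟨y, p, q, hpy.symm, hqy.symm, hpq, rfl⟩] at h5
    have := hu.2
    omega
  have ha0 : u a ≠ 0 := by
    rw [hr]; simp only [Finsupp.add_apply, g1_apply, if_true]; omega
  have hb0 : u b ≠ 0 := by
    rw [hr]; simp only [Finsupp.add_apply, g1_apply, if_true]; omega
  have hc0 : u c ≠ 0 := by
    rw [hr]; simp only [Finsupp.add_apply, g1_apply, if_true]; omega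
  by_cases hay : a = y
  · by_cases hby : b = y
    · by_cases hcy : c = y
      · left; rw [hr, hay, hby, hcy, T31]; abel
      · right; left; exact ⟨c, hcy, by rw [hr, hay, hby, T31]; abel⟩
    · by_cases hcy : c = y
      · right; left; exact ⟨b, hby, by rw [hr, hay, hcy, T31]; abel⟩
      · have hbc : b = c := by
          by_contra h; exact key b c h hby hcy hb0 hc0
        right; right; left; exact ⟨b, hby, by rw [hr, hay, ← hbc, T22]; abel⟩
  · by_cases hby : b = y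
    · by_cases hcy : c = y
      · right; left; exact ⟨a, hay, by rw [hr, hby, hcy, T31]; abel⟩
      · have hac : a = c := by
          by_contra h; exact key a c h hay hcy ha0 hc0
        right; right; left; exact ⟨a, hay, by rw [hr, hby, ← hac, T22]; abel⟩
    · have hab : a = b := by
        by_contra h; exact key a b h hay hby ha0 hb0
      by_cases hcy : c = y
      · right; right; left; exact ⟨a, hay, by rw [hr, hcy, ← hab, T22]; abel⟩
      · have hac : a = c := by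
          by_contra h; exact key a c h hay hcy ha0 hc0
        right; right; right; exact ⟨a, hay, by rw [hr, ← hab, ← hac, T31]; abel⟩

lemma exists_pos (X : Multiset (σ →₀ ℕ)) (h : X.sum y ≠ 0) : ∃ u ∈ X, u y ≠ 0 := by
  induction X using Multiset.induction_on with
  | empty => simp at h
  | cons u X ih =>
    rw [Multiset.sum_cons, Finsupp.add_apply] at h
    by_cases hu : u y = 0
    · obtain ⟨v, hv, hvy⟩ := ih (by omega)
      exact ⟨v, Multiset.mem_cons_of_mem hv, hvy⟩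
    · exact ⟨u, Multiset.mem_cons_self _ _, hu⟩

lemma mv {a b a' b' : σ →₀ ℕ} (Z : Multiset (σ →₀ ℕ)) (ha : IsRow 4 2 a) (hb : IsRow 4 2 b)
    (ha' : IsRow 4 2 a') (hb' : IsRow 4 2 b') (h : a + b = a' + b') :
    Linked 4 2 (a ::ₘ b ::ₘ Z) (a' ::ₘ b' ::ₘ Z) :=
  Step.linked ⟨a, b, a', b', Z, rfl, rfl, h, ha, hb, ha', hb'⟩

lemma sum_cons_apply (u : σ →₀ ℕ) (X : Multiset (σ →₀ ℕ)) (y : σ) :
    (u ::ₘ X).sum y = u y + X.sum y := by
  rw [Multiset.sum_cons, Finsupp.add_apply]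

/-- From a row with exactly two `y` and at least one further `y`, reach at least three. -/
lemma G3aux {v : σ} {Z : Multiset (σ →₀ ℕ)} (hZ : ∀ u ∈ Z, IsRow 4 2 u) (hZy : Z.sum y ≠ 0) :
    ∃ X', Linked 4 2 (T22 y v ::ₘ Z) X' ∧ ∃ w, T31 y w ∈ X' := by
  obtain ⟨q, hq, hqy⟩ := exists_pos Z hZy
  obtain ⟨Z', rfl⟩ := Multiset.exists_cons_of_mem hq
  rcases cls (hZ q hq) hqy with rfl | ⟨w, hw, rfl⟩ | ⟨w, hw, rfl⟩ | ⟨w, hw, rfl⟩
  · exact ⟨_, Linked.refl _, y, by simp⟩
  · exact ⟨_, Linked.refl _, w, by simp⟩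
  · refine ⟨T31 y y ::ₘ T22 v w ::ₘ Z', mv Z' (row22 _ _) (row22 _ _) (row31 _ _) (row22 _ _) ?_,
      y, by simp⟩
    simp only [T31, T22]; abel
  · refine ⟨T31 y w ::ₘ T22 v w ::ₘ Z', mv Z' (row22 _ _) (row31 _ _) (row31 _ _) (row22 _ _) ?_,
      w, by simp⟩
    simp only [T31, T22]; abel

/-- Lemma G3. -/
lemma G3 {X : Multiset (σ →₀ ℕ)} (hX : ∀ u ∈ X, IsRow 4 2 u) (h : 3 ≤ X.sum y) :
    ∃ X', Linked 4 2 X X' ∧ ∃ w, T31 y w ∈ X' := by
  obtain ⟨p, hp, hpy⟩ := exists_pos X (by omega : X.sum y ≠ 0)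
  obtain ⟨X1, rfl⟩ := Multiset.exists_cons_of_mem hp
  rw [sum_cons_apply] at h
  rcases cls (hX p hp) hpy with rfl | ⟨a, ha, rfl⟩ | ⟨a, ha, rfl⟩ | ⟨a, ha, rfl⟩
  · exact ⟨_, Linked.refl _, y, by simp⟩
  · exact ⟨_, Linked.refl _, a, by simp⟩
  · rw [T22_apply, if_pos rfl, if_neg ha] at h
    exact G3aux (fun u hu => hX u (by simp [hu])) (by omega)
  · rw [T31_apply, if_pos rfl, if_neg ha] at h
    obtain ⟨q, hq, hqy⟩ := exists_pos X1 (by omega : X1.sum y ≠ 0)
    obtain ⟨X2, rfl⟩ := Multiset.exists_cons_of_mem hq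
    rw [sum_cons_apply] at h
    rcases cls (hX q (by simp)) hqy with rfl | ⟨b, hb, rfl⟩ | ⟨b, hb, rfl⟩ | ⟨b, hb, rfl⟩
    · exact ⟨_, Linked.refl _, y, by simp⟩
    · exact ⟨_, Linked.refl _, b, by simp⟩
    · rw [Multiset.cons_swap]
      apply G3aux
      · intro u hu
        rcases Multiset.mem_cons.1 hu with rfl | hu
        · exact row31 _ _
        · exact hX u (by simp [hu])
      · rw [sum_cons_apply, T31_apply, if_pos rfl]; omega
    · rw [T31_apply, if_pos rfl, if_neg hb] at h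
      obtain ⟨X', hX', w, hw⟩ := G3aux (y := y) (v := a) (Z := T31 b a ::ₘ X2)
        (by
          intro u hu
          rcases Multiset.mem_cons.1 hu with rfl | hu
          · exact row31 _ _
          · exact hX u (by simp [hu]))
        (by rw [sum_cons_apply]; omega)
      refine ⟨X', Linked.trans ?_ hX', w, hw⟩
      apply mv X2 (row31 _ _) (row31 _ _) (row22 _ _) (row31 _ _)
      simp only [T31, T22]; abel

/-- Case 2: reach the fourth power. -/
lemma R4 {k : ℕ} {α : σ →₀ ℕ} {X : Multiset (σ →₀ ℕ)} (hX : Cfg 4 2 k α X) (hz : 4 ≤ α z)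
    (h1 : ∀ w, α w ≠ 1) : ∃ Y, Linked 4 2 X Y ∧ T31 z z ∈ Y := by
  classical
  by_contra hcon
  push Not at hcon
  let N : Multiset (σ →₀ ℕ) → ℕ := fun Y => Y.countP fun v => ∃ a, v = T31 a a
  have hNle : ∀ Y, Linked 4 2 X Y → N Y ≤ k := by
    intro Y hY
    rw [← (hY.cfg hX).card]
    exact Multiset.countP_le_card _ _
  -- a configuration with a row `z ^ 3 w` and as many fourth powers as possible
  obtain ⟨Y0, hXY0, w0, hw0⟩ := G3 (y := z) hX.row (by rw [hX.sum]; omega)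
  obtain ⟨Y, ⟨hXY, w, hw⟩, hmax⟩ : ∃ Y, (Linked 4 2 X Y ∧ ∃ w, T31 z w ∈ Y) ∧
      ∀ Y', (Linked 4 2 X Y' ∧ ∃ w, T31 z w ∈ Y') → N Y' ≤ N Y := by
    have hex : ∃ n, ∃ Y, (Linked 4 2 X Y ∧ ∃ w, T31 z w ∈ Y) ∧ k - N Y = n :=
      ⟨_, Y0, ⟨hXY0, w0, hw0⟩, rfl⟩
    obtain ⟨Y, hY, hYn⟩ := Nat.find_spec hex
    refine ⟨Y, hY, fun Y' hY' => ?_⟩
    have h2 := Nat.find_min' hex ⟨Y', hY', rfl⟩
    have h3 := hNle Y hY.1
    have h4 := hNle Y' hY'.1
    omega
  have hYc := hXY.cfg hX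
  have hwz : w ≠ z := by
    rintro rfl; exact hcon Y hXY hw
  have done : ∀ Z, Linked 4 2 Y Z → T31 z z ∈ Z → False := fun Z h1 h2 =>
    hcon Z (hXY.trans h1) h2
  obtain ⟨Z, rfl⟩ := Multiset.exists_cons_of_mem hw
  have hZr : ∀ u ∈ Z, IsRow 4 2 u := fun u hu => hYc.row u (by simp [hu])
  have hsz : T31 z w z + Z.sum z = α z := by rw [← hYc.sum, sum_cons_apply]
  have hsw : T31 z w w + Z.sum w = α w := by rw [← hYc.sum, sum_cons_apply]
  rw [T31_apply, if_pos rfl, if_neg hwz] at hsz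
  rw [T31_apply, if_neg hwz.symm, if_pos rfl] at hsw
  have hw2 := h1 w
  -- rows containing z
  have hzrow : ∀ p Z', Z = p ::ₘ Z' → p z ≠ 0 →
      (∃ b, b ≠ z ∧ b ≠ w ∧ p = T31 z b) ∨ (∃ b, b ≠ z ∧ b ≠ w ∧ p = T22 z b) := by
    intro p Z' hZ' hpz
    subst hZ'
    rcases cls (hZr p (by simp)) hpz with rfl | ⟨b, hb, rfl⟩ | ⟨b, hb, rfl⟩ | ⟨b, hb, rfl⟩
    · exact (done _ (Linked.refl _) (by simp)).elim
    · left
      refine ⟨b, hb, ?_, rfl⟩
      rintro rfl
      refine (done (T31 z z ::ₘ T22 z b ::ₘ Z')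
        (mv Z' (row31 _ _) (row31 _ _) (row31 _ _) (row22 _ _) ?_) (by simp)).elim
      simp only [T31, T22]; abel
    · right
      refine ⟨b, hb, ?_, rfl⟩
      rintro rfl
      refine (done (T31 z z ::ₘ T31 b z ::ₘ Z')
        (mv Z' (row31 _ _) (row22 _ _) (row31 _ _) (row31 _ _) ?_) (by simp)).elim
      simp only [T31, T22]; abel
    · refine (done (T31 z z ::ₘ T31 b w ::ₘ Z')
        (mv Z' (row31 _ _) (row31 _ _) (row31 _ _) (row31 _ _) ?_) (by simp)).elim
      simp only [T31]; abel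
  obtain ⟨p, hp, hpz⟩ := exists_pos Z (by omega : Z.sum z ≠ 0)
  obtain ⟨q, hq, hqw⟩ := exists_pos Z (by omega : Z.sum w ≠ 0)
  obtain ⟨Z1, hZ1⟩ := Multiset.exists_cons_of_mem hp
  have hp' := hzrow p Z1 hZ1 hpz
  have hpw : p w = 0 := by
    rcases hp' with ⟨b, hb1, hb2, rfl⟩ | ⟨b, hb1, hb2, rfl⟩
    · rw [T31_apply, if_neg hwz.symm, if_neg hb2]
    · rw [T22_apply, if_neg hwz.symm, if_neg hb2]
  have hqz : q z = 0 := by
    by_contra hqz
    obtain ⟨Z2, hZ2⟩ := Multiset.exists_cons_of_mem hq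
    rcases hzrow q Z2 hZ2 hqz with ⟨b, hb1, hb2, rfl⟩ | ⟨b, hb1, hb2, rfl⟩
    · rw [T31_apply, if_neg hwz.symm, if_neg hb2] at hqw; exact hqw rfl
    · rw [T22_apply, if_neg hwz.symm, if_neg hb2] at hqw; exact hqw rfl
  have hq1 : q ∈ Z1 := by
    rw [hZ1] at hq
    rcases Multiset.mem_cons.1 hq with rfl | h
    · exact absurd hqz hpz
    · exact h
  obtain ⟨Z2, rfl⟩ := Multiset.exists_cons_of_mem hq1
  subst hZ1
  -- final moves
  have fin : ∀ a b c, Linked 4 2 (T31 z w ::ₘ p ::ₘ q ::ₘ Z2) (T31 a z ::ₘ p ::ₘ T22 z b ::ₘ c) →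
      False := by
    intro a b c h
    rcases hp' with ⟨b', hb1, hb2, rfl⟩ | ⟨b', hb1, hb2, rfl⟩
    · refine done (T31 z z ::ₘ T31 a b' ::ₘ T22 z b ::ₘ c) (h.trans
        (mv _ (row31 _ _) (row31 _ _) (row31 _ _) (row31 _ _) ?_)) (by simp)
      simp only [T31]; abel
    · refine done (T31 a z ::ₘ T31 z z ::ₘ T22 b' b ::ₘ c) (h.trans
        ((mv _ (row22 _ _) (row22 _ _) (row31 _ _) (row22 _ _) ?_).cons _)) (by simp)
      simp only [T31, T22]; abel
  rcases cls (hZr q (by simp)) hqw with rfl | ⟨b, hb, rfl⟩ | ⟨b, hb, rfl⟩ | ⟨b, hb, rfl⟩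
  · -- q = w ^ 4
    apply fin w w Z2
    rw [Multiset.cons_swap p (T31 w w), Multiset.cons_swap p (T22 z w)]
    apply mv _ (row31 _ _) (row31 _ _) (row31 _ _) (row22 _ _)
    simp only [T31, T22]; abel
  · -- q = w ^ 3 b
    have hbz : b ≠ z := by
      rintro rfl
      rw [T31_apply, if_pos rfl] at hqz
      omega
    have hlink : Linked 4 2 (T31 z w ::ₘ p ::ₘ T31 w b ::ₘ Z2) (T31 z b ::ₘ T31 w w ::ₘ p ::ₘ Z2) := by
      rw [Multiset.cons_swap p (T31 w b)]
      apply mv _ (row31 _ _) (row31 _ _) (row31 _ _) (row31 _ _)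
      simp only [T31]; abel
    have h3 := hmax _ ⟨hXY.trans hlink, b, by simp⟩
    have hno : ∀ c e : σ, c ≠ e → ¬ ∃ a, T31 c e = T31 a a := by
      rintro c e hce ⟨a, ha⟩
      have h4 := DFunLike.congr_fun ha c
      have h5 := DFunLike.congr_fun ha e
      rw [T31_apply, T31_apply] at h4 h5
      rw [if_pos rfl, if_neg hce.symm] at h4
      rw [if_neg hce, if_pos rfl] at h5
      split_ifs at h4 h5 <;> omega
    have hyes : ∃ a, T31 w w = T31 a a := ⟨w, rfl⟩
    simp only [N, Multiset.countP_cons, if_neg (hno z b hbz.symm), if_neg (hno z w hwz.symm),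
      if_neg (hno w b hb.symm), if_pos hyes] at h3
    omega
  · -- q = w ^ 2 b ^ 2
    apply fin w b Z2
    rw [Multiset.cons_swap p (T22 w b), Multiset.cons_swap p (T22 z b)]
    apply mv _ (row31 _ _) (row22 _ _) (row31 _ _) (row22 _ _)
    simp only [T31, T22]; abel
  · -- q = b ^ 3 w
    apply fin b w Z2
    rw [Multiset.cons_swap p (T31 b w), Multiset.cons_swap p (T22 z w)]
    apply mv _ (row31 _ _) (row31 _ _) (row31 _ _) (row22 _ _)
    simp only [T31, T22]; abel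

end Pool.Agent.Lib.MP_e26c3f_al
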