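import Mathlib
import Pool.Agent.Lib.MP_e26c3f_al.Four

/-! Degree four and supports of size two (theorem T5), remaining cases. -/

set_option autoImplicit false
set_option linter.unusedSectionVars false

namespace Pool.Agent.Lib.MP_e26c3f_al

variable {σ : Type*} [DecidableEq σ] {x y z : σ}

/-- Case 1: a variable of exponent one; the row containing it can be changed. -/
lemma R1 {k : ℕ} {α : σ →₀ ℕ} {X : Multiset (σ →₀ ℕ)} (hX : Cfg 4 2 k α X) (hz : α z = 1)
    {y : σ} (hyz : y ≠ z) (hy : 3 ≤ α y) : ∃ Y, Linked 4 2 X Y ∧ T31 y z ∈ Y := by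
  obtain ⟨p, hp, hpz⟩ := exists_pos X (by rw [hX.sum]; omega : X.sum z ≠ 0)
  obtain ⟨X1, rfl⟩ := Multiset.exists_cons_of_mem hp
  have hsz : p z + X1.sum z = α z := by rw [← hX.sum, sum_cons_apply]
  have hsy : p y + X1.sum y = α y := by rw [← hX.sum, sum_cons_apply]
  have hX1 : ∀ u ∈ X1, IsRow 4 2 u := fun u hu => hX.row u (by simp [hu])
  rcases cls (hX.row p (by simp)) hpz with rfl | ⟨a, ha, rfl⟩ | ⟨a, ha, rfl⟩ | ⟨a, ha, rfl⟩
  · rw [T31_apply, if_pos rfl] at hsz; omega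
  · rw [T31_apply, if_pos rfl] at hsz; omega
  · rw [T22_apply, if_pos rfl] at hsz; omega
  · by_cases hay : a = y
    · subst hay
      exact ⟨_, Linked.refl _, by simp⟩
    · rw [T31_apply, if_neg hay, if_neg hyz.symm] at hsy
      obtain ⟨X2, hX2, w, hw⟩ := G3 (y := y) hX1 (by omega)
      obtain ⟨X3, rfl⟩ := Multiset.exists_cons_of_mem hw
      refine ⟨T31 y z ::ₘ T31 a w ::ₘ X3, (hX2.cons _).trans
        (mv _ (row31 _ _) (row31 _ _) (row31 _ _) (row31 _ _) ?_), by simp⟩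
      simp only [T31]; abel

/-- Case 3: exponents two and three only. -/
lemma R2 {k : ℕ} {α : σ →₀ ℕ} {X : Multiset (σ →₀ ℕ)} (hX : Cfg 4 2 k α X) (hz : α z = 2)
    (h1 : ∀ w, α w ≠ 1) (h4 : ∀ w, α w ≤ 3) {w : σ} (hwz : w ≠ z) (hw : α w ≠ 0) :
    ∃ Y, Linked 4 2 X Y ∧ T22 z w ∈ Y := by
  -- first reach z ^ 2 v ^ 2
  obtain ⟨v, Z, hvz, hXZ⟩ : ∃ v Z, v ≠ z ∧ Linked 4 2 X (T22 z v ::ₘ Z) := by
    obtain ⟨p, hp, hpz⟩ := exists_pos X (by rw [hX.sum]; omega : X.sum z ≠ 0)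
    obtain ⟨X1, rfl⟩ := Multiset.exists_cons_of_mem hp
    have hsz : p z + X1.sum z = α z := by rw [← hX.sum, sum_cons_apply]
    rcases cls (hX.row p (by simp)) hpz with rfl | ⟨a, ha, rfl⟩ | ⟨a, ha, rfl⟩ | ⟨a, ha, rfl⟩
    · rw [T31_apply, if_pos rfl] at hsz; omega
    · rw [T31_apply, if_pos rfl] at hsz; omega
    · exact ⟨a, X1, ha, Linked.refl _⟩
    · rw [T31_apply, if_pos rfl, if_neg ha] at hsz
      obtain ⟨q, hq, hqz⟩ := exists_pos X1 (by omega : X1.sum z ≠ 0)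
      obtain ⟨X2, rfl⟩ := Multiset.exists_cons_of_mem hq
      rw [sum_cons_apply] at hsz
      rcases cls (hX.row q (by simp)) hqz with rfl | ⟨b, hb, rfl⟩ | ⟨b, hb, rfl⟩ | ⟨b, hb, rfl⟩
      · rw [T31_apply, if_pos rfl] at hsz; omega
      · rw [T31_apply, if_pos rfl] at hsz; omega
      · exact ⟨b, T31 a z ::ₘ X2, hb, by rw [Multiset.cons_swap]; exact Linked.refl _⟩
      · refine ⟨a, T31 b a ::ₘ X2, ha, ?_⟩
        apply mv _ (row31 _ _) (row31 _ _) (row22 _ _) (row31 _ _)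
        simp only [T31, T22]; abel
  by_cases hvw : v = w
  · subst hvw
    exact ⟨_, hXZ, by simp⟩
  have hc := hXZ.cfg hX
  have hZr : ∀ u ∈ Z, IsRow 4 2 u := fun u hu => hc.row u (by simp [hu])
  have hs : ∀ t, T22 z v t + Z.sum t = α t := fun t => by rw [← hc.sum, sum_cons_apply]
  have hsz := hs z
  rw [T22_apply, if_pos rfl, if_neg hvz] at hsz
  have hsw := hs w
  rw [T22_apply, if_neg hwz.symm, if_neg hvw] at hsw
  have hw1 := h1 w
  have hw4 := h4 w
  -- if a row w ^ 2 t ^ 2 is present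
  have fin : ∀ t Z', Linked 4 2 Z (T22 w t ::ₘ Z') → ∃ Y, Linked 4 2 X Y ∧ T22 z w ∈ Y := by
    intro t Z' h
    refine ⟨T22 z w ::ₘ T22 v t ::ₘ Z', hXZ.trans ((h.cons _).trans
      (mv _ (row22 _ _) (row22 _ _) (row22 _ _) (row22 _ _) ?_)), by simp⟩
    simp only [T22]; abel
  obtain ⟨q, hq, hqw⟩ := exists_pos Z (by omega : Z.sum w ≠ 0)
  obtain ⟨Z1, rfl⟩ := Multiset.exists_cons_of_mem hq
  rw [sum_cons_apply] at hsz hsw
  rcases cls (hZr q (by simp)) hqw with rfl | ⟨u, hu, rfl⟩ | ⟨u, hu, rfl⟩ | ⟨u, hu, rfl⟩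
  · rw [T31_apply, if_pos rfl] at hsw; omega
  · -- q = w ^ 3 u
    by_cases huv : u = v
    · subst huv
      refine ⟨T22 z w ::ₘ T31 u w ::ₘ Z1, hXZ.trans
        (mv _ (row22 _ _) (row31 _ _) (row22 _ _) (row31 _ _) ?_), by simp⟩
      simp only [T31, T22]; abel
    · have huz : u ≠ z := by
        rintro rfl
        rw [T31_apply, if_neg hwz, if_pos rfl] at hsz
        omega
      have hsu := hs u
      rw [sum_cons_apply, T22_apply, T31_apply, if_neg huz.symm, if_neg (Ne.symm huv),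
        if_neg hu.symm, if_pos rfl] at hsu
      have hu1 := h1 u
      have hu4 := h4 u
      obtain ⟨p, hp, hpu⟩ := exists_pos Z1 (by omega : Z1.sum u ≠ 0)
      obtain ⟨Z2, rfl⟩ := Multiset.exists_cons_of_mem hp
      rw [sum_cons_apply] at hsu
      rcases cls (hZr p (by simp)) hpu with rfl | ⟨t, ht, rfl⟩ | ⟨t, ht, rfl⟩ | ⟨t, ht, rfl⟩
      · rw [T31_apply, if_pos rfl] at hsu; omega
      · rw [T31_apply, if_pos rfl] at hsu; omega
      · apply fin t (T31 u w ::ₘ Z2)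
        apply mv _ (row31 _ _) (row22 _ _) (row22 _ _) (row31 _ _)
        simp only [T31, T22]; abel
      · apply fin u (T31 t w ::ₘ Z2)
        apply mv _ (row31 _ _) (row31 _ _) (row22 _ _) (row31 _ _)
        simp only [T31, T22]; abel
  · exact fin u Z1 (Linked.refl _)
  · -- q = u ^ 3 w
    rw [T31_apply, if_neg hu, if_pos rfl] at hsw
    obtain ⟨p, hp, hpw⟩ := exists_pos Z1 (by omega : Z1.sum w ≠ 0)
    obtain ⟨Z2, rfl⟩ := Multiset.exists_cons_of_mem hp
    rw [sum_cons_apply] at hsw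
    rcases cls (hZr p (by simp)) hpw with rfl | ⟨t, ht, rfl⟩ | ⟨t, ht, rfl⟩ | ⟨t, ht, rfl⟩
    · rw [T31_apply, if_pos rfl] at hsw; omega
    · rw [T31_apply, if_pos rfl] at hsw; omega
    · apply fin t (T31 u w ::ₘ Z2)
      rw [Multiset.cons_swap]
      exact Linked.refl _
    · apply fin u (T31 t u ::ₘ Z2)
      apply mv _ (row31 _ _) (row31 _ _) (row22 _ _) (row31 _ _)
      simp only [T31, T22]; abel

/-- Case 4: all exponents equal to three. -/
lemma R3 {k : ℕ} {α : σ →₀ ℕ} {X : Multiset (σ →₀ ℕ)} (hX : Cfg 4 2 k α X)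
    (h3 : ∀ w, α w = 0 ∨ α w = 3) (hz : α z = 3) {r : σ} (hrz : r ≠ z) (hr : α r = 3) :
    ∃ Y, Linked 4 2 X Y ∧ T31 z r ∈ Y := by
  obtain ⟨X', hXX', v, hv⟩ := G3 (y := z) hX.row (by rw [hX.sum]; omega)
  obtain ⟨Z, rfl⟩ := Multiset.exists_cons_of_mem hv
  have hc := hXX'.cfg hX
  have hZr : ∀ u ∈ Z, IsRow 4 2 u := fun u hu => hc.row u (by simp [hu])
  have hs : ∀ t, T31 z v t + Z.sum t = α t := fun t => by rw [← hc.sum, sum_cons_apply]
  have hsz := hs z
  have hvz : v ≠ z := by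
    rintro rfl
    rw [T31_apply, if_pos rfl] at hsz
    omega
  rw [T31_apply, if_pos rfl, if_neg hvz] at hsz
  by_cases hvr : v = r
  · subst hvr
    exact ⟨_, hXX', by simp⟩
  have hsr := hs r
  rw [T31_apply, if_neg hrz.symm, if_neg hvr] at hsr
  -- if a row u ^ 3 r is present
  have fin : ∀ u Z', Linked 4 2 Z (T31 u r ::ₘ Z') → ∃ Y, Linked 4 2 X Y ∧ T31 z r ∈ Y := by
    intro u Z' h
    refine ⟨T31 z r ::ₘ T31 u v ::ₘ Z', hXX'.trans ((h.cons _).trans
      (mv _ (row31 _ _) (row31 _ _) (row31 _ _) (row31 _ _) ?_)), by simp⟩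
    simp only [T31]; abel
  obtain ⟨q, hq, hqr⟩ := exists_pos Z (by omega : Z.sum r ≠ 0)
  obtain ⟨Z1, rfl⟩ := Multiset.exists_cons_of_mem hq
  rw [sum_cons_apply] at hsz hsr
  rcases cls (hZr q (by simp)) hqr with rfl | ⟨p, hp, rfl⟩ | ⟨p, hp, rfl⟩ | ⟨p, hp, rfl⟩
  · rw [T31_apply, if_pos rfl] at hsr; omega
  · -- q = r ^ 3 p
    by_cases hpv : p = v
    · subst hpv
      refine ⟨T31 z r ::ₘ T22 r p ::ₘ Z1, hXX'.trans
        (mv _ (row31 _ _) (row31 _ _) (row31 _ _) (row22 _ _) ?_), by simp⟩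
      simp only [T31, T22]; abel
    · have hpz : p ≠ z := by
        rintro rfl
        rw [T31_apply, if_neg hrz, if_pos rfl] at hsz
        omega
      have hsp := hs p
      rw [sum_cons_apply, T31_apply, T31_apply, if_neg hpz.symm, if_neg (Ne.symm hpv),
        if_neg hp.symm, if_pos rfl] at hsp
      have hp3 := h3 p
      obtain ⟨t, ht, htp⟩ := exists_pos Z1 (by omega : Z1.sum p ≠ 0)
      obtain ⟨Z2, rfl⟩ := Multiset.exists_cons_of_mem ht
      rw [sum_cons_apply] at hsp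
      rcases cls (hZr t (by simp)) htp with rfl | ⟨a, ha, rfl⟩ | ⟨a, ha, rfl⟩ | ⟨a, ha, rfl⟩
      · rw [T31_apply, if_pos rfl] at hsp; omega
      · rw [T31_apply, if_pos rfl] at hsp; omega
      · apply fin p (T22 r a ::ₘ Z2)
        apply mv _ (row31 _ _) (row22 _ _) (row31 _ _) (row22 _ _)
        simp only [T31, T22]; abel
      · apply fin a (T22 r p ::ₘ Z2)
        apply mv _ (row31 _ _) (row31 _ _) (row31 _ _) (row22 _ _)
        simp only [T31, T22]; abel
  · -- q = r ^ 2 p ^ 2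
    rw [T22_apply, if_pos rfl, if_neg hp] at hsr
    obtain ⟨t, ht, htr⟩ := exists_pos Z1 (by omega : Z1.sum r ≠ 0)
    obtain ⟨Z2, rfl⟩ := Multiset.exists_cons_of_mem ht
    rw [sum_cons_apply] at hsr
    rcases cls (hZr t (by simp)) htr with rfl | ⟨a, ha, rfl⟩ | ⟨a, ha, rfl⟩ | ⟨a, ha, rfl⟩
    · rw [T31_apply, if_pos rfl] at hsr; omega
    · rw [T31_apply, if_pos rfl] at hsr; omega
    · rw [T22_apply, if_pos rfl] at hsr; omega
    · apply fin a (T22 r p ::ₘ Z2)
      rw [Multiset.cons_swap]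
      exact Linked.refl _
  · exact fin p Z1 (Linked.refl _)

/-- Theorem T5. -/
theorem conn_four : ∀ (k : ℕ) (α : σ →₀ ℕ), Conn 4 2 k α := by
  intro k
  induction k with
  | zero => intro α; exact conn_zero
  | succ k ih =>
    intro α X Y hX hY
    have hdeg := hX.degree
    -- a common reachable row suffices
    have common : ∀ u : σ →₀ ℕ, (∀ Z, Cfg 4 2 (k + 1) α Z → ∃ Z', Linked 4 2 Z Z' ∧ u ∈ Z') →
        Linked 4 2 X Y := by
      intro u h
      obtain ⟨X', hX1, hX2⟩ := h X hX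
      obtain ⟨Y', hY1, hY2⟩ := h Y hY
      obtain ⟨X1, β, hX3, hβ, -⟩ := (hX1.cfg hX).exists_cons hX2
      exact hX1.trans ((linked_of_mem (ih β) hβ (hX1.cfg hX) (hY1.cfg hY) hX2 hY2).trans hY1.symm)
    by_cases h1 : ∃ z, α z = 1
    · obtain ⟨z, hz⟩ := h1
      obtain ⟨p, hp, hpz⟩ := exists_pos Y (by rw [hY.sum]; omega : Y.sum z ≠ 0)
      have hple := hY.le hp
      rcases cls (hY.row p hp) hpz with rfl | ⟨a, ha, rfl⟩ | ⟨a, ha, rfl⟩ | ⟨a, ha, rfl⟩
      · have := hple z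
        rw [T31_apply, if_pos rfl] at this; omega
      · have := hple z
        rw [T31_apply, if_pos rfl] at this; omega
      · have := hple z
        rw [T22_apply, if_pos rfl] at this; omega
      · have h3 : 3 ≤ α a := by
          have := hple a
          rw [T31_apply, if_pos rfl] at this; omega
        exact common _ fun Z hZ => R1 hZ hz ha h3
    push Not at h1
    by_cases h4 : ∃ z, 4 ≤ α z
    · obtain ⟨z, hz⟩ := h4
      exact common _ fun Z hZ => R4 hZ hz h1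
    push Not at h4
    have h4' : ∀ w, α w ≤ 3 := fun w => by have := h4 w; omega
    -- two different variables
    have two : ∀ z, ∃ w, w ≠ z ∧ α w ≠ 0 := by
      intro z
      by_contra hcon
      push Not at hcon
      have h5 : α = Finsupp.single z (α z) := by
        ext w
        rw [Finsupp.single_apply]
        split_ifs with h
        · rw [h]
        · exact hcon w (Ne.symm h)
      rw [h5, Finsupp.degree_single] at hdeg
      have := h4' z
      omega
    by_cases h2 : ∃ z, α z = 2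
    · obtain ⟨z, hz⟩ := h2
      obtain ⟨w, hwz, hw⟩ := two z
      exact common _ fun Z hZ => R2 hZ hz h1 h4' hwz hw
    · push Not at h2
      have h3 : ∀ w, α w = 0 ∨ α w = 3 := by
        intro w
        have a1 := h1 w
        have a2 := h2 w
        have a3 := h4' w
        omega
      obtain ⟨u, hu⟩ : ∃ u, u ∈ X := Multiset.card_pos_iff_exists_mem.1 (by rw [hX.card]; omega)
      obtain ⟨z, hz⟩ : ∃ z, α z ≠ 0 := by
        by_contra hcon
        push Not at hcon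
        have : α = 0 := Finsupp.ext hcon
        rw [this] at hdeg
        simp at hdeg
      obtain ⟨w, hwz, hw⟩ := two z
      have hz3 := h3 z
      have hw3 := h3 w
      exact common _ fun Z hZ => R3 hZ h3 (by omega) hwz (by omega)

end Pool.Agent.Lib.MP_e26c3f_al
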