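import Mathlib
import Pool.Agent.Lib.MP_e26c3f_al.Algebra

/-! Disconnected fibres with three rows. -/

set_option autoImplicit false
set_option linter.unusedSectionVars false

namespace Pool.Agent.Lib.MP_e26c3f_al

open Finset

variable {σ : Type*} [DecidableEq σ] {d s : ℕ} {α : σ →₀ ℕ}

/-- Invariants of three-row fibres. -/
lemma inv_of_linked (P : Multiset (σ →₀ ℕ) → Prop)
    (H : ∀ w b c b' c' : σ →₀ ℕ, Cfg d s 3 α (w ::ₘ b ::ₘ {c}) → Cfg d s 3 α (w ::ₘ b' ::ₘ {c'}) →
      P (w ::ₘ b ::ₘ {c}) → P (w ::ₘ b' ::ₘ {c'})) {X Y : Multiset (σ →₀ ℕ)}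
    (hX : Cfg d s 3 α X) (h : Linked d s X Y) (hP : P X) : P Y := by
  induction h with
  | refl => exact hP
  | @tail Y Z hXY hYZ ih =>
    have hY : Cfg d s 3 α Y := Linked.cfg hXY hX
    have hZ : Cfg d s 3 α Z := hYZ.cfg hY
    obtain ⟨u, v, u', v', W, rfl, rfl, -, -, -, -, -⟩ := hYZ
    have hc := hY.card
    simp only [Multiset.card_cons] at hc
    obtain ⟨w, rfl⟩ := Multiset.card_eq_one.1 (show W.card = 1 by omega)
    have e : ∀ a b : σ →₀ ℕ, a ::ₘ b ::ₘ ({w} : Multiset (σ →₀ ℕ)) = w ::ₘ a ::ₘ {b} := by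
      intro a b
      rw [← Multiset.cons_zero w, ← Multiset.cons_zero b, Multiset.cons_swap b w,
        Multiset.cons_swap a w]
    rw [e] at hY ih hZ ⊢
    exact H w u v u' v' hY hZ ih

lemma sum3 (a b c : σ →₀ ℕ) : (a ::ₘ b ::ₘ ({c} : Multiset (σ →₀ ℕ))).sum = a + (b + c) := by
  simp

/-- Two heavy variables: every row contains exactly one of them. -/
lemma heavy_xor {A B : σ} (hAB : A ≠ B) (hA : A ∈ α.support) (hB : B ∈ α.support)
    (hcard : 3 * s ≤ α.support.card + 1)
    (hlow : ∀ u : σ →₀ ℕ, IsRow d s u → u ≤ α → u A = 0 → u B = 0 → False)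
    {a b c : σ →₀ ℕ} (hZ : Cfg d s 3 α (a ::ₘ b ::ₘ {c})) :
    ∀ x ∈ (a ::ₘ b ::ₘ ({c} : Multiset (σ →₀ ℕ))),
      (x A ≠ 0 ∧ x B = 0) ∨ (x A = 0 ∧ x B ≠ 0) := by
  have hsum := hZ.sum
  rw [sum3] at hsum
  let f : (σ →₀ ℕ) → ℕ := fun x => (x.support \ {A, B}).card
  have hf : ∀ x : σ →₀ ℕ, f x + (if x A ≠ 0 then 1 else 0) + (if x B ≠ 0 then 1 else 0) =
      x.support.card := by
    intro x
    have h1 := card_sdiff_add_card_inter x.support {A, B}
    have h2 : (x.support ∩ {A, B}).card = (if x A ≠ 0 then 1 else 0) + (if x B ≠ 0 then 1 else 0) := by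
      by_cases h3 : x A ≠ 0
      · by_cases h4 : x B ≠ 0
        · have : x.support ∩ {A, B} = {A, B} := by
            apply inter_eq_right.2
            intro y hy
            simp only [mem_insert, mem_singleton] at hy
            rw [Finsupp.mem_support_iff]
            rcases hy with rfl | rfl
            · exact h3
            · exact h4
          rw [this, card_pair hAB, if_pos h3, if_pos h4]
        · have : x.support ∩ {A, B} = {A} := by
            ext y
            simp only [mem_inter, mem_insert, mem_singleton, Finsupp.mem_support_iff]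
            constructor
            · rintro ⟨h5, rfl | rfl⟩
              · rfl
              · exact absurd h5 h4
            · rintro rfl; exact ⟨h3, Or.inl rfl⟩
          rw [this, card_singleton, if_pos h3, if_neg h4]
      · by_cases h4 : x B ≠ 0
        · have : x.support ∩ {A, B} = {B} := by
            ext y
            simp only [mem_inter, mem_insert, mem_singleton, Finsupp.mem_support_iff]
            constructor
            · rintro ⟨h5, rfl | rfl⟩
              · exact absurd h5 h3
              · rfl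
            · rintro rfl; exact ⟨h4, Or.inr rfl⟩
          rw [this, card_singleton, if_neg h3, if_pos h4]
        · have : x.support ∩ {A, B} = ∅ := by
            ext y
            simp only [mem_inter, mem_insert, mem_singleton, Finsupp.mem_support_iff,
              notMem_empty, iff_false]
            rintro ⟨h5, rfl | rfl⟩
            · exact h3 h5
            · exact h4 h5
          rw [this, card_empty, if_neg h3, if_neg h4]
    simp only [f]
    omega
  have hcov : (α.support \ {A, B}).card ≤ f a + (f b + f c) := by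
    have h1 : α.support \ {A, B} ⊆ (a.support \ {A, B}) ∪ ((b.support \ {A, B}) ∪ (c.support \ {A, B})) := by
      intro y hy
      rw [mem_sdiff, Finsupp.mem_support_iff, ← hsum, Finsupp.add_apply, Finsupp.add_apply] at hy
      simp only [mem_union, mem_sdiff, Finsupp.mem_support_iff]
      by_cases ha : a y ≠ 0
      · exact Or.inl ⟨ha, hy.2⟩
      · by_cases hb : b y ≠ 0
        · exact Or.inr (Or.inl ⟨hb, hy.2⟩)
        · exact Or.inr (Or.inr ⟨by omega, hy.2⟩)
    refine (card_le_card h1).trans ((card_union_le _ _).trans ?_)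
    have := card_union_le (b.support \ {A, B}) (c.support \ {A, B})
    simp only [f]
    omega
  have hpair : (α.support \ {A, B}).card + 2 = α.support.card := by
    have h1 : ({A, B} : Finset σ) ⊆ α.support := by
      intro y hy
      simp only [mem_insert, mem_singleton] at hy
      rcases hy with rfl | rfl
      · exact hA
      · exact hB
    have := card_sdiff_add_card_eq_card h1
    rw [card_pair hAB] at this
    exact this
  have hrow : ∀ x ∈ (a ::ₘ b ::ₘ ({c} : Multiset (σ →₀ ℕ))), x.support.card ≤ s ∧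
      ¬ (x A = 0 ∧ x B = 0) := by
    intro x hx
    exact ⟨(hZ.row x hx).2, fun h => hlow x (hZ.row x hx) (hZ.le hx) h.1 h.2⟩
  have ha := hrow a (by simp)
  have hb := hrow b (by simp)
  have hc := hrow c (by simp)
  have fa := hf a
  have fb := hf b
  have fc := hf c
  intro x hx
  simp only [Multiset.mem_cons, Multiset.mem_singleton] at hx
  rcases hx with rfl | rfl | rfl
  · split_ifs at fa fb fc <;> omega
  · split_ifs at fa fb fc <;> omega
  · split_ifs at fa fb fc <;> omega

/-- The invariant argument for two heavy variables. -/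
lemma heavy_not_linked {A B : σ} (hAB : A ≠ B) (hA : A ∈ α.support) (hB : B ∈ α.support)
    (hcard : 3 * s ≤ α.support.card + 1)
    (hlow : ∀ u : σ →₀ ℕ, IsRow d s u → u ≤ α → u A = 0 → u B = 0 → False)
    {X Y : Multiset (σ →₀ ℕ)} (hX : Cfg d s 3 α X) (hY : Cfg d s 3 α Y)
    (hXA : ∃ u ∈ X, u A = α A) (hYB : ∃ u ∈ Y, u B = α B) : ¬ Linked d s X Y := by
  intro hlink
  rw [Finsupp.mem_support_iff] at hA hB
  have hP : ∃ u ∈ Y, u A = α A := by
    apply inv_of_linked (fun Z => ∃ u ∈ Z, u A = α A) _ hX hlink hXA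
    intro w b c b' c' hZ hZ' hP
    have x1 := heavy_xor hAB (Finsupp.mem_support_iff.2 hA) (Finsupp.mem_support_iff.2 hB)
      hcard hlow hZ
    have x2 := heavy_xor hAB (Finsupp.mem_support_iff.2 hA) (Finsupp.mem_support_iff.2 hB)
      hcard hlow hZ'
    have hw := x1 w (by simp)
    have hb := x1 b (by simp)
    have hc := x1 c (by simp)
    have hb' := x2 b' (by simp)
    have hc' := x2 c' (by simp)
    have s1 := hZ.sum
    have s2 := hZ'.sum
    rw [sum3] at s1 s2
    have s1A := DFunLike.congr_fun s1 A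
    have s1B := DFunLike.congr_fun s1 B
    have s2A := DFunLike.congr_fun s2 A
    have s2B := DFunLike.congr_fun s2 B
    simp only [Finsupp.add_apply] at s1A s1B s2A s2B
    obtain ⟨u, hu, huA⟩ := hP
    simp only [Multiset.mem_cons, Multiset.mem_singleton] at hu
    have h1 : w A = α A ∨ b' A = α A ∨ c' A = α A := by
      rcases hu with rfl | rfl | rfl <;> omega
    rcases h1 with h1 | h1 | h1
    · exact ⟨w, by simp, h1⟩
    · exact ⟨b', by simp, h1⟩
    · exact ⟨c', by simp, h1⟩
  obtain ⟨u, hu, huA⟩ := hP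
  obtain ⟨v, hv, hvB⟩ := hYB
  obtain ⟨a, b, c, rfl⟩ := Multiset.card_eq_three.1 hY.card
  have x1 := heavy_xor hAB (Finsupp.mem_support_iff.2 hA) (Finsupp.mem_support_iff.2 hB)
    hcard hlow (a := a) (b := b) (c := c) hY
  have ha := x1 a (by simp)
  have hb := x1 b (by simp)
  have hc := x1 c (by simp)
  have s1 := hY.sum
  have s1' : a + (b + c) = α := by
    rw [← sum3]; exact s1
  have s1A := DFunLike.congr_fun s1' A
  have s1B := DFunLike.congr_fun s1' B
  simp only [Finsupp.add_apply] at s1A s1B
  simp only [Multiset.insert_eq_cons, Multiset.mem_cons, Multiset.mem_singleton] at hu hv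
  rcases hu with rfl | rfl | rfl <;> rcases hv with rfl | rfl | rfl <;> omega

/-- Indicator of a finite set. -/
noncomputable def ind (S : Finset σ) : σ →₀ ℕ := ∑ i ∈ S, Finsupp.single i 1

lemma ind_apply (S : Finset σ) (x : σ) : ind S x = if x ∈ S then 1 else 0 := by
  rw [ind, Finsupp.finsetSum_apply]
  simp only [Finsupp.single_apply]
  rw [sum_ite_eq' S x (fun _ => 1)]

lemma degree_ind (S : Finset σ) : (ind S).degree = S.card := by
  rw [ind, map_sum]
  simp

lemma support_ind_le (S : Finset σ) (a : ℕ) : (a • ind S).support ⊆ S := by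
  intro x hx
  rw [Finsupp.mem_support_iff, Finsupp.smul_apply, ind_apply] at hx
  by_contra h
  simp [h] at hx

end Pool.Agent.Lib.MP_e26c3f_al
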