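import Mathlib
import Pool.Agent.Lib.MP_e26c3f_al.Neg

/-! The non-quadratic families with `n ≥ 3 s - 1`. -/

set_option autoImplicit false
set_option linter.unusedSectionVars false

namespace Pool.Agent.Lib.MP_e26c3f_al

open Finset

variable {K : Type*} [Field K]

/-- Choice of disjoint sets. -/
lemma exists_sets {n a b c e : ℕ} (h : 3 + a + b + c + e ≤ n) :
    ∃ (A B C : Fin n) (O1 O2 T1 T2 : Finset (Fin n)), A ≠ B ∧ A ≠ C ∧ B ≠ C ∧
      O1.card = a ∧ O2.card = b ∧ T1.card = c ∧ T2.card = e ∧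
      (∀ x ∈ O1, x ≠ A ∧ x ≠ B ∧ x ≠ C) ∧
      (∀ x ∈ O2, x ≠ A ∧ x ≠ B ∧ x ≠ C ∧ x ∉ O1) ∧
      (∀ x ∈ T1, x ≠ A ∧ x ≠ B ∧ x ≠ C ∧ x ∉ O1 ∧ x ∉ O2) ∧
      (∀ x ∈ T2, x ≠ A ∧ x ≠ B ∧ x ≠ C ∧ x ∉ O1 ∧ x ∉ O2 ∧ x ∉ T1) := by
  set A : Fin n := ⟨0, by omega⟩ with hA
  set B : Fin n := ⟨1, by omega⟩ with hB
  set C : Fin n := ⟨2, by omega⟩ with hC
  have hAB : A ≠ B := by rw [hA, hB, Ne, Fin.mk.injEq]; omega
  have hAC : A ≠ C := by rw [hA, hC, Ne, Fin.mk.injEq]; omega
  have hBC : B ≠ C := by rw [hB, hC, Ne, Fin.mk.injEq]; omega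
  set U : Finset (Fin n) := univ \ {A, B, C} with hU
  have hUc : U.card = n - 3 := by
    rw [hU, card_sdiff_of_subset (subset_univ _), card_univ, Fintype.card_fin,
      card_eq_three.2 ⟨A, B, C, hAB, hAC, hBC, rfl⟩]
  have hU' : ∀ x ∈ U, x ≠ A ∧ x ≠ B ∧ x ≠ C := by
    intro x hx
    rw [hU, mem_sdiff] at hx
    simpa [not_or] using hx.2
  obtain ⟨O1, h1, h1c⟩ := exists_subset_card_eq (show a ≤ U.card by omega)
  obtain ⟨O2, h2, h2c⟩ := exists_subset_card_eq (show b ≤ (U \ O1).card by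
    rw [card_sdiff_of_subset h1]; omega)
  obtain ⟨T1, h3, h3c⟩ := exists_subset_card_eq (show c ≤ ((U \ O1) \ O2).card by
    rw [card_sdiff_of_subset h2, card_sdiff_of_subset h1]; omega)
  obtain ⟨T2, h4, h4c⟩ := exists_subset_card_eq (show e ≤ (((U \ O1) \ O2) \ T1).card by
    rw [card_sdiff_of_subset h3, card_sdiff_of_subset h2, card_sdiff_of_subset h1]; omega)
  refine ⟨A, B, C, O1, O2, T1, T2, hAB, hAC, hBC, h1c, h2c, h3c, h4c, ?_, ?_, ?_, ?_⟩
  · exact fun x hx => hU' x (h1 hx)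
  · intro x hx
    have k1 := mem_sdiff.1 (h2 hx)
    obtain ⟨p, q, r⟩ := hU' x k1.1
    exact ⟨p, q, r, k1.2⟩
  · intro x hx
    have k2 := mem_sdiff.1 (h3 hx)
    have k1 := mem_sdiff.1 k2.1
    obtain ⟨p, q, r⟩ := hU' x k1.1
    exact ⟨p, q, r, k1.2, k2.2⟩
  · intro x hx
    have k3 := mem_sdiff.1 (h4 hx)
    have k2 := mem_sdiff.1 k3.1
    have k1 := mem_sdiff.1 k2.1
    obtain ⟨p, q, r⟩ := hU' x k1.1
    exact ⟨p, q, r, k1.2, k2.2, k3.2⟩

lemma supp_card_le {σ : Type*} [DecidableEq σ] {u : σ →₀ ℕ} {S : Finset σ} {m : ℕ}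
    (h : ∀ x, x ∉ S → u x = 0) (hS : S.card ≤ m) : u.support.card ≤ m := by
  refine (card_le_card ?_).trans hS
  intro x hx
  by_contra hxS
  rw [Finsupp.mem_support_iff] at hx
  exact hx (h x hxS)

theorem not_isQuadratic_heavy {n d s' τ t1 o2 : ℕ} (hτ : 1 ≤ τ) (h1 : o2 + t1 + 1 = s')
    (h2 : o2 + τ * t1 = s' + 1) (h3 : τ * (s' + 1) < d) (hn : 3 * s' + 2 ≤ n) :
    ¬ IsQuadratic K n d (s' + 1) := by
  obtain ⟨A, B, C, O1, O2, T1, T2, hAB, hAC, hBC, c1, c2, c3, c4, m1, m2, m3, m4⟩ :=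
    exists_sets (n := n) (a := s') (b := o2) (c := t1) (e := s') (by omega)
  have e3 : τ * (s' + 1) = τ * s' + τ := by ring
  have e4 : s' ≤ τ * s' := Nat.le_mul_of_pos_left _ hτ
  obtain ⟨m, hm⟩ : ∃ m, m + 1 + τ * s' = d := ⟨d - (1 + τ * s'), by omega⟩
  obtain ⟨b1, hb1⟩ : ∃ b1, b1 + s' = τ * s' := ⟨τ * s' - s', by omega⟩
  obtain ⟨b2, hb2⟩ : ∃ b2, b2 + τ * s' = d := ⟨d - τ * s', by omega⟩
  obtain ⟨h, hh⟩ : ∃ h, h + s' = d := ⟨d - s', by omega⟩
  have hbh : b1 + b2 = h := by omega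
  have hm0 : 0 < m := by omega
  have hh0 : 0 < h := by omega
  -- rows
  let r1 : Fin n → (Fin n →₀ ℕ) := fun a => Finsupp.single a h + ind O1
  let r2 : Fin n → (Fin n →₀ ℕ) := fun a =>
    Finsupp.single a b1 + (Finsupp.single C m + (ind O2 + τ • ind T1))
  let r3 : Fin n → (Fin n →₀ ℕ) := fun a => Finsupp.single a b2 + τ • ind T2
  have hr1 : ∀ a, IsRow d (s' + 1) (r1 a) := by
    intro a
    refine ⟨?_, ?_⟩
    · simp only [r1, map_add, Finsupp.degree_single, degree_ind, c1, hh]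
    · apply supp_card_le (S := insert a O1)
      · intro x hx
        rw [mem_insert, not_or] at hx
        simp only [r1, Finsupp.add_apply, Finsupp.single_apply, ind_apply]
        rw [if_neg (Ne.symm hx.1), if_neg hx.2]
      · refine (card_insert_le _ _).trans ?_
        omega
  have hr2 : ∀ a, IsRow d (s' + 1) (r2 a) := by
    intro a
    refine ⟨?_, ?_⟩
    · simp only [r2, map_add, map_nsmul, Finsupp.degree_single, degree_ind, c2, c3, smul_eq_mul]
      omega
    · apply supp_card_le (S := insert a (insert C (O2 ∪ T1)))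
      · intro x hx
        rw [mem_insert, mem_insert, mem_union, not_or, not_or, not_or] at hx
        simp only [r2, Finsupp.add_apply, Finsupp.single_apply, Finsupp.smul_apply, ind_apply]
        rw [if_neg (Ne.symm hx.1), if_neg (Ne.symm hx.2.1), if_neg hx.2.2.1, if_neg hx.2.2.2]
        simp
      · refine (card_insert_le _ _).trans ?_
        have k1 := card_insert_le C (O2 ∪ T1)
        have k2 := card_union_le O2 T1
        omega
  have hr3 : ∀ a, IsRow d (s' + 1) (r3 a) := by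
    intro a
    refine ⟨?_, ?_⟩
    · simp only [r3, map_add, map_nsmul, Finsupp.degree_single, degree_ind, c4, smul_eq_mul, hb2]
    · apply supp_card_le (S := insert a T2)
      · intro x hx
        rw [mem_insert, not_or] at hx
        simp only [r3, Finsupp.add_apply, Finsupp.single_apply, Finsupp.smul_apply, ind_apply]
        rw [if_neg (Ne.symm hx.1), if_neg hx.2]
        simp
      · refine (card_insert_le _ _).trans ?_
        omega
  obtain ⟨α, hα⟩ : ∃ α : Fin n →₀ ℕ, α = Finsupp.single A h + (Finsupp.single B h +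
      (Finsupp.single C m + (ind O1 + (ind O2 + (τ • ind T1 + τ • ind T2))))) := ⟨_, rfl⟩
  have hsingle : ∀ a : Fin n, (Finsupp.single a h : Fin n →₀ ℕ) =
      Finsupp.single a b1 + Finsupp.single a b2 := by
    intro a
    rw [← Finsupp.single_add, hbh]
  have hX : Cfg d (s' + 1) 3 α (r1 A ::ₘ r2 B ::ₘ {r3 B}) := by
    refine ⟨?_, by simp, ?_⟩
    · intro u hu
      simp only [Multiset.mem_cons, Multiset.mem_singleton] at hu
      rcases hu with rfl | rfl | rfl
      · exact hr1 A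
      · exact hr2 B
      · exact hr3 B
    · rw [sum3, hα, hsingle B]
      simp only [r1, r2, r3]
      abel
  have hY : Cfg d (s' + 1) 3 α (r1 B ::ₘ r2 A ::ₘ {r3 A}) := by
    refine ⟨?_, by simp, ?_⟩
    · intro u hu
      simp only [Multiset.mem_cons, Multiset.mem_singleton] at hu
      rcases hu with rfl | rfl | rfl
      · exact hr1 B
      · exact hr2 A
      · exact hr3 A
    · rw [sum3, hα, hsingle A]
      simp only [r1, r2, r3]
      abel
  -- values of α
  have val : ∀ x, α x = (if A = x then h else 0) + ((if B = x then h else 0) +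
      ((if C = x then m else 0) + ((if x ∈ O1 then 1 else 0) + ((if x ∈ O2 then 1 else 0) +
      (τ * (if x ∈ T1 then 1 else 0) + τ * (if x ∈ T2 then 1 else 0)))))) := by
    intro x
    rw [hα]
    simp only [Finsupp.add_apply, Finsupp.single_apply, Finsupp.smul_apply, ind_apply,
      smul_eq_mul]
  have hO1x : ∀ x ∈ O1, A ≠ x ∧ B ≠ x ∧ C ≠ x := fun x hx =>
    ⟨(m1 x hx).1.symm, (m1 x hx).2.1.symm, (m1 x hx).2.2.symm⟩
  have hcase : ∀ x, x ≠ A → x ≠ B → x ≠ C → α x ≤ τ := by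
    intro x hxA hxB hxC
    rw [val, if_neg hxA.symm, if_neg hxB.symm, if_neg hxC.symm]
    by_cases k1 : x ∈ O1
    · have k2 : x ∉ O2 := fun hx => (m2 x hx).2.2.2 k1
      have k3 : x ∉ T1 := fun hx => (m3 x hx).2.2.2.1 k1
      have k4 : x ∉ T2 := fun hx => (m4 x hx).2.2.2.1 k1
      simp [k1, k2, k3, k4, hτ]
    · by_cases k2 : x ∈ O2
      · have k3 : x ∉ T1 := fun hx => (m3 x hx).2.2.2.2 k2
        have k4 : x ∉ T2 := fun hx => (m4 x hx).2.2.2.2.1 k2
        simp [k1, k2, k3, k4, hτ]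
      · by_cases k3 : x ∈ T1
        · have k4 : x ∉ T2 := fun hx => (m4 x hx).2.2.2.2.2 k3
          simp [k1, k2, k3, k4]
        · by_cases k4 : x ∈ T2
          · simp [k1, k2, k3, k4]
          · simp [k1, k2, k3, k4]
  have hAO1 : A ∉ O1 := fun hx => (m1 A hx).1 rfl
  have hAO2 : A ∉ O2 := fun hx => (m2 A hx).1 rfl
  have hAT1 : A ∉ T1 := fun hx => (m3 A hx).1 rfl
  have hAT2 : A ∉ T2 := fun hx => (m4 A hx).1 rfl
  have hBO1 : B ∉ O1 := fun hx => (m1 B hx).2.1 rfl
  have hBO2 : B ∉ O2 := fun hx => (m2 B hx).2.1 rfl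
  have hBT1 : B ∉ T1 := fun hx => (m3 B hx).2.1 rfl
  have hBT2 : B ∉ T2 := fun hx => (m4 B hx).2.1 rfl
  have hCO1 : C ∉ O1 := fun hx => (m1 C hx).2.2 rfl
  have hCO2 : C ∉ O2 := fun hx => (m2 C hx).2.2.1 rfl
  have hCT1 : C ∉ T1 := fun hx => (m3 C hx).2.2.1 rfl
  have hCT2 : C ∉ T2 := fun hx => (m4 C hx).2.2.1 rfl
  have hαA : α A = h := by
    rw [val]; simp [hAB.symm, hAC.symm, hAO1, hAO2, hAT1, hAT2]
  have hαB : α B = h := by
    rw [val]; simp [hAB, hBC.symm, hBO1, hBO2, hBT1, hBT2]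
  have hαC : α C = m := by
    rw [val]; simp [hAC, hBC, hCO1, hCO2, hCT1, hCT2]
  have hAs : A ∈ α.support := by rw [Finsupp.mem_support_iff]; omega
  have hBs : B ∈ α.support := by rw [Finsupp.mem_support_iff]; omega
  have hCs : C ∈ α.support := by rw [Finsupp.mem_support_iff]; omega
  have hcard : 3 * (s' + 1) ≤ α.support.card + 1 := by
    have hd1 : Disjoint T1 T2 := by
      rw [disjoint_left]; exact fun x hx hx' => (m4 x hx').2.2.2.2.2 hx
    have hd2 : Disjoint O2 (T1 ∪ T2) := by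
      rw [disjoint_left]
      intro x hx hx'
      rcases mem_union.1 hx' with hx' | hx'
      · exact (m3 x hx').2.2.2.2 hx
      · exact (m4 x hx').2.2.2.2.1 hx
    have hd3 : Disjoint O1 (O2 ∪ (T1 ∪ T2)) := by
      rw [disjoint_left]
      intro x hx hx'
      rcases mem_union.1 hx' with hx' | hx'
      · exact (m2 x hx').2.2.2 hx
      rcases mem_union.1 hx' with hx' | hx'
      · exact (m3 x hx').2.2.2.1 hx
      · exact (m4 x hx').2.2.2.1 hx
    have hn1 : C ∉ O1 ∪ (O2 ∪ (T1 ∪ T2)) := by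
      simp only [mem_union, not_or]; exact ⟨hCO1, hCO2, hCT1, hCT2⟩
    have hn2 : B ∉ insert C (O1 ∪ (O2 ∪ (T1 ∪ T2))) := by
      simp only [mem_insert, mem_union, not_or]; exact ⟨hBC, hBO1, hBO2, hBT1, hBT2⟩
    have hn3 : A ∉ insert B (insert C (O1 ∪ (O2 ∪ (T1 ∪ T2)))) := by
      simp only [mem_insert, mem_union, not_or]; exact ⟨hAB, hAC, hAO1, hAO2, hAT1, hAT2⟩
    have hsub : insert A (insert B (insert C (O1 ∪ (O2 ∪ (T1 ∪ T2))))) ⊆ α.support := by
      intro x hx
      rcases mem_insert.1 hx with rfl | hx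
      · exact hAs
      rcases mem_insert.1 hx with rfl | hx
      · exact hBs
      rcases mem_insert.1 hx with rfl | hx
      · exact hCs
      rw [Finsupp.mem_support_iff, val]
      rcases mem_union.1 hx with hx | hx
      · rw [if_pos hx]; omega
      rcases mem_union.1 hx with hx | hx
      · rw [if_pos hx]; omega
      rcases mem_union.1 hx with hx | hx
      · rw [if_pos hx]; omega
      · rw [if_pos hx]; omega
    have := card_le_card hsub
    rw [card_insert_of_notMem hn3, card_insert_of_notMem hn2, card_insert_of_notMem hn1,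
      card_union_of_disjoint hd3, card_union_of_disjoint hd2, card_union_of_disjoint hd1,
      c1, c2, c3, c4] at this
    omega
  have hlow : ∀ u : Fin n →₀ ℕ, IsRow d (s' + 1) u → u ≤ α → u A = 0 → u B = 0 → False := by
    intro u hu hle hA hB
    have hdeg := hu.1
    have hsc := hu.2
    rw [Finsupp.degree_apply] at hdeg
    have hAu : A ∉ u.support := by rw [Finsupp.notMem_support_iff]; exact hA
    have hBu : B ∉ u.support := by rw [Finsupp.notMem_support_iff]; exact hB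
    by_cases hC : C ∈ u.support
    · rw [← add_sum_erase _ _ hC] at hdeg
      have k1 : ∑ x ∈ u.support.erase C, u x ≤ (u.support.erase C).card * τ := by
        apply sum_le_card_nsmul
        intro x hx
        rw [mem_erase] at hx
        refine (hle x).trans (hcase x ?_ ?_ hx.1)
        · rintro rfl; exact hAu hx.2
        · rintro rfl; exact hBu hx.2
      have k2 := hle C
      rw [card_erase_of_mem hC] at k1
      have k3 : (u.support.card - 1) * τ ≤ s' * τ := Nat.mul_le_mul_right _ (by omega)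
      have k4 : s' * τ = τ * s' := mul_comm _ _
      omega
    · have k1 : ∑ x ∈ u.support, u x ≤ u.support.card * τ := by
        apply sum_le_card_nsmul
        intro x hx
        refine (hle x).trans (hcase x ?_ ?_ ?_)
        · rintro rfl; exact hAu hx
        · rintro rfl; exact hBu hx
        · rintro rfl; exact hC hx
      have k3 : u.support.card * τ ≤ (s' + 1) * τ := Nat.mul_le_mul_right _ hsc
      have k4 : (s' + 1) * τ = τ * (s' + 1) := mul_comm _ _
      omega
  refine not_isQuadratic_of_not_linked hX.row hY.row (hX.sum.trans hY.sum.symm) ?_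
  apply heavy_not_linked hAB hAs hBs hcard hlow hX hY
  · refine ⟨r1 A, by simp, ?_⟩
    simp [r1, Finsupp.add_apply, ind_apply, hAO1, hαA]
  · refine ⟨r1 B, by simp, ?_⟩
    simp [r1, Finsupp.add_apply, ind_apply, hBO1, hαB]

/-- `s ≥ 4`, `n ≥ 3 s - 1`, `d ≥ 2 s + 1`. -/
theorem neg_four {n d s : ℕ} (hs : 4 ≤ s) (hn : 3 * s ≤ n + 1) (hd : 2 * s + 1 ≤ d) :
    ¬ IsQuadratic K n d s := by
  obtain ⟨s', rfl⟩ : ∃ s', s = s' + 1 := ⟨s - 1, by omega⟩
  exact not_isQuadratic_heavy (τ := 2) (t1 := 2) (o2 := s' - 3) (by omega) (by omega) (by omega)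
    (by omega) (by omega)

/-- `s = 3`, `n ≥ 8`, `d ≥ 10`. -/
theorem neg_three {n d : ℕ} (hn : 8 ≤ n) (hd : 10 ≤ d) : ¬ IsQuadratic K n d 3 :=
  not_isQuadratic_heavy (s' := 2) (τ := 3) (t1 := 1) (o2 := 0) (by omega) (by omega) (by omega)
    (by omega) (by omega)

end Pool.Agent.Lib.MP_e26c3f_al
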