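import Mathlib
import Pool.Agent.Lib.MP_e26c3f_al.Neg
import Pool.Agent.Lib.MP_e26c3f_al.Full

/-! `PV(n,9,3)` is not quadratic for `n ≥ 9`. -/

set_option autoImplicit false
set_option linter.unusedSectionVars false

namespace Pool.Agent.Lib.MP_e26c3f_al

open Finset

variable {K : Type*} [Field K]

/-- Abstract form of the example. -/
lemma nine_inv {σ : Type*} [DecidableEq σ] {α : σ →₀ ℕ} (hc : α.support.card = 3 * 3)
    {p o : σ} {Q R S : Finset σ} (hp : α p = 5) (ho : α o = 1) (hQ : Q.card = 2) (hR : R.card = 3)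
    (hS : S.card = 2) (mQ : ∀ v, α v = 4 → v ∈ Q) (mS : ∀ v, α v = 2 → v ∈ S)
    (mR : ∀ v, α v = 3 ↔ v ∈ R) (mp : ∀ v, 5 ≤ α v → v = p) (mo : ∀ v, α v = 1 → v = o)
    {w b c b' c' : σ →₀ ℕ} (hZ : Cfg 9 3 3 α (w ::ₘ b ::ₘ {c}))
    (hZ' : Cfg 9 3 3 α (w ::ₘ b' ::ₘ {c'}))
    (hP : ∃ u ∈ (w ::ₘ b ::ₘ ({c} : Multiset (σ →₀ ℕ))), u o ≠ 0 ∧ u p = 0) :
    ∃ u ∈ (w ::ₘ b' ::ₘ ({c'} : Multiset (σ →₀ ℕ))), u o ≠ 0 ∧ u p = 0 := by
  obtain ⟨f1, dwb, dwc, dbc⟩ := closed3 hc hZ
  obtain ⟨f2, dwb', dwc', dbc'⟩ := closed3 hc hZ'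
  have hpo : p ≠ o := by rintro rfl; omega
  -- rows by type
  have rowsum : ∀ x : σ →₀ ℕ, IsRow 9 3 x → (∀ v ∈ x.support, x v = α v) →
      ∑ v ∈ x.support, α v = 9 := by
    intro x hx hv
    rw [← hx.1, Finsupp.degree_apply]
    exact sum_congr rfl fun v h => (hv v h).symm
  have pos : ∀ x : σ →₀ ℕ, (∀ v ∈ x.support, x v = α v) → ∀ v ∈ x.support, 1 ≤ α v := by
    intro x hv v h
    rw [← hv v h]
    rw [Finsupp.mem_support_iff] at h
    omega
  have typeO : ∀ x : σ →₀ ℕ, IsRow 9 3 x → x.support.card = 3 → (∀ v ∈ x.support, x v = α v) →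
      x o ≠ 0 → x p = 0 → Q ⊆ x.support := by
    intro x hx hcx hv hxo hxp
    have hom : o ∈ x.support := by rwa [Finsupp.mem_support_iff]
    have h1 := rowsum x hx hv
    rw [← add_sum_erase _ _ hom, ho] at h1
    have h2 : ∀ v ∈ x.support.erase o, α v ≤ 4 := by
      intro v hv'
      by_contra hcon
      have := mp v (by omega)
      subst this
      rw [mem_erase, Finsupp.mem_support_iff] at hv'
      exact hv'.2 hxp
    have hce : (x.support.erase o).card = 2 := by rw [card_erase_of_mem hom]; omega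
    have h3 : ∀ v ∈ x.support.erase o, α v = 4 := by
      by_contra hcon
      push Not at hcon
      obtain ⟨v, hv1, hv2⟩ := hcon
      have h4 : ∑ v ∈ x.support.erase o, α v < ∑ _v ∈ x.support.erase o, 4 :=
        sum_lt_sum h2 ⟨v, hv1, lt_of_le_of_ne (h2 v hv1) hv2⟩
      rw [sum_const, hce, smul_eq_mul] at h4
      omega
    have h4 : x.support.erase o ⊆ Q := fun v hv' => mQ v (h3 v hv')
    have h5 := eq_of_subset_of_card_le h4 (by rw [hQ, hce])
    rw [← h5]
    exact erase_subset _ _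
  have typeP : ∀ x : σ →₀ ℕ, IsRow 9 3 x → x.support.card = 3 → (∀ v ∈ x.support, x v = α v) →
      x p ≠ 0 → x o = 0 → S ⊆ x.support := by
    intro x hx hcx hv hxp hxo
    have hpm : p ∈ x.support := by rwa [Finsupp.mem_support_iff]
    have h1 := rowsum x hx hv
    rw [← add_sum_erase _ _ hpm, hp] at h1
    have h2 : ∀ v ∈ x.support.erase p, 2 ≤ α v := by
      intro v hv'
      have h3 := pos x hv v (mem_of_mem_erase hv')
      by_contra hcon
      have := mo v (by omega)
      subst this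
      rw [mem_erase, Finsupp.mem_support_iff] at hv'
      exact hv'.2 hxo
    have hce : (x.support.erase p).card = 2 := by rw [card_erase_of_mem hpm]; omega
    have h3 : ∀ v ∈ x.support.erase p, α v = 2 := by
      by_contra hcon
      push Not at hcon
      obtain ⟨v, hv1, hv2⟩ := hcon
      have h4 : ∑ _v ∈ x.support.erase p, 2 < ∑ v ∈ x.support.erase p, α v :=
        sum_lt_sum h2 ⟨v, hv1, lt_of_le_of_ne (h2 v hv1) (Ne.symm hv2)⟩
      rw [sum_const, hce, smul_eq_mul] at h4
      omega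
    have h4 : x.support.erase p ⊆ S := fun v hv' => mS v (h3 v hv')
    have h5 := eq_of_subset_of_card_le h4 (by rw [hS, hce])
    rw [← h5]
    exact erase_subset _ _
  have typePO : ∀ x : σ →₀ ℕ, IsRow 9 3 x → x.support.card = 3 → (∀ v ∈ x.support, x v = α v) →
      x p ≠ 0 → x o ≠ 0 → ∃ v ∈ x.support, α v = 3 := by
    intro x hx hcx hv hxp hxo
    have hpm : p ∈ x.support := by rwa [Finsupp.mem_support_iff]
    have hom : o ∈ x.support.erase p := by
      rw [mem_erase, Finsupp.mem_support_iff]; exact ⟨hpo.symm, hxo⟩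
    have h1 := rowsum x hx hv
    rw [← add_sum_erase _ _ hpm, ← add_sum_erase _ _ hom, hp, ho] at h1
    have hce : ((x.support.erase p).erase o).card = 1 := by
      rw [card_erase_of_mem hom, card_erase_of_mem hpm]; omega
    obtain ⟨v, hv'⟩ := card_eq_one.1 hce
    rw [hv', sum_singleton] at h1
    refine ⟨v, ?_, by omega⟩
    have : v ∈ (x.support.erase p).erase o := by rw [hv']; simp
    exact mem_of_mem_erase (mem_of_mem_erase this)
  -- the situation in the second configuration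
  have val' : ∀ v, α v = w v + (b' v + c' v) := fun v => by
    have := hZ'.sum
    rw [sum3] at this
    rw [← this]; rfl
  have val : ∀ v, α v = w v + (b v + c v) := fun v => by
    have := hZ.sum
    rw [sum3] at this
    rw [← this]; rfl
  have fw := f1 w (by simp)
  have finP : w p ≠ 0 → w o = 0 →
      ∃ u ∈ (w ::ₘ b' ::ₘ ({c'} : Multiset (σ →₀ ℕ))), u o ≠ 0 ∧ u p = 0 := by
    intro h1 h2
    have hwp : w p = 5 := by
      rw [← hp]; exact fw.2 p (by rwa [Finsupp.mem_support_iff])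
    have k1 := val' o
    have k2 := val' p
    rw [ho] at k1
    rw [hp] at k2
    by_cases h3 : b' o ≠ 0
    · exact ⟨b', by simp, h3, by omega⟩
    · exact ⟨c', by simp, by omega, by omega⟩
  have finR : w p = 0 → w o = 0 → Disjoint w.support Q → Disjoint w.support S →
      ∃ u ∈ (w ::ₘ b' ::ₘ ({c'} : Multiset (σ →₀ ℕ))), u o ≠ 0 ∧ u p = 0 := by
    intro h1 h2 h3 h4
    have hwR : w.support ⊆ R := by
      intro v hv
      rw [← mR]
      have k1 := pos w fw.2 v hv
      have k2 : α v ≠ 1 := fun h => by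
        have := mo v h
        subst this
        rw [Finsupp.mem_support_iff] at hv; exact hv h2
      have k3 : α v ≠ 2 := fun h => disjoint_left.1 h4 hv (mS v h)
      have k4 : α v ≠ 4 := fun h => disjoint_left.1 h3 hv (mQ v h)
      have k5 : ¬ 5 ≤ α v := fun h => by
        have := mp v h
        subst this
        rw [Finsupp.mem_support_iff] at hv; exact hv h1
      omega
    have hwR' : w.support = R := eq_of_subset_of_card_le hwR (by rw [hR, fw.1])
    have key : ∀ x ∈ (w ::ₘ b' ::ₘ ({c'} : Multiset (σ →₀ ℕ))), Disjoint w.support x.support →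
        x o ≠ 0 → x p = 0 := by
      intro x hx hdx hxo
      by_contra hxp
      obtain ⟨v, hv, hv3⟩ := typePO x (hZ'.row x hx) (f2 x hx).1 (f2 x hx).2 hxp hxo
      rw [mR, ← hwR'] at hv3
      exact disjoint_left.1 hdx hv3 hv
    have k1 := val' o
    rw [ho] at k1
    by_cases h5 : b' o ≠ 0
    · exact ⟨b', by simp, h5, key b' (by simp) dwb' h5⟩
    · have h6 : c' o ≠ 0 := by omega
      exact ⟨c', by simp, h6, key c' (by simp) dwc' h6⟩
  obtain ⟨u, hu, huo, hup⟩ := hP
  simp only [Multiset.mem_cons, Multiset.mem_singleton] at hu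
  have ko := val o
  have kp := val p
  rw [ho] at ko
  rw [hp] at kp
  -- the general argument for `u ≠ w`
  have gen : ∀ u t : σ →₀ ℕ, u ∈ (w ::ₘ b ::ₘ ({c} : Multiset (σ →₀ ℕ))) →
      t ∈ (w ::ₘ b ::ₘ ({c} : Multiset (σ →₀ ℕ))) → Disjoint w.support u.support →
      Disjoint w.support t.support → u o ≠ 0 → u p = 0 → w o = 0 → t o = 0 →
      w p + t p = 5 → ∃ u ∈ (w ::ₘ b' ::ₘ ({c'} : Multiset (σ →₀ ℕ))), u o ≠ 0 ∧ u p = 0 := by
    intro u t hu ht hdu hdt huo hup hwo hto hpt
    by_cases h1 : w p = 0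
    · have hQu := typeO u (hZ.row u hu) (f1 u hu).1 (f1 u hu).2 huo hup
      have hSt := typeP t (hZ.row t ht) (f1 t ht).1 (f1 t ht).2 (by omega) hto
      exact finR h1 hwo (disjoint_of_subset_right hQu hdu) (disjoint_of_subset_right hSt hdt)
    · exact finP h1 hwo
  rcases hu with rfl | rfl | rfl
  · exact ⟨u, by simp, huo, hup⟩
  · exact gen u c (by simp) (by simp) dwb dwc huo hup (by omega) (by omega) (by omega)
  · exact gen u b (by simp) (by simp) dwc dwb huo hup (by omega) (by omega) (by omega)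

/-- Lift of a function on the natural numbers. -/
noncomputable def lift (n : ℕ) (f : ℕ → ℕ) : Fin n →₀ ℕ :=
  Finsupp.equivFunOnFinite.symm fun i => f i.val

lemma lift_apply (n : ℕ) (f : ℕ → ℕ) (i : Fin n) : lift n f i = f i.val := rfl

lemma degree_lift {n : ℕ} (hn : 9 ≤ n) (f : ℕ → ℕ) (hf : ∀ i, 9 ≤ i → f i = 0) :
    (lift n f).degree = ∑ i ∈ range 9, f i := by
  rw [Finsupp.degree_eq_sum]
  simp only [lift_apply]
  rw [Fin.sum_univ_eq_sum_range (fun i => f i) n]
  symm
  apply sum_subset (range_mono hn)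
  intro i _ hi
  exact hf i (by simpa using hi)

lemma card_support_lift {n : ℕ} (hn : 9 ≤ n) (f : ℕ → ℕ) (hf : ∀ i, 9 ≤ i → f i = 0) :
    (lift n f).support.card = ((range 9).filter fun i => f i ≠ 0).card := by
  rw [← card_map Fin.valEmbedding]
  congr 1
  ext i
  simp only [mem_map, Finsupp.mem_support_iff, lift_apply, Fin.valEmbedding_apply, mem_filter,
    mem_range]
  constructor
  · rintro ⟨j, hj, rfl⟩
    refine ⟨?_, hj⟩
    by_contra h
    exact hj (hf _ (by omega))
  · rintro ⟨h1, h2⟩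
    exact ⟨⟨i, by omega⟩, h2, rfl⟩

lemma isRow_lift {n : ℕ} (hn : 9 ≤ n) (f : ℕ → ℕ) (hf : ∀ i, 9 ≤ i → f i = 0)
    (h1 : ∑ i ∈ range 9, f i = 9) (h2 : ((range 9).filter fun i => f i ≠ 0).card ≤ 3) :
    IsRow 9 3 (lift n f) := by
  refine ⟨?_, ?_⟩
  · rw [degree_lift hn f hf, h1]
  · rw [card_support_lift hn f hf]; exact h2

lemma lift_add3 (n : ℕ) (f g h k : ℕ → ℕ) (hk : ∀ i, f i + (g i + h i) = k i) :
    lift n f + (lift n g + lift n h) = lift n k := by
  ext i
  simp only [Finsupp.add_apply, lift_apply, hk]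

def lf (l : List ℕ) : ℕ → ℕ := fun i => l.getD i 0

lemma lf_zero {l : List ℕ} (hl : l.length = 9) : ∀ i, 9 ≤ i → lf l i = 0 := by
  intro i hi
  simp [lf, hl, hi]

lemma lf_add3 {l1 l2 l3 l4 : List ℕ} (h1 : l1.length = 9) (h2 : l2.length = 9)
    (h3 : l3.length = 9) (h4 : l4.length = 9)
    (h : ∀ i ∈ range 9, lf l1 i + (lf l2 i + lf l3 i) = lf l4 i) :
    ∀ i, lf l1 i + (lf l2 i + lf l3 i) = lf l4 i := by
  intro i
  by_cases hi : i < 9
  · exact h i (by simpa using hi)
  · push Not at hi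
    rw [lf_zero h1 i hi, lf_zero h2 i hi, lf_zero h3 i hi, lf_zero h4 i hi]

/-- `s = 3`, `n ≥ 9`, `d = 9`. -/
theorem neg_nine {n : ℕ} (hn : 9 ≤ n) : ¬ IsQuadratic K n 9 3 := by
  set α : Fin n →₀ ℕ := lift n (lf [5, 4, 4, 3, 3, 3, 2, 2, 1]) with hα
  have hrow : ∀ l : List ℕ, l.length = 9 → ∑ i ∈ range 9, lf l i = 9 →
      ((range 9).filter fun i => lf l i ≠ 0).card ≤ 3 → IsRow 9 3 (lift n (lf l)) :=
    fun l h1 h2 h3 => isRow_lift hn _ (lf_zero h1) h2 h3
  have hX : Cfg 9 3 3 α (lift n (lf [0, 4, 4, 0, 0, 0, 0, 0, 1]) ::ₘ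
      lift n (lf [5, 0, 0, 0, 0, 0, 2, 2, 0]) ::ₘ
      {lift n (lf [0, 0, 0, 3, 3, 3, 0, 0, 0])}) := by
    refine ⟨?_, by simp, ?_⟩
    · intro u hu
      simp only [Multiset.mem_cons, Multiset.mem_singleton] at hu
      rcases hu with rfl | rfl | rfl
      · exact hrow _ rfl (by decide) (by decide)
      · exact hrow _ rfl (by decide) (by decide)
      · exact hrow _ rfl (by decide) (by decide)
    · rw [sum3]
      exact lift_add3 n _ _ _ _ (lf_add3 rfl rfl rfl rfl (by decide))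
  have hY : Cfg 9 3 3 α (lift n (lf [5, 0, 0, 3, 0, 0, 0, 0, 1]) ::ₘ
      lift n (lf [0, 4, 0, 0, 3, 0, 2, 0, 0]) ::ₘ
      {lift n (lf [0, 0, 4, 0, 0, 3, 0, 2, 0])}) := by
    refine ⟨?_, by simp, ?_⟩
    · intro u hu
      simp only [Multiset.mem_cons, Multiset.mem_singleton] at hu
      rcases hu with rfl | rfl | rfl
      · exact hrow _ rfl (by decide) (by decide)
      · exact hrow _ rfl (by decide) (by decide)
      · exact hrow _ rfl (by decide) (by decide)
    · rw [sum3]
      exact lift_add3 n _ _ _ _ (lf_add3 rfl rfl rfl rfl (by decide))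
  set p : Fin n := ⟨0, by omega⟩ with hp
  set o : Fin n := ⟨8, by omega⟩ with ho
  have lp : ∀ l, lift n (lf l) p = lf l 0 := fun l => rfl
  have lo : ∀ l, lift n (lf l) o = lf l 8 := fun l => rfl
  refine not_isQuadratic_of_not_linked hX.row hY.row (hX.sum.trans hY.sum.symm) ?_
  intro hlink
  have hinv := inv_of_linked (fun Z => ∃ u ∈ Z, u o ≠ 0 ∧ u p = 0) ?_ hX hlink
    ⟨_, Multiset.mem_cons_self _ _, by rw [lo]; decide, by rw [lp]; decide⟩
  · obtain ⟨u, hu, huo, hup⟩ := hinv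
    simp only [Multiset.mem_cons, Multiset.mem_singleton] at hu
    rcases hu with rfl | rfl | rfl
    · rw [lp] at hup; revert hup; decide
    · rw [lo] at huo; revert huo; decide
    · rw [lo] at huo; revert huo; decide
  · intro w b c b' c' hZ hZ' hP
    have hsc : α.support.card = 3 * 3 := by
      rw [hα, card_support_lift hn _ (lf_zero rfl)]
      decide
    have cases9 : ∀ v : Fin n, α v = lf [5, 4, 4, 3, 3, 3, 2, 2, 1] v.val := fun v => rfl
    have small : ∀ v : Fin n, 9 ≤ v.val ∨ v.val = 0 ∨ v.val = 1 ∨ v.val = 2 ∨ v.val = 3 ∨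
        v.val = 4 ∨ v.val = 5 ∨ v.val = 6 ∨ v.val = 7 ∨ v.val = 8 := fun v => by omega
    have vals : ∀ v : Fin n, (9 ≤ v.val ∧ α v = 0) ∨ (v.val = 0 ∧ α v = 5) ∨
        (v.val = 1 ∧ α v = 4) ∨ (v.val = 2 ∧ α v = 4) ∨ (v.val = 3 ∧ α v = 3) ∨
        (v.val = 4 ∧ α v = 3) ∨ (v.val = 5 ∧ α v = 3) ∨ (v.val = 6 ∧ α v = 2) ∨
        (v.val = 7 ∧ α v = 2) ∨ (v.val = 8 ∧ α v = 1) := by
      intro v
      rw [cases9]
      rcases small v with h | h | h | h | h | h | h | h | h | h
      · left; exact ⟨h, lf_zero rfl _ h⟩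
      all_goals rw [h]; decide
    have e : ∀ i (hi : i < 9) (v : Fin n), v.val = i ↔ v = ⟨i, by omega⟩ := by
      intro i hi v; rw [Fin.ext_iff]
    have ne : ∀ i j (hi : i < 9) (hj : j < 9), i ≠ j → (⟨i, by omega⟩ : Fin n) ≠ ⟨j, by omega⟩ := by
      intro i j hi hj hij h
      rw [Fin.mk.injEq] at h
      exact hij h
    exact nine_inv hsc (p := p) (o := o) (Q := {⟨1, by omega⟩, ⟨2, by omega⟩})
      (R := {⟨3, by omega⟩, ⟨4, by omega⟩, ⟨5, by omega⟩}) (S := {⟨6, by omega⟩, ⟨7, by omega⟩})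
      rfl rfl (card_pair (ne 1 2 (by omega) (by omega) (by omega)))
      (card_eq_three.2 ⟨_, _, _, ne 3 4 (by omega) (by omega) (by omega),
        ne 3 5 (by omega) (by omega) (by omega), ne 4 5 (by omega) (by omega) (by omega), rfl⟩)
      (card_pair (ne 6 7 (by omega) (by omega) (by omega)))
      (by
        intro v hv
        rw [mem_insert, mem_singleton, ← e 1 (by omega), ← e 2 (by omega)]
        have := vals v
        omega)
      (by
        intro v hv
        rw [mem_insert, mem_singleton, ← e 6 (by omega), ← e 7 (by omega)]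
        have := vals v
        omega)
      (by
        intro v
        rw [mem_insert, mem_insert, mem_singleton, ← e 3 (by omega), ← e 4 (by omega),
          ← e 5 (by omega)]
        have := vals v
        omega)
      (by
        intro v hv
        rw [hp, ← e 0 (by omega)]
        have := vals v
        omega)
      (by
        intro v hv
        rw [ho, ← e 8 (by omega)]
        have := vals v
        omega)
      hZ hZ' hP

end Pool.Agent.Lib.MP_e26c3f_al
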