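import Mathlib
import Pool.Agent.Lib.MP_e26c3f_al.Neg

/-! The non-quadratic family `s = 2`, `n ≥ 4`, `d ≥ 5`. -/

set_option autoImplicit false
set_option linter.unusedSectionVars false

namespace Pool.Agent.Lib.MP_e26c3f_al

open Finset

variable {K : Type*} [Field K]

/-- Rows on four variables. -/
lemma row4 {σ : Type*} [DecidableEq σ] {A B C F : σ} (hAB : A ≠ B) (hAC : A ≠ C) (hAF : A ≠ F)
    (hBC : B ≠ C) (hBF : B ≠ F) (hCF : C ≠ F) {d : ℕ} {x : σ →₀ ℕ} (hx : IsRow d 2 x)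
    (hs : x.support ⊆ {A, B, C, F}) :
    x A + x B + x C + x F = d ∧ (x A = 0 ∨ x B = 0 ∨ x C = 0) ∧ (x A = 0 ∨ x B = 0 ∨ x F = 0) ∧
      (x A = 0 ∨ x C = 0 ∨ x F = 0) ∧ (x B = 0 ∨ x C = 0 ∨ x F = 0) := by
  have key : ∀ p q r : σ, p ≠ q → p ≠ r → q ≠ r → (x p = 0 ∨ x q = 0 ∨ x r = 0) := by
    intro p q r hpq hpr hqr
    by_contra hcon
    push Not at hcon
    have h4 : ({p, q, r} : Finset σ) ⊆ x.support := by
      intro w hw
      simp only [mem_insert, mem_singleton] at hw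
      rw [Finsupp.mem_support_iff]
      rcases hw with rfl | rfl | rfl
      · exact hcon.1
      · exact hcon.2.1
      · exact hcon.2.2
    have h5 := card_le_card h4
    rw [card_eq_three.2 ⟨p, q, r, hpq, hpr, hqr, rfl⟩] at h5
    have := hx.2
    omega
  refine ⟨?_, key _ _ _ hAB hAC hBC, key _ _ _ hAB hAF hBF, key _ _ _ hAC hAF hCF,
    key _ _ _ hBC hBF hCF⟩
  have h1 := hx.1
  rw [Finsupp.degree_apply, sum_subset hs (fun y _ hy => by simpa using hy),
    sum_insert (by simp [hAB, hAC, hAF]), sum_insert (by simp [hBC, hBF]),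
    sum_insert (by simp [hCF]), sum_singleton] at h1
  omega

lemma arith_two {d uA uB uC uF vA vB vC vF tA tB tC tF : ℕ} (hd : 5 ≤ d)
    (su : uA + uB + uC + uF = d) (u1 : uA = 0 ∨ uB = 0 ∨ uF = 0) (u2 : uA = 0 ∨ uC = 0 ∨ uF = 0)
    (sv : vA + vB + vC + vF = d) (v1 : vA = 0 ∨ vB = 0 ∨ vC = 0)
    (st : tA + tB + tC + tF = d) (t1 : tA = 0 ∨ tB = 0 ∨ tC = 0)
    (sA : uA + (vA + tA) = d + 1) (sB : uB + (vB + tB) = d + 1) (sC : uC + (vC + tC) = d - 3)
    (sF : uF + (vF + tF) = 1) (huA : uA ≠ 0) (huF : uF ≠ 0) :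
    (uF = 1 ∧ uA = d - 1) ∧ ((vB = 3 ∧ vC = d - 3) ∨ (vA = 2 ∧ vB = d - 2)) ∧
      ((tB = 3 ∧ tC = d - 3) ∨ (tA = 2 ∧ tB = d - 2)) := by
  have e1 : uF = 1 := by omega
  have e2 : uB = 0 := by omega
  have e3 : uC = 0 := by omega
  have e4 : uA = d - 1 := by omega
  have e5 : vF = 0 := by omega
  have e6 : tF = 0 := by omega
  refine ⟨⟨e1, e4⟩, ?_⟩
  rcases Nat.eq_zero_or_pos vC with h | h
  · have : tA = 0 := by omega
    omega
  · have : vA = 0 := by omega
    have : tC = 0 := by omega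
    omega

lemma arith_two' {d wA wB wC wF bA bB bC bF cA cB cC cF : ℕ} (hd : 5 ≤ d)
    (sw : wA + wB + wC + wF = d)
    (hw : (wF = 1 ∧ wA = d - 1) ∨ (wB = 3 ∧ wC = d - 3) ∨ (wA = 2 ∧ wB = d - 2))
    (sb : bA + bB + bC + bF = d) (b4 : bB = 0 ∨ bC = 0 ∨ bF = 0)
    (sc : cA + cB + cC + cF = d) (c4 : cB = 0 ∨ cC = 0 ∨ cF = 0)
    (sA : wA + (bA + cA) = d + 1) (sB : wB + (bB + cB) = d + 1) (sC : wC + (bC + cC) = d - 3)
    (sF : wF + (bF + cF) = 1) :
    (wF ≠ 0 ∧ wA ≠ 0) ∨ (bF ≠ 0 ∧ bA ≠ 0) ∨ (cF ≠ 0 ∧ cA ≠ 0) := by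
  rcases hw with h | h | h
  · left; omega
  · right
    rcases Nat.eq_zero_or_pos bF with h' | h'
    · right; omega
    · left; omega
  · right
    rcases Nat.eq_zero_or_pos bF with h' | h'
    · right; omega
    · left; omega

/-- `s = 2`, `n ≥ 4`, `d ≥ 5`. -/
theorem neg_two {n d : ℕ} (hn : 4 ≤ n) (hd : 5 ≤ d) : ¬ IsQuadratic K n d 2 := by
  obtain ⟨A, hA⟩ : ∃ A : Fin n, A.val = 0 := ⟨⟨0, by omega⟩, rfl⟩
  obtain ⟨B, hB⟩ : ∃ B : Fin n, B.val = 1 := ⟨⟨1, by omega⟩, rfl⟩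
  obtain ⟨C, hC⟩ : ∃ C : Fin n, C.val = 2 := ⟨⟨2, by omega⟩, rfl⟩
  obtain ⟨F, hF⟩ : ∃ F : Fin n, F.val = 3 := ⟨⟨3, by omega⟩, rfl⟩
  have hAB : A ≠ B := fun h => by rw [h] at hA; omega
  have hAC : A ≠ C := fun h => by rw [h] at hA; omega
  have hAF : A ≠ F := fun h => by rw [h] at hA; omega
  have hBC : B ≠ C := fun h => by rw [h] at hB; omega
  have hBF : B ≠ F := fun h => by rw [h] at hB; omega
  have hCF : C ≠ F := fun h => by rw [h] at hC; omega
  have hrow : ∀ (p q : Fin n) (a b : ℕ), a + b = d →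
      IsRow d 2 (Finsupp.single p a + Finsupp.single q b) := by
    intro p q a b hab
    refine ⟨?_, ?_⟩
    · rw [map_add, Finsupp.degree_single, Finsupp.degree_single, hab]
    · have h1 : (Finsupp.single p a + Finsupp.single q b).support ⊆ {p, q} := by
        intro w hw
        rw [Finsupp.mem_support_iff, Finsupp.add_apply, Finsupp.single_apply,
          Finsupp.single_apply] at hw
        by_contra h
        simp only [mem_insert, mem_singleton, not_or] at h
        simp [Ne.symm h.1, Ne.symm h.2] at hw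
      exact (card_le_card h1).trans card_le_two
  obtain ⟨α, hα⟩ : ∃ α : Fin n →₀ ℕ, α = Finsupp.single A (d + 1) + (Finsupp.single B (d + 1) +
      (Finsupp.single C (d - 3) + Finsupp.single F 1)) := ⟨_, rfl⟩
  have val : ∀ x, α x = (if A = x then d + 1 else 0) + ((if B = x then d + 1 else 0) +
      ((if C = x then d - 3 else 0) + (if F = x then 1 else 0))) := by
    intro x
    rw [hα]
    simp only [Finsupp.add_apply, Finsupp.single_apply]
  have hαA : α A = d + 1 := by rw [val]; simp [hAB.symm, hAC.symm, hAF.symm]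
  have hαB : α B = d + 1 := by rw [val]; simp [hAB, hBC.symm, hBF.symm]
  have hαC : α C = d - 3 := by rw [val]; simp [hAC, hBC, hCF.symm]
  have hαF : α F = 1 := by rw [val]; simp [hAF, hBF, hCF]
  have hsupp : ∀ u : Fin n →₀ ℕ, u ≤ α → u.support ⊆ {A, B, C, F} := by
    intro u hu x hx
    by_contra h
    simp only [mem_insert, mem_singleton, not_or] at h
    rw [Finsupp.mem_support_iff] at hx
    have h1 := hu x
    rw [val, if_neg (Ne.symm h.1), if_neg (Ne.symm h.2.1), if_neg (Ne.symm h.2.2.1),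
      if_neg (Ne.symm h.2.2.2)] at h1
    omega
  have hcfg : ∀ p q : Fin n, (p = A ∧ q = B) ∨ (p = B ∧ q = A) →
      Cfg d 2 3 α ((Finsupp.single p (d - 1) + Finsupp.single F 1) ::ₘ
        (Finsupp.single C (d - 3) + Finsupp.single q 3) ::ₘ
        {Finsupp.single p 2 + Finsupp.single q (d - 2)}) := by
    intro p q hpq
    refine ⟨?_, by simp, ?_⟩
    · intro u hu
      simp only [Multiset.mem_cons, Multiset.mem_singleton] at hu
      rcases hu with rfl | rfl | rfl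
      · exact hrow _ _ _ _ (by omega)
      · exact hrow _ _ _ _ (by omega)
      · exact hrow _ _ _ _ (by omega)
    · have e1 : ∀ a : Fin n, (Finsupp.single a (d + 1) : Fin n →₀ ℕ) =
          Finsupp.single a (d - 1) + Finsupp.single a 2 := by
        intro a; rw [← Finsupp.single_add]; congr 1; omega
      have e2 : ∀ a : Fin n, (Finsupp.single a (d + 1) : Fin n →₀ ℕ) =
          Finsupp.single a 3 + Finsupp.single a (d - 2) := by
        intro a; rw [← Finsupp.single_add]; congr 1; omega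
      rw [sum3, hα]
      rcases hpq with ⟨rfl, rfl⟩ | ⟨rfl, rfl⟩
      · rw [e1 p, e2 q]; abel
      · rw [e2 q, e1 p]; abel
  have hX := hcfg A B (Or.inl ⟨rfl, rfl⟩)
  have hY := hcfg B A (Or.inr ⟨rfl, rfl⟩)
  refine not_isQuadratic_of_not_linked hX.row hY.row (hX.sum.trans hY.sum.symm) ?_
  intro hlink
  have hP := inv_of_linked (fun Z => ∃ u ∈ Z, u F ≠ 0 ∧ u A ≠ 0) ?_ hX hlink
    ⟨Finsupp.single A (d - 1) + Finsupp.single F 1, by simp, by
      simp only [Finsupp.add_apply, Finsupp.single_apply, if_true, if_neg hAF, if_neg hAF.symm]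
      omega⟩
  · obtain ⟨u, hu, huF, huA⟩ := hP
    simp only [Multiset.mem_cons, Multiset.mem_singleton] at hu
    rcases hu with rfl | rfl | rfl
    · simp [Finsupp.single_apply, hAB.symm, hAF.symm] at huA
    · simp [Finsupp.single_apply, hCF, hAF] at huF
    · simp [Finsupp.single_apply, hBF, hAF] at huF
  · intro w b c b' c' hZ hZ' hP
    have hr : ∀ (x y z t : Fin n →₀ ℕ), Cfg d 2 3 α (x ::ₘ y ::ₘ {z}) → t ∈ x ::ₘ y ::ₘ {z} →
        t A + t B + t C + t F = d ∧ (t A = 0 ∨ t B = 0 ∨ t C = 0) ∧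
        (t A = 0 ∨ t B = 0 ∨ t F = 0) ∧
        (t A = 0 ∨ t C = 0 ∨ t F = 0) ∧ (t B = 0 ∨ t C = 0 ∨ t F = 0) :=
      fun x y z t hc ht => row4 hAB hAC hAF hBC hBF hCF (hc.row t ht) (hsupp t (hc.le ht))
    obtain ⟨w0, w1, w2, w3, w4⟩ := hr _ _ _ w hZ (by simp)
    obtain ⟨b0, b1, b2, b3, b4⟩ := hr _ _ _ b hZ (by simp)
    obtain ⟨c0, c1, c2, c3, c4⟩ := hr _ _ _ c hZ (by simp)
    obtain ⟨b0', b1', b2', b3', b4'⟩ := hr _ _ _ b' hZ' (by simp)
    obtain ⟨c0', c1', c2', c3', c4'⟩ := hr _ _ _ c' hZ' (by simp)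
    have s1 := hZ.sum
    have s2 := hZ'.sum
    rw [sum3] at s1 s2
    have k1 : ∀ x, w x + (b x + c x) = α x := fun x => by
      rw [← s1]; rfl
    have k2 : ∀ x, w x + (b' x + c' x) = α x := fun x => by
      rw [← s2]; rfl
    have kA := k1 A
    have kB := k1 B
    have kC := k1 C
    have kF := k1 F
    have lA := k2 A
    have lB := k2 B
    have lC := k2 C
    have lF := k2 F
    rw [hαA] at kA lA
    rw [hαB] at kB lB
    rw [hαC] at kC lC
    rw [hαF] at kF lF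
    have hw : (w F = 1 ∧ w A = d - 1) ∨ (w B = 3 ∧ w C = d - 3) ∨ (w A = 2 ∧ w B = d - 2) := by
      obtain ⟨u, hu, huF, huA⟩ := hP
      simp only [Multiset.mem_cons, Multiset.mem_singleton] at hu
      rcases hu with rfl | rfl | rfl
      · left
        exact (arith_two hd w0 w2 w3 b0 b1 c0 c1 kA kB kC kF huA huF).1
      · right
        exact (arith_two hd b0 b2 b3 w0 w1 c0 c1 (by omega) (by omega) (by omega) (by omega)
          huA huF).2.1
      · right
        exact (arith_two hd c0 c2 c3 w0 w1 b0 b1 (by omega) (by omega) (by omega) (by omega)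
          huA huF).2.1
    rcases arith_two' hd w0 hw b0' b4' c0' c4' lA lB lC lF with h | h | h
    · exact ⟨w, by simp, h⟩
    · exact ⟨b', by simp, h⟩
    · exact ⟨c', by simp, h⟩

end Pool.Agent.Lib.MP_e26c3f_al
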