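import Mathlib
import Pool.Agent.Lib.MP_e26c3f_al.Vero

/-! Three variables and supports of size two (theorem T3). -/

set_option autoImplicit false
set_option linter.unusedSectionVars false

namespace Pool.Agent.Lib.MP_e26c3f_al

variable {σ : Type*} [DecidableEq σ] {d : ℕ} {x y z : σ}

/-- The exponent vector `x ^ a y ^ b z ^ c`. -/
noncomputable def r3 (x y z : σ) (a b c : ℕ) : σ →₀ ℕ :=
  Finsupp.single x a + (Finsupp.single y b + Finsupp.single z c)

lemma r3_swap (x y z : σ) (a b c : ℕ) : r3 x y z a b c = r3 x z y a c b := by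
  rw [r3, r3, add_comm (Finsupp.single y b)]

lemma r3_add (x y z : σ) (a b c a' b' c' : ℕ) :
    r3 x y z a b c + r3 x y z a' b' c' = r3 x y z (a + a') (b + b') (c + c') := by
  simp only [r3, Finsupp.single_add]
  abel

lemma isRow_r3 {a b c : ℕ} (h : a + b + c = d) (h0 : a = 0 ∨ b = 0 ∨ c = 0) :
    IsRow d 2 (r3 x y z a b c) := by
  refine ⟨?_, ?_⟩
  · rw [r3, map_add, map_add, Finsupp.degree_single, Finsupp.degree_single,
      Finsupp.degree_single]
    omega
  · have key : ∀ (p q : σ) (m n : ℕ), (Finsupp.single p m + Finsupp.single q n).support.card ≤ 2 := by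
      intro p q m n
      have h1 : (Finsupp.single p m + Finsupp.single q n).support ⊆ {p, q} := by
        refine Finsupp.support_add.trans ?_
        intro w hw
        rcases Finset.mem_union.1 hw with h | h
        · have := Finsupp.support_single_subset h
          simp at this; simp [this]
        · have := Finsupp.support_single_subset h
          simp at this; simp [this]
      exact (Finset.card_le_card h1).trans Finset.card_le_two
    rcases h0 with rfl | rfl | rfl
    · rw [r3, Finsupp.single_zero, zero_add]; exact key _ _ _ _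
    · rw [r3, Finsupp.single_zero, zero_add]; exact key _ _ _ _
    · rw [r3, Finsupp.single_zero, add_zero]; exact key _ _ _ _

lemma eq_r3 (hxy : x ≠ y) (hxz : x ≠ z) (hyz : y ≠ z) {u : σ →₀ ℕ} (hu : IsRow d 2 u)
    (hs : u.support ⊆ {x, y, z}) :
    u = r3 x y z (u x) (u y) (u z) ∧ u x + u y + u z = d ∧ (u x = 0 ∨ u y = 0 ∨ u z = 0) := by
  have h1 : u = r3 x y z (u x) (u y) (u z) := by
    ext w
    simp only [r3, Finsupp.add_apply, Finsupp.single_apply]
    by_cases h1 : w = x
    · subst h1; simp [hxy.symm, hxz.symm]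
    · by_cases h2 : w = y
      · subst h2; simp [hxy, hyz.symm]
      · by_cases h3 : w = z
        · subst h3; simp [hxz, hyz]
        · have : w ∉ u.support := by
            intro h
            have := hs h
            simp only [Finset.mem_insert, Finset.mem_singleton] at this
            tauto
          rw [Finsupp.notMem_support_iff] at this
          simp [this, Ne.symm h1, Ne.symm h2, Ne.symm h3]
  refine ⟨h1, ?_, ?_⟩
  · have := hu.1
    rw [h1, r3, map_add, map_add, Finsupp.degree_single, Finsupp.degree_single,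
      Finsupp.degree_single] at this
    omega
  · by_contra hcon
    push Not at hcon
    have h2 : ({x, y, z} : Finset σ) ⊆ u.support := by
      intro w hw
      simp only [Finset.mem_insert, Finset.mem_singleton] at hw
      rw [Finsupp.mem_support_iff]
      rcases hw with rfl | rfl | rfl
      · exact hcon.1
      · exact hcon.2.1
      · exact hcon.2.2
    have h3 := Finset.card_le_card h2
    have h4 : ({x, y, z} : Finset σ).card = 3 := Finset.card_eq_three.2 ⟨x, y, z, hxy, hxz, hyz, rfl⟩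
    have := hu.2
    omega

lemma step3 {a1 b1 c1 a2 b2 c2 a3 b3 c3 a4 b4 c4 : ℕ} (Z : Multiset (σ →₀ ℕ))
    (ha : a1 + a2 = a3 + a4) (hb : b1 + b2 = b3 + b4) (hc : c1 + c2 = c3 + c4)
    (h1 : IsRow d 2 (r3 x y z a1 b1 c1)) (h2 : IsRow d 2 (r3 x y z a2 b2 c2))
    (h3 : a3 + b3 + c3 = d) (h3' : a3 = 0 ∨ b3 = 0 ∨ c3 = 0)
    (h4 : a4 + b4 + c4 = d) (h4' : a4 = 0 ∨ b4 = 0 ∨ c4 = 0) :
    Step d 2 (r3 x y z a1 b1 c1 ::ₘ r3 x y z a2 b2 c2 ::ₘ Z)
      (r3 x y z a3 b3 c3 ::ₘ r3 x y z a4 b4 c4 ::ₘ Z) :=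
  ⟨_, _, _, _, _, rfl, rfl, by rw [r3_add, r3_add, ha, hb, hc], h1, h2, isRow_r3 h3 h3',
    isRow_r3 h4 h4'⟩

lemma r3_pure (x y z : σ) (a : ℕ) : r3 x y z a 0 0 = Finsupp.single x a := by
  simp [r3]

/-- Merging two rows of the same type. -/
lemma merge3 {a b a' b' : ℕ} (Z : Multiset (σ →₀ ℕ)) (h1 : a + b = d) (h2 : a' + b' = d)
    (h : d ≤ a + a') :
    ∃ u, Step d 2 (r3 x y z a b 0 ::ₘ r3 x y z a' b' 0 ::ₘ Z)
      (Finsupp.single x d ::ₘ u ::ₘ Z) := by
  refine ⟨r3 x y z (a + a' - d) (b + b') 0, ?_⟩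
  rw [← r3_pure x y z d]
  apply step3 Z
  · omega
  · omega
  · rfl
  · exact isRow_r3 (by omega) (by simp)
  · exact isRow_r3 (by omega) (by simp)
  · omega
  · simp
  · omega
  · simp

/-- Two rows of the same type: reach the pure power or decrease the number of rows using `x`. -/
lemma merge3' {a b a' b' : ℕ} (Z : Multiset (σ →₀ ℕ)) (h1 : a + b = d) (h2 : a' + b' = d)
    (hne : y ≠ x) (hne' : z ≠ x) (h : a + a' < d) :
    ∃ u v, Step d 2 (r3 x y z a b 0 ::ₘ r3 x y z a' b' 0 ::ₘ Z) (u ::ₘ v ::ₘ Z) ∧ v x = 0 := by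
  refine ⟨r3 x y z (a + a') (b + b' - d) 0, r3 x y z 0 d 0, ?_, ?_⟩
  · apply step3 Z
    · omega
    · omega
    · rfl
    · exact isRow_r3 (by omega) (by simp)
    · exact isRow_r3 (by omega) (by simp)
    · omega
    · simp
    · omega
    · simp
  · simp [r3, hne]

/-- In three variables one reaches the pure power of the largest variable. -/
lemma reach3 (hd : 1 ≤ d) (hxy : x ≠ y) (hxz : x ≠ z) (hyz : y ≠ z) {k : ℕ} (hk : 3 ≤ k)
    {α : σ →₀ ℕ} (hα : α.support ⊆ {x, y, z}) (hαx : d ≤ α x) {X : Multiset (σ →₀ ℕ)}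
    (hX : Cfg d 2 k α X) : ∃ Y, Linked d 2 X Y ∧ Finsupp.single x d ∈ Y := by
  classical
  by_contra hcon
  push Not at hcon
  -- minimal number of rows using x
  let N : Multiset (σ →₀ ℕ) → ℕ := fun X => X.countP fun v => 0 < v x
  obtain ⟨X', hXX', hmin⟩ : ∃ X', Linked d 2 X X' ∧ ∀ Y, Linked d 2 X' Y → N X' ≤ N Y := by
    have hex : ∃ n Y, Linked d 2 X Y ∧ N Y = n := ⟨_, X, Linked.refl _, rfl⟩
    obtain ⟨Y, hY, hYn⟩ := Nat.find_spec hex
    refine ⟨Y, hY, fun Z hZ => ?_⟩
    rw [hYn]
    exact Nat.find_min' hex ⟨Z, hY.trans hZ, rfl⟩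
  have hX' := hXX'.cfg hX
  have hcon' : ∀ Y, Linked d 2 X' Y → Finsupp.single x d ∉ Y := fun Y hY =>
    hcon Y (hXX'.trans hY)
  have hrow : ∀ u ∈ X', u.support ⊆ {x, y, z} := by
    intro u hu
    refine Finset.Subset.trans ?_ hα
    exact Finsupp.support_mono (hX'.le hu)
  -- claim A
  have claimA : ∀ (p q : σ), x ≠ p → x ≠ q → p ≠ q → ({x, y, z} : Finset σ) = {x, p, q} →
      ∀ u v Z, X' = u ::ₘ v ::ₘ Z → 0 < u x → 0 < v x → u q = 0 → v q = 0 → False := by
    intro p q hxp hxq hpq hset u v Z hZ hu hv huq hvq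
    have hur := hX'.row u (by rw [hZ]; simp)
    have hvr := hX'.row v (by rw [hZ]; simp)
    have hus := hrow u (by rw [hZ]; simp)
    have hvs := hrow v (by rw [hZ]; simp)
    rw [hset] at hus hvs
    obtain ⟨eu, su, -⟩ := eq_r3 hxp hxq hpq hur hus
    obtain ⟨ev, sv, -⟩ := eq_r3 hxp hxq hpq hvr hvs
    rw [huq] at eu su
    rw [hvq] at ev sv
    rw [eu, ev] at hZ
    rcases Nat.lt_or_ge (u x + v x) d with h | h
    · obtain ⟨u', v', hstep, hv'⟩ := merge3' (x := x) (y := p) (z := q) (a := u x) (b := u p)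
        (a' := v x) (b' := v p) Z (by omega) (by omega) hxp.symm hxq.symm h
      rw [← hZ] at hstep
      have h1 := hmin _ hstep.linked
      have h2 : N X' = N Z + 2 := by
        simp only [N, hZ, Multiset.countP_cons]
        simp [r3, hxp.symm, hxq.symm, hu, hv]
      have h3 : N (u' ::ₘ v' ::ₘ Z) ≤ N Z + 1 := by
        simp only [N, Multiset.countP_cons, hv']
        split_ifs <;> omega
      omega
    · obtain ⟨u', hstep⟩ := merge3 (x := x) (y := p) (z := q) (a := u x) (b := u p)
        (a' := v x) (b' := v p) Z (by omega) (by omega) h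
      rw [← hZ] at hstep
      exact hcon' _ hstep.linked (by simp)
  have claimZ := claimA y z hxy hxz hyz rfl
  have claimY := claimA z y hxz hxy hyz.symm (by
    ext w; simp only [Finset.mem_insert, Finset.mem_singleton]; tauto)
  have htype : ∀ u ∈ X', u x + u y + u z = d ∧ (u x = 0 ∨ u y = 0 ∨ u z = 0) ∧
      u = r3 x y z (u x) (u y) (u z) := by
    intro u hu
    obtain ⟨e1, e2, e3⟩ := eq_r3 hxy hxz hyz (hX'.row u hu) (hrow u hu)
    exact ⟨e2, e3, e1⟩
  have hlt : ∀ u ∈ X', u x < d := by
    intro u hu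
    by_contra h
    push Not at h
    obtain ⟨e1, -, e3⟩ := htype u hu
    have h1 : u x = d := by omega
    have h2 : u y = 0 := by omega
    have h3 : u z = 0 := by omega
    rw [h1, h2, h3, r3_pure] at e3
    exact hcon' X' (Linked.refl _) (e3 ▸ hu)
  have hsumx : ∀ Z : Multiset (σ →₀ ℕ), (∀ w ∈ Z, w x = 0) → Z.sum x = 0 := by
    intro Z
    induction Z using Multiset.induction_on with
    | empty => intro _; simp
    | cons w Z ih =>
      intro h
      rw [Multiset.sum_cons, Finsupp.add_apply, h w (by simp), ih fun w hw => h w (by simp [hw])]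
  have hexx : ∀ Z : Multiset (σ →₀ ℕ), Z.sum x ≠ 0 → ∃ w ∈ Z, 0 < w x := by
    intro Z h
    by_contra hc
    push Not at hc
    exact h (hsumx Z fun w hw => by have := hc w hw; omega)
  have hXsum := hX'.sum
  obtain ⟨u, hu, hux⟩ := hexx X' (by rw [hXsum]; omega)
  obtain ⟨X1, hX1⟩ := Multiset.exists_cons_of_mem hu
  have hs1 : u x + X1.sum x = α x := by
    rw [← hXsum, hX1, Multiset.sum_cons, Finsupp.add_apply]
  have hud := hlt u hu
  obtain ⟨v, hv, hvx⟩ := hexx X1 (by omega)
  obtain ⟨X2, hX2⟩ := Multiset.exists_cons_of_mem hv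
  have hX12 : X' = u ::ₘ v ::ₘ X2 := by rw [hX1, hX2]
  -- finish with ordered types
  have fin : ∀ u v X2, X' = u ::ₘ v ::ₘ X2 → 0 < u x → 0 < v x → u z = 0 → v y = 0 → False := by
    intro u v X2 hX12 hux hvx huz hvy
    have hu : u ∈ X' := by rw [hX12]; simp
    have hv : v ∈ X' := by rw [hX12]; simp
    have hX2x : ∀ w ∈ X2, w x = 0 := by
      intro w hw
      by_contra h
      have hw' : w ∈ X' := by rw [hX12]; simp [hw]
      obtain ⟨Z, hZ⟩ := Multiset.exists_cons_of_mem hw
      obtain ⟨-, e2, -⟩ := htype w hw'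
      rcases e2 with e2 | e2 | e2
      · exact h e2
      · refine claimY v w (u ::ₘ Z) ?_ hvx (by omega) hvy e2
        rw [hX12, hZ, Multiset.cons_swap u v, Multiset.cons_swap u w]
      · refine claimZ u w (v ::ₘ Z) ?_ hux (by omega) huz e2
        rw [hX12, hZ, Multiset.cons_swap v w]
    have hxsum : u x + v x = α x := by
      have := DFunLike.congr_fun hXsum x
      rw [hX12, Multiset.sum_cons, Multiset.sum_cons, Finsupp.add_apply, Finsupp.add_apply,
        hsumx X2 hX2x] at this
      omega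
    obtain ⟨su, -, eu⟩ := htype u hu
    obtain ⟨sv, -, ev⟩ := htype v hv
    have hud := hlt u hu
    have hvd := hlt v hv
    have hcard := hX'.card
    rw [hX12] at hcard
    simp only [Multiset.card_cons] at hcard
    obtain ⟨w, hw⟩ := Multiset.card_pos_iff_exists_mem.1 (show 0 < X2.card by omega)
    have hw' : w ∈ X' := by rw [hX12]; simp [hw]
    obtain ⟨sw, -, ew⟩ := htype w hw'
    have hwx := hX2x w hw
    obtain ⟨X3, hX3⟩ := Multiset.exists_cons_of_mem hw
    rw [huz] at eu su
    rw [hvy] at ev sv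
    rw [hwx] at ew sw
    have hur := hX'.row u hu
    have hvr := hX'.row v hv
    have hwr := hX'.row w hw'
    rw [eu] at hur
    rw [ev] at hvr
    rw [ew] at hwr
    rcases Nat.lt_or_ge (u y) (w z + 1) with hc1 | hc1
    · -- move z units into u
      have hstep : Step d 2 (r3 x y z (u x) (u y) 0 ::ₘ r3 x y z 0 (w y) (w z) ::ₘ
          r3 x y z (v x) 0 (v z) ::ₘ X3)
          (r3 x y z (u x) 0 (u y) ::ₘ r3 x y z 0 (w y + u y) (w z - u y) ::ₘ
          r3 x y z (v x) 0 (v z) ::ₘ X3) := by
        apply step3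
        · rfl
        · omega
        · omega
        · exact hur
        · exact hwr
        · omega
        · simp
        · omega
        · simp
      obtain ⟨r, hstep2⟩ := merge3 (x := x) (y := z) (z := y) (a := u x) (b := u y) (a' := v x)
        (b' := v z) (r3 x y z 0 (w y + u y) (w z - u y) ::ₘ X3) (by omega) (by omega) (by omega)
      rw [r3_swap x z y, r3_swap x z y] at hstep2
      have hlink : Linked d 2 X' (Finsupp.single x d ::ₘ r ::ₘ
          r3 x y z 0 (w y + u y) (w z - u y) ::ₘ X3) := by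
        have e1 : X' = r3 x y z (u x) (u y) 0 ::ₘ r3 x y z 0 (w y) (w z) ::ₘ
            r3 x y z (v x) 0 (v z) ::ₘ X3 := by
          rw [hX12, hX3, ← eu, ← ev, ← ew, Multiset.cons_swap v w]
        rw [e1]
        refine hstep.linked.trans ?_
        rw [Multiset.cons_swap (r3 x y z 0 (w y + u y) (w z - u y))]
        exact hstep2.linked
      exact hcon' _ hlink (by simp)
    · -- move y units into v
      have hstep : Step d 2 (r3 x y z (v x) 0 (v z) ::ₘ r3 x y z 0 (w y) (w z) ::ₘ
          r3 x y z (u x) (u y) 0 ::ₘ X3)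
          (r3 x y z (v x) (v z) 0 ::ₘ r3 x y z 0 (w y - v z) (w z + v z) ::ₘ
          r3 x y z (u x) (u y) 0 ::ₘ X3) := by
        apply step3
        · rfl
        · omega
        · omega
        · exact hvr
        · exact hwr
        · omega
        · simp
        · omega
        · simp
      obtain ⟨r, hstep2⟩ := merge3 (x := x) (y := y) (z := z) (a := v x) (b := v z) (a' := u x)
        (b' := u y) (r3 x y z 0 (w y - v z) (w z + v z) ::ₘ X3) (by omega) (by omega) (by omega)
      have hlink : Linked d 2 X' (Finsupp.single x d ::ₘ r ::ₘ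
          r3 x y z 0 (w y - v z) (w z + v z) ::ₘ X3) := by
        have e1 : X' = r3 x y z (v x) 0 (v z) ::ₘ r3 x y z 0 (w y) (w z) ::ₘ
            r3 x y z (u x) (u y) 0 ::ₘ X3 := by
          rw [hX12, hX3, ← eu, ← ev, ← ew, Multiset.cons_swap u v, Multiset.cons_swap u w]
        rw [e1]
        refine hstep.linked.trans ?_
        rw [Multiset.cons_swap (r3 x y z 0 (w y - v z) (w z + v z))]
        exact hstep2.linked
      exact hcon' _ hlink (by simp)
  have hvX : v ∈ X' := by rw [hX12]; simp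
  have hvu : X' = v ::ₘ u ::ₘ X2 := by rw [hX12, Multiset.cons_swap]
  obtain ⟨-, tu, -⟩ := htype u hu
  obtain ⟨-, tv, -⟩ := htype v hvX
  rcases tu with tu | tu | tu
  · omega
  · rcases tv with tv | tv | tv
    · omega
    · exact claimY u v X2 hX12 hux hvx tu tv
    · exact fin v u X2 hvu hvx hux tv tu
  · rcases tv with tv | tv | tv
    · omega
    · exact fin u v X2 hX12 hux hvx tu tv
    · exact claimZ u v X2 hX12 hux hvx tu tv

/-- Theorem T3. -/
theorem conn_three_vars {T : Finset σ} (hT : T.card = 3) (d : ℕ) : ∀ (k : ℕ) (α : σ →₀ ℕ),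
    α.support ⊆ T → Conn d 2 k α := by
  rcases Nat.eq_zero_or_pos d with rfl | hd
  · intro k α _
    apply conn_vero
    intro r hr
    rw [Finsupp.degree_eq_zero_iff] at hr
    simp [hr]
  intro k
  induction k with
  | zero => intro α _; exact conn_zero
  | succ k ih =>
    intro α hα X Y hX hY
    rcases Nat.lt_or_ge k 2 with hk | hk
    · interval_cases k
      · exact conn_one X Y hX hY
      · exact conn_two X Y hX hY
    obtain ⟨x, hx, hmax⟩ := Finset.exists_max_image T α (Finset.card_pos.1 (by omega))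
    obtain ⟨y, z, hyz, hTe⟩ := Finset.card_eq_two.1 (show (T.erase x).card = 2 by
      rw [Finset.card_erase_of_mem hx, hT])
    have hTx : T = {x, y, z} := by
      rw [← Finset.insert_erase hx, hTe]
    have hy : y ∈ T.erase x := by rw [hTe]; simp
    have hz : z ∈ T.erase x := by rw [hTe]; simp
    have hxy : x ≠ y := (Finset.ne_of_mem_erase hy).symm
    have hxz : x ≠ z := (Finset.ne_of_mem_erase hz).symm
    have hdeg := hX.degree
    have hαx : d ≤ α x := by
      have h1 : ∑ i ∈ T, α i = α.degree := by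
        rw [Finsupp.degree_apply]
        symm
        apply Finset.sum_subset hα
        intro w _ hw
        simpa using hw
      have h2 := Finset.sum_le_card_nsmul T α (α x) (fun i hi => hmax i hi)
      rw [h1, hT, hdeg, smul_eq_mul] at h2
      have h3 : 3 * d ≤ (k + 1) * d := Nat.mul_le_mul_right _ (by omega)
      omega
    rw [hTx] at hα
    obtain ⟨X', hXX', hX'⟩ := reach3 hd hxy hxz hyz (by omega) hα hαx hX
    obtain ⟨Y', hYY', hY'⟩ := reach3 hd hxy hxz hyz (by omega) hα hαx hY
    obtain ⟨X1, β, hX1, hβ, hX1c⟩ := (hXX'.cfg hX).exists_cons hX'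
    refine hXX'.trans (Linked.trans ?_ hYY'.symm)
    refine linked_of_mem (ih β ?_) hβ (hXX'.cfg hX) (hYY'.cfg hY) hX' hY'
    rw [hTx]
    refine Finset.Subset.trans ?_ hα
    apply Finsupp.support_mono
    rw [hβ]
    exact le_add_self

end Pool.Agent.Lib.MP_e26c3f_al
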