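import Mathlib
import Pool.Agent.Lib.MP_e26c3f_al.Transfer
import Pool.Agent.Lib.MP_e26c3f_al.ClosedNum
import Pool.Agent.Lib.MP_e26c3f_al.Double
import Pool.Agent.Lib.MP_e26c3f_al.Three
import Pool.Agent.Lib.MP_e26c3f_al.FourB
import Pool.Agent.Lib.MP_e26c3f_al.NegHeavy
import Pool.Agent.Lib.MP_e26c3f_al.NegTwo
import Pool.Agent.Lib.MP_e26c3f_al.NegNine

/-! Assembly of the classification. -/

set_option autoImplicit false
set_option linter.unusedSectionVars false

namespace Pool.Agent.Lib.MP_e26c3f_al

variable {K : Type*} [Field K]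

/-- The case `s = 1`. -/
lemma conn_s_one {σ : Type*} [DecidableEq σ] {d k : ℕ} (hd : 1 ≤ d) (α : σ →₀ ℕ) :
    Conn d 1 k α := by
  have hrow : ∀ u : σ →₀ ℕ, IsRow d 1 u → ∃ x, u = Finsupp.single x d := by
    intro u hu
    have h1 := hu.2
    rcases Nat.lt_or_ge u.support.card 1 with h | h
    · have h2 : u.support = ∅ := Finset.card_eq_zero.1 (by omega)
      have h3 := hu.1
      rw [Finsupp.degree_apply, h2, Finset.sum_empty] at h3
      omega
    · obtain ⟨x, hx⟩ := Finset.card_eq_one.1 (show u.support.card = 1 by omega)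
      have h3 := hu.1
      rw [Finsupp.degree_apply, hx, Finset.sum_singleton] at h3
      refine ⟨x, ?_⟩
      ext y
      rw [Finsupp.single_apply]
      split_ifs with h
      · rw [← h, h3]
      · have : y ∉ u.support := by rw [hx, Finset.mem_singleton]; exact Ne.symm h
        simpa using this
  have hX : ∀ X : Multiset (σ →₀ ℕ), (∀ u ∈ X, IsRow d 1 u) →
      ∃ D : Multiset σ, X = D.map (fun x => Finsupp.single x d) := by
    intro X
    induction X using Multiset.induction_on with
    | empty => intro _; exact ⟨0, rfl⟩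
    | cons u X ih =>
      intro h
      obtain ⟨D, rfl⟩ := ih fun v hv => h v (by simp [hv])
      obtain ⟨x, rfl⟩ := hrow u (h u (by simp))
      exact ⟨x ::ₘ D, by simp⟩
  have hsum : ∀ (D : Multiset σ) (x : σ),
      (D.map (fun x => Finsupp.single x d)).sum x = d * D.count x := by
    intro D x
    induction D using Multiset.induction_on with
    | empty => simp
    | cons y D ih =>
      rw [Multiset.map_cons, Multiset.sum_cons, Finsupp.add_apply, ih, Finsupp.single_apply,
        Multiset.count_cons]
      by_cases h : y = x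
      · simp [h]; ring
      · simp [h, Ne.symm h]
  intro X Y hX' hY'
  obtain ⟨D, rfl⟩ := hX X hX'.row
  obtain ⟨D', rfl⟩ := hX Y hY'.row
  have : D = D' := by
    ext x
    have h1 := hsum D x
    have h2 := hsum D' x
    rw [hX'.sum] at h1
    rw [hY'.sum, h1] at h2
    exact Nat.eq_of_mul_eq_mul_left hd h2
  rw [this]
  exact Linked.refl _

/-- Fibres with at most two rows, or few variables. -/
lemma conn_of_le {n t d : ℕ} (ht : 2 ≤ t) (hn : n ≤ 3 * t + 1) (k : ℕ) (α : Fin n →₀ ℕ) :
    Conn d (t + 1) k α := by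
  rcases Nat.lt_or_ge k 3 with hk | hk
  · interval_cases k
    · exact conn_zero
    · exact conn_one
    · exact conn_two
  · apply conn_T1 ht
    have h1 : α.support.card ≤ n := by
      have := Finset.card_le_univ α.support
      rwa [Fintype.card_fin] at this
    have h2 : 3 * t ≤ k * t := Nat.mul_le_mul_right _ hk
    omega

lemma conn_of_eq {n t d : ℕ} (ht : 2 ≤ t) (hn : n = 3 * t + 2)
    (hd : d ≤ 2 * (t + 1) ∨ (t = 2 ∧ d ≤ 9)) (k : ℕ) (α : Fin n →₀ ℕ) :
    Conn d (t + 1) k α := by
  have h1 : α.support.card ≤ n := by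
    have := Finset.card_le_univ α.support
    rwa [Fintype.card_fin] at this
  rcases Nat.lt_or_ge k 3 with hk | hk
  · interval_cases k
    · exact conn_zero
    · exact conn_one
    · exact conn_two
  rcases Nat.lt_or_ge k 4 with hk4 | hk4
  · have : k = 3 := by omega
    subst this
    rcases Nat.lt_or_ge α.support.card (3 * t + 2) with h2 | h2
    · apply conn_T1 ht
      omega
    · exact conn_three (by omega) hd
  · apply conn_T1 ht
    have h2 : 4 * t ≤ k * t := Nat.mul_le_mul_right _ hk4
    omega

/-- The classification outside the exceptional region. -/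
theorem main {n d s : ℕ} (hd : 1 ≤ d) (hs : 1 ≤ s)
    (hU : ¬ (3 ≤ s ∧ 3 * s ≤ n ∧ s + 2 ≤ d ∧ (d ≤ 2 * s ∨ (s = 3 ∧ d ≤ 8)))) :
    IsQuadratic K n d s ↔
      ¬ ((s = 2 ∧ 4 ≤ n ∧ 5 ≤ d) ∨ (s = 3 ∧ 8 ≤ n ∧ 10 ≤ d) ∨ (s = 3 ∧ 9 ≤ n ∧ 9 ≤ d) ∨
        (4 ≤ s ∧ 3 * s ≤ n + 1 ∧ 2 * s + 1 ≤ d)) := by
  constructor
  · rintro h (⟨rfl, h1, h2⟩ | ⟨rfl, h1, h2⟩ | ⟨rfl, h1, h2⟩ | ⟨h1, h2, h3⟩)
    · exact neg_two h1 h2 h
    · exact neg_three h1 h2 h
    · rcases Nat.lt_or_ge d 10 with h3 | h3
      · have : d = 9 := by omega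
        subst this
        exact neg_nine h1 h
      · exact neg_three (by omega) h3 h
    · exact neg_four h1 h2 h3 h
  · intro hneg
    apply isQuadratic_of_conn hd
    intro k α
    have hcard : ∀ r : Fin n →₀ ℕ, r.support.card ≤ n := fun r => by
      have := Finset.card_le_univ r.support
      rwa [Fintype.card_fin] at this
    -- small cases
    rcases Nat.lt_or_ge s 2 with hs1 | hs2
    · have : s = 1 := by omega
      subst this
      exact conn_s_one hd α
    by_cases hds : d ≤ s
    · apply conn_vero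
      intro r hr
      have h2 : r.support.card ≤ r.degree := by
        rw [Finsupp.degree_apply, Finset.card_eq_sum_ones]
        apply Finset.sum_le_sum
        intro i hi
        rw [Finsupp.mem_support_iff] at hi
        omega
      omega
    by_cases hns : n ≤ s
    · apply conn_vero
      intro r _
      exact (hcard r).trans hns
    by_cases hd1 : d = s + 1
    · obtain ⟨e, rfl⟩ : ∃ e, s = e + 1 := ⟨s - 1, by omega⟩
      subst hd1
      exact conn_succ (by omega) α
    rcases Nat.lt_or_ge s 3 with hs3 | hs3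
    · have : s = 2 := by omega
      subst this
      rcases Nat.lt_or_ge n 4 with hn4 | hn4
      · have hn3 : n = 3 := by omega
        subst hn3
        exact conn_three_vars (T := Finset.univ) (by simp) d k α (Finset.subset_univ _)
      · have hd4 : d = 4 := by omega
        subst hd4
        exact conn_four k α
    · obtain ⟨t, rfl⟩ : ∃ t, s = t + 1 := ⟨s - 1, by omega⟩
      rcases Nat.lt_or_ge n (3 * t + 2) with hn1 | hn1
      · exact conn_of_le (by omega) (by omega) k α
      rcases Nat.lt_or_ge n (3 * t + 3) with hn2 | hn2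
      · exact conn_of_eq (by omega) (by omega) (by omega) k α
      · exfalso
        omega

end Pool.Agent.Lib.MP_e26c3f_al
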