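import Mathlib
import Pool.Agent.Lib.MP_e26c3f_al.Moves
import Pool.Agent.Lib.MP_e26c3f_al.Many

/-! Disconnected fibres with three tight blocks. -/

set_option autoImplicit false
set_option linter.unusedSectionVars false

namespace Pool.Agent.Lib.MP_e26c3f_al

open Finset

variable {σ : Type*} [DecidableEq σ]
variable {α β : σ →₀ ℕ} {d s t k : ℕ} {J : Finset ℕ} {f g h : σ → ℕ}

lemma blk_restrict {J' : Finset ℕ} {j : ℕ} (hj : j ∈ J') :
    blk (α.filter fun v => f v ∈ J') f j = blk α f j := by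
  ext v
  rw [mem_blk, mem_blk, Finsupp.filter_apply]
  constructor
  · rintro ⟨h1, h2⟩
    rw [if_pos (by rw [h2]; exact hj)] at h1
    exact ⟨h1, h2⟩
  · rintro ⟨h1, h2⟩
    rw [if_pos (by rw [h2]; exact hj)]
    exact ⟨h1, h2⟩

lemma filter_eq_self' {u : σ →₀ ℕ} {p : σ → Prop} [DecidablePred p] (h : ∀ v ∈ u.support, p v) :
    u.filter p = u := by
  rw [Finsupp.filter_eq_self_iff]
  intro x hx
  exact h x (Finsupp.mem_support_iff.2 hx)

lemma filter_eq_zero' {u : σ →₀ ℕ} {p : σ → Prop} [DecidablePred p] (h : ∀ v ∈ u.support, ¬ p v) :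
    u.filter p = 0 := by
  rw [Finsupp.filter_eq_zero_iff]
  intro x hx
  by_contra hx0
  exact h x (Finsupp.mem_support_iff.2 hx0) hx

/-- A two-row move only rearranges at most two blocks. -/
lemma step_ts (hd : 1 ≤ d) {X Y : Multiset (σ →₀ ℕ)} (hX : Cfg d (t + 1) k α X)
    (hXY : Step d (t + 1) X Y) (hf : TS d t α J f) (hfX : Compat f X) (hJ : 3 ≤ J.card) :
    ∃ g l, TS d t α J g ∧ Compat g Y ∧ l ∈ J ∧ ∀ v ∈ α.support, f v = l ↔ g v = l := by
  obtain ⟨u, v, u', v', Z, rfl, rfl, huv, hu, hv, hu', hv'⟩ := hXY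
  have hck := hX.card
  rw [Multiset.card_cons, Multiset.card_cons] at hck
  obtain ⟨k, rfl⟩ : ∃ k', k = k' + 1 + 1 := ⟨k - 2, by omega⟩
  obtain ⟨X1, β1, h1, h2, h3⟩ := hX.exists_cons (u := u) (by simp)
  have e1 := (Multiset.cons_inj_right u).1 h1
  subst e1
  obtain ⟨X2, β, h4, h5, h6⟩ := h3.exists_cons (u := v) (by simp)
  have e2 := (Multiset.cons_inj_right v).1 h4
  subst e2
  rw [h5] at h2
  have hne : ∀ w : σ →₀ ℕ, IsRow d (t + 1) w → ∃ x, x ∈ w.support := by
    intro w hw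
    by_contra hcon
    push Not at hcon
    have : w.support = ∅ := eq_empty_of_forall_notMem hcon
    have h7 := hw.1
    rw [Finsupp.degree_apply, this, sum_empty] at h7
    omega
  obtain ⟨i, hi⟩ := hfX u (by simp)
  obtain ⟨j, hj⟩ := hfX v (by simp)
  have hsub : ∀ w ∈ (u ::ₘ v ::ₘ Z), w.support ⊆ α.support := fun w hw =>
    Finsupp.support_mono (hX.le hw)
  have hiJ : i ∈ J := by
    obtain ⟨x, hx⟩ := hne u hu
    rw [← hi x hx]
    exact hf.mem x (hsub u (by simp) hx)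
  have hjJ : j ∈ J := by
    obtain ⟨x, hx⟩ := hne v hv
    rw [← hj x hx]
    exact hf.mem x (hsub v (by simp) hx)
  set J' : Finset ℕ := {i, j} with hJ'
  have hJ'J : J' ⊆ J := by
    intro x hx
    rw [hJ', mem_insert, mem_singleton] at hx
    rcases hx with rfl | rfl <;> assumption
  have hJ'c : J'.card ≤ 2 := card_le_two
  have hJ'1 : 1 ≤ J'.card := card_pos.2 ⟨i, by simp [hJ']⟩
  obtain ⟨Z1, Z2, k1, k2, rfl, rfl, hZ1, hZ2⟩ := split_cfg (fun x => f x ∈ J') Z k β h6 (by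
    intro r hr
    obtain ⟨l, hl⟩ := hfX r (by simp [hr])
    by_cases hlJ : l ∈ J'
    · exact Or.inl fun x hx => by rw [hl x hx]; exact hlJ
    · exact Or.inr fun x hx => by rw [hl x hx]; exact hlJ)
  have hup : ∀ x ∈ u.support, f x ∈ J' := fun x hx => by rw [hi x hx]; simp [hJ']
  have hvp : ∀ x ∈ v.support, f x ∈ J' := fun x hx => by rw [hj x hx]; simp [hJ']
  have hsup : ∀ w, w = u' ∨ w = v' → ∀ x ∈ w.support, x ∈ u.support ∨ x ∈ v.support := by
    intro w hw x hx
    have h7 := DFunLike.congr_fun huv x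
    rw [Finsupp.add_apply, Finsupp.add_apply] at h7
    rw [Finsupp.mem_support_iff] at hx
    rw [Finsupp.mem_support_iff, Finsupp.mem_support_iff]
    rcases hw with rfl | rfl <;> omega
  have hu'p : ∀ x ∈ u'.support, f x ∈ J' := fun x hx =>
    (hsup u' (Or.inl rfl) x hx).elim (hup x) (hvp x)
  have hv'p : ∀ x ∈ v'.support, f x ∈ J' := fun x hx =>
    (hsup v' (Or.inr rfl) x hx).elim (hup x) (hvp x)
  set α' := α.filter (fun x => f x ∈ J') with hα'
  have hα'e : α' = u + (v + β.filter (fun x => f x ∈ J')) := by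
    rw [hα', h2, Finsupp.filter_add, Finsupp.filter_add, filter_eq_self' hup, filter_eq_self' hvp]
  have hα'e' : α' = u' + (v' + β.filter (fun x => f x ∈ J')) := by
    rw [hα'e, ← add_assoc, huv, add_assoc]
  have hX1 : Cfg d (t + 1) (k1 + 1 + 1) α' (u ::ₘ v ::ₘ Z1) := by
    rw [hα'e]
    exact (hZ1.cons hv).cons hu
  have hY1 : Cfg d (t + 1) (k1 + 1 + 1) α' (u' ::ₘ v' ::ₘ Z1) := by
    rw [hα'e']
    exact (hZ1.cons hv').cons hu'
  have hmem' : ∀ x ∈ α'.support, f x ∈ J' := by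
    intro x hx
    rw [hα', Finsupp.support_filter, mem_filter] at hx
    exact hx.2
  have hcard : α'.support.card = (k1 + 1 + 1) * t + J'.card := by
    have h7 := card_blk hmem'
    have h8 := sum_blk hmem' α'
    have h9 := hX1.degree
    rw [Finsupp.degree_apply, h8] at h9
    have h10 : ∀ l ∈ J', ∃ m, (blk α' f l).card = m * t + 1 ∧ ∑ x ∈ blk α' f l, α' x = m * d := by
      intro l hl
      obtain ⟨m, -, h11, h12⟩ := hf.bk l (hJ'J hl)
      rw [blk_restrict hl]
      refine ⟨m, h11, ?_⟩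
      rw [← h12]
      apply sum_congr rfl
      intro x hx
      rw [hα', Finsupp.filter_apply, if_pos]
      rw [(mem_blk.1 hx).2]
      exact hl
    choose! m hm1 hm2 using h10
    rw [sum_congr rfl hm2, ← sum_mul] at h9
    have h13 : ∑ l ∈ J', m l = k1 + 1 + 1 := Nat.eq_of_mul_eq_mul_right (by omega) h9
    rw [h7, sum_congr rfl hm1, sum_add_distrib, ← sum_mul, h13, sum_const, smul_eq_mul, mul_one]
  obtain ⟨g', hg', hg'Y⟩ := exists_ts hd hY1 J' hJ'1 hcard
  obtain ⟨l, hl⟩ : ∃ l, l ∈ J \ J' := by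
    have := card_sdiff_of_subset hJ'J
    apply card_pos.1
    omega
  rw [mem_sdiff] at hl
  let g : σ → ℕ := fun x => if f x ∈ J' then g' x else f x
  have hg1 : ∀ x, f x ∈ J' → g x = g' x := fun x hx => if_pos hx
  have hg2 : ∀ x, f x ∉ J' → g x = f x := fun x hx => if_neg hx
  have hα'v : ∀ x, f x ∈ J' → α' x = α x := fun x hx => by
    rw [hα', Finsupp.filter_apply, if_pos hx]
  have hb1 : ∀ i ∈ J', blk α g i = blk α' g' i := by
    intro i hi
    ext x
    rw [mem_blk, mem_blk]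
    constructor
    · rintro ⟨h7, h8⟩
      by_cases h9 : f x ∈ J'
      · rw [hα'v x h9, ← hg1 x h9]
        exact ⟨h7, h8⟩
      · rw [hg2 x h9] at h8
        exact absurd (h8 ▸ hi) h9
    · rintro ⟨h7, h8⟩
      have h9 := hmem' x (Finsupp.mem_support_iff.2 h7)
      rw [hα'v x h9] at h7
      rw [hg1 x h9]
      exact ⟨h7, h8⟩
  have hb2 : ∀ i ∉ J', blk α g i = blk α f i := by
    intro i hi
    ext x
    rw [mem_blk, mem_blk]
    by_cases h9 : f x ∈ J'
    · rw [hg1 x h9]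
      constructor
      · rintro ⟨h7, h8⟩
        have h10 := hg'.mem x (Finsupp.mem_support_iff.2 (by rwa [hα'v x h9]))
        exact absurd (h8 ▸ h10) hi
      · rintro ⟨h7, h8⟩
        exact absurd (h8 ▸ h9) hi
    · rw [hg2 x h9]
  refine ⟨g, l, ⟨?_, ?_⟩, ?_, hl.1, ?_⟩
  · intro x hx
    by_cases h9 : f x ∈ J'
    · rw [hg1 x h9]
      rw [Finsupp.mem_support_iff] at hx
      exact hJ'J (hg'.mem x (Finsupp.mem_support_iff.2 (by rwa [hα'v x h9])))
    · rw [hg2 x h9]
      exact hf.mem x hx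
  · intro i hi
    by_cases h9 : i ∈ J'
    · rw [hb1 i h9]
      obtain ⟨m, h10, h11, h12⟩ := hg'.bk i h9
      refine ⟨m, h10, h11, ?_⟩
      rw [← h12]
      apply sum_congr rfl
      intro x hx
      have h13 := hmem' x (Finsupp.mem_support_iff.2 (mem_blk.1 hx).1)
      rw [hα'v x h13]
    · rw [hb2 i h9]
      exact hf.bk i hi
  · intro r hr
    have hZcase : ∀ r ∈ Z1 + Z2, ∃ j, ∀ v ∈ r.support, g v = j := by
      intro r hr
      rcases Multiset.mem_add.1 hr with h7 | h7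
      · obtain ⟨j, hj⟩ := hg'Y r (by simp [h7])
        refine ⟨j, fun x hx => ?_⟩
        rw [hg1 x, hj x hx]
        have h8 := hZ1.le h7
        have h9 := Finsupp.support_mono h8 hx
        rw [Finsupp.support_filter, mem_filter] at h9
        exact h9.2
      · obtain ⟨j, hj⟩ := hfX r (by simp [h7])
        refine ⟨j, fun x hx => ?_⟩
        rw [hg2 x, hj x hx]
        have h8 := hZ2.le h7
        have h9 := Finsupp.support_mono h8 hx
        rw [Finsupp.support_filter, mem_filter] at h9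
        exact h9.2
    rw [Multiset.mem_cons, Multiset.mem_cons] at hr
    rcases hr with rfl | rfl | hr
    · obtain ⟨j, hj⟩ := hg'Y r (by simp)
      exact ⟨j, fun x hx => by rw [hg1 x (hu'p x hx), hj x hx]⟩
    · obtain ⟨j, hj⟩ := hg'Y r (by simp)
      exact ⟨j, fun x hx => by rw [hg1 x (hv'p x hx), hj x hx]⟩
    · exact hZcase r hr
  · intro x hx
    by_cases h9 : f x ∈ J'
    · rw [hg1 x h9]
      rw [Finsupp.mem_support_iff] at hx
      have h10 := hg'.mem x (Finsupp.mem_support_iff.2 (by rwa [hα'v x h9]))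
      constructor
      · intro h11; exact absurd (h11 ▸ h9) hl.2
      · intro h11; exact absurd (h11 ▸ h10) hl.2
    · rw [hg2 x h9]

/-- Tight states whose blocks fall into two classes. -/
theorem exists_not_linked (hd : 1 ≤ d) (hdeg : α.degree = k * d) (hk : 1 ≤ k)
    (hJ : 3 ≤ J.card)
    (Q : Finset σ → Prop)
    (hinv : ∀ f, TS d t α J f → ∀ i ∈ J, ∀ j ∈ J, Q (blk α f i) → Q (blk α f j))
    {fA fB : σ → ℕ} (hA : TS d t α J fA) (hQA : ∃ j ∈ J, Q (blk α fA j)) (hB : TS d t α J fB)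
    {i : ℕ} {P : Finset σ} {u v : σ} (hL : Leaf α d t (blk α fB i) P v) (hu : u ∈ P)
    (hlt : ∑ x ∈ P, α x < d)
    (hQB : ∀ f, TS d t α J f → f u = f v → ∃ j ∈ J, ¬ Q (blk α f j)) :
    ∃ X Y, Cfg d (t + 1) k α X ∧ Cfg d (t + 1) k α Y ∧ ¬ Linked d (t + 1) X Y := by
  obtain ⟨X, hX, hXA⟩ := exists_real hd hdeg hA.ws
  -- the second configuration
  obtain ⟨β, hβ⟩ := exists_add_of_le hL.lrow_le
  have hsup : (lrow α d P v).support ⊆ blk α fB i := by
    intro x hx
    rcases mem_insert.1 (support_lrow hx) with rfl | h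
    · exact hL.mem
    · exact hL.sub h
  have hPβ : ∀ x ∈ P, β x = 0 := by
    intro x hx
    have h1 : α x = lrow α d P v x + β x := by
      conv_lhs => rw [hβ]
      rfl
    rw [lrow_apply, if_pos hx] at h1
    omega
  have hr := hL.isRow
  have hws := hB.remove hr.1 hβ hsup hL.sub hL.card hPβ
  have hdβ : β.degree = (k - 1) * d := by
    have h1 := congrArg Finsupp.degree hβ
    rw [map_add, hr.1, hdeg] at h1
    rw [Nat.sub_mul, one_mul]
    omega
  obtain ⟨Y', hY', hYB⟩ := exists_real hd hdβ hws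
  have hY : Cfg d (t + 1) k α (lrow α d P v ::ₘ Y') := by
    have h1 := hY'.cons hr
    rw [← hβ, Nat.sub_add_cancel hk] at h1
    exact h1
  refine ⟨X, _, hX, hY, fun hlink => ?_⟩
  have key : ∀ Z, Linked d (t + 1) X Z → ∃ f, TS d t α J f ∧ Compat f Z ∧
      ∃ j ∈ J, Q (blk α f j) := by
    intro Z hZ
    induction hZ with
    | refl => exact ⟨fA, hA, hXA, hQA⟩
    | @tail Z1 Z2 h1 h2 ih =>
      obtain ⟨f, hf, hfZ, j, hj, hQ⟩ := ih
      obtain ⟨g, l, hg, hgZ, hl, hfg⟩ := step_ts hd (Linked.cfg h1 hX) h2 hf hfZ hJ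
      refine ⟨g, hg, hgZ, l, hl, ?_⟩
      have e1 : blk α g l = blk α f l := by
        ext x
        rw [mem_blk, mem_blk]
        constructor
        · rintro ⟨h3, h4⟩
          exact ⟨h3, (hfg x (Finsupp.mem_support_iff.2 h3)).2 h4⟩
        · rintro ⟨h3, h4⟩
          exact ⟨h3, (hfg x (Finsupp.mem_support_iff.2 h3)).1 h4⟩
      rw [e1]
      exact hinv f hf j hj l hl hQ
  obtain ⟨f, hf, hfY, j, hj, hQ⟩ := key _ hlink
  obtain ⟨l, hl⟩ := hfY (lrow α d P v) (by simp)
  have hum : u ∈ (lrow α d P v).support := by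
    rw [Finsupp.mem_support_iff, lrow_apply, if_pos hu]
    have := (mem_blk.1 (hL.sub hu)).1
    omega
  have hvm : v ∈ (lrow α d P v).support := by
    rw [Finsupp.mem_support_iff, lrow_apply, if_neg hL.nmem, if_pos rfl]
    omega
  obtain ⟨j', hj', hQ'⟩ := hQB f hf ((hl u hum).trans (hl v hvm).symm)
  exact hQ' (hinv f hf j hj j' hj' hQ)

end Pool.Agent.Lib.MP_e26c3f_al
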