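import Mathlib
import Pool.Agent.Lib.MP_e26c3f_al.NegBlocks

/-! Numerical input for disconnected fibres with three tight blocks. -/

set_option autoImplicit false
set_option linter.unusedSectionVars false

namespace Pool.Agent.Lib.MP_e26c3f_al

open Finset

variable {σ : Type*} [DecidableEq σ]
variable {α β : σ →₀ ℕ} {d s t k : ℕ} {J : Finset ℕ} {f g h : σ → ℕ}

/-- A finite set can be split into three parts of given sizes. -/
lemma exists_three_way (F : Finset σ) (n : ℕ → ℕ) (h : F.card = n 0 + n 1 + n 2) :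
    ∃ g : σ → ℕ, (∀ v, g v < 3) ∧ ∀ j < 3, (F.filter fun v => g v = j).card = n j := by
  obtain ⟨F0, hF0, h0⟩ := exists_subset_card_eq (show n 0 ≤ F.card by omega)
  have h2 : (F \ F0).card = n 1 + n 2 := by
    rw [card_sdiff_of_subset hF0]; omega
  obtain ⟨F1, hF1, h1⟩ := exists_subset_card_eq (show n 1 ≤ (F \ F0).card by omega)
  have h3 : ((F \ F0) \ F1).card = n 2 := by
    rw [card_sdiff_of_subset hF1]; omega
  have hF1' : ∀ v ∈ F1, v ∈ F ∧ v ∉ F0 := fun v hv => mem_sdiff.1 (hF1 hv)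
  obtain ⟨g, g0, g1, g2⟩ : ∃ g : σ → ℕ, (∀ v, v ∈ F0 → g v = 0) ∧
      (∀ v, v ∉ F0 → v ∈ F1 → g v = 1) ∧ (∀ v, v ∉ F0 → v ∉ F1 → g v = 2) :=
    ⟨fun v => if v ∈ F0 then 0 else if v ∈ F1 then 1 else 2, fun v h => if_pos h,
      fun v h h' => (if_neg h).trans (if_pos h'), fun v h h' => (if_neg h).trans (if_neg h')⟩
  have gc : ∀ v, (v ∈ F0 ∧ g v = 0) ∨ (v ∉ F0 ∧ v ∈ F1 ∧ g v = 1) ∨
      (v ∉ F0 ∧ v ∉ F1 ∧ g v = 2) := by
    intro v
    by_cases h4 : v ∈ F0
    · exact Or.inl ⟨h4, g0 v h4⟩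
    · by_cases h5 : v ∈ F1
      · exact Or.inr (Or.inl ⟨h4, h5, g1 v h4 h5⟩)
      · exact Or.inr (Or.inr ⟨h4, h5, g2 v h4 h5⟩)
  refine ⟨g, fun v => ?_, fun j hj => ?_⟩
  · rcases gc v with h4 | h4 | h4 <;> omega
  · interval_cases j
    · rw [← h0]
      congr 1
      ext v
      rw [mem_filter]
      constructor
      · rintro ⟨-, hv⟩
        rcases gc v with h4 | h4 | h4
        · exact h4.1
        · omega
        · omega
      · intro hv
        exact ⟨hF0 hv, g0 v hv⟩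
    · rw [← h1]
      congr 1
      ext v
      rw [mem_filter]
      constructor
      · rintro ⟨-, hv⟩
        rcases gc v with h4 | h4 | h4
        · omega
        · exact h4.2.1
        · omega
      · intro hv
        obtain ⟨h4, h5⟩ := hF1' v hv
        exact ⟨h4, g1 v h5 hv⟩
    · rw [← h3]
      congr 1
      ext v
      rw [mem_filter, mem_sdiff, mem_sdiff]
      constructor
      · rintro ⟨h4, hv⟩
        rcases gc v with h5 | h5 | h5
        · omega
        · omega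
        · exact ⟨⟨h4, h5.1⟩, h5.2.1⟩
      · rintro ⟨⟨h4, h5⟩, h6⟩
        exact ⟨h4, g2 v h5 h6⟩

/-- Extending labels of heavy variables to tight states. -/
lemma exists_ts_ext {H : Finset σ} (hH : ∀ v ∈ H, α v ≠ 0) (hone : ∀ v, v ∉ H → α v ≤ 1)
    (φ : σ → ℕ) (hφ : ∀ v ∈ H, φ v < 3) (m : ℕ → ℕ) (hm : ∀ j < 3, 1 ≤ m j)
    (hc : ∀ j < 3, (H.filter fun v => φ v = j).card ≤ m j * t + 1)
    (hs : ∀ j < 3, ∑ v ∈ H.filter (fun v => φ v = j), α v + (m j * t + 1) =
      m j * d + (H.filter fun v => φ v = j).card)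
    (hcard : α.support.card = (m 0 + m 1 + m 2) * t + 3) :
    ∃ f, TS d t α (range 3) f ∧ (∀ v ∈ H, f v = φ v) ∧
      ∀ j < 3, (blk α f j).card = m j * t + 1 ∧ ∑ v ∈ blk α f j, α v = m j * d := by
  have hHs : H ⊆ α.support := fun v hv => Finsupp.mem_support_iff.2 (hH v hv)
  have hHc : H.card = (H.filter fun v => φ v = 0).card + (H.filter fun v => φ v = 1).card +
      (H.filter fun v => φ v = 2).card := by
    have h1 := card_eq_sum_card_fiberwise (f := φ) (s := H) (t := range 3)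
      (fun v hv => mem_coe.2 (mem_range.2 (hφ v hv)))
    rw [h1, sum_range_succ, sum_range_succ, sum_range_one]
  have hFc := card_sdiff_of_subset hHs
  have c0 := hc 0 (by norm_num)
  have c1 := hc 1 (by norm_num)
  have c2 := hc 2 (by norm_num)
  have hle := card_le_card hHs
  obtain ⟨g, hg3, hg⟩ := exists_three_way (α.support \ H)
    (fun j => m j * t + 1 - (H.filter fun v => φ v = j).card) (by
      show _ = (m 0 * t + 1 - _) + (m 1 * t + 1 - _) + (m 2 * t + 1 - _)
      rw [add_mul, add_mul] at hcard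
      omega)
  let f : σ → ℕ := fun v => if v ∈ H then φ v else g v
  have hf1 : ∀ v, v ∈ H → f v = φ v := fun v hv => if_pos hv
  have hf2 : ∀ v, v ∉ H → f v = g v := fun v hv => if_neg hv
  have hblk : ∀ j, blk α f j = (H.filter fun v => φ v = j) ∪
      ((α.support \ H).filter fun v => g v = j) := by
    intro j
    ext v
    rw [mem_blk, mem_union, mem_filter, mem_filter, mem_sdiff, Finsupp.mem_support_iff]
    by_cases hv : v ∈ H
    · rw [hf1 v hv]
      exact ⟨fun h => Or.inl ⟨hv, h.2⟩, fun h => h.elim (fun h => ⟨hH v hv, h.2⟩)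
        (fun h => absurd hv h.1.2)⟩
    · rw [hf2 v hv]
      exact ⟨fun h => Or.inr ⟨⟨h.1, hv⟩, h.2⟩, fun h => h.elim (fun h => absurd h.1 hv)
        (fun h => ⟨h.1.1, h.2⟩)⟩
  have hdj : ∀ j, Disjoint (H.filter fun v => φ v = j)
      ((α.support \ H).filter fun v => g v = j) := by
    intro j
    rw [disjoint_left]
    intro v h1 h2
    exact (mem_sdiff.1 (mem_filter.1 h2).1).2 (mem_filter.1 h1).1
  have key : ∀ j < 3, (blk α f j).card = m j * t + 1 ∧ ∑ v ∈ blk α f j, α v = m j * d := by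
    intro j hj
    have h1 := hg j hj
    have h2 := hc j hj
    have h3 := hs j hj
    constructor
    · rw [hblk, card_union_of_disjoint (hdj j), h1]
      omega
    · rw [hblk, sum_union (hdj j)]
      have h4 : ∑ v ∈ (α.support \ H).filter (fun v => g v = j), α v =
          ((α.support \ H).filter fun v => g v = j).card := by
        rw [card_eq_sum_ones]
        apply sum_congr rfl
        intro v hv
        have h5 := mem_sdiff.1 (mem_filter.1 hv).1
        have h6 := hone v h5.2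
        have h7 := Finsupp.mem_support_iff.1 h5.1
        omega
      rw [h4, h1]
      omega
  refine ⟨f, ⟨fun v hv => ?_, fun j hj => ?_⟩, hf1, key⟩
  · rw [mem_range]
    by_cases h : v ∈ H
    · rw [hf1 v h]; exact hφ v h
    · rw [hf2 v h]; exact hg3 v
  · obtain ⟨h1, h2⟩ := key j (mem_range.1 hj)
    exact ⟨m j, hm j (mem_range.1 hj), h1, h2⟩

/-- Sum of the weights of the elements with label `j`. -/
def ls (l : List σ) (f c : σ → ℕ) (j : ℕ) : ℕ := (l.map fun x => if f x = j then c x else 0).sum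

lemma ls_eq {l : List σ} (hl : l.Nodup) (f c : σ → ℕ) (j : ℕ) :
    ls l f c j = ∑ x ∈ l.toFinset.filter (fun x => f x = j), c x := by
  rw [sum_filter, List.sum_toFinset _ hl]
  rfl

/-- Enumeration of all labellings by three labels. -/
def chk3 (B : ℕ) (P : ℕ → ℕ → ℕ → ℕ → ℕ → ℕ → Bool) : List ℕ → ℕ → ℕ → ℕ → ℕ → ℕ → ℕ → Bool
  | [], s0, s1, s2, q0, q1, q2 => P s0 s1 s2 q0 q1 q2
  | a :: l, s0, s1, s2, q0, q1, q2 =>
    (Nat.blt B (s0 + a) || chk3 B P l (s0 + a) s1 s2 (q0 + a * a) q1 q2) &&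
    (Nat.blt B (s1 + a) || chk3 B P l s0 (s1 + a) s2 q0 (q1 + a * a) q2) &&
    (Nat.blt B (s2 + a) || chk3 B P l s0 s1 (s2 + a) q0 q1 (q2 + a * a))

lemma chk3_sound {B : ℕ} {P : ℕ → ℕ → ℕ → ℕ → ℕ → ℕ → Bool} (c : σ → ℕ) (l : List σ)
    (hf : ∀ v ∈ l, f v < 3) :
    ∀ s0 s1 s2 q0 q1 q2, chk3 B P (l.map c) s0 s1 s2 q0 q1 q2 = true →
      s0 + ls l f c 0 ≤ B → s1 + ls l f c 1 ≤ B → s2 + ls l f c 2 ≤ B →
      P (s0 + ls l f c 0) (s1 + ls l f c 1) (s2 + ls l f c 2)
        (q0 + ls l f (fun x => c x * c x) 0) (q1 + ls l f (fun x => c x * c x) 1)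
        (q2 + ls l f (fun x => c x * c x) 2) = true := by
  induction l with
  | nil =>
    intro s0 s1 s2 q0 q1 q2 h _ _ _
    exact h
  | cons a l ih =>
    intro s0 s1 s2 q0 q1 q2 h h0 h1 h2
    have ih' := ih fun v hv => hf v (List.mem_cons_of_mem _ hv)
    rw [List.map_cons, chk3, Bool.and_eq_true, Bool.and_eq_true, Bool.or_eq_true,
      Bool.or_eq_true, Bool.or_eq_true, Nat.blt_eq, Nat.blt_eq, Nat.blt_eq] at h
    obtain ⟨⟨k0, k1⟩, k2⟩ := h
    have e : ∀ (c : σ → ℕ) j, ls (a :: l) f c j = (if f a = j then c a else 0) + ls l f c j := by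
      intro c j
      unfold ls
      rw [List.map_cons, List.sum_cons]
    rw [e] at h0 h1 h2
    rw [e, e, e, e, e, e]
    have ha := hf a List.mem_cons_self
    have hcase : f a = 0 ∨ f a = 1 ∨ f a = 2 := by omega
    rcases hcase with hfa | hfa | hfa
    · simp only [hfa, if_true, zero_ne_one, OfNat.zero_ne_ofNat, if_false, zero_add] at h0 h1 h2 ⊢
      rw [← add_assoc] at h0 ⊢
      rw [← add_assoc]
      exact ih' _ _ _ _ _ _ (k0.resolve_left (by omega)) h0 h1 h2
    · simp only [hfa, if_true, one_ne_zero, OfNat.one_ne_ofNat, if_false, zero_add] at h0 h1 h2 ⊢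
      rw [← add_assoc] at h1 ⊢
      rw [← add_assoc]
      exact ih' _ _ _ _ _ _ (k1.resolve_left (by omega)) h0 h1 h2
    · simp only [hfa, if_true, OfNat.ofNat_ne_zero, OfNat.ofNat_ne_one, if_false,
        zero_add] at h0 h1 h2 ⊢
      rw [← add_assoc] at h2 ⊢
      rw [← add_assoc]
      exact ih' _ _ _ _ _ _ (k2.resolve_left (by omega)) h0 h1 h2

/-- The block sums of a tight state. -/
lemma ts_vals (ht : 1 ≤ t) (hdt : t ≤ d) {l : List σ} (hl : l.Nodup)
    (hone : ∀ v, v ∉ l → α v ≤ 1)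
    (hcard : α.support.card = k * t + 3) (hf : TS d t α (range 3) f) :
    ∃ m : ℕ → ℕ, (∀ j < 3, 1 ≤ m j ∧ ls l f (exc α) j + 1 = m j * (d - t)) ∧
      m 0 + m 1 + m 2 = k := by
  have h1 : ∀ j < 3, ∃ m, 1 ≤ m ∧ (blk α f j).card = m * t + 1 ∧
      ls l f (exc α) j + 1 = m * (d - t) := by
    intro j hj
    obtain ⟨m, h1, h2, -, h3⟩ := hf.sum_exc hdt (mem_range.2 hj)
    refine ⟨m, h1, h2, ?_⟩
    rw [← h3, ls_eq hl]
    congr 1
    symm
    apply sum_subset
    · intro v hv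
      rw [mem_filter, mem_NF] at hv
      rw [mem_filter, List.mem_toFinset]
      refine ⟨?_, hv.2⟩
      by_contra h4
      have := hone v h4
      omega
    · intro v hv hv'
      rw [mem_filter] at hv
      have : ¬ 2 ≤ α v := fun h => hv' (mem_filter.2 ⟨mem_NF.2 h, hv.2⟩)
      unfold exc
      omega
  choose! m hm1 hm2 hm3 using h1
  refine ⟨m, fun j hj => ⟨hm1 j hj, hm3 j hj⟩, ?_⟩
  have h2 := card_blk hf.mem
  rw [hcard, sum_range_succ, sum_range_succ, sum_range_one, hm2 0 (by norm_num),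
    hm2 1 (by norm_num), hm2 2 (by norm_num)] at h2
  have h3 : (m 0 + m 1 + m 2) * t = k * t := by
    rw [add_mul, add_mul]; omega
  exact Nat.eq_of_mul_eq_mul_right (by omega) h3

end Pool.Agent.Lib.MP_e26c3f_al
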