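import Mathlib
import Pool.Agent.Lib.MP_e26c3f_al.NegNum

/-! The general theorem on disconnected fibres with three tight blocks. -/

set_option autoImplicit false
set_option linter.unusedSectionVars false

namespace Pool.Agent.Lib.MP_e26c3f_al

open Finset

variable {σ : Type*} [DecidableEq σ]
variable {α β : σ →₀ ℕ} {d s t k : ℕ} {J : Finset ℕ} {f g h : σ → ℕ}

/-- All blocks have the same class. -/
def pInv (T val : ℕ → Bool) (s0 s1 s2 q0 q1 q2 : ℕ) : Bool :=
  !(val s0 && val s1 && val s2) || (T q0 == T q1 && T q1 == T q2)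

/-- The first block does not have the property. -/
def pNo (T val : ℕ → Bool) (s0 s1 s2 q0 _q1 _q2 : ℕ) : Bool :=
  !(val s0 && val s1 && val s2) || !(T q0)

lemma exists_leaf_B {b : ℕ} (ht : 9 ≤ t) {l : List σ} (hlen : l.length = 9)
    (hone : ∀ x, x ∉ l → α x ≤ 1) {u v : σ} (hu : u ∈ l)
    (hv : v ∈ l) (huv : u ≠ v) {i m : ℕ} (hui : u ∈ blk α f i) (hvi : v ∈ blk α f i)
    (hc : (blk α f i).card = m * t + 1) (hs : ∑ x ∈ blk α f i, α x = m * (t + b))
    (hm : m = 1 ∨ (m = 2 ∧ α u ≤ b ∧ b + 1 ≤ α u + α v)) :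
    ∃ P, Leaf α (t + b) t (blk α f i) P v ∧ u ∈ P ∧ ∑ x ∈ P, α x < t + b := by
  rcases hm with rfl | ⟨rfl, h1, h2⟩
  · have h3 := sum_erase_add _ α hvi
    rw [hs, one_mul] at h3
    have h4 : α v ≠ 0 := (mem_blk.1 hvi).1
    refine ⟨(blk α f i).erase v, ⟨erase_subset _ _, ?_, hvi, notMem_erase _ _, by omega, by omega⟩,
      mem_erase.2 ⟨huv, hui⟩, by omega⟩
    rw [card_erase_of_mem hvi, hc]
    omega
  · have h3 : t - 1 ≤ (blk α f i \ l.toFinset).card := by
      have h4 := le_card_sdiff l.toFinset (blk α f i)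
      have h5 := List.toFinset_card_le l
      omega
    obtain ⟨F, hF, hFc⟩ := exists_subset_card_eq h3
    have hF' : ∀ x ∈ F, x ∈ blk α f i ∧ x ∉ l := fun x hx => by
      have := mem_sdiff.1 (hF hx)
      exact ⟨this.1, fun h => this.2 (List.mem_toFinset.2 h)⟩
    have huF : u ∉ F := fun h => (hF' u h).2 hu
    have hvF : v ∉ F := fun h => (hF' v h).2 hv
    have hsF : ∑ x ∈ F, α x = t - 1 := by
      rw [← hFc, card_eq_sum_ones]
      apply sum_congr rfl
      intro x hx
      have h5 := hone x (hF' x hx).2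
      have h6 := (mem_blk.1 (hF' x hx).1).1
      omega
    have hsP : ∑ x ∈ insert u F, α x = α u + (t - 1) := by
      rw [sum_insert huF, hsF]
    refine ⟨insert u F, ⟨?_, ?_, hvi, ?_, by omega, by omega⟩, mem_insert_self _ _, by omega⟩
    · intro x hx
      rcases mem_insert.1 hx with rfl | hx
      · exact hui
      · exact (hF' x hx).1
    · rw [card_insert_of_notMem huF, hFc]
      omega
    · intro h
      rcases mem_insert.1 h with h | h
      · exact huv h.symm
      · exact hvF h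

lemma exists_state {b : ℕ} (ht : 9 ≤ t) {l : List σ} (hl : l.Nodup)
    (hlen : l.length = 9) (hpos : ∀ x ∈ l, α x ≠ 0) (hone : ∀ x, x ∉ l → α x ≤ 1)
    (hcard : α.support.card = k * t + 3) (φ : σ → ℕ) (hφ : ∀ x ∈ l, φ x < 3) (m : ℕ → ℕ)
    (hm : ∀ j < 3, 1 ≤ m j ∧ ls l φ (exc α) j + 1 = m j * b) (hk : m 0 + m 1 + m 2 = k) :
    ∃ f, TS (t + b) t α (range 3) f ∧ (∀ x ∈ l, f x = φ x) ∧
      ∀ j < 3, (blk α f j).card = m j * t + 1 ∧ ∑ v ∈ blk α f j, α v = m j * (t + b) := by
  have hle : ∀ j < 3, t ≤ m j * t := fun j hj => Nat.le_mul_of_pos_left _ (hm j hj).1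
  obtain ⟨f, h1, h2, h3⟩ := exists_ts_ext (α := α) (d := t + b) (t := t) (H := l.toFinset)
    (fun x hx => hpos x (List.mem_toFinset.1 hx))
    (fun x hx => hone x fun h => hx (List.mem_toFinset.2 h)) φ
    (fun x hx => hφ x (List.mem_toFinset.1 hx)) m (fun j hj => (hm j hj).1)
    (fun j hj => by
      have h4 := card_le_card (filter_subset (fun v => φ v = j) l.toFinset)
      have h5 := List.toFinset_card_le l
      have h6 := hle j hj
      omega)
    (fun j hj => by
      have h4 := (hm j hj).2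
      rw [ls_eq hl] at h4
      have h5 : ∑ v ∈ l.toFinset.filter (fun v => φ v = j), α v =
          ∑ v ∈ l.toFinset.filter (fun v => φ v = j), exc α v +
            (l.toFinset.filter fun v => φ v = j).card := by
        rw [card_eq_sum_ones, ← sum_add_distrib]
        apply sum_congr rfl
        intro v hv
        have := hpos v (List.mem_toFinset.1 (mem_filter.1 hv).1)
        unfold exc
        omega
      rw [h5, mul_add]
      omega) (by rw [hk]; exact hcard)
  exact ⟨f, h1, fun x hx => h2 x (List.mem_toFinset.2 hx), h3⟩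

lemma sum_blk_sq {l : List σ} (hl : l.Nodup) (hpos : ∀ x ∈ l, α x ≠ 0) (c : σ → ℕ)
    (hc : ∀ x, x ∉ l → c x = 0) (f : σ → ℕ) (j : ℕ) :
    ∑ x ∈ blk α f j, c x = ls l f c j := by
  rw [ls_eq hl]
  symm
  apply sum_subset
  · intro x hx
    rw [mem_filter, List.mem_toFinset] at hx
    exact mem_blk.2 ⟨hpos x hx.1, hx.2⟩
  · intro x hx hx'
    apply hc
    intro hxl
    exact hx' (mem_filter.2 ⟨List.mem_toFinset.2 hxl, (mem_blk.1 hx).2⟩)

/-- The general negative theorem. -/
theorem neg_num {b : ℕ} (ht : 9 ≤ t) {u v : σ} {l' : List σ} (hl : (u :: v :: l').Nodup)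
    (hlen : l'.length = 7) (hpos : ∀ x ∈ u :: v :: l', α x ≠ 0)
    (hone : ∀ x, x ∉ u :: v :: l' → α x ≤ 1)
    (hcard : α.support.card = k * t + 3) (hdeg : α.degree = k * (t + b))
    (c : σ → ℕ) (hc : ∀ x, x ∉ u :: v :: l' → c x = 0) (B : ℕ) (T val : ℕ → Bool)
    (hval : ∀ f, TS (t + b) t α (range 3) f → ∀ j < 3,
      val (ls (u :: v :: l') f c j) = true ∧ ls (u :: v :: l') f c j ≤ B)
    (hchk : chk3 B (pInv T val) ((u :: v :: l').map c) 0 0 0 0 0 0 = true)
    (hno0 : chk3 B (pNo T val) (l'.map c) (c u + c v) 0 0 (c u * c u + c v * c v) 0 0 = true)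
    (hno1 : chk3 B (pNo T val) (l'.map c) 0 (c u + c v) 0 0 (c u * c u + c v * c v) 0 = true)
    (hno2 : chk3 B (pNo T val) (l'.map c) 0 0 (c u + c v) 0 0 (c u * c u + c v * c v) = true)
    (φA φB : σ → ℕ) (hφA : ∀ x ∈ u :: v :: l', φA x < 3) (hφB : ∀ x ∈ u :: v :: l', φB x < 3)
    (mA mB : ℕ → ℕ)
    (hmA : ∀ j < 3, 1 ≤ mA j ∧ ls (u :: v :: l') φA (exc α) j + 1 = mA j * b)
    (hmB : ∀ j < 3, 1 ≤ mB j ∧ ls (u :: v :: l') φB (exc α) j + 1 = mB j * b)
    (hkA : mA 0 + mA 1 + mA 2 = k) (hkB : mB 0 + mB 1 + mB 2 = k)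
    (hTA : T (ls (u :: v :: l') φA (fun x => c x * c x) 0) = true) (huv : φB u = φB v)
    (hrow : mB (φB u) = 1 ∨ (mB (φB u) = 2 ∧ α u ≤ b ∧ b + 1 ≤ α u + α v)) :
    ∃ X Y, Cfg (t + b) (t + 1) k α X ∧ Cfg (t + b) (t + 1) k α Y ∧
      ¬ Linked (t + b) (t + 1) X Y := by
  have hlen' : (u :: v :: l').length = 9 := by rw [List.length_cons, List.length_cons, hlen]
  obtain ⟨fA, hA, hA1, -⟩ := exists_state ht hl hlen' hpos hone hcard φA hφA mA hmA hkA
  obtain ⟨fB, hB, hB1, hB2⟩ := exists_state ht hl hlen' hpos hone hcard φB hφB mB hmB hkB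
  have hul : u ∈ u :: v :: l' := by simp
  have hvl : v ∈ u :: v :: l' := by simp
  have huv' : u ≠ v := by
    rintro rfl
    simp at hl
  have hui : u ∈ blk α fB (φB u) := mem_blk.2 ⟨hpos u hul, hB1 u hul⟩
  have hvi : v ∈ blk α fB (φB u) := mem_blk.2 ⟨hpos v hvl, (hB1 v hvl).trans huv.symm⟩
  obtain ⟨h3, h4⟩ := hB2 (φB u) (hφB u hul)
  obtain ⟨P, hL, huP, hlt⟩ := exists_leaf_B ht hlen' hone hul hvl huv' hui hvi h3 h4 hrow
  have hk1 : 1 ≤ k := by
    have := (hmA 0 (by norm_num)).1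
    omega
  have hc2 : ∀ x, x ∉ u :: v :: l' → (fun x => c x * c x) x = 0 := fun x hx => by
    show c x * c x = 0
    rw [hc x hx]
  have hlt3 : ∀ f, TS (t + b) t α (range 3) f → ∀ x ∈ u :: v :: l', f x < 3 := by
    intro f hf x hx
    exact mem_range.1 (hf.mem x (Finsupp.mem_support_iff.2 (hpos x hx)))
  refine exists_not_linked (by omega) hdeg hk1 (by rw [card_range])
    (fun S => T (∑ x ∈ S, c x * c x) = true) ?_ hA ⟨0, by simp, ?_⟩ hB hL huP hlt ?_
  · intro f hf i hi j hj hQ
    rw [mem_range] at hi hj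
    have e : ∀ j, ∑ x ∈ blk α f j, c x * c x = ls (u :: v :: l') f (fun x => c x * c x) j :=
      fun j => sum_blk_sq hl hpos _ hc2 f j
    have hQ' : T (ls (u :: v :: l') f (fun x => c x * c x) i) = true := by
      rw [← e]; exact hQ
    show T (∑ x ∈ blk α f j, c x * c x) = true
    rw [e]
    have v0 := hval f hf 0 (by norm_num)
    have v1 := hval f hf 1 (by norm_num)
    have v2 := hval f hf 2 (by norm_num)
    have h5 := chk3_sound c (u :: v :: l') (hlt3 f hf) 0 0 0 0 0 0 hchk (by omega) (by omega)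
      (by omega)
    simp only [zero_add] at h5
    unfold pInv at h5
    rw [v0.1, v1.1, v2.1] at h5
    simp only [Bool.and_self, Bool.not_true, Bool.false_or, Bool.and_eq_true, beq_iff_eq] at h5
    have tt : ∀ i < 3, T (ls (u :: v :: l') f (fun x => c x * c x) i) =
        T (ls (u :: v :: l') f (fun x => c x * c x) 0) := by
      intro i hi
      interval_cases i
      · rfl
      · exact h5.1.symm
      · exact (h5.1.trans h5.2).symm
    exact (tt j hj).trans ((tt i hi).symm.trans hQ')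
  · show T (∑ x ∈ blk α fA 0, c x * c x) = true
    rw [sum_blk_sq hl hpos _ hc2 fA 0]
    have : ls (u :: v :: l') fA (fun x => c x * c x) 0 =
        ls (u :: v :: l') φA (fun x => c x * c x) 0 := by
      unfold ls
      congr 1
      apply List.map_congr_left
      intro x hx
      rw [hA1 x hx]
    rw [this]
    exact hTA
  · intro f hf hfuv
    refine ⟨0, by simp, ?_⟩
    show ¬ T (∑ x ∈ blk α f 0, c x * c x) = true
    rw [sum_blk_sq hl hpos _ hc2 f 0]
    have v0 := hval f hf 0 (by norm_num)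
    have v1 := hval f hf 1 (by norm_num)
    have v2 := hval f hf 2 (by norm_num)
    have e : ∀ (c : σ → ℕ) j, ls (u :: v :: l') f c j =
        (if f u = j then c u + c v else 0) + ls l' f c j := by
      intro c j
      unfold ls
      rw [List.map_cons, List.map_cons, List.sum_cons, List.sum_cons, ← hfuv]
      split_ifs <;> ring
    have hl'3 : ∀ x ∈ l', f x < 3 := fun x hx => hlt3 f hf x (by simp [hx])
    have hu3 := hlt3 f hf u hul
    rw [e] at v0 v1 v2
    rw [e]
    have hcase : f u = 0 ∨ f u = 1 ∨ f u = 2 := by omega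
    rcases hcase with h6 | h6 | h6
    · simp only [h6, if_true, zero_ne_one, OfNat.zero_ne_ofNat, if_false, zero_add] at v0 v1 v2 ⊢
      have h5 := chk3_sound c l' hl'3 _ _ _ _ _ _ hno0 (by omega) (by omega) (by omega)
      unfold pNo at h5
      simp only [zero_add] at h5
      rw [v0.1, v1.1, v2.1] at h5
      simpa using h5
    · simp only [h6, if_true, one_ne_zero, OfNat.one_ne_ofNat, if_false, zero_add] at v0 v1 v2 ⊢
      have h5 := chk3_sound c l' hl'3 _ _ _ _ _ _ hno1 (by omega) (by omega) (by omega)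
      unfold pNo at h5
      simp only [zero_add] at h5
      rw [v0.1, v1.1, v2.1] at h5
      simpa using h5
    · simp only [h6, if_true, OfNat.ofNat_ne_zero, OfNat.ofNat_ne_one, if_false,
        zero_add] at v0 v1 v2 ⊢
      have h5 := chk3_sound c l' hl'3 _ _ _ _ _ _ hno2 (by omega) (by omega) (by omega)
      unfold pNo at h5
      simp only [zero_add] at h5
      rw [v0.1, v1.1, v2.1] at h5
      simpa using h5

end Pool.Agent.Lib.MP_e26c3f_al
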