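import Mathlib
import Pool.Agent.Lib.MP_e26c3f_al.NegData
import Pool.Agent.Lib.MP_e26c3f_al.Algebra

/-! Disconnected fibres from lists of numbers. -/

set_option autoImplicit false
set_option linter.unusedSectionVars false

namespace Pool.Agent.Lib.MP_e26c3f_al

open Finset

variable {K : Type*} [Field K]

lemma exists_fun {σ : Type*} [DecidableEq σ] (l : List σ) (hl : l.Nodup) :
    ∀ vals : List ℕ, vals.length = l.length → ∃ φ : σ → ℕ, l.map φ = vals ∧ ∀ x, x ∉ l → φ x = 0 := by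
  induction l with
  | nil =>
    intro vals h
    exact ⟨fun _ => 0, (List.length_eq_zero_iff.1 (by simpa using h)).symm ▸ rfl, fun _ _ => rfl⟩
  | cons a l ih =>
    intro vals h
    obtain ⟨v, vs, rfl⟩ := List.exists_cons_of_length_eq_add_one (h.trans List.length_cons)
    rw [List.nodup_cons] at hl
    obtain ⟨φ, h1, h2⟩ := ih hl.2 vs (by simpa using h)
    refine ⟨Function.update φ a v, ?_, ?_⟩
    · rw [List.map_cons, Function.update_self]
      congr 1
      rw [← h1]
      apply List.map_congr_left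
      intro x hx
      exact Function.update_of_ne (by rintro rfl; exact hl.1 hx) _ _
    · intro x hx
      rw [List.mem_cons, not_or] at hx
      rw [Function.update_of_ne hx.1]
      exact h2 x hx.2

/-- Sum of the numbers with label `j`. -/
def zs (F C : List ℕ) (j : ℕ) : ℕ := (List.zipWith (fun p a => if p = j then a else 0) F C).sum

lemma ls_eq_zs {σ : Type*} (l : List σ) (f c : σ → ℕ) (j : ℕ) :
    (l.map fun x => if f x = j then c x else 0).sum = zs (l.map f) (l.map c) j := by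
  unfold zs
  induction l with
  | nil => rfl
  | cons a l ih => simp only [List.map_cons, List.zipWith_cons_cons, List.sum_cons, ih]

lemma exists_alpha {n N : ℕ} (hN : 9 ≤ N) (hn : N ≤ n) (al : List ℕ) (hlen : al.length = 9) :
    ∃ (l : List (Fin n)) (α : Fin n →₀ ℕ), l.Nodup ∧ l.length = 9 ∧
      l.map α = al.map (fun a => a + 1) ∧ (∀ x, x ∉ l → α x ≤ 1) ∧ (∀ x ∈ l, α x ≠ 0) ∧
      α.support.card = N ∧ α.degree = N + al.sum := by
  obtain ⟨W, -, hW⟩ := exists_subset_card_eq (s := (univ : Finset (Fin n))) (n := N)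
    (by simpa using hn)
  obtain ⟨H, hHW, hH⟩ := exists_subset_card_eq (s := W) (n := 9) (by omega)
  have hnd := H.nodup_toList
  have hll : H.toList.length = 9 := by rw [length_toList, hH]
  obtain ⟨φ, h1, h2⟩ := exists_fun H.toList hnd (al.map fun a => a + 1) (by simp [hlen, hll])
  have hφ1 : ∀ x ∈ H, φ x ≠ 0 := by
    intro x hx
    have h3 : φ x ∈ H.toList.map φ := List.mem_map.2 ⟨x, mem_toList.2 hx, rfl⟩
    rw [h1, List.mem_map] at h3
    obtain ⟨a, -, h4⟩ := h3
    omega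
  have hφ0 : ∀ x, x ∉ H → φ x = 0 := fun x hx => h2 x (by rwa [mem_toList])
  set α : Fin n →₀ ℕ := Finsupp.equivFunOnFinite.symm
    (fun x => φ x + if x ∈ W \ H then 1 else 0) with hα
  have hαx : ∀ x, α x = φ x + if x ∈ W \ H then 1 else 0 := fun x => rfl
  have hαH : ∀ x ∈ H, α x = φ x := by
    intro x hx
    rw [hαx, if_neg, add_zero]
    rw [mem_sdiff]
    exact fun h => h.2 hx
  have hsupp : α.support = W := by
    ext x
    rw [Finsupp.mem_support_iff]
    by_cases hx : x ∈ H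
    · rw [hαH x hx]
      exact ⟨fun _ => hHW hx, fun _ => hφ1 x hx⟩
    · rw [hαx, hφ0 x hx, zero_add]
      split_ifs with h
      · exact ⟨fun _ => (mem_sdiff.1 h).1, fun _ => one_ne_zero⟩
      · exact ⟨fun h => absurd rfl h, fun hW => absurd (mem_sdiff.2 ⟨hW, hx⟩) h⟩
  refine ⟨H.toList, α, hnd, hll, ?_, ?_, ?_, ?_, ?_⟩
  · rw [← h1]
    apply List.map_congr_left
    intro x hx
    exact hαH x (mem_toList.1 hx)
  · intro x hx
    rw [mem_toList] at hx
    rw [hαx, hφ0 x hx]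
    split_ifs <;> omega
  · intro x hx
    rw [mem_toList] at hx
    rw [hαH x hx]
    exact hφ1 x hx
  · rw [hsupp, hW]
  · rw [Finsupp.degree_apply, hsupp, ← sum_sdiff hHW]
    have h3 : ∑ x ∈ W \ H, α x = N - 9 := by
      rw [← hW, ← hH, ← card_sdiff_of_subset hHW, card_eq_sum_ones]
      apply sum_congr rfl
      intro x hx
      rw [hαx, hφ0 x (mem_sdiff.1 hx).2, if_pos hx]
    have h4 : ∑ x ∈ H, α x = al.sum + 9 := by
      rw [sum_congr rfl hαH, ← sum_map_toList, h1]
      have : ∀ L : List ℕ, (L.map fun a => a + 1).sum = L.sum + L.length := by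
        intro L
        induction L with
        | nil => rfl
        | cons a L ih =>
          rw [List.map_cons, List.sum_cons, ih, List.sum_cons, List.length_cons]
          ring
      rw [this, hlen]
    omega

/-- The negative theorem for lists of numbers. -/
theorem neg_fin {n t b k : ℕ} (ht : 9 ≤ t) (hk : 1 ≤ k) (hn : k * t + 3 ≤ n)
    {a0 a1 c0 c1 p0 q0 : ℕ} {al' cl' labA' labB' : List ℕ}
    (hal : al'.length = 7) (hcl : cl'.length = 7) (hlA : labA'.length = 7)
    (hlB : labB'.length = 7) (hsum : (a0 :: a1 :: al').sum + 3 = k * b)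
    (B : ℕ) (T val : ℕ → Bool) (pA1 : ℕ)
    (hval : ∀ F : List ℕ, F.length = 9 → (∀ x ∈ F, x < 3) → (∃ m : ℕ → ℕ,
      (∀ j < 3, 1 ≤ m j ∧ zs F (a0 :: a1 :: al') j + 1 = m j * b) ∧ m 0 + m 1 + m 2 = k) →
      ∀ j < 3, val (zs F (c0 :: c1 :: cl') j) = true ∧ zs F (c0 :: c1 :: cl') j ≤ B)
    (hchk : chk3 B (pInv T val) (c0 :: c1 :: cl') 0 0 0 0 0 0 = true)
    (hno0 : chk3 B (pNo T val) cl' (c0 + c1) 0 0 (c0 * c0 + c1 * c1) 0 0 = true)
    (hno1 : chk3 B (pNo T val) cl' 0 (c0 + c1) 0 0 (c0 * c0 + c1 * c1) 0 = true)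
    (hno2 : chk3 B (pNo T val) cl' 0 0 (c0 + c1) 0 0 (c0 * c0 + c1 * c1) = true)
    (hA3 : ∀ x ∈ p0 :: pA1 :: labA', x < 3) (hB3 : ∀ x ∈ q0 :: q0 :: labB', x < 3)
    (mA mB : ℕ → ℕ)
    (hmA : ∀ j < 3, 1 ≤ mA j ∧ zs (p0 :: pA1 :: labA') (a0 :: a1 :: al') j + 1 = mA j * b)
    (hmB : ∀ j < 3, 1 ≤ mB j ∧ zs (q0 :: q0 :: labB') (a0 :: a1 :: al') j + 1 = mB j * b)
    (hkA : mA 0 + mA 1 + mA 2 = k) (hkB : mB 0 + mB 1 + mB 2 = k)
    (hTA : T (zs (p0 :: pA1 :: labA') ((c0 :: c1 :: cl').map fun c => c * c) 0) = true)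
    (hrow : mB q0 = 1 ∨ (mB q0 = 2 ∧ a0 + 1 ≤ b ∧ b ≤ a0 + a1 + 1)) :
    ¬ IsQuadratic K n (t + b) (t + 1) := by
  have hb : 1 ≤ b := by
    by_contra h
    have : b = 0 := by omega
    subst this
    omega
  have hkt : t ≤ k * t := Nat.le_mul_of_pos_left _ hk
  obtain ⟨l, α, h1, h2, h3, h4, h5, h6, h7⟩ := exists_alpha (n := n) (N := k * t + 3) (by omega) hn
    (a0 :: a1 :: al') (by simp [hal])
  obtain ⟨u, l1, rfl⟩ := List.exists_cons_of_length_eq_add_one h2
  obtain ⟨v, l', rfl⟩ := List.exists_cons_of_length_eq_add_one (by simpa using h2)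
  have hl' : l'.length = 7 := by simpa using h2
  obtain ⟨c, hc1, hc2⟩ := exists_fun (u :: v :: l') h1 (c0 :: c1 :: cl') (by simp [hcl, hl'])
  obtain ⟨φA, hA1, -⟩ := exists_fun (u :: v :: l') h1 (p0 :: pA1 :: labA') (by simp [hlA, hl'])
  obtain ⟨φB, hB1, -⟩ := exists_fun (u :: v :: l') h1 (q0 :: q0 :: labB') (by simp [hlB, hl'])
  have hex : (u :: v :: l').map (exc α) = a0 :: a1 :: al' := by
    have e1 : (u :: v :: l').map (exc α) = ((u :: v :: l').map α).map (fun a => a - 1) := by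
      rw [List.map_map]; rfl
    rw [e1, h3, List.map_map]
    conv_rhs => rw [← List.map_id (a0 :: a1 :: al')]
    apply List.map_congr_left
    intro x _
    show x + 1 - 1 = x
    omega
  have hc1' := hc1
  rw [List.map_cons, List.map_cons, List.cons.injEq, List.cons.injEq] at hc1'
  obtain ⟨ec0, ec1, ecl⟩ := hc1'
  have hB1' := hB1
  rw [List.map_cons, List.map_cons, List.cons.injEq, List.cons.injEq] at hB1'
  obtain ⟨eB0, eB1, -⟩ := hB1'
  have hex' := hex
  rw [List.map_cons, List.map_cons, List.cons.injEq, List.cons.injEq] at hex'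
  obtain ⟨ea0, ea1, -⟩ := hex'
  have hu0 := h5 u (by simp)
  have hv0 := h5 v (by simp)
  have eau : α u = a0 + 1 := by
    unfold exc at ea0; omega
  have eav : α v = a1 + 1 := by
    unfold exc at ea1; omega
  have key : ∀ f g : Fin n → ℕ, ∀ F G : List ℕ, (u :: v :: l').map f = F →
      (u :: v :: l').map g = G → ∀ j, ls (u :: v :: l') f g j = zs F G j := by
    rintro f g F G rfl rfl j
    exact ls_eq_zs _ _ _ _
  have hlt3 : ∀ φ : Fin n → ℕ, ∀ F : List ℕ, (u :: v :: l').map φ = F → (∀ x ∈ F, x < 3) →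
      ∀ x ∈ u :: v :: l', φ x < 3 := by
    rintro φ F rfl hF x hx
    exact hF _ (List.mem_map.2 ⟨x, hx, rfl⟩)
  have hdeg : α.degree = k * (t + b) := by
    rw [h7, mul_add]
    omega
  obtain ⟨X, Y, hX, hY, hXY⟩ := neg_num (b := b) ht h1 hl' h5 h4 h6 hdeg c hc2 B T val
    (by
      intro f hf j hj
      have hf3 : ∀ x ∈ (u :: v :: l').map f, x < 3 := by
        intro x hx
        obtain ⟨y, hy, rfl⟩ := List.mem_map.1 hx
        exact mem_range.1 (hf.mem y (Finsupp.mem_support_iff.2 (h5 y hy)))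
      have h8 := ts_vals (by omega) (by omega) h1 h4 h6 hf
      rw [key f c _ _ rfl hc1]
      apply hval _ (by simp [hl']) hf3 _ j hj
      obtain ⟨m, hm1, hm2⟩ := h8
      refine ⟨m, fun j hj => ?_, hm2⟩
      have h9 := hm1 j hj
      rw [key f (exc α) _ _ rfl hex, Nat.add_sub_cancel_left] at h9
      exact h9)
    (by rw [hc1]; exact hchk) (by rw [ecl, ec0, ec1]; exact hno0)
    (by rw [ecl, ec0, ec1]; exact hno1) (by rw [ecl, ec0, ec1]; exact hno2) φA φB
    (hlt3 φA _ hA1 hA3) (hlt3 φB _ hB1 hB3) mA mB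
    (fun j hj => by rw [key φA (exc α) _ _ hA1 hex]; exact hmA j hj)
    (fun j hj => by rw [key φB (exc α) _ _ hB1 hex]; exact hmB j hj) hkA hkB
    (by
      have e1 : (u :: v :: l').map (fun x => c x * c x) =
          (c0 :: c1 :: cl').map fun c => c * c := by
        rw [← hc1, List.map_map]; rfl
      rw [key φA _ _ _ hA1 e1]
      exact hTA) (by rw [eB0, eB1])
    (by
      rw [eB0, eau, eav]
      rcases hrow with h | h
      · exact Or.inl h
      · exact Or.inr ⟨h.1, h.2.1, by omega⟩)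
  exact not_isQuadratic_of_not_linked hX.row hY.row (hX.sum.trans hY.sum.symm) hXY

end Pool.Agent.Lib.MP_e26c3f_al
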