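import Mathlib
import Pool.Agent.Lib.MP_e26c3f_al.NegFin

/-! The disconnected fibres for `d ≥ s + 10`. -/

set_option autoImplicit false
set_option linter.unusedSectionVars false

namespace Pool.Agent.Lib.MP_e26c3f_al

open Finset

variable {K : Type*} [Field K]

/-- `d = s + 10`, `n ≥ 6 s - 3`. -/
theorem neg_e_ten {n t : ℕ} (ht : 9 ≤ t) (hn : 6 * t + 3 ≤ n) :
    ¬ IsQuadratic K n (t + 11) (t + 1) := by
  refine neg_fin (b := 11) (k := 6) ht (by norm_num) hn (a0 := 5) (a1 := 9)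
    (al' := [8, 8, 7, 7, 7, 6, 6]) (c0 := 5) (c1 := 9) (cl' := [8, 8, 7, 7, 7, 6, 6])
    (p0 := 0) (q0 := 0) (labA' := [0, 0, 2, 2, 2, 1, 1]) (labB' := [1, 2, 0, 1, 2, 1, 2])
    rfl rfl rfl rfl rfl 43 (fun q => q == 147 || q == 153) (fun s => (s + 1) % 11 == 0) 1 ?_
    (by decide +kernel) (by decide +kernel) (by decide +kernel) (by decide +kernel)
    (by decide) (by decide) (fun _ => 2) (fun _ => 2) (by decide) (by decide) rfl rfl
    (by decide) (Or.inr (by decide))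
  rintro F - - ⟨m, hm, hk⟩ j hj
  have h0 := hm 0 (by norm_num)
  have h1 := hm 1 (by norm_num)
  have h2 := hm 2 (by norm_num)
  have h3 := hm j hj
  have h4 : m j ≤ 4 := by interval_cases j <;> omega
  refine ⟨?_, by omega⟩
  show (_ + 1) % 11 == 0
  rw [h3.2, Nat.mul_mod_left]
  rfl

/-- `d = s + 11`, `n ≥ 4 s - 1`. -/
theorem neg_e_eleven {n t : ℕ} (ht : 9 ≤ t) (hn : 4 * t + 3 ≤ n) :
    ¬ IsQuadratic K n (t + 12) (t + 1) := by
  refine neg_fin (b := 12) (k := 4) ht (by norm_num) hn (a0 := 7) (a1 := 3)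
    (al' := [9, 9, 7, 5, 3, 1, 1]) (c0 := 7) (c1 := 3) (cl' := [9, 9, 7, 5, 3, 1, 1])
    (p0 := 2) (q0 := 0) (labA' := [1, 2, 2, 0, 0, 1, 1]) (labB' := [2, 2, 1, 2, 1, 0, 1])
    rfl rfl rfl rfl rfl 23 (fun q => q == 43 || q == 83 || q == 179)
    (fun s => (s + 1) % 12 == 0) 0 ?_
    (by decide +kernel) (by decide +kernel) (by decide +kernel) (by decide +kernel)
    (by decide) (by decide) (fun j => if j = 2 then 2 else 1) (fun j => if j = 2 then 2 else 1)
    (by decide) (by decide) rfl rfl (by decide) (Or.inl rfl)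
  rintro F - - ⟨m, hm, hk⟩ j hj
  have h0 := hm 0 (by norm_num)
  have h1 := hm 1 (by norm_num)
  have h2 := hm 2 (by norm_num)
  have h3 := hm j hj
  have h4 : m j ≤ 2 := by interval_cases j <;> omega
  refine ⟨?_, by omega⟩
  show (_ + 1) % 12 == 0
  rw [h3.2, Nat.mul_mod_left]
  rfl

lemma hval_three {b : ℕ} {A : List ℕ} {m : ℕ → ℕ} {F : List ℕ}
    (hm : ∀ j < 3, 1 ≤ m j ∧ zs F A j + 1 = m j * b) (hk : m 0 + m 1 + m 2 = 3) {j : ℕ}
    (hj : j < 3) : zs F A j + 1 = b := by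
  have h0 := hm 0 (by norm_num)
  have h1 := hm 1 (by norm_num)
  have h2 := hm 2 (by norm_num)
  have h3 := hm j hj
  have h4 : m j = 1 := by interval_cases j <;> omega
  rw [h3.2, h4, one_mul]

/-- `d = s + 13`. -/
theorem neg_e_thirteen {n t : ℕ} (ht : 9 ≤ t) (hn : 3 * t + 3 ≤ n) :
    ¬ IsQuadratic K n (t + 14) (t + 1) := by
  refine neg_fin (b := 14) (k := 3) ht (by norm_num) hn (a0 := 9) (a1 := 1)
    (al' := [6, 6, 5, 5, 3, 2, 2]) (c0 := 9) (c1 := 1) (cl' := [6, 6, 5, 5, 3, 2, 2])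
    (p0 := 2) (q0 := 0) (labA' := [1, 1, 0, 0, 0, 2, 2]) (labB' := [1, 2, 1, 2, 0, 1, 2])
    rfl rfl rfl rfl rfl 13 (fun q => q == 59 || q == 73 || q == 89)
    (fun s => s == 13) 1 ?_
    (by decide +kernel) (by decide +kernel) (by decide +kernel) (by decide +kernel)
    (by decide) (by decide) (fun _ => 1) (fun _ => 1)
    (by decide) (by decide) rfl rfl (by decide) (Or.inl rfl)
  rintro F - - ⟨m, hm, hk⟩ j hj
  have h3 := hval_three hm hk hj
  exact ⟨beq_iff_eq.2 (by omega), by omega⟩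

/-- `d = s + 14`. -/
theorem neg_e_fourteen {n t : ℕ} (ht : 9 ≤ t) (hn : 3 * t + 3 ≤ n) :
    ¬ IsQuadratic K n (t + 15) (t + 1) := by
  refine neg_fin (b := 15) (k := 3) ht (by norm_num) hn (a0 := 7) (a1 := 2)
    (al' := [6, 6, 5, 5, 4, 4, 3]) (c0 := 7) (c1 := 2) (cl' := [6, 6, 5, 5, 4, 4, 3])
    (p0 := 2) (q0 := 0) (labA' := [1, 1, 0, 0, 0, 2, 2]) (labB' := [1, 2, 0, 1, 2, 2, 1])
    rfl rfl rfl rfl rfl 14 (fun q => q == 66 || q == 74 || q == 76)
    (fun s => s == 14) 1 ?_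
    (by decide +kernel) (by decide +kernel) (by decide +kernel) (by decide +kernel)
    (by decide) (by decide) (fun _ => 1) (fun _ => 1)
    (by decide) (by decide) rfl rfl (by decide) (Or.inl rfl)
  rintro F - - ⟨m, hm, hk⟩ j hj
  have h3 := hval_three hm hk hj
  exact ⟨beq_iff_eq.2 (by omega), by omega⟩

/-- `d = s + 15`. -/
theorem neg_e_fifteen {n t : ℕ} (ht : 9 ≤ t) (hn : 3 * t + 3 ≤ n) :
    ¬ IsQuadratic K n (t + 16) (t + 1) := by
  refine neg_fin (b := 16) (k := 3) ht (by norm_num) hn (a0 := 7) (a1 := 3)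
    (al' := [6, 6, 5, 5, 5, 4, 4]) (c0 := 7) (c1 := 3) (cl' := [6, 6, 5, 5, 5, 4, 4])
    (p0 := 2) (q0 := 0) (labA' := [1, 1, 0, 0, 0, 2, 2]) (labB' := [1, 2, 0, 1, 2, 1, 2])
    rfl rfl rfl rfl rfl 15 (fun q => q == 75 || q == 81)
    (fun s => s == 15) 1 ?_
    (by decide +kernel) (by decide +kernel) (by decide +kernel) (by decide +kernel)
    (by decide) (by decide) (fun _ => 1) (fun _ => 1)
    (by decide) (by decide) rfl rfl (by decide) (Or.inl rfl)
  rintro F - - ⟨m, hm, hk⟩ j hj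
  have h3 := hval_three hm hk hj
  exact ⟨beq_iff_eq.2 (by omega), by omega⟩

/-- The arithmetic of the general family. -/
lemma family_aux {f x y z : ℕ} (hf : f = 0 ∨ 4 ≤ f) (hx : x < 3) (hy : y < 3) (hz : z < 3)
    (R : ℕ → ℕ) (H : ∀ j < 3, (if x = j then 6 + f else 0) + (if y = j then 5 + f else 0) +
      (if z = j then 4 + f else 0) + R j = 12 + f) : ∀ j < 3, (if x = j then 6 else 0) +
      (if y = j then 5 else 0) + (if z = j then 4 else 0) + R j = 12 := by
  have h0 := H 0 (by norm_num)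
  have h1 := H 1 (by norm_num)
  have h2 := H 2 (by norm_num)
  rcases hf with rfl | hf
  · intro j hj
    simpa using H j hj
  · intro j hj
    interval_cases x <;> interval_cases y <;> interval_cases z <;> simp at h0 h1 h2 <;>
      first
      | omega
      | (interval_cases j <;> simp <;> omega)

/-- `d = s + 12 + f` with `f = 0` or `f ≥ 4`. -/
theorem neg_e_family {n t f : ℕ} (ht : 9 ≤ t) (hn : 3 * t + 3 ≤ n) (hf : f = 0 ∨ 4 ≤ f) :
    ¬ IsQuadratic K n (t + (13 + f)) (t + 1) := by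
  refine neg_fin (b := 13 + f) (k := 3) ht (by norm_num) hn (a0 := 6 + f) (a1 := 2)
    (al' := [5 + f, 5, 4 + f, 4, 4, 3, 3]) (c0 := 6) (c1 := 2) (cl' := [5, 5, 4, 4, 4, 3, 3])
    (p0 := 2) (q0 := 0) (labA' := [1, 1, 0, 0, 0, 2, 2]) (labB' := [1, 2, 2, 0, 1, 1, 2])
    rfl rfl rfl rfl (by simp; ring) 12 (fun q => q == 48 || q == 54)
    (fun s => s == 12) 1 ?_
    (by decide +kernel) (by decide +kernel) (by decide +kernel) (by decide +kernel)
    (by decide) (by decide) (fun _ => 1) (fun _ => 1)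
    ?_ ?_ rfl rfl (by decide) (Or.inl rfl)
  · rintro F hF hF3 ⟨m, hm, hk⟩ j hj
    have h3 := fun j hj => hval_three hm hk (j := j) hj
    obtain ⟨x0, F, rfl⟩ := List.exists_cons_of_length_eq_add_one hF
    obtain ⟨x1, F, rfl⟩ := List.exists_cons_of_length_eq_add_one (by simpa using hF)
    obtain ⟨x2, F, rfl⟩ := List.exists_cons_of_length_eq_add_one (by simpa using hF)
    obtain ⟨x3, F, rfl⟩ := List.exists_cons_of_length_eq_add_one (by simpa using hF)
    obtain ⟨x4, F, rfl⟩ := List.exists_cons_of_length_eq_add_one (by simpa using hF)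
    have h4 := family_aux (f := f) (x := x0) (y := x2) (z := x4) hf (hF3 _ (by simp))
      (hF3 _ (by simp)) (hF3 _ (by simp))
      (fun j => (if x1 = j then 2 else 0) + (if x3 = j then 5 else 0) +
        zs F [4, 4, 3, 3] j) (by
        intro j hj
        have h5 := h3 j hj
        unfold zs at h5 ⊢
        simp only [List.zipWith_cons_cons, List.sum_cons] at h5
        omega) j hj
    have h6 : zs (x0 :: x1 :: x2 :: x3 :: x4 :: F) [6, 2, 5, 5, 4, 4, 4, 3, 3] j = 12 := by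
      unfold zs at h4 ⊢
      simp only [List.zipWith_cons_cons, List.sum_cons]
      omega
    exact ⟨beq_iff_eq.2 h6, h6.le⟩
  · intro j hj
    refine ⟨le_rfl, ?_⟩
    interval_cases j <;> simp [zs] <;> omega
  · intro j hj
    refine ⟨le_rfl, ?_⟩
    interval_cases j <;> simp [zs] <;> omega

/-- `d ≥ s + 12`, `n ≥ 3 s`. -/
theorem neg_e_twelve {n t b : ℕ} (ht : 9 ≤ t) (hb : 13 ≤ b) (hn : 3 * t + 3 ≤ n) :
    ¬ IsQuadratic K n (t + b) (t + 1) := by
  by_cases h : b = 14 ∨ b = 15 ∨ b = 16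
  · rcases h with rfl | rfl | rfl
    · exact neg_e_thirteen ht hn
    · exact neg_e_fourteen ht hn
    · exact neg_e_fifteen ht hn
  · obtain ⟨f, rfl⟩ : ∃ f, b = 13 + f := ⟨b - 13, by omega⟩
    exact neg_e_family ht hn (by omega)

end Pool.Agent.Lib.MP_e26c3f_al
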