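import Mathlib
import Pool.Agent.Lib.MP_e26c3f_al.Neg
import Pool.Agent.Lib.MP_e26c3f_al.NegNine

/-! `PV(n,7,3)` and `PV(n,8,3)` are not quadratic for `n ≥ 12`. -/

set_option autoImplicit false
set_option linter.unusedSectionVars false

namespace Pool.Agent.Lib.MP_e26c3f_al

open Finset

variable {K : Type*} [Field K]

/-- structure of configurations with five rows, two heavy variables `h, g` and ten light ones -/
lemma five {σ : Type*} [DecidableEq σ] {d : ℕ} {α : σ →₀ ℕ} {O : Finset σ} {h g : σ}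
    (hh : h ∉ O) (hg : g ∉ O) (hhg : h ≠ g) (hsub : ∀ v, α v ≠ 0 → v ∈ O ∨ v = h ∨ v = g)
    (hO : ∀ v ∈ O, α v ≠ 0) (hOc : O.card = 10)
    (hsmall : ∀ s ⊆ O, s.card ≤ 3 → ∑ v ∈ s, α v < d) (f : Fin 5 → (σ →₀ ℕ))
    (hf : ∀ i, IsRow d 3 (f i)) (hsum : ∀ v, ∑ i, f i v = α v) :
    (∀ i, f i h = 0 ∨ ∃ x ∈ O, ∃ y ∈ O, x ≠ y ∧ f i x ≠ 0 ∧ f i y ≠ 0 ∧
      f i h + α x + α y = d) ∧ ∀ i j, i ≠ j → ∀ v ∈ O, f i v ≠ 0 → f j v = 0 := by
  have hle : ∀ i v, f i v ≤ α v := fun i v => by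
    rw [← hsum v]
    exact single_le_sum (f := fun i => f i v) (fun _ _ => Nat.zero_le _) (mem_univ i)
  have hsup : ∀ i v, v ∈ (f i).support → v ∈ O ∨ v = h ∨ v = g := by
    intro i v hv
    rw [Finsupp.mem_support_iff] at hv
    exact hsub v (by have := hle i v; omega)
  -- every row contains `h` or `g`
  have hdeg : ∀ i, f i h ≠ 0 ∨ f i g ≠ 0 := by
    intro i
    by_contra hcon
    push Not at hcon
    have h1 : (f i).support ⊆ O := by
      intro v hv
      rcases hsup i v hv with h2 | rfl | rfl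
      · exact h2
      · rw [Finsupp.mem_support_iff] at hv; exact absurd hcon.1 hv
      · rw [Finsupp.mem_support_iff] at hv; exact absurd hcon.2 hv
    have h2 := hsmall _ h1 (hf i).2
    have h3 : d ≤ ∑ v ∈ (f i).support, α v := by
      rw [← (hf i).1, Finsupp.degree_apply]
      exact sum_le_sum fun v _ => hle i v
    omega
  set S : Fin 5 → Finset σ := fun i => (f i).support.filter (· ∈ O) with hS
  have hSle : ∀ i, (S i).card ≤ 2 := by
    intro i
    have h1 : (S i).card < (f i).support.card := by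
      apply card_lt_card
      refine (filter_subset _ _).ssubset_of_ne fun he => ?_
      rcases hdeg i with h2 | h2
      · have h3 : h ∈ (f i).support.filter (· ∈ O) := by
          rw [he]; exact Finsupp.mem_support_iff.mpr h2
        exact hh (mem_filter.1 h3).2
      · have h3 : g ∈ (f i).support.filter (· ∈ O) := by
          rw [he]; exact Finsupp.mem_support_iff.mpr h2
        exact hg (mem_filter.1 h3).2
    have := (hf i).2
    omega
  have hcov : O ⊆ univ.biUnion S := by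
    intro v hv
    rw [mem_biUnion]
    by_contra hcon
    push Not at hcon
    apply hO v hv
    rw [← hsum v]
    apply sum_eq_zero
    intro i _
    by_contra h1
    exact hcon i (mem_univ i) (mem_filter.2 ⟨Finsupp.mem_support_iff.mpr h1, hv⟩)
  have hdisj : ∀ i j, i ≠ j → ∀ v ∈ O, f i v ≠ 0 → f j v = 0 := by
    intro i j hij v hv hiv
    by_contra hjv
    have hvi : v ∈ S i := mem_filter.2 ⟨Finsupp.mem_support_iff.mpr hiv, hv⟩
    have hvj : v ∈ S j := mem_filter.2 ⟨Finsupp.mem_support_iff.mpr hjv, hv⟩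
    have h1 : O ⊆ (univ.erase i).biUnion S ∪ (S i).erase v := by
      intro x hx
      obtain ⟨l, _, hl⟩ := mem_biUnion.1 (hcov hx)
      rw [mem_union]
      by_cases hli : l = i
      · subst hli
        by_cases hxv : x = v
        · subst hxv
          left
          exact mem_biUnion.2 ⟨j, mem_erase.2 ⟨hij.symm, mem_univ _⟩, hvj⟩
        · right; exact mem_erase.2 ⟨hxv, hl⟩
      · left
        exact mem_biUnion.2 ⟨l, mem_erase.2 ⟨hli, mem_univ _⟩, hl⟩
    have h2 := card_le_card h1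
    have h3 := card_union_le ((univ.erase i).biUnion S) ((S i).erase v)
    have h4 : ((univ.erase i).biUnion S).card ≤ 8 := by
      refine card_biUnion_le.trans ?_
      calc ∑ l ∈ univ.erase i, (S l).card ≤ ∑ _l ∈ univ.erase i, 2 := sum_le_sum fun l _ => hSle l
        _ = 8 := by rw [sum_const, card_erase_of_mem (mem_univ i), card_univ, Fintype.card_fin]; rfl
    have h5 : ((S i).erase v).card ≤ 1 := by
      rw [card_erase_of_mem hvi]; have := hSle i; omega
    omega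
  refine ⟨?_, hdisj⟩
  intro i
  by_cases hih : f i h = 0
  · exact Or.inl hih
  right
  -- `|S i| = 2`
  have hSi : (S i).card = 2 := by
    by_contra hne
    have h0 := hSle i
    have h1 : (univ.biUnion S).card ≤ ∑ l, (S l).card := card_biUnion_le
    have h2 : ∑ l, (S l).card = (S i).card + ∑ l ∈ univ.erase i, (S l).card :=
      (add_sum_erase univ (fun l => (S l).card) (mem_univ i)).symm
    have h4 : ∑ l ∈ univ.erase i, (S l).card ≤ 8 := by
      calc ∑ l ∈ univ.erase i, (S l).card ≤ ∑ _l ∈ univ.erase i, 2 := sum_le_sum fun l _ => hSle l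
        _ = 8 := by rw [sum_const, card_erase_of_mem (mem_univ i), card_univ, Fintype.card_fin]; rfl
    have h5 := card_le_card hcov
    omega
  obtain ⟨x, y, hxy, hSxy⟩ := card_eq_two.1 hSi
  have hx : x ∈ S i := by rw [hSxy]; simp
  have hy : y ∈ S i := by rw [hSxy]; simp
  have hx' := mem_filter.1 hx
  have hy' := mem_filter.1 hy
  have hxv := Finsupp.mem_support_iff.mp hx'.1
  have hyv := Finsupp.mem_support_iff.mp hy'.1
  refine ⟨x, hx'.2, y, hy'.2, hxy, hxv, hyv, ?_⟩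
  have hfull : ∀ v ∈ O, f i v ≠ 0 → f i v = α v := by
    intro v hv hne
    rw [← hsum v]
    symm
    exact sum_eq_single i (fun j _ hj => hdisj i j (Ne.symm hj) v hv hne)
      (fun h => absurd (mem_univ i) h)
  have hsupp : (f i).support = insert h (S i) := by
    symm
    apply eq_of_subset_of_card_le
    · intro v hv
      rcases mem_insert.1 hv with rfl | hv
      · exact Finsupp.mem_support_iff.mpr hih
      · exact (mem_filter.1 hv).1
    · rw [card_insert_of_notMem (fun hm => hh (mem_filter.1 hm).2), hSi]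
      exact (hf i).2
  have h1 := (hf i).1
  rw [Finsupp.degree_apply, hsupp, sum_insert (fun hm => hh (mem_filter.1 hm).2)] at h1
  change f i h + ∑ x ∈ S i, f i x = d at h1
  rw [hSxy, sum_pair hxy, hfull x hx'.2 hxv, hfull y hy'.2 hyv] at h1
  omega

/-- propagation of invariants for five rows -/
lemma inv5 {σ : Type*} {d s : ℕ} {α : σ →₀ ℕ} (P : Multiset (σ →₀ ℕ) → Prop)
    (hstep : ∀ u v u' v' w₁ w₂ w₃ : σ →₀ ℕ, Cfg d s 5 α (u ::ₘ v ::ₘ w₁ ::ₘ w₂ ::ₘ {w₃}) →
      P (u ::ₘ v ::ₘ w₁ ::ₘ w₂ ::ₘ {w₃}) → P (u' ::ₘ v' ::ₘ w₁ ::ₘ w₂ ::ₘ {w₃}))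
    {X Y : Multiset (σ →₀ ℕ)} (hX : Cfg d s 5 α X) (hl : Linked d s X Y) (hP : P X) : P Y := by
  have key : Cfg d s 5 α Y ∧ P Y := by
    induction hl with
    | refl => exact ⟨hX, hP⟩
    | tail _ hst ih =>
      obtain ⟨hc, hp⟩ := ih
      refine ⟨hst.cfg hc, ?_⟩
      obtain ⟨u, v, u', v', Z, rfl, rfl, _, _, _, _, _⟩ := hst
      have hcard : Z.card = 3 := by
        have := hc.card
        simpa using this
      obtain ⟨w₁, w₂, w₃, rfl⟩ := Multiset.card_eq_three.1 hcard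
      exact hstep u v u' v' w₁ w₂ w₃ hc hp
  exact key.2

lemma cfg_five {σ : Type*} {d s : ℕ} {α : σ →₀ ℕ} {u v w₁ w₂ w₃ : σ →₀ ℕ}
    (h : Cfg d s 5 α (u ::ₘ v ::ₘ w₁ ::ₘ w₂ ::ₘ {w₃})) :
    (∀ i, IsRow d s (![u, v, w₁, w₂, w₃] i)) ∧ ∀ x, ∑ i, ![u, v, w₁, w₂, w₃] i x = α x := by
  refine ⟨?_, ?_⟩
  · intro i
    apply h.row
    fin_cases i <;> simp
  · intro x
    rw [← h.sum, Fin.sum_univ_five]
    simp [add_assoc]

lemma degree_lift' {n m : ℕ} (hn : m ≤ n) (f : ℕ → ℕ) (hf : ∀ i, m ≤ i → f i = 0) :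
    (lift n f).degree = ∑ i ∈ range m, f i := by
  rw [Finsupp.degree_eq_sum]
  simp only [lift_apply]
  rw [Fin.sum_univ_eq_sum_range (fun i => f i) n]
  symm
  apply sum_subset (range_mono hn)
  intro i _ hi
  exact hf i (by simpa using hi)

lemma card_support_lift' {n m : ℕ} (hn : m ≤ n) (f : ℕ → ℕ) (hf : ∀ i, m ≤ i → f i = 0) :
    (lift n f).support.card = ((range m).filter fun i => f i ≠ 0).card := by
  rw [← card_map Fin.valEmbedding]
  congr 1
  ext i
  simp only [mem_map, Finsupp.mem_support_iff, lift_apply, Fin.valEmbedding_apply, mem_filter,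
    mem_range]
  constructor
  · rintro ⟨j, hj, rfl⟩
    refine ⟨?_, hj⟩
    by_contra h
    exact hj (hf _ (by omega))
  · rintro ⟨h1, h2⟩
    exact ⟨⟨i, by omega⟩, h2, rfl⟩

lemma lf_zero' {l : List ℕ} {m : ℕ} (hl : l.length = m) : ∀ i, m ≤ i → lf l i = 0 := by
  intro i hi
  simp [lf, hl, hi]

lemma cfg_lift {n d m : ℕ} (hn : m ≤ n) {a r₁ r₂ r₃ r₄ r₅ : List ℕ}
    (hl : a.length = m ∧ ∀ r ∈ [r₁, r₂, r₃, r₄, r₅], r.length = m ∧
      ∑ i ∈ range m, lf r i = d ∧ ((range m).filter fun i => lf r i ≠ 0).card ≤ 3)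
    (hs : ∀ i ∈ range m, lf r₁ i + (lf r₂ i + (lf r₃ i + (lf r₄ i + lf r₅ i))) = lf a i) :
    Cfg d 3 5 (lift n (lf a)) (lift n (lf r₁) ::ₘ lift n (lf r₂) ::ₘ lift n (lf r₃) ::ₘ
      lift n (lf r₄) ::ₘ {lift n (lf r₅)}) := by
  obtain ⟨hla, hr⟩ := hl
  have hrow : ∀ r ∈ [r₁, r₂, r₃, r₄, r₅], IsRow d 3 (lift n (lf r)) := by
    intro r hr'
    obtain ⟨h1, h2, h3⟩ := hr r hr'
    exact ⟨by rw [degree_lift' hn _ (lf_zero' h1), h2],
      by rw [card_support_lift' hn _ (lf_zero' h1)]; exact h3⟩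
  refine ⟨?_, by simp, ?_⟩
  · intro u hu
    simp only [Multiset.mem_cons, Multiset.mem_singleton] at hu
    rcases hu with rfl | rfl | rfl | rfl | rfl <;> exact hrow _ (by simp)
  · ext v
    simp only [Multiset.sum_cons, Multiset.sum_singleton, Finsupp.add_apply, lift_apply]
    by_cases hv : v.val < m
    · exact hs _ (mem_range.2 hv)
    · push Not at hv
      have hz : ∀ r ∈ [r₁, r₂, r₃, r₄, r₅], lf r v.val = 0 := fun r hr' =>
        lf_zero' (hr r hr').1 _ hv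
      rw [hz r₁ (by simp), hz r₂ (by simp), hz r₃ (by simp), hz r₄ (by simp), hz r₅ (by simp),
        lf_zero' hla _ hv]
      rfl

lemma card_light {n : ℕ} (hn : 12 ≤ n) : (univ.filter fun v : Fin n => v.val < 10).card = 10 := by
  rw [← card_map Fin.valEmbedding]
  have : (univ.filter fun v : Fin n => v.val < 10).map Fin.valEmbedding = range 10 := by
    ext i
    simp only [mem_map, mem_filter, mem_univ, true_and, Fin.valEmbedding_apply, mem_range]
    constructor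
    · rintro ⟨j, hj, rfl⟩; exact hj
    · intro hi; exact ⟨⟨i, by omega⟩, hi, rfl⟩
  rw [this, card_range]

/-- `s = 3`, `d = 7`, `n ≥ 12`. -/
theorem neg_corner_seven {n : ℕ} (hn : 12 ≤ n) : ¬ IsQuadratic K n 7 3 := by
  set a : List ℕ := [1, 1, 1, 1, 2, 2, 2, 2, 2, 2, 9, 10] with ha
  set α : Fin n →₀ ℕ := lift n (lf a) with hα
  have hX : Cfg 7 3 5 α (lift n (lf [0, 0, 0, 0, 2, 2, 0, 0, 0, 0, 3, 0]) ::ₘ
      lift n (lf [0, 0, 0, 0, 0, 0, 2, 2, 0, 0, 3, 0]) ::ₘ
      lift n (lf [0, 0, 0, 0, 0, 0, 0, 0, 2, 2, 3, 0]) ::ₘ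
      lift n (lf [1, 1, 0, 0, 0, 0, 0, 0, 0, 0, 0, 5]) ::ₘ
      {lift n (lf [0, 0, 1, 1, 0, 0, 0, 0, 0, 0, 0, 5])}) :=
    cfg_lift hn (by decide) (by decide)
  have hY : Cfg 7 3 5 α (lift n (lf [1, 1, 0, 0, 0, 0, 0, 0, 0, 0, 5, 0]) ::ₘ
      lift n (lf [0, 0, 1, 0, 2, 0, 0, 0, 0, 0, 4, 0]) ::ₘ
      lift n (lf [0, 0, 0, 1, 0, 2, 0, 0, 0, 0, 0, 4]) ::ₘ
      lift n (lf [0, 0, 0, 0, 0, 0, 2, 2, 0, 0, 0, 3]) ::ₘ
      {lift n (lf [0, 0, 0, 0, 0, 0, 0, 0, 2, 2, 0, 3])}) :=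
    cfg_lift hn (by decide) (by decide)
  set h : Fin n := ⟨10, by omega⟩ with hh
  set g : Fin n := ⟨11, by omega⟩ with hg
  set O : Finset (Fin n) := univ.filter fun v : Fin n => v.val < 10 with hO
  have hαv : ∀ v : Fin n, α v = lf a v.val := fun v => rfl
  have lh : ∀ l, lift n (lf l) h = lf l 10 := fun l => rfl
  have hvO : ∀ v ∈ O, α v = 1 ∨ α v = 2 := by
    intro v hv
    have hv' : v.val < 10 := (mem_filter.1 hv).2
    rw [hαv]
    generalize v.val = i at hv'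
    interval_cases i <;> decide
  have hfive : ∀ u v w₁ w₂ w₃ : Fin n →₀ ℕ, Cfg 7 3 5 α (u ::ₘ v ::ₘ w₁ ::ₘ w₂ ::ₘ {w₃}) →
      ∀ i, (![u, v, w₁, w₂, w₃] i) h = 0 ∨ (![u, v, w₁, w₂, w₃] i) h = 3 ∨
        (![u, v, w₁, w₂, w₃] i) h = 4 ∨ (![u, v, w₁, w₂, w₃] i) h = 5 := by
    intro u v w₁ w₂ w₃ hZ i
    obtain ⟨hrow, hsum⟩ := cfg_five hZ
    have h1 := (five (d := 7) (α := α) (O := O) (h := h) (g := g)
      (by simp [hO, hh]) (by simp [hO, hg]) (by simp [hh, hg])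
      (by
        intro v hv
        by_cases h1 : v.val < 10
        · left; simpa [hO] using h1
        right
        by_contra hcon
        push Not at hcon
        apply hv
        rw [hαv]
        apply lf_zero' (m := 12) rfl
        have h2 : v.val ≠ 10 := fun h3 => hcon.1 (Fin.ext h3)
        have h3 : v.val ≠ 11 := fun h3 => hcon.2 (Fin.ext h3)
        omega)
      (by intro v hv; rcases hvO v hv with h1 | h1 <;> omega)
      (card_light hn)
      (by
        intro s hs hc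
        have h1 : ∑ v ∈ s, α v ≤ s.card • 2 :=
          sum_le_card_nsmul _ _ _ (fun v hv => by rcases hvO v (hs hv) with h1 | h1 <;> omega)
        rw [smul_eq_mul] at h1
        omega)
      ![u, v, w₁, w₂, w₃] hrow hsum).1 i
    rcases h1 with h1 | ⟨x, hx, y, hy, _, _, _, h2⟩
    · exact Or.inl h1
    · rcases hvO x hx with h3 | h3 <;> rcases hvO y hy with h4 | h4 <;> omega
  refine not_isQuadratic_of_not_linked hX.row hY.row (hX.sum.trans hY.sum.symm) ?_
  intro hlink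
  have hinv := inv5 (fun Z => ∃ u ∈ Z, u h = 3) ?_ hX hlink
    ⟨_, Multiset.mem_cons_self _ _, by rw [lh]; decide⟩
  · obtain ⟨u, hu, huh⟩ := hinv
    simp only [Multiset.mem_cons, Multiset.mem_singleton] at hu
    rcases hu with rfl | rfl | rfl | rfl | rfl <;> (rw [lh] at huh; revert huh; decide)
  · intro u v u' v' w₁ w₂ w₃ hZ hP
    have hf := hfive u v w₁ w₂ w₃ hZ
    have h0 := hf 0
    have h1 := hf 1
    have h2 := hf 2
    have h3 := hf 3
    have h4 := hf 4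
    have hs := (cfg_five hZ).2 h
    rw [Fin.sum_univ_five] at hs
    have hαh : α h = 9 := rfl
    rw [hαh] at hs
    simp only [Matrix.cons_val] at h0 h1 h2 h3 h4 hs
    obtain ⟨x, hx, hx3⟩ := hP
    simp only [Multiset.mem_cons, Multiset.mem_singleton] at hx
    have hw : w₁ h = 3 ∨ w₂ h = 3 ∨ w₃ h = 3 := by
      rcases hx with rfl | rfl | rfl | rfl | rfl <;> omega
    rcases hw with hw | hw | hw
    · exact ⟨w₁, by simp, hw⟩
    · exact ⟨w₂, by simp, hw⟩
    · exact ⟨w₃, by simp, hw⟩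

/-- `s = 3`, `d = 8`, `n ≥ 12`. -/
theorem neg_corner_eight {n : ℕ} (hn : 12 ≤ n) : ¬ IsQuadratic K n 8 3 := by
  set a : List ℕ := [1, 1, 1, 1, 2, 2, 2, 2, 2, 3, 11, 12] with ha
  set α : Fin n →₀ ℕ := lift n (lf a) with hα
  have hX : Cfg 8 3 5 α (lift n (lf [0, 0, 0, 0, 2, 2, 0, 0, 0, 0, 4, 0]) ::ₘ
      lift n (lf [0, 0, 0, 0, 0, 0, 2, 2, 0, 0, 4, 0]) ::ₘ
      lift n (lf [0, 0, 0, 0, 0, 0, 0, 0, 2, 3, 3, 0]) ::ₘ
      lift n (lf [1, 1, 0, 0, 0, 0, 0, 0, 0, 0, 0, 6]) ::ₘ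
      {lift n (lf [0, 0, 1, 1, 0, 0, 0, 0, 0, 0, 0, 6])}) :=
    cfg_lift hn (by decide) (by decide)
  have hY : Cfg 8 3 5 α (lift n (lf [1, 1, 0, 0, 0, 0, 0, 0, 0, 0, 6, 0]) ::ₘ
      lift n (lf [0, 0, 1, 0, 2, 0, 0, 0, 0, 0, 5, 0]) ::ₘ
      lift n (lf [0, 0, 0, 1, 0, 2, 0, 0, 0, 0, 0, 5]) ::ₘ
      lift n (lf [0, 0, 0, 0, 0, 0, 2, 2, 0, 0, 0, 4]) ::ₘ
      {lift n (lf [0, 0, 0, 0, 0, 0, 0, 0, 2, 3, 0, 3])}) :=
    cfg_lift hn (by decide) (by decide)
  set h : Fin n := ⟨10, by omega⟩ with hh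
  set g : Fin n := ⟨11, by omega⟩ with hg
  set z : Fin n := ⟨9, by omega⟩ with hz
  set O : Finset (Fin n) := univ.filter fun v : Fin n => v.val < 10 with hO
  have hαv : ∀ v : Fin n, α v = lf a v.val := fun v => rfl
  have lh : ∀ l, lift n (lf l) h = lf l 10 := fun l => rfl
  have hzO : z ∈ O := by simp [hO, hz]
  have hvO : ∀ v ∈ O, (v ≠ z ∧ (α v = 1 ∨ α v = 2)) ∨ (v = z ∧ α v = 3) := by
    intro v hv
    have hv' : v.val < 10 := (mem_filter.1 hv).2
    by_cases hvz : v = z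
    · right; exact ⟨hvz, by rw [hvz]; rfl⟩
    · left
      refine ⟨hvz, ?_⟩
      have h9 : v.val ≠ 9 := fun h3 => hvz (Fin.ext h3)
      have hv'' : v.val < 9 := by omega
      rw [hαv]
      clear hv' h9 hvz
      generalize v.val = i at hv''
      interval_cases i <;> decide
  have hfive : ∀ u v w₁ w₂ w₃ : Fin n →₀ ℕ, Cfg 8 3 5 α (u ::ₘ v ::ₘ w₁ ::ₘ w₂ ::ₘ {w₃}) →
      (∀ i, (![u, v, w₁, w₂, w₃] i) h = 0 ∨
        ((![u, v, w₁, w₂, w₃] i) h = 3 ∧ (![u, v, w₁, w₂, w₃] i) z ≠ 0) ∨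
        (![u, v, w₁, w₂, w₃] i) h = 4 ∨ (![u, v, w₁, w₂, w₃] i) h = 5 ∨
        (![u, v, w₁, w₂, w₃] i) h = 6) ∧
      ∀ i j, i ≠ j → (![u, v, w₁, w₂, w₃] i) z ≠ 0 → (![u, v, w₁, w₂, w₃] j) z = 0 := by
    intro u v w₁ w₂ w₃ hZ
    obtain ⟨hrow, hsum⟩ := cfg_five hZ
    have h1 := five (d := 8) (α := α) (O := O) (h := h) (g := g)
      (by simp [hO, hh]) (by simp [hO, hg]) (by simp [hh, hg])
      (by
        intro v hv
        by_cases h1 : v.val < 10
        · left; simpa [hO] using h1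
        right
        by_contra hcon
        push Not at hcon
        apply hv
        rw [hαv]
        apply lf_zero' (m := 12) rfl
        have h2 : v.val ≠ 10 := fun h3 => hcon.1 (Fin.ext h3)
        have h3 : v.val ≠ 11 := fun h3 => hcon.2 (Fin.ext h3)
        omega)
      (by intro v hv; rcases hvO v hv with ⟨_, h1 | h1⟩ | ⟨_, h1⟩ <;> omega)
      (card_light hn)
      (by
        intro s hs hc
        have h1 : ∑ v ∈ s, α v ≤ ∑ v ∈ s, (2 + if v = z then 1 else 0) := by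
          apply sum_le_sum
          intro v hv
          rcases hvO v (hs hv) with ⟨h2, h1 | h1⟩ | ⟨h2, h1⟩
          · rw [h1, if_neg h2]; norm_num
          · rw [h1, if_neg h2]
          · rw [h1, if_pos h2]
        have h2 : ∑ v ∈ s, (if v = z then 1 else 0) ≤ 1 := by
          rw [sum_ite_eq']
          split_ifs <;> omega
        rw [sum_add_distrib, sum_const, smul_eq_mul] at h1
        omega)
      ![u, v, w₁, w₂, w₃] hrow hsum
    refine ⟨?_, fun i j hij hi => h1.2 i j hij z hzO hi⟩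
    intro i
    rcases h1.1 i with h1 | ⟨x, hx, y, hy, hxy, hix, hiy, h2⟩
    · exact Or.inl h1
    · rcases hvO x hx with ⟨hxz, h3⟩ | ⟨hxz, h3⟩ <;> rcases hvO y hy with ⟨hyz, h4⟩ | ⟨hyz, h4⟩
      · omega
      · rw [hyz] at hiy
        rcases h3 with h3 | h3
        · right; right; left; omega
        · right; left; exact ⟨by omega, hiy⟩
      · rw [hxz] at hix
        rcases h4 with h4 | h4
        · right; right; left; omega
        · right; left; exact ⟨by omega, hix⟩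
      · exact absurd (hxz.trans hyz.symm) hxy
  refine not_isQuadratic_of_not_linked hX.row hY.row (hX.sum.trans hY.sum.symm) ?_
  intro hlink
  have hinv := inv5 (fun Z => ∃ u ∈ Z, u h = 3 ∨ u h = 4) ?_ hX hlink
    ⟨_, Multiset.mem_cons_self _ _, by rw [lh]; decide⟩
  · obtain ⟨u, hu, huh⟩ := hinv
    simp only [Multiset.mem_cons, Multiset.mem_singleton] at hu
    rcases hu with rfl | rfl | rfl | rfl | rfl <;> (rw [lh] at huh; revert huh; decide)
  · intro u v u' v' w₁ w₂ w₃ hZ hP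
    obtain ⟨hf, hd⟩ := hfive u v w₁ w₂ w₃ hZ
    have h0 := hf 0
    have h1 := hf 1
    have h2 := hf 2
    have h3 := hf 3
    have h4 := hf 4
    have h01 := hd 0 1 (by decide)
    have hs := (cfg_five hZ).2 h
    rw [Fin.sum_univ_five] at hs
    have hαh : α h = 11 := rfl
    rw [hαh] at hs
    simp only [Matrix.cons_val] at h0 h1 h2 h3 h4 h01 hs
    obtain ⟨x, hx, hx3⟩ := hP
    simp only [Multiset.mem_cons, Multiset.mem_singleton] at hx
    have hw : (w₁ h = 3 ∨ w₁ h = 4) ∨ (w₂ h = 3 ∨ w₂ h = 4) ∨ (w₃ h = 3 ∨ w₃ h = 4) := by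
      rcases hx with rfl | rfl | rfl | rfl | rfl <;> omega
    rcases hw with hw | hw | hw
    · exact ⟨w₁, by simp, hw⟩
    · exact ⟨w₂, by simp, hw⟩
    · exact ⟨w₃, by simp, hw⟩

end Pool.Agent.Lib.MP_e26c3f_al
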