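import Mathlib
import Pool.Agent.Lib.MP_e26c3f_al.Main
import Pool.Agent.Lib.MP_e26c3f_al.Positive
import Pool.Agent.Lib.MP_e26c3f_al.NegCases
import Pool.Agent.Lib.MP_e26c3f_al.NegCorner
import Pool.Agent.Lib.MP_e26c3f_al.Corner

/-! Assembly of the complete classification. -/

set_option autoImplicit false
set_option linter.unusedSectionVars false

namespace Pool.Agent.Lib.MP_e26c3f_al

variable {K : Type*} [Field K]

/-- The complete classification. -/
theorem main_full {n d s : ℕ} (hd : 1 ≤ d) (hs : 1 ≤ s) :
    IsQuadratic K n d s ↔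
      ¬ ((s = 2 ∧ 4 ≤ n ∧ 5 ≤ d) ∨
        (s = 3 ∧ ((8 ≤ n ∧ 10 ≤ d) ∨ (9 ≤ n ∧ 9 ≤ d) ∨ (12 ≤ n ∧ 7 ≤ d))) ∨
        (4 ≤ s ∧ ((3 * s ≤ n + 1 ∧ 2 * s + 1 ≤ d) ∨ (3 * s ≤ n ∧ s + 12 ≤ d) ∨
          (4 * s ≤ n + 1 ∧ s + 11 ≤ d) ∨ (6 * s ≤ n + 3 ∧ s + 10 ≤ d)))) := by
  constructor
  · intro h
    have h12 : ∀ {n d t : ℕ}, 9 ≤ t → t + 13 ≤ d → 3 * t + 3 ≤ n →
        ¬ IsQuadratic K n d (t + 1) := by
      intro n d t ht hd hn
      obtain ⟨b, rfl⟩ : ∃ b, d = t + b := ⟨d - t, by omega⟩
      exact neg_e_twelve ht (by omega) hn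
    rintro (⟨rfl, h1, h2⟩ | ⟨rfl, h0⟩ | ⟨h1, h0⟩)
    · exact neg_two h1 h2 h
    · rcases Nat.lt_or_ge d 7 with h3 | h3
      · omega
      rcases Nat.lt_or_ge d 10 with h4 | h4
      · rcases Nat.lt_or_ge d 9 with h5 | h5
        · have h6 : 12 ≤ n := by omega
          rcases Nat.lt_or_ge d 8 with h7 | h7
          · obtain rfl : d = 7 := by omega
            exact neg_corner_seven h6 h
          · obtain rfl : d = 8 := by omega
            exact neg_corner_eight h6 h
        · obtain rfl : d = 9 := by omega
          exact neg_nine (by omega) h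
      · exact neg_three (by omega) h4 h
    · by_cases hc : 3 * s ≤ n + 1 ∧ 2 * s + 1 ≤ d
      · exact neg_four h1 hc.1 hc.2 h
      · obtain ⟨t, rfl⟩ : ∃ t, s = t + 1 := ⟨s - 1, by omega⟩
        have ht : 9 ≤ t := by omega
        rcases h0 with h0 | ⟨h2, h3⟩ | ⟨h2, h3⟩ | ⟨h2, h3⟩
        · exact hc h0
        · exact h12 ht (by omega) (by omega) h
        · rcases Nat.lt_or_ge d (t + 13) with h4 | h4
          · obtain rfl : d = t + 12 := by omega
            exact neg_e_eleven ht (by omega) h
          · exact h12 ht h4 (by omega) h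
        · rcases Nat.lt_or_ge d (t + 13) with h4 | h4
          · rcases Nat.lt_or_ge d (t + 12) with h5 | h5
            · obtain rfl : d = t + 11 := by omega
              exact neg_e_ten ht (by omega) h
            · obtain rfl : d = t + 12 := by omega
              exact neg_e_eleven ht (by omega) h
          · exact h12 ht h4 (by omega) h
  · intro hneg
    apply isQuadratic_of_conn hd
    intro k α
    have hcard : ∀ r : Fin n →₀ ℕ, r.support.card ≤ n := fun r => by
      have := Finset.card_le_univ r.support
      rwa [Fintype.card_fin] at this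
    rcases Nat.lt_or_ge s 2 with hs1 | hs2
    · obtain rfl : s = 1 := by omega
      exact conn_s_one hd α
    by_cases hds : d ≤ s
    · apply conn_vero
      intro r hr
      have h2 : r.support.card ≤ r.degree := by
        rw [Finsupp.degree_apply, Finset.card_eq_sum_ones]
        apply Finset.sum_le_sum
        intro i hi
        rw [Finsupp.mem_support_iff] at hi
        omega
      omega
    by_cases hns : n ≤ s
    · apply conn_vero
      intro r _
      exact (hcard r).trans hns
    by_cases hd1 : d = s + 1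
    · obtain ⟨e, rfl⟩ : ∃ e, s = e + 1 := ⟨s - 1, by omega⟩
      subst hd1
      exact conn_succ (by omega) α
    rcases Nat.lt_or_ge s 3 with hs3 | hs3
    · obtain rfl : s = 2 := by omega
      rcases Nat.lt_or_ge n 4 with hn4 | hn4
      · obtain rfl : n = 3 := by omega
        exact conn_three_vars (T := Finset.univ) (by simp) d k α (Finset.subset_univ _)
      · obtain rfl : d = 4 := by omega
        exact conn_four k α
    · obtain ⟨t, rfl⟩ : ∃ t, s = t + 1 := ⟨s - 1, by omega⟩
      rcases Nat.lt_or_ge n (3 * t + 2) with hn1 | hn1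
      · exact conn_of_le (by omega) (by omega) k α
      rcases Nat.lt_or_ge n (3 * t + 3) with hn2 | hn2
      · exact conn_of_eq (by omega) (by omega) (by omega) k α
      rcases Nat.lt_or_ge (2 * t + 2) d with hd2 | hd2
      · obtain rfl : t = 2 := by omega
        exact conn_corner (by omega) (by omega) k α
      rcases Nat.lt_or_ge (t + 10) d with hd3 | hd3
      · rcases Nat.lt_or_ge (t + 12) d with hd4 | hd4
        · exact conn_le_two_s (by omega) (by omega) hd2 (by omega) k α
        · rcases Nat.lt_or_ge (t + 11) d with hd5 | hd5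
          · obtain rfl : d = t + 12 := by omega
            exact conn_eq_eleven (by omega) (by omega) k α
          · obtain rfl : d = t + 11 := by omega
            exact conn_eq_ten (by omega) (by omega) k α
      · exact conn_le_nine (by omega) (by omega) hd2 hd3 k α

end Pool.Agent.Lib.MP_e26c3f_al
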