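import Pool.Agent.Lib.MP_e26c3f_al.Defs

/-!
# Koszulness and an obstruction in characteristic two
-/

set_option autoImplicit false

namespace Pool.Agent.Lib.MP_e26c3f_al.NK

open MvPolynomial

/-- The `K`-linear combinations of the generating monomials: the component of degree one of
`PV(n,d,s)`. -/
noncomputable def linForms (K : Type*) [Field K] (n d s : ℕ) : Submodule K (MvPolynomial (Fin n) K) :=
  Submodule.span K ((fun m => monomial m (1 : K)) '' gens n d s)

/-- `R = PV(n,d,s)` is Koszul: the residue field `K` has a linear graded free resolution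
`⋯ → R(-2)^{b 2} → R(-1)^{b 1} → R^{b 0} = R → K → 0`.  The maps are given by matrices whose
entries are linear forms (they act on row vectors); the image of the first one is the ideal of all
elements with constant coefficient zero, and the sequence is exact. -/
def IsKoszul (K : Type*) [Field K] (n d s : ℕ) : Prop :=
  ∃ (b : ℕ → ℕ) (M : (i : ℕ) → Matrix (Fin (b (i + 1))) (Fin (b i)) (PV K n d s)),
    b 0 = 1 ∧
    (∀ i a c, ((M i a c : PV K n d s) : MvPolynomial (Fin n) K) ∈ linForms K n d s) ∧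
    (∀ v : Fin (b 0) → PV K n d s, (∃ w, Matrix.vecMul w (M 0) = v) ↔
      ∀ j, constantCoeff ((v j : PV K n d s) : MvPolynomial (Fin n) K) = 0) ∧
    ∀ (i : ℕ) (v : Fin (b (i + 1)) → PV K n d s),
      Matrix.vecMul v (M i) = 0 ↔ ∃ w, Matrix.vecMul w (M (i + 1)) = v

/-! ### Trilinear functionals -/

section

variable {K : Type*} [Field K] {n : ℕ}

/-- the trilinear functional with prescribed values on monomials -/
noncomputable def tri (χ : (Fin n →₀ ℕ) → (Fin n →₀ ℕ) → (Fin n →₀ ℕ) → K) :
    MvPolynomial (Fin n) K →ₗ[K] MvPolynomial (Fin n) K →ₗ[K] MvPolynomial (Fin n) K →ₗ[K] K :=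
  (basisMonomials (Fin n) K).constr K fun a => (basisMonomials (Fin n) K).constr K fun b =>
    (basisMonomials (Fin n) K).constr K fun c => χ a b c

theorem tri_mon (χ : (Fin n →₀ ℕ) → (Fin n →₀ ℕ) → (Fin n →₀ ℕ) → K) (a b c : Fin n →₀ ℕ) :
    tri χ (monomial a 1) (monomial b 1) (monomial c 1) = χ a b c := by
  have h (m : Fin n →₀ ℕ) : monomial m (1 : K) = basisMonomials (Fin n) K m := by
    simp
  unfold tri
  rw [h a, h b, h c, Module.Basis.constr_basis, Module.Basis.constr_basis,
    Module.Basis.constr_basis]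

end

/-! ### The graded pieces -/

section
variable {K : Type*} [Field K] {n d s : ℕ}

theorem linForms_le_PV {f : MvPolynomial (Fin n) K} (hf : f ∈ linForms K n d s) :
    f ∈ PV K n d s := by
  have h : linForms K n d s ≤ Subalgebra.toSubmodule (PV K n d s) := by
    unfold linForms
    rw [Submodule.span_le]
    exact Algebra.subset_adjoin
  exact h hf

theorem isHomogeneous_of_mem_linForms {f : MvPolynomial (Fin n) K} (hf : f ∈ linForms K n d s) :
    f.IsHomogeneous d := by
  have h : linForms K n d s ≤ homogeneousSubmodule (Fin n) K d := by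
    unfold linForms
    rw [Submodule.span_le]
    rintro _ ⟨m, hm, rfl⟩
    exact isHomogeneous_monomial _ hm.1
  exact h hf

theorem hc_mul (f g : MvPolynomial (Fin n) K) (k : ℕ) (hg : g.IsHomogeneous d) :
    homogeneousComponent (k + d) (f * g) = homogeneousComponent k f * g := by
  classical
  conv_lhs => rw [← sum_homogeneousComponent f]
  rw [Finset.sum_mul, map_sum]
  by_cases hk : k ∈ Finset.range (f.totalDegree + 1)
  · rw [Finset.sum_eq_single_of_mem k hk]
    · rw [homogeneousComponent_of_mem ((homogeneousComponent_isHomogeneous k f).mul hg), if_pos rfl]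
    · intro j _ hj
      rw [homogeneousComponent_of_mem ((homogeneousComponent_isHomogeneous j f).mul hg),
        if_neg (by omega)]
  · rw [Finset.sum_eq_zero]
    · rw [homogeneousComponent_eq_zero, zero_mul]
      simpa using hk
    · intro j hj
      rw [homogeneousComponent_of_mem ((homogeneousComponent_isHomogeneous j f).mul hg),
        if_neg]
      intro h
      apply hk
      have : k = j := by omega
      rwa [this]

/-- the component of degree `d` of a combination of forms of degree `d` -/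
theorem sum_const {ι : Type*} [Fintype ι] (w ℓ : ι → MvPolynomial (Fin n) K)
    (hℓ : ∀ a, (ℓ a).IsHomogeneous d) (y : MvPolynomial (Fin n) K) (hy : y.IsHomogeneous d)
    (h : ∑ a, w a * ℓ a = y) : ∑ a, constantCoeff (w a) • ℓ a = y := by
  classical
  have h1 := congrArg (homogeneousComponent d) h
  rw [homogeneousComponent_of_mem hy, if_pos rfl, map_sum] at h1
  rw [← h1]
  refine Finset.sum_congr rfl fun a _ => ?_
  have h2 := hc_mul (d := d) (w a) (ℓ a) 0 (hℓ a)
  rw [zero_add] at h2
  rw [h2, homogeneousComponent_zero, smul_eq_C_mul]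
  rfl

/-- the semigroup: an element of degree `d` is a generator -/
theorem mem_gens_of_degree (hd : 1 ≤ d) {m : Fin n →₀ ℕ}
    (hm : m ∈ AddSubmonoid.closure (gens n d s)) (h : m.degree = d) : m ∈ gens n d s := by
  have key : ∀ m ∈ AddSubmonoid.closure (gens n d s), ∃ k : ℕ, m.degree = k * d ∧
      (k = 0 → m = 0) ∧ (k = 1 → m ∈ gens n d s) := by
    intro m hm
    induction hm using AddSubmonoid.closure_induction with
    | mem x hx => exact ⟨1, by rw [hx.1, one_mul], by omega, fun _ => hx⟩
    | zero => exact ⟨0, by simp, fun _ => rfl, by omega⟩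
    | add x y _ _ hx hy =>
      obtain ⟨k, h1, h2, h3⟩ := hx
      obtain ⟨l, h4, h5, h6⟩ := hy
      refine ⟨k + l, by rw [map_add, h1, h4, add_mul], ?_, ?_⟩
      · intro hkl
        rw [h2 (by omega), h5 (by omega), add_zero]
      · intro hkl
        rcases Nat.eq_zero_or_pos k with hk | hk
        · rw [h2 hk, zero_add]
          exact h6 (by omega)
        · rw [h5 (by omega), add_zero]
          exact h3 (by omega)
  obtain ⟨k, h1, _, h3⟩ := key m hm
  refine h3 ?_
  rw [h] at h1
  have : k * d = 1 * d := by omega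
  exact Nat.eq_of_mul_eq_mul_right (by omega) this

theorem mem_PV_span {f : MvPolynomial (Fin n) K} (hf : f ∈ PV K n d s) :
    f ∈ Submodule.span K ((fun m => monomial m (1 : K)) ''
      (AddSubmonoid.closure (gens n d s) : Set (Fin n →₀ ℕ))) := by
  have h : Subalgebra.toSubmodule (PV K n d s) ≤ Submodule.span K ((fun m => monomial m (1 : K)) ''
      (AddSubmonoid.closure (gens n d s) : Set (Fin n →₀ ℕ))) := by
    unfold PV
    rw [Algebra.adjoin_eq_span, Submodule.span_le]
    intro x hx
    refine Submodule.subset_span ?_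
    induction hx using Submonoid.closure_induction with
    | mem x hx =>
      obtain ⟨m, hm, rfl⟩ := hx
      exact ⟨m, AddSubmonoid.subset_closure hm, rfl⟩
    | one => exact ⟨0, zero_mem _, rfl⟩
    | mul x y _ _ hx hy =>
      obtain ⟨m, hm, rfl⟩ := hx
      obtain ⟨m', hm', rfl⟩ := hy
      exact ⟨m + m', add_mem hm hm', by simp [monomial_mul]⟩
  exact h hf

end

/-! ### The cocycle -/

theorem fin_pairing {ι : Type*} [DecidableEq ι] {s : ℕ} {a b c e : Finset ι} (ha : a.card ≤ s)
    (hb : b.card ≤ s) (hc : c.card ≤ s) (he : e.card ≤ s)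
    (hU : 4 * s ≤ ((a ∪ b) ∪ (c ∪ e)).card + 2) (hab : (a ∩ b).Nonempty)
    (hc' : (c ∩ (a ∪ b ∪ e)).Nonempty) (he' : (e ∩ (a ∪ b ∪ c)).Nonempty) :
    (c ∩ e).Nonempty ∧ (a ∩ b).card ≤ 1 ∧ (c ∩ e).card ≤ 1 ∧ (a ∪ b) ∩ (c ∪ e) = ∅ := by
  have h1 := Finset.card_union_add_card_inter a b
  have h2 := Finset.card_union_add_card_inter c e
  have h3 := Finset.card_union_add_card_inter (a ∪ b) (c ∪ e)
  have h4 : 1 ≤ (a ∩ b).card := Finset.card_pos.2 hab
  have key : (c ∩ e).Nonempty := by
    by_contra hcon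
    rw [Finset.not_nonempty_iff_eq_empty] at hcon
    obtain ⟨v, hv⟩ := hc'
    obtain ⟨w, hw⟩ := he'
    have hv1 : v ∈ (a ∪ b) ∩ (c ∪ e) := by
      have : v ∉ c ∩ e := by rw [hcon]; simp
      simp only [Finset.mem_inter, Finset.mem_union] at hv this ⊢
      tauto
    have hw1 : w ∈ (a ∪ b) ∩ (c ∪ e) := by
      have : w ∉ c ∩ e := by rw [hcon]; simp
      simp only [Finset.mem_inter, Finset.mem_union] at hw this ⊢
      tauto
    have h5 : ((a ∪ b) ∩ (c ∪ e)).card ≤ 1 := by omega
    have h6 : v = w := Finset.card_le_one.1 h5 v hv1 w hw1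
    have : v ∈ c ∩ e := by
      rw [← h6] at hw
      simp only [Finset.mem_inter] at hv hw ⊢
      exact ⟨hv.1, hw.1⟩
    rw [hcon] at this
    simp at this
  have h5 : 1 ≤ (c ∩ e).card := Finset.card_pos.2 key
  refine ⟨key, by omega, by omega, ?_⟩
  rw [← Finset.card_eq_zero]
  omega

section
variable {n d s : ℕ}

/-- Each of the four factors shares a variable with another one. -/
theorem meets {α g1 g2 g3 g4 : Fin n →₀ ℕ}
    (hsub : ∀ T ⊆ α.support, T.card ≤ s → ∑ v ∈ T, α v ≠ d)
    (h1 : g1 ∈ gens n d s) (hsum : g1 + g2 + g3 + g4 = α) :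
    ∃ v, g1 v ≠ 0 ∧ (g2 v ≠ 0 ∨ g3 v ≠ 0 ∨ g4 v ≠ 0) := by
  by_contra hcon
  push Not at hcon
  have hv : ∀ v ∈ g1.support, α v = g1 v := fun v hv => by
    have h2 := hcon v (by simpa using hv)
    rw [← hsum]
    simp only [Finsupp.add_apply]
    omega
  refine hsub g1.support (fun v hv' => ?_) h1.2 ?_
  · have := hv v hv'
    rw [Finsupp.mem_support_iff] at hv' ⊢
    omega
  · rw [Finset.sum_congr rfl hv]
    exact h1.1

theorem matched {α g1 g2 g3 g4 : Fin n →₀ ℕ} (hcard : 4 * s ≤ α.support.card + 2)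
    (hsub : ∀ T ⊆ α.support, T.card ≤ s → ∑ v ∈ T, α v ≠ d)
    (h1 : g1 ∈ gens n d s) (h2 : g2 ∈ gens n d s) (h3 : g3 ∈ gens n d s) (h4 : g4 ∈ gens n d s)
    (hsum : g1 + g2 + g3 + g4 = α) {u : Fin n} (hu1 : g1 u ≠ 0) (hu2 : g2 u ≠ 0) :
    ∃ v, g3 v ≠ 0 ∧ g4 v ≠ 0 ∧ (∀ w, g1 w ≠ 0 → g2 w ≠ 0 → w = u) ∧
      (∀ w, g3 w ≠ 0 → g4 w ≠ 0 → w = v) ∧
      ∀ w, (g1 w ≠ 0 ∨ g2 w ≠ 0) → (g3 w ≠ 0 ∨ g4 w ≠ 0) → False := by
  classical
  have hsupp : α.support = (g1.support ∪ g2.support) ∪ (g3.support ∪ g4.support) := by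
    ext w
    rw [← hsum]
    simp only [Finsupp.mem_support_iff, Finsupp.add_apply, Finset.mem_union]
    omega
  have h3' := meets (g1 := g3) (g2 := g1) (g3 := g2) (g4 := g4) hsub h3 (by rw [← hsum]; abel)
  have h4' := meets (g1 := g4) (g2 := g1) (g3 := g2) (g4 := g3) hsub h4 (by rw [← hsum]; abel)
  obtain ⟨x, hx1, hx2⟩ := h3'
  obtain ⟨y, hy1, hy2⟩ := h4'
  obtain ⟨hne, hc1, hc2, hdis⟩ := fin_pairing h1.2 h2.2 h3.2 h4.2 (by rw [← hsupp]; exact hcard)
    ⟨u, by simp [hu1, hu2]⟩ ⟨x, by
      simp only [Finset.mem_inter, Finset.mem_union, Finsupp.mem_support_iff]; tauto⟩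
    ⟨y, by simp only [Finset.mem_inter, Finset.mem_union, Finsupp.mem_support_iff]; tauto⟩
  obtain ⟨v, hv⟩ := hne
  have hv' : g3 v ≠ 0 ∧ g4 v ≠ 0 := by simpa using hv
  refine ⟨v, hv'.1, hv'.2, fun w hw1 hw2 => ?_, fun w hw1 hw2 => ?_, fun w hw1 hw2 => ?_⟩
  · exact Finset.card_le_one.1 hc1 w (by simp [hw1, hw2]) u (by simp [hu1, hu2])
  · exact Finset.card_le_one.1 hc2 w (by simp [hw1, hw2]) v hv
  · have : w ∈ (g1.support ∪ g2.support) ∩ (g3.support ∪ g4.support) := by
      simp only [Finset.mem_inter, Finset.mem_union, Finsupp.mem_support_iff]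
      exact ⟨hw1, hw2⟩
    rw [hdis] at this
    simp at this

end

section
variable (K : Type*) [Field K] {n d s : ℕ}

open Classical in
/-- the first component of the cocycle -/
noncomputable def chi1 (α a b c : Fin n →₀ ℕ) : K :=
  if a + b + c = α ∧ ∃ p q, p < q ∧ c p ≠ 0 ∧ a p ≠ 0 ∧ b q ≠ 0 ∧ a q ≠ 0 then 1 else 0

open Classical in
/-- the second component of the cocycle -/
noncomputable def chi2 (α a b c : Fin n →₀ ℕ) : K :=
  if a + b + c = α ∧ ∃ p, a p ≠ 0 ∧ c p ≠ 0 then 1 else 0

open Classical in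
/-- the third component of the cocycle -/
noncomputable def chi3 (α a b c : Fin n →₀ ℕ) : K :=
  if a + b + c = α ∧ ∃ p q, p < q ∧ b p ≠ 0 ∧ c p ≠ 0 ∧ a q ≠ 0 ∧ c q ≠ 0 then 1 else 0

theorem add_ne {a b : Fin n →₀ ℕ} {p : Fin n} : (a + b) p ≠ 0 ↔ a p ≠ 0 ∨ b p ≠ 0 := by
  rw [Finsupp.add_apply]
  omega

variable {K}

/-- the cocycle condition -/
theorem chi_rel [CharP K 2] {α g1 g2 g3 g4 : Fin n →₀ ℕ} (hcard : 4 * s ≤ α.support.card + 2)
    (hsub : ∀ T ⊆ α.support, T.card ≤ s → ∑ v ∈ T, α v ≠ d)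
    (h1 : g1 ∈ gens n d s) (h2 : g2 ∈ gens n d s) (h3 : g3 ∈ gens n d s) (h4 : g4 ∈ gens n d s)
    (hsum : g1 + g2 + g3 + g4 = α) :
    chi1 K α (g1 + g2) g3 g4 + chi2 K α g1 (g2 + g3) g4 + chi3 K α g1 g2 (g3 + g4) = 0 := by
  classical
  have two : (1 : K) + 1 = 0 := by
    have := CharP.cast_eq_zero K 2
    push_cast at this
    rw [one_add_one_eq_two]
    exact this
  have s2 : g1 + (g2 + g3) + g4 = α := by rw [← hsum]; abel
  have s3 : g1 + g2 + (g3 + g4) = α := by rw [← hsum]; abel
  unfold chi1 chi2 chi3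
  simp only [hsum, s2, s3, true_and, add_ne]
  obtain ⟨u, hu1, hu2⟩ := meets hsub h1 hsum
  rcases hu2 with hu2 | hu2 | hu2
  · -- the pairs are 12 and 34
    obtain ⟨v, hv3, hv4, _, _, hdis⟩ := matched hcard hsub h1 h2 h3 h4 hsum hu1 hu2
    rw [if_neg, if_neg, if_neg]
    · simp
    · rintro ⟨p, q, _, hp1, hp2, _, _⟩
      exact hdis p (Or.inr hp1) hp2
    · rintro ⟨p, hp1, hp2⟩
      exact hdis p (Or.inl hp1) (Or.inr hp2)
    · rintro ⟨p, q, _, hp1, hp2, _, _⟩
      exact hdis p hp2 (Or.inr hp1)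
  · -- the pairs are 13 and 24
    obtain ⟨v, hv2, hv4, hun1, hun2, hdis⟩ := matched (g1 := g1) (g2 := g3) (g3 := g2) (g4 := g4)
      hcard hsub h1 h3 h2 h4 (by rw [← hsum]; abel) hu1 hu2
    have e2 : ¬ ∃ p, g1 p ≠ 0 ∧ g4 p ≠ 0 := by
      rintro ⟨p, hp1, hp2⟩
      exact hdis p (Or.inl hp1) (Or.inr hp2)
    have e1 : (∃ p q, p < q ∧ g4 p ≠ 0 ∧ (g1 p ≠ 0 ∨ g2 p ≠ 0) ∧ g3 q ≠ 0 ∧
        (g1 q ≠ 0 ∨ g2 q ≠ 0)) ↔ v < u := by
      constructor
      · rintro ⟨p, q, hpq, hp4, hp12, hq3, hq12⟩
        have hp2 : g2 p ≠ 0 := by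
          rcases hp12 with h | h
          · exact absurd (hdis p (Or.inl h) (Or.inr hp4)) id
          · exact h
        have hq1 : g1 q ≠ 0 := by
          rcases hq12 with h | h
          · exact h
          · exact absurd (hdis q (Or.inr hq3) (Or.inl h)) id
        rw [hun2 p hp2 hp4, hun1 q hq1 hq3] at hpq
        exact hpq
      · intro h
        exact ⟨v, u, h, hv4, Or.inr hv2, hu2, Or.inl hu1⟩
    have e3 : (∃ p q, p < q ∧ g2 p ≠ 0 ∧ (g3 p ≠ 0 ∨ g4 p ≠ 0) ∧ g1 q ≠ 0 ∧
        (g3 q ≠ 0 ∨ g4 q ≠ 0)) ↔ v < u := by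
      constructor
      · rintro ⟨p, q, hpq, hp2, hp34, hq1, hq34⟩
        have hp4 : g4 p ≠ 0 := by
          rcases hp34 with h | h
          · exact absurd (hdis p (Or.inr h) (Or.inl hp2)) id
          · exact h
        have hq3 : g3 q ≠ 0 := by
          rcases hq34 with h | h
          · exact h
          · exact absurd (hdis q (Or.inl hq1) (Or.inr h)) id
        rw [hun2 p hp2 hp4, hun1 q hq1 hq3] at hpq
        exact hpq
      · intro h
        exact ⟨v, u, h, hv2, Or.inr hv4, hu1, Or.inl hu2⟩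
    rw [if_neg e2]
    simp only [e1, e3]
    split_ifs
    · rw [add_zero, two]
    · simp
  · -- the pairs are 14 and 23
    obtain ⟨v, hv2, hv3, hun1, hun2, hdis⟩ := matched (g1 := g1) (g2 := g4) (g3 := g2) (g4 := g3)
      hcard hsub h1 h4 h2 h3 (by rw [← hsum]; abel) hu1 hu2
    have e2 : ∃ p, g1 p ≠ 0 ∧ g4 p ≠ 0 := ⟨u, hu1, hu2⟩
    have e1 : (∃ p q, p < q ∧ g4 p ≠ 0 ∧ (g1 p ≠ 0 ∨ g2 p ≠ 0) ∧ g3 q ≠ 0 ∧
        (g1 q ≠ 0 ∨ g2 q ≠ 0)) ↔ u < v := by
      constructor
      · rintro ⟨p, q, hpq, hp4, hp12, hq3, hq12⟩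
        have hp1 : g1 p ≠ 0 := by
          rcases hp12 with h | h
          · exact h
          · exact absurd (hdis p (Or.inr hp4) (Or.inl h)) id
        have hq2 : g2 q ≠ 0 := by
          rcases hq12 with h | h
          · exact absurd (hdis q (Or.inl h) (Or.inr hq3)) id
          · exact h
        rw [hun1 p hp1 hp4, hun2 q hq2 hq3] at hpq
        exact hpq
      · intro h
        exact ⟨u, v, h, hu2, Or.inl hu1, hv3, Or.inr hv2⟩
    have e3 : (∃ p q, p < q ∧ g2 p ≠ 0 ∧ (g3 p ≠ 0 ∨ g4 p ≠ 0) ∧ g1 q ≠ 0 ∧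
        (g3 q ≠ 0 ∨ g4 q ≠ 0)) ↔ v < u := by
      constructor
      · rintro ⟨p, q, hpq, hp2, hp34, hq1, hq34⟩
        have hp3 : g3 p ≠ 0 := by
          rcases hp34 with h | h
          · exact h
          · exact absurd (hdis p (Or.inr h) (Or.inl hp2)) id
        have hq4 : g4 q ≠ 0 := by
          rcases hq34 with h | h
          · exact absurd (hdis q (Or.inl hq1) (Or.inr h)) id
          · exact h
        rw [hun2 p hp2 hp3, hun1 q hq1 hq4] at hpq
        exact hpq
      · intro h
        exact ⟨v, u, h, hv2, Or.inl hv3, hu1, Or.inr hu2⟩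
    have huv : u ≠ v := fun h => hdis u (Or.inl hu1) (Or.inl (h ▸ hv2))
    rw [if_pos e2]
    simp only [e1, e3]
    rcases lt_or_gt_of_ne huv with h | h
    · rw [if_pos h, if_neg (not_lt_of_gt h), add_zero, two]
    · rw [if_neg (not_lt_of_gt h), if_pos h, zero_add, two]

/-- the multilinear form of the cocycle condition -/
theorem tri_rel [CharP K 2] (hd : 1 ≤ d) {α : Fin n →₀ ℕ} (hcard : 4 * s ≤ α.support.card + 2)
    (hα : α.degree = 4 * d)
    (hsub : ∀ T ⊆ α.support, T.card ≤ s → ∑ v ∈ T, α v ≠ d)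
    {f1 f2 f3 f4 : MvPolynomial (Fin n) K}
    (h1 : f1 ∈ PV K n d s) (h2 : f2 ∈ linForms K n d s) (h3 : f3 ∈ linForms K n d s)
    (h4 : f4 ∈ linForms K n d s) :
    tri (chi1 K α) (f1 * f2) f3 f4 + tri (chi2 K α) f1 (f2 * f3) f4
      + tri (chi3 K α) f1 f2 (f3 * f4) = 0 := by
  replace h1 := mem_PV_span h1
  unfold linForms at h2 h3 h4
  induction h1 using Submodule.span_induction with
  | zero => simp
  | add x y _ _ hx hy =>
    simp only [add_mul, map_add, LinearMap.add_apply]
    linear_combination hx + hy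
  | smul c x _ hx =>
    simp only [smul_mul_assoc, map_smul, LinearMap.smul_apply, smul_eq_mul]
    linear_combination c * hx
  | mem x hx =>
    obtain ⟨m1, hm1, rfl⟩ := hx
    induction h2 using Submodule.span_induction with
    | zero => simp
    | add x y _ _ hx hy =>
      simp only [add_mul, mul_add, map_add, LinearMap.add_apply]
      linear_combination hx + hy
    | smul c x _ hx =>
      simp only [smul_mul_assoc, mul_smul_comm, map_smul, LinearMap.smul_apply, smul_eq_mul]
      linear_combination c * hx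
    | mem x hx =>
      obtain ⟨m2, hm2, rfl⟩ := hx
      induction h3 using Submodule.span_induction with
      | zero => simp
      | add x y _ _ hx hy =>
        simp only [add_mul, mul_add, map_add, LinearMap.add_apply]
        linear_combination hx + hy
      | smul c x _ hx =>
        simp only [smul_mul_assoc, mul_smul_comm, map_smul, LinearMap.smul_apply, smul_eq_mul]
        linear_combination c * hx
      | mem x hx =>
        obtain ⟨m3, hm3, rfl⟩ := hx
        induction h4 using Submodule.span_induction with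
        | zero => simp
        | add x y _ _ hx hy =>
          simp only [mul_add, map_add]
          linear_combination hx + hy
        | smul c x _ hx =>
          simp only [mul_smul_comm, map_smul, smul_eq_mul]
          linear_combination c * hx
        | mem x hx =>
          obtain ⟨m4, hm4, rfl⟩ := hx
          simp only [monomial_mul, mul_one]
          rw [tri_mon, tri_mon, tri_mon]
          by_cases hsum : m1 + m2 + m3 + m4 = α
          · have hdeg : m1.degree = d := by
              have h5 := congrArg Finsupp.degree hsum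
              rw [map_add, map_add, map_add, hm2.1, hm3.1, hm4.1, hα] at h5
              omega
            exact chi_rel hcard hsub (mem_gens_of_degree hd hm1 hdeg) hm2 hm3 hm4 hsum
          · have s2 : ¬ (m1 + (m2 + m3) + m4 = α) := fun h => hsum (by rw [← h]; abel)
            have s3 : ¬ (m1 + m2 + (m3 + m4) = α) := fun h => hsum (by rw [← h]; abel)
            unfold chi1 chi2 chi3
            simp only [hsum, s2, s3, false_and, if_false, add_zero]

end

/-! ### The cycle -/

section
variable {K : Type*} [Field K] {n d s : ℕ}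

theorem mon_mem {m : Fin n →₀ ℕ} (hm : m ∈ AddSubmonoid.closure (gens n d s)) :
    monomial m (1 : K) ∈ PV K n d s := by
  induction hm using AddSubmonoid.closure_induction with
  | mem x hx => exact Algebra.subset_adjoin ⟨x, hx, rfl⟩
  | zero => exact one_mem _
  | add x y _ _ hx hy =>
    have h := mul_mem hx hy
    rwa [monomial_mul, mul_one] at h

theorem mon_add_mon [CharP K 2] {a b : Fin n →₀ ℕ} (h : a = b) :
    monomial a (1 : K) + monomial b 1 = 0 := by
  have two : (1 : K) + 1 = 0 := by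
    have := CharP.cast_eq_zero K 2
    push_cast at this
    rw [one_add_one_eq_two]
    exact this
  rw [h, ← map_add, two, map_zero]

/-- The algebra is not Koszul if the cocycle is not zero on a cycle of a special form. -/
theorem not_koszul_of_cycle [CharP K 2] (hd : 1 ≤ d) {α : Fin n →₀ ℕ}
    (hcard : 4 * s ≤ α.support.card + 2) (hα : α.degree = 4 * d)
    (hsub : ∀ T ⊆ α.support, T.card ≤ s → ∑ v ∈ T, α v ≠ d)
    {g1 g1' g3 g3' h h' r r' : Fin n →₀ ℕ} (hg1 : g1 ∈ gens n d s) (hg1' : g1' ∈ gens n d s)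
    (hg3 : g3 ∈ gens n d s) (hg3' : g3' ∈ gens n d s) (hh : h ∈ gens n d s)
    (hh' : h' ∈ gens n d s) (hr : r ∈ AddSubmonoid.closure (gens n d s))
    (hr' : r' ∈ AddSubmonoid.closure (gens n d s)) (e1 : g3 + g1 = g3' + g1')
    (e2 : h + g1 = h' + g1') (e3 : r + g3 = r' + h) (e4 : r + g3' = r' + h')
    (hχ : chi1 K α r g3 g1 + chi1 K α r g3' g1' + chi1 K α r' h g1 + chi1 K α r' h' g1' ≠ 0) :
    ¬ IsKoszul K n d s := by
  classical
  rintro ⟨b, M, hb, hlin, hF0, hex⟩
  have j0 : Fin (b 0) := ⟨0, by omega⟩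
  have hj0 : ∀ j : Fin (b 0), j = j0 := fun j => by
    ext
    have := j.2
    have := j0.2
    omega
  have husum : ∀ f : Fin (b 0) → PV K n d s, ∑ j, f j = f j0 := fun f => by
    rw [Finset.sum_eq_single j0]
    · intro j _ hj
      exact absurd (hj0 j) hj
    · simp
  -- the forms of the first matrix
  have hℓ : ∀ i a c, ((M i a c : PV K n d s) : MvPolynomial (Fin n) K).IsHomogeneous d :=
    fun i a c => isHomogeneous_of_mem_linForms (hlin i a c)
  have step1 : ∀ g ∈ gens n d s, ∃ lam : Fin (b 1) → K,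
      ∑ a, lam a • ((M 0 a j0 : PV K n d s) : MvPolynomial (Fin n) K) = monomial g 1 := by
    intro g hg
    obtain ⟨w, hw⟩ := (hF0 fun _ => ⟨monomial g 1, mon_mem (AddSubmonoid.subset_closure hg)⟩).2
      (fun j => by
        have hne : g ≠ 0 := fun h0 => by
          have := hg.1
          rw [h0, map_zero] at this
          omega
        show constantCoeff (monomial g (1 : K)) = 0
        rw [constantCoeff_eq, coeff_monomial, if_neg hne])
    have h1 := congrFun hw j0
    rw [Matrix.vecMul, dotProduct] at h1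
    have h2 := congrArg (fun x : PV K n d s => (x : MvPolynomial (Fin n) K)) h1
    simp only [AddSubmonoidClass.coe_finsetSum, MulMemClass.coe_mul] at h2
    exact ⟨_, sum_const (d := d) _ _ (fun a => hℓ 0 a j0) _ (isHomogeneous_monomial _ hg.1) h2⟩
  obtain ⟨lam, hlam⟩ := step1 g1 hg1
  obtain ⟨lam', hlam'⟩ := step1 g1' hg1'
  -- the second step
  have step2 : ∀ x x' : Fin n →₀ ℕ, x ∈ gens n d s → x' ∈ gens n d s → x + g1 = x' + g1' →
      ∃ mu : Fin (b 2) → K, ∀ a, ∑ c, mu c • ((M 1 c a : PV K n d s) : MvPolynomial (Fin n) K) =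
        lam a • monomial x 1 + lam' a • monomial x' 1 := by
    intro x x' hx hx' hxx
    let X : PV K n d s := ⟨monomial x 1, mon_mem (AddSubmonoid.subset_closure hx)⟩
    let X' : PV K n d s := ⟨monomial x' 1, mon_mem (AddSubmonoid.subset_closure hx')⟩
    obtain ⟨w, hw⟩ := (hex 0 fun a => lam a • X + lam' a • X').1 (by
      funext j
      rw [hj0 j, Matrix.vecMul, dotProduct]
      apply Subtype.ext
      simp only [AddSubmonoidClass.coe_finsetSum, MulMemClass.coe_mul, Pi.zero_apply,
        ZeroMemClass.coe_zero]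
      have h1 : ∀ a, ((lam a • X + lam' a • X' : PV K n d s) : MvPolynomial (Fin n) K) *
          ((M 0 a j0 : PV K n d s) : MvPolynomial (Fin n) K) =
          monomial x 1 * (lam a • ((M 0 a j0 : PV K n d s) : MvPolynomial (Fin n) K)) +
          monomial x' 1 * (lam' a • ((M 0 a j0 : PV K n d s) : MvPolynomial (Fin n) K)) := by
        intro a
        show (lam a • monomial x (1 : K) + lam' a • monomial x' 1) * _ = _
        rw [add_mul, smul_mul_assoc, smul_mul_assoc, mul_smul_comm, mul_smul_comm]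
      rw [Finset.sum_congr rfl fun a _ => h1 a, Finset.sum_add_distrib, ← Finset.mul_sum,
        ← Finset.mul_sum, hlam, hlam', monomial_mul, monomial_mul, mul_one]
      exact mon_add_mon hxx)
    refine ⟨fun c => constantCoeff ((w c : PV K n d s) : MvPolynomial (Fin n) K), fun a => ?_⟩
    have h1 := congrFun hw a
    rw [Matrix.vecMul, dotProduct] at h1
    have h2 := congrArg (fun x : PV K n d s => (x : MvPolynomial (Fin n) K)) h1
    simp only [AddSubmonoidClass.coe_finsetSum, MulMemClass.coe_mul] at h2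
    refine sum_const (d := d) _ _ (fun c => hℓ 1 c a) _ ?_ h2
    exact (homogeneousSubmodule (Fin n) K d).add_mem
      ((homogeneousSubmodule (Fin n) K d).smul_mem _ (isHomogeneous_monomial _ hx.1))
      ((homogeneousSubmodule (Fin n) K d).smul_mem _ (isHomogeneous_monomial _ hx'.1))
  obtain ⟨mu, hmu⟩ := step2 g3 g3' hg3 hg3' e1
  obtain ⟨mu', hmu'⟩ := step2 h h' hh hh' e2
  -- the third step
  let P : PV K n d s := ⟨monomial r 1, mon_mem hr⟩
  let P' : PV K n d s := ⟨monomial r' 1, mon_mem hr'⟩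
  obtain ⟨w, hw⟩ := (hex 1 fun c => mu c • P + mu' c • P').1 (by
    funext a
    rw [Matrix.vecMul, dotProduct]
    apply Subtype.ext
    simp only [AddSubmonoidClass.coe_finsetSum, MulMemClass.coe_mul, Pi.zero_apply,
      ZeroMemClass.coe_zero]
    have h1 : ∀ c, ((mu c • P + mu' c • P' : PV K n d s) : MvPolynomial (Fin n) K) *
        ((M 1 c a : PV K n d s) : MvPolynomial (Fin n) K) =
        monomial r 1 * (mu c • ((M 1 c a : PV K n d s) : MvPolynomial (Fin n) K)) +
        monomial r' 1 * (mu' c • ((M 1 c a : PV K n d s) : MvPolynomial (Fin n) K)) := by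
      intro c
      show (mu c • monomial r (1 : K) + mu' c • monomial r' 1) * _ = _
      rw [add_mul, smul_mul_assoc, smul_mul_assoc, mul_smul_comm, mul_smul_comm]
    rw [Finset.sum_congr rfl fun c _ => h1 c, Finset.sum_add_distrib, ← Finset.mul_sum,
      ← Finset.mul_sum, hmu, hmu', mul_add, mul_add, mul_smul_comm, mul_smul_comm, mul_smul_comm,
      mul_smul_comm, monomial_mul, monomial_mul, monomial_mul, monomial_mul, mul_one]
    have h2 := mon_add_mon (K := K) e3
    have h3 := mon_add_mon (K := K) e4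
    calc _ = lam a • (monomial (r + g3) (1 : K) + monomial (r' + h) 1) +
        lam' a • (monomial (r + g3') (1 : K) + monomial (r' + h') 1) := by
          rw [smul_add, smul_add]; abel
      _ = 0 := by rw [h2, h3, smul_zero, smul_zero, add_zero])
  have hw' : ∀ c, ∑ e, ((w e : PV K n d s) : MvPolynomial (Fin n) K) *
      ((M 2 e c : PV K n d s) : MvPolynomial (Fin n) K) =
      mu c • monomial r 1 + mu' c • monomial r' 1 := by
    intro c
    have h1 := congrFun hw c
    rw [Matrix.vecMul, dotProduct] at h1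
    have h2 := congrArg (fun x : PV K n d s => (x : MvPolynomial (Fin n) K)) h1
    simp only [AddSubmonoidClass.coe_finsetSum, MulMemClass.coe_mul] at h2
    exact h2
  -- products of consecutive matrices are zero
  have hMM : ∀ i e a, ∑ c, ((M (i + 1) e c : PV K n d s) : MvPolynomial (Fin n) K) *
      ((M i c a : PV K n d s) : MvPolynomial (Fin n) K) = 0 := by
    intro i e a
    have h1 := (hex i (M (i + 1) e)).2 ⟨Pi.single e 1, by rw [Matrix.single_one_vecMul]; rfl⟩
    have h2 := congrFun h1 a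
    rw [Matrix.vecMul, dotProduct] at h2
    have h3 := congrArg (fun x : PV K n d s => (x : MvPolynomial (Fin n) K)) h2
    simp only [AddSubmonoidClass.coe_finsetSum, MulMemClass.coe_mul, Pi.zero_apply,
      ZeroMemClass.coe_zero] at h3
    exact h3
  -- the sum of the cocycle conditions
  have hsum : ∑ e, ∑ c, ∑ a,
      (tri (chi1 K α) (((w e : PV K n d s) : MvPolynomial (Fin n) K) *
          ((M 2 e c : PV K n d s) : MvPolynomial (Fin n) K))
          ((M 1 c a : PV K n d s) : MvPolynomial (Fin n) K)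
          ((M 0 a j0 : PV K n d s) : MvPolynomial (Fin n) K)
        + tri (chi2 K α) ((w e : PV K n d s) : MvPolynomial (Fin n) K)
          (((M 2 e c : PV K n d s) : MvPolynomial (Fin n) K) *
          ((M 1 c a : PV K n d s) : MvPolynomial (Fin n) K))
          ((M 0 a j0 : PV K n d s) : MvPolynomial (Fin n) K)
        + tri (chi3 K α) ((w e : PV K n d s) : MvPolynomial (Fin n) K)
          ((M 2 e c : PV K n d s) : MvPolynomial (Fin n) K)
          (((M 1 c a : PV K n d s) : MvPolynomial (Fin n) K) *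
          ((M 0 a j0 : PV K n d s) : MvPolynomial (Fin n) K))) = 0 :=
    Finset.sum_eq_zero fun e _ => Finset.sum_eq_zero fun c _ => Finset.sum_eq_zero fun a _ =>
      tri_rel hd hcard hα hsub (w e).2 (hlin 2 e c) (hlin 1 c a) (hlin 0 a j0)
  simp only [Finset.sum_add_distrib] at hsum
  have h2 : ∑ e, ∑ c, ∑ a, tri (chi2 K α) ((w e : PV K n d s) : MvPolynomial (Fin n) K)
          (((M 2 e c : PV K n d s) : MvPolynomial (Fin n) K) *
          ((M 1 c a : PV K n d s) : MvPolynomial (Fin n) K))
          ((M 0 a j0 : PV K n d s) : MvPolynomial (Fin n) K) = 0 := by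
    refine Finset.sum_eq_zero fun e _ => ?_
    rw [Finset.sum_comm]
    refine Finset.sum_eq_zero fun a _ => ?_
    have h3 := hMM 1 e a
    rw [← LinearMap.sum_apply, ← map_sum, h3]
    simp
  have h3 : ∑ e, ∑ c, ∑ a, tri (chi3 K α) ((w e : PV K n d s) : MvPolynomial (Fin n) K)
          ((M 2 e c : PV K n d s) : MvPolynomial (Fin n) K)
          (((M 1 c a : PV K n d s) : MvPolynomial (Fin n) K) *
          ((M 0 a j0 : PV K n d s) : MvPolynomial (Fin n) K)) = 0 := by
    refine Finset.sum_eq_zero fun e _ => Finset.sum_eq_zero fun c _ => ?_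
    rw [← map_sum, hMM 0 c j0]
    simp
  rw [h2, h3, add_zero, add_zero, Finset.sum_comm] at hsum
  have h4 : ∀ c, ∑ e, ∑ a, tri (chi1 K α) (((w e : PV K n d s) : MvPolynomial (Fin n) K) *
          ((M 2 e c : PV K n d s) : MvPolynomial (Fin n) K))
          ((M 1 c a : PV K n d s) : MvPolynomial (Fin n) K)
          ((M 0 a j0 : PV K n d s) : MvPolynomial (Fin n) K) =
      ∑ a, (tri (chi1 K α) (monomial r 1)
          (mu c • ((M 1 c a : PV K n d s) : MvPolynomial (Fin n) K))
          ((M 0 a j0 : PV K n d s) : MvPolynomial (Fin n) K) +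
        tri (chi1 K α) (monomial r' 1)
          (mu' c • ((M 1 c a : PV K n d s) : MvPolynomial (Fin n) K))
          ((M 0 a j0 : PV K n d s) : MvPolynomial (Fin n) K)) := by
    intro c
    rw [Finset.sum_comm]
    refine Finset.sum_congr rfl fun a _ => ?_
    rw [← LinearMap.sum_apply, ← LinearMap.sum_apply, ← map_sum, hw' c]
    simp only [map_add, map_smul, LinearMap.add_apply, LinearMap.smul_apply]
  rw [Finset.sum_congr rfl fun c _ => h4 c, Finset.sum_comm] at hsum
  have h5 : ∀ a, ∑ c, (tri (chi1 K α) (monomial r 1)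
          (mu c • ((M 1 c a : PV K n d s) : MvPolynomial (Fin n) K))
          ((M 0 a j0 : PV K n d s) : MvPolynomial (Fin n) K) +
        tri (chi1 K α) (monomial r' 1)
          (mu' c • ((M 1 c a : PV K n d s) : MvPolynomial (Fin n) K))
          ((M 0 a j0 : PV K n d s) : MvPolynomial (Fin n) K)) =
      (tri (chi1 K α) (monomial r 1) (monomial g3 1)
          (lam a • ((M 0 a j0 : PV K n d s) : MvPolynomial (Fin n) K)) +
       tri (chi1 K α) (monomial r 1) (monomial g3' 1)
          (lam' a • ((M 0 a j0 : PV K n d s) : MvPolynomial (Fin n) K))) +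
      (tri (chi1 K α) (monomial r' 1) (monomial h 1)
          (lam a • ((M 0 a j0 : PV K n d s) : MvPolynomial (Fin n) K)) +
       tri (chi1 K α) (monomial r' 1) (monomial h' 1)
          (lam' a • ((M 0 a j0 : PV K n d s) : MvPolynomial (Fin n) K))) := by
    intro a
    rw [Finset.sum_add_distrib, ← LinearMap.sum_apply, ← map_sum, hmu a, ← LinearMap.sum_apply,
      ← map_sum, hmu' a]
    simp only [map_add, map_smul, LinearMap.add_apply, LinearMap.smul_apply]
  rw [Finset.sum_congr rfl fun a _ => h5 a, Finset.sum_add_distrib, Finset.sum_add_distrib,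
    Finset.sum_add_distrib, ← map_sum, ← map_sum, ← map_sum, ← map_sum, hlam, hlam', tri_mon,
    tri_mon, tri_mon, tri_mon] at hsum
  apply hχ
  rw [← hsum]
  ring

end

/-! ### Configurations of sets of variables -/

section
variable {n d s : ℕ}

/-- the exponent vector with the exponents `a` on the set `T` -/
noncomputable def full (a : Fin n → ℕ) (T : Finset (Fin n)) : Fin n →₀ ℕ :=
  ∑ v ∈ T, Finsupp.single v (a v)

theorem full_apply (a : Fin n → ℕ) (T : Finset (Fin n)) (w : Fin n) :
    full a T w = if w ∈ T then a w else 0 := by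
  classical
  unfold full
  rw [Finsupp.finsetSum_apply]
  by_cases hw : w ∈ T
  · rw [if_pos hw, Finset.sum_eq_single_of_mem w hw]
    · simp
    · intro v _ hv
      rw [Finsupp.single_apply, if_neg hv]
  · rw [if_neg hw]
    refine Finset.sum_eq_zero fun v hv => ?_
    rw [Finsupp.single_apply, if_neg]
    rintro rfl
    exact hw hv

theorem full_degree (a : Fin n → ℕ) (T : Finset (Fin n)) :
    (full a T).degree = ∑ v ∈ T, a v := by
  unfold full
  rw [map_sum]
  exact Finset.sum_congr rfl fun v _ => by rw [Finsupp.degree_single]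

theorem full_ne {a : Fin n → ℕ} {T : Finset (Fin n)} {w : Fin n} (h : full a T w ≠ 0) :
    w ∈ T := by
  by_contra hw
  rw [full_apply, if_neg hw] at h
  exact h rfl

theorem single_ne {x w : Fin n} {k : ℕ} (h : Finsupp.single x k w ≠ 0) : w = x := by
  classical
  by_contra hw
  rw [Finsupp.single_apply, if_neg fun h' => hw h'.symm] at h
  exact h rfl

theorem piece_mem {a : Fin n → ℕ} {T : Finset (Fin n)} (x : Fin n) (hT : T.card + 1 ≤ s)
    (hsum : ∑ v ∈ T, a v + 1 = d) : full a T + Finsupp.single x 1 ∈ gens n d s := by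
  classical
  refine ⟨by rw [map_add, full_degree, Finsupp.degree_single, hsum], ?_⟩
  refine (Finset.card_le_card (t := insert x T) fun w hw => ?_).trans
    ((Finset.card_insert_le _ _).trans hT)
  rw [Finsupp.mem_support_iff, add_ne] at hw
  rcases hw with hw | hw
  · exact Finset.mem_insert_of_mem (full_ne hw)
  · rw [single_ne hw]
    exact Finset.mem_insert_self _ _

theorem piece_mem' {a : Fin n → ℕ} {T : Finset (Fin n)} (x y : Fin n) (hT : T.card + 2 ≤ s)
    (hsum : ∑ v ∈ T, a v + 3 = d) :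
    full a T + (Finsupp.single y 1 + Finsupp.single y 1) + Finsupp.single x 1 ∈ gens n d s := by
  classical
  refine ⟨by rw [map_add, map_add, map_add, full_degree, Finsupp.degree_single,
    Finsupp.degree_single]; omega, ?_⟩
  refine (Finset.card_le_card (t := insert x (insert y T)) fun w hw => ?_).trans
    ((Finset.card_insert_le _ _).trans ?_)
  · rw [Finsupp.mem_support_iff, add_ne, add_ne, add_ne] at hw
    rcases hw with (hw | (hw | hw)) | hw
    · exact Finset.mem_insert_of_mem (Finset.mem_insert_of_mem (full_ne hw))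
    · rw [single_ne hw]
      exact Finset.mem_insert_of_mem (Finset.mem_insert_self _ _)
    · rw [single_ne hw]
      exact Finset.mem_insert_of_mem (Finset.mem_insert_self _ _)
    · rw [single_ne hw]
      exact Finset.mem_insert_self _ _
  · have := Finset.card_insert_le y T
    omega

/-- A configuration of four sets and three variables which excludes the Koszul property in
characteristic two. -/
theorem not_koszul_of_sets {K : Type*} [Field K] [CharP K 2] (hd : 1 ≤ d) (a : Fin n → ℕ)
    {A C D E : Finset (Fin n)} {p q r : Fin n}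
    (hA : A.card + 1 = s) (hC : C.card + 1 = s) (hD : D.card + 1 = s) (hE : E.card + 1 = s)
    (sA : ∑ v ∈ A, a v + 1 = d) (sC : ∑ v ∈ C, a v + 1 = d) (sD : ∑ v ∈ D, a v + 1 = d)
    (sE : ∑ v ∈ E, a v + 1 = d) (hp : a p = 2) (hq : a q = 2) (hr : a r = 2) (hpq : p ≠ q)
    (hrD : r ∈ D) (hAC : Disjoint A C) (hAD : Disjoint A D) (hAE : Disjoint A E)
    (hCD : Disjoint C D) (hCE : Disjoint C E) (hDE : Disjoint D E)
    (hpA : p ∉ A) (hpC : p ∉ C) (hpD : p ∉ D) (hpE : p ∉ E)
    (hqA : q ∉ A) (hqC : q ∉ C) (hqD : q ∉ D) (hqE : q ∉ E) (hpos : ∀ v, a v ≠ 0)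
    (hsub : ∀ T : Finset (Fin n), T.card ≤ s → ∑ v ∈ T, a v ≠ d) :
    ¬ IsKoszul K n d s := by
  classical
  have hs2 : 1 ≤ D.card := Finset.card_pos.2 ⟨r, hrD⟩
  set D' := D.erase r with hD'
  have hD'c : D'.card + 1 = D.card := Finset.card_erase_add_one hrD
  have hD's : ∑ v ∈ D', a v + 2 = ∑ v ∈ D, a v := by
    rw [hD', ← hr]
    exact Finset.sum_erase_add _ _ hrD
  have hDfull : full a D = full a D' + (Finsupp.single r 1 + Finsupp.single r 1) := by
    unfold full
    rw [hD', ← Finset.sum_erase_add _ _ hrD, hr, ← Finsupp.single_add]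
  -- the exponent vector
  set α : Fin n →₀ ℕ := full a A + full a C + full a D + full a E +
    (Finsupp.single p 1 + Finsupp.single p 1) + (Finsupp.single q 1 + Finsupp.single q 1) with hα
  have hval : ∀ v, α v ≠ 0 → α v = a v := by
    intro v hv
    have d1 : v ∈ A → v ∉ C := fun h => Finset.disjoint_left.1 hAC h
    have d2 : v ∈ A → v ∉ D := fun h => Finset.disjoint_left.1 hAD h
    have d3 : v ∈ A → v ∉ E := fun h => Finset.disjoint_left.1 hAE h
    have d4 : v ∈ C → v ∉ D := fun h => Finset.disjoint_left.1 hCD h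
    have d5 : v ∈ C → v ∉ E := fun h => Finset.disjoint_left.1 hCE h
    have d6 : v ∈ D → v ∉ E := fun h => Finset.disjoint_left.1 hDE h
    rw [hα] at hv ⊢
    simp only [Finsupp.add_apply, full_apply, Finsupp.single_apply] at hv ⊢
    by_cases h1 : p = v
    · subst h1
      rw [if_neg hpA, if_neg hpC, if_neg hpD, if_neg hpE, if_pos rfl, if_neg hpq.symm, hp]
      norm_num
    · by_cases h2 : q = v
      · subst h2
        rw [if_neg hqA, if_neg hqC, if_neg hqD, if_neg hqE, if_pos rfl, if_neg h1, hq]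
        norm_num
      · rw [if_neg h1, if_neg h2] at hv ⊢
        by_cases h3 : v ∈ A
        · simp [h3, d1 h3, d2 h3, d3 h3]
        · by_cases h4 : v ∈ C
          · simp [h3, h4, d4 h4, d5 h4]
          · by_cases h5 : v ∈ D
            · simp [h3, h4, h5, d6 h5]
            · by_cases h6 : v ∈ E
              · simp [h3, h4, h5, h6]
              · simp [h3, h4, h5, h6] at hv
  have hsupp : insert p (insert q (A ∪ C ∪ (D ∪ E))) ⊆ α.support := by
    intro v hv
    rw [Finsupp.mem_support_iff, hα]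
    simp only [add_ne, full_apply]
    simp only [Finset.mem_insert, Finset.mem_union] at hv
    have := hpos v
    rcases hv with rfl | rfl | (hv | hv) | (hv | hv)
    · simp
    · simp
    · simp [hv, this]
    · simp [hv, this]
    · simp [hv, this]
    · simp [hv, this]
  have hcard : 4 * s ≤ α.support.card + 2 := by
    have h1 := Finset.card_le_card hsupp
    rw [Finset.card_insert_of_notMem, Finset.card_insert_of_notMem, Finset.card_union_of_disjoint,
      Finset.card_union_of_disjoint hAC, Finset.card_union_of_disjoint hDE] at h1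
    · omega
    · rw [Finset.disjoint_union_left, Finset.disjoint_union_right, Finset.disjoint_union_right]
      exact ⟨⟨hAD, hAE⟩, hCD, hCE⟩
    · simp [hqA, hqC, hqD, hqE]
    · simp [hpA, hpC, hpD, hpE, hpq]
  have hdeg : α.degree = 4 * d := by
    rw [hα]
    simp only [map_add, full_degree, Finsupp.degree_single]
    omega
  have hsubα : ∀ T ⊆ α.support, T.card ≤ s → ∑ v ∈ T, α v ≠ d := by
    intro T hT hTs
    rw [Finset.sum_congr rfl fun v hv => hval v (by simpa using hT hv)]
    exact hsub T hTs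
  -- the membership of the pieces
  have mg1 := piece_mem (s := s) (d := d) (a := a) (T := A) p (by omega) sA
  have mg1' := piece_mem (s := s) (d := d) (a := a) (T := A) q (by omega) sA
  have mg3 := piece_mem (s := s) (d := d) (a := a) (T := C) q (by omega) sC
  have mg3' := piece_mem (s := s) (d := d) (a := a) (T := C) p (by omega) sC
  have mh := piece_mem' (s := s) (d := d) (a := a) (T := D') p q (by omega) (by omega)
  have mh' := piece_mem' (s := s) (d := d) (a := a) (T := D') q p (by omega) (by omega)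
  have mr := add_mem (AddSubmonoid.subset_closure (piece_mem (s := s) (d := d) (a := a) (T := D)
    p (by omega) sD)) (AddSubmonoid.subset_closure (piece_mem (s := s) (d := d) (a := a) (T := E)
    q (by omega) sE))
  have mr' := add_mem (AddSubmonoid.subset_closure (piece_mem (s := s) (d := d) (a := a) (T := C)
    r (by omega) sC)) (AddSubmonoid.subset_closure (piece_mem (s := s) (d := d) (a := a) (T := E)
    r (by omega) sE))
  refine not_koszul_of_cycle hd hcard hdeg hsubα mg1 mg1' mg3 mg3' mh mh' mr mr' (by abel)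
    (by abel) (by rw [hDfull]; abel) (by rw [hDfull]; abel) ?_
  have hrA : r ∉ A := fun h => Finset.disjoint_left.1 hAD h hrD
  have hrp : r ≠ p := fun h => hpD (h ▸ hrD)
  have hrq : r ≠ q := fun h => hqD (h ▸ hrD)
  have c3 : chi1 K α (full a C + Finsupp.single r 1 + (full a E + Finsupp.single r 1))
      (full a D' + (Finsupp.single q 1 + Finsupp.single q 1) + Finsupp.single p 1)
      (full a A + Finsupp.single p 1) = 0 := by
    unfold chi1
    rw [if_neg]
    rintro ⟨_, p0, q0, _, h1, h2, _, _⟩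
    simp only [add_ne] at h1 h2
    have h3 : p0 ∈ A ∨ p0 = p := h1.imp full_ne single_ne
    have h4 : (p0 ∈ C ∨ p0 = r) ∨ (p0 ∈ E ∨ p0 = r) :=
      h2.imp (fun h => h.imp full_ne single_ne) (fun h => h.imp full_ne single_ne)
    rcases h3 with h3 | rfl
    · rcases h4 with (h4 | rfl) | (h4 | rfl)
      · exact Finset.disjoint_left.1 hAC h3 h4
      · exact hrA h3
      · exact Finset.disjoint_left.1 hAE h3 h4
      · exact hrA h3
    · rcases h4 with (h4 | h4) | (h4 | h4)
      · exact hpC h4
      · exact hrp h4.symm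
      · exact hpE h4
      · exact hrp h4.symm
  have c4 : chi1 K α (full a C + Finsupp.single r 1 + (full a E + Finsupp.single r 1))
      (full a D' + (Finsupp.single p 1 + Finsupp.single p 1) + Finsupp.single q 1)
      (full a A + Finsupp.single q 1) = 0 := by
    unfold chi1
    rw [if_neg]
    rintro ⟨_, p0, q0, _, h1, h2, _, _⟩
    simp only [add_ne] at h1 h2
    have h3 : p0 ∈ A ∨ p0 = q := h1.imp full_ne single_ne
    have h4 : (p0 ∈ C ∨ p0 = r) ∨ (p0 ∈ E ∨ p0 = r) :=
      h2.imp (fun h => h.imp full_ne single_ne) (fun h => h.imp full_ne single_ne)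
    rcases h3 with h3 | rfl
    · rcases h4 with (h4 | rfl) | (h4 | rfl)
      · exact Finset.disjoint_left.1 hAC h3 h4
      · exact hrA h3
      · exact Finset.disjoint_left.1 hAE h3 h4
      · exact hrA h3
    · rcases h4 with (h4 | h4) | (h4 | h4)
      · exact hqC h4
      · exact hrq h4.symm
      · exact hqE h4
      · exact hrq h4.symm
  have hloc : ∀ x : Fin n, ((full a D + Finsupp.single p 1 + (full a E + Finsupp.single q 1) : Fin n →₀ ℕ) x ≠ 0)
      → (x ∈ D ∨ x = p) ∨ (x ∈ E ∨ x = q) := fun x hx => by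
    simp only [add_ne] at hx
    exact hx.imp (fun h => h.imp full_ne single_ne) (fun h => h.imp full_ne single_ne)
  have hpρ : (full a D + Finsupp.single p 1 + (full a E + Finsupp.single q 1) : Fin n →₀ ℕ) p ≠ 0 := by
    simp
  have hqρ : (full a D + Finsupp.single p 1 + (full a E + Finsupp.single q 1) : Fin n →₀ ℕ) q ≠ 0 := by
    simp
  have c1 : chi1 K α (full a D + Finsupp.single p 1 + (full a E + Finsupp.single q 1))
      (full a C + Finsupp.single q 1) (full a A + Finsupp.single p 1) = if p < q then 1 else 0 := by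
    unfold chi1
    refine if_congr ⟨?_, fun h => ⟨by rw [hα]; abel, p, q, h, by simp, hpρ, by simp, hqρ⟩⟩ rfl rfl
    rintro ⟨_, p0, q0, hlt, h1, h2, h3, h4⟩
    simp only [add_ne (a := full a A), add_ne (a := full a C)] at h1 h3
    replace h1 : p0 ∈ A ∨ p0 = p := h1.imp full_ne single_ne
    replace h3 : q0 ∈ C ∨ q0 = q := h3.imp full_ne single_ne
    replace h2 := hloc _ h2
    replace h4 := hloc _ h4
    have e1 : p0 = p := by
      rcases h1 with h1 | h1
      · rcases h2 with (h2 | h2) | (h2 | h2)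
        · exact absurd h2 (Finset.disjoint_left.1 hAD h1)
        · exact absurd h1 (h2 ▸ hpA)
        · exact absurd h2 (Finset.disjoint_left.1 hAE h1)
        · exact absurd h1 (h2 ▸ hqA)
      · exact h1
    have e2 : q0 = q := by
      rcases h3 with h1 | h1
      · rcases h4 with (h2 | h2) | (h2 | h2)
        · exact absurd h2 (Finset.disjoint_left.1 hCD h1)
        · exact absurd h1 (h2 ▸ hpC)
        · exact absurd h2 (Finset.disjoint_left.1 hCE h1)
        · exact absurd h1 (h2 ▸ hqC)
      · exact h1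
    rw [e1, e2] at hlt
    exact hlt
  have c2 : chi1 K α (full a D + Finsupp.single p 1 + (full a E + Finsupp.single q 1))
      (full a C + Finsupp.single p 1) (full a A + Finsupp.single q 1) = if q < p then 1 else 0 := by
    unfold chi1
    refine if_congr ⟨?_, fun h => ⟨by rw [hα]; abel, q, p, h, by simp, hqρ, by simp, hpρ⟩⟩ rfl rfl
    rintro ⟨_, p0, q0, hlt, h1, h2, h3, h4⟩
    simp only [add_ne (a := full a A), add_ne (a := full a C)] at h1 h3
    replace h1 : p0 ∈ A ∨ p0 = q := h1.imp full_ne single_ne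
    replace h3 : q0 ∈ C ∨ q0 = p := h3.imp full_ne single_ne
    replace h2 := hloc _ h2
    replace h4 := hloc _ h4
    have e1 : p0 = q := by
      rcases h1 with h1 | h1
      · rcases h2 with (h2 | h2) | (h2 | h2)
        · exact absurd h2 (Finset.disjoint_left.1 hAD h1)
        · exact absurd h1 (h2 ▸ hpA)
        · exact absurd h2 (Finset.disjoint_left.1 hAE h1)
        · exact absurd h1 (h2 ▸ hqA)
      · exact h1
    have e2 : q0 = p := by
      rcases h3 with h1 | h1
      · rcases h4 with (h2 | h2) | (h2 | h2)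
        · exact absurd h2 (Finset.disjoint_left.1 hCD h1)
        · exact absurd h1 (h2 ▸ hpC)
        · exact absurd h2 (Finset.disjoint_left.1 hCE h1)
        · exact absurd h1 (h2 ▸ hqC)
      · exact h1
    rw [e1, e2] at hlt
    exact hlt
  rw [c1, c2, c3, c4]
  rcases lt_or_gt_of_ne hpq with h | h
  · rw [if_pos h, if_neg (not_lt_of_gt h)]
    simp
  · rw [if_neg (not_lt_of_gt h), if_pos h]
    simp

end

/-! ### The theorem -/

/-- the variables with the numbers `lo, …, lo + m - 1` -/
def blk (n lo m : ℕ) (h : lo + m ≤ n) : Finset (Fin n) :=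
  (Finset.Ico lo (lo + m)).attachFin fun i hi => by
    rw [Finset.mem_Ico] at hi
    omega

theorem mem_blk {n lo m : ℕ} (h : lo + m ≤ n) (v : Fin n) :
    v ∈ blk n lo m h ↔ lo ≤ v.val ∧ v.val < lo + m := by
  unfold blk
  rw [Finset.mem_attachFin, Finset.mem_Ico]

theorem card_blk {n lo m : ℕ} (h : lo + m ≤ n) : (blk n lo m h).card = m := by
  unfold blk
  rw [Finset.card_attachFin, Nat.card_Ico]
  omega

/-- The algebras `PV(n,d,s)` which are shown not to be Koszul in characteristic two. -/
theorem not_koszul {K : Type*} [Field K] [CharP K 2] (n d s : ℕ) (hn : 4 * s ≤ n + 2)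
    (hds : (s = 2 ∧ d = 3) ∨ (3 ≤ s ∧ 2 * s ≤ d + 1 ∧ (Odd d ∨ 4 * s ≤ d + 4))) :
    ¬ IsKoszul K n d s := by
  classical
  obtain ⟨m, rfl⟩ : ∃ m, s = m + 1 := ⟨s - 1, by omega⟩
  obtain ⟨x, hx⟩ : ∃ x, x + 2 * (m + 1) = d + 3 := ⟨d + 3 - 2 * (m + 1), by omega⟩
  have hm : 1 ≤ m := by omega
  have hx2 : 2 ≤ x := by omega
  let c : Fin n → Prop := fun v => v.val = 0 ∨ v.val = m ∨ v.val = 2 * m ∨ v.val = 3 * m
  let a : Fin n → ℕ := fun v => if c v then x else 2
  have hsum : ∀ (k : ℕ) (hk : k < 4) (h : k * m + m ≤ n),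
      ∑ v ∈ blk n (k * m) m h, a v + 1 = d := by
    intro k hk h
    have h0 : k * m < n := by omega
    have hmem : (⟨k * m, h0⟩ : Fin n) ∈ blk n (k * m) m h := by
      rw [mem_blk]
      constructor
      · exact le_rfl
      · show k * m < k * m + m
        omega
    have ha0 : a ⟨k * m, h0⟩ = x := by
      have : c ⟨k * m, h0⟩ := by
        show k * m = 0 ∨ k * m = m ∨ k * m = 2 * m ∨ k * m = 3 * m
        interval_cases k <;> simp
      exact if_pos this
    have ha1 : ∀ v ∈ (blk n (k * m) m h).erase ⟨k * m, h0⟩, a v = 2 := by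
      intro v hv
      rw [Finset.mem_erase, mem_blk] at hv
      refine if_neg ?_
      have hne : v.val ≠ k * m := fun h' => hv.1 (Fin.ext h')
      show ¬ (v.val = 0 ∨ v.val = m ∨ v.val = 2 * m ∨ v.val = 3 * m)
      obtain ⟨_, h1, h2⟩ := hv
      interval_cases k <;> omega
    rw [← Finset.sum_erase_add _ _ hmem, Finset.sum_congr rfl ha1, Finset.sum_const, ha0,
      Finset.card_erase_of_mem hmem, card_blk, smul_eq_mul]
    omega
  have hval : ∀ (i : ℕ) (hi : i < n), i ≠ 0 → i ≠ m → i ≠ 2 * m → i ≠ 3 * m →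
      a ⟨i, hi⟩ = 2 := by
    intro i hi h0 h1 h2 h3
    refine if_neg ?_
    show ¬ (i = 0 ∨ i = m ∨ i = 2 * m ∨ i = 3 * m)
    omega
  have hr : a ⟨3 * m - 1, by omega⟩ = 2 := by
    rcases Nat.lt_or_ge m 2 with h | h
    · have hm1 : m = 1 := by omega
      have hx' : x = 2 := by omega
      subst hm1
      subst hx'
      show (if _ then 2 else 2) = 2
      simp
    · exact hval _ _ (by omega) (by omega) (by omega) (by omega)
  have hdis : ∀ (k l : ℕ) (hk : k * m + m ≤ n) (hl : l * m + m ≤ n), k < l →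
      Disjoint (blk n (k * m) m hk) (blk n (l * m) m hl) := by
    intro k l hk hl hkl
    rw [Finset.disjoint_left]
    intro v h1 h2
    rw [mem_blk] at h1 h2
    have : (k + 1) * m ≤ l * m := Nat.mul_le_mul_right m hkl
    rw [add_mul] at this
    omega
  refine not_koszul_of_sets (s := m + 1) (by omega) a (A := blk n (0 * m) m (by omega))
    (C := blk n (1 * m) m (by omega)) (D := blk n (2 * m) m (by omega))
    (E := blk n (3 * m) m (by omega)) (p := ⟨4 * m, by omega⟩) (q := ⟨4 * m + 1, by omega⟩)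
    (r := ⟨3 * m - 1, by omega⟩) (by rw [card_blk]) (by rw [card_blk]) (by rw [card_blk])
    (by rw [card_blk]) (hsum 0 (by omega) _) (hsum 1 (by omega) _) (hsum 2 (by omega) _)
    (hsum 3 (by omega) _) (hval _ _ (by omega) (by omega) (by omega) (by omega))
    (hval _ _ (by omega) (by omega) (by omega) (by omega)) hr ?_ ?_ (hdis 0 1 _ _ (by omega))
    (hdis 0 2 _ _ (by omega)) (hdis 0 3 _ _ (by omega)) (hdis 1 2 _ _ (by omega))
    (hdis 1 3 _ _ (by omega)) (hdis 2 3 _ _ (by omega)) ?_ ?_ ?_ ?_ ?_ ?_ ?_ ?_ ?_ ?_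
  · intro h
    have := congrArg Fin.val h
    simp at this
  · rw [mem_blk]
    show 2 * m ≤ 3 * m - 1 ∧ 3 * m - 1 < 2 * m + m
    omega
  · rw [mem_blk]
    show ¬ (0 * m ≤ 4 * m ∧ 4 * m < 0 * m + m)
    omega
  · rw [mem_blk]
    show ¬ (1 * m ≤ 4 * m ∧ 4 * m < 1 * m + m)
    omega
  · rw [mem_blk]
    show ¬ (2 * m ≤ 4 * m ∧ 4 * m < 2 * m + m)
    omega
  · rw [mem_blk]
    show ¬ (3 * m ≤ 4 * m ∧ 4 * m < 3 * m + m)
    omega
  · rw [mem_blk]
    show ¬ (0 * m ≤ 4 * m + 1 ∧ 4 * m + 1 < 0 * m + m)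
    omega
  · rw [mem_blk]
    show ¬ (1 * m ≤ 4 * m + 1 ∧ 4 * m + 1 < 1 * m + m)
    omega
  · rw [mem_blk]
    show ¬ (2 * m ≤ 4 * m + 1 ∧ 4 * m + 1 < 2 * m + m)
    omega
  · rw [mem_blk]
    show ¬ (3 * m ≤ 4 * m + 1 ∧ 4 * m + 1 < 3 * m + m)
    omega
  · intro v
    show (if c v then x else 2) ≠ 0
    split_ifs <;> omega
  · intro T hT hTd
    have h1 : ∑ v ∈ T, a v = (T.filter c).card * x + (T.filter fun v => ¬ c v).card * 2 := by
      show ∑ v ∈ T, (if c v then x else 2) = _
      rw [Finset.sum_ite, Finset.sum_const, Finset.sum_const, smul_eq_mul, smul_eq_mul]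
    have h2 : (T.filter c).card + (T.filter fun v => ¬ c v).card = T.card :=
      Finset.card_filter_add_card_filter_not c
    have h3 : (T.filter c).card ≤ 4 := by
      refine (Finset.card_le_card_of_injOn (t := ({0, m, 2 * m, 3 * m} : Finset ℕ))
        (fun v : Fin n => v.val) ?_ ?_).trans Finset.card_le_four
      · intro v hv
        have hv' : c v := (Finset.mem_filter.1 hv).2
        simpa using hv'
      · intro v _ w _ h
        exact Fin.ext h
    rw [hTd] at h1
    generalize (T.filter c).card = i at h1 h2 h3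
    generalize (T.filter fun v => ¬ c v).card = j at h1 h2
    have hodd : Odd d → d % 2 = 1 := fun h => Nat.odd_iff.1 h
    have hds' : (m + 1 = 2 ∧ d = 3) ∨ (3 ≤ m + 1 ∧ 2 * (m + 1) ≤ d + 1 ∧
        (d % 2 = 1 ∨ 4 * (m + 1) ≤ d + 4)) :=
      hds.imp id fun h => ⟨h.1, h.2.1, h.2.2.imp hodd id⟩
    interval_cases i <;> omega

end Pool.Agent.Lib.MP_e26c3f_al.NK
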