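import Pool.Agent.Lib.MP_e26c3f_al.NotKoszul
import Pool.Agent.Lib.MP_e26c3f_al.NotKoszulCert

/-!
# An obstruction to the Koszul property over any field
-/

set_option autoImplicit false

namespace Pool.Agent.Lib.MP_e26c3f_al.NK

open MvPolynomial

section
variable {K : Type*} [Field K] {n d s : ℕ}

/-- The algebra is not Koszul if some cocycle is not zero on a cycle of a special form. -/
theorem not_koszul_of_cocycle (hd : 1 ≤ d)
    {χ1 χ2 χ3 : (Fin n →₀ ℕ) → (Fin n →₀ ℕ) → (Fin n →₀ ℕ) → K}
    (hrel : ∀ f1 f2 f3 f4 : MvPolynomial (Fin n) K, f1 ∈ PV K n d s → f2 ∈ linForms K n d s →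
      f3 ∈ linForms K n d s → f4 ∈ linForms K n d s →
      tri χ1 (f1 * f2) f3 f4 - tri χ2 f1 (f2 * f3) f4 + tri χ3 f1 f2 (f3 * f4) = 0)
    {g1 g1' g3 g3' h h' r r' : Fin n →₀ ℕ} (hg1 : g1 ∈ gens n d s) (hg1' : g1' ∈ gens n d s)
    (hg3 : g3 ∈ gens n d s) (hg3' : g3' ∈ gens n d s) (hh : h ∈ gens n d s)
    (hh' : h' ∈ gens n d s) (hr : r ∈ AddSubmonoid.closure (gens n d s))
    (hr' : r' ∈ AddSubmonoid.closure (gens n d s)) (e1 : g3 + g1 = g3' + g1')
    (e2 : h + g1 = h' + g1') (e3 : r + g3 = r' + h) (e4 : r + g3' = r' + h')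
    (hχ : χ1 r g3 g1 - χ1 r g3' g1' - χ1 r' h g1 + χ1 r' h' g1' ≠ 0) :
    ¬ IsKoszul K n d s := by
  classical
  rintro ⟨b, M, hb, hlin, hF0, hex⟩
  have j0 : Fin (b 0) := ⟨0, by omega⟩
  have hj0 : ∀ j : Fin (b 0), j = j0 := fun j => by
    ext
    have := j.2
    have := j0.2
    omega
  have husum : ∀ f : Fin (b 0) → PV K n d s, ∑ j, f j = f j0 := fun f => by
    rw [Finset.sum_eq_single j0]
    · intro j _ hj
      exact absurd (hj0 j) hj
    · simp
  -- the forms of the first matrix
  have hℓ : ∀ i a c, ((M i a c : PV K n d s) : MvPolynomial (Fin n) K).IsHomogeneous d :=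
    fun i a c => isHomogeneous_of_mem_linForms (hlin i a c)
  have step1 : ∀ g ∈ gens n d s, ∃ lam : Fin (b 1) → K,
      ∑ a, lam a • ((M 0 a j0 : PV K n d s) : MvPolynomial (Fin n) K) = monomial g 1 := by
    intro g hg
    obtain ⟨w, hw⟩ := (hF0 fun _ => ⟨monomial g 1, mon_mem (AddSubmonoid.subset_closure hg)⟩).2
      (fun j => by
        have hne : g ≠ 0 := fun h0 => by
          have := hg.1
          rw [h0, map_zero] at this
          omega
        show constantCoeff (monomial g (1 : K)) = 0
        rw [constantCoeff_eq, coeff_monomial, if_neg hne])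
    have h1 := congrFun hw j0
    rw [Matrix.vecMul, dotProduct] at h1
    have h2 := congrArg (fun x : PV K n d s => (x : MvPolynomial (Fin n) K)) h1
    simp only [AddSubmonoidClass.coe_finsetSum, MulMemClass.coe_mul] at h2
    exact ⟨_, sum_const (d := d) _ _ (fun a => hℓ 0 a j0) _ (isHomogeneous_monomial _ hg.1) h2⟩
  obtain ⟨lam, hlam⟩ := step1 g1 hg1
  obtain ⟨lam', hlam'⟩ := step1 g1' hg1'
  -- the second step
  have step2 : ∀ x x' : Fin n →₀ ℕ, x ∈ gens n d s → x' ∈ gens n d s → x + g1 = x' + g1' →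
      ∃ mu : Fin (b 2) → K, ∀ a, ∑ c, mu c • ((M 1 c a : PV K n d s) : MvPolynomial (Fin n) K) =
        lam a • monomial x 1 - lam' a • monomial x' 1 := by
    intro x x' hx hx' hxx
    let X : PV K n d s := ⟨monomial x 1, mon_mem (AddSubmonoid.subset_closure hx)⟩
    let X' : PV K n d s := ⟨monomial x' 1, mon_mem (AddSubmonoid.subset_closure hx')⟩
    obtain ⟨w, hw⟩ := (hex 0 fun a => lam a • X - lam' a • X').1 (by
      funext j
      rw [hj0 j, Matrix.vecMul, dotProduct]
      apply Subtype.ext
      simp only [AddSubmonoidClass.coe_finsetSum, MulMemClass.coe_mul, Pi.zero_apply,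
        ZeroMemClass.coe_zero]
      have h1 : ∀ a, ((lam a • X - lam' a • X' : PV K n d s) : MvPolynomial (Fin n) K) *
          ((M 0 a j0 : PV K n d s) : MvPolynomial (Fin n) K) =
          monomial x 1 * (lam a • ((M 0 a j0 : PV K n d s) : MvPolynomial (Fin n) K)) -
          monomial x' 1 * (lam' a • ((M 0 a j0 : PV K n d s) : MvPolynomial (Fin n) K)) := by
        intro a
        show (lam a • monomial x (1 : K) - lam' a • monomial x' 1) * _ = _
        rw [sub_mul, smul_mul_assoc, smul_mul_assoc, mul_smul_comm, mul_smul_comm]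
      rw [Finset.sum_congr rfl fun a _ => h1 a, Finset.sum_sub_distrib, ← Finset.mul_sum,
        ← Finset.mul_sum, hlam, hlam', monomial_mul, monomial_mul, mul_one, hxx, sub_self])
    refine ⟨fun c => constantCoeff ((w c : PV K n d s) : MvPolynomial (Fin n) K), fun a => ?_⟩
    have h1 := congrFun hw a
    rw [Matrix.vecMul, dotProduct] at h1
    have h2 := congrArg (fun x : PV K n d s => (x : MvPolynomial (Fin n) K)) h1
    simp only [AddSubmonoidClass.coe_finsetSum, MulMemClass.coe_mul] at h2
    refine sum_const (d := d) _ _ (fun c => hℓ 1 c a) _ ?_ h2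
    exact (homogeneousSubmodule (Fin n) K d).sub_mem
      ((homogeneousSubmodule (Fin n) K d).smul_mem _ (isHomogeneous_monomial _ hx.1))
      ((homogeneousSubmodule (Fin n) K d).smul_mem _ (isHomogeneous_monomial _ hx'.1))
  obtain ⟨mu, hmu⟩ := step2 g3 g3' hg3 hg3' e1
  obtain ⟨mu', hmu'⟩ := step2 h h' hh hh' e2
  -- the third step
  let P : PV K n d s := ⟨monomial r 1, mon_mem hr⟩
  let P' : PV K n d s := ⟨monomial r' 1, mon_mem hr'⟩
  obtain ⟨w, hw⟩ := (hex 1 fun c => mu c • P - mu' c • P').1 (by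
    funext a
    rw [Matrix.vecMul, dotProduct]
    apply Subtype.ext
    simp only [AddSubmonoidClass.coe_finsetSum, MulMemClass.coe_mul, Pi.zero_apply,
      ZeroMemClass.coe_zero]
    have h1 : ∀ c, ((mu c • P - mu' c • P' : PV K n d s) : MvPolynomial (Fin n) K) *
        ((M 1 c a : PV K n d s) : MvPolynomial (Fin n) K) =
        monomial r 1 * (mu c • ((M 1 c a : PV K n d s) : MvPolynomial (Fin n) K)) -
        monomial r' 1 * (mu' c • ((M 1 c a : PV K n d s) : MvPolynomial (Fin n) K)) := by
      intro c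
      show (mu c • monomial r (1 : K) - mu' c • monomial r' 1) * _ = _
      rw [sub_mul, smul_mul_assoc, smul_mul_assoc, mul_smul_comm, mul_smul_comm]
    rw [Finset.sum_congr rfl fun c _ => h1 c, Finset.sum_sub_distrib, ← Finset.mul_sum,
      ← Finset.mul_sum, hmu, hmu', mul_sub, mul_sub, mul_smul_comm, mul_smul_comm, mul_smul_comm,
      mul_smul_comm, monomial_mul, monomial_mul, monomial_mul, monomial_mul, mul_one, e3, e4,
      sub_self])
  have hw' : ∀ c, ∑ e, ((w e : PV K n d s) : MvPolynomial (Fin n) K) *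
      ((M 2 e c : PV K n d s) : MvPolynomial (Fin n) K) =
      mu c • monomial r 1 - mu' c • monomial r' 1 := by
    intro c
    have h1 := congrFun hw c
    rw [Matrix.vecMul, dotProduct] at h1
    have h2 := congrArg (fun x : PV K n d s => (x : MvPolynomial (Fin n) K)) h1
    simp only [AddSubmonoidClass.coe_finsetSum, MulMemClass.coe_mul] at h2
    exact h2
  -- products of consecutive matrices are zero
  have hMM : ∀ i e a, ∑ c, ((M (i + 1) e c : PV K n d s) : MvPolynomial (Fin n) K) *
      ((M i c a : PV K n d s) : MvPolynomial (Fin n) K) = 0 := by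
    intro i e a
    have h1 := (hex i (M (i + 1) e)).2 ⟨Pi.single e 1, by rw [Matrix.single_one_vecMul]; rfl⟩
    have h2 := congrFun h1 a
    rw [Matrix.vecMul, dotProduct] at h2
    have h3 := congrArg (fun x : PV K n d s => (x : MvPolynomial (Fin n) K)) h2
    simp only [AddSubmonoidClass.coe_finsetSum, MulMemClass.coe_mul, Pi.zero_apply,
      ZeroMemClass.coe_zero] at h3
    exact h3
  -- the sum of the cocycle conditions
  have hsum : ∑ e, ∑ c, ∑ a,
      (tri χ1 (((w e : PV K n d s) : MvPolynomial (Fin n) K) *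
          ((M 2 e c : PV K n d s) : MvPolynomial (Fin n) K))
          ((M 1 c a : PV K n d s) : MvPolynomial (Fin n) K)
          ((M 0 a j0 : PV K n d s) : MvPolynomial (Fin n) K)
        - tri χ2 ((w e : PV K n d s) : MvPolynomial (Fin n) K)
          (((M 2 e c : PV K n d s) : MvPolynomial (Fin n) K) *
          ((M 1 c a : PV K n d s) : MvPolynomial (Fin n) K))
          ((M 0 a j0 : PV K n d s) : MvPolynomial (Fin n) K)
        + tri χ3 ((w e : PV K n d s) : MvPolynomial (Fin n) K)
          ((M 2 e c : PV K n d s) : MvPolynomial (Fin n) K)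
          (((M 1 c a : PV K n d s) : MvPolynomial (Fin n) K) *
          ((M 0 a j0 : PV K n d s) : MvPolynomial (Fin n) K))) = 0 :=
    Finset.sum_eq_zero fun e _ => Finset.sum_eq_zero fun c _ => Finset.sum_eq_zero fun a _ =>
      hrel _ _ _ _ (w e).2 (hlin 2 e c) (hlin 1 c a) (hlin 0 a j0)
  simp only [Finset.sum_add_distrib, Finset.sum_sub_distrib] at hsum
  have h2 : ∑ e, ∑ c, ∑ a, tri χ2 ((w e : PV K n d s) : MvPolynomial (Fin n) K)
          (((M 2 e c : PV K n d s) : MvPolynomial (Fin n) K) *
          ((M 1 c a : PV K n d s) : MvPolynomial (Fin n) K))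
          ((M 0 a j0 : PV K n d s) : MvPolynomial (Fin n) K) = 0 := by
    refine Finset.sum_eq_zero fun e _ => ?_
    rw [Finset.sum_comm]
    refine Finset.sum_eq_zero fun a _ => ?_
    have h3 := hMM 1 e a
    rw [← LinearMap.sum_apply, ← map_sum, h3]
    simp
  have h3 : ∑ e, ∑ c, ∑ a, tri χ3 ((w e : PV K n d s) : MvPolynomial (Fin n) K)
          ((M 2 e c : PV K n d s) : MvPolynomial (Fin n) K)
          (((M 1 c a : PV K n d s) : MvPolynomial (Fin n) K) *
          ((M 0 a j0 : PV K n d s) : MvPolynomial (Fin n) K)) = 0 := by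
    refine Finset.sum_eq_zero fun e _ => Finset.sum_eq_zero fun c _ => ?_
    rw [← map_sum, hMM 0 c j0]
    simp
  rw [h2, h3, sub_zero, add_zero, Finset.sum_comm] at hsum
  have h4 : ∀ c, ∑ e, ∑ a, tri χ1 (((w e : PV K n d s) : MvPolynomial (Fin n) K) *
          ((M 2 e c : PV K n d s) : MvPolynomial (Fin n) K))
          ((M 1 c a : PV K n d s) : MvPolynomial (Fin n) K)
          ((M 0 a j0 : PV K n d s) : MvPolynomial (Fin n) K) =
      ∑ a, (tri χ1 (monomial r 1)
          (mu c • ((M 1 c a : PV K n d s) : MvPolynomial (Fin n) K))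
          ((M 0 a j0 : PV K n d s) : MvPolynomial (Fin n) K) -
        tri χ1 (monomial r' 1)
          (mu' c • ((M 1 c a : PV K n d s) : MvPolynomial (Fin n) K))
          ((M 0 a j0 : PV K n d s) : MvPolynomial (Fin n) K)) := by
    intro c
    rw [Finset.sum_comm]
    refine Finset.sum_congr rfl fun a _ => ?_
    rw [← LinearMap.sum_apply, ← LinearMap.sum_apply, ← map_sum, hw' c]
    simp only [map_sub, map_smul, LinearMap.sub_apply, LinearMap.smul_apply]
  rw [Finset.sum_congr rfl fun c _ => h4 c, Finset.sum_comm] at hsum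
  have h5 : ∀ a, ∑ c, (tri χ1 (monomial r 1)
          (mu c • ((M 1 c a : PV K n d s) : MvPolynomial (Fin n) K))
          ((M 0 a j0 : PV K n d s) : MvPolynomial (Fin n) K) -
        tri χ1 (monomial r' 1)
          (mu' c • ((M 1 c a : PV K n d s) : MvPolynomial (Fin n) K))
          ((M 0 a j0 : PV K n d s) : MvPolynomial (Fin n) K)) =
      (tri χ1 (monomial r 1) (monomial g3 1)
          (lam a • ((M 0 a j0 : PV K n d s) : MvPolynomial (Fin n) K)) -
       tri χ1 (monomial r 1) (monomial g3' 1)
          (lam' a • ((M 0 a j0 : PV K n d s) : MvPolynomial (Fin n) K))) -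
      (tri χ1 (monomial r' 1) (monomial h 1)
          (lam a • ((M 0 a j0 : PV K n d s) : MvPolynomial (Fin n) K)) -
       tri χ1 (monomial r' 1) (monomial h' 1)
          (lam' a • ((M 0 a j0 : PV K n d s) : MvPolynomial (Fin n) K))) := by
    intro a
    rw [Finset.sum_sub_distrib, ← LinearMap.sum_apply, ← map_sum, hmu a, ← LinearMap.sum_apply,
      ← map_sum, hmu' a]
    simp only [map_sub, map_smul, LinearMap.sub_apply, LinearMap.smul_apply]
  rw [Finset.sum_congr rfl fun a _ => h5 a, Finset.sum_sub_distrib, Finset.sum_sub_distrib,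
    Finset.sum_sub_distrib, ← map_sum, ← map_sum, ← map_sum, ← map_sum, hlam, hlam', tri_mon,
    tri_mon, tri_mon, tri_mon] at hsum
  apply hχ
  rw [← hsum]
  ring

end

/-! ### The cocycle condition -/

section
variable {K : Type*} [Field K] {n d s : ℕ}

/-- the multilinear form of the cocycle condition -/
theorem tri_rel_gen (hd : 1 ≤ d) {α : Fin n →₀ ℕ} (hα : α.degree = 4 * d)
    {χ : (Fin n →₀ ℕ) → (Fin n →₀ ℕ) → (Fin n →₀ ℕ) → K}
    (hoff : ∀ a b c, a + b + c ≠ α → χ a b c = 0)
    (hg : ∀ g1 ∈ gens n d s, ∀ g2 ∈ gens n d s, ∀ g3 ∈ gens n d s, ∀ g4 ∈ gens n d s,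
      g1 + g2 + g3 + g4 = α → χ (g1 + g2) g3 g4 - χ g1 (g2 + g3) g4 + χ g1 g2 (g3 + g4) = 0)
    (f1 f2 f3 f4 : MvPolynomial (Fin n) K)
    (h1 : f1 ∈ PV K n d s) (h2 : f2 ∈ linForms K n d s) (h3 : f3 ∈ linForms K n d s)
    (h4 : f4 ∈ linForms K n d s) :
    tri χ (f1 * f2) f3 f4 - tri χ f1 (f2 * f3) f4 + tri χ f1 f2 (f3 * f4) = 0 := by
  replace h1 := mem_PV_span h1
  unfold linForms at h2 h3 h4
  induction h1 using Submodule.span_induction with
  | zero => simp
  | add x y _ _ hx hy =>
    simp only [add_mul, map_add, LinearMap.add_apply]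
    linear_combination hx + hy
  | smul c x _ hx =>
    simp only [smul_mul_assoc, map_smul, LinearMap.smul_apply, smul_eq_mul]
    linear_combination c * hx
  | mem x hx =>
    obtain ⟨m1, hm1, rfl⟩ := hx
    induction h2 using Submodule.span_induction with
    | zero => simp
    | add x y _ _ hx hy =>
      simp only [add_mul, mul_add, map_add, LinearMap.add_apply]
      linear_combination hx + hy
    | smul c x _ hx =>
      simp only [smul_mul_assoc, mul_smul_comm, map_smul, LinearMap.smul_apply, smul_eq_mul]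
      linear_combination c * hx
    | mem x hx =>
      obtain ⟨m2, hm2, rfl⟩ := hx
      induction h3 using Submodule.span_induction with
      | zero => simp
      | add x y _ _ hx hy =>
        simp only [add_mul, mul_add, map_add, LinearMap.add_apply]
        linear_combination hx + hy
      | smul c x _ hx =>
        simp only [smul_mul_assoc, mul_smul_comm, map_smul, LinearMap.smul_apply, smul_eq_mul]
        linear_combination c * hx
      | mem x hx =>
        obtain ⟨m3, hm3, rfl⟩ := hx
        induction h4 using Submodule.span_induction with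
        | zero => simp
        | add x y _ _ hx hy =>
          simp only [mul_add, map_add]
          linear_combination hx + hy
        | smul c x _ hx =>
          simp only [mul_smul_comm, map_smul, smul_eq_mul]
          linear_combination c * hx
        | mem x hx =>
          obtain ⟨m4, hm4, rfl⟩ := hx
          simp only [monomial_mul, mul_one]
          rw [tri_mon, tri_mon, tri_mon]
          by_cases hsum : m1 + m2 + m3 + m4 = α
          · have hdeg : m1.degree = d := by
              have h5 := congrArg Finsupp.degree hsum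
              rw [map_add, map_add, map_add, hm2.1, hm3.1, hm4.1, hα] at h5
              omega
            exact hg _ (mem_gens_of_degree hd hm1 hdeg) _ hm2 _ hm3 _ hm4 hsum
          · rw [hoff _ _ _ hsum, hoff _ _ _ (fun h => hsum (by rw [← h]; abel)),
              hoff _ _ _ (fun h => hsum (by rw [← h]; abel))]
            simp

end

/-! ### Nine variables -/

section
variable {n : ℕ}

/-- the code of the type of an exponent vector -/
def cd (e : Fin 9 → Fin n) (g : Fin n →₀ ℕ) : ℕ :=
  code5 (g (e 0)) (g (e 1)) (g (e 2)) (g (e 3)) (g (e 4) + g (e 5) + g (e 6) + g (e 7) + g (e 8))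

theorem cd_add (e : Fin 9 → Fin n) (g h : Fin n →₀ ℕ) : cd e (g + h) = cd e g + cd e h := by
  unfold cd code5
  simp only [Finsupp.add_apply]
  ring

/-- the exponents are bounded by `(B,B,B,T,1,1,1,1,1)` and there are no other variables -/
structure Bd (e : Fin 9 → Fin n) (B T : ℕ) (g : Fin n →₀ ℕ) : Prop where
  b0 : g (e 0) ≤ B
  b1 : g (e 1) ≤ B
  b2 : g (e 2) ≤ B
  b3 : g (e 3) ≤ T
  b4 : g (e 4) ≤ 1
  b5 : g (e 5) ≤ 1
  b6 : g (e 6) ≤ 1
  b7 : g (e 7) ≤ 1
  b8 : g (e 8) ≤ 1
  out : ∀ v, (∀ j, e j ≠ v) → g v = 0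

theorem Bd.mono {e : Fin 9 → Fin n} {B T : ℕ} {g h : Fin n →₀ ℕ} (hb : Bd e B T (g + h)) :
    Bd e B T g := by
  have h := fun v => Finsupp.add_apply g h v
  constructor
  · have := hb.b0; rw [h] at this; omega
  · have := hb.b1; rw [h] at this; omega
  · have := hb.b2; rw [h] at this; omega
  · have := hb.b3; rw [h] at this; omega
  · have := hb.b4; rw [h] at this; omega
  · have := hb.b5; rw [h] at this; omega
  · have := hb.b6; rw [h] at this; omega
  · have := hb.b7; rw [h] at this; omega
  · have := hb.b8; rw [h] at this; omega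
  · intro v hv
    have := hb.out v hv
    rw [h] at this
    omega

theorem nv_cd {e : Fin 9 → Fin n} {B T : ℕ} {g : Fin n →₀ ℕ} (hb : Bd e B T g) (hB : B < 64)
    (hT : T < 64) : nv (cd e g) = (1 - (1 - g (e 0))) + (1 - (1 - g (e 1))) +
      (1 - (1 - g (e 2))) + (1 - (1 - g (e 3))) +
      (g (e 4) + g (e 5) + g (e 6) + g (e 7) + g (e 8)) := by
  obtain ⟨h0, h1, h2, h3, h4, h5, h6, h7, h8, _⟩ := hb
  unfold nv cd code5
  generalize g (e 0) = x at *
  generalize g (e 1) = y at *
  generalize g (e 2) = z at *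
  generalize g (e 3) = t at *
  generalize g (e 4) + g (e 5) + g (e 6) + g (e 7) + g (e 8) = o at *
  have e0 : (x + 64 * y + 4096 * z + 262144 * t + 16777216 * o) % 64 = x := by omega
  have e1 : (x + 64 * y + 4096 * z + 262144 * t + 16777216 * o) / 64 % 64 = y := by omega
  have e2 : (x + 64 * y + 4096 * z + 262144 * t + 16777216 * o) / 4096 % 64 = z := by omega
  have e3 : (x + 64 * y + 4096 * z + 262144 * t + 16777216 * o) / 262144 % 64 = t := by omega
  have e4 : (x + 64 * y + 4096 * z + 262144 * t + 16777216 * o) / 16777216 = o := by omega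
  rw [e0, e1, e2, e3, e4]

theorem okc_cd {e : Fin 9 → Fin n} {B T : ℕ} {g : Fin n →₀ ℕ} (hb : Bd e B T g) (hB : B < 64)
    (hT : T < 64) : okc B T (cd e g) = true := by
  obtain ⟨h0, h1, h2, h3, h4, h5, h6, h7, h8, _⟩ := hb
  have ho : g (e 4) + g (e 5) + g (e 6) + g (e 7) + g (e 8) ≤ 5 := by omega
  unfold okc cd code5
  generalize g (e 0) = x at *
  generalize g (e 1) = y at *
  generalize g (e 2) = z at *
  generalize g (e 3) = t at *
  generalize g (e 4) + g (e 5) + g (e 6) + g (e 7) + g (e 8) = o at *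
  have e0 : (x + 64 * y + 4096 * z + 262144 * t + 16777216 * o) % 64 = x := by omega
  have e1 : (x + 64 * y + 4096 * z + 262144 * t + 16777216 * o) / 64 % 64 = y := by omega
  have e2 : (x + 64 * y + 4096 * z + 262144 * t + 16777216 * o) / 4096 % 64 = z := by omega
  have e3 : (x + 64 * y + 4096 * z + 262144 * t + 16777216 * o) / 262144 % 64 = t := by omega
  have e4 : (x + 64 * y + 4096 * z + 262144 * t + 16777216 * o) / 16777216 = o := by omega
  rw [e0, e1, e2, e3, e4, Nat.ble_eq_true_of_le h0, Nat.ble_eq_true_of_le h1,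
    Nat.ble_eq_true_of_le h2, Nat.ble_eq_true_of_le h3, Nat.ble_eq_true_of_le ho]
  rfl

theorem bd_degree {e : Fin 9 → Fin n} (he : Function.Injective e) {B T : ℕ} {g : Fin n →₀ ℕ}
    (hb : Bd e B T g) : g.degree = g (e 0) + g (e 1) + g (e 2) + g (e 3) +
      (g (e 4) + g (e 5) + g (e 6) + g (e 7) + g (e 8)) := by
  classical
  rw [Finsupp.degree_eq_sum]
  have h1 : ∑ v, g v = ∑ v ∈ Finset.univ.image e, g v := by
    refine (Finset.sum_subset (Finset.subset_univ _) fun v _ hv => hb.out v fun j hj => hv ?_).symm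
    exact Finset.mem_image.2 ⟨j, Finset.mem_univ _, hj⟩
  rw [h1, Finset.sum_image (fun x _ y _ h => he h)]
  simp only [Fin.sum_univ_succ, Fin.sum_univ_zero, add_zero]
  rw [show (Fin.succ (Fin.succ (0 : Fin 7))) = (2 : Fin 9) from rfl,
    show (Fin.succ (0 : Fin 8)) = (1 : Fin 9) from rfl]
  show g (e 0) + (g (e 1) + (g (e 2) + (g (e 3) + (g (e 4) + (g (e 5) + (g (e 6) +
    (g (e 7) + g (e 8)))))))) = _
  ring

theorem bd_card {e : Fin 9 → Fin n} (he : Function.Injective e) {B T : ℕ} {g : Fin n →₀ ℕ}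
    (hb : Bd e B T g) : (1 - (1 - g (e 0))) + (1 - (1 - g (e 1))) +
      (1 - (1 - g (e 2))) + (1 - (1 - g (e 3))) +
      (g (e 4) + g (e 5) + g (e 6) + g (e 7) + g (e 8)) ≤ g.support.card := by
  classical
  have h1 : (Finset.univ.filter fun j => g (e j) ≠ 0).card ≤ g.support.card :=
    Finset.card_le_card_of_injOn e (fun j hj => by
      have := (Finset.mem_filter.1 hj).2
      simpa using this) (fun x _ y _ h => he h)
  refine le_trans (le_of_eq ?_) h1
  rw [Finset.card_filter]
  simp only [Fin.sum_univ_succ, Fin.sum_univ_zero, add_zero]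
  show _ = (if g (e 0) ≠ 0 then 1 else 0) + ((if g (e 1) ≠ 0 then 1 else 0) +
    ((if g (e 2) ≠ 0 then 1 else 0) + ((if g (e 3) ≠ 0 then 1 else 0) +
    ((if g (e 4) ≠ 0 then 1 else 0) + ((if g (e 5) ≠ 0 then 1 else 0) +
    ((if g (e 6) ≠ 0 then 1 else 0) + ((if g (e 7) ≠ 0 then 1 else 0) +
    (if g (e 8) ≠ 0 then 1 else 0))))))))
  have nz : ∀ k : ℕ, (if k ≠ 0 then 1 else 0) = 1 - (1 - k) := fun k => by
    split_ifs with h <;> omega
  have nz1 : ∀ k : ℕ, k ≤ 1 → (if k ≠ 0 then 1 else 0) = k := fun k hk => by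
    split_ifs with h <;> omega
  rw [nz (g (e 0)), nz (g (e 1)), nz (g (e 2)), nz (g (e 3)), nz1 _ hb.b4, nz1 _ hb.b5,
    nz1 _ hb.b6, nz1 _ hb.b7, nz1 _ hb.b8]
  omega

end

/-! ### The cycle -/

section
variable {n : ℕ}

theorem three_mem {d : ℕ} (x y z : Fin n) (a b c : ℕ) (h : a + b + c = d) :
    Finsupp.single x a + Finsupp.single y b + Finsupp.single z c ∈ gens n d 3 := by
  classical
  refine ⟨by simp only [map_add, Finsupp.degree_single]; exact h, ?_⟩
  refine (Finset.card_le_card (t := {x, y, z}) fun w hw => ?_).trans Finset.card_le_three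
  rw [Finsupp.mem_support_iff, add_ne, add_ne] at hw
  simp only [Finset.mem_insert, Finset.mem_singleton]
  rcases hw with (hw | hw) | hw
  · exact Or.inl (single_ne hw)
  · exact Or.inr (Or.inl (single_ne hw))
  · exact Or.inr (Or.inr (single_ne hw))

/-- only the nine variables occur -/
def In (e : Fin 9 → Fin n) (g : Fin n →₀ ℕ) : Prop := ∀ v, (∀ j, e j ≠ v) → g v = 0

theorem In.add {e : Fin 9 → Fin n} {g h : Fin n →₀ ℕ} (hg : In e g) (hh : In e h) :
    In e (g + h) := fun v hv => by
  rw [Finsupp.add_apply, hg v hv, hh v hv]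

theorem In.single (e : Fin 9 → Fin n) (i : Fin 9) (k : ℕ) : In e (Finsupp.single (e i) k) :=
  fun v hv => by
    classical
    rw [Finsupp.single_apply, if_neg (hv i)]

theorem ext_e {e : Fin 9 → Fin n} {g h : Fin n →₀ ℕ} (hg : In e g) (hh : In e h)
    (h0 : g (e 0) = h (e 0)) (h1 : g (e 1) = h (e 1)) (h2 : g (e 2) = h (e 2))
    (h3 : g (e 3) = h (e 3)) (h4 : g (e 4) = h (e 4)) (h5 : g (e 5) = h (e 5))
    (h6 : g (e 6) = h (e 6)) (h7 : g (e 7) = h (e 7)) (h8 : g (e 8) = h (e 8)) : g = h := by
  ext v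
  by_cases hv : ∃ j, e j = v
  · obtain ⟨j, rfl⟩ := hv
    fin_cases j
    · exact h0
    · exact h1
    · exact h2
    · exact h3
    · exact h4
    · exact h5
    · exact h6
    · exact h7
    · exact h8
  · have hv' : ∀ j, e j ≠ v := fun j hj => hv ⟨j, hj⟩
    rw [hg v hv', hh v hv']

/-- the exponent vector `(B,B,B,T,1,1,1,1,1)` -/
noncomputable def alp (e : Fin 9 → Fin n) (B T : ℕ) : Fin n →₀ ℕ :=
  Finsupp.single (e 0) B + Finsupp.single (e 1) B + Finsupp.single (e 2) B +
    Finsupp.single (e 3) T + (Finsupp.single (e 4) 1 + Finsupp.single (e 5) 1 +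
    Finsupp.single (e 6) 1 + Finsupp.single (e 7) 1 + Finsupp.single (e 8) 1)

theorem single_e {e : Fin 9 → Fin n} (he : Function.Injective e) (i j : Fin 9) (k : ℕ) :
    Finsupp.single (e i) k (e j) = if i = j then k else 0 := by
  classical
  rw [Finsupp.single_apply]
  exact if_congr he.eq_iff rfl rfl

theorem alp_bd {e : Fin 9 → Fin n} (he : Function.Injective e) (B T : ℕ) :
    Bd e B T (alp e B T) := by
  unfold alp
  refine ⟨?_, ?_, ?_, ?_, ?_, ?_, ?_, ?_, ?_, fun v hv => ?_⟩
  iterate 9 simp [single_e he]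
  have h : ∀ j k, Finsupp.single (e j) k v = 0 := fun j k => by
    classical
    rw [Finsupp.single_apply, if_neg (hv j)]
  simp only [Finsupp.add_apply, h, add_zero]

theorem alp_degree (e : Fin 9 → Fin n) (B T : ℕ) : (alp e B T).degree = 3 * B + T + 5 := by
  unfold alp
  simp only [map_add, Finsupp.degree_single]
  omega

open Classical in
/-- the cochain on exponent vectors -/
noncomputable def chi (K : Type*) [Field K] (e : Fin 9 → Fin n) (P N : List ℕ)
    (α a b c : Fin n →₀ ℕ) : K :=
  if a + b + c = α then ((phi P N (cd e a) (cd e (a + b)) : ℤ) : K) else 0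

theorem chi_cocycle {K : Type*} [Field K] {e : Fin 9 → Fin n} (he : Function.Injective e)
    {d B T A : ℕ} {TG P N : List ℕ} (hB : B < 64) (hT : T < 64)
    (htg : tgchk d B T TG = true) (hchk : chk B T A TG P N = true)
    (hA : cd e (alp e B T) = A) :
    ∀ g1 ∈ gens n d 3, ∀ g2 ∈ gens n d 3, ∀ g3 ∈ gens n d 3, ∀ g4 ∈ gens n d 3,
      g1 + g2 + g3 + g4 = alp e B T →
      chi K e P N (alp e B T) (g1 + g2) g3 g4 - chi K e P N (alp e B T) g1 (g2 + g3) g4 +
        chi K e P N (alp e B T) g1 g2 (g3 + g4) = 0 := by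
  intro g1 h1 g2 h2 g3 h3 g4 h4 hsum
  have hb := alp_bd he B T
  have b1 : Bd e B T g1 := Bd.mono (h := g2 + g3 + g4) (by
    rw [show g1 + (g2 + g3 + g4) = alp e B T by rw [← hsum]; abel]; exact hb)
  have b2 : Bd e B T g2 := Bd.mono (h := g1 + g3 + g4) (by
    rw [show g2 + (g1 + g3 + g4) = alp e B T by rw [← hsum]; abel]; exact hb)
  have b3 : Bd e B T g3 := Bd.mono (h := g1 + g2 + g4) (by
    rw [show g3 + (g1 + g2 + g4) = alp e B T by rw [← hsum]; abel]; exact hb)
  have b4 : Bd e B T g4 := Bd.mono (h := g1 + g2 + g3) (by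
    rw [show g4 + (g1 + g2 + g3) = alp e B T by rw [← hsum]; abel]; exact hb)
  have b12 : Bd e B T (g1 + g2) := Bd.mono (h := g3 + g4) (by
    rw [show g1 + g2 + (g3 + g4) = alp e B T by rw [← hsum]; abel]; exact hb)
  have b123 : Bd e B T (g1 + g2 + g3) := Bd.mono (h := g4) (by
    rw [hsum]; exact hb)
  have b34 : Bd e B T (g3 + g4) := Bd.mono (h := g1 + g2) (by
    rw [show g3 + g4 + (g1 + g2) = alp e B T by rw [← hsum]; abel]; exact hb)
  have memt : ∀ g : Fin n →₀ ℕ, g ∈ gens n d 3 → Bd e B T g → cd e g ∈ TG := by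
    intro g hg hbg
    have hdeg := bd_degree he hbg
    have hcard := bd_card he hbg
    rw [hg.1] at hdeg
    have := hg.2
    obtain ⟨c0, c1, c2, c3, c4, c5, c6, c7, c8, _⟩ := hbg
    exact mem_of_tgchk htg c0 c1 c2 c3 (by omega) (by omega) (by omega)
  have nvt : ∀ g : Fin n →₀ ℕ, g ∈ gens n d 3 → Bd e B T g → nv (cd e g) ≤ 3 := by
    intro g hg hbg
    rw [nv_cd hbg hB hT]
    exact (bd_card he hbg).trans hg.2
  have hcd : A = cd e g1 + cd e g2 + cd e g3 + cd e g4 := by
    rw [← hA, ← hsum, cd_add, cd_add, cd_add]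
  have hrel := rel_of_chk hchk (memt g1 h1 b1) (memt g2 h2 b2) (memt g3 h3 b3)
    (by rw [← cd_add]; exact okc_cd b12 hB hT)
    (by
      rw [hcd, show cd e g1 + cd e g2 + cd e g3 + cd e g4 - (cd e g1 + cd e g2) =
        cd e g3 + cd e g4 by omega, ← cd_add, nv_cd b34 hB hT]
      have n3 := nvt g3 h3 b3
      have n4 := nvt g4 h4 b4
      rw [nv_cd b3 hB hT] at n3
      rw [nv_cd b4 hB hT] at n4
      simp only [Finsupp.add_apply]
      omega)
    (by rw [← cd_add, ← cd_add]; exact okc_cd b123 hB hT)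
    (by
      rw [hcd, show cd e g1 + cd e g2 + cd e g3 + cd e g4 - (cd e g1 + cd e g2 + cd e g3) =
        cd e g4 by omega]
      exact nvt g4 h4 b4)
  unfold chi
  rw [if_pos hsum, if_pos (show g1 + (g2 + g3) + g4 = alp e B T by rw [← hsum]; abel),
    if_pos (show g1 + g2 + (g3 + g4) = alp e B T by rw [← hsum]; abel), ← add_assoc,
    cd_add e (g1 + g2) g3, cd_add e g1 g2]
  have := congrArg (fun x : ℤ => (x : K)) hrel
  push_cast at this
  exact this

/-- The algebras `PV(n,7,3)` and `PV(n,8,3)`. -/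
theorem not_koszul_nine {K : Type*} [Field K] {e : Fin 9 → Fin n} (he : Function.Injective e)
    {d T : ℕ} {TG P N : List ℕ} (hd : d = T + 5) (hT : 2 ≤ T) (hT' : T < 50)
    (htg : tgchk d d T TG = true) (hchk : chk d T (code5 d d d T 5) TG P N = true)
    (v1 : phi P N (code5 0 d (T + 2) 0 3) (code5 (T + 1) d d 0 4) = 0)
    (v2 : phi P N (code5 0 d (T + 2) 0 3) (code5 2 d d T 3) = -1)
    (v3 : phi P N (code5 0 (T + 2) d 0 3) (code5 (T + 1) d d 0 4) = 0)
    (v4 : phi P N (code5 0 (T + 2) d 0 3) (code5 2 d d T 3) = 0) :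
    ¬ IsKoszul K n d 3 := by
  classical
  subst hd
  have hA : cd e (alp e (T + 5) T) = code5 (T + 5) (T + 5) (T + 5) T 5 := by
    unfold cd alp
    simp only [Finsupp.add_apply, single_e he]
    simp
  have hdeg : (alp e (T + 5) T).degree = 4 * (T + 5) := by
    rw [alp_degree]
    omega

  -- the pieces
  have m1 := three_mem (d := T + 5) (e 0) (e 3) (e 4) 4 T 1 (by omega)
  have m1' := three_mem (d := T + 5) (e 0) (e 4) (e 5) (T + 3) 1 1 (by omega)
  have m3 := three_mem (d := T + 5) (e 0) (e 2) (e 5) (T + 1) 3 1 (by omega)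
  have m3' := three_mem (d := T + 5) (e 0) (e 2) (e 3) 2 3 T (by omega)
  have mh := three_mem (d := T + 5) (e 0) (e 1) (e 5) (T + 1) 3 1 (by omega)
  have mh' := three_mem (d := T + 5) (e 0) (e 1) (e 3) 2 3 T (by omega)
  have mr := add_mem (AddSubmonoid.subset_closure (three_mem (d := T + 5) (e 1) (e 6) (e 7)
    (T + 3) 1 1 (by omega))) (AddSubmonoid.subset_closure (three_mem (d := T + 5) (e 1) (e 2)
    (e 8) 2 (T + 2) 1 (by omega)))
  have mr' := add_mem (AddSubmonoid.subset_closure (three_mem (d := T + 5) (e 2) (e 6) (e 7)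
    (T + 3) 1 1 (by omega))) (AddSubmonoid.subset_closure (three_mem (d := T + 5) (e 2) (e 1)
    (e 8) 2 (T + 2) 1 (by omega)))
  refine not_koszul_of_cocycle (χ1 := chi K e P N (alp e (T + 5) T))
    (χ2 := chi K e P N (alp e (T + 5) T)) (χ3 := chi K e P N (alp e (T + 5) T)) (by omega)
    (tri_rel_gen (by omega) hdeg (fun a b c h => if_neg h)
      (chi_cocycle he (by omega) (by omega) htg hchk hA))
    m1 m1' m3 m3' mh mh' mr mr' ?_ ?_ ?_ ?_ ?_
  · refine ext_e (e := e) ?_ ?_ ?_ ?_ ?_ ?_ ?_ ?_ ?_ ?_ ?_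
    · exact (((In.single e _ _).add (In.single e _ _)).add (In.single e _ _)).add
        (((In.single e _ _).add (In.single e _ _)).add (In.single e _ _))
    · exact (((In.single e _ _).add (In.single e _ _)).add (In.single e _ _)).add
        (((In.single e _ _).add (In.single e _ _)).add (In.single e _ _))
    all_goals
      simp only [Finsupp.add_apply, single_e he]
      simp
    all_goals omega
  · refine ext_e (e := e) ?_ ?_ ?_ ?_ ?_ ?_ ?_ ?_ ?_ ?_ ?_
    · exact (((In.single e _ _).add (In.single e _ _)).add (In.single e _ _)).add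
        (((In.single e _ _).add (In.single e _ _)).add (In.single e _ _))
    · exact (((In.single e _ _).add (In.single e _ _)).add (In.single e _ _)).add
        (((In.single e _ _).add (In.single e _ _)).add (In.single e _ _))
    all_goals
      simp only [Finsupp.add_apply, single_e he]
      simp
    all_goals omega
  · refine ext_e (e := e) ?_ ?_ ?_ ?_ ?_ ?_ ?_ ?_ ?_ ?_ ?_
    · exact ((((In.single e _ _).add (In.single e _ _)).add (In.single e _ _)).add
        (((In.single e _ _).add (In.single e _ _)).add (In.single e _ _))).add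
        (((In.single e _ _).add (In.single e _ _)).add (In.single e _ _))
    · exact ((((In.single e _ _).add (In.single e _ _)).add (In.single e _ _)).add
        (((In.single e _ _).add (In.single e _ _)).add (In.single e _ _))).add
        (((In.single e _ _).add (In.single e _ _)).add (In.single e _ _))
    all_goals
      simp only [Finsupp.add_apply, single_e he]
      simp
  · refine ext_e (e := e) ?_ ?_ ?_ ?_ ?_ ?_ ?_ ?_ ?_ ?_ ?_
    · exact ((((In.single e _ _).add (In.single e _ _)).add (In.single e _ _)).add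
        (((In.single e _ _).add (In.single e _ _)).add (In.single e _ _))).add
        (((In.single e _ _).add (In.single e _ _)).add (In.single e _ _))
    · exact ((((In.single e _ _).add (In.single e _ _)).add (In.single e _ _)).add
        (((In.single e _ _).add (In.single e _ _)).add (In.single e _ _))).add
        (((In.single e _ _).add (In.single e _ _)).add (In.single e _ _))
    all_goals
      simp only [Finsupp.add_apply, single_e he]
      simp
  · unfold chi
    have c1 : cd e (Finsupp.single (e 1) (T + 3) + Finsupp.single (e 6) 1 + Finsupp.single (e 7) 1 +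
        (Finsupp.single (e 1) 2 + Finsupp.single (e 2) (T + 2) + Finsupp.single (e 8) 1)) =
        code5 0 (T + 5) (T + 2) 0 3 := by
      unfold cd
      simp only [Finsupp.add_apply, single_e he]
      simp
    have c2 : cd e (Finsupp.single (e 2) (T + 3) + Finsupp.single (e 6) 1 + Finsupp.single (e 7) 1 +
        (Finsupp.single (e 2) 2 + Finsupp.single (e 1) (T + 2) + Finsupp.single (e 8) 1)) =
        code5 0 (T + 2) (T + 5) 0 3 := by
      unfold cd
      simp only [Finsupp.add_apply, single_e he]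
      simp
    have c3 : cd e (Finsupp.single (e 1) (T + 3) + Finsupp.single (e 6) 1 + Finsupp.single (e 7) 1 +
        (Finsupp.single (e 1) 2 + Finsupp.single (e 2) (T + 2) + Finsupp.single (e 8) 1) +
        (Finsupp.single (e 0) (T + 1) + Finsupp.single (e 2) 3 + Finsupp.single (e 5) 1)) =
        code5 (T + 1) (T + 5) (T + 5) 0 4 := by
      unfold cd
      simp only [Finsupp.add_apply, single_e he]
      simp
    have c4 : cd e (Finsupp.single (e 1) (T + 3) + Finsupp.single (e 6) 1 + Finsupp.single (e 7) 1 +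
        (Finsupp.single (e 1) 2 + Finsupp.single (e 2) (T + 2) + Finsupp.single (e 8) 1) +
        (Finsupp.single (e 0) 2 + Finsupp.single (e 2) 3 + Finsupp.single (e 3) T)) =
        code5 2 (T + 5) (T + 5) T 3 := by
      unfold cd
      simp only [Finsupp.add_apply, single_e he]
      simp
    have c5 : cd e (Finsupp.single (e 2) (T + 3) + Finsupp.single (e 6) 1 + Finsupp.single (e 7) 1 +
        (Finsupp.single (e 2) 2 + Finsupp.single (e 1) (T + 2) + Finsupp.single (e 8) 1) +
        (Finsupp.single (e 0) (T + 1) + Finsupp.single (e 1) 3 + Finsupp.single (e 5) 1)) =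
        code5 (T + 1) (T + 5) (T + 5) 0 4 := by
      unfold cd
      simp only [Finsupp.add_apply, single_e he]
      simp
    have c6 : cd e (Finsupp.single (e 2) (T + 3) + Finsupp.single (e 6) 1 + Finsupp.single (e 7) 1 +
        (Finsupp.single (e 2) 2 + Finsupp.single (e 1) (T + 2) + Finsupp.single (e 8) 1) +
        (Finsupp.single (e 0) 2 + Finsupp.single (e 1) 3 + Finsupp.single (e 3) T)) =
        code5 2 (T + 5) (T + 5) T 3 := by
      unfold cd
      simp only [Finsupp.add_apply, single_e he]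
      simp
    rw [if_pos, if_pos, if_pos, if_pos, c1, c2, c3, c4, c5, c6, v1, v2, v3, v4]
    · norm_num
    all_goals
      unfold alp
      refine ext_e (e := e) ?_ ?_ ?_ ?_ ?_ ?_ ?_ ?_ ?_ ?_ ?_
      · exact (((((In.single e _ _).add (In.single e _ _)).add (In.single e _ _)).add
          (((In.single e _ _).add (In.single e _ _)).add (In.single e _ _))).add
          (((In.single e _ _).add (In.single e _ _)).add (In.single e _ _))).add
          (((In.single e _ _).add (In.single e _ _)).add (In.single e _ _))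
      · exact ((((In.single e _ _).add (In.single e _ _)).add (In.single e _ _)).add
          (In.single e _ _)).add (((((In.single e _ _).add (In.single e _ _)).add
          (In.single e _ _)).add (In.single e _ _)).add (In.single e _ _))
      all_goals
        simp only [Finsupp.add_apply, single_e he]
        simp
      all_goals try omega

/-- The algebras `PV(n,7,3)` and `PV(n,8,3)`, `n ≥ 9`, are not Koszul over any field. -/
theorem not_koszul_all (K : Type*) [Field K] (n d : ℕ) (hn : 9 ≤ n) (hd : d = 7 ∨ d = 8) :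
    ¬ IsKoszul K n d 3 := by
  have he : Function.Injective (Fin.castLE hn) := Fin.castLE_injective hn
  rcases hd with rfl | rfl
  · exact not_koszul_nine he (T := 2) rfl (by omega) (by omega) tgchk7 chk7 (by decide +kernel)
      (by decide +kernel) (by decide +kernel) (by decide +kernel)
  · exact not_koszul_nine he (T := 3) rfl (by omega) (by omega) tgchk8 chk8 (by decide +kernel)
      (by decide +kernel) (by decide +kernel) (by decide +kernel)

end

end Pool.Agent.Lib.MP_e26c3f_al.NK
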